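import Pool.Agent.H17.RP.Basic

/-!
# Alg: algebra

`F_cc_dt`: norm of `w * conj w'`.  `ab_coprime`: a common prime factor `q` of `cc` and `3 dt` is `3` or
divides `dt` (so `q ≤ Y`), and it divides `F cc dt` (if `q = 3`: `F cc dt = cc² mod 3`), hence `Nm w` or
`Nm w'`, which are rough.  `a_mod`: `cc = w.1 w'.1 mod 3`.

`coinc`: with `N = Nm w`, `N' = Nm w'`, `v = w.2`, `v' = w'.2`, `u = w.1`, `u' = w'.1`:
`dt (dt² + 3v²v'²) = 2 dt (v'² N + v² N') + (v'u + vu' + 3vv')(v'² N - v² N')` (`ring`).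
-/

set_option autoImplicit false

namespace Pool.Agent.H17.RP

open Finset

theorem F_cc_dt (w w' : ℤ × ℤ) : F (cc w w') (dt w w') = Nm w * Nm w' := by
  unfold F cc dt Nm F; ring

theorem F_pos {x y : ℤ} (h : x ≠ 0 ∨ y ≠ 0) : 0 < F x y := by
  unfold F
  have h1 : 4 * (x ^ 2 + 3 * x * y + 3 * y ^ 2) = (2 * x + 3 * y) ^ 2 + 3 * y ^ 2 := by ring
  rcases eq_or_ne y 0 with h2 | h2
  · subst h2
    have h3 : x ≠ 0 := by simpa using h
    have := sq_pos_of_ne_zero (a := x) h3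
    nlinarith
  · have := sq_pos_of_ne_zero (a := y) h2
    nlinarith [sq_nonneg (2 * x + 3 * y)]

theorem fk_eq (k : ℤ) : fk k = F 1 k := by unfold fk F; ring

theorem fk_pos (k : ℤ) : 0 < fk k := by rw [fk_eq]; exact F_pos (Or.inl one_ne_zero)

theorem fk_neg (k : ℤ) : fk (-1 - k) = fk k := by unfold fk; ring

theorem F_neg (x y : ℤ) : F (-x) (-y) = F x y := by unfold F; ring

theorem dt_sh (n : ℤ) (w w' : ℤ × ℤ) : dt (sh n w) (sh n w') = dt w w' := by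
  unfold dt sh; ring

theorem sh_lin (n : ℤ) (e f p : ℤ × ℤ) : sh n (lin e f p) = lin (sh n e) (sh n f) p := by
  unfold sh lin; simp only [Prod.mk.injEq]; exact ⟨by ring, trivial⟩

theorem sh_sh (n m : ℤ) (w : ℤ × ℤ) : sh n (sh m w) = sh (n + m) w := by
  unfold sh; simp only [Prod.mk.injEq]; exact ⟨by ring, trivial⟩

theorem dt_lin (e f p q : ℤ × ℤ) : dt (lin e f p) (lin e f q) = -(dt e f * dt p q) := by
  unfold dt lin; ring

theorem basis_sh {e f : ℤ × ℤ} (h : Basis2 e f) (n : ℤ) : Basis2 (sh n e) (sh n f) := by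
  unfold Basis2 at *; rwa [dt_sh]

/-- `w` primitive, then so is `sh n w` -/
theorem coprime_sh {w : ℤ × ℤ} (h : IsCoprime w.1 w.2) (n : ℤ) :
    IsCoprime (sh n w).1 (sh n w).2 := by
  obtain ⟨a, b, hab⟩ := h
  exact ⟨a, b - a * n, by unfold sh; linear_combination hab⟩

theorem coprime_lin {e f p : ℤ × ℤ} (hb : Basis2 e f) (h : IsCoprime p.1 p.2) :
    IsCoprime (lin e f p).1 (lin e f p).2 := by
  obtain ⟨a, b, hab⟩ := h
  have hd : (dt e f) * (dt e f) = 1 := by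
    rcases hb with h | h <;> rw [h] <;> norm_num
  -- dt e f = e.2 f.1 - e.1 f.2
  refine ⟨dt e f * (b * e.2 - a * f.2), dt e f * (a * f.1 - b * e.1), ?_⟩
  have key : dt e f * (b * e.2 - a * f.2) * (lin e f p).1 +
      dt e f * (a * f.1 - b * e.1) * (lin e f p).2 = dt e f * dt e f * (a * p.1 + b * p.2) := by
    unfold lin dt; ring
  rw [key, hd, hab]; norm_num

theorem lam_mul {m n : ℤ} (hm : m ≠ 0) (hn : n ≠ 0) : lam (m * n) = lam m * lam n := by
  unfold lam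
  rw [Int.natAbs_mul, ArithmeticFunction.cardFactors_mul (Int.natAbs_ne_zero.mpr hm)
    (Int.natAbs_ne_zero.mpr hn), pow_add]

theorem lam_sq (m : ℤ) : lam m * lam m = 1 := by
  unfold lam
  rw [← pow_add, ← two_mul, pow_mul]
  norm_num

theorem lam_cases (m : ℤ) : lam m = 1 ∨ lam m = -1 := by
  unfold lam
  exact neg_one_pow_eq_or ℤ _

theorem lam_one : lam 1 = 1 := by
  unfold lam
  simp

theorem sg_mod {w : ℤ × ℤ} (h : ¬ (3 : ℤ) ∣ w.1) : (sg w * w.1) % 3 = 1 := by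
  unfold sg
  split_ifs with h1 <;> omega

theorem sg_cases (w : ℤ × ℤ) : sg w = 1 ∨ sg w = -1 := by
  unfold sg; split_ifs <;> simp

/-- `sg (sh n w)` depends only on `n` modulo `3` -/
theorem sg_sh {n n' : ℤ} (h : (3 : ℤ) ∣ n - n') (w : ℤ × ℤ) : sg (sh n w) = sg (sh n' w) := by
  obtain ⟨c, hc⟩ := h
  have h1 : (sh n w).1 % 3 = (sh n' w).1 % 3 := by
    have : (sh n w).1 = (sh n' w).1 + 3 * (c * w.2) := by
      unfold sh
      linear_combination w.2 * hc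
    omega
  unfold sg
  rw [h1]

theorem a_mod {w w' : ℤ × ℤ} (h : ¬ (3 : ℤ) ∣ w.1) (h' : ¬ (3 : ℤ) ∣ w'.1) :
    (sg w * sg w' * cc w w') % 3 = 1 := by
  have h1 := sg_mod h
  have h2 := sg_mod h'
  have e : sg w * sg w' * cc w w' = (sg w * w.1) * (sg w' * w'.1) +
      3 * (sg w * sg w' * (w.1 * w'.2 + w.2 * w'.2)) := by
    unfold cc; ring
  rw [e, Int.add_mul_emod_self_left, Int.mul_emod, h1, h2]
  norm_num

/-- `3 ∣ Nm w` iff `3 ∣ w.1` -/
theorem three_dvd (w : ℤ × ℤ) : (3 : ℤ) ∣ Nm w ↔ (3 : ℤ) ∣ w.1 := by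
  have e : Nm w = w.1 ^ 2 + 3 * (w.1 * w.2 + w.2 ^ 2) := by unfold Nm F; ring
  rw [e, Int.dvd_add_left (Dvd.intro _ rfl)]
  exact Int.prime_three.dvd_pow_iff_dvd (by norm_num)

/-- `a = σ cc`, `b = σ dt` are coprime for rough vectors with small nonzero determinant. -/
theorem ab_coprime {Y : ℕ} (hY : 3 ≤ Y) {w w' : ℤ × ℤ} (hw : Rough Y (Nm w))
    (hw' : Rough Y (Nm w')) (h0 : dt w w' ≠ 0) (h1 : |dt w w'| ≤ Y) :
    IsCoprime (cc w w') (3 * dt w w') := by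
  rw [Int.isCoprime_iff_gcd_eq_one]
  by_contra hne
  obtain ⟨q, hq, hqd⟩ := Nat.exists_prime_and_dvd hne
  have hqZ : Prime (q : ℤ) := Nat.prime_iff_prime_int.mp hq
  have hc : (q : ℤ) ∣ cc w w' := (Int.natCast_dvd_natCast.mpr hqd).trans (Int.gcd_dvd_left ..)
  have hd : (q : ℤ) ∣ 3 * dt w w' := (Int.natCast_dvd_natCast.mpr hqd).trans (Int.gcd_dvd_right ..)
  -- `q` divides the product of the norms
  have hF : (q : ℤ) ∣ Nm w * Nm w' := by
    rw [← F_cc_dt]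
    have e : F (cc w w') (dt w w') = cc w w' * (cc w w' + 3 * dt w w') +
        (3 * dt w w') * dt w w' := by
      unfold F; ring
    rw [e]
    exact dvd_add (hc.mul_right _) (hd.mul_right _)
  have hqY : Y < q := by
    rcases hqZ.dvd_or_dvd hF with h | h
    · exact hw q hq h
    · exact hw' q hq h
  -- but `q` is `3` or divides the determinant
  rcases hqZ.dvd_or_dvd hd with h | h
  · have : q ∣ 3 := by exact_mod_cast h
    have := Nat.le_of_dvd (by norm_num) this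
    omega
  · have h2 : (q : ℤ) ≤ |dt w w'| := Int.le_of_dvd (abs_pos.mpr h0) ((dvd_abs _ _).mpr h)
    have h3 : (q : ℤ) ≤ Y := h2.trans h1
    have : q ≤ Y := by exact_mod_cast h3
    omega

theorem coinc {p : ℤ} {w w' : ℤ × ℤ} (h : p ∣ Nm w) (h' : p ∣ Nm w') :
    p ∣ dt w w' * (dt w w' ^ 2 + 3 * w.2 ^ 2 * w'.2 ^ 2) := by
  obtain ⟨a, ha⟩ := h
  obtain ⟨b, hb⟩ := h'
  have e : dt w w' * (dt w w' ^ 2 + 3 * w.2 ^ 2 * w'.2 ^ 2) =
      2 * dt w w' * (w'.2 ^ 2 * Nm w + w.2 ^ 2 * Nm w') +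
      (w'.2 * w.1 + w.2 * w'.1 + 3 * w.2 * w'.2) * (w'.2 ^ 2 * Nm w - w.2 ^ 2 * Nm w') := by
    unfold dt Nm F; ring
  rw [e, ha, hb]
  refine dvd_add ?_ ?_
  · exact Dvd.dvd.mul_left (dvd_add ((dvd_mul_right p a).mul_left _)
      ((dvd_mul_right p b).mul_left _)) _
  · exact Dvd.dvd.mul_left (dvd_sub ((dvd_mul_right p a).mul_left _)
      ((dvd_mul_right p b).mul_left _)) _

end Pool.Agent.H17.RP
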