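import Pool.Agent.H17.RP.EmB

/-!
# Arg: arguments

`arg_iff`: for `y > 0`: `π/3 ≤ arg (em (x,y)) < 2π/3` iff `-2y < x ≤ -y` (`Re = x + 3y/2`,
`Im = (√3/2) y > 0`; `arg ∈ (0, π)`, `Re = |z| cos arg`, `Im = |z| sin arg`; `arg ≥ π/3` iff
`Re ≤ Im/√3 = y/2`: `sin arg - √3 cos arg = 2 sin (arg - π/3) ≥ 0`; `arg < 2π/3` iff `Re > - y/2`).
`exists_rot`: multiplication by `om` adds `π/3` to the argument modulo `2π`; or directly: the six
sectors `-2y < x ≤ -y, y > 0` and their images under `rot` cover the nonzero vectors.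
`mem_RR`: the box condition is automatic.
`arg_mu`: arguments of products modulo `2π` (`Complex.arg_mul_coe_angle`, `Complex.arg_conj_coe_angle`).
-/

set_option autoImplicit false

namespace Pool.Agent.H17.RP

open Finset

theorem om_eq : om = Complex.exp (Real.pi / 3 * Complex.I) := by
  have h : (Real.pi / 3 : ℂ) = ((Real.pi / 3 : ℝ) : ℂ) := by push_cast; rfl
  rw [h]
  apply Complex.ext
  · rw [Complex.exp_ofReal_mul_I_re, Real.cos_pi_div_three]; rfl
  · rw [Complex.exp_ofReal_mul_I_im, Real.sin_pi_div_three]; rfl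

theorem arg_iff {x y : ℤ} (hy : 0 < y) :
    (Real.pi / 3 ≤ (em (x, y)).arg ∧ (em (x, y)).arg < 2 * Real.pi / 3) ↔
      (-2 * y < x ∧ x ≤ -y) := by
  have hy' : (0 : ℝ) < y := by exact_mod_cast hy
  have hs : 0 < Real.sqrt 3 := Real.sqrt_pos.mpr (by norm_num)
  have hs2 : 0 < Real.sqrt 3 / 2 := by positivity
  set z : ℂ := em (x, y) with hz
  have hre : z.re = (x : ℝ) + 3 / 2 * y := rfl
  have him : z.im = Real.sqrt 3 / 2 * y := rfl
  have him0 : 0 < z.im := by rw [him]; positivity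
  have hn : 0 < ‖z‖ := by
    rw [norm_pos_iff]
    intro h
    rw [h] at him0
    simp at him0
  have h0 : 0 < z.arg := by
    have h1 : 0 ≤ z.arg := Complex.arg_nonneg_iff.2 him0.le
    rcases h1.eq_or_lt with h2 | h2
    · exfalso
      have := (Complex.arg_eq_zero_iff.1 h2.symm).2
      linarith
    · exact h2
  have hpi : z.arg < Real.pi := Complex.arg_lt_pi_iff.2 (Or.inr him0.ne')
  have c1 : ‖z‖ * Real.cos z.arg = z.re := Complex.norm_mul_cos_arg z
  have s1 : ‖z‖ * Real.sin z.arg = z.im := Complex.norm_mul_sin_arg z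
  have hp := Real.pi_pos
  have e1 : ‖z‖ * Real.sin (z.arg - Real.pi / 3) = Real.sqrt 3 / 2 * ((-y - x : ℤ) : ℝ) := by
    rw [Real.sin_sub, Real.cos_pi_div_three, Real.sin_pi_div_three]
    have : ‖z‖ * (Real.sin z.arg * (1 / 2) - Real.cos z.arg * (Real.sqrt 3 / 2)) =
        z.im * (1 / 2) - z.re * (Real.sqrt 3 / 2) := by rw [← c1, ← s1]; ring
    rw [this, hre, him]; push_cast; ring
  have e2 : ‖z‖ * Real.sin (2 * Real.pi / 3 - z.arg) = Real.sqrt 3 / 2 * ((x + 2 * y : ℤ) : ℝ) := by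
    have h23 : 2 * Real.pi / 3 = Real.pi - Real.pi / 3 := by ring
    rw [Real.sin_sub, h23, Real.sin_pi_sub, Real.cos_pi_sub, Real.cos_pi_div_three,
      Real.sin_pi_div_three]
    have : ‖z‖ * (Real.sqrt 3 / 2 * Real.cos z.arg - -(1 / 2) * Real.sin z.arg) =
        Real.sqrt 3 / 2 * z.re + z.im * (1 / 2) := by rw [← c1, ← s1]; ring
    rw [this, hre, him]; push_cast; ring
  have k1 : Real.pi / 3 ≤ z.arg ↔ x ≤ -y := by
    constructor
    · intro h
      have h2 : 0 ≤ Real.sin (z.arg - Real.pi / 3) :=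
        Real.sin_nonneg_of_nonneg_of_le_pi (by linarith) (by linarith)
      have h3 : 0 ≤ Real.sqrt 3 / 2 * ((-y - x : ℤ) : ℝ) := by rw [← e1]; positivity
      have h4 : (0 : ℝ) ≤ ((-y - x : ℤ) : ℝ) := nonneg_of_mul_nonneg_right h3 hs2
      have h5 : (0 : ℤ) ≤ -y - x := by exact_mod_cast h4
      linarith
    · intro h
      by_contra hc
      push Not at hc
      have h2 : Real.sin (z.arg - Real.pi / 3) < 0 :=
        Real.sin_neg_of_neg_of_neg_pi_lt (by linarith) (by linarith)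
      have h3 : Real.sqrt 3 / 2 * ((-y - x : ℤ) : ℝ) < 0 := by
        rw [← e1]; exact mul_neg_of_pos_of_neg hn h2
      have h5 : (0 : ℤ) ≤ -y - x := by linarith
      have h6 : (0 : ℝ) ≤ ((-y - x : ℤ) : ℝ) := by exact_mod_cast h5
      have h7 := mul_nonneg hs2.le h6
      linarith
  have k2 : z.arg < 2 * Real.pi / 3 ↔ -2 * y < x := by
    constructor
    · intro h
      have h2 : 0 < Real.sin (2 * Real.pi / 3 - z.arg) :=
        Real.sin_pos_of_pos_of_lt_pi (by linarith) (by linarith)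
      have h3 : 0 < Real.sqrt 3 / 2 * ((x + 2 * y : ℤ) : ℝ) := by rw [← e2]; positivity
      have h4 : (0 : ℝ) < ((x + 2 * y : ℤ) : ℝ) := (pos_iff_pos_of_mul_pos h3).1 hs2
      have h5 : (0 : ℤ) < x + 2 * y := by exact_mod_cast h4
      linarith
    · intro h
      by_contra hc
      push Not at hc
      have h2 : Real.sin (2 * Real.pi / 3 - z.arg) ≤ 0 :=
        Real.sin_nonpos_of_nonpos_of_neg_pi_le (by linarith) (by linarith)
      have h3 : Real.sqrt 3 / 2 * ((x + 2 * y : ℤ) : ℝ) ≤ 0 := by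
        rw [← e2]; exact mul_nonpos_of_nonneg_of_nonpos hn.le h2
      have h5 : (0 : ℤ) < x + 2 * y := by linarith
      have h6 : (0 : ℝ) < ((x + 2 * y : ℤ) : ℝ) := by exact_mod_cast h5
      have h7 := mul_pos hs2 h6
      linarith
  rw [k1, k2]
  exact and_comm

private theorem rot_sector (w : ℤ × ℤ) (hw : w ≠ 0) : ∃ k : ℕ, k < 6 ∧ 0 < (rot^[k] w).2 ∧
    (-2 * (rot^[k] w).2 < (rot^[k] w).1 ∧ (rot^[k] w).1 ≤ -(rot^[k] w).2) := by
  obtain ⟨x, y⟩ := w
  have r0 : rot^[0] (x, y) = (x, y) := rfl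
  have r1 : rot^[1] (x, y) = (-x - 3 * y, x + 2 * y) := rfl
  have r2 : rot^[2] (x, y) = (-2 * x - 3 * y, x + y) := by
    show rot (rot (x, y)) = _
    unfold rot; exact Prod.ext (by show _ = -2 * x - 3 * y; ring) (by show _ = x + y; ring)
  have r3 : rot^[3] (x, y) = (-x, -y) := by
    rw [Function.iterate_succ_apply', r2]
    unfold rot; exact Prod.ext (by show _ = -x; ring) (by show _ = -y; ring)
  have r4 : rot^[4] (x, y) = (x + 3 * y, -x - 2 * y) := by
    rw [Function.iterate_succ_apply', r3]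
    unfold rot
    exact Prod.ext (by show _ = x + 3 * y; ring) (by show _ = -x - 2 * y; ring)
  have r5 : rot^[5] (x, y) = (2 * x + 3 * y, -x - y) := by
    rw [Function.iterate_succ_apply', r4]
    unfold rot
    exact Prod.ext (by show _ = 2 * x + 3 * y; ring) (by show _ = -x - y; ring)
  rcases lt_trichotomy y 0 with hy | hy | hy
  · rcases lt_or_ge x (-y) with h1 | h1
    · refine ⟨4, by norm_num, ?_⟩
      rw [r4]
      show 0 < -x - 2 * y ∧ (-2 * (-x - 2 * y) < x + 3 * y ∧ x + 3 * y ≤ -(-x - 2 * y))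
      omega
    · rcases lt_or_ge x (-2 * y) with h2 | h2
      · refine ⟨3, by norm_num, ?_⟩
        rw [r3]
        show 0 < -y ∧ (-2 * -y < -x ∧ -x ≤ -(-y))
        omega
      · refine ⟨2, by norm_num, ?_⟩
        rw [r2]
        show 0 < x + y ∧ (-2 * (x + y) < -2 * x - 3 * y ∧ -2 * x - 3 * y ≤ -(x + y))
        omega
  · subst hy
    rcases lt_trichotomy x 0 with hx | hx | hx
    · refine ⟨4, by norm_num, ?_⟩
      rw [r4]
      show 0 < -x - 2 * 0 ∧ (-2 * (-x - 2 * 0) < x + 3 * 0 ∧ x + 3 * 0 ≤ -(-x - 2 * 0))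
      omega
    · subst hx
      exact absurd rfl hw
    · refine ⟨1, by norm_num, ?_⟩
      rw [r1]
      show 0 < x + 2 * 0 ∧ (-2 * (x + 2 * 0) < -x - 3 * 0 ∧ -x - 3 * 0 ≤ -(x + 2 * 0))
      omega
  · rcases le_or_gt x (-2 * y) with h1 | h1
    · refine ⟨5, by norm_num, ?_⟩
      rw [r5]
      show 0 < -x - y ∧ (-2 * (-x - y) < 2 * x + 3 * y ∧ 2 * x + 3 * y ≤ -(-x - y))
      omega
    · rcases le_or_gt x (-y) with h2 | h2
      · refine ⟨0, by norm_num, ?_⟩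
        rw [r0]
        show 0 < y ∧ (-2 * y < x ∧ x ≤ -y)
        omega
      · refine ⟨1, by norm_num, ?_⟩
        rw [r1]
        show 0 < x + 2 * y ∧ (-2 * (x + 2 * y) < -x - 3 * y ∧ -x - 3 * y ≤ -(x + 2 * y))
        omega

/-- Every nonzero vector has a rotation with argument in `[π/3, 2π/3)`. -/
theorem exists_rot {w : ℤ × ℤ} (hw : w ≠ 0) : ∃ k : ℕ, k < 6 ∧ 0 < (rot^[k] w).2 ∧
    Real.pi / 3 ≤ (em (rot^[k] w)).arg ∧ (em (rot^[k] w)).arg < 2 * Real.pi / 3 := by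
  obtain ⟨k, hk, h1, h2⟩ := rot_sector w hw
  exact ⟨k, hk, h1, (arg_iff (x := (rot^[k] w).1) (y := (rot^[k] w).2) h1).2 h2⟩

theorem mem_RR {A K : ℕ} (hA : 1 ≤ A) {w : ℤ × ℤ} : w ∈ RR A K ↔
    ((A : ℤ) ^ 2 ≤ w.2 ∧ w.2 ≤ 2 * (A : ℤ) ^ 2) ∧ (-2 * w.2 < w.1 ∧ w.1 ≤ -w.2) ∧
      RK A K (Nm w) := by
  have hA2 : (0 : ℤ) < (A : ℤ) ^ 2 := by
    have : (0 : ℤ) < A := by exact_mod_cast hA
    positivity
  unfold RR
  rw [mem_sel, mem_product, mem_Icc, mem_Icc]
  constructor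
  · rintro ⟨⟨h1, h2⟩, h3, h4, h5⟩
    exact ⟨h2, (arg_iff (x := w.1) (y := w.2) (by linarith [h2.1])).1 ⟨h3, h4⟩, h5⟩
  · rintro ⟨h1, h2, h3⟩
    have h4 := (arg_iff (x := w.1) (y := w.2) (by linarith [h1.1])).2 h2
    exact ⟨⟨⟨by linarith [h1.2, h2.1], by linarith [h1.1, h2.2]⟩, h1⟩, h4.1, h4.2, h3⟩

end Pool.Agent.H17.RP
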