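import Pool.Agent.H17.RP.Reps
import Pool.Agent.H17.RP.Arg
import Pool.Agent.H77.K3.L1

/-!
# Ann: many vectors of prime norm

`#{w ∈ RR A K : lam (Nm w) = -1} ≥ c A^4/log A` for `A ≥ A0(K)`.

Proof. Let `p = 1 mod 3` be a prime with `A^4 < p ≤ 2 A^4`.  `p = Nm w` (`exists_rep`), `w ≠ 0`, and after
a rotation (`exists_rot`, `Nm_rot`) `w = (x, y)`, `y > 0`, `-2y < x ≤ -y` (`arg_iff`).  Then
`(3/4) y² ≤ Nm w = p ≤ y²` (`Nm w = (x + 3y/2)² + 3y²/4`, `(x+y)(x+2y) ≤ 0`), so `y ≥ √p ≥ A²` and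
`y² ≤ 4p/3 ≤ 4 A^4`, `y ≤ 2A²`.  `RK`: the only prime factor is `p > A`.  So `w ∈ RR A K`,
`lam p = -1`.  Different `p` give different `w`.  The number of primes `p = 1 mod 3` in
`[A^4, 2A^4]` is at least `c A^4/log A` (`q_low` in `H77/K3/L1.lean`).
-/

set_option autoImplicit false

namespace Pool.Agent.H17.RP

open Finset

private theorem Ann_mem_sel {ι : Type} {S : Finset ι} {Q : ι → Prop} {x : ι} :
    x ∈ sel S Q ↔ x ∈ S ∧ Q x := by
  classical
  unfold sel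
  rw [mem_filter]

private theorem Ann_rot_pow (k : ℕ) (w : ℤ × ℤ) : Nm (rot^[k] w) = Nm w := by
  induction k with
  | zero => simp
  | succ k ih => rw [Function.iterate_succ_apply', Nm_rot, ih]

private theorem Ann_vec (A K : ℕ) (hA : 1 ≤ A) (hK : 1 ≤ K) (p : ℕ) (hp : p.Prime)
    (h3 : p % 3 = 1) (h1 : A ^ 4 < p) (h2 : p ≤ 2 * A ^ 4) :
    ∃ w ∈ RR A K, Nm w = p := by
  obtain ⟨w, hw⟩ := exists_rep hp h3
  have hp0 : 0 < p := hp.pos
  have hw0 : w ≠ 0 := by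
    intro h
    rw [h] at hw
    simp [Nm, F] at hw
    omega
  obtain ⟨k, hk, hy, harg⟩ := exists_rot hw0
  set v := rot^[k] w with hv
  have hNv : Nm v = p := by rw [hv, Ann_rot_pow, hw]
  have hx := (arg_iff (x := v.1) (y := v.2) hy).1 harg
  obtain ⟨hx1, hx2⟩ := hx
  have hN : v.1 ^ 2 + 3 * v.1 * v.2 + 3 * v.2 ^ 2 = (p : ℤ) := by
    rw [← hNv]; unfold Nm F; ring
  have h1' : (A : ℤ) ^ 4 < p := by exact_mod_cast h1
  have h2' : (p : ℤ) ≤ 2 * (A : ℤ) ^ 4 := by exact_mod_cast h2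
  have hA1 : (1 : ℤ) ≤ A := by exact_mod_cast hA
  have e1 : (p : ℤ) ≤ v.2 ^ 2 := by nlinarith
  have e2 : 3 * v.2 ^ 2 ≤ 4 * (p : ℤ) := by
    nlinarith [sq_nonneg (2 * v.1 + 3 * v.2)]
  refine ⟨v, (mem_RR hA).2 ⟨⟨?_, ?_⟩, ⟨hx1, hx2⟩, ?_⟩, hNv⟩
  · apply le_of_lt
    apply lt_of_pow_lt_pow_left₀ 2 hy.le
    calc ((A : ℤ) ^ 2) ^ 2 = (A : ℤ) ^ 4 := by ring
      _ < (p : ℤ) := h1'
      _ ≤ v.2 ^ 2 := e1
  · apply le_of_lt
    apply lt_of_pow_lt_pow_left₀ 2 (by positivity)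
    have : (0 : ℤ) < (A : ℤ) ^ 4 := by positivity
    nlinarith
  · rw [hNv]
    intro q hq hqp
    have hqp' : q ∣ p := by exact_mod_cast hqp
    have : q = p := (Nat.prime_dvd_prime_iff_eq hq hp).1 hqp'
    subst this
    calc A ≤ A ^ 4 := Nat.le_self_pow (by norm_num) A
      _ < q := h1
      _ ≤ q ^ K := Nat.le_self_pow (by omega) q

theorem ann (K : ℕ) (hK : 1 ≤ K) : ∃ c : ℝ, 0 < c ∧ ∃ A0 : ℕ, ∀ A ≥ A0,
    c * (A : ℝ) ^ 4 / Real.log A ≤ (cs (RR A K) (fun w => lam (Nm w) = -1) : ℝ) := by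
  classical
  obtain ⟨x0, hx0⟩ := Pool.Agent.H77.K3.q_low 3 (by norm_num)
  refine ⟨1 / 25, by norm_num, x0 + 2, fun A hA => ?_⟩
  have hA2 : 2 ≤ A := by omega
  have hA2' : (2 : ℝ) ≤ A := by exact_mod_cast hA2
  have hAx : x0 * 1 ≤ 2 * A ^ 4 := by
    have : A ≤ A ^ 4 := Nat.le_self_pow (by norm_num) A
    omega
  have hq := hx0 (2 * A ^ 4) 1 le_rfl hAx 1 (by norm_num)
  set S := (Ioc 0 (2 * A ^ 4)).filter fun q : ℕ => q.Prime ∧ 2 * A ^ 4 / 2 < 1 * q ∧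
    1 * q ≤ 2 * A ^ 4 ∧ q % 3 = 1 % 3 with hS
  have hSv : ∀ q ∈ S, ∃ w ∈ RR A K, Nm w = q := by
    intro q hqS
    rw [hS, mem_filter] at hqS
    obtain ⟨-, hq1, hq2, hq3, hq4⟩ := hqS
    exact Ann_vec A K (by omega) hK q hq1 (by omega) (by omega) (by omega)
  choose! f hf1 hf2 using hSv
  have hcard : S.card ≤ cs (RR A K) (fun w => lam (Nm w) = -1) := by
    unfold cs
    apply Finset.card_le_card_of_injOn f
    · intro q hq
      have hqS : q ∈ S := hq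
      have hqp : q.Prime := by
        rw [hS, mem_filter] at hqS
        exact hqS.2.1
      change f q ∈ sel (RR A K) (fun w => lam (Nm w) = -1)
      rw [Ann_mem_sel]
      refine ⟨hf1 q hqS, ?_⟩
      rw [hf2 q hqS]
      unfold lam
      rw [Int.natAbs_natCast, ArithmeticFunction.cardFactors_apply_prime hqp]
      norm_num
    · intro q hq q' hq' h
      have e1 := hf2 q hq
      have e2 := hf2 q' hq'
      have h' : f q = f q' := h
      rw [h', e2] at e1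
      exact_mod_cast e1.symm
  have hcard' : (S.card : ℝ) ≤ (cs (RR A K) (fun w => lam (Nm w) = -1) : ℝ) := by
    exact_mod_cast hcard
  refine le_trans ?_ hcard'
  refine le_trans ?_ hq
  have hlog : 0 < Real.log A := Real.log_pos (by linarith)
  have htot : Nat.totient 3 = 2 := by decide
  rw [htot]
  have hl2 : Real.log (((2 * A ^ 4 : ℕ) : ℝ)) ≤ 5 * Real.log A := by
    have : Real.log ((A : ℝ) ^ 5) = 5 * Real.log A := by
      rw [Real.log_pow]; norm_num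
    rw [← this]
    apply Real.log_le_log
    · push_cast; positivity
    · push_cast
      have : (0 : ℝ) ≤ (A : ℝ) ^ 4 := by positivity
      nlinarith
  have hl0 : 0 < Real.log (((2 * A ^ 4 : ℕ) : ℝ)) := by
    apply Real.log_pos
    have : 1 < 2 * A ^ 4 := by
      have : A ≤ A ^ 4 := Nat.le_self_pow (by norm_num) A
      omega
    exact_mod_cast this
  rw [div_le_div_iff₀ hlog (by positivity)]
  push_cast at hl2 hl0 ⊢
  have hp : (0 : ℝ) ≤ (A : ℝ) ^ 4 := by positivity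
  nlinarith [mul_le_mul_of_nonneg_left hl2 hp]

end Pool.Agent.H17.RP
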