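import Pool.Agent.H17.RP.Basic

/-!
# AntiFree: free subsets modulo a prime

Fix a prime `q`, `D` a set of primes `≠ q`.  Call `G ⊆ D` free if the `2^|G|` subset
products of `G` are distinct modulo `q`.
`cnt_free`: if `G ⊆ D` is free then `cnt D q x ≤ 2^(|D|-|G|)` for every `x`: for every `T' ⊆ D \ G` there
is at most one `T'' ⊆ G` with `prd T' prd T'' = x mod q`, since `prd T'` is invertible.
`anti_free`: take a free subset `G ⊆ D` with the largest number of elements; if it has `≥ k` elements, a
subset with exactly `k` elements is free too.  Otherwise `|G| < k`, and for `p ∈ D \ G` the set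
`G ∪ {p}` is not free: two different subsets `U ≠ U'` have the same product modulo `q`; `p` is in
exactly one of them (otherwise cancel `p` or nothing: `G` would not be free), so
`p prd T1 = prd T2 mod q` for `T1 = U \ {p}`, `T2 = U' ⊆ G`.
-/

set_option autoImplicit false

namespace Pool.Agent.H17.RP

open Finset

/-- `G` is free modulo `q`: its subset products are distinct. -/
def Free (q : ℕ) (G : Finset ℕ) : Prop :=
  ∀ T ⊆ G, ∀ T' ⊆ G, (q : ℤ) ∣ (prd T : ℤ) - prd T' → T = T'

private theorem af_prd_split (T G : Finset ℕ) : prd T = prd (T \ G) * prd (T ∩ G) := by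
  classical
  unfold prd
  rw [mul_comm]
  exact (Finset.prod_inter_mul_prod_diff T G (fun p => p)).symm

private theorem af_not_dvd_prd {q : ℕ} (hq : q.Prime) {T : Finset ℕ}
    (hT : ∀ p ∈ T, p.Prime ∧ p ≠ q) : ¬ (q : ℤ) ∣ (prd T : ℤ) := by
  intro h
  have h1 : q ∣ prd T := by exact_mod_cast h
  unfold prd at h1
  obtain ⟨p, hp, hd⟩ := (Prime.dvd_finset_prod_iff hq.prime _).1 h1
  have := (Nat.prime_dvd_prime_iff_eq hq (hT p hp).1).1 hd
  exact (hT p hp).2 this.symm

private theorem af_cancel {q : ℕ} (hq : q.Prime) {a b c : ℤ} (ha : ¬ (q : ℤ) ∣ a)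
    (h : (q : ℤ) ∣ a * b - a * c) : (q : ℤ) ∣ b - c := by
  have h1 : (q : ℤ) ∣ a * (b - c) := by
    rw [mul_sub]; exact h
  have hp : Prime (q : ℤ) := Nat.prime_iff_prime_int.1 hq
  rcases hp.dvd_or_dvd h1 with h2 | h2
  · exact absurd h2 ha
  · exact h2

theorem cnt_free {q : ℕ} (hq : q.Prime) {D G : Finset ℕ} (hD : ∀ p ∈ D, p.Prime ∧ p ≠ q)
    (hG : G ⊆ D) (hf : Free q G) (x : ℤ) : cnt D q x * 2 ^ G.card ≤ 2 ^ D.card := by
  classical
  have h1 : cnt D q x ≤ (D \ G).powerset.card := by
    unfold cnt cs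
    refine Finset.card_le_card_of_injOn (fun T => T \ G) ?_ ?_
    · intro T hT
      have hT' := mem_sel.1 (mem_coe.1 hT)
      rw [mem_coe, mem_powerset]
      exact sdiff_subset_sdiff (mem_powerset.1 hT'.1) (le_refl _)
    · intro T hT T' hT' he
      obtain ⟨hT1, hT2⟩ := mem_sel.1 (mem_coe.1 hT)
      obtain ⟨hT1', hT2'⟩ := mem_sel.1 (mem_coe.1 hT')
      rw [mem_powerset] at hT1 hT1'
      have he' : T \ G = T' \ G := he
      have h2 : (q : ℤ) ∣ (prd T : ℤ) - prd T' := by
        have h3 := dvd_sub hT2 hT2'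
        have e : (prd T : ℤ) - x - ((prd T' : ℤ) - x) = (prd T : ℤ) - prd T' := by ring
        rwa [e] at h3
      rw [af_prd_split T G, af_prd_split T' G, he'] at h2
      push_cast at h2
      have h4 := af_cancel hq (af_not_dvd_prd hq (T := T' \ G)
        (fun p hp => hD p (hT1' (mem_sdiff.1 hp).1))) h2
      have h5 := hf (T ∩ G) inter_subset_right (T' ∩ G) inter_subset_right h4
      calc T = (T \ G) ∪ (T ∩ G) := (sdiff_union_inter T G).symm
        _ = (T' \ G) ∪ (T' ∩ G) := by rw [he', h5]
        _ = T' := sdiff_union_inter T' G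
  rw [card_powerset, card_sdiff_of_subset hG] at h1
  have hc : G.card ≤ D.card := card_le_card hG
  calc cnt D q x * 2 ^ G.card ≤ 2 ^ (D.card - G.card) * 2 ^ G.card := Nat.mul_le_mul_right _ h1
    _ = 2 ^ D.card := by rw [← pow_add]; congr 1; omega

private theorem af_free_mono {q : ℕ} {G G' : Finset ℕ} (h : G ⊆ G') (hf : Free q G') :
    Free q G := fun T hT T' hT' hd => hf T (hT.trans h) T' (hT'.trans h) hd

/-- `D` has a free subset with `k` elements, or a subset `G` with fewer elements such that all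
other elements of `D` satisfy `p prd T1 = prd T2 mod q` with `T1, T2 ⊆ G`. -/
theorem anti_free {q : ℕ} (hq : q.Prime) {D : Finset ℕ} (hD : ∀ p ∈ D, p.Prime ∧ p ≠ q) (k : ℕ) :
    (∃ G ⊆ D, G.card = k ∧ Free q G) ∨
    ∃ G ⊆ D, G.card < k ∧ ∀ p ∈ D \ G, ∃ T1 ⊆ G, ∃ T2 ⊆ G,
      (q : ℤ) ∣ (p : ℤ) * prd T1 - prd T2 := by
  classical
  have hne : (D.powerset.filter (fun G => Free q G)).Nonempty := by
    refine ⟨∅, ?_⟩
    rw [mem_filter, mem_powerset]
    refine ⟨empty_subset _, ?_⟩
    intro T hT T' hT' _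
    rw [subset_empty.1 hT, subset_empty.1 hT']
  obtain ⟨G, hG, hmax⟩ := Finset.exists_max_image _ (fun G => G.card) hne
  rw [mem_filter, mem_powerset] at hG
  obtain ⟨hGD, hGf⟩ := hG
  by_cases hk : k ≤ G.card
  · left
    obtain ⟨G', hG', hc⟩ := Finset.exists_subset_card_eq hk
    exact ⟨G', hG'.trans hGD, hc, af_free_mono hG' hGf⟩
  · right
    refine ⟨G, hGD, by omega, fun p hp => ?_⟩
    obtain ⟨hpD, hpG⟩ := mem_sdiff.1 hp
    have hnf : ¬ Free q (insert p G) := by
      intro hf
      have h := hmax (insert p G) (by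
        rw [mem_filter, mem_powerset]
        exact ⟨insert_subset hpD hGD, hf⟩)
      have h2 : (insert p G).card = G.card + 1 := card_insert_of_notMem hpG
      have h3 : (insert p G).card ≤ G.card := h
      omega
    unfold Free at hnf
    push Not at hnf
    obtain ⟨T, hT, T', hT', hd, hne'⟩ := hnf
    have hpq : ¬ (q : ℤ) ∣ (p : ℤ) := by
      intro h
      have h1 : q ∣ p := by exact_mod_cast h
      exact (hD p hpD).2 ((Nat.prime_dvd_prime_iff_eq hq (hD p hpD).1).1 h1).symm
    have herase : ∀ U ⊆ insert p G, U.erase p ⊆ G := by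
      intro U hU x hx
      obtain ⟨h1, h2⟩ := mem_erase.1 hx
      rcases mem_insert.1 (hU h2) with h3 | h3
      · exact absurd h3 h1
      · exact h3
    have hmul : ∀ U : Finset ℕ, p ∈ U → prd U = p * prd (U.erase p) := by
      intro U hU
      unfold prd
      exact (Finset.mul_prod_erase U (fun p => p) hU).symm
    by_cases h1 : p ∈ T
    · by_cases h2 : p ∈ T'
      · exfalso
        rw [hmul T h1, hmul T' h2] at hd
        push_cast at hd
        have h3 := hGf _ (herase T hT) _ (herase T' hT') (af_cancel hq hpq hd)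
        apply hne'
        rw [← insert_erase h1, ← insert_erase h2, h3]
      · refine ⟨T.erase p, herase T hT, T', ?_, ?_⟩
        · have h3 := herase T' hT'
          rwa [erase_eq_of_notMem h2] at h3
        · rw [hmul T h1] at hd
          push_cast at hd
          exact hd
    · by_cases h2 : p ∈ T'
      · refine ⟨T'.erase p, herase T' hT', T, ?_, ?_⟩
        · have h3 := herase T hT
          rwa [erase_eq_of_notMem h1] at h3
        · rw [hmul T' h2] at hd
          push_cast at hd
          rw [dvd_sub_comm]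
          exact hd
      · exfalso
        apply hne'
        refine hGf T ?_ T' ?_ hd
        · have h3 := herase T hT
          rwa [erase_eq_of_notMem h1] at h3
        · have h3 := herase T' hT'
          rwa [erase_eq_of_notMem h2] at h3

end Pool.Agent.H17.RP
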