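import Pool.Agent.H17.RP.Basic

/-!
# Model: the random subset model

`pr P D = ∏_(p∈D) (2/p) ∏_(p∈P\D) (1-2/p)`, `Pr P 𝓑 = Σ_(D ⊆ P, 𝓑 D) pr P D`.
`exp_prod`: `Σ_(D ⊆ P) pr P D ∏_(p∈D) f p = ∏_(p∈P) (1 - 2/p + (2/p) f p)` (induction on `P`, or
`Finset.prod_add`).  `Pr_superset`: `Pr (U ⊆ D) = ∏_(p∈U) (2/p)`.  `Pr_markov`:
`Pr 𝓑 ≤ Σ_D pr P D G(D)` if `G ≥ 0` and `G ≥ 1` on `𝓑`.
-/

set_option autoImplicit false

namespace Pool.Agent.H17.RP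

open Finset

variable {P : Finset ℕ}

private theorem Model_mem {𝓑 : Finset ℕ → Prop} {D : Finset ℕ} :
    D ∈ sel P.powerset 𝓑 ↔ D ⊆ P ∧ 𝓑 D := by
  classical
  unfold sel
  rw [mem_filter, mem_powerset]

private theorem Model_sub {𝓑 : Finset ℕ → Prop} {D : Finset ℕ} (h : D ∈ sel P.powerset 𝓑) :
    D ⊆ P := (Model_mem.1 h).1

theorem pr_nonneg (hP : ∀ p ∈ P, 2 ≤ p) {D : Finset ℕ} (hD : D ⊆ P) : 0 ≤ pr P D := by
  have h : ∀ p ∈ P, (0 : ℝ) ≤ 2 / (p : ℝ) ∧ (0 : ℝ) ≤ 1 - 2 / (p : ℝ) := fun p hp => by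
    have h2 : (2 : ℝ) ≤ p := by exact_mod_cast hP p hp
    refine ⟨by positivity, sub_nonneg.2 ?_⟩
    rw [div_le_one (by linarith)]
    exact h2
  unfold pr
  refine mul_nonneg (prod_nonneg fun p hp => (h p (hD hp)).1) (prod_nonneg fun p hp => ?_)
  exact (h p (mem_sdiff.1 hp).1).2

theorem exp_prod (P : Finset ℕ) (f : ℕ → ℝ) :
    ∑ D ∈ P.powerset, pr P D * ∏ p ∈ D, f p = ∏ p ∈ P, (1 - 2 / (p : ℝ) + 2 / p * f p) := by
  have e : ∏ p ∈ P, (1 - 2 / (p : ℝ) + 2 / p * f p) =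
      ∏ p ∈ P, (2 / (p : ℝ) * f p + (1 - 2 / (p : ℝ))) :=
    prod_congr rfl fun p _ => by ring
  rw [e, Finset.prod_add]
  refine sum_congr rfl fun D _ => ?_
  unfold pr
  rw [prod_mul_distrib]
  ring

theorem sum_pr (P : Finset ℕ) : ∑ D ∈ P.powerset, pr P D = 1 := by
  have h := exp_prod P (fun _ => (1 : ℝ))
  simpa using h

theorem Pr_nonneg (hP : ∀ p ∈ P, 2 ≤ p) (𝓑 : Finset ℕ → Prop) : 0 ≤ Pr P 𝓑 := by
  unfold Pr
  exact sum_nonneg fun D hD => pr_nonneg hP (Model_sub hD)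

theorem Pr_le_one (hP : ∀ p ∈ P, 2 ≤ p) (𝓑 : Finset ℕ → Prop) : Pr P 𝓑 ≤ 1 := by
  rw [← sum_pr P]
  unfold Pr
  refine sum_le_sum_of_subset_of_nonneg (fun D hD => mem_powerset.2 (Model_sub hD)) ?_
  intro D hD _
  exact pr_nonneg hP (mem_powerset.1 hD)

theorem Pr_mono (hP : ∀ p ∈ P, 2 ≤ p) {𝓑 𝓑' : Finset ℕ → Prop}
    (h : ∀ D ⊆ P, 𝓑 D → 𝓑' D) : Pr P 𝓑 ≤ Pr P 𝓑' := by
  unfold Pr
  refine sum_le_sum_of_subset_of_nonneg (fun D hD => ?_) ?_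
  · exact Model_mem.2 ⟨Model_sub hD, h D (Model_sub hD) (Model_mem.1 hD).2⟩
  · intro D hD _
    exact pr_nonneg hP (Model_sub hD)

theorem Pr_or (hP : ∀ p ∈ P, 2 ≤ p) (𝓑 𝓑' : Finset ℕ → Prop) :
    Pr P (fun D => 𝓑 D ∨ 𝓑' D) ≤ Pr P 𝓑 + Pr P 𝓑' := by
  classical
  unfold Pr
  have h1 : sel P.powerset (fun D => 𝓑 D ∨ 𝓑' D) =
      sel P.powerset 𝓑 ∪ sel P.powerset 𝓑' := by
    ext D
    rw [mem_union, Model_mem, Model_mem, Model_mem]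
    tauto
  rw [h1, ← sum_union_inter]
  have h2 : 0 ≤ ∑ D ∈ sel P.powerset 𝓑 ∩ sel P.powerset 𝓑', pr P D :=
    sum_nonneg fun D hD => pr_nonneg hP (Model_sub (mem_inter.1 hD).1)
  linarith

theorem Pr_exists {κ : Type} (hP : ∀ p ∈ P, 2 ≤ p) (T : Finset κ) (𝓑 : κ → Finset ℕ → Prop) :
    Pr P (fun D => ∃ k ∈ T, 𝓑 k D) ≤ ∑ k ∈ T, Pr P (𝓑 k) := by
  classical
  induction T using Finset.induction_on with
  | empty =>
    have h1 : sel P.powerset (fun D => ∃ k ∈ (∅ : Finset κ), 𝓑 k D) = ∅ := by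
      ext D
      rw [Model_mem]
      simp
    unfold Pr
    rw [h1]
    simp
  | insert a T ha ih =>
    rw [sum_insert ha]
    refine le_trans (Pr_mono hP (𝓑' := fun D => 𝓑 a D ∨ ∃ k ∈ T, 𝓑 k D) ?_)
      ((Pr_or hP _ _).trans (by linarith))
    rintro D _ ⟨k, hk, hkD⟩
    rcases mem_insert.1 hk with rfl | hk
    · exact Or.inl hkD
    · exact Or.inr ⟨k, hk, hkD⟩

theorem Pr_markov (hP : ∀ p ∈ P, 2 ≤ p) {𝓑 : Finset ℕ → Prop} {G : Finset ℕ → ℝ}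
    (h0 : ∀ D ⊆ P, 0 ≤ G D) (h1 : ∀ D ⊆ P, 𝓑 D → 1 ≤ G D) :
    Pr P 𝓑 ≤ ∑ D ∈ P.powerset, pr P D * G D := by
  unfold Pr
  calc ∑ D ∈ sel P.powerset 𝓑, pr P D ≤ ∑ D ∈ sel P.powerset 𝓑, pr P D * G D := by
        refine sum_le_sum fun D hD => ?_
        exact le_mul_of_one_le_right (pr_nonneg hP (Model_sub hD))
          (h1 D (Model_sub hD) (Model_mem.1 hD).2)
    _ ≤ ∑ D ∈ P.powerset, pr P D * G D := by
        refine sum_le_sum_of_subset_of_nonneg (fun D hD => mem_powerset.2 (Model_sub hD)) ?_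
        intro D hD _
        have hD' := mem_powerset.1 hD
        exact mul_nonneg (pr_nonneg hP hD') (h0 D hD')

theorem Pr_superset (hP : ∀ p ∈ P, 2 ≤ p) {U : Finset ℕ} (hU : U ⊆ P) :
    Pr P (fun D => U ⊆ D) = ∏ p ∈ U, (2 / (p : ℝ)) := by
  classical
  set g : ℕ → ℝ := fun p => if p ∈ U then 0 else 1 - 2 / (p : ℝ) with hg
  have h1 : ∏ p ∈ P, (2 / (p : ℝ) + g p) = ∏ p ∈ U, (2 / (p : ℝ)) := by
    rw [← prod_sdiff hU]
    have e1 : ∏ p ∈ P \ U, (2 / (p : ℝ) + g p) = 1 := by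
      refine prod_eq_one fun p hp => ?_
      rw [hg]
      simp only [if_neg (mem_sdiff.1 hp).2]
      ring
    have e2 : ∏ p ∈ U, (2 / (p : ℝ) + g p) = ∏ p ∈ U, (2 / (p : ℝ)) := by
      refine prod_congr rfl fun p hp => ?_
      rw [hg]
      simp only [if_pos hp, add_zero]
    rw [e1, e2, one_mul]
  rw [← h1, Finset.prod_add]
  unfold Pr
  symm
  rw [← sum_subset (s₁ := sel P.powerset (fun D => U ⊆ D)) (s₂ := P.powerset)
    (fun D hD => mem_powerset.2 (Model_sub hD))]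
  · refine sum_congr rfl fun D hD => ?_
    unfold pr
    congr 1
    refine prod_congr rfl fun p hp => ?_
    have hpU : p ∉ U := fun h => (mem_sdiff.1 hp).2 ((Model_mem.1 hD).2 h)
    rw [hg]
    simp only [if_neg hpU]
  · intro D hD hD'
    have hU' : ¬ U ⊆ D := fun h => hD' (Model_mem.2 ⟨mem_powerset.1 hD, h⟩)
    obtain ⟨p, hp, hpD⟩ := not_subset.1 hU'
    have e : ∏ i ∈ P \ D, g i = 0 := by
      refine prod_eq_zero (mem_sdiff.2 ⟨hU hp, hpD⟩) ?_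
      rw [hg]
      simp only [if_pos hp]
    rw [e, mul_zero]

end Pool.Agent.H17.RP
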