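import Pool.Agent.H17.RP.BTsum
import Pool.Agent.H17.RP.AntiFree
import Pool.Agent.H17.RP.Model
import Pool.Agent.H12.Brun

/-!
# AntiProb: subset products are not concentrated modulo larger primes

For every `c` there is `e` such that for all `C5` and `g ≥ g0(c, C5)`:
`Pr (¬ Anti e c t D) ≤ t^(-C5)`.  Take `e = 4c + 8`.

Proof. For `c = 0` the statement `Anti` is trivial (`cnt ≤ 2^|D|`).  Let `c ≥ 1` and let `k` be the least
natural number with `t^c ≤ 2^k`, so `2^k < 2 t^c`, `4^k ≤ 4 t^(2c)`.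
Let `q ∈ (t^e, 2^t]` be a prime (all `p ∈ P` are `> 2^t`, so `≠ q`).  If `D` has a free subset with `k`
elements then `cnt D q x t^c ≤ cnt D q x 2^k ≤ 2^|D|` (`cnt_free`).  Otherwise by `anti_free` there is
`G ⊆ D`, `|G| < k`, such that all `p ∈ D \ G` lie in a set `R(G)` of at most `4^|G| ≤ 4^k` residue
classes modulo `q` (`p = prd T2/prd T1`).  If `|D| ≥ 2k` then for any fixed `m ≤ k` there is
`I ⊆ D \ G`, `|I| = m`, all elements in `R(G)`.  By `Pr_superset` and `btsum`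
`Pr ≤ Σ_(G ⊆ P) ∏_(p∈G) (2/p) (1/m!) (Σ_(p∈P, p∈R(G)) 2/p)^m ≤ ∏_(p∈P) (1 + 2/p) (4^k 2Cg(log t)/q)^m
≤ t^(2g) (q^(-1/2))^m` (`esym_le` in `H12/Brun.lean`; `med_up`; `8 C g t^(2c) log t ≤ q^(1/2)` since
`q > t^(4c+8)`), and with `m = 4g + 2 C5 + 8` (a constant, `≤ k` for large `t`) this is
`≤ q^(-2) t^(-C5-2)`: `q^(-m/2) = q^(-2) q^(-(m-4)/2)`, `q^(-1/2) ≤ t^(-1)`.  Sum over `q`:
`≤ t^(-C5-2) Σ 1/q² ≤ t^(-C5)/2`.
`Pr (|D| < 2k) ≤ Σ_D pr P D 2^(2k-|D|) = 4^k ∏_(p∈P) (1 - 1/p) ≤ 4 t^(2c) exp (-Σ_(p∈P) 1/p) ≤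
4 t^(2c) t^(-(g-1)) ≤ t^(-C5)/2` for `g ≥ 2c + C5 + 4` (`Pr_markov`, `exp_prod` with `f = 1/2`,
`med_low`).
-/

set_option autoImplicit false

namespace Pool.Agent.H17.RP

open Finset

private theorem ap_cover {α β : Type} [DecidableEq α] (A : Finset α) (X : Finset β)
    (S : β → Finset α) (f : α → ℝ) (hf : ∀ a, 0 ≤ f a) (h : ∀ a ∈ A, ∃ x ∈ X, a ∈ S x) :
    ∑ a ∈ A, f a ≤ ∑ x ∈ X, ∑ a ∈ S x, f a := by
  classical
  calc ∑ a ∈ A, f a ≤ ∑ a ∈ A, ∑ x ∈ X, (if a ∈ S x then f a else 0) := by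
        refine sum_le_sum fun a ha => ?_
        obtain ⟨x, hx, hax⟩ := h a ha
        have h1 := single_le_sum (f := fun x => if a ∈ S x then f a else 0) (s := X)
          (fun y _ => by
            show (0 : ℝ) ≤ if a ∈ S y then f a else 0
            split_ifs
            · exact hf a
            · exact le_refl _) hx
        simpa [hax] using h1
    _ = ∑ x ∈ X, ∑ a ∈ A, (if a ∈ S x then f a else 0) := sum_comm
    _ ≤ ∑ x ∈ X, ∑ a ∈ S x, f a := by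
        refine sum_le_sum fun x _ => ?_
        rw [← sum_filter]
        exact sum_le_sum_of_subset_of_nonneg (fun a ha => (mem_filter.1 ha).2)
          (fun a _ _ => hf a)

private theorem ap_not_dvd_prd {q : ℕ} (hq : q.Prime) {T : Finset ℕ}
    (hT : ∀ p ∈ T, p.Prime ∧ p ≠ q) : ¬ (q : ℤ) ∣ (prd T : ℤ) := by
  intro h
  have h1 : q ∣ prd T := by exact_mod_cast h
  unfold prd at h1
  obtain ⟨p, hp, hd⟩ := (Prime.dvd_finsetProd_iff hq.prime _).1 h1
  have := (Nat.prime_dvd_prime_iff_eq hq (hT p hp).1).1 hd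
  exact (hT p hp).2 this.symm

/-- the classes `p = prd T2 / prd T1` -/
private def apR (q : ℕ) (G : Finset ℕ) (p : ℕ) : Prop :=
  ∃ T1 ⊆ G, ∃ T2 ⊆ G, (q : ℤ) ∣ (p : ℤ) * prd T1 - prd T2

/-- the sum over the primes in `R(G)` -/
private theorem ap_sumR {q g t : ℕ} (hq : q.Prime) {B : ℝ} (hB : 0 ≤ B)
    (hbt : ∀ x : ℤ, ∑ p ∈ sel (med g t) (fun p => (q : ℤ) ∣ (p : ℤ) - x), 1 / (p : ℝ) ≤ B)
    {P G A : Finset ℕ} (hP : P ⊆ med g t) (hPq : ∀ p ∈ P, p.Prime ∧ p ≠ q) (hG : G ⊆ P)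
    (hA : A ⊆ P) (hAR : ∀ p ∈ A, apR q G p) :
    ∑ p ∈ A, 2 / (p : ℝ) ≤ 2 * ((2 ^ G.card) ^ 2 * B) := by
  classical
  have h1 : ∑ p ∈ A, 1 / (p : ℝ) ≤ ∑ x ∈ G.powerset ×ˢ G.powerset,
      ∑ p ∈ (med g t).filter (fun p : ℕ => (q : ℤ) ∣ (p : ℤ) * prd x.1 - prd x.2), 1 / (p : ℝ) := by
    refine ap_cover A _ _ _ (fun a => by positivity) ?_
    intro p hp
    obtain ⟨T1, hT1, T2, hT2, hd⟩ := hAR p hp
    refine ⟨(T1, T2), ?_, ?_⟩
    · rw [mem_product, mem_powerset, mem_powerset]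
      exact ⟨hT1, hT2⟩
    · rw [mem_filter]
      exact ⟨hP (hA hp), hd⟩
  have h2 : ∀ x ∈ G.powerset ×ˢ G.powerset,
      ∑ p ∈ (med g t).filter (fun p : ℕ => (q : ℤ) ∣ (p : ℤ) * prd x.1 - prd x.2),
        1 / (p : ℝ) ≤ B := by
    rintro ⟨T1, T2⟩ hx
    rw [mem_product, mem_powerset, mem_powerset] at hx
    obtain ⟨hT1, hT2⟩ := hx
    simp only at hT1 hT2 ⊢
    rcases eq_empty_or_nonempty
      ((med g t).filter (fun p : ℕ => (q : ℤ) ∣ (p : ℤ) * prd T1 - prd T2)) with h0 | ⟨p0, hp0⟩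
    · rw [h0, sum_empty]; exact hB
    · refine le_trans (sum_le_sum_of_subset_of_nonneg ?_ (fun _ _ _ => by positivity))
        (hbt (p0 : ℤ))
      intro p hp
      rw [mem_filter] at hp hp0
      rw [mem_sel]
      refine ⟨hp.1, ?_⟩
      have h3 := dvd_sub hp.2 hp0.2
      have e : ((p : ℤ) * prd T1 - prd T2) - ((p0 : ℤ) * prd T1 - prd T2) =
          ((p : ℤ) - p0) * prd T1 := by ring
      rw [e] at h3
      rcases (Nat.prime_iff_prime_int.1 hq).dvd_or_dvd h3 with h4 | h4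
      · exact h4
      · exact absurd h4 (ap_not_dvd_prd hq (fun p hp => hPq p (hG (hT1 hp))))
  have h3 : ∑ p ∈ A, 1 / (p : ℝ) ≤ (2 ^ G.card) ^ 2 * B := by
    refine h1.trans ((sum_le_sum h2).trans ?_)
    rw [sum_const, card_product, card_powerset, nsmul_eq_mul]
    push_cast
    rw [← sq]
  have e : ∑ p ∈ A, 2 / (p : ℝ) = 2 * ∑ p ∈ A, 1 / (p : ℝ) := by
    rw [mul_sum]
    refine sum_congr rfl fun p _ => by ring
  rw [e]
  exact mul_le_mul_of_nonneg_left h3 (by norm_num)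

/-- the bad event for `q` -/
private def apBad (q k m : ℕ) (D : Finset ℕ) : Prop :=
  ∃ G ⊆ D, G.card < k ∧ ∃ I ⊆ D \ G, I.card = m ∧ ∀ p ∈ I, apR q G p

private theorem ap_bad_le {q k m : ℕ} {P : Finset ℕ} (hP2 : ∀ p ∈ P, 2 ≤ p) {y : ℝ} (hy : 0 ≤ y)
    (hR : ∀ G ⊆ P, G.card < k → ∀ A ⊆ P, (∀ p ∈ A, apR q G p) → ∑ p ∈ A, 2 / (p : ℝ) ≤ y) :
    Pr P (apBad q k m) ≤ Real.exp (∑ p ∈ P, 2 / (p : ℝ)) * y ^ m := by
  classical
  set T : Finset (Σ _ : Finset ℕ, Finset ℕ) :=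
    (P.powerset.filter (fun G => G.card < k)).sigma
      (fun G => powersetCard m ((P \ G).filter (apR q G))) with hT
  have h1 : Pr P (apBad q k m) ≤
      Pr P (fun D => ∃ x ∈ T, x.1 ∪ x.2 ⊆ D) := by
    refine Pr_mono hP2 ?_
    rintro D hD ⟨G, hG, hk, I, hI, hIm, hIR⟩
    refine ⟨⟨G, I⟩, ?_, ?_⟩
    · rw [hT, mem_sigma, mem_filter, mem_powerset, mem_powersetCard]
      refine ⟨⟨hG.trans hD, hk⟩, ?_, hIm⟩
      intro p hp
      rw [mem_filter, mem_sdiff]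
      have := mem_sdiff.1 (hI hp)
      exact ⟨⟨hD this.1, this.2⟩, hIR p hp⟩
    · exact union_subset hG (hI.trans sdiff_subset)
  refine h1.trans ((Pr_exists hP2 T (fun x D => x.1 ∪ x.2 ⊆ D)).trans ?_)
  rw [hT, sum_sigma]
  have h2 : ∀ G ∈ P.powerset.filter (fun G => G.card < k),
      ∑ I ∈ powersetCard m ((P \ G).filter (apR q G)), Pr P (fun D => G ∪ I ⊆ D) ≤
        (∏ p ∈ G, (2 / (p : ℝ))) * y ^ m := by
    intro G hG
    rw [mem_filter, mem_powerset] at hG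
    have e1 : ∑ I ∈ powersetCard m ((P \ G).filter (apR q G)), Pr P (fun D => G ∪ I ⊆ D) =
        (∏ p ∈ G, (2 / (p : ℝ))) *
          Pool.Agent.H12.esym ((P \ G).filter (apR q G)) (fun p : ℕ => 2 / (p : ℝ)) m := by
      unfold Pool.Agent.H12.esym
      rw [mul_sum]
      refine sum_congr rfl fun I hI => ?_
      rw [mem_powersetCard] at hI
      have hIs : ∀ p ∈ I, p ∈ P ∧ p ∉ G := by
        intro p hp
        exact mem_sdiff.1 (mem_filter.1 (hI.1 hp)).1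
      rw [Pr_superset hP2 (union_subset hG.1 (fun p hp => (hIs p hp).1)), prod_union]
      rw [disjoint_left]
      intro p hp hp'
      exact (hIs p hp').2 hp
    rw [e1]
    refine mul_le_mul_of_nonneg_left ?_ (prod_nonneg fun p _ => by positivity)
    have h3 := Pool.Agent.H12.esym_le ((P \ G).filter (apR q G)) (fun p : ℕ => 2 / (p : ℝ))
      (fun p _ => by positivity) m
    refine h3.trans ?_
    have hs0 : 0 ≤ ∑ p ∈ (P \ G).filter (apR q G), 2 / (p : ℝ) :=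
      sum_nonneg fun p _ => by positivity
    refine (div_le_self (pow_nonneg hs0 m) (by exact_mod_cast Nat.factorial_pos m)).trans ?_
    refine pow_le_pow_left₀ hs0 ?_ m
    exact hR G hG.1 hG.2 _ (fun p hp => (mem_sdiff.1 (mem_filter.1 hp).1).1)
      (fun p hp => (mem_filter.1 hp).2)
  refine (sum_le_sum h2).trans ?_
  rw [← sum_mul]
  refine mul_le_mul_of_nonneg_right ?_ (pow_nonneg hy m)
  calc ∑ G ∈ P.powerset.filter (fun G => G.card < k), ∏ p ∈ G, (2 / (p : ℝ)) ≤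
        ∑ G ∈ P.powerset, ∏ p ∈ G, (2 / (p : ℝ)) := by
        refine sum_le_sum_of_subset_of_nonneg (filter_subset _ _) ?_
        intro G _ _
        exact prod_nonneg fun p _ => by positivity
    _ = ∏ p ∈ P, (1 + 2 / (p : ℝ)) := (prod_one_add P).symm
    _ ≤ Real.exp (∑ p ∈ P, 2 / (p : ℝ)) := by
        rw [Real.exp_sum]
        refine prod_le_prod (fun p _ => by positivity) fun p _ => ?_
        rw [add_comm]
        exact Real.add_one_le_exp _

/-- few primes -/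
private theorem ap_few {k : ℕ} {P : Finset ℕ} (hP2 : ∀ p ∈ P, 2 ≤ p) :
    Pr P (fun D => D.card < 2 * k) ≤ (2 ^ k) ^ 2 * Real.exp (-(∑ p ∈ P, 1 / (p : ℝ))) := by
  classical
  have h1 := Pr_markov (P := P) hP2 (𝓑 := fun D => D.card < 2 * k)
    (G := fun D => (2 : ℝ) ^ (2 * k) * ∏ p ∈ D, (1 / 2 : ℝ))
    (fun D _ => by positivity)
    (fun D _ hD => by
      show (1 : ℝ) ≤ 2 ^ (2 * k) * ∏ p ∈ D, (1 / 2 : ℝ)
      rw [prod_const, one_div, inv_pow, ← div_eq_mul_inv, one_le_div (by positivity)]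
      exact pow_le_pow_right₀ (by norm_num) (le_of_lt hD))
  refine h1.trans ?_
  have e1 : ∑ D ∈ P.powerset, pr P D * ((2 : ℝ) ^ (2 * k) * ∏ p ∈ D, (1 / 2 : ℝ)) =
      (2 : ℝ) ^ (2 * k) * ∑ D ∈ P.powerset, pr P D * ∏ p ∈ D, (1 / 2 : ℝ) := by
    rw [mul_sum]
    refine sum_congr rfl fun D _ => by ring
  rw [e1, exp_prod P (fun _ => (1 / 2 : ℝ))]
  have e2 : (2 : ℝ) ^ (2 * k) = (2 ^ k) ^ 2 := by rw [← pow_mul]; congr 1; ring
  rw [e2]
  refine mul_le_mul_of_nonneg_left ?_ (by positivity)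
  rw [← sum_neg_distrib, Real.exp_sum]
  refine prod_le_prod (fun p hp => ?_) fun p hp => ?_
  · have h2 : (2 : ℝ) ≤ p := by exact_mod_cast hP2 p hp
    have h3 : 2 / (p : ℝ) ≤ 1 := by rw [div_le_one (by linarith)]; exact h2
    have h4 : 0 ≤ 2 / (p : ℝ) := by positivity
    linarith
  · have h2 := Real.add_one_le_exp (-(1 / (p : ℝ)))
    have e3 : 1 - 2 / (p : ℝ) + 2 / p * (1 / 2) = -(1 / (p : ℝ)) + 1 := by ring
    rw [e3]
    exact h2

private theorem ap_sum_q (Q : Finset ℕ) (hQ : ∀ q ∈ Q, 0 < q) :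
    ∑ q ∈ Q, (1 / (q : ℝ)) ^ 2 ≤ 2 := by
  classical
  obtain ⟨N, hN⟩ : ∃ N, ∀ q ∈ Q, q < N := ⟨Q.sup id + 1, fun q hq => by
    have := Finset.le_sup (f := id) hq
    simp only [id] at this
    omega⟩
  have h := sum_Ioo_inv_sq_le (α := ℝ) 0 N
  have h2 : ∑ q ∈ Q, (1 / (q : ℝ)) ^ 2 ≤ ∑ i ∈ Ioo 0 N, ((i : ℝ) ^ 2)⁻¹ := by
    calc ∑ q ∈ Q, (1 / (q : ℝ)) ^ 2 = ∑ q ∈ Q, ((q : ℝ) ^ 2)⁻¹ := by
          refine sum_congr rfl fun q _ => by rw [one_div, inv_pow]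
      _ ≤ _ := by
          refine sum_le_sum_of_subset_of_nonneg ?_ (fun _ _ _ => by positivity)
          intro q hq
          rw [mem_Ioo]
          exact ⟨hQ q hq, hN q hq⟩
  refine h2.trans (h.trans ?_)
  norm_num

private theorem ap_log (K : ℝ) : ∃ t0 : ℕ, ∀ t : ℕ, t0 ≤ t → K * Real.log t ≤ t := by
  have h := Real.isLittleO_log_id_atTop.bound (c := 1 / (|K| + 1)) (by positivity)
  rw [Filter.eventually_atTop] at h
  obtain ⟨a, ha⟩ := h
  refine ⟨max 1 (Nat.ceil a), fun t ht => ?_⟩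
  have h1 : 1 ≤ t := le_trans (le_max_left _ _) ht
  have h2 : a ≤ t := (Nat.le_ceil a).trans (by exact_mod_cast le_trans (le_max_right _ _) ht)
  have h3 := ha t h2
  have h1' : (1 : ℝ) ≤ t := by exact_mod_cast h1
  have hl : 0 ≤ Real.log t := Real.log_nonneg h1'
  simp only [id, Real.norm_eq_abs] at h3
  rw [abs_of_nonneg hl, abs_of_nonneg (by linarith : (0 : ℝ) ≤ (t : ℝ))] at h3
  rw [div_mul_eq_mul_div, one_mul, le_div_iff₀ (by positivity)] at h3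
  have h4 : K ≤ |K| + 1 := (le_abs_self K).trans (by linarith)
  calc K * Real.log t ≤ (|K| + 1) * Real.log t := mul_le_mul_of_nonneg_right h4 hl
    _ = Real.log t * (|K| + 1) := mul_comm _ _
    _ ≤ t := h3

theorem anti_prob (c : ℕ) : ∃ e : ℕ, ∀ C5 : ℕ, ∃ g0 : ℕ, ∀ g ≥ g0, ∀ E : ℕ, ∃ t0 : ℕ, ∀ t ≥ t0,
    ∀ P ⊆ med g t, ((med g t) \ P).card ≤ t ^ E →
    Pr P (fun D => ¬ Anti e c t D) * (t : ℝ) ^ C5 ≤ 1 := by
  classical
  obtain ⟨C, hC, hbt⟩ := btsum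
  refine ⟨4 * c + 8, fun C5 => ⟨2 * c + C5 + 2, fun g hg E => ?_⟩⟩
  have hg1 : 1 ≤ g := by omega
  obtain ⟨t1, ht1⟩ := hbt g hg1
  obtain ⟨t2, ht2⟩ := med_up g hg1
  obtain ⟨t3, ht3⟩ := med_low g E hg1
  obtain ⟨t4, ht4⟩ := ap_log (2 * C * g)
  set m := 4 + (2 * g + C5 + 1) with hm
  refine ⟨t1 + t2 + t3 + t4 + 2 ^ m + 8, fun t ht P hP hPE => ?_⟩
  have h2m : 0 < 2 ^ m := by positivity
  have htm : 2 ^ m ≤ t := by omega
  have ht8 : 8 ≤ t := by omega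
  have hb1 := ht1 t (by omega)
  have hb2 := ht2 t (by omega)
  have hb3 := ht3 t (by omega) P hP hPE
  have hb4 := ht4 t (by omega)
  have htR : (8 : ℝ) ≤ t := by exact_mod_cast ht8
  have htpos : (0 : ℝ) < t := by linarith
  have hlog : 0 ≤ Real.log t := Real.log_nonneg (by linarith)
  have hP2 : ∀ p ∈ P, 2 ≤ p := fun p hp => (mem_med.1 (hP hp)).2.1.two_le
  rcases Nat.eq_zero_or_pos c with hc | hc
  · -- trivial case
    have h0 : Pr P (fun D => ¬ Anti (4 * c + 8) c t D) = 0 := by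
      unfold Pr
      refine sum_eq_zero fun D hD => ?_
      exfalso
      refine (mem_sel.1 hD).2 ?_
      intro q _ _ _ x
      rw [hc, pow_zero, mul_one]
      unfold cnt
      exact (cs_le_card _ _).trans (card_powerset D).le
    rw [h0, zero_mul]
    norm_num
  -- main case
  have hk1 : 1 < t ^ c := Nat.one_lt_pow (by omega) (by omega)
  set k := Nat.clog 2 (t ^ c) with hk
  have hk2 : t ^ c ≤ 2 ^ k := Nat.le_pow_clog (by norm_num) _
  have hk3 : 2 ^ (k - 1) < t ^ c := Nat.pow_pred_clog_lt_self (by norm_num) hk1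
  have hmk : m ≤ k := by
    have h1 : 2 ^ m ≤ 2 ^ k := by
      refine le_trans htm (le_trans ?_ hk2)
      exact Nat.le_self_pow (by omega) t
    exact (Nat.pow_le_pow_iff_right (by norm_num)).1 h1
  have hk0 : 1 ≤ k := by omega
  have hk4 : (2 : ℝ) ^ k ≤ 2 * (t : ℝ) ^ c := by
    have h1 : 2 ^ k ≤ 2 * t ^ c := by
      have h2 : 2 ^ k = 2 * 2 ^ (k - 1) := by rw [← pow_succ']; congr 1; omega
      rw [h2]
      omega
    exact_mod_cast h1
  set Q := (Ioc (t ^ (4 * c + 8)) (2 ^ t)).filter Nat.Prime with hQ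
  have hPq : ∀ q ≤ 2 ^ t, ∀ p ∈ P, p.Prime ∧ p ≠ q := by
    intro q hq p hp
    have h1 := mem_med.1 (hP hp)
    refine ⟨h1.2.1, ?_⟩
    have h2 : 2 ^ t ≤ 2 ^ (t ^ (2 * g)) :=
      Nat.pow_le_pow_right (by norm_num) (Nat.le_self_pow (by omega) t)
    have h3 := h1.1.1
    omega
  -- inclusion of events
  have hinc : Pr P (fun D => ¬ Anti (4 * c + 8) c t D) ≤
      Pr P (fun D => D.card < 2 * k ∨ ∃ q ∈ Q, apBad q k m D) := by
    refine Pr_mono hP2 fun D hD hA => ?_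
    unfold Anti at hA
    push Not at hA
    obtain ⟨q, hq, hq1, hq2, x, hx⟩ := hA
    by_cases hDk : D.card < 2 * k
    · exact Or.inl hDk
    · right
      refine ⟨q, ?_, ?_⟩
      · rw [hQ, mem_filter, mem_Ioc]
        exact ⟨⟨hq1, hq2⟩, hq⟩
      · have hDq : ∀ p ∈ D, p.Prime ∧ p ≠ q := fun p hp => hPq q hq2 p (hD hp)
        rcases anti_free hq hDq k with ⟨G, hG, hGk, hGf⟩ | ⟨G, hG, hGk, hGR⟩
        · exfalso
          have h1 := cnt_free hq hDq hG hGf x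
          rw [hGk] at h1
          have h2 : cnt D q x * t ^ c ≤ cnt D q x * 2 ^ k := Nat.mul_le_mul_left _ hk2
          omega
        · have hcard : m ≤ (D \ G).card := by
            rw [card_sdiff_of_subset hG]
            omega
          obtain ⟨I, hI, hIm⟩ := Finset.exists_subset_card_eq hcard
          exact ⟨G, hG, hGk, I, hI, hIm, fun p hp => hGR p (hI hp)⟩
  -- the two probabilities
  have hfew : Pr P (fun D => D.card < 2 * k) * (t : ℝ) ^ C5 ≤ 1 / 2 := by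
    have h1 := ap_few (k := k) hP2
    have h2 : Real.exp (-(∑ p ∈ P, 1 / (p : ℝ))) ≤ ((t : ℝ) ^ (2 * c + C5 + 1))⁻¹ := by
      have h3 : ((2 * c + C5 + 1 : ℕ) : ℝ) * Real.log t ≤ ∑ p ∈ P, 1 / (p : ℝ) := by
        refine le_trans (mul_le_mul_of_nonneg_right ?_ hlog) hb3
        have h4 : 2 * c + C5 + 1 + 1 ≤ g := by omega
        have h5 : ((2 * c + C5 + 1 : ℕ) : ℝ) + 1 ≤ (g : ℝ) := by exact_mod_cast h4
        linarith
      calc Real.exp (-(∑ p ∈ P, 1 / (p : ℝ))) ≤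
            Real.exp (-(((2 * c + C5 + 1 : ℕ) : ℝ) * Real.log t)) :=
            Real.exp_le_exp.2 (neg_le_neg h3)
        _ = ((t : ℝ) ^ (2 * c + C5 + 1))⁻¹ := by
            rw [Real.exp_neg, Real.exp_nat_mul, Real.exp_log htpos]
    have h3 : Pr P (fun D => D.card < 2 * k) ≤
        (2 * (t : ℝ) ^ c) ^ 2 * ((t : ℝ) ^ (2 * c + C5 + 1))⁻¹ := by
      refine h1.trans (mul_le_mul ?_ h2 (Real.exp_pos _).le (by positivity))
      exact pow_le_pow_left₀ (by positivity) hk4 2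
    calc Pr P (fun D => D.card < 2 * k) * (t : ℝ) ^ C5 ≤
          (2 * (t : ℝ) ^ c) ^ 2 * ((t : ℝ) ^ (2 * c + C5 + 1))⁻¹ * (t : ℝ) ^ C5 :=
          mul_le_mul_of_nonneg_right h3 (by positivity)
      _ = 4 / t := by
          have e1 : (t : ℝ) ^ (2 * c + C5 + 1) = ((t : ℝ) ^ c) ^ 2 * (t : ℝ) ^ C5 * t := by
            rw [← pow_mul, pow_succ, pow_add, mul_comm 2 c]
          rw [e1]
          have e2 : (t : ℝ) ^ c ≠ 0 := by positivity
          have e3 : (t : ℝ) ^ C5 ≠ 0 := by positivity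
          field_simp
          norm_num
      _ ≤ 1 / 2 := by
          rw [div_le_div_iff₀ htpos (by norm_num)]
          linarith
  have hbad : ∀ q ∈ Q, Pr P (apBad q k m) ≤ (1 / (q : ℝ)) ^ 2 * (1 / (t : ℝ)) ^ (C5 + 1) := by
    intro q hq
    rw [hQ, mem_filter, mem_Ioc] at hq
    obtain ⟨⟨hq1, hq2⟩, hqp⟩ := hq
    have hq1' : (t : ℝ) ^ (4 * c + 8) ≤ q := by exact_mod_cast hq1.le
    have hqpos : (0 : ℝ) < q := lt_of_lt_of_le (by positivity) hq1'
    have hB : ∀ x : ℤ, ∑ p ∈ sel (med g t) (fun p => (q : ℤ) ∣ (p : ℤ) - x), 1 / (p : ℝ) ≤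
        C * g * Real.log t / q := hb1 q hqp hq2
    have hB0 : 0 ≤ C * g * Real.log t / q := by positivity
    set y : ℝ := (t : ℝ) ^ (2 * c + 1) / q with hy
    have hy0 : 0 ≤ y := by positivity
    have hR : ∀ G ⊆ P, G.card < k → ∀ A ⊆ P, (∀ p ∈ A, apR q G p) →
        ∑ p ∈ A, 2 / (p : ℝ) ≤ y := by
      intro G hG hGk A hA hAR
      refine (ap_sumR hqp hB0 hB hP (hPq q hq2) hG hA hAR).trans ?_
      have h1 : (2 : ℝ) ^ G.card ≤ (t : ℝ) ^ c := by
        have h2 : 2 ^ G.card ≤ t ^ c :=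
          (Nat.pow_le_pow_right (by norm_num) (by omega)).trans hk3.le
        exact_mod_cast h2
      have h2 : ((2 : ℝ) ^ G.card) ^ 2 ≤ ((t : ℝ) ^ c) ^ 2 :=
        pow_le_pow_left₀ (by positivity) h1 2
      calc 2 * (((2 : ℝ) ^ G.card) ^ 2 * (C * g * Real.log t / q)) ≤
            2 * (((t : ℝ) ^ c) ^ 2 * (C * g * Real.log t / q)) := by gcongr
        _ = ((t : ℝ) ^ c) ^ 2 * (2 * C * g * Real.log t) / q := by ring
        _ ≤ ((t : ℝ) ^ c) ^ 2 * t / q := by gcongr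
        _ = y := by
            rw [hy]
            congr 1
            rw [← pow_mul, pow_succ, mul_comm c 2]
    have h1 := ap_bad_le (q := q) (k := k) (m := m) hP2 hy0 hR
    have h2 : Real.exp (∑ p ∈ P, 2 / (p : ℝ)) ≤ (t : ℝ) ^ (2 * g) := by
      have h3 : ∑ p ∈ P, 2 / (p : ℝ) ≤ ((2 * g : ℕ) : ℝ) * Real.log t := by
        have h4 : ∑ p ∈ P, 1 / (p : ℝ) ≤ ∑ p ∈ med g t, 1 / (p : ℝ) :=
          sum_le_sum_of_subset_of_nonneg hP fun _ _ _ => by positivity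
        have e : ∑ p ∈ P, 2 / (p : ℝ) = 2 * ∑ p ∈ P, 1 / (p : ℝ) := by
          rw [mul_sum]
          refine sum_congr rfl fun p _ => by ring
        rw [e]
        push_cast
        linarith
      calc Real.exp (∑ p ∈ P, 2 / (p : ℝ)) ≤ Real.exp (((2 * g : ℕ) : ℝ) * Real.log t) :=
            Real.exp_le_exp.2 h3
        _ = (t : ℝ) ^ (2 * g) := by rw [Real.exp_nat_mul, Real.exp_log htpos]
    have ht1' : (1 : ℝ) ≤ t := by linarith
    have hy1 : y ≤ 1 / t := by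
      rw [hy, div_le_div_iff₀ hqpos htpos, one_mul, ← pow_succ]
      exact (pow_le_pow_right₀ ht1' (by omega)).trans hq1'
    have hy2 : y ^ 2 ≤ 1 / q := by
      rw [hy, div_pow, div_le_div_iff₀ (by positivity) hqpos, one_mul, sq (q : ℝ)]
      refine mul_le_mul_of_nonneg_right ?_ hqpos.le
      rw [← pow_mul]
      exact (pow_le_pow_right₀ ht1' (by omega)).trans hq1'
    have hy3 : y ^ m ≤ (1 / (q : ℝ)) ^ 2 * (1 / (t : ℝ)) ^ (2 * g + C5 + 1) := by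
      rw [hm, pow_add]
      refine mul_le_mul ?_ (pow_le_pow_left₀ hy0 hy1 _) (by positivity) (by positivity)
      have e : y ^ 4 = (y ^ 2) ^ 2 := by ring
      rw [e]
      exact pow_le_pow_left₀ (by positivity) hy2 2
    calc Pr P (apBad q k m) ≤ Real.exp (∑ p ∈ P, 2 / (p : ℝ)) * y ^ m := h1
      _ ≤ (t : ℝ) ^ (2 * g) * ((1 / (q : ℝ)) ^ 2 * (1 / (t : ℝ)) ^ (2 * g + C5 + 1)) :=
          mul_le_mul h2 hy3 (by positivity) (by positivity)
      _ = (1 / (q : ℝ)) ^ 2 * (1 / (t : ℝ)) ^ (C5 + 1) := by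
          have e : (1 / (t : ℝ)) ^ (2 * g + C5 + 1) =
              (1 / (t : ℝ)) ^ (2 * g) * (1 / (t : ℝ)) ^ (C5 + 1) := by
            rw [← pow_add]; congr 1
          have e2 : (t : ℝ) ^ (2 * g) * (1 / (t : ℝ)) ^ (2 * g) = 1 := by
            rw [← mul_pow, mul_one_div_cancel htpos.ne', one_pow]
          rw [e]
          calc (t : ℝ) ^ (2 * g) * ((1 / (q : ℝ)) ^ 2 *
                ((1 / (t : ℝ)) ^ (2 * g) * (1 / (t : ℝ)) ^ (C5 + 1))) =
                ((t : ℝ) ^ (2 * g) * (1 / (t : ℝ)) ^ (2 * g)) *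
                  ((1 / (q : ℝ)) ^ 2 * (1 / (t : ℝ)) ^ (C5 + 1)) := by ring
            _ = _ := by rw [e2, one_mul]
  have hbadsum : Pr P (fun D => ∃ q ∈ Q, apBad q k m D) * (t : ℝ) ^ C5 ≤ 1 / 2 := by
    have h1 : Pr P (fun D => ∃ q ∈ Q, apBad q k m D) ≤ 2 * (1 / (t : ℝ)) ^ (C5 + 1) := by
      refine (Pr_exists hP2 Q (fun q D => apBad q k m D)).trans ?_
      refine (sum_le_sum hbad).trans ?_
      rw [← sum_mul]
      refine mul_le_mul_of_nonneg_right (ap_sum_q Q ?_) (by positivity)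
      intro q hq
      rw [hQ, mem_filter] at hq
      exact hq.2.pos
    calc Pr P (fun D => ∃ q ∈ Q, apBad q k m D) * (t : ℝ) ^ C5 ≤
          2 * (1 / (t : ℝ)) ^ (C5 + 1) * (t : ℝ) ^ C5 :=
          mul_le_mul_of_nonneg_right h1 (by positivity)
      _ = 2 / t := by
          rw [one_div, inv_pow, pow_succ]
          have e3 : (t : ℝ) ^ C5 ≠ 0 := by positivity
          field_simp
      _ ≤ 1 / 2 := by
          rw [div_le_div_iff₀ htpos (by norm_num)]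
          linarith
  have hor := Pr_or hP2 (fun D => D.card < 2 * k) (fun D => ∃ q ∈ Q, apBad q k m D)
  calc Pr P (fun D => ¬ Anti (4 * c + 8) c t D) * (t : ℝ) ^ C5 ≤
        (Pr P (fun D => D.card < 2 * k) + Pr P (fun D => ∃ q ∈ Q, apBad q k m D)) *
          (t : ℝ) ^ C5 := mul_le_mul_of_nonneg_right (hinc.trans hor) (by positivity)
    _ ≤ 1 := by
        rw [add_mul]
        linarith

end Pool.Agent.H17.RP
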