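import Pool.Agent.H17.RP.MedSum
import Pool.Agent.H13.BT.Main

/-!
# BTsum: medium primes in a residue class modulo a prime `q ≤ 2^t`

`Σ_(p ∈ med g t, p = x mod q) 1/p ≤ C g (log t)/q`, `C` absolute.
Proof. `brun_titchmarsh` (`H13/BT/Main.lean`) for the dyadic intervals `(2^k, 2^(k+1)]`,
`t^(2g) ≤ k < t^(4g-1)`: `2^k ≥ 2 q` and `log (2^k/q) ≥ (k - t) log 2 ≥ (k/2) log 2`, so
the number of primes `p = x mod q` in it is at most `C 2^k/(φ(q) log (2^k/q)) ≤ C' 2^k/(q k)`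
(`φ(q) = q - 1 ≥ q/2`), each has `1/p ≤ 2^(-k)`.  Sum over `k`: `(C'/q) Σ_(t^(2g) ≤ k < t^(4g-1)) 1/k
≤ (C'/q) (log (t^(4g-1)) + 1) ≤ C'' g (log t)/q`.
-/

set_option autoImplicit false

namespace Pool.Agent.H17.RP

open Finset

private theorem bts_harm (a b : ℕ) (ha : 1 ≤ a) :
    ∑ k ∈ Ico a b, 1 / (k : ℝ) ≤ 1 + Real.log b := by
  have h1 : ∑ k ∈ Ico a b, 1 / (k : ℝ) ≤ ∑ k ∈ Icc 1 b, 1 / (k : ℝ) := by
    apply sum_le_sum_of_subset_of_nonneg
    · intro k hk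
      rw [mem_Ico] at hk
      rw [mem_Icc]
      omega
    · intro k _ _
      positivity
  have h2 : ∑ k ∈ Icc 1 b, 1 / (k : ℝ) = ((harmonic b : ℚ) : ℝ) := by
    rw [harmonic_eq_sum_Icc]
    push_cast
    exact sum_congr rfl fun k _ => one_div _
  rw [h2] at h1
  exact h1.trans (harmonic_le_one_add_log b)

private theorem bts_dyadic {C : ℝ} (hC : 0 < C)
    (hbt : ∀ x y q c : ℕ, 1 ≤ q → 2 * q ≤ y →
      ((Pool.Agent.H13.BT.PS x y q c).card : ℝ) ≤ C * y / (Nat.totient q * Real.log ((y : ℝ) / q)))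
    (t q c k : ℕ) (hq : q.Prime) (hqt : q ≤ 2 ^ t) (hk : 2 * t ≤ k) (ht : 1 ≤ t) :
    ∑ p ∈ Pool.Agent.H13.BT.PS (2 ^ k) (2 ^ k) q c, 1 / (p : ℝ) ≤
      4 * C / Real.log 2 / q * (1 / (k : ℝ)) := by
  have hl2 : 0 < Real.log 2 := Real.log_pos (by norm_num)
  have hq0 : (0 : ℝ) < q := by exact_mod_cast hq.pos
  have hk0 : (0 : ℝ) < k := by exact_mod_cast (by omega : 0 < k)
  have h2q : 2 * q ≤ 2 ^ k := by
    calc 2 * q ≤ 2 * 2 ^ t := by omega
      _ = 2 ^ (t + 1) := by ring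
      _ ≤ 2 ^ k := Nat.pow_le_pow_right (by norm_num) (by omega)
  have h1 := hbt (2 ^ k) (2 ^ k) q c hq.one_le h2q
  have hφ : (q : ℝ) / 2 ≤ (Nat.totient q : ℝ) := by
    rw [Nat.totient_prime hq, Nat.cast_sub hq.one_le]
    have : (2 : ℝ) ≤ q := by exact_mod_cast hq.two_le
    push_cast
    linarith
  have hlog : (k : ℝ) / 2 * Real.log 2 ≤ Real.log (((2 ^ k : ℕ) : ℝ) / q) := by
    rw [Real.log_div (by positivity) hq0.ne']
    push_cast
    rw [Real.log_pow]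
    have h3 : Real.log q ≤ t * Real.log 2 := by
      rw [← Real.log_pow]
      apply Real.log_le_log hq0
      exact_mod_cast hqt
    have h4 : (t : ℝ) ≤ k / 2 := by
      rw [le_div_iff₀ (by norm_num)]
      have : ((2 * t : ℕ) : ℝ) ≤ k := by exact_mod_cast hk
      push_cast at this
      linarith
    nlinarith
  have hterm : ∑ p ∈ Pool.Agent.H13.BT.PS (2 ^ k) (2 ^ k) q c, 1 / (p : ℝ) ≤
      (Pool.Agent.H13.BT.PS (2 ^ k) (2 ^ k) q c).card * (1 / (2 : ℝ) ^ k) := by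
    rw [← nsmul_eq_mul]
    apply sum_le_card_nsmul
    intro p hp
    unfold Pool.Agent.H13.BT.PS at hp
    rw [mem_filter, mem_Ioc] at hp
    apply one_div_le_one_div_of_le (by positivity)
    exact_mod_cast hp.1.1.le
  have hden : (q : ℝ) / 2 * ((k : ℝ) / 2 * Real.log 2) ≤
      (Nat.totient q : ℝ) * Real.log (((2 ^ k : ℕ) : ℝ) / q) := by
    apply mul_le_mul hφ hlog (by positivity) (by positivity)
  have h5 : C * ((2 ^ k : ℕ) : ℝ) / ((Nat.totient q : ℝ) * Real.log (((2 ^ k : ℕ) : ℝ) / q)) ≤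
      C * ((2 ^ k : ℕ) : ℝ) / ((q : ℝ) / 2 * ((k : ℝ) / 2 * Real.log 2)) :=
    div_le_div_of_nonneg_left (by positivity) (by positivity) hden
  calc ∑ p ∈ Pool.Agent.H13.BT.PS (2 ^ k) (2 ^ k) q c, 1 / (p : ℝ)
      ≤ (Pool.Agent.H13.BT.PS (2 ^ k) (2 ^ k) q c).card * (1 / (2 : ℝ) ^ k) := hterm
    _ ≤ (C * ((2 ^ k : ℕ) : ℝ) / ((q : ℝ) / 2 * ((k : ℝ) / 2 * Real.log 2))) *
        (1 / (2 : ℝ) ^ k) := by
        apply mul_le_mul_of_nonneg_right (h1.trans h5) (by positivity)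
    _ = 4 * C / Real.log 2 / q * (1 / (k : ℝ)) := by
        push_cast
        field_simp
        ring

theorem btsum : ∃ C : ℝ, 0 < C ∧ ∀ g : ℕ, 1 ≤ g → ∃ t0 : ℕ, ∀ t ≥ t0, ∀ q : ℕ, q.Prime →
    q ≤ 2 ^ t → ∀ x : ℤ,
    ∑ p ∈ sel (med g t) (fun p => (q : ℤ) ∣ (p : ℤ) - x), 1 / (p : ℝ) ≤
      C * g * Real.log t / q := by
  classical
  obtain ⟨C, hC, hbt⟩ := Pool.Agent.H13.BT.brun_titchmarsh
  have hl2 : 0 < Real.log 2 := Real.log_pos (by norm_num)
  refine ⟨16 * C / Real.log 2, by positivity, fun g hg => ⟨3, fun t ht q hq hqt x => ?_⟩⟩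
  have hq0 : (0 : ℝ) < q := by exact_mod_cast hq.pos
  have hqz : (0 : ℤ) < q := by exact_mod_cast hq.pos
  set a : ℕ := t ^ (2 * g) with ha
  set b : ℕ := t ^ (4 * g - 1) with hb
  have ha2 : 2 * t ≤ a := by
    calc 2 * t ≤ t * t := Nat.mul_le_mul_right t (by omega)
      _ = t ^ 2 := by ring
      _ ≤ t ^ (2 * g) := Nat.pow_le_pow_right (by omega) (by omega)
  set c : ℕ := (x % q).toNat with hc
  have hcx : (c : ℤ) = x % q := Int.toNat_of_nonneg (Int.emod_nonneg x hqz.ne')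
  have hsub : sel (med g t) (fun p => (q : ℤ) ∣ (p : ℤ) - x) ⊆
      (Ico a b).biUnion (fun k => Pool.Agent.H13.BT.PS (2 ^ k) (2 ^ k) q c) := by
    intro p hp
    rw [mem_sel, mem_med] at hp
    obtain ⟨⟨⟨hp1, hp2⟩, hpp, _⟩, hpx⟩ := hp
    rw [← ha] at hp1
    rw [← hb] at hp2
    rw [mem_biUnion]
    have hp0 : p - 1 ≠ 0 := by
      have := hpp.two_le
      omega
    refine ⟨Nat.log 2 (p - 1), ?_, ?_⟩
    · rw [mem_Ico]
      constructor
      · apply Nat.le_log_of_pow_le (by norm_num)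
        omega
      · apply Nat.log_lt_of_lt_pow hp0
        omega
    · unfold Pool.Agent.H13.BT.PS
      rw [mem_filter, mem_Ioc]
      have h1 := Nat.pow_log_le_self 2 hp0
      have h2 := Nat.lt_pow_succ_log_self (b := 2) (by norm_num) (p - 1)
      rw [pow_succ] at h2
      refine ⟨⟨by omega, by omega⟩, hpp, ?_⟩
      rw [← Int.natCast_modEq_iff, hcx]
      have h3 : (p : ℤ) ≡ x [ZMOD q] := (Int.modEq_iff_dvd.2 (by
        have := (dvd_neg (a := (q : ℤ))).2 hpx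
        rwa [neg_sub] at this))
      exact h3.trans (Int.mod_modEq x q).symm
  have hnn : ∀ s : Finset ℕ, ∀ p ∈ s, (0 : ℝ) ≤ 1 / (p : ℝ) := fun s p _ => by positivity
  have h1 : ∑ p ∈ sel (med g t) (fun p => (q : ℤ) ∣ (p : ℤ) - x), 1 / (p : ℝ) ≤
      ∑ k ∈ Ico a b, ∑ p ∈ Pool.Agent.H13.BT.PS (2 ^ k) (2 ^ k) q c, 1 / (p : ℝ) := by
    refine (sum_le_sum_of_subset_of_nonneg hsub (fun p _ _ => by positivity)).trans ?_
    have hdis : ∀ k ∈ Ico a b, ∀ l ∈ Ico a b, k ≠ l →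
        Disjoint (Pool.Agent.H13.BT.PS (2 ^ k) (2 ^ k) q c)
          (Pool.Agent.H13.BT.PS (2 ^ l) (2 ^ l) q c) := by
      have key : ∀ k l : ℕ, k < l → Disjoint (Pool.Agent.H13.BT.PS (2 ^ k) (2 ^ k) q c)
          (Pool.Agent.H13.BT.PS (2 ^ l) (2 ^ l) q c) := by
        intro k l hkl
        rw [Finset.disjoint_left]
        intro p h1 h2
        unfold Pool.Agent.H13.BT.PS at h1 h2
        rw [mem_filter, mem_Ioc] at h1 h2
        have h3 : 2 ^ (k + 1) ≤ 2 ^ l := Nat.pow_le_pow_right (by norm_num) hkl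
        rw [pow_succ] at h3
        omega
      intro k _ l _ hkl
      rcases Nat.lt_or_gt_of_ne hkl with h | h
      · exact key k l h
      · exact (key l k h).symm
    rw [sum_biUnion hdis]
  have h2 : ∑ k ∈ Ico a b, ∑ p ∈ Pool.Agent.H13.BT.PS (2 ^ k) (2 ^ k) q c, 1 / (p : ℝ) ≤
      ∑ k ∈ Ico a b, 4 * C / Real.log 2 / q * (1 / (k : ℝ)) := by
    apply sum_le_sum
    intro k hk
    rw [mem_Ico] at hk
    exact bts_dyadic hC hbt t q c k hq hqt (by omega) (by omega)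
  rw [← mul_sum] at h2
  have h3 := bts_harm a b (by omega)
  have hlb : Real.log (b : ℝ) = (4 * g - 1 : ℕ) * Real.log t := by
    rw [hb]
    push_cast
    rw [Real.log_pow]
  have e4 : ((4 * g - 1 : ℕ) : ℝ) = 4 * g - 1 := by
    rw [Nat.cast_sub (by omega)]
    push_cast
    ring
  have hlt : 1 ≤ Real.log t := by
    have ht3 : (3 : ℝ) ≤ t := by exact_mod_cast ht
    rw [Real.le_log_iff_exp_le (by positivity)]
    have h := Real.exp_one_lt_d9
    linarith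
  have h4 : 1 + Real.log (b : ℝ) ≤ 4 * g * Real.log t := by
    rw [hlb, e4]
    linarith
  have h5 : 4 * C / Real.log 2 / q * ∑ k ∈ Ico a b, 1 / (k : ℝ) ≤
      4 * C / Real.log 2 / q * (4 * g * Real.log t) :=
    mul_le_mul_of_nonneg_left (h3.trans h4) (by positivity)
  refine (h1.trans (h2.trans h5)).trans (le_of_eq ?_)
  field_simp
  ring

end Pool.Agent.H17.RP
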