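import Pool.Agent.H17.RP.Defs

/-!
# Basic counting lemmas

`cs S Q` is the number of elements of `S` with property `Q`.  `ap_split`, `ap_sum`, `cs_class`:
splitting of an interval into residue classes.  `crt_card`: Chinese remainder theorem for periodic
predicates.
-/

set_option autoImplicit false

namespace Pool.Agent.H17.RP

open Finset

section

variable {ι κ : Type}

open Classical in
theorem mem_sel {S : Finset ι} {Q : ι → Prop} {x : ι} : x ∈ sel S Q ↔ x ∈ S ∧ Q x := by
  unfold sel; exact mem_filter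

theorem sel_subset (S : Finset ι) (Q : ι → Prop) : sel S Q ⊆ S := fun _ hx => (mem_sel.1 hx).1

theorem cs_le_card (S : Finset ι) (Q : ι → Prop) : cs S Q ≤ S.card :=
  card_le_card (sel_subset S Q)

theorem cs_mono {S : Finset ι} {P Q : ι → Prop} (h : ∀ x ∈ S, P x → Q x) : cs S P ≤ cs S Q := by
  refine card_le_card fun x hx => ?_
  rw [mem_sel] at hx ⊢
  exact ⟨hx.1, h x hx.1 hx.2⟩

theorem cs_congr {S : Finset ι} {P Q : ι → Prop} (h : ∀ x ∈ S, (P x ↔ Q x)) : cs S P = cs S Q :=
  le_antisymm (cs_mono fun x hx hp => (h x hx).1 hp) (cs_mono fun x hx hp => (h x hx).2 hp)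

theorem cs_subset {S T : Finset ι} (h : S ⊆ T) (Q : ι → Prop) : cs S Q ≤ cs T Q := by
  refine card_le_card fun x hx => ?_
  rw [mem_sel] at hx ⊢
  exact ⟨h hx.1, hx.2⟩

theorem cs_or (S : Finset ι) (P Q : ι → Prop) : cs S (fun x => P x ∨ Q x) ≤ cs S P + cs S Q := by
  classical
  refine (card_le_card fun x hx => ?_).trans (card_union_le (sel S P) (sel S Q))
  rw [mem_sel] at hx
  rw [mem_union, mem_sel, mem_sel]
  rcases hx.2 with h | h
  · exact Or.inl ⟨hx.1, h⟩
  · exact Or.inr ⟨hx.1, h⟩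

theorem cs_exists (S : Finset ι) (T : Finset κ) (P : κ → ι → Prop) :
    cs S (fun x => ∃ k ∈ T, P k x) ≤ ∑ k ∈ T, cs S (P k) := by
  classical
  refine (card_le_card fun x hx => ?_).trans (card_biUnion_le (s := T) (t := fun k => sel S (P k)))
  rw [mem_sel] at hx
  obtain ⟨h1, k, hk, h2⟩ := hx
  rw [mem_biUnion]
  exact ⟨k, hk, mem_sel.2 ⟨h1, h2⟩⟩

open Classical in
theorem cs_not (S : Finset ι) (Q : ι → Prop) : cs S Q + cs S (fun x => ¬ Q x) = S.card := by
  unfold cs sel
  have := Finset.card_filter_add_card_filter_not (s := S) Q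
  convert this

open Classical in
theorem cs_eq_sum (S : Finset ι) (Q : ι → Prop) : cs S Q = ∑ x ∈ S, if Q x then 1 else 0 := by
  unfold cs sel
  rw [card_filter]

end

/-- The elements of a residue class `r` modulo `d` in `range N`. -/
theorem cs_class (N d r : ℕ) (hd : 0 < d) (hr : r < d) (Q : ℕ → Prop) :
    cs (range N) (fun m => m % d = r ∧ Q m) =
      cs (range ((N + d - 1 - r) / d)) (fun m => Q (r + d * m)) := by
  have key : ∀ k : ℕ, k < (N + d - 1 - r) / d ↔ r + d * k < N := by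
    intro k
    rw [Nat.lt_iff_add_one_le, Nat.le_div_iff_mul_le hd]
    have e : (k + 1) * d = d * k + d := by ring
    rw [e]
    omega
  refine Finset.card_bij' (fun m _ => m / d) (fun k _ => r + d * k) ?_ ?_ ?_ ?_
  · intro m hm
    rw [mem_sel, mem_range] at hm
    rw [mem_sel, mem_range]
    obtain ⟨h1, h2, h3⟩ := hm
    have e : r + d * (m / d) = m := by rw [← h2]; exact Nat.mod_add_div m d
    refine ⟨(key _).2 ?_, ?_⟩
    · rw [e]; exact h1
    · show Q (r + d * (m / d))
      rw [e]; exact h3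
  · intro k hk
    rw [mem_sel, mem_range] at hk
    rw [mem_sel, mem_range]
    refine ⟨(key k).1 hk.1, ?_, hk.2⟩
    show (r + d * k) % d = r
    rw [Nat.add_mul_mod_self_left, Nat.mod_eq_of_lt hr]
  · intro m hm
    rw [mem_sel] at hm
    show r + d * (m / d) = m
    rw [← hm.2.1]; exact Nat.mod_add_div m d
  · intro k _
    show (r + d * k) / d = k
    rw [Nat.add_mul_div_left _ _ hd, Nat.div_eq_of_lt hr, Nat.zero_add]

/-- Splitting of a count according to the residue class. -/
theorem cs_fiber (N d : ℕ) (hd : 0 < d) (Q : ℕ → Prop) :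
    cs (range N) Q = ∑ r ∈ range d, cs (range N) (fun m => m % d = r ∧ Q m) := by
  classical
  have h := Finset.card_eq_sum_card_fiberwise (s := sel (range N) Q) (t := range d)
    (f := fun m => m % d) (fun m _ => by
      simp only [coe_range, Set.mem_Iio]
      exact Nat.mod_lt _ hd)
  unfold cs
  rw [h]
  refine sum_congr rfl fun r _ => ?_
  congr 1
  ext m
  rw [mem_filter, mem_sel, mem_sel]
  tauto

/-- The lengths of the residue classes add up to `N`. -/
theorem sum_class (N d : ℕ) (hd : 0 < d) : ∑ r ∈ range d, (N + d - 1 - r) / d = N := by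
  have htrue : ∀ M : ℕ, cs (range M) (fun _ => True) = M := by
    intro M
    have h := cs_not (range M) (fun _ => True)
    have h0 : cs (range M) (fun _ => ¬ True) = 0 := by
      unfold cs
      rw [Finset.card_eq_zero, Finset.eq_empty_iff_forall_notMem]
      intro x hx
      exact (mem_sel.1 hx).2 trivial
    rw [h0, card_range] at h
    omega
  have h := cs_fiber N d hd (fun _ => True)
  rw [htrue] at h
  conv_rhs => rw [h]
  refine sum_congr rfl fun r hr => ?_
  rw [cs_class N d r hd (mem_range.1 hr) (fun _ => True), htrue]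

/-- Splitting of `[A, 2A)` into residue classes. -/
theorem ap_split (A W : ℕ) (hW : 0 < W) (Q : ℤ → Prop) :
    cs (Ico (A : ℤ) (2 * (A : ℤ))) Q =
      ∑ r ∈ range W, cs (range ((A + W - 1 - r) / W)) (fun m => Q ((A : ℤ) + r + W * m)) := by
  have h1 : cs (Ico (A : ℤ) (2 * (A : ℤ))) Q = cs (range A) (fun m => Q ((A : ℤ) + (m : ℤ))) := by
    symm
    refine Finset.card_bij' (fun m _ => (A : ℤ) + (m : ℤ)) (fun n _ => (n - (A : ℤ)).toNat)
      ?_ ?_ ?_ ?_
    · intro m hm
      rw [mem_sel, mem_range] at hm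
      rw [mem_sel, mem_Ico]
      have hm1 : (m : ℤ) < (A : ℤ) := by exact_mod_cast hm.1
      refine ⟨⟨?_, ?_⟩, hm.2⟩
      · show (A : ℤ) ≤ (A : ℤ) + (m : ℤ)
        omega
      · show (A : ℤ) + (m : ℤ) < 2 * (A : ℤ)
        omega
    · intro n hn
      rw [mem_sel, mem_Ico] at hn
      rw [mem_sel, mem_range]
      obtain ⟨⟨h2, h3⟩, h4⟩ := hn
      refine ⟨by omega, ?_⟩
      show Q ((A : ℤ) + ((n - (A : ℤ)).toNat : ℤ))
      have e : (A : ℤ) + ((n - (A : ℤ)).toNat : ℤ) = n := by omega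
      rw [e]; exact h4
    · intro m _
      show ((A : ℤ) + (m : ℤ) - (A : ℤ)).toNat = m
      omega
    · intro n hn
      rw [mem_sel, mem_Ico] at hn
      show (A : ℤ) + ((n - (A : ℤ)).toNat : ℤ) = n
      omega
  rw [h1, cs_fiber A W hW]
  refine sum_congr rfl fun r hr => ?_
  rw [cs_class A W r hW (mem_range.1 hr) (fun m => Q ((A : ℤ) + (m : ℤ)))]
  refine cs_congr fun m _ => ?_
  have e : (A : ℤ) + ((r + W * m : ℕ) : ℤ) = (A : ℤ) + r + W * m := by
    push_cast; ring
  show Q ((A : ℤ) + ((r + W * m : ℕ) : ℤ)) ↔ Q ((A : ℤ) + r + W * m)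
  rw [e]

theorem per_mod {a : ℕ} {P : ℕ → Prop} (hP : ∀ m, P (m + a) ↔ P m) (m : ℕ) :
    P (m % a) ↔ P m := by
  have h : ∀ k r : ℕ, P (r + a * k) ↔ P r := by
    intro k
    induction k with
    | zero => intro r; simp
    | succ k ih =>
      intro r
      have e : r + a * (k + 1) = (r + a * k) + a := by ring
      rw [e, hP, ih]
  have h2 := h (m / a) (m % a)
  rw [Nat.mod_add_div] at h2
  exact h2.symm

theorem per_of_dvd {a b : ℕ} (hab : a ∣ b) {P : ℕ → Prop} (hP : ∀ m, P (m + a) ↔ P m) (m : ℕ) :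
    P (m + b) ↔ P m := by
  rw [← per_mod hP (m + b), ← per_mod hP m]
  obtain ⟨c, rfl⟩ := hab
  rw [Nat.add_mul_mod_self_left]

theorem crt_two {a b : ℕ} (ha : 0 < a) (hb : 0 < b) (hab : Nat.Coprime a b) {P Q : ℕ → Prop}
    (hP : ∀ m, P (m + a) ↔ P m) (hQ : ∀ m, Q (m + b) ↔ Q m) :
    cs (range (a * b)) (fun m => P m ∧ Q m) = cs (range a) P * cs (range b) Q := by
  classical
  unfold cs
  rw [← Finset.card_product]
  refine Finset.card_bij (fun m _ => (m % a, m % b)) ?_ ?_ ?_
  · intro m hm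
    rw [mem_sel] at hm
    rw [mem_product, mem_sel, mem_sel, mem_range, mem_range]
    exact ⟨⟨Nat.mod_lt _ ha, (per_mod hP m).2 hm.2.1⟩, ⟨Nat.mod_lt _ hb, (per_mod hQ m).2 hm.2.2⟩⟩
  · intro m hm m' hm' h
    rw [mem_sel, mem_range] at hm hm'
    rw [Prod.mk.injEq] at h
    have h1 : m ≡ m' [MOD a * b] := (Nat.modEq_and_modEq_iff_modEq_mul hab).1 ⟨h.1, h.2⟩
    have h2 : m % (a * b) = m' % (a * b) := h1
    rwa [Nat.mod_eq_of_lt hm.1, Nat.mod_eq_of_lt hm'.1] at h2
  · rintro ⟨x, y⟩ hxy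
    rw [mem_product, mem_sel, mem_sel, mem_range, mem_range] at hxy
    obtain ⟨⟨hx, hPx⟩, ⟨hy, hQy⟩⟩ := hxy
    have hx' : x < a := hx
    have hy' : y < b := hy
    obtain ⟨k, hk1, hk2⟩ := Nat.chineseRemainder hab x y
    have hk1' : k % a = x := by
      have : k % a = x % a := hk1
      rwa [Nat.mod_eq_of_lt hx'] at this
    have hk2' : k % b = y := by
      have : k % b = y % b := hk2
      rwa [Nat.mod_eq_of_lt hy'] at this
    have e1 : k % (a * b) % a = x := by
      rw [Nat.mod_mod_of_dvd _ (dvd_mul_right a b)]; exact hk1'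
    have e2 : k % (a * b) % b = y := by
      rw [Nat.mod_mod_of_dvd _ (dvd_mul_left b a)]; exact hk2'
    refine ⟨k % (a * b), ?_, ?_⟩
    · rw [mem_sel, mem_range]
      refine ⟨Nat.mod_lt _ (Nat.mul_pos ha hb), ?_, ?_⟩
      · rw [← per_mod hP, e1]; exact hPx
      · rw [← per_mod hQ, e2]; exact hQy
    · show (k % (a * b) % a, k % (a * b) % b) = (x, y)
      rw [e1, e2]

theorem per_all (U : Finset ℕ) (K : ℕ → ℕ → Prop)
    (hK : ∀ p ∈ U, ∀ m, K p (m + p) ↔ K p m) (m : ℕ) :
    (∀ p ∈ U, K p (m + ∏ p ∈ U, p)) ↔ (∀ p ∈ U, K p m) := by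
  constructor
  · intro h p hp
    exact (per_of_dvd (Finset.dvd_prod_of_mem (fun p => p) hp) (hK p hp) m).1 (h p hp)
  · intro h p hp
    exact (per_of_dvd (Finset.dvd_prod_of_mem (fun p => p) hp) (hK p hp) m).2 (h p hp)

/-- Chinese remainder theorem for periodic predicates. -/
theorem crt_card (U : Finset ℕ) (hU : ∀ p ∈ U, p.Prime) (K : ℕ → ℕ → Prop)
    (hK : ∀ p ∈ U, ∀ m, K p (m + p) ↔ K p m) :
    cs (range (∏ p ∈ U, p)) (fun m => ∀ p ∈ U, K p m) = ∏ p ∈ U, cs (range p) (K p) := by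
  classical
  induction U using Finset.induction_on with
  | empty =>
    rw [prod_empty, prod_empty]
    have h : sel (range 1) (fun m => ∀ p ∈ (∅ : Finset ℕ), K p m) = range 1 := by
      ext m
      rw [mem_sel]
      constructor
      · intro h; exact h.1
      · intro h; exact ⟨h, fun p hp => absurd hp (Finset.notMem_empty p)⟩
    unfold cs
    rw [h, card_range]
  | @insert q U hq ih =>
    have hU' : ∀ p ∈ U, p.Prime := fun p hp => hU p (mem_insert_of_mem hp)
    have hK' : ∀ p ∈ U, ∀ m, K p (m + p) ↔ K p m := fun p hp => hK p (mem_insert_of_mem hp)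
    have hqp : q.Prime := hU q (mem_insert_self q U)
    rw [prod_insert hq, prod_insert hq, ← ih hU' hK']
    have hcop : Nat.Coprime q (∏ p ∈ U, p) := by
      refine Nat.Coprime.prod_right fun p hp => ?_
      refine (Nat.coprime_primes hqp (hU' p hp)).2 ?_
      rintro rfl
      exact hq hp
    have hpos : 0 < ∏ p ∈ U, p := Finset.prod_pos fun p hp => (hU' p hp).pos
    rw [← crt_two hqp.pos hpos hcop (hK q (mem_insert_self q U)) (per_all U K hK')]
    refine cs_congr fun m _ => ?_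
    rw [Finset.forall_mem_insert]

/-- The number of `m < N` in a given class is `N / d` up to `1`. -/
theorem class_near (N d r : ℕ) (hd : 0 < d) (hr : r < d) :
    |(((N + d - 1 - r) / d : ℕ) : ℝ) - (N : ℝ) / d| ≤ 1 := by
  have hd' : (0 : ℝ) < (d : ℝ) := by exact_mod_cast hd
  set q := (N + d - 1 - r) / d with hq
  have h1 : q * d ≤ N + d - 1 - r := Nat.div_mul_le_self _ _
  have h2 : N + d - 1 - r < (q + 1) * d := by
    rw [mul_comm]; exact Nat.lt_mul_div_succ _ hd
  have h3 : q * d ≤ N + d := by omega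
  have h4 : N ≤ (q + 1) * d := by omega
  have h3' : (q : ℝ) * d ≤ (N : ℝ) + d := by exact_mod_cast h3
  have h4' : (N : ℝ) ≤ ((q : ℝ) + 1) * d := by exact_mod_cast h4
  rw [abs_le]
  constructor
  · have : (N : ℝ) / d ≤ (q : ℝ) + 1 := by rw [div_le_iff₀ hd']; exact h4'
    linarith
  · have : (q : ℝ) - 1 ≤ (N : ℝ) / d := by rw [le_div_iff₀ hd']; linarith
    linarith

/-- The number of `m < N` with a periodic property. -/
theorem per_count (M : ℕ) (hM : 0 < M) (R : ℕ → Prop) (hR : ∀ m, R (m + M) ↔ R m) (N : ℕ) :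
    |(cs (range N) R : ℝ) - (N : ℝ) / M * (cs (range M) R : ℝ)| ≤ (cs (range M) R : ℝ) := by
  classical
  have e1 : (cs (range N) R : ℝ) =
      ∑ r ∈ range M, if R r then (((N + M - 1 - r) / M : ℕ) : ℝ) else 0 := by
    rw [cs_fiber N M hM R, Nat.cast_sum]
    refine sum_congr rfl fun r hr => ?_
    have hr' : r < M := mem_range.1 hr
    rw [cs_class N M r hM hr' R]
    have h2 : ∀ m : ℕ, R (r + M * m) ↔ R r := by
      intro m
      have h3 := per_mod hR (r + M * m)
      rw [Nat.add_mul_mod_self_left, Nat.mod_eq_of_lt hr'] at h3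
      exact h3.symm
    by_cases h : R r
    · rw [if_pos h]
      have h4 : sel (range ((N + M - 1 - r) / M)) (fun m => R (r + M * m)) =
          range ((N + M - 1 - r) / M) := by
        ext m
        rw [mem_sel]
        exact ⟨fun x => x.1, fun x => ⟨x, (h2 m).2 h⟩⟩
      unfold cs
      rw [h4, card_range]
    · rw [if_neg h]
      have h4 : sel (range ((N + M - 1 - r) / M)) (fun m => R (r + M * m)) = ∅ := by
        rw [Finset.eq_empty_iff_forall_notMem]
        intro m hm
        exact h ((h2 m).1 (mem_sel.1 hm).2)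
      unfold cs
      rw [h4, card_empty, Nat.cast_zero]
  have e2 : (cs (range M) R : ℝ) = ∑ r ∈ range M, if R r then (1 : ℝ) else 0 := by
    rw [cs_eq_sum, Nat.cast_sum]
    refine sum_congr rfl fun r _ => ?_
    by_cases h : R r
    · rw [if_pos h, if_pos h, Nat.cast_one]
    · rw [if_neg h, if_neg h, Nat.cast_zero]
  rw [e1]
  conv_rhs => rw [e2]
  rw [e2, mul_sum, ← sum_sub_distrib]
  refine (Finset.abs_sum_le_sum_abs _ _).trans (sum_le_sum fun r hr => ?_)
  have hr' : r < M := mem_range.1 hr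
  by_cases h : R r
  · rw [if_pos h, if_pos h, mul_one]
    exact class_near N M r hM hr'
  · rw [if_neg h, if_neg h, mul_zero, sub_zero, abs_zero]

/-- The number of `m < N` with all the properties `K p`, `p ∈ U`: the expected number times `N`,
up to the number of classes. -/
theorem crt_count (U : Finset ℕ) (hU : ∀ p ∈ U, p.Prime) (K : ℕ → ℕ → Prop)
    (hK : ∀ p ∈ U, ∀ m, K p (m + p) ↔ K p m) (N : ℕ) :
    |(cs (range N) (fun m => ∀ p ∈ U, K p m) : ℝ) -
      N * ∏ p ∈ U, ((cs (range p) (K p) : ℝ) / p)| ≤ ∏ p ∈ U, (cs (range p) (K p) : ℝ) := by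
  have hpos : 0 < ∏ p ∈ U, p := Finset.prod_pos fun p hp => (hU p hp).pos
  have h := per_count (∏ p ∈ U, p) hpos (fun m => ∀ p ∈ U, K p m) (per_all U K hK) N
  rw [crt_card U hU K hK] at h
  rw [Nat.cast_prod, Nat.cast_prod] at h
  rw [prod_div_distrib]
  have e : (N : ℝ) * ((∏ p ∈ U, (cs (range p) (K p) : ℝ)) / ∏ p ∈ U, (p : ℝ)) =
      (N : ℝ) / (∏ p ∈ U, (p : ℝ)) * ∏ p ∈ U, (cs (range p) (K p) : ℝ) := by ring
  rw [e]
  exact h

end Pool.Agent.H17.RP
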