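import Pool.Agent.H17.RP.Root

/-!
# BoxC: lattice points of a box with `p ∣ Nm` for all `p ∈ I`

Because `(e, f)` is a basis, the number `ρ(p)` of classes `(α, β)` modulo `p` with
`p ∣ Nm (α e + β f)` is the number of `(x, y)` modulo `p` with `p ∣ x² + 3xy + 3y²`: `2p - 1` for
`p = 1 mod 3` (the two lines `x = ρ y`), `3` for `p = 3` (`x = 0`), `1` for `p = 2 mod 3` (`inert`);
`dw p = ρ(p)/p²`.  By CRT there are `∏ ρ(p)` classes modulo `d = ∏ I`, each contains
`(L/d + θ₁)(L/d + θ₂)` pairs, `|θ| ≤ 1`, which is `L²/d²` up to `2L/d + 1 ≤ 3L/d`.  The total error is at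
most `∏ (ρ(p)/p) 3 L ≤ 2^|I| 3 L ≤ 3 L d`.
-/

set_option autoImplicit false

namespace Pool.Agent.H17.RP

open Finset

/-- the density of the vectors `w` with `p ∣ Nm w` -/
noncomputable def dw (p : ℕ) : ℝ :=
  if p % 3 = 1 then (2 * (p : ℝ) - 1) / (p : ℝ) ^ 2 else if p = 3 then 1 / 3 else 1 / (p : ℝ) ^ 2

theorem dw_bounds {p : ℕ} (hp : p.Prime) :
    0 ≤ dw p ∧ dw p ≤ 1 / 2 ∧ dw p * ((p : ℝ) - 1) ≤ 2 := by
  have h2 : (2 : ℝ) ≤ (p : ℝ) := by exact_mod_cast hp.two_le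
  have hp2 : (0 : ℝ) < (p : ℝ) ^ 2 := by positivity
  unfold dw
  split_ifs with h1 h3
  · have h4 : 4 ≤ p := by
      have := hp.two_le
      rcases Nat.lt_or_ge p 4 with h | h
      · interval_cases p <;> omega
      · exact h
    have h4' : (4 : ℝ) ≤ (p : ℝ) := by exact_mod_cast h4
    refine ⟨div_nonneg (by linarith) hp2.le, ?_, ?_⟩
    · rw [div_le_iff₀ hp2]; nlinarith
    · rw [div_mul_eq_mul_div, div_le_iff₀ hp2]; nlinarith
  · subst h3
    norm_num
  · refine ⟨by positivity, ?_, ?_⟩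
    · rw [div_le_iff₀ hp2]; nlinarith
    · rw [div_mul_eq_mul_div, div_le_iff₀ hp2]; nlinarith

private theorem bc_dvd {p : ℕ} (x : ℤ) : (p : ℤ) ∣ x ↔ ((x : ℤ) : ZMod p) = 0 :=
  (ZMod.intCast_zmod_eq_zero_iff_dvd x p).symm

private theorem bc_Nm (w : ℤ × ℤ) : Nm w = (w.1 + w.2) ^ 2 + (w.1 + w.2) * w.2 + w.2 ^ 2 := by
  unfold Nm F; ring

private theorem bc_omega {p : ℕ} (hp : p.Prime) (h3 : p % 3 = 1) :
    ∃ g : ZMod p, g ^ 2 + g + 1 = 0 ∧ g ≠ g ^ 2 := by
  have : Fact p.Prime := ⟨hp⟩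
  have hc : 3 ∣ Fintype.card (ZMod p)ˣ := by
    rw [ZMod.card_units p]
    have := hp.pos
    omega
  have : Fact (Nat.Prime 3) := ⟨Nat.prime_three⟩
  obtain ⟨u, hu⟩ := exists_prime_orderOf_dvd_card 3 hc
  have h1 : (u : ZMod p) ^ 3 = 1 := by
    have := pow_orderOf_eq_one u
    rw [hu] at this
    rw [← Units.val_pow_eq_pow_val, this, Units.val_one]
  have h2 : (u : ZMod p) ≠ 1 := by
    intro h
    have h' : u = 1 := Units.ext h
    rw [h', orderOf_one] at hu
    omega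
  have h4 : ((u : ZMod p) - 1) * ((u : ZMod p) ^ 2 + u + 1) = 0 := by
    linear_combination h1
  have h5 : (u : ZMod p) ^ 2 + u + 1 = 0 := by
    rcases mul_eq_zero.1 h4 with h | h
    · exact absurd (sub_eq_zero.1 h) h2
    · exact h
  refine ⟨u, h5, ?_⟩
  intro h
  apply h2
  have : (u : ZMod p) * 1 = u * u := by rw [mul_one, ← pow_two]; exact h
  exact (mul_left_cancel₀ u.ne_zero this).symm

private theorem bc_three : ((Finset.univ : Finset (ZMod 3 × ZMod 3)).filter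
      (fun z => z.1 ^ 2 + z.1 * z.2 + z.2 ^ 2 = 0)).card = 3 := by decide

/-- the number of zeros of `z² + zv + v²` modulo `p` -/
private theorem bc_zeros {p : ℕ} (hp : p.Prime) :
    haveI : Fact p.Prime := ⟨hp⟩
    ((((Finset.univ : Finset (ZMod p × ZMod p)).filter
      (fun z => z.1 ^ 2 + z.1 * z.2 + z.2 ^ 2 = 0)).card : ℕ) : ℝ) = (p : ℝ) ^ 2 * dw p := by
  have hF : Fact p.Prime := ⟨hp⟩
  have hp0 : (p : ℝ) ≠ 0 := by exact_mod_cast hp.ne_zero
  have hm : p % 3 = 0 ∨ p % 3 = 1 ∨ p % 3 = 2 := by omega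
  rcases hm with h | h | h
  · have h4 : 3 ∣ p := Nat.dvd_of_mod_eq_zero h
    have h5 := (Nat.prime_dvd_prime_iff_eq Nat.prime_three hp).1 h4
    subst h5
    have h6 : ((Finset.univ : Finset (ZMod 3 × ZMod 3)).filter
      (fun z => z.1 ^ 2 + z.1 * z.2 + z.2 ^ 2 = 0)).card = 3 := by convert bc_three
    have h7 : dw 3 = 1 / 3 := by unfold dw; norm_num
    rw [h6, h7]
    norm_num
  · obtain ⟨g, hg, hg2⟩ := bc_omega hp h
    have e : (Finset.univ : Finset (ZMod p × ZMod p)).filter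
        (fun z => z.1 ^ 2 + z.1 * z.2 + z.2 ^ 2 = 0) =
        (Finset.univ : Finset (ZMod p)).image (fun v => (g * v, v)) ∪
        (Finset.univ : Finset (ZMod p)).image (fun v => (g ^ 2 * v, v)) := by
      ext ⟨z, v⟩
      rw [mem_filter, mem_union, mem_image, mem_image]
      have h5 : z ^ 2 + z * v + v ^ 2 = (z - g * v) * (z - g ^ 2 * v) := by
        linear_combination (z * v + v ^ 2 * (1 - g)) * hg
      constructor
      · rintro ⟨-, h6⟩
        have h6' : z ^ 2 + z * v + v ^ 2 = 0 := h6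
        rw [h5, mul_eq_zero] at h6'
        rcases h6' with h7 | h7
        · exact Or.inl ⟨v, mem_univ _, by rw [sub_eq_zero.1 h7]⟩
        · exact Or.inr ⟨v, mem_univ _, by rw [sub_eq_zero.1 h7]⟩
      · rintro (⟨v', -, h6⟩ | ⟨v', -, h6⟩)
        · rw [Prod.mk.injEq] at h6
          refine ⟨mem_univ _, ?_⟩
          show z ^ 2 + z * v + v ^ 2 = 0
          rw [h5, ← h6.1, ← h6.2]; ring
        · rw [Prod.mk.injEq] at h6
          refine ⟨mem_univ _, ?_⟩
          show z ^ 2 + z * v + v ^ 2 = 0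
          rw [h5, ← h6.1, ← h6.2]; ring
    have hi : (Finset.univ : Finset (ZMod p)).image (fun v => (g * v, v)) ∩
        (Finset.univ : Finset (ZMod p)).image (fun v => (g ^ 2 * v, v)) =
        {((0 : ZMod p), (0 : ZMod p))} := by
      ext ⟨z, v⟩
      rw [mem_inter, mem_image, mem_image, mem_singleton]
      constructor
      · rintro ⟨⟨a, -, ha⟩, ⟨b, -, hb⟩⟩
        rw [Prod.mk.injEq] at ha hb
        have h6 : (g - g ^ 2) * v = 0 := by
          rw [sub_mul]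
          nth_rewrite 1 [← ha.2]
          rw [← hb.2, ha.1, hb.1, sub_self]
        rcases mul_eq_zero.1 h6 with h7 | h7
        · exact absurd (sub_eq_zero.1 h7) hg2
        · rw [Prod.mk.injEq]
          refine ⟨?_, h7⟩
          rw [← ha.1, ha.2, h7, mul_zero]
      · intro h6
        rw [Prod.mk.injEq] at h6
        refine ⟨⟨0, mem_univ _, ?_⟩, ⟨0, mem_univ _, ?_⟩⟩
        · rw [mul_zero, h6.1, h6.2]
        · rw [mul_zero, h6.1, h6.2]
    have hc1 : ((Finset.univ : Finset (ZMod p)).image (fun v => (g * v, v))).card = p := by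
      rw [card_image_of_injective, card_univ, ZMod.card]
      intro a b hab
      exact (Prod.mk.injEq _ _ _ _ ▸ hab).2
    have hc2 : ((Finset.univ : Finset (ZMod p)).image (fun v => (g ^ 2 * v, v))).card = p := by
      rw [card_image_of_injective, card_univ, ZMod.card]
      intro a b hab
      exact (Prod.mk.injEq _ _ _ _ ▸ hab).2
    have hu := Finset.card_union_add_card_inter
      ((Finset.univ : Finset (ZMod p)).image (fun v => (g * v, v)))
      ((Finset.univ : Finset (ZMod p)).image (fun v => (g ^ 2 * v, v)))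
    rw [hi, hc1, hc2, card_singleton, ← e] at hu
    have hu' : ((((Finset.univ : Finset (ZMod p × ZMod p)).filter
        (fun z => z.1 ^ 2 + z.1 * z.2 + z.2 ^ 2 = 0)).card : ℕ) : ℝ) + 1 = (p : ℝ) + p := by
      exact_mod_cast hu
    have h7 : dw p = (2 * (p : ℝ) - 1) / (p : ℝ) ^ 2 := by unfold dw; rw [if_pos h]
    rw [h7, mul_div_cancel₀ _ (pow_ne_zero 2 hp0)]
    linarith
  · have e : (Finset.univ : Finset (ZMod p × ZMod p)).filter
        (fun z => z.1 ^ 2 + z.1 * z.2 + z.2 ^ 2 = 0) = {((0 : ZMod p), (0 : ZMod p))} := by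
      ext ⟨z, v⟩
      rw [mem_filter, mem_singleton]
      constructor
      · rintro ⟨-, h6⟩
        have h6' : z ^ 2 + z * v + v ^ 2 = 0 := h6
        have h7 : (p : ℤ) ∣ Nm ((z.val : ℤ) - (v.val : ℤ), (v.val : ℤ)) := by
          rw [bc_dvd, bc_Nm]
          push_cast
          rw [ZMod.natCast_zmod_val, ZMod.natCast_zmod_val]
          linear_combination h6'
        obtain ⟨h8, h9⟩ := inert hp h h7
        rw [bc_dvd] at h8 h9
        push_cast at h8 h9
        rw [ZMod.natCast_zmod_val] at h9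
        rw [ZMod.natCast_zmod_val, ZMod.natCast_zmod_val, h9, sub_zero] at h8
        rw [h8, h9]
      · intro h6
        rw [Prod.mk.injEq] at h6
        refine ⟨mem_univ _, ?_⟩
        show z ^ 2 + z * v + v ^ 2 = 0
        rw [h6.1, h6.2]; ring
    have h7 : dw p = 1 / (p : ℝ) ^ 2 := by
      unfold dw
      rw [if_neg (by omega), if_neg (by omega)]
    rw [e, card_singleton, h7]
    field_simp
    norm_num

/-- the number of classes modulo `p` -/
private theorem bc_rho {p : ℕ} (hp : p.Prime) {e f : ℤ × ℤ} (hb : Basis2 e f) :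
    (cs (range p ×ˢ range p)
      (fun x => (p : ℤ) ∣ Nm (lin e f ((x.1 : ℤ) + 1, (x.2 : ℤ) + 1))) : ℝ) =
      (p : ℝ) ^ 2 * dw p := by
  have hF : Fact p.Prime := ⟨hp⟩
  rw [← bc_zeros hp]
  congr 1
  set e1 : ZMod p := ((e.1 : ℤ) : ZMod p) with he1
  set e2 : ZMod p := ((e.2 : ℤ) : ZMod p) with he2
  set f1 : ZMod p := ((f.1 : ℤ) : ZMod p) with hf1
  set f2 : ZMod p := ((f.2 : ℤ) : ZMod p) with hf2
  have hD : (e1 * f2 - e2 * f1) * (e1 * f2 - e2 * f1) = 1 := by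
    have h1 : (e.1 * f.2 - e.2 * f.1) * (e.1 * f.2 - e.2 * f.1) = 1 := by
      have h2 : e.1 * f.2 - e.2 * f.1 = -(dt e f) := by unfold dt; ring
      rcases hb with h | h <;> rw [h2, h] <;> norm_num
    have h2 : (((e.1 * f.2 - e.2 * f.1) * (e.1 * f.2 - e.2 * f.1) : ℤ) : ZMod p) = 1 := by
      rw [h1]; simp
    push_cast at h2
    exact h2
  refine Finset.card_bij (fun x _ =>
    ((e1 + e2) * ((x.1 : ZMod p) + 1) + (f1 + f2) * ((x.2 : ZMod p) + 1),
      e2 * ((x.1 : ZMod p) + 1) + f2 * ((x.2 : ZMod p) + 1))) ?_ ?_ ?_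
  · rintro ⟨m, n⟩ hx
    rw [mem_sel] at hx
    rw [mem_filter]
    refine ⟨mem_univ _, ?_⟩
    have h1 := hx.2
    rw [bc_dvd, bc_Nm] at h1
    unfold lin at h1
    push_cast at h1
    rw [← he1, ← he2, ← hf1, ← hf2] at h1
    show ((e1 + e2) * ((m : ZMod p) + 1) + (f1 + f2) * ((n : ZMod p) + 1)) ^ 2 +
      ((e1 + e2) * ((m : ZMod p) + 1) + (f1 + f2) * ((n : ZMod p) + 1)) *
      (e2 * ((m : ZMod p) + 1) + f2 * ((n : ZMod p) + 1)) +
      (e2 * ((m : ZMod p) + 1) + f2 * ((n : ZMod p) + 1)) ^ 2 = 0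
    linear_combination h1
  · rintro ⟨m, n⟩ hx ⟨m', n'⟩ hx' h
    rw [mem_sel, mem_product, mem_range, mem_range] at hx hx'
    rw [Prod.mk.injEq] at h
    obtain ⟨h1, h2⟩ := h
    simp only at h1 h2
    have h3 : (m : ZMod p) = (m' : ZMod p) := by
      have : (e1 * f2 - e2 * f1) * ((m : ZMod p) - (m' : ZMod p)) = 0 := by
        linear_combination f2 * h1 - (f1 + f2) * h2
      have h4 := congrArg (fun t => (e1 * f2 - e2 * f1) * t) this
      simp only [mul_zero] at h4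
      rw [← mul_assoc, hD, one_mul] at h4
      exact sub_eq_zero.1 h4
    have h3' : (n : ZMod p) = (n' : ZMod p) := by
      have : (e1 * f2 - e2 * f1) * ((n : ZMod p) - (n' : ZMod p)) = 0 := by
        linear_combination (e1 + e2) * h2 - e2 * h1
      have h4 := congrArg (fun t => (e1 * f2 - e2 * f1) * t) this
      simp only [mul_zero] at h4
      rw [← mul_assoc, hD, one_mul] at h4
      exact sub_eq_zero.1 h4
    have h5 := (ZMod.natCast_eq_natCast_iff' m m' p).1 h3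
    have h6 := (ZMod.natCast_eq_natCast_iff' n n' p).1 h3'
    have a1 : m < p := hx.1.1
    have a2 : n < p := hx.1.2
    have a3 : m' < p := hx'.1.1
    have a4 : n' < p := hx'.1.2
    rw [Nat.mod_eq_of_lt a1, Nat.mod_eq_of_lt a3] at h5
    rw [Nat.mod_eq_of_lt a2, Nat.mod_eq_of_lt a4] at h6
    rw [h5, h6]
  · rintro ⟨z, v⟩ hz
    rw [mem_filter] at hz
    have hz' : z ^ 2 + z * v + v ^ 2 = 0 := hz.2
    set D : ZMod p := e1 * f2 - e2 * f1 with hDd
    set α : ZMod p := D * ((z - v) * f2 - v * f1) with hα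
    set β : ZMod p := D * (e1 * v - e2 * (z - v)) with hβ
    have ha : (((α - 1).val : ℕ) : ZMod p) + 1 = α := by rw [ZMod.natCast_zmod_val]; ring
    have hb' : (((β - 1).val : ℕ) : ZMod p) + 1 = β := by rw [ZMod.natCast_zmod_val]; ring
    have q1 : (e1 + e2) * α + (f1 + f2) * β = z := by
      have : (e1 + e2) * α + (f1 + f2) * β = D * D * z := by
        rw [hα, hβ, hDd]; ring
      rw [this, hD, one_mul]
    have q2 : e2 * α + f2 * β = v := by
      have : e2 * α + f2 * β = D * D * v := by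
        rw [hα, hβ, hDd]; ring
      rw [this, hD, one_mul]
    have eq : ((e1 + e2) * ((((α - 1).val : ℕ) : ZMod p) + 1) +
        (f1 + f2) * ((((β - 1).val : ℕ) : ZMod p) + 1),
        e2 * ((((α - 1).val : ℕ) : ZMod p) + 1) + f2 * ((((β - 1).val : ℕ) : ZMod p) + 1)) =
        (z, v) := by
      rw [ha, hb', q1, q2]
    refine ⟨((α - 1).val, (β - 1).val), ?_, eq⟩
    rw [mem_sel, mem_product, mem_range, mem_range]
    refine ⟨⟨ZMod.val_lt _, ZMod.val_lt _⟩, ?_⟩
    rw [bc_dvd, bc_Nm]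
    unfold lin
    push_cast
    rw [← he1, ← he2, ← hf1, ← hf2, ha, hb']
    have : (α * e1 + β * f1 + (α * e2 + β * f2)) ^ 2 +
        (α * e1 + β * f1 + (α * e2 + β * f2)) * (α * e2 + β * f2) + (α * e2 + β * f2) ^ 2 =
        ((e1 + e2) * α + (f1 + f2) * β) ^ 2 +
        ((e1 + e2) * α + (f1 + f2) * β) * (e2 * α + f2 * β) + (e2 * α + f2 * β) ^ 2 := by ring
    rw [this, q1, q2, hz']

private theorem bc_crt2 {a b : ℕ} (ha : 0 < a) (hb : 0 < b) (hab : Nat.Coprime a b)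
    {P Q : ℕ × ℕ → Prop} (hP : ∀ m n, P (m % a, n % a) ↔ P (m, n))
    (hQ : ∀ m n, Q (m % b, n % b) ↔ Q (m, n)) :
    cs (range (a * b) ×ˢ range (a * b)) (fun x => P x ∧ Q x) =
      cs (range a ×ˢ range a) P * cs (range b ×ˢ range b) Q := by
  classical
  have inj : ∀ m m' : ℕ, m < a * b → m' < a * b → m % a = m' % a → m % b = m' % b → m = m' := by
    intro m m' h1 h2 h3 h4
    have h5 : m ≡ m' [MOD a * b] := (Nat.modEq_and_modEq_iff_modEq_mul hab).1 ⟨h3, h4⟩
    have h6 : m % (a * b) = m' % (a * b) := h5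
    rwa [Nat.mod_eq_of_lt h1, Nat.mod_eq_of_lt h2] at h6
  have sur : ∀ x y : ℕ, x < a → y < b → ∃ k, k < a * b ∧ k % a = x ∧ k % b = y := by
    intro x y hx' hy'
    obtain ⟨k, hk1, hk2⟩ := Nat.chineseRemainder hab x y
    have hk1' : k % a = x := by
      have : k % a = x % a := hk1
      rwa [Nat.mod_eq_of_lt hx'] at this
    have hk2' : k % b = y := by
      have : k % b = y % b := hk2
      rwa [Nat.mod_eq_of_lt hy'] at this
    refine ⟨k % (a * b), Nat.mod_lt _ (Nat.mul_pos ha hb), ?_, ?_⟩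
    · rw [Nat.mod_mod_of_dvd _ (dvd_mul_right a b)]; exact hk1'
    · rw [Nat.mod_mod_of_dvd _ (dvd_mul_left b a)]; exact hk2'
  unfold cs
  rw [← Finset.card_product]
  refine Finset.card_bij (fun x _ => ((x.1 % a, x.2 % a), (x.1 % b, x.2 % b))) ?_ ?_ ?_
  · rintro ⟨m, n⟩ hm
    rw [mem_sel] at hm
    rw [mem_product, mem_sel, mem_sel, mem_product, mem_product, mem_range, mem_range, mem_range,
      mem_range]
    exact ⟨⟨⟨Nat.mod_lt _ ha, Nat.mod_lt _ ha⟩, (hP m n).2 hm.2.1⟩,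
      ⟨⟨Nat.mod_lt _ hb, Nat.mod_lt _ hb⟩, (hQ m n).2 hm.2.2⟩⟩
  · rintro ⟨m, n⟩ hm ⟨m', n'⟩ hm' h
    rw [mem_sel, mem_product, mem_range, mem_range] at hm hm'
    simp only [Prod.mk.injEq] at h
    obtain ⟨⟨h1, h2⟩, ⟨h3, h4⟩⟩ := h
    rw [inj m m' hm.1.1 hm'.1.1 h1 h3, inj n n' hm.1.2 hm'.1.2 h2 h4]
  · rintro ⟨⟨x, x'⟩, ⟨y, y'⟩⟩ hxy
    rw [mem_product, mem_sel, mem_sel, mem_product, mem_product, mem_range, mem_range, mem_range,
      mem_range] at hxy
    obtain ⟨⟨⟨hx, hx'⟩, hPx⟩, ⟨⟨hy, hy'⟩, hQy⟩⟩ := hxy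
    obtain ⟨k, hk0, hk1, hk2⟩ := sur x y hx hy
    obtain ⟨l, hl0, hl1, hl2⟩ := sur x' y' hx' hy'
    refine ⟨(k, l), ?_, ?_⟩
    · rw [mem_sel, mem_product, mem_range, mem_range]
      refine ⟨⟨hk0, hl0⟩, ?_, ?_⟩
      · rw [← hP, hk1, hl1]; exact hPx
      · rw [← hQ, hk2, hl2]; exact hQy
    · simp only [hk1, hk2, hl1, hl2]

private theorem bc_mod_of_dvd {a b : ℕ} (hab : a ∣ b) {P : ℕ × ℕ → Prop}
    (hP : ∀ m n, P (m % a, n % a) ↔ P (m, n)) (m n : ℕ) : P (m % b, n % b) ↔ P (m, n) := by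
  rw [← hP (m % b) (n % b), ← hP m n, Nat.mod_mod_of_dvd _ hab, Nat.mod_mod_of_dvd _ hab]

private theorem bc_all (U : Finset ℕ) (K : ℕ → ℕ × ℕ → Prop)
    (hK : ∀ p ∈ U, ∀ m n, K p (m % p, n % p) ↔ K p (m, n)) (m n : ℕ) :
    (∀ p ∈ U, K p (m % (∏ p ∈ U, p), n % (∏ p ∈ U, p))) ↔ (∀ p ∈ U, K p (m, n)) := by
  constructor
  · intro h p hp
    exact (bc_mod_of_dvd (Finset.dvd_prod_of_mem (fun p => p) hp) (hK p hp) m n).1 (h p hp)
  · intro h p hp
    exact (bc_mod_of_dvd (Finset.dvd_prod_of_mem (fun p => p) hp) (hK p hp) m n).2 (h p hp)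

private theorem bc_crt (U : Finset ℕ) (hU : ∀ p ∈ U, p.Prime) (K : ℕ → ℕ × ℕ → Prop)
    (hK : ∀ p ∈ U, ∀ m n, K p (m % p, n % p) ↔ K p (m, n)) :
    cs (range (∏ p ∈ U, p) ×ˢ range (∏ p ∈ U, p)) (fun m => ∀ p ∈ U, K p m) =
      ∏ p ∈ U, cs (range p ×ˢ range p) (K p) := by
  classical
  induction U using Finset.induction_on with
  | empty =>
    rw [prod_empty, prod_empty]
    have h : sel (range 1 ×ˢ range 1) (fun m => ∀ p ∈ (∅ : Finset ℕ), K p m) =
        range 1 ×ˢ range 1 := by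
      ext m
      rw [mem_sel]
      constructor
      · intro h; exact h.1
      · intro h; exact ⟨h, fun p hp => absurd hp (Finset.notMem_empty p)⟩
    unfold cs
    rw [h, card_product, card_range, Nat.mul_one]
  | @insert q U hq ih =>
    have hU' : ∀ p ∈ U, p.Prime := fun p hp => hU p (mem_insert_of_mem hp)
    have hK' : ∀ p ∈ U, ∀ m n, K p (m % p, n % p) ↔ K p (m, n) :=
      fun p hp => hK p (mem_insert_of_mem hp)
    have hqp : q.Prime := hU q (mem_insert_self q U)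
    rw [prod_insert hq, prod_insert hq, ← ih hU' hK']
    have hcop : Nat.Coprime q (∏ p ∈ U, p) := by
      refine Nat.Coprime.prod_right fun p hp => ?_
      refine (Nat.coprime_primes hqp (hU' p hp)).2 ?_
      rintro rfl
      exact hq hp
    have hpos : 0 < ∏ p ∈ U, p := Finset.prod_pos fun p hp => (hU' p hp).pos
    rw [← bc_crt2 hqp.pos hpos hcop (hK q (mem_insert_self q U)) (bc_all U K hK')]
    refine cs_congr fun m _ => ?_
    rw [Finset.forall_mem_insert]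

private theorem bc_cs_true (N : ℕ) : cs (range N) (fun _ => True) = N := by
  have h : sel (range N) (fun _ => True) = range N := by
    ext m
    rw [mem_sel]
    exact ⟨fun h => h.1, fun h => ⟨h, trivial⟩⟩
  unfold cs
  rw [h, card_range]

private theorem bc_class (N d r : ℕ) (hd : 0 < d) (hr : r < d) :
    ((range N).filter (fun m => m % d = r)).card = (N + d - 1 - r) / d := by
  have h := cs_class N d r hd hr (fun _ => True)
  rw [bc_cs_true] at h
  rw [← h]
  unfold cs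
  congr 1
  ext m
  rw [mem_filter, mem_sel]
  tauto

open Classical in
private theorem bc_count (N d : ℕ) (hd : 0 < d) (R : ℕ × ℕ → Prop)
    (hR : ∀ m n, R (m % d, n % d) ↔ R (m, n)) :
    cs (range N ×ˢ range N) R = ∑ x ∈ range d ×ˢ range d,
      if R x then ((N + d - 1 - x.1) / d) * ((N + d - 1 - x.2) / d) else 0 := by
  have h := Finset.card_eq_sum_card_fiberwise (s := sel (range N ×ˢ range N) R)
    (t := range d ×ˢ range d) (f := fun x => (x.1 % d, x.2 % d)) (fun x _ => by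
      simp only [coe_product, coe_range, Set.mem_prod, Set.mem_Iio]
      exact ⟨Nat.mod_lt _ hd, Nat.mod_lt _ hd⟩)
  unfold cs
  rw [h]
  refine sum_congr rfl ?_
  rintro ⟨r, s⟩ hrs
  rw [mem_product, mem_range, mem_range] at hrs
  have hr : r < d := hrs.1
  have hs : s < d := hrs.2
  by_cases hx : R (r, s)
  · rw [if_pos hx]
    show _ = ((N + d - 1 - r) / d) * ((N + d - 1 - s) / d)
    rw [← bc_class N d r hd hr, ← bc_class N d s hd hs, ← card_product]
    congr 1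
    ext ⟨m, n⟩
    rw [mem_filter, mem_sel, mem_product, mem_product, mem_filter, mem_filter]
    simp only [Prod.mk.injEq]
    constructor
    · rintro ⟨⟨⟨h1, h2⟩, h3⟩, h4, h5⟩
      exact ⟨⟨h1, h4⟩, h2, h5⟩
    · rintro ⟨⟨h1, h4⟩, h2, h5⟩
      refine ⟨⟨⟨h1, h2⟩, ?_⟩, h4, h5⟩
      rw [← hR, h4, h5]; exact hx
  · rw [if_neg hx, Finset.card_eq_zero, Finset.eq_empty_iff_forall_notMem]
    rintro ⟨m, n⟩ hm
    rw [mem_filter, mem_sel] at hm
    obtain ⟨⟨-, h3⟩, h4⟩ := hm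
    simp only [Prod.mk.injEq] at h4
    apply hx
    rw [← h4.1, ← h4.2, hR]; exact h3

theorem box_count {e f : ℤ × ℤ} (hb : Basis2 e f) (I : Finset ℕ) (hI : ∀ p ∈ I, p.Prime) (L : ℕ)
    (hL : ∏ p ∈ I, p ≤ L) :
    |(cs (Icc (1 : ℤ) L ×ˢ Icc (1 : ℤ) L) (fun x => ∀ p ∈ I, (p : ℤ) ∣ Nm (lin e f x)) : ℝ) -
      (L : ℝ) ^ 2 * ∏ p ∈ I, dw p| ≤ 3 * L * ((∏ p ∈ I, p : ℕ) : ℝ) := by
  classical
  set K : ℕ → ℕ × ℕ → Prop :=
    fun p x => (p : ℤ) ∣ Nm (lin e f ((x.1 : ℤ) + 1, (x.2 : ℤ) + 1)) with hKd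
  have hK : ∀ p ∈ I, ∀ m n, K p (m % p, n % p) ↔ K p (m, n) := by
    intro p _ m n
    simp only [hKd]
    rw [bc_dvd, bc_dvd]
    have : ((Nm (lin e f (((m % p : ℕ) : ℤ) + 1, ((n % p : ℕ) : ℤ) + 1)) : ℤ) : ZMod p) =
        ((Nm (lin e f ((m : ℤ) + 1, (n : ℤ) + 1)) : ℤ) : ZMod p) := by
      unfold Nm lin F
      push_cast
      simp
    rw [this]
  set d : ℕ := ∏ p ∈ I, p with hd
  have hd0 : 0 < d := Finset.prod_pos fun p hp => (hI p hp).pos
  have hdR : (0 : ℝ) < (d : ℝ) := by exact_mod_cast hd0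
  -- change of variables
  have h1 : cs (Icc (1 : ℤ) L ×ˢ Icc (1 : ℤ) L) (fun x => ∀ p ∈ I, (p : ℤ) ∣ Nm (lin e f x)) =
      cs (range L ×ˢ range L) (fun x => ∀ p ∈ I, K p x) := by
    symm
    refine Finset.card_bij (fun x _ => (((x.1 : ℤ) + 1, (x.2 : ℤ) + 1) : ℤ × ℤ)) ?_ ?_ ?_
    · rintro ⟨m, n⟩ hx
      rw [mem_sel, mem_product, mem_range, mem_range] at hx
      rw [mem_sel, mem_product, mem_Icc, mem_Icc]
      have a1 : m < L := hx.1.1
      have a2 : n < L := hx.1.2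
      refine ⟨⟨⟨?_, ?_⟩, ⟨?_, ?_⟩⟩, hx.2⟩
      · show (1 : ℤ) ≤ (m : ℤ) + 1
        omega
      · show (m : ℤ) + 1 ≤ (L : ℤ)
        omega
      · show (1 : ℤ) ≤ (n : ℤ) + 1
        omega
      · show (n : ℤ) + 1 ≤ (L : ℤ)
        omega
    · rintro ⟨m, n⟩ _ ⟨m', n'⟩ _ h
      simp only [Prod.mk.injEq] at h
      obtain ⟨h1, h2⟩ := h
      have e1 : m = m' := by omega
      have e2 : n = n' := by omega
      rw [e1, e2]
    · rintro ⟨x, y⟩ hx
      rw [mem_sel, mem_product, mem_Icc, mem_Icc] at hx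
      obtain ⟨⟨⟨a1, a2⟩, ⟨a3, a4⟩⟩, a5⟩ := hx
      simp only at a1 a2 a3 a4
      have e1 : (((x - 1).toNat : ℕ) : ℤ) + 1 = x := by omega
      have e2 : (((y - 1).toNat : ℕ) : ℤ) + 1 = y := by omega
      have eq : ((((x - 1).toNat : ℕ) : ℤ) + 1, (((y - 1).toNat : ℕ) : ℤ) + 1) = (x, y) := by
        rw [e1, e2]
      refine ⟨((x - 1).toNat, (y - 1).toNat), ?_, eq⟩
      rw [mem_sel, mem_product, mem_range, mem_range]
      refine ⟨⟨?_, ?_⟩, ?_⟩
      · show (x - 1).toNat < L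
        omega
      · show (y - 1).toNat < L
        omega
      · intro p hp
        simp only [hKd]
        rw [e1, e2]
        exact a5 p hp
  rw [h1, bc_count L d hd0 _ (fun m n => bc_all I K hK m n)]
  -- the main term
  have h2 : (L : ℝ) ^ 2 * ∏ p ∈ I, dw p = ∑ x ∈ range d ×ˢ range d,
      if (∀ p ∈ I, K p x) then ((L : ℝ) / d) * ((L : ℝ) / d) else 0 := by
    have h3 : (∏ p ∈ I, dw p) * (d : ℝ) ^ 2 =
        (cs (range d ×ˢ range d) (fun x => ∀ p ∈ I, K p x) : ℝ) := by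
      rw [hd, bc_crt I hI K hK, Nat.cast_prod, Nat.cast_prod, ← Finset.prod_pow,
        ← Finset.prod_mul_distrib]
      refine prod_congr rfl fun p hp => ?_
      rw [bc_rho (hI p hp) hb]
      ring
    have h4 : (∑ x ∈ range d ×ˢ range d,
        if (∀ p ∈ I, K p x) then ((L : ℝ) / d) * ((L : ℝ) / d) else 0) =
        (cs (range d ×ˢ range d) (fun x => ∀ p ∈ I, K p x) : ℝ) * (((L : ℝ) / d) * ((L : ℝ) / d)) := by
      rw [cs_eq_sum, Nat.cast_sum, sum_mul]
      refine sum_congr rfl fun x _ => ?_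
      split_ifs
      · rw [Nat.cast_one, one_mul]
      · rw [Nat.cast_zero, zero_mul]
    rw [h4, ← h3]
    field_simp
  rw [h2, Nat.cast_sum, ← sum_sub_distrib]
  have hLd : (1 : ℝ) ≤ (L : ℝ) / d := by
    rw [le_div_iff₀ hdR, one_mul]
    exact_mod_cast hL
  refine (Finset.abs_sum_le_sum_abs _ _).trans
    ((sum_le_sum (g := fun _ => 3 * ((L : ℝ) / d)) fun x hx => ?_).trans ?_)
  · obtain ⟨r, s⟩ := x
    rw [mem_product, mem_range, mem_range] at hx
    have hr : r < d := hx.1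
    have hs : s < d := hx.2
    by_cases h : ∀ p ∈ I, K p (r, s)
    · rw [if_pos h, if_pos h, Nat.cast_mul]
      have a1 := class_near L d r hd0 hr
      have a2 := class_near L d s hd0 hs
      set u : ℝ := (((L + d - 1 - r) / d : ℕ) : ℝ) with hu
      set v : ℝ := (((L + d - 1 - s) / d : ℕ) : ℝ) with hv
      set w : ℝ := (L : ℝ) / d with hw
      show |u * v - w * w| ≤ 3 * w
      have e : u * v - w * w = (u - w) * (v - w) + w * (u - w) + w * (v - w) := by ring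
      rw [e]
      calc |(u - w) * (v - w) + w * (u - w) + w * (v - w)|
          ≤ |(u - w) * (v - w)| + |w * (u - w)| + |w * (v - w)| := abs_add_three _ _ _
        _ = |u - w| * |v - w| + |w| * |u - w| + |w| * |v - w| := by
            rw [abs_mul, abs_mul, abs_mul]
        _ ≤ 1 * 1 + |w| * 1 + |w| * 1 := by
            gcongr
        _ = 1 + 2 * w := by rw [abs_of_nonneg (by linarith)]; ring
        _ ≤ 3 * w := by linarith
    · rw [if_neg h, if_neg h, Nat.cast_zero, sub_zero, abs_zero]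
      show (0 : ℝ) ≤ 3 * ((L : ℝ) / d)
      linarith
  rw [sum_const, card_product, card_range, nsmul_eq_mul, Nat.cast_mul]
  apply le_of_eq
  field_simp

end Pool.Agent.H17.RP
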