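import Pool.Agent.H17.RP.Alg

/-!
# Cert2: certificates with an exceptional set

As `Cert.lean`, but the hypothesis on `lam (fk R)` is assumed only for `R` outside a finite set `E`; the
certificate must not be exceptional (`Exc`): `R`, `-1 - R`, `R₂`, `-1 - R₂` are not in `E`.
-/

set_option autoImplicit false

namespace Pool.Agent.H17.RP

open Finset

/-- `x` or `-1 - x` is in `E` -/
def Exc (E : Finset ℤ) (x : ℤ) : Prop := x ∈ E ∨ -1 - x ∈ E

private theorem cert_hyp2 {Y : ℕ} {K1 K2 ε : ℤ} {E : Finset ℤ}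
    (hyp : ∀ R : ℤ, K1 ≤ R → R ≤ K2 → R ∉ E → Rough Y (fk R) → lam (fk R) = ε)
    {R : ℤ} (h1 : K1 + 1 ≤ |R|) (h2 : |R| ≤ K2) (hE : ¬ Exc E R) (hR : Rough Y (fk R)) :
    lam (fk R) = ε := by
  rcases le_total 0 R with h | h
  · rw [abs_of_nonneg h] at h1 h2
    exact hyp R (by omega) h2 (fun h3 => hE (Or.inl h3)) hR
  · rw [abs_of_nonpos h] at h1 h2
    rw [← fk_neg R] at hR ⊢
    exact hyp (-1 - R) (by omega) (by omega) (fun h3 => hE (Or.inr h3)) hR

private theorem cert_prime2 {d m : ℤ} (h : ∀ p : ℕ, p.Prime → (p : ℤ) ∣ d → ¬ (p : ℤ) ∣ m) :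
    IsCoprime d m := by
  rw [Int.isCoprime_iff_gcd_eq_one]
  by_contra hne
  obtain ⟨p, hp, hpd⟩ := Nat.exists_prime_and_dvd hne
  have h1 : (p : ℤ) ∣ (Int.gcd d m : ℤ) := Int.natCast_dvd_natCast.mpr hpd
  exact h p hp (h1.trans (Int.gcd_dvd_left ..)) (h1.trans (Int.gcd_dvd_right ..))

private theorem cert_R2 {Y : ℕ} (hY : 3 ≤ Y) {N N' a b d R : ℤ} (hN' : Rough Y N')
    (hF : F a b = N * N') (h1 : |b| ≤ Y) (h0 : b ≠ 0) (hdiv : d ∣ N')
    (hR0 : 3 * b * R = a - d) : ∃ R2 : ℤ, a * R + b + 3 * b * R = d * R2 := by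
  have hb1 : 1 ≤ |b| := Int.one_le_abs h0
  have ha : a = d + 3 * b * R := by omega
  have hcop : IsCoprime d (3 * b ^ 2) := by
    refine cert_prime2 (fun p hp hpd hpm => ?_)
    have hYp : Y < p := hN' p hp (hpd.trans hdiv)
    have hpp : Prime (p : ℤ) := Nat.prime_iff_prime_int.mp hp
    rcases hpp.dvd_or_dvd hpm with h3 | h3
    · have := Int.le_of_dvd (by norm_num) h3
      omega
    · have h4 := hpp.dvd_of_dvd_pow h3
      have h5 : (p : ℤ) ≤ |b| := Int.le_of_dvd (by omega) ((dvd_abs _ _).mpr h4)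
      have h6 : ((Y : ℕ) : ℤ) < (p : ℤ) := by exact_mod_cast hYp
      omega
  have hdF : d ∣ F a b := hF ▸ (hdiv.mul_left N)
  have hdR : d ∣ fk R := by
    have h2 : d ∣ 3 * b ^ 2 * fk R := by
      have h3 : 3 * b ^ 2 * fk R = F a b - d * (d + 6 * b * R + 3 * b) := by
        rw [ha]; unfold F fk; ring
      rw [h3]
      exact dvd_sub hdF (dvd_mul_right _ _)
    exact hcop.dvd_of_dvd_mul_left h2
  have hdy : d ∣ a * R + b + 3 * b * R := by
    have h3 : a * R + b + 3 * b * R = d * R + b * fk R := by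
      rw [ha]; unfold fk; ring
    rw [h3]
    exact dvd_add (dvd_mul_right _ _) (hdR.mul_left b)
  exact hdy

private theorem cert_core2 {Y : ℕ} (hY : 3 ≤ Y) {K1 K2 ε : ℤ} (hK1 : 1 ≤ K1)
    {E : Finset ℤ} (hyp : ∀ R : ℤ, K1 ≤ R → R ≤ K2 → R ∉ E → Rough Y (fk R) → lam (fk R) = ε)
    {N N' a b d R : ℤ} (hN : Rough Y N) (hN' : Rough Y N') (hN0 : N ≠ 0) (hN0' : N' ≠ 0)
    (hF : F a b = N * N') (h0 : b ≠ 0) (h1 : |b| ≤ Y) (hd : 0 < d) (hdiv : d ∣ N')
    (hR0 : 3 * b * R = a - d) (hR : Rough Y (fk R)) (hE : ¬ Exc E R)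
    (hE2 : ∀ R2 : ℤ, a * R + b + 3 * b * R = d * R2 → ¬ Exc E R2)
    (hs : 3 * |b| * (K1 + 1) + 2 * d ≤ |a|) (hs2 : 8 * a ^ 4 ≤ K2) : lam N = lam N' := by
  have hb1 : 1 ≤ |b| := Int.one_le_abs h0
  have ha : a = d + 3 * b * R := by omega
  -- coprimality
  have hcop : IsCoprime d (3 * b ^ 2) := by
    refine cert_prime2 (fun p hp hpd hpm => ?_)
    have hYp : Y < p := hN' p hp (hpd.trans hdiv)
    have hpp : Prime (p : ℤ) := Nat.prime_iff_prime_int.mp hp
    rcases hpp.dvd_or_dvd hpm with h3 | h3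
    · have := Int.le_of_dvd (by norm_num) h3
      omega
    · have h4 := hpp.dvd_of_dvd_pow h3
      have h5 : (p : ℤ) ≤ |b| := Int.le_of_dvd (by omega) ((dvd_abs _ _).mpr h4)
      have h6 : ((Y : ℕ) : ℤ) < (p : ℤ) := by exact_mod_cast hYp
      omega
  have hdF : d ∣ F a b := hF ▸ (hdiv.mul_left N)
  have hdR : d ∣ fk R := by
    have h2 : d ∣ 3 * b ^ 2 * fk R := by
      have h3 : 3 * b ^ 2 * fk R = F a b - d * (d + 6 * b * R + 3 * b) := by
        rw [ha]; unfold F fk; ring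
      rw [h3]
      exact dvd_sub hdF (dvd_mul_right _ _)
    exact hcop.dvd_of_dvd_mul_left h2
  have hdy : d ∣ a * R + b + 3 * b * R := by
    have h3 : a * R + b + 3 * b * R = d * R + b * fk R := by
      rw [ha]; unfold fk; ring
    rw [h3]
    exact dvd_add (dvd_mul_right _ _) (hdR.mul_left b)
  obtain ⟨R2, hR2⟩ := hdy
  have hnorm : N * N' * fk R = d * d * fk R2 := by
    have h3 : F a b * fk R = F (a - 3 * b * R) (a * R + b + 3 * b * R) := by
      unfold F fk; ring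
    have h4 : a - 3 * b * R = d := by omega
    rw [← hF, h3, h4, hR2]
    unfold F fk; ring
  have hRr : Rough Y (fk R2) := by
    intro p hp hpd
    have hpp : Prime (p : ℤ) := Nat.prime_iff_prime_int.mp hp
    have h3 : (p : ℤ) ∣ N * N' * fk R := by
      rw [hnorm]; exact hpd.mul_left _
    rcases hpp.dvd_or_dvd h3 with h4 | h4
    · rcases hpp.dvd_or_dvd h4 with h5 | h5
      · exact hN p hp h5
      · exact hN' p hp h5
    · exact hR p hp h4
  -- sizes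
  have hA : |a| ^ 2 = a ^ 2 := sq_abs a
  have hapos : 1 ≤ |a| := by nlinarith
  have h3bR : 3 * |b| * |R| = |a - d| := by
    rw [← hR0, abs_mul, abs_mul]; norm_num
  have hlow : |a| - d ≤ 3 * |b| * |R| := by
    rw [h3bR]
    have := abs_sub_abs_le_abs_sub a d
    rw [abs_of_pos hd] at this
    exact this
  have hup : 3 * |b| * |R| ≤ |a| + d := by
    rw [h3bR]
    have := abs_sub a d
    rw [abs_of_pos hd] at this
    exact this
  have hR1 : K1 + 1 ≤ |R| := by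
    by_contra hcon
    push Not at hcon
    have : 3 * |b| * |R| ≤ 3 * |b| * (K1 + 1) := by nlinarith
    omega
  have hRle : |R| ≤ |a| := by
    have h4 : |R| ≤ |b| * |R| := by nlinarith
    have h5 : 0 ≤ 3 * |b| * (K1 + 1) := by positivity
    nlinarith
  have hble : |b| ≤ |a| := by nlinarith
  have hylow : d * (2 * |R|) ≤ |a * R + b + 3 * b * R| := by
    have h4 : |R| * |a + 3 * b| - |b| ≤ |a * R + b + 3 * b * R| := by
      have h5 : a * R + b + 3 * b * R = R * (a + 3 * b) - (-b) := by ring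
      rw [h5]
      have := abs_sub_abs_le_abs_sub (R * (a + 3 * b)) (-b)
      rw [abs_mul, abs_neg] at this
      exact this
    have h6 : |a| - 3 * |b| ≤ |a + 3 * b| := by
      have h5 : a + 3 * b = a - (-(3 * b)) := by ring
      rw [h5]
      have := abs_sub_abs_le_abs_sub a (-(3 * b))
      rw [abs_neg, abs_mul] at this
      norm_num at this ⊢
      linarith
    have h7 : 3 * |b| * K1 + 2 * d ≤ |a + 3 * b| := by nlinarith
    have h8 : |R| * (3 * |b| * K1 + 2 * d) ≤ |R| * |a + 3 * b| :=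
      mul_le_mul_of_nonneg_left h7 (abs_nonneg R)
    have h9 : |b| ≤ |R| * (3 * |b| * K1) := by
      have h10 : 1 ≤ |R| := by omega
      have h11 : 1 ≤ |R| * K1 := by nlinarith
      nlinarith
    nlinarith
  have hR2low : K1 + 1 ≤ |R2| := by
    rw [hR2, abs_mul, abs_of_pos hd] at hylow
    have h4 : 2 * |R| ≤ |R2| := le_of_mul_le_mul_left hylow hd
    omega
  have hR2up : |R2| ≤ 8 * a ^ 4 := by
    have h4 : |R2| ≤ |a * R + b + 3 * b * R| := by
      rw [hR2, abs_mul, abs_of_pos hd]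
      nlinarith [abs_nonneg R2]
    have h5 : |a * R + b + 3 * b * R| ≤ |a| * |R| + |b| + 3 * |b| * |R| := by
      have h6 := abs_add_le (a * R + b) (3 * b * R)
      have h7 := abs_add_le (a * R) b
      have h8 : |a * R| = |a| * |R| := abs_mul _ _
      have h9 : |3 * b * R| = 3 * |b| * |R| := by
        rw [abs_mul, abs_mul]; norm_num
      omega
    have h6 : |a| * |R| ≤ |a| * |a| := mul_le_mul_of_nonneg_left hRle (abs_nonneg a)
    have h7 : |b| * |R| ≤ |a| * |a| := mul_le_mul hble hRle (abs_nonneg R) (abs_nonneg a)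
    have h8 : |a| ≤ |a| * |a| := by nlinarith
    have h9 : |a| * |a| = a ^ 2 := by rw [← hA]; ring
    have h10 : 1 ≤ a ^ 2 := by nlinarith
    have h11 : a ^ 2 ≤ a ^ 4 := by nlinarith
    nlinarith
  have hRup : |R| ≤ 8 * a ^ 4 := by
    have h8 : |a| ≤ |a| * |a| := by nlinarith
    have h9 : |a| * |a| = a ^ 2 := by rw [← hA]; ring
    have h10 : 1 ≤ a ^ 2 := by nlinarith
    have h11 : a ^ 2 ≤ a ^ 4 := by nlinarith
    nlinarith
  have e1 : lam (fk R) = ε := cert_hyp2 hyp hR1 (hRup.trans hs2) hE hR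
  have e2 : lam (fk R2) = ε := cert_hyp2 hyp hR2low (hR2up.trans hs2) (hE2 R2 hR2) hRr
  have e3 : lam (N * N' * fk R) = lam (d * d * fk R2) := by rw [hnorm]
  rw [lam_mul (mul_ne_zero hN0 hN0') (fk_pos R).ne', lam_mul hN0 hN0',
    lam_mul (mul_ne_zero hd.ne' hd.ne') (fk_pos R2).ne', lam_mul hd.ne' hd.ne', lam_sq, e1, e2] at e3
  have e4 := lam_cases (fk R)
  rw [e1] at e4
  rcases e4 with h4 | h4 <;> rw [h4] at e3 <;> rcases lam_cases N with h | h <;>
    rcases lam_cases N' with h' | h' <;> rw [h, h'] at e3 <;> rw [h, h'] <;> norm_num at e3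

theorem cert_eq2 {Y : ℕ} (hY : 3 ≤ Y) {K1 K2 ε : ℤ} (hK1 : 1 ≤ K1)
    {E : Finset ℤ} (hyp : ∀ R : ℤ, K1 ≤ R → R ≤ K2 → R ∉ E → Rough Y (fk R) → lam (fk R) = ε)
    {w w' : ℤ × ℤ} (hw : Rough Y (Nm w)) (hw' : Rough Y (Nm w'))
    (h0 : dt w w' ≠ 0) (h1 : |dt w w'| ≤ Y)
    {d σ : ℤ} (hσ : σ = 1 ∨ σ = -1) (hd : 0 < d) (hdiv : d ∣ Nm w')
    (h3 : 3 * (σ * dt w w') ∣ σ * cc w w' - d)
    (hR : Rough Y (fk ((σ * cc w w' - d) / (3 * (σ * dt w w')))))
    (hE : ∀ R R2 : ℤ, 3 * (σ * dt w w') * R = σ * cc w w' - d →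
      σ * cc w w' * R + σ * dt w w' + 3 * (σ * dt w w') * R = d * R2 → ¬ Exc E R ∧ ¬ Exc E R2)
    (hs : 3 * |dt w w'| * (K1 + 1) + 2 * d ≤ |cc w w'|)
    (hs2 : 8 * cc w w' ^ 4 ≤ K2) : lam (Nm w) = lam (Nm w') := by
  have hw0 : w.1 ≠ 0 ∨ w.2 ≠ 0 := by
    by_contra hcon
    push Not at hcon
    exact h0 (by unfold dt; rw [hcon.1, hcon.2]; ring)
  have hw0' : w'.1 ≠ 0 ∨ w'.2 ≠ 0 := by
    by_contra hcon
    push Not at hcon
    exact h0 (by unfold dt; rw [hcon.1, hcon.2]; ring)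
  have hN0 : Nm w ≠ 0 := (F_pos hw0).ne'
  have hN0' : Nm w' ≠ 0 := (F_pos hw0').ne'
  have hσ1 : |σ| = 1 := by rcases hσ with h | h <;> rw [h] <;> norm_num
  have hσ4 : σ ^ 4 = 1 := by rcases hσ with h | h <;> rw [h] <;> norm_num
  have hσ0 : σ ≠ 0 := by rcases hσ with h | h <;> rw [h] <;> norm_num
  have hF : F (σ * cc w w') (σ * dt w w') = Nm w * Nm w' := by
    rw [← F_cc_dt]
    rcases hσ with h | h
    · rw [h, one_mul, one_mul]
    · rw [h, neg_one_mul, neg_one_mul, F_neg]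
  have hb : |σ * dt w w'| = |dt w w'| := by rw [abs_mul, hσ1, one_mul]
  have ha : |σ * cc w w'| = |cc w w'| := by rw [abs_mul, hσ1, one_mul]
  have hex : ∃ R2 : ℤ, σ * cc w w' * ((σ * cc w w' - d) / (3 * (σ * dt w w'))) + σ * dt w w' +
      3 * (σ * dt w w') * ((σ * cc w w' - d) / (3 * (σ * dt w w'))) = d * R2 :=
    cert_R2 hY hw' hF (by rw [hb]; exact h1) (mul_ne_zero hσ0 h0) hdiv (Int.mul_ediv_cancel' h3)
  obtain ⟨R2, hR2⟩ := hex
  refine cert_core2 hY hK1 hyp hw hw' hN0 hN0' hF (mul_ne_zero hσ0 h0) (by rw [hb]; exact h1) hd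
    hdiv (Int.mul_ediv_cancel' h3) hR (hE _ R2 (Int.mul_ediv_cancel' h3) hR2).1
    (fun R2' h => (hE _ R2' (Int.mul_ediv_cancel' h3) h).2) (by rw [hb, ha]; exact hs) ?_
  rw [mul_pow, hσ4, one_mul]
  exact hs2

end Pool.Agent.H17.RP
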