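import Pool.Agent.H17.RP.Basic
import Pool.Agent.H63.SW.Main

/-!
# CharSum: characters of small modulus over the medium primes

`M ≤ t^e1` a multiple of `3`, `χ` modulo `M` not trivial on the classes `= 1 mod 3`.  For `g ≥ g0(e1)`,
`t ≥ t0`: `Σ_(p ∈ med g t) Re χ(p)/p ≤ 1`.

Proof.  `χ3` = the character modulo `3` (`χ3(2) = -1`), lifted to `M`; for `p ≠ 3`
`1[p = 1 mod 3] = (1 + χ3(p))/2`, so the sum is the real part of
`(1/2) Σ_(y1 < p ≤ y2) (χ(p) + χ χ3(p))/p`, `y1 = 2^(t^(2g))`, `y2 = 2^(t^(4g-1))`.  Neither `χ` nor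
`χ χ3` is the principal character (both would be trivial on the classes `= 1 mod 3`).  For a
nonprincipal `ψ` modulo `M ≤ t^e1 ≤ (log x)^(1/2)` (`x ≥ y1`, `g ≥ e1 + 1`; `log y1 = t^(2g) log 2`)
`theta_char` (`Pool.Agent.SW.theta_char`, file `H63/SW/Main.lean`, `d0 = 1/2`, `A = 2`) gives
`|Σ_(p ≤ x) ψ(p) log p| ≤ C x/(log x)²`.  Discrete partial summation with the weight
`1/(n log n)` gives `|Σ_(y1 < p ≤ y2) ψ(p)/p| ≤ 2 C (2 + log y2) / (log y1)² ≤ 1`.
-/

set_option autoImplicit false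

namespace Pool.Agent.H17.RP

open Finset

/-- Discrete partial summation. -/
theorem abel_bd (a : ℕ → ℂ) (f : ℕ → ℝ) (m N : ℕ) (B : ℝ) (hmN : m ≤ N)
    (hf : ∀ n, m ≤ n → f (n + 1) ≤ f n) (hf0 : ∀ n, m ≤ n → 0 ≤ f n)
    (hT : ∀ n, m ≤ n → n ≤ N → ‖∑ k ∈ Ioc m n, a k‖ ≤ B * n) :
    ‖∑ n ∈ Ioc m N, a n * (f n : ℂ)‖ ≤ B * (m * f m + ∑ n ∈ Ioc m N, f n) := by
  have key : ∀ n, m ≤ n → n ≤ N →
      ‖∑ k ∈ Ioc m n, a k * (f k : ℂ) - (∑ k ∈ Ioc m n, a k) * (f n : ℂ)‖ + B * n * f n ≤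
        B * (m * f m + ∑ k ∈ Ioc m n, f k) := by
    intro n hn
    induction n, hn using Nat.le_induction with
    | base =>
      intro _
      simp only [Ioc_self, sum_empty, zero_mul, sub_zero, norm_zero, zero_add, add_zero]
      exact le_of_eq (by ring)
    | succ n hn ih =>
      intro hnN
      have ih' := ih (by omega)
      rw [sum_Ioc_succ_top hn, sum_Ioc_succ_top hn, sum_Ioc_succ_top hn]
      have e : ∑ k ∈ Ioc m n, a k * (f k : ℂ) + a (n + 1) * (f (n + 1) : ℂ) -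
          (∑ k ∈ Ioc m n, a k + a (n + 1)) * (f (n + 1) : ℂ) =
          (∑ k ∈ Ioc m n, a k * (f k : ℂ) - (∑ k ∈ Ioc m n, a k) * (f n : ℂ)) +
          (∑ k ∈ Ioc m n, a k) * ((f n - f (n + 1) : ℝ) : ℂ) := by
        push_cast
        ring
      rw [e]
      have h1 : ‖(∑ k ∈ Ioc m n, a k) * ((f n - f (n + 1) : ℝ) : ℂ)‖ ≤
          B * n * (f n - f (n + 1)) := by
        rw [norm_mul, Complex.norm_real, Real.norm_eq_abs,
          abs_of_nonneg (sub_nonneg.2 (hf n hn))]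
        exact mul_le_mul_of_nonneg_right (hT n hn (by omega)) (sub_nonneg.2 (hf n hn))
      have h2 := norm_add_le
        (∑ k ∈ Ioc m n, a k * (f k : ℂ) - (∑ k ∈ Ioc m n, a k) * (f n : ℂ))
        ((∑ k ∈ Ioc m n, a k) * ((f n - f (n + 1) : ℝ) : ℂ))
      push_cast at *
      nlinarith
  have h := key N hmN le_rfl
  have h3 : ‖(∑ k ∈ Ioc m N, a k) * (f N : ℂ)‖ ≤ B * N * f N := by
    rw [norm_mul, Complex.norm_real, Real.norm_eq_abs, abs_of_nonneg (hf0 N hmN)]
    exact mul_le_mul_of_nonneg_right (hT N hmN le_rfl) (hf0 N hmN)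
  have h4 := norm_add_le
    (∑ k ∈ Ioc m N, a k * (f k : ℂ) - (∑ k ∈ Ioc m N, a k) * (f N : ℂ))
    ((∑ k ∈ Ioc m N, a k) * (f N : ℂ))
  rw [sub_add_cancel] at h4
  linarith

theorem one_le_log {m : ℕ} (h3 : 3 ≤ m) : 1 ≤ Real.log m := by
  rw [Real.le_log_iff_exp_le (by positivity)]
  have h := Real.exp_one_lt_d9
  have h' : (3 : ℝ) ≤ m := by exact_mod_cast h3
  linarith

/-- Characters over the reciprocals of the primes between `m` and `N`. -/
theorem char_recip (C : ℝ) (hC0 : 0 ≤ C) (M : ℕ) (ψ : DirichletCharacter ℂ M) (m N : ℕ)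
    (h3 : 3 ≤ m) (hmN : m ≤ N)
    (hS : ∀ n : ℕ, m ≤ n → ‖∑ p ∈ Ioc 0 n with p.Prime, ψ p * ((Real.log p : ℝ) : ℂ)‖ ≤
      C * n / Real.log n ^ 2) :
    ‖∑ p ∈ Ioc m N with p.Prime, ψ p / (p : ℂ)‖ ≤
      2 * C / Real.log m ^ 2 * (2 + Real.log N) := by
  have hlm : 1 ≤ Real.log m := one_le_log h3
  have hlog : ∀ n : ℕ, m ≤ n → Real.log m ≤ Real.log n := fun n hn =>
    Real.log_le_log (by have : 0 < m := by omega
                        exact_mod_cast this) (by exact_mod_cast hn)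
  have hlpos : ∀ n : ℕ, m ≤ n → 0 < Real.log n := fun n hn => by linarith [hlog n hn]
  have hnpos : ∀ n : ℕ, m ≤ n → (0 : ℝ) < n := fun n hn => by
    have : 0 < n := by omega
    exact_mod_cast this
  set f : ℕ → ℝ := fun n => 1 / ((n : ℝ) * Real.log n) with hfdef
  set a : ℕ → ℂ := fun n => if n.Prime then ψ n * ((Real.log n : ℝ) : ℂ) else 0 with hadef
  have hf : ∀ n, m ≤ n → f (n + 1) ≤ f n := by
    intro n hn
    simp only [hfdef]
    have h1 := hnpos n hn
    have h2 := hlpos n hn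
    have h4 : Real.log n ≤ Real.log ((n + 1 : ℕ) : ℝ) :=
      Real.log_le_log h1 (by push_cast; linarith)
    apply one_div_le_one_div_of_le (mul_pos h1 h2)
    apply mul_le_mul (by push_cast; linarith) h4 h2.le (by positivity)
  have hf0 : ∀ n, m ≤ n → 0 ≤ f n := fun n hn => by
    simp only [hfdef]
    have h1 := hnpos n hn
    have h2 := hlpos n hn
    positivity
  have hT : ∀ n, m ≤ n → n ≤ N → ‖∑ k ∈ Ioc m n, a k‖ ≤ (2 * C / Real.log m ^ 2) * n := by
    intro n hn _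
    have e : ∀ k : ℕ, ∑ p ∈ Ioc 0 k with p.Prime, ψ p * ((Real.log p : ℝ) : ℂ) =
        ∑ p ∈ Ioc 0 k, a p := fun k => by rw [sum_filter]
    have e2 : ∑ k ∈ Ioc m n, a k = ∑ k ∈ Ioc 0 n, a k - ∑ k ∈ Ioc 0 m, a k := by
      rw [← sum_Ioc_consecutive a (Nat.zero_le m) hn]
      ring
    rw [e2]
    have b1 := hS n hn
    have b2 := hS m le_rfl
    rw [e] at b1 b2
    have b3 := norm_sub_le (∑ k ∈ Ioc 0 n, a k) (∑ k ∈ Ioc 0 m, a k)
    have hn0 := hnpos n hn
    have hm0 := hnpos m le_rfl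
    have c1 : C * n / Real.log n ^ 2 ≤ C * n / Real.log m ^ 2 := by
      apply div_le_div_of_nonneg_left (by positivity) (by positivity)
      exact pow_le_pow_left₀ (by linarith) (hlog n hn) 2
    have c2 : C * m / Real.log m ^ 2 ≤ C * n / Real.log m ^ 2 := by
      apply div_le_div_of_nonneg_right _ (by positivity)
      exact mul_le_mul_of_nonneg_left (by exact_mod_cast hn) hC0
    have c3 : (2 * C / Real.log m ^ 2) * n = C * n / Real.log m ^ 2 + C * n / Real.log m ^ 2 := by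
      ring
    rw [c3]
    linarith
  have main := abel_bd a f m N (2 * C / Real.log m ^ 2) hmN hf hf0 hT
  have e3 : ∑ p ∈ Ioc m N with p.Prime, ψ p / (p : ℂ) = ∑ n ∈ Ioc m N, a n * (f n : ℂ) := by
    rw [sum_filter]
    refine sum_congr rfl fun n hn => ?_
    rw [mem_Ioc] at hn
    simp only [hadef, hfdef]
    by_cases hp : n.Prime
    · rw [if_pos hp, if_pos hp]
      have h1 : (n : ℂ) ≠ 0 := by exact_mod_cast (hnpos n (by omega)).ne'
      have h2 : ((Real.log n : ℝ) : ℂ) ≠ 0 := by exact_mod_cast (hlpos n (by omega)).ne'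
      rw [Complex.ofReal_div, Complex.ofReal_mul, Complex.ofReal_one, Complex.ofReal_natCast]
      field_simp
    · rw [if_neg hp, if_neg hp, zero_mul]
  rw [e3]
  refine main.trans (mul_le_mul_of_nonneg_left ?_ (by positivity))
  have d1 : (m : ℝ) * f m ≤ 1 := by
    simp only [hfdef]
    have h1 := hnpos m le_rfl
    rw [mul_one_div, div_le_one (by positivity)]
    nlinarith
  have d2 : ∑ n ∈ Ioc m N, f n ≤ 1 + Real.log N := by
    have h := harmonic_le_one_add_log N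
    rw [harmonic_eq_sum_Icc] at h
    push_cast at h
    refine le_trans ?_ h
    calc ∑ n ∈ Ioc m N, f n ≤ ∑ n ∈ Ioc m N, ((n : ℝ))⁻¹ := by
          refine sum_le_sum fun n hn => ?_
          rw [mem_Ioc] at hn
          simp only [hfdef]
          have h1 := hnpos n (by omega)
          have h2 := hlog n (by omega)
          rw [one_div, mul_inv]
          have : (Real.log n)⁻¹ ≤ 1 := inv_le_one_of_one_le₀ (by linarith)
          exact mul_le_of_le_one_right (by positivity) this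
      _ ≤ ∑ n ∈ Icc 1 N, ((n : ℝ))⁻¹ := by
          refine sum_le_sum_of_subset_of_nonneg (fun n hn => ?_) fun n _ _ => by positivity
          rw [mem_Ioc] at hn
          rw [mem_Icc]
          omega
  linarith

/-- The nonprincipal character modulo `3`. -/
noncomputable def ch3 : DirichletCharacter ℂ 3 :=
  (quadraticChar (ZMod 3)).ringHomComp (Int.castRingHom ℂ)

theorem ch3_one {p : ℕ} (h : p % 3 = 1) : ch3 (p : ZMod 3) = 1 := by
  have e : (p : ZMod 3) = 1 := by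
    have := (ZMod.natCast_eq_natCast_iff' p 1 3).2 (by omega)
    simpa using this
  rw [e, map_one]

theorem ch3_two {p : ℕ} (h : p % 3 = 2) : ch3 (p : ZMod 3) = -1 := by
  have e : (p : ZMod 3) = 2 := by
    have := (ZMod.natCast_eq_natCast_iff' p 2 3).2 (by omega)
    simpa using this
  rw [e]
  have h2 : quadraticChar (ZMod 3) 2 = -1 := by decide
  have h3 : ch3 2 = ((quadraticChar (ZMod 3) 2 : ℤ) : ℂ) := rfl
  rw [h3, h2]
  norm_num

theorem charSum (e1 : ℕ) : ∃ g0 : ℕ, ∀ g ≥ g0, ∃ t0 : ℕ, ∀ t ≥ t0, ∀ M : ℕ, 0 < M →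
    M ≤ t ^ e1 → 3 ∣ M → ∀ χ : DirichletCharacter ℂ M,
    (∃ u : ℕ, u.Coprime M ∧ u % 3 = 1 ∧ χ (u : ZMod M) ≠ 1) →
    ∑ p ∈ med g t, (χ (p : ZMod M)).re / (p : ℝ) ≤ 1 := by
  obtain ⟨C0, hC0⟩ := Pool.Agent.SW.theta_char (1 / 2) (by norm_num) 2
  set C : ℝ := max C0 0 with hCdef
  have hCnn : 0 ≤ C := le_max_right _ _
  refine ⟨e1 + 1, fun g hg => ⟨max 2 (⌈13 * C⌉₊), fun t ht M hM hMt h3M χ hχ => ?_⟩⟩
  have ht2 : 2 ≤ t := (le_max_left _ _).trans ht
  have htC : 13 * C ≤ t := (Nat.le_ceil _).trans (by exact_mod_cast (le_max_right _ _).trans ht)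
  have htR : (2 : ℝ) ≤ t := by exact_mod_cast ht2
  set m : ℕ := 2 ^ (t ^ (2 * g)) with hm
  set N : ℕ := 2 ^ (t ^ (4 * g - 1)) with hN
  have hg1 : 1 ≤ g := by omega
  have hmN : m ≤ N := by
    rw [hm, hN]
    exact Nat.pow_le_pow_right (by norm_num) (Nat.pow_le_pow_right (by omega) (by omega))
  have h4 : 4 ≤ t ^ (2 * g) := by
    calc 4 = 2 ^ 2 := by norm_num
      _ ≤ t ^ 2 := Nat.pow_le_pow_left ht2 2
      _ ≤ t ^ (2 * g) := Nat.pow_le_pow_right (by omega) (by omega)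
  have hm3 : 3 ≤ m := by
    calc 3 ≤ 2 ^ 4 := by norm_num
      _ ≤ m := Nat.pow_le_pow_right (by norm_num) h4
  have hMm : M < m := by
    calc M ≤ t ^ e1 := hMt
      _ ≤ t ^ (2 * g) := Nat.pow_le_pow_right (by omega) (by omega)
      _ < m := Nat.lt_two_pow_self
  have hl2 : 0.6931471803 < Real.log 2 := Real.log_two_gt_d9
  have hl2' : Real.log 2 < 0.6931471808 := Real.log_two_lt_d9
  have hlm : Real.log m = (t : ℝ) ^ (2 * g) * Real.log 2 := by
    rw [hm]
    push_cast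
    rw [← Real.rpow_natCast, Real.log_rpow (by norm_num)]
    push_cast
    ring
  have hlN : Real.log N = (t : ℝ) ^ (4 * g - 1) * Real.log 2 := by
    rw [hN]
    push_cast
    rw [← Real.rpow_natCast, Real.log_rpow (by norm_num)]
    push_cast
    ring
  -- the bound of the modulus
  have hMlog : ∀ n : ℕ, m ≤ n → (M : ℝ) ≤ Real.log n ^ ((1 : ℝ) - 1 / 2) := by
    intro n hn
    have h1 : Real.log m ≤ Real.log n := Real.log_le_log
      (by have : 0 < m := by omega
          exact_mod_cast this) (by exact_mod_cast hn)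
    have h2 : (M : ℝ) ^ 2 ≤ Real.log n := by
      refine le_trans ?_ h1
      rw [hlm]
      have h5 : (M : ℝ) ≤ (t : ℝ) ^ e1 := by exact_mod_cast hMt
      have h6 : (M : ℝ) ^ 2 ≤ (t : ℝ) ^ (2 * e1) := by
        rw [mul_comm 2 e1, pow_mul]
        exact pow_le_pow_left₀ (by positivity) h5 2
      have h7 : (t : ℝ) ^ (2 * e1) * 4 ≤ (t : ℝ) ^ (2 * g) := by
        calc (t : ℝ) ^ (2 * e1) * 4 ≤ (t : ℝ) ^ (2 * e1) * (t : ℝ) ^ 2 := by
              apply mul_le_mul_of_nonneg_left _ (by positivity)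
              nlinarith
          _ = (t : ℝ) ^ (2 * e1 + 2) := by rw [pow_add]
          _ ≤ (t : ℝ) ^ (2 * g) := pow_le_pow_right₀ (by linarith) (by omega)
      have h8 : (0 : ℝ) ≤ (t : ℝ) ^ (2 * e1) := by positivity
      nlinarith
    have h9 : (1 : ℝ) - 1 / 2 = 1 / 2 := by norm_num
    rw [h9, ← Real.sqrt_eq_rpow]
    exact Real.le_sqrt_of_sq_le h2
  -- the bound of one character
  have hψ : ∀ ψ : DirichletCharacter ℂ M, ψ ≠ 1 →
      ‖∑ p ∈ Ioc m N with p.Prime, ψ p / (p : ℂ)‖ ≤ 1 := by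
    intro ψ hψ1
    have hS : ∀ n : ℕ, m ≤ n → ‖∑ p ∈ Ioc 0 n with p.Prime, ψ p * ((Real.log p : ℝ) : ℂ)‖ ≤
        C * n / Real.log n ^ 2 := by
      intro n hn
      have h := hC0 n (by have : 2 ≤ n := by omega
                          exact_mod_cast this) M hM (hMlog n hn) ψ hψ1
      rw [Nat.floor_natCast] at h
      refine h.trans ?_
      apply div_le_div_of_nonneg_right _ (by positivity)
      exact mul_le_mul_of_nonneg_right (le_max_left _ _) (by positivity)
    refine (char_recip C hCnn M ψ m N hm3 hmN hS).trans ?_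
    rw [hlm, hlN]
    have e1' : ((t : ℝ) ^ (2 * g) * Real.log 2) ^ 2 =
        (t : ℝ) ^ (4 * g - 1) * t * Real.log 2 ^ 2 := by
      rw [mul_pow, ← pow_mul, ← pow_succ]
      congr 2
      omega
    rw [e1', div_mul_eq_mul_div, div_le_one (by positivity)]
    set X : ℝ := (t : ℝ) ^ (4 * g - 1) with hX
    have hX8 : 8 ≤ X := by
      calc (8 : ℝ) = 2 ^ 3 := by norm_num
        _ ≤ (t : ℝ) ^ 3 := pow_le_pow_left₀ (by norm_num) htR 3
        _ ≤ X := pow_le_pow_right₀ (by linarith) (by omega)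
    have q1 : 0.48 ≤ Real.log 2 ^ 2 := by nlinarith
    have q2 : 2 * C * (2 + X * Real.log 2) ≤ 2 * C * X := by
      apply mul_le_mul_of_nonneg_left _ (by positivity)
      nlinarith
    have q3 : 2 * C ≤ t * 0.48 := by linarith
    calc 2 * C * (2 + X * Real.log 2) ≤ 2 * C * X := q2
      _ ≤ (t * 0.48) * X := mul_le_mul_of_nonneg_right q3 (by positivity)
      _ = X * t * 0.48 := by ring
      _ ≤ X * t * Real.log 2 ^ 2 := mul_le_mul_of_nonneg_left q1 (by positivity)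
  -- the two characters
  obtain ⟨u, hu, hu3, hχu⟩ := hχ
  set χ' : DirichletCharacter ℂ M := DirichletCharacter.changeLevel h3M ch3 with hχ'
  have hlift : ∀ n : ℕ, n.Coprime M → χ' (n : ZMod M) = ch3 (n : ZMod 3) := by
    intro n hn
    have hun : IsUnit ((n : ZMod M)) := (ZMod.isUnit_iff_coprime n M).2 hn
    have h := DirichletCharacter.changeLevel_eq_cast_of_dvd ch3 h3M hun.unit
    rw [IsUnit.unit_spec] at h
    rw [hχ', h]
    congr 1
    rw [ZMod.cast_natCast h3M]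
  have huM : IsUnit (u : ZMod M) := (ZMod.isUnit_iff_coprime u M).2 hu
  have hχ1 : χ ≠ 1 := by
    intro h
    rw [h, MulChar.one_apply huM] at hχu
    exact hχu rfl
  have hχ2 : χ * χ' ≠ 1 := by
    intro h
    have h1 : (χ * χ') (u : ZMod M) = 1 := by rw [h, MulChar.one_apply huM]
    rw [MulChar.mul_apply, hlift u hu, ch3_one hu3, mul_one] at h1
    exact hχu h1
  have r1 := hψ χ hχ1
  have r2 := hψ (χ * χ') hχ2
  have hsum : ∑ p ∈ med g t, (χ (p : ZMod M)).re / (p : ℝ) =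
      1 / 2 * (∑ p ∈ Ioc m N with p.Prime, χ p / (p : ℂ)).re +
      1 / 2 * (∑ p ∈ Ioc m N with p.Prime, (χ * χ') p / (p : ℂ)).re := by
    classical
    have e1' : med g t = ((Ioc m N).filter Nat.Prime).filter (fun p => p % 3 = 1) := by
      ext p
      rw [med, mem_sel, mem_filter, mem_filter]
      tauto
    rw [e1', sum_filter, Complex.re_sum, Complex.re_sum, mul_sum, mul_sum, ← sum_add_distrib]
    refine sum_congr rfl fun p hp => ?_
    rw [mem_filter, mem_Ioc] at hp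
    obtain ⟨⟨hp1, hp2⟩, hp3⟩ := hp
    have hcop : p.Coprime M := by
      rw [Nat.Prime.coprime_iff_not_dvd hp3]
      intro hd
      have := Nat.le_of_dvd hM hd
      omega
    have hp3' : p % 3 ≠ 0 := by
      intro h
      have h5 : 3 ∣ p := Nat.dvd_of_mod_eq_zero h
      have h6 := (Nat.prime_dvd_prime_iff_eq Nat.prime_three hp3).1 h5
      omega
    have hre : ∀ z : ℂ, (z / (p : ℂ)).re = z.re / p := fun z => by
      rw [← Complex.ofReal_natCast, Complex.div_ofReal_re]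
    rw [hre, hre, MulChar.mul_apply, hlift p hcop]
    by_cases h1 : p % 3 = 1
    · rw [if_pos h1, ch3_one h1, mul_one]
      ring
    · rw [if_neg h1, ch3_two (by omega)]
      simp
      ring
  rw [hsum]
  have s1 := (Complex.re_le_norm (∑ p ∈ Ioc m N with p.Prime, χ p / (p : ℂ))).trans r1
  have s2 := (Complex.re_le_norm (∑ p ∈ Ioc m N with p.Prime, (χ * χ') p / (p : ℂ))).trans r2
  linarith

end Pool.Agent.H17.RP
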