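import Pool.Agent.H17.RP.Basic

/-!
# CntChar: subset products and characters

`M` a multiple of `3`, `c` prime to `M`, `c = 1 mod 3`, all `p ∈ D` prime to `M` and
`= 1 mod 3`: by orthogonality of the characters modulo `M`,
`φ(M) cnt D M c = Σ_χ conj χ(c) ∏_(p∈D) (1 + χ(p))`
(`Σ_(T ⊆ D) χ(prd T) = ∏ (1 + χ(p))`, `Finset.prod_one_add`).  The characters which are trivial on the
units `= 1 mod 3` are exactly two, `1` and the lift of `χ3` (`χ3(2) = -1`, modulo `3`): such a character is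
determined by its value on one unit `u = 2 mod 3`, which is `± 1` because `u² = 1 mod 3`.  Each of the
two contributes `2^|D|`.  So
`|cnt D M c - 2^|D| 2/φ(M)| ≤ (1/φ(M)) Σ_(χ nontrivial) ∏_(p∈D) |1 + χ(p)| ≤ η`.
-/

set_option autoImplicit false

namespace Pool.Agent.H17.RP

open Finset

/-- the value at `-1` of a character is `1` or `-1` -/
private theorem cntchar_neg_one {M : ℕ} (χ : DirichletCharacter ℂ M) :
    χ (-1) = 1 ∨ χ (-1) = -1 := by
  have h : χ (-1) * χ (-1) = 1 := by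
    rw [← map_mul, neg_mul_neg, one_mul, map_one]
  exact mul_self_eq_one_iff.1 h

/-- trivial on the units `= 1 mod 3` -/
private def cntTriv {M : ℕ} (χ : DirichletCharacter ℂ M) : Prop :=
  ∀ u : ℕ, u.Coprime M → u % 3 = 1 → χ (u : ZMod M) = 1

/-- a trivial character is determined by its value at `-1` -/
private theorem cntTriv_ext {M : ℕ} (hM : 0 < M) (h3 : 3 ∣ M) {χ ψ : DirichletCharacter ℂ M}
    (h1 : cntTriv χ) (h2 : cntTriv ψ) (h : χ (-1) = ψ (-1)) : χ = ψ := by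
  have : NeZero M := ⟨hM.ne'⟩
  apply MulChar.ext
  intro a
  have key : ∀ χ : DirichletCharacter ℂ M, cntTriv χ →
      (((a : ZMod M).val % 3 = 1 ∧ χ a = 1) ∨ ((a : ZMod M).val % 3 = 2 ∧ χ a = χ (-1))) := by
    intro χ hχ
    have hcop : ((a : ZMod M).val).Coprime M := ZMod.val_coe_unit_coprime a
    have hcast : (((a : ZMod M).val : ℕ) : ZMod M) = (a : ZMod M) := ZMod.natCast_zmod_val _
    have h0 : (a : ZMod M).val % 3 ≠ 0 := by
      intro h0
      have h3a : 3 ∣ (a : ZMod M).val := Nat.dvd_of_mod_eq_zero h0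
      have := Nat.dvd_gcd h3a h3
      rw [hcop] at this
      omega
    have h12 : (a : ZMod M).val % 3 = 1 ∨ (a : ZMod M).val % 3 = 2 := by omega
    rcases h12 with h12 | h12
    · left
      refine ⟨h12, ?_⟩
      have := hχ _ hcop h12
      rwa [hcast] at this
    · right
      refine ⟨h12, ?_⟩
      -- use `M - val`
      have hlt : (a : ZMod M).val < M := ZMod.val_lt _
      have hcop2 : (M - (a : ZMod M).val).Coprime M := by
        rw [Nat.coprime_comm]
        exact (Nat.coprime_self_sub_right hlt.le).2 (Nat.coprime_comm.1 hcop)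
      have hmod : (M - (a : ZMod M).val) % 3 = 1 := by
        obtain ⟨k, hk⟩ := h3
        omega
      have h4 := hχ _ hcop2 hmod
      have h5 : ((M - (a : ZMod M).val : ℕ) : ZMod M) = (-1) * (a : ZMod M) := by
        rw [Nat.cast_sub hlt.le, ZMod.natCast_self, hcast]
        ring
      rw [h5, map_mul] at h4
      have h6 : χ (-1) * χ (-1) = 1 := by
        rw [← map_mul, neg_mul_neg, one_mul, map_one]
      calc χ a = (χ (-1) * χ (-1)) * χ a := by rw [h6, one_mul]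
        _ = χ (-1) * (χ (-1) * χ a) := by ring
        _ = χ (-1) := by rw [h4, mul_one]
  rcases key χ h1 with ⟨ha, hb⟩ | ⟨ha, hb⟩ <;> rcases key ψ h2 with ⟨hc, hd⟩ | ⟨hc, hd⟩
  · rw [hb, hd]
  · omega
  · omega
  · rw [hb, hd, h]

/-- the nontrivial character modulo `3`, lifted -/
private theorem cntTriv_exists {M : ℕ} (h3 : 3 ∣ M) :
    ∃ ψ : DirichletCharacter ℂ M, cntTriv ψ ∧ ψ (-1) = -1 := by
  obtain ⟨χ, hχ⟩ := DirichletCharacter.exists_apply_ne_one_of_hasEnoughRootsOfUnity (n := 3) ℂ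
    (a := (-1 : ZMod 3)) (by decide)
  have hχ1 : χ (-1) = -1 := (cntchar_neg_one χ).resolve_left hχ
  refine ⟨DirichletCharacter.changeLevel h3 χ, ?_, ?_⟩
  · intro u hu hu3
    have h1 := DirichletCharacter.changeLevel_eq_cast_of_dvd χ h3 (ZMod.unitOfCoprime u hu)
    rw [ZMod.coe_unitOfCoprime] at h1
    rw [h1, ZMod.cast_natCast h3]
    have h2 : ((u : ℕ) : ZMod 3) = 1 := by
      have : ((u : ℕ) : ZMod 3) = ((u % 3 : ℕ) : ZMod 3) := (ZMod.natCast_mod u 3).symm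
      rw [this, hu3, Nat.cast_one]
    rw [h2, map_one]
  · have h1 := DirichletCharacter.changeLevel_eq_cast_of_dvd χ h3 (-1 : (ZMod M)ˣ)
    rw [Units.val_neg, Units.val_one] at h1
    rw [h1, ZMod.cast_neg h3, ZMod.cast_one h3, hχ1]

theorem cnt_char {M : ℕ} (hM : 0 < M) (h3 : 3 ∣ M) {D : Finset ℕ}
    (hD : ∀ p ∈ D, p.Coprime M ∧ p % 3 = 1) {c : ℤ} (hc : IsCoprime c (M : ℤ)) (hc3 : c % 3 = 1)
    {η : ℝ} (hη : ∀ χ : DirichletCharacter ℂ M,
      (∃ u : ℕ, u.Coprime M ∧ u % 3 = 1 ∧ χ (u : ZMod M) ≠ 1) →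
      ∏ p ∈ D, ‖1 + χ (p : ZMod M)‖ ≤ η) (hη0 : 0 ≤ η) :
    |(cnt D M c : ℝ) - 2 ^ D.card * (2 / (M.totient : ℝ))| ≤ η := by
  classical
  have : NeZero M := ⟨hM.ne'⟩
  have hφ : 0 < M.totient := Nat.totient_pos.2 hM
  have hφ' : (0 : ℝ) < M.totient := by exact_mod_cast hφ
  -- the unit `c`
  have hcu : IsUnit (c : ZMod M) := by
    rw [ZMod.coe_int_isUnit_iff_isCoprime]
    exact hc.symm
  -- a natural number representing `c`
  obtain ⟨u, hu, hu3, huc⟩ : ∃ u : ℕ, u.Coprime M ∧ u % 3 = 1 ∧ (u : ZMod M) = (c : ZMod M) := by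
    have hMz : (0 : ℤ) < M := by exact_mod_cast hM
    refine ⟨(c % (M : ℤ)).toNat, ?_, ?_, ?_⟩
    · have h1 : (((c % (M : ℤ)).toNat : ℕ) : ℤ) = c % (M : ℤ) :=
        Int.toNat_of_nonneg (Int.emod_nonneg _ hMz.ne')
      have h2 : IsCoprime (c % (M : ℤ)) (M : ℤ) := by
        rw [Int.emod_def]
        have := hc.add_mul_left_left (-(c / (M : ℤ)))
        rwa [mul_neg, ← sub_eq_add_neg] at this
      rw [← h1] at h2
      exact Nat.isCoprime_iff_coprime.1 h2
    · have h1 : (((c % (M : ℤ)).toNat : ℕ) : ℤ) = c % (M : ℤ) :=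
        Int.toNat_of_nonneg (Int.emod_nonneg _ hMz.ne')
      have h3z : (3 : ℤ) ∣ (M : ℤ) := by exact_mod_cast h3
      have h2 : (c % (M : ℤ)) % 3 = c % 3 := Int.emod_emod_of_dvd _ h3z
      omega
    · have h1 : (((c % (M : ℤ)).toNat : ℕ) : ℤ) = c % (M : ℤ) :=
        Int.toNat_of_nonneg (Int.emod_nonneg _ hMz.ne')
      have h2 : ((((c % (M : ℤ)).toNat : ℕ) : ℤ) : ZMod M) = ((c % (M : ℤ) : ℤ) : ZMod M) := by
        rw [h1]
      rw [Int.cast_natCast] at h2
      rw [h2]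
      exact ZMod.intCast_mod c M
  -- the sum over the characters
  have hsum : ((M.totient : ℂ)) * (cnt D M c : ℂ) =
      ∑ χ : DirichletCharacter ℂ M, χ (c : ZMod M)⁻¹ * ∏ p ∈ D, (1 + χ (p : ZMod M)) := by
    have h1 : (cnt D M c : ℂ) = ∑ T ∈ D.powerset, if ((M : ℤ) ∣ (prd T : ℤ) - c) then (1 : ℂ) else 0 := by
      unfold cnt
      rw [cs_eq_sum]
      push_cast
      rfl
    rw [h1, Finset.mul_sum]
    have h2 : ∀ T ∈ D.powerset, (M.totient : ℂ) * (if ((M : ℤ) ∣ (prd T : ℤ) - c) then (1 : ℂ) else 0) =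
        ∑ χ : DirichletCharacter ℂ M, χ (c : ZMod M)⁻¹ * ∏ p ∈ T, χ (p : ZMod M) := by
      intro T _
      have h3 := DirichletCharacter.sum_char_inv_mul_char_eq ℂ hcu ((prd T : ℕ) : ZMod M)
      have h4 : ∀ χ : DirichletCharacter ℂ M, χ ((prd T : ℕ) : ZMod M) = ∏ p ∈ T, χ (p : ZMod M) := by
        intro χ
        unfold prd
        rw [Nat.cast_prod, map_prod]
      simp only [h4] at h3
      rw [h3]
      have h5 : ((M : ℤ) ∣ (prd T : ℤ) - c) ↔ (c : ZMod M) = ((prd T : ℕ) : ZMod M) := by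
        have h6 := ZMod.intCast_eq_intCast_iff_dvd_sub c (prd T : ℤ) M
        rw [Int.cast_natCast] at h6
        exact h6.symm
      by_cases h6 : (M : ℤ) ∣ (prd T : ℤ) - c
      · rw [if_pos h6, if_pos (h5.1 h6), mul_one]
      · rw [if_neg h6, if_neg (fun h => h6 (h5.2 h)), mul_zero]
    rw [Finset.sum_congr rfl h2, Finset.sum_comm]
    refine Finset.sum_congr rfl fun χ _ => ?_
    rw [← Finset.mul_sum, Finset.prod_one_add]
  -- the two trivial characters
  obtain ⟨ψ, hψ, hψ1⟩ := cntTriv_exists h3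
  have hone : cntTriv (1 : DirichletCharacter ℂ M) := by
    intro v hv _
    have := MulChar.one_apply_coe (R' := ℂ) (ZMod.unitOfCoprime v hv)
    rwa [ZMod.coe_unitOfCoprime] at this
  have hone1 : (1 : DirichletCharacter ℂ M) (-1) = 1 := by
    have := MulChar.one_apply_coe (R' := ℂ) (-1 : (ZMod M)ˣ)
    rwa [Units.val_neg, Units.val_one] at this
  have hne : (1 : DirichletCharacter ℂ M) ≠ ψ := by
    intro h
    rw [← h, hone1] at hψ1
    norm_num at hψ1
  have hcontr : ∀ χ : DirichletCharacter ℂ M, cntTriv χ →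
      χ (c : ZMod M)⁻¹ * ∏ p ∈ D, (1 + χ (p : ZMod M)) = 2 ^ D.card := by
    intro χ hχ
    have h1 : χ (c : ZMod M) = 1 := by rw [← huc]; exact hχ u hu hu3
    have h2 : χ (c : ZMod M)⁻¹ = 1 := by
      have : χ ((c : ZMod M)⁻¹ * (c : ZMod M)) = 1 := by
        rw [ZMod.inv_mul_of_unit _ hcu, map_one]
      rwa [map_mul, h1, mul_one] at this
    rw [h2, one_mul]
    have h3 : ∀ p ∈ D, (1 : ℂ) + χ (p : ZMod M) = 2 := by
      intro p hp
      rw [hχ p (hD p hp).1 (hD p hp).2]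
      norm_num
    rw [Finset.prod_congr rfl h3, Finset.prod_const]
  -- separate
  have hsplit : (∑ χ : DirichletCharacter ℂ M, χ (c : ZMod M)⁻¹ * ∏ p ∈ D, (1 + χ (p : ZMod M))) =
      2 * 2 ^ D.card + ∑ χ ∈ (univ \ {1, ψ} : Finset (DirichletCharacter ℂ M)),
        χ (c : ZMod M)⁻¹ * ∏ p ∈ D, (1 + χ (p : ZMod M)) := by
    rw [← Finset.sum_sdiff (Finset.subset_univ ({1, ψ} : Finset (DirichletCharacter ℂ M))), add_comm]
    congr 1
    rw [Finset.sum_pair hne, hcontr 1 hone, hcontr ψ hψ]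
    ring
  have hbound : ‖∑ χ ∈ (univ \ {1, ψ} : Finset (DirichletCharacter ℂ M)),
        χ (c : ZMod M)⁻¹ * ∏ p ∈ D, (1 + χ (p : ZMod M))‖ ≤ M.totient * η := by
    have h1 : ∀ χ ∈ (univ \ {1, ψ} : Finset (DirichletCharacter ℂ M)),
        ‖χ (c : ZMod M)⁻¹ * ∏ p ∈ D, (1 + χ (p : ZMod M))‖ ≤ η := by
      intro χ hχ
      rw [Finset.mem_sdiff, Finset.mem_insert, Finset.mem_singleton, not_or] at hχ
      have hnt : ¬ cntTriv χ := by
        intro ht
        rcases cntchar_neg_one χ with h | h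
        · exact hχ.2.1 (cntTriv_ext hM h3 ht hone (by rw [h, hone1]))
        · exact hχ.2.2 (cntTriv_ext hM h3 ht hψ (by rw [h, hψ1]))
      unfold cntTriv at hnt
      push Not at hnt
      obtain ⟨v, hv, hv3, hvχ⟩ := hnt
      have h2 := hη χ ⟨v, hv, hv3, hvχ⟩
      rw [norm_mul, norm_prod]
      have h3 : ‖χ (c : ZMod M)⁻¹‖ ≤ 1 := DirichletCharacter.norm_le_one χ _
      have h4 : 0 ≤ ∏ p ∈ D, ‖1 + χ (p : ZMod M)‖ := Finset.prod_nonneg fun _ _ => norm_nonneg _
      calc ‖χ (c : ZMod M)⁻¹‖ * ∏ p ∈ D, ‖1 + χ (p : ZMod M)‖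
          ≤ 1 * ∏ p ∈ D, ‖1 + χ (p : ZMod M)‖ := mul_le_mul_of_nonneg_right h3 h4
        _ ≤ η := by rw [one_mul]; exact h2
    refine (norm_sum_le _ _).trans ?_
    refine (Finset.sum_le_card_nsmul _ _ _ h1).trans ?_
    rw [nsmul_eq_mul]
    refine mul_le_mul_of_nonneg_right ?_ hη0
    have h5 : ((univ \ {1, ψ} : Finset (DirichletCharacter ℂ M))).card ≤ M.totient := by
      refine (Finset.card_le_univ _).trans ?_
      rw [← Nat.card_eq_fintype_card]
      exact (DirichletCharacter.card_eq_totient_of_hasEnoughRootsOfUnity ℂ M).le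
    exact_mod_cast h5
  -- conclusion
  have hfin : (M.totient : ℝ) * |(cnt D M c : ℝ) - 2 ^ D.card * (2 / (M.totient : ℝ))| ≤
      M.totient * η := by
    have h1 : ‖(M.totient : ℂ) * (cnt D M c : ℂ) - 2 * 2 ^ D.card‖ ≤ M.totient * η := by
      rw [hsum, hsplit, add_sub_cancel_left]
      exact hbound
    have h2 : (M.totient : ℂ) * (cnt D M c : ℂ) - 2 * 2 ^ D.card =
        (((M.totient : ℝ) * (cnt D M c : ℝ) - 2 * 2 ^ D.card : ℝ) : ℂ) := by
      push_cast
      ring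
    rw [h2, Complex.norm_real, Real.norm_eq_abs] at h1
    have h3 : (M.totient : ℝ) * |(cnt D M c : ℝ) - 2 ^ D.card * (2 / (M.totient : ℝ))| =
        |(M.totient : ℝ) * (cnt D M c : ℝ) - 2 * 2 ^ D.card| := by
      rw [← abs_of_pos hφ', ← abs_mul, abs_of_pos hφ']
      congr 1
      field_simp
    rw [h3]
    exact h1
  exact le_of_mul_le_mul_left hfin hφ'

end Pool.Agent.H17.RP
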