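import Mathlib

/-!
# Comb: an almost multiplicative function on `ℤ/N`, `N` odd, is almost `1`

`f : ℤ/N → [-1, 1]`, `N` odd, `Σ_(x,y) (1 - f x f y f (x + y - c)) ≤ η N²` with `η ≤ 1/20`.  Then
`Σ_x (1 - f x) ≤ 12 η N`.

Proof. Put `g x = f (x + c)`; the hypothesis becomes `avg (1 - g(x) g(y) g(x+y)) ≤ η`.  For
`P, Q ∈ [-1,1]`: `1 - PQ ≤ (1-P) + (1-Q)` (`(1-P)(1-Q) ≥ 0`), and if `PQ = s² S` with `s² ≤ 1`,
`|S| ≤ 1` then `1 - S ≤ 2 (1 - PQ)` (if `S ≥ 0`: `PQ ≤ S`; if `S < 0`: `PQ ≤ 0`).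
(1) `P = g(x) g(y) g(x+y)`, `Q = g(x+y) g(-y) g(x)` (the hypothesis at `(x+y, -y)`):
`PQ = (g(x) g(x+y))² g(y) g(-y)`; so `avg_y (1 - g(y) g(-y)) ≤ 4 η`.
(2) `P1 = g(x) g(y) g(x+y)`, `P2 = g(x) g(-y) g(x-y)`, `S = g(y) g(-y)`:
`P1 P2 S = (g(x) S)² g(x+y) g(x-y)`; so
`1 - g(x+y) g(x-y) ≤ 2 ((1-P1) + (1-P2) + (1-S))`, the average is `≤ 12 η`.  `N` is odd, so
`(x, y) ↦ (x+y, x-y)` is a bijection: `1 - m² ≤ 12 η`, `m = avg g`, hence `1 - |m| ≤ 12 η`.
(3) If `m ≥ 0` we are done.  If `m < 0` then `avg (1 + g) ≤ 12 η`, and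
`1 - g(x)g(y)g(x+y) ≥ 2 - (1+g(x)) - (1+g(y)) - (1+g(x+y))` (numbers in `[-1,1]`), so
`η ≥ 2 - 36 η`, contradiction to `η ≤ 1/20`.
-/

set_option autoImplicit false

namespace Pool.Agent.H17.RP

open Finset

/-- `1 - P Q ≤ (1 - P) + (1 - Q)` -/
private lemma comb_mul {P Q : ℝ} (hP : |P| ≤ 1) (hQ : |Q| ≤ 1) :
    1 - P * Q ≤ (1 - P) + (1 - Q) := by
  have h1 := abs_le.mp hP
  have h2 := abs_le.mp hQ
  nlinarith [mul_nonneg (sub_nonneg.mpr h1.2) (sub_nonneg.mpr h2.2)]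

/-- `1 - S ≤ 2 (1 - s² S)` -/
private lemma comb_sq {s S : ℝ} (hs : |s| ≤ 1) (hS : |S| ≤ 1) :
    1 - S ≤ 2 * (1 - s ^ 2 * S) := by
  have h1 := abs_le.mp hS
  have h2 : s ^ 2 ≤ 1 := by
    have := abs_le.mp hs
    nlinarith
  have h3 : 0 ≤ s ^ 2 := sq_nonneg s
  rcases le_total 0 S with h | h
  · nlinarith [mul_nonneg (sub_nonneg.mpr h2) h]
  · nlinarith [mul_nonneg h3 (neg_nonneg.mpr h)]

private lemma comb_abs_mul {a b : ℝ} (ha : |a| ≤ 1) (hb : |b| ≤ 1) : |a * b| ≤ 1 := by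
  rw [abs_mul]
  exact mul_le_one₀ ha (abs_nonneg _) hb

private lemma comb_tri {a b c : ℝ} (ha : |a| ≤ 1) (hb : |b| ≤ 1) (hc : |c| ≤ 1) :
    2 - (1 + a) - (1 + b) - (1 + c) ≤ 1 - a * b * c := by
  have h1 := abs_le.mp ha
  have h2 := abs_le.mp hb
  have h3 := abs_le.mp hc
  have e1 : 0 ≤ (1 + a) * (1 + b) := mul_nonneg (by linarith) (by linarith)
  have e2 : (1 - a) * (1 - b) ≤ 4 := by nlinarith [mul_nonneg (by linarith : 0 ≤ 1 - a) (by linarith : 0 ≤ 1 + b), mul_nonneg (by linarith : 0 ≤ 1 + a) (by linarith : 0 ≤ 1 - b)]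
  have e3 := mul_nonneg e1 (by linarith : 0 ≤ 1 - c)
  have e4 := mul_nonneg (by linarith : 0 ≤ 4 - (1 - a) * (1 - b)) (by linarith : 0 ≤ 1 + c)
  nlinarith

private lemma comb_sum_shift {N : ℕ} [NeZero N] (G : ZMod N → ℝ) (t : ZMod N) :
    ∑ x : ZMod N, G (x + t) = ∑ x : ZMod N, G x :=
  Fintype.sum_equiv (Equiv.addRight t) _ _ (fun _ => rfl)

private lemma comb_sum_shift' {N : ℕ} [NeZero N] (G : ZMod N → ℝ) (t : ZMod N) :
    ∑ x : ZMod N, G (t + x) = ∑ x : ZMod N, G x :=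
  Fintype.sum_equiv (Equiv.addLeft t) _ _ (fun _ => rfl)

private lemma comb_sum_neg {N : ℕ} [NeZero N] (G : ZMod N → ℝ) :
    ∑ x : ZMod N, G (-x) = ∑ x : ZMod N, G x :=
  Fintype.sum_equiv (Equiv.neg _) _ _ (fun _ => rfl)

private lemma comb_two {N : ℕ} [NeZero N] (hN : Odd N) : IsUnit (2 : ZMod N) := by
  have h : Nat.Coprime 2 N := by
    rw [Nat.coprime_two_left]
    exact hN
  have := (ZMod.isUnit_iff_coprime 2 N).mpr h
  exact_mod_cast this

/-- for odd `N` the map `(x, y) ↦ (x + y, x - y)` is a bijection -/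
private lemma comb_sum_pm {N : ℕ} [NeZero N] (hN : Odd N) (G : ZMod N → ZMod N → ℝ) :
    ∑ x : ZMod N, ∑ y : ZMod N, G (x + y) (x - y) = ∑ x : ZMod N, ∑ y : ZMod N, G x y := by
  obtain ⟨u, hu⟩ := comb_two hN
  set v : ZMod N := ((u⁻¹ : (ZMod N)ˣ) : ZMod N) with hv
  have huv : (2 : ZMod N) * v = 1 := by rw [← hu, hv, Units.mul_inv]
  have hvu : v * (2 : ZMod N) = 1 := by rw [← hu, hv, Units.inv_mul]
  calc ∑ x : ZMod N, ∑ y : ZMod N, G (x + y) (x - y)
      = ∑ x : ZMod N, ∑ y : ZMod N, G ((x - y) + 2 * y) (x - y) := by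
        refine Finset.sum_congr rfl fun x _ => Finset.sum_congr rfl fun y _ => ?_
        congr 1
        ring
    _ = ∑ y : ZMod N, ∑ x : ZMod N, G ((x - y) + 2 * y) (x - y) := Finset.sum_comm
    _ = ∑ y : ZMod N, ∑ x : ZMod N, G (x + 2 * y) x := by
        refine Finset.sum_congr rfl fun y _ => ?_
        have := comb_sum_shift (fun x => G (x + 2 * y) x) (-y)
        simpa [sub_eq_add_neg] using this
    _ = ∑ x : ZMod N, ∑ y : ZMod N, G (x + 2 * y) x := Finset.sum_comm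
    _ = ∑ x : ZMod N, ∑ y : ZMod N, G (x + y) x := by
        refine Finset.sum_congr rfl fun x _ => ?_
        refine Fintype.sum_equiv ⟨fun y => 2 * y, fun y => v * y, ?_, ?_⟩ _ _ (fun _ => rfl)
        · intro y
          show v * (2 * y) = y
          rw [← mul_assoc, hvu, one_mul]
        · intro y
          show 2 * (v * y) = y
          rw [← mul_assoc, huv, one_mul]
    _ = ∑ x : ZMod N, ∑ y : ZMod N, G y x := by
        refine Finset.sum_congr rfl fun x _ => ?_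
        exact comb_sum_shift' (fun y => G y x) x
    _ = ∑ x : ZMod N, ∑ y : ZMod N, G x y := Finset.sum_comm

theorem comb {N : ℕ} [NeZero N] (hN : Odd N) (f : ZMod N → ℝ) (hf : ∀ x, |f x| ≤ 1) (c : ZMod N)
    {η : ℝ} (hη : η ≤ 1 / 20)
    (h : ∑ x : ZMod N, ∑ y : ZMod N, (1 - f x * f y * f (x + y - c)) ≤ η * (N : ℝ) ^ 2) :
    ∑ x : ZMod N, (1 - f x) ≤ 12 * η * N := by
  have hN0 : (0 : ℝ) < N := by
    have := NeZero.pos N
    exact_mod_cast this
  set g : ZMod N → ℝ := fun x => f (x + c) with hgdef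
  have hg : ∀ x, |g x| ≤ 1 := fun x => hf _
  have hcard : ∀ a : ℝ, ∑ _x : ZMod N, a = N * a := by
    intro a
    rw [Finset.sum_const, Finset.card_univ, ZMod.card, nsmul_eq_mul]
  -- the hypothesis in terms of `g`
  have h0 : ∑ x : ZMod N, ∑ y : ZMod N, (1 - g x * g y * g (x + y)) ≤ η * (N : ℝ) ^ 2 := by
    refine le_trans (le_of_eq ?_) h
    rw [← comb_sum_shift (fun x => ∑ y : ZMod N, (1 - f x * f y * f (x + y - c))) c]
    refine Finset.sum_congr rfl fun x _ => ?_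
    rw [← comb_sum_shift (fun y => (1 - f (x + c) * f y * f (x + c + y - c))) c]
    refine Finset.sum_congr rfl fun y _ => ?_
    simp only [hgdef]
    congr 3
    ring
  -- step 1
  have h1 : ∑ y : ZMod N, (1 - g y * g (-y)) ≤ 4 * η * N := by
    have hb : ∑ x : ZMod N, ∑ y : ZMod N, (1 - g (x + y) * g (-y) * g x) ≤ η * (N : ℝ) ^ 2 := by
      refine le_trans (le_of_eq ?_) h0
      calc ∑ x : ZMod N, ∑ y : ZMod N, (1 - g (x + y) * g (-y) * g x)
          = ∑ y : ZMod N, ∑ x : ZMod N, (1 - g (x + y) * g (-y) * g x) := Finset.sum_comm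
        _ = ∑ y : ZMod N, ∑ x : ZMod N, (1 - g x * g (-y) * g (x + -y)) := by
            refine Finset.sum_congr rfl fun y _ => ?_
            rw [← comb_sum_shift (fun x => (1 - g x * g (-y) * g (x + -y))) y]
            refine Finset.sum_congr rfl fun x _ => ?_
            simp
        _ = ∑ y : ZMod N, ∑ x : ZMod N, (1 - g x * g y * g (x + y)) :=
            comb_sum_neg (fun y => ∑ x : ZMod N, (1 - g x * g y * g (x + y)))
        _ = ∑ x : ZMod N, ∑ y : ZMod N, (1 - g x * g y * g (x + y)) := Finset.sum_comm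
    have hpt : ∀ x y : ZMod N, 1 - g y * g (-y) ≤
        2 * ((1 - g x * g y * g (x + y)) + (1 - g (x + y) * g (-y) * g x)) := by
      intro x y
      have e1 := comb_sq (s := g x * g (x + y)) (S := g y * g (-y))
        (comb_abs_mul (hg _) (hg _)) (comb_abs_mul (hg _) (hg _))
      have e2 := comb_mul (P := g x * g y * g (x + y)) (Q := g (x + y) * g (-y) * g x)
        (comb_abs_mul (comb_abs_mul (hg _) (hg _)) (hg _))
        (comb_abs_mul (comb_abs_mul (hg _) (hg _)) (hg _))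
      have e3 : (g x * g (x + y)) ^ 2 * (g y * g (-y)) =
          g x * g y * g (x + y) * (g (x + y) * g (-y) * g x) := by ring
      rw [e3] at e1
      linarith
    have hs : ∑ x : ZMod N, ∑ y : ZMod N, (1 - g y * g (-y)) ≤
        2 * (∑ x : ZMod N, ∑ y : ZMod N, (1 - g x * g y * g (x + y)) +
          ∑ x : ZMod N, ∑ y : ZMod N, (1 - g (x + y) * g (-y) * g x)) := by
      rw [← Finset.sum_add_distrib, Finset.mul_sum]
      refine Finset.sum_le_sum fun x _ => ?_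
      rw [← Finset.sum_add_distrib, Finset.mul_sum]
      exact Finset.sum_le_sum fun y _ => hpt x y
    rw [hcard] at hs
    have : (N : ℝ) * ∑ y : ZMod N, (1 - g y * g (-y)) ≤ N * (4 * η * N) := by nlinarith
    exact le_of_mul_le_mul_left this hN0
  -- step 2
  have h2 : ∑ x : ZMod N, ∑ y : ZMod N, (1 - g x * g y) ≤ 12 * η * (N : ℝ) ^ 2 := by
    rw [← comb_sum_pm hN (fun x y => (1 - g x * g y))]
    have hb : ∑ x : ZMod N, ∑ y : ZMod N, (1 - g x * g (-y) * g (x - y)) ≤ η * (N : ℝ) ^ 2 := by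
      refine le_trans (le_of_eq ?_) h0
      refine Finset.sum_congr rfl fun x _ => ?_
      have := comb_sum_neg (fun y => (1 - g x * g y * g (x + y)))
      simpa [sub_eq_add_neg] using this
    have hpt : ∀ x y : ZMod N, 1 - g (x + y) * g (x - y) ≤
        2 * ((1 - g x * g y * g (x + y)) + (1 - g x * g (-y) * g (x - y)) +
          (1 - g y * g (-y))) := by
      intro x y
      have e1 := comb_sq (s := g x * (g y * g (-y))) (S := g (x + y) * g (x - y))
        (comb_abs_mul (hg _) (comb_abs_mul (hg _) (hg _))) (comb_abs_mul (hg _) (hg _))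
      have e2 := comb_mul (P := g x * g y * g (x + y)) (Q := g x * g (-y) * g (x - y))
        (comb_abs_mul (comb_abs_mul (hg _) (hg _)) (hg _))
        (comb_abs_mul (comb_abs_mul (hg _) (hg _)) (hg _))
      have e2' := comb_mul (P := g x * g y * g (x + y) * (g x * g (-y) * g (x - y)))
        (Q := g y * g (-y))
        (comb_abs_mul (comb_abs_mul (comb_abs_mul (hg _) (hg _)) (hg _))
          (comb_abs_mul (comb_abs_mul (hg _) (hg _)) (hg _))) (comb_abs_mul (hg _) (hg _))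
      have e3 : (g x * (g y * g (-y))) ^ 2 * (g (x + y) * g (x - y)) =
          g x * g y * g (x + y) * (g x * g (-y) * g (x - y)) * (g y * g (-y)) := by ring
      rw [e3] at e1
      linarith
    have hs : ∑ x : ZMod N, ∑ y : ZMod N, (1 - g (x + y) * g (x - y)) ≤
        2 * (∑ x : ZMod N, ∑ y : ZMod N, (1 - g x * g y * g (x + y)) +
          ∑ x : ZMod N, ∑ y : ZMod N, (1 - g x * g (-y) * g (x - y)) +
          ∑ x : ZMod N, ∑ y : ZMod N, (1 - g y * g (-y))) := by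
      rw [← Finset.sum_add_distrib, ← Finset.sum_add_distrib, Finset.mul_sum]
      refine Finset.sum_le_sum fun x _ => ?_
      rw [← Finset.sum_add_distrib, ← Finset.sum_add_distrib, Finset.mul_sum]
      exact Finset.sum_le_sum fun y _ => hpt x y
    rw [hcard (∑ y : ZMod N, (1 - g y * g (-y)))] at hs
    have h4 : (N : ℝ) * ∑ y : ZMod N, (1 - g y * g (-y)) ≤ N * (4 * η * N) :=
      mul_le_mul_of_nonneg_left h1 hN0.le
    nlinarith
  -- the mean
  set M : ℝ := ∑ x : ZMod N, g x with hM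
  have hsq : ∑ x : ZMod N, ∑ y : ZMod N, (1 - g x * g y) = (N : ℝ) ^ 2 - M ^ 2 := by
    have e1 : ∀ x : ZMod N, ∑ y : ZMod N, (1 - g x * g y) = N - g x * M := by
      intro x
      rw [Finset.sum_sub_distrib, ← Finset.mul_sum, hcard, mul_one]
    rw [Finset.sum_congr rfl fun x _ => e1 x, Finset.sum_sub_distrib, ← Finset.sum_mul, hcard]
    ring
  rw [hsq] at h2
  have hMabs : |M| ≤ N := by
    calc |M| ≤ ∑ x : ZMod N, |g x| := Finset.abs_sum_le_sum_abs _ _
      _ ≤ ∑ _x : ZMod N, (1 : ℝ) := Finset.sum_le_sum fun x _ => hg x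
      _ = N := by rw [hcard, mul_one]
  have hM2 := abs_le.mp hMabs
  have hgoal : ∑ x : ZMod N, (1 - f x) = N - M := by
    rw [← comb_sum_shift (fun x => 1 - f x) c, Finset.sum_sub_distrib, hcard, mul_one]
  rw [hgoal]
  rcases le_total 0 M with hp | hn
  · have : (N : ℝ) * (N - M) ≤ N * (12 * η * N) := by nlinarith [mul_nonneg hp (sub_nonneg.mpr hM2.2)]
    exact le_of_mul_le_mul_left this hN0
  · exfalso
    have h5 : (N : ℝ) + M ≤ 12 * η * N := by
      have : (N : ℝ) * (N + M) ≤ N * (12 * η * N) := by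
        nlinarith [mul_nonneg (neg_nonneg.mpr hn) (by linarith : 0 ≤ (N : ℝ) + M)]
      exact le_of_mul_le_mul_left this hN0
    have h6 : ∑ x : ZMod N, ∑ y : ZMod N, (2 - (1 + g x) - (1 + g y) - (1 + g (x + y))) ≤
        ∑ x : ZMod N, ∑ y : ZMod N, (1 - g x * g y * g (x + y)) :=
      Finset.sum_le_sum fun x _ => Finset.sum_le_sum fun y _ =>
        comb_tri (hg _) (hg _) (hg _)
    have h7 : ∑ x : ZMod N, ∑ y : ZMod N, (2 - (1 + g x) - (1 + g y) - (1 + g (x + y))) =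
        2 * (N : ℝ) ^ 2 - 3 * (N * (N + M)) := by
      have e1 : ∀ x : ZMod N, ∑ y : ZMod N, (2 - (1 + g x) - (1 + g y) - (1 + g (x + y))) =
          2 * N - N * (1 + g x) - 2 * (N + M) := by
        intro x
        rw [Finset.sum_sub_distrib, Finset.sum_sub_distrib, Finset.sum_sub_distrib, hcard, hcard,
          Finset.sum_add_distrib, Finset.sum_add_distrib, hcard,
          comb_sum_shift' (fun z => g z) x]
        ring
      rw [Finset.sum_congr rfl fun x _ => e1 x, Finset.sum_sub_distrib, Finset.sum_sub_distrib,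
        hcard, hcard, ← Finset.mul_sum, Finset.sum_add_distrib, hcard]
      ring
    rw [h7] at h6
    have h8 := le_trans h6 h0
    have h9 : (N : ℝ) * (N + M) ≤ N * (12 * η * N) := mul_le_mul_of_nonneg_left h5 hN0.le
    have h10 : 0 < (N : ℝ) ^ 2 := by positivity
    have h11 : η * (N : ℝ) ^ 2 ≤ 1 / 20 * (N : ℝ) ^ 2 := mul_le_mul_of_nonneg_right hη h10.le
    nlinarith

end Pool.Agent.H17.RP
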