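import Pool.Agent.H17.RP.Basic

/-!
# CountTree: the total length of the Stern-Brocot paths

`|TT V| ≤ V² (1 + log V)²` for `V ≥ 1`.

Proof. For admissible `(e, f)`: `e.1 f.2 - e.2 f.1 = 1`, `0 ≤ e.1 ≤ e.2`, `0 ≤ f.1 ≤ f.2`, so
`e.2, f.2 ≥ 1` (otherwise the determinant is `0`), they are coprime, and `(e, f)` is determined by
`(e.2, f.2)`: if `(e', f')` has the same second coordinates then
`(e.1 - e'.1) f.2 = e.2 (f.1 - f'.1)`, so `e.2 ∣ e.1 - e'.1`, `|e.1 - e'.1| ≤ e.2`; if it is not `0` then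
`{e.1, e'.1} = {0, e.2}`, say `e.1 = e.2`, `e'.1 = 0`: `- e.2 f'.1 = 1` is impossible.
So `(e, f, p) ↦ (e.2, p.1, f.2, p.2)` is injective into the quadruples of positive integers with
`e.2 p.1 + f.2 p.2 ≤ V`, in particular `e.2 p.1 ≤ V` and `f.2 p.2 ≤ V`: at most
`(#{(a, b) : a, b ≥ 1, a b ≤ V})² = (Σ_(a ≤ V) ⌊V/a⌋)² ≤ (V (1 + log V))²` (`harmonic_le_one_add_log`).
-/

set_option autoImplicit false

namespace Pool.Agent.H17.RP

open Finset

/-- the pairs of positive integers with product at most `V` -/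
private def hyp2 (V : ℕ) : Finset (ℕ × ℕ) :=
  (Icc 1 V ×ˢ Icc 1 V).filter (fun q => q.1 * q.2 ≤ V)

private theorem hyp2_card (V : ℕ) : ((hyp2 V).card : ℝ) ≤ (V : ℝ) * (1 + Real.log V) := by
  have h1 : (hyp2 V).card = ∑ a ∈ Icc 1 V, ((hyp2 V).filter (fun q => q.1 = a)).card := by
    refine Finset.card_eq_sum_card_fiberwise (fun x hx => ?_)
    have hx' := mem_coe.1 hx
    unfold hyp2 at hx'
    rw [mem_filter, mem_product] at hx'
    exact hx'.1.1
  have h2 : ∀ a ∈ Icc 1 V, (((hyp2 V).filter (fun q => q.1 = a)).card : ℝ) ≤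
      (V : ℝ) * ((a : ℝ))⁻¹ := by
    intro a ha
    rw [mem_Icc] at ha
    have h3 : ((hyp2 V).filter (fun q => q.1 = a)).card ≤ (Icc 1 (V / a)).card := by
      refine Finset.card_le_card_of_injOn (fun q => q.2) (fun q hq => ?_) (fun q hq q' hq' h => ?_)
      · have hq1 := mem_coe.1 hq
        unfold hyp2 at hq1
        rw [mem_filter, mem_filter, mem_product, mem_Icc, mem_Icc] at hq1
        obtain ⟨⟨⟨_, h5⟩, h6⟩, h7⟩ := hq1
        refine mem_coe.2 (mem_Icc.2 ⟨h5.1, ?_⟩)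
        rw [Nat.le_div_iff_mul_le (by omega), Nat.mul_comm]
        rw [h7] at h6
        exact h6
      · have hq1 := (mem_filter.1 (mem_coe.1 hq)).2
        have hq2 := (mem_filter.1 (mem_coe.1 hq')).2
        exact Prod.ext (hq1.trans hq2.symm) h
    rw [Nat.card_Icc, Nat.add_sub_cancel] at h3
    calc (((hyp2 V).filter (fun q => q.1 = a)).card : ℝ) ≤ ((V / a : ℕ) : ℝ) := by exact_mod_cast h3
      _ ≤ (V : ℝ) / a := Nat.cast_div_le
      _ = (V : ℝ) * ((a : ℝ))⁻¹ := div_eq_mul_inv _ _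
  have h4 : ((harmonic V : ℚ) : ℝ) = ∑ a ∈ Icc 1 V, ((a : ℝ))⁻¹ := by
    rw [harmonic_eq_sum_Icc]
    push_cast
    rfl
  have h5 := harmonic_le_one_add_log V
  calc ((hyp2 V).card : ℝ) = ∑ a ∈ Icc 1 V, (((hyp2 V).filter (fun q => q.1 = a)).card : ℝ) := by
        rw [h1]; push_cast; rfl
    _ ≤ ∑ a ∈ Icc 1 V, (V : ℝ) * ((a : ℝ))⁻¹ := Finset.sum_le_sum h2
    _ = (V : ℝ) * ((harmonic V : ℚ) : ℝ) := by rw [h4, Finset.mul_sum]
    _ ≤ (V : ℝ) * (1 + Real.log V) := mul_le_mul_of_nonneg_left h5 (Nat.cast_nonneg V)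

private theorem adm_pos {e f : ℤ × ℤ} (h : Adm e f) : 1 ≤ e.2 ∧ 1 ≤ f.2 := by
  obtain ⟨h1, h2, h3, h4, h5⟩ := h
  constructor
  · by_contra hc
    have h6 : e.2 = 0 := by omega
    have h7 : e.1 = 0 := by omega
    rw [h6, h7] at h1
    simp at h1
  · by_contra hc
    have h6 : f.2 = 0 := by omega
    have h7 : f.1 = 0 := by omega
    rw [h6, h7] at h1
    simp at h1

private theorem adm_inj {a b c d a' c' : ℤ} (h : Adm (a, b) (c, d)) (h' : Adm (a', b) (c', d)) :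
    a = a' ∧ c = c' := by
  have hb := (adm_pos h).1
  obtain ⟨h1, h2, h3, h4, h5⟩ := h
  obtain ⟨h1', h2', h3', h4', h5'⟩ := h'
  simp only at h1 h2 h3 h4 h5 h1' h2' h3' h4' h5' hb
  have hcop : IsCoprime b d := ⟨-c, a, by linarith⟩
  have heq : (a - a') * d = b * (c - c') := by linarith
  have hdvd : b ∣ a - a' := hcop.dvd_of_dvd_mul_right ⟨c - c', heq⟩
  obtain ⟨k, hk⟩ := hdvd
  have hk1 : k < 2 := by
    by_contra hc
    have : b * 2 ≤ b * k := by nlinarith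
    omega
  have hk2 : -2 < k := by
    by_contra hc
    have : b * k ≤ b * (-2) := by nlinarith
    omega
  have hk3 : k = 0 := by
    rcases (by omega : k = 0 ∨ k = 1 ∨ k = -1) with h0 | h0 | h0
    · exact h0
    · exfalso
      have h6 : a' = 0 := by rw [h0] at hk; omega
      rw [h6] at h1'
      nlinarith
    · exfalso
      have h6 : a = 0 := by rw [h0] at hk; omega
      rw [h6] at h1
      nlinarith
  have h7 : a = a' := by rw [hk3] at hk; omega
  refine ⟨h7, ?_⟩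
  rw [h7, sub_self, zero_mul] at heq
  rcases mul_eq_zero.1 heq.symm with h8 | h8
  · omega
  · omega

theorem count_tree (V : ℕ) (hV : 1 ≤ V) : ((TT V).card : ℝ) ≤ (V : ℝ) ^ 2 * (1 + Real.log V) ^ 2 := by
  have h1 : (TT V).card ≤ (hyp2 V ×ˢ hyp2 V).card := by
    refine Finset.card_le_card_of_injOn
      (fun x => ((x.1.2.toNat, x.2.2.1.toNat), (x.2.1.2.toNat, x.2.2.2.toNat)))
      (fun x hx => ?_) (fun x hx x' hx' h => ?_)
    · obtain ⟨-, h2, h3, h4, h5⟩ := mem_sel.1 (mem_coe.1 hx)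
      obtain ⟨h6, h7⟩ := adm_pos h2
      simp only [lin] at h5
      have h8 : 1 ≤ x.2.2.1 * x.1.2 := by nlinarith
      have h9 : 1 ≤ x.2.2.2 * x.2.1.2 := by nlinarith
      have h10 : x.1.2 ≤ x.2.2.1 * x.1.2 := by nlinarith
      have h11 : x.2.2.1 ≤ x.2.2.1 * x.1.2 := by nlinarith
      have h12 : x.2.1.2 ≤ x.2.2.2 * x.2.1.2 := by nlinarith
      have h13 : x.2.2.2 ≤ x.2.2.2 * x.2.1.2 := by nlinarith
      refine mem_coe.2 (mem_product.2 ⟨?_, ?_⟩)
      · unfold hyp2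
        refine mem_filter.2 ⟨mem_product.2 ⟨mem_Icc.2 ⟨by simp only; omega, by simp only; omega⟩,
          mem_Icc.2 ⟨by simp only; omega, by simp only; omega⟩⟩, ?_⟩
        have h14 : ((x.1.2.toNat * x.2.2.1.toNat : ℕ) : ℤ) ≤ (V : ℤ) := by
          push_cast
          rw [Int.toNat_of_nonneg (by omega), Int.toNat_of_nonneg (by omega)]
          rw [mul_comm]
          omega
        exact_mod_cast h14
      · unfold hyp2
        refine mem_filter.2 ⟨mem_product.2 ⟨mem_Icc.2 ⟨by simp only; omega, by simp only; omega⟩,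
          mem_Icc.2 ⟨by simp only; omega, by simp only; omega⟩⟩, ?_⟩
        have h14 : ((x.2.1.2.toNat * x.2.2.2.toNat : ℕ) : ℤ) ≤ (V : ℤ) := by
          push_cast
          rw [Int.toNat_of_nonneg (by omega), Int.toNat_of_nonneg (by omega)]
          rw [mul_comm]
          omega
        exact_mod_cast h14
    · obtain ⟨-, h2, h3, h4, h5⟩ := mem_sel.1 (mem_coe.1 hx)
      obtain ⟨-, h2', h3', h4', h5'⟩ := mem_sel.1 (mem_coe.1 hx')
      obtain ⟨h6, h7⟩ := adm_pos h2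
      obtain ⟨h6', h7'⟩ := adm_pos h2'
      obtain ⟨⟨a, b⟩, ⟨c, d⟩, ⟨p, q⟩⟩ := x
      obtain ⟨⟨a', b'⟩, ⟨c', d'⟩, ⟨p', q'⟩⟩ := x'
      simp only [Prod.mk.injEq] at h h3 h4 h6 h7 h3' h4' h6' h7' h2 h2' ⊢
      obtain ⟨⟨e1, e2⟩, e3, e4⟩ := h
      have e5 : b = b' := by omega
      have e6 : p = p' := by omega
      have e7 : d = d' := by omega
      have e8 : q = q' := by omega
      subst e5 e6 e7 e8
      obtain ⟨e9, e10⟩ := adm_inj h2 h2'
      exact ⟨⟨e9, rfl⟩, ⟨e10, rfl⟩, rfl, rfl⟩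
  rw [card_product] at h1
  have h2 := hyp2_card V
  have h3 : (0 : ℝ) ≤ ((hyp2 V).card : ℝ) := Nat.cast_nonneg _
  calc ((TT V).card : ℝ) ≤ ((hyp2 V).card : ℝ) * ((hyp2 V).card : ℝ) := by exact_mod_cast h1
    _ ≤ ((V : ℝ) * (1 + Real.log V)) * ((V : ℝ) * (1 + Real.log V)) :=
        mul_le_mul h2 h2 h3 (h3.trans h2)
    _ = (V : ℝ) ^ 2 * (1 + Real.log V) ^ 2 := by ring

end Pool.Agent.H17.RP
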