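import Mathlib

/-!
# Rough values of `3k² + 3k + 1` with an odd (or even) number of prime factors: definitions

`F x y = x² + 3xy + 3y²` is the norm of `x + y θ` (`θ² = 3θ - 3`), `fk k = 3k² + 3k + 1 = F 1 k`.
Vectors are pairs of integers.  The outline of the whole proof is in `Outline.md`
(`/team-store/rp_outline.md`).
-/

set_option autoImplicit false

namespace Pool.Agent.H17.RP

open Finset

section counting

variable {ι : Type}

open Classical in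
/-- the elements of `S` with the property `Q` -/
noncomputable def sel (S : Finset ι) (Q : ι → Prop) : Finset ι := S.filter Q

/-- the number of elements of `S` with the property `Q` -/
noncomputable def cs (S : Finset ι) (Q : ι → Prop) : ℕ := (sel S Q).card

end counting

/-- the norm form -/
def F (x y : ℤ) : ℤ := x ^ 2 + 3 * x * y + 3 * y ^ 2

/-- `3k² + 3k + 1` -/
def fk (k : ℤ) : ℤ := 3 * k ^ 2 + 3 * k + 1

/-- the Liouville function of `|m|` -/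
def lam (m : ℤ) : ℤ := (-1) ^ (ArithmeticFunction.cardFactors m.natAbs)

/-- all prime factors of `m` are larger than `Y` -/
def Rough (Y : ℕ) (m : ℤ) : Prop := ∀ p : ℕ, p.Prime → (p : ℤ) ∣ m → Y < p

/-- norm of a vector -/
def Nm (w : ℤ × ℤ) : ℤ := F w.1 w.2

/-- first coordinate of `w * conj w'` -/
def cc (w w' : ℤ × ℤ) : ℤ := w.1 * w'.1 + 3 * w.1 * w'.2 + 3 * w.2 * w'.2

/-- second coordinate of `w * conj w'` -/
def dt (w w' : ℤ × ℤ) : ℤ := w.2 * w'.1 - w.1 * w'.2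

/-- the shear `(u, v) ↦ (u + n v, v)` -/
def sh (n : ℤ) (w : ℤ × ℤ) : ℤ × ℤ := (w.1 + n * w.2, w.2)

/-- the sign which makes the first coordinate `1` modulo `3` -/
def sg (w : ℤ × ℤ) : ℤ := if w.1 % 3 = 1 then 1 else -1

/-- `α e + β f` for `p = (α, β)` -/
def lin (e f p : ℤ × ℤ) : ℤ × ℤ := (p.1 * e.1 + p.2 * f.1, p.1 * e.2 + p.2 * f.2)

/-- `(e, f)` is a basis of `ℤ²` -/
def Basis2 (e f : ℤ × ℤ) : Prop := dt e f = 1 ∨ dt e f = -1

/-- the coordinates of `e` and `f` are nonnegative and at most `H` -/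
def Box (H : ℤ) (e f : ℤ × ℤ) : Prop :=
  (0 ≤ e.1 ∧ e.1 ≤ H) ∧ (0 ≤ e.2 ∧ e.2 ≤ H) ∧ (0 ≤ f.1 ∧ f.1 ≤ H) ∧ (0 ≤ f.2 ∧ f.2 ≤ H)

/-- the size parameter `A = 2^(t^(4g))` -/
def AA (g t : ℕ) : ℕ := 2 ^ (t ^ (4 * g))

/-- the integers `n` with `A ≤ n < 2A` -/
noncomputable def NN (g t : ℕ) : Finset ℤ := Ico (AA g t : ℤ) (2 * (AA g t : ℤ))

/-- The hypothesis (to be refuted for all large `t`, for `ε = 1` and for `ε = -1`): all values
`3R² + 3R + 1` without prime factors `≤ 2^t`, for `2^t ≤ R ≤ A^100`, have Liouville function `ε`, with at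
most `A^(1/2)` exceptions `R`. -/
def Hyp (g t : ℕ) (ε : ℤ) : Prop :=
  ∃ E : Finset ℤ, E.card ^ 2 ≤ AA g t ∧
    ∀ R : ℤ, 2 ^ t ≤ R → R ≤ (AA g t : ℤ) ^ 100 → R ∉ E → Rough (2 ^ t) (fk R) → lam (fk R) = ε

/-- The window: coprime `(α, β)` with `1 ≤ α, β ≤ L`. -/
noncomputable def win (L : ℕ) : Finset (ℤ × ℤ) :=
  sel (Icc (1 : ℤ) L ×ˢ Icc (1 : ℤ) L) (fun p => IsCoprime p.1 p.2)

/-- The big window: coprime `(α, β)` with `0 ≤ α, β ≤ 3L`. -/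
noncomputable def bwin (L : ℕ) : Finset (ℤ × ℤ) :=
  sel (Icc (0 : ℤ) (3 * L) ×ˢ Icc (0 : ℤ) (3 * L)) (fun p => IsCoprime p.1 p.2)

/-- The medium primes: `p ≡ 1 mod 3`, `2^(t^(2g)) < p ≤ 2^(t^(4g-1))`. -/
noncomputable def med (g t : ℕ) : Finset ℕ :=
  sel (Ioc (2 ^ (t ^ (2 * g))) (2 ^ (t ^ (4 * g - 1)))) (fun p => p.Prime ∧ p % 3 = 1)

/-- The probability of the set `D` in the model in which every `p ∈ P` is chosen independently
with probability `2/p`. -/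
noncomputable def pr (P D : Finset ℕ) : ℝ :=
  (∏ p ∈ D, (2 / (p : ℝ))) * ∏ p ∈ P \ D, (1 - 2 / (p : ℝ))

/-- The probability of the event `𝓑` in the model. -/
noncomputable def Pr (P : Finset ℕ) (𝓑 : Finset ℕ → Prop) : ℝ :=
  ∑ D ∈ sel P.powerset 𝓑, pr P D

/-- The product of the primes in `T`. -/
def prd (T : Finset ℕ) : ℕ := ∏ p ∈ T, p

/-- The number of subsets of `D` whose product is `c` modulo `M`. -/
noncomputable def cnt (D : Finset ℕ) (M : ℕ) (c : ℤ) : ℕ :=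
  cs D.powerset (fun T => (M : ℤ) ∣ (prd T : ℤ) - c)

/-- The subset products of `D` are equidistributed in the classes `c ≡ 1 mod 3` prime to `M`, for
all multiples `M ≤ t^e1` of `3`, with error `2^|D| / t^e3`. -/
def Unif (e1 e3 t : ℕ) (D : Finset ℕ) : Prop :=
  ∀ M : ℕ, 0 < M → M ≤ t ^ e1 → 3 ∣ M → ∀ c : ℤ, IsCoprime c (M : ℤ) → c % 3 = 1 →
    |(cnt D M c : ℝ) - 2 ^ D.card * (2 / (M.totient : ℝ))| ≤ 2 ^ D.card / (t : ℝ) ^ e3

/-- For every prime `q` with `t^e < q ≤ 2^t` no class modulo `q` contains more than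
`2^|D| / t^c` subset products. -/
def Anti (e c t : ℕ) (D : Finset ℕ) : Prop :=
  ∀ q : ℕ, q.Prime → t ^ e < q → q ≤ 2 ^ t → ∀ x : ℤ, cnt D q x * t ^ c ≤ 2 ^ D.card

/-- The good subset products: `d ≡ a mod 3b`, and `(a - d)/(3b) = R` with `3R² + 3R + 1` prime
to `W`. -/
noncomputable def Sd (D : Finset ℕ) (a b : ℤ) (W : ℕ) : Finset (Finset ℕ) :=
  sel D.powerset (fun T => 3 * b ∣ a - (prd T : ℤ) ∧
    ∀ q : ℕ, q.Prime → q ∣ W → ¬ (q : ℤ) ∣ fk ((a - (prd T : ℤ)) / (3 * b)))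

/-- `D` is good for `(a, b, W)`: there are good subset products, and they are not concentrated
modulo any prime `q ≤ 2^t` which does not divide `W`. -/
def Good (t : ℕ) (a b : ℤ) (W : ℕ) (D : Finset ℕ) : Prop :=
  (Sd D a b W).Nonempty ∧ ∀ q : ℕ, q.Prime → q ≤ 2 ^ t → ¬ q ∣ W → ∀ x : ℤ,
    cs (Sd D a b W) (fun T => (q : ℤ) ∣ (prd T : ℤ) - x) * t ^ 21 ≤ (Sd D a b W).card

/-- The step property of the basis `(e, f)` at `n` (window size `L`): the window contains a rough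
vector, and all rough vectors of the big window have the same Liouville value. -/
def StepOK (L t : ℕ) (n : ℤ) (e f : ℤ × ℤ) : Prop :=
  (∃ p ∈ win L, Rough (2 ^ t) (Nm (sh n (lin e f p)))) ∧
  ∀ p ∈ bwin L, ∀ p' ∈ bwin L, Rough (2 ^ t) (Nm (sh n (lin e f p))) →
    Rough (2 ^ t) (Nm (sh n (lin e f p'))) →
    lam (Nm (sh n (lin e f p))) = lam (Nm (sh n (lin e f p')))

/-- The event that all the vectors `sh n w`, `sh n (w' j)` are rough, and none of the `w' j` has the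
same Liouville value as `w`. -/
def Ev (t : ℕ) {s : ℕ} (w : ℤ × ℤ) (w' : Fin s → ℤ × ℤ) (n : ℤ) : Prop :=
  Rough (2 ^ t) (Nm (sh n w)) ∧ ∀ j, Rough (2 ^ t) (Nm (sh n (w' j))) ∧
    lam (Nm (sh n (w' j))) ≠ lam (Nm (sh n w))

/-- the square `[0, V]²` -/
noncomputable def bx (V : ℕ) : Finset (ℤ × ℤ) := Icc (0 : ℤ) V ×ˢ Icc (0 : ℤ) V

/-- The bases on the Stern-Brocot paths to the fractions in `(0, 1)`. -/
def Adm (e f : ℤ × ℤ) : Prop :=
  e.1 * f.2 - e.2 * f.1 = 1 ∧ 0 ≤ e.1 ∧ e.1 ≤ e.2 ∧ 0 ≤ f.1 ∧ f.1 ≤ f.2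

/-- Admissible bases `(e, f)` with a vector `α e + β f`, `α, β ≥ 1`, whose second coordinate is
at most `V`. -/
noncomputable def TT (V : ℕ) : Finset ((ℤ × ℤ) × (ℤ × ℤ) × (ℤ × ℤ)) :=
  sel (bx V ×ˢ (bx V ×ˢ bx V)) (fun x => Adm x.1 x.2.1 ∧ 1 ≤ x.2.2.1 ∧ 1 ≤ x.2.2.2 ∧
    (lin x.1 x.2.1 x.2.2).2 ≤ V)

/-- The cusp region: `1 ≤ v ≤ V`, `A v ≤ u < 2 A v`. -/
noncomputable def cusp (A V : ℕ) : Finset (ℤ × ℤ) :=
  sel (Icc (1 : ℤ) (2 * A * V) ×ˢ Icc (1 : ℤ) V)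
    (fun w => (A : ℤ) * w.2 ≤ w.1 ∧ w.1 < 2 * (A : ℤ) * w.2)

/-- No prime `p` with `p^K ≤ A` divides `m`. -/
def RK (A K : ℕ) (m : ℤ) : Prop := ∀ p : ℕ, p.Prime → (p : ℤ) ∣ m → A < p ^ K

/-- The complex number `u + v θ`, `θ = 3/2 + (√3/2) i`. -/
noncomputable def em (w : ℤ × ℤ) : ℂ := ⟨(w.1 : ℝ) + 3 / 2 * w.2, Real.sqrt 3 / 2 * w.2⟩

/-- The rough vectors `w = (x, y)` with `A² ≤ y ≤ 2A²` and argument in `[π/3, 2π/3)`. -/
noncomputable def RR (A K : ℕ) : Finset (ℤ × ℤ) :=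
  sel (Icc (-(8 * (A : ℤ) ^ 2)) (8 * (A : ℤ) ^ 2) ×ˢ Icc ((A : ℤ) ^ 2) (2 * (A : ℤ) ^ 2))
    (fun w => Real.pi / 3 ≤ (em w).arg ∧ (em w).arg < 2 * Real.pi / 3 ∧ RK A K (Nm w))

/-- The sector (of angle `π/(3 (20 A + 1))`) of a vector. -/
noncomputable def sec (A : ℕ) (w : ℤ × ℤ) : ZMod (20 * A + 1) :=
  ((⌊((em w).arg - Real.pi / 3) * (3 * (20 * (A : ℝ) + 1) / Real.pi)⌋ : ℤ) : ZMod (20 * A + 1))

/-- The sixth root of unity `e^(iπ/3)`. -/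
noncomputable def om : ℂ := ⟨1 / 2, Real.sqrt 3 / 2⟩

end Pool.Agent.H17.RP
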