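import Pool.Agent.H17.RP.MedSum
import Pool.Agent.H17.RP.Basic
import Pool.Agent.H12.Brun

/-!
# Rare: few `m` have many medium primes

`P ⊆ med g t`, `K p` periodic modulo `p` with at most two classes; `D(m) = {p ∈ P : K p m}`.
`#{m < N : |D(m)| ≥ t/h} ≤ N/t^C` for `N^4 ≥ A^3`, `h ≥ 4`, `t ≥ t0`.
Proof. With `k = ⌈t/h⌉ ≤ t/h + 1` every such `m` has a subset `I ⊆ D(m)`, `|I| = k`.  By `crt_count` the
number of `m` with `K p m` for all `p ∈ I` is at most `2^k (N/∏ I + 1)`.  Sum over `I`: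
`≤ N (Σ_(p∈P) 2/p)^k/k! + 2^k |P|^k` (`esym_le` in `H12/Brun.lean`), `|P| ≤ 2^(t^(4g-1))`,
`(2 · 2^(t^(4g-1)))^k ≤ 2^((t^(4g-1)+1)(t/4+1)) ≤ A^(1/4) 2^(t^(4g-1)+t+1) ≤ N/(2 t^C)`, and
`(2 g log t)^k/k! ≤ (2 e g log t/k)^k ≤ 1/(2t^C)` (`med_up`).
-/

set_option autoImplicit false

namespace Pool.Agent.H17.RP

open Finset

private theorem rare_count (P : Finset ℕ) (hP : ∀ p ∈ P, p.Prime) (K : ℕ → ℕ → Prop)
    (hK : ∀ p ∈ P, ∀ m, K p (m + p) ↔ K p m) (hK2 : ∀ p ∈ P, cs (range p) (K p) ≤ 2) (N k : ℕ) :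
    (cs (range N) (fun m => k ≤ cs P (fun p => K p m)) : ℝ) ≤
      N * ((∑ p ∈ P, 2 / (p : ℝ)) ^ k / (k.factorial : ℝ)) + (P.card : ℝ) ^ k * 2 ^ k := by
  classical
  have h1 : cs (range N) (fun m => k ≤ cs P (fun p => K p m)) ≤
      ∑ I ∈ P.powersetCard k, cs (range N) (fun m => ∀ p ∈ I, K p m) := by
    refine le_trans (cs_mono (Q := fun m => ∃ I ∈ P.powersetCard k, ∀ p ∈ I, K p m) ?_)
      (cs_exists _ _ _)
    intro m _ hm
    obtain ⟨I, hI, hc⟩ := Finset.exists_subset_card_eq hm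
    refine ⟨I, mem_powersetCard.2 ⟨hI.trans (sel_subset _ _), hc⟩, fun p hp => ?_⟩
    exact (mem_sel.1 (hI hp)).2
  have h2 : ∀ I ∈ P.powersetCard k, (cs (range N) (fun m => ∀ p ∈ I, K p m) : ℝ) ≤
      N * ∏ p ∈ I, (2 / (p : ℝ)) + 2 ^ k := by
    intro I hI
    rw [mem_powersetCard] at hI
    have h3 := crt_count I (fun p hp => hP p (hI.1 hp)) K (fun p hp => hK p (hI.1 hp)) N
    have h4 : ∏ p ∈ I, ((cs (range p) (K p) : ℝ) / p) ≤ ∏ p ∈ I, (2 / (p : ℝ)) := by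
      refine prod_le_prod (fun p _ => by positivity) fun p hp => ?_
      have : (cs (range p) (K p) : ℝ) ≤ 2 := by exact_mod_cast hK2 p (hI.1 hp)
      gcongr
    have h5 : ∏ p ∈ I, (cs (range p) (K p) : ℝ) ≤ 2 ^ k := by
      rw [← hI.2, ← prod_const]
      refine prod_le_prod (fun p _ => by positivity) fun p hp => ?_
      exact_mod_cast hK2 p (hI.1 hp)
    have h6 := (abs_le.1 h3).2
    have h7 : (N : ℝ) * ∏ p ∈ I, ((cs (range p) (K p) : ℝ) / p) ≤ N * ∏ p ∈ I, (2 / (p : ℝ)) :=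
      mul_le_mul_of_nonneg_left h4 (Nat.cast_nonneg N)
    linarith
  have h3 : (cs (range N) (fun m => k ≤ cs P (fun p => K p m)) : ℝ) ≤
      ∑ I ∈ P.powersetCard k, ((N : ℝ) * ∏ p ∈ I, (2 / (p : ℝ)) + 2 ^ k) := by
    refine le_trans ?_ (sum_le_sum h2)
    exact_mod_cast h1
  refine h3.trans ?_
  rw [sum_add_distrib, ← mul_sum, sum_const, card_powersetCard, nsmul_eq_mul]
  have h4 := Pool.Agent.H12.esym_le P (fun p : ℕ => 2 / (p : ℝ)) (fun p _ => by positivity) k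
  have h5 : ((P.card.choose k : ℕ) : ℝ) ≤ (P.card : ℝ) ^ k := by
    exact_mod_cast Nat.choose_le_pow _ _
  unfold Pool.Agent.H12.esym at h4
  have h6 : (0 : ℝ) ≤ 2 ^ k := by positivity
  exact add_le_add (mul_le_mul_of_nonneg_left h4 (Nat.cast_nonneg N))
    (mul_le_mul_of_nonneg_right h5 h6)

private theorem ev1 (B : ℝ) (hB : 0 < B) : ∀ᶠ t : ℕ in Filter.atTop, B * Real.log t ≤ (t : ℝ) := by
  have h := Real.isLittleO_log_id_atTop.bound (show (0 : ℝ) < 1 / B by positivity)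
  have h2 := (tendsto_natCast_atTop_atTop (R := ℝ)).eventually h
  filter_upwards [h2, Filter.eventually_ge_atTop 1] with t ht ht1
  have h3 : (0 : ℝ) ≤ Real.log t := Real.log_nonneg (by exact_mod_cast ht1)
  rw [Real.norm_of_nonneg h3, id, Real.norm_of_nonneg (Nat.cast_nonneg t)] at ht
  calc B * Real.log t ≤ B * (1 / B * t) := mul_le_mul_of_nonneg_left ht hB.le
    _ = t := by field_simp

private theorem ev2 (C : ℕ) (c : ℝ) (hc : 0 < c) :
    ∀ᶠ t : ℕ in Filter.atTop, 2 * (t : ℝ) ^ C ≤ Real.exp (c * t) := by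
  have h := (isLittleO_pow_exp_pos_mul_atTop C hc).bound (show (0 : ℝ) < 1 / 2 by norm_num)
  have h2 := (tendsto_natCast_atTop_atTop (R := ℝ)).eventually h
  filter_upwards [h2] with t ht
  rw [Real.norm_of_nonneg (by positivity), Real.norm_of_nonneg (Real.exp_pos _).le] at ht
  linarith

theorem rare (g h C : ℕ) (hg : 1 ≤ g) (hh : 4 ≤ h) : ∃ t0 : ℕ, ∀ t ≥ t0, ∀ P ⊆ med g t,
    ∀ K : ℕ → ℕ → Prop, (∀ p ∈ P, ∀ m, K p (m + p) ↔ K p m) →
    (∀ p ∈ P, cs (range p) (K p) ≤ 2) →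
    ∀ N : ℕ, AA g t ^ 3 ≤ N ^ 4 →
    cs (range N) (fun m => t ≤ h * cs P (fun p => K p m)) * t ^ C ≤ N := by
  classical
  have hg0 : (0 : ℝ) < g := by exact_mod_cast hg
  have hh0 : (0 : ℝ) < h := by
    have : 0 < h := by omega
    exact_mod_cast this
  obtain ⟨t1, ht1⟩ := med_up g hg
  obtain ⟨t2, ht2⟩ := Filter.eventually_atTop.1
    (ev1 (2 * g * Real.exp 2 * h) (by positivity))
  obtain ⟨t3, ht3⟩ := Filter.eventually_atTop.1 (ev2 C (1 / h) (by positivity))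
  refine ⟨max (max t1 t2) (max t3 (11 + 4 * C)), ?_⟩
  intro t ht P hP K hK hK2 N hN
  have hta : t1 ≤ t := le_trans (le_trans (le_max_left _ _) (le_max_left _ _)) ht
  have htb : t2 ≤ t := le_trans (le_trans (le_max_right _ _) (le_max_left _ _)) ht
  have htc : t3 ≤ t := le_trans (le_trans (le_max_left _ _) (le_max_right _ _)) ht
  have htd : 11 + 4 * C ≤ t := le_trans (le_trans (le_max_right _ _) (le_max_right _ _)) ht
  have hprime : ∀ p ∈ P, p.Prime := fun p hp => (mem_med.1 (hP hp)).2.1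
  set k : ℕ := (t + h - 1) / h with hk
  have hk1 : t ≤ h * k := by
    have h1 : (t + h - 1) % h < h := Nat.mod_lt _ (by omega)
    have h2 := Nat.div_add_mod (t + h - 1) h
    rw [← hk] at h2
    omega
  have hk2 : 4 * k ≤ t + 3 := by
    have h2 : h * k ≤ t + h - 1 := by
      rw [hk]; exact Nat.mul_div_le _ _
    have hk0 : 1 ≤ k := by
      rcases Nat.eq_zero_or_pos k with h0 | h0
      · rw [h0] at hk1; omega
      · exact h0
    have h3 : (h - 4) * (k - 1) + 4 * k ≤ h * k - (h - 4) := by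
      obtain ⟨a, rfl⟩ := Nat.exists_eq_add_of_le hh
      obtain ⟨b, hb⟩ := Nat.exists_eq_add_of_le hk0
      rw [hb]
      simp only [Nat.add_sub_cancel_left]
      have : (4 + a) * (1 + b) = 4 * (1 + b) + a * b + a := by ring
      omega
    omega
  have hk0 : 1 ≤ k := by
    rcases Nat.eq_zero_or_pos k with h0 | h0
    · rw [h0] at hk1; omega
    · exact h0
  -- the count
  have hA : cs (range N) (fun m => t ≤ h * cs P (fun p => K p m)) ≤
      cs (range N) (fun m => k ≤ cs P (fun p => K p m)) := by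
    refine cs_mono fun m _ hm => ?_
    have h1 : t + h - 1 < h * (cs P (fun p => K p m) + 1) := by
      have : h * (cs P (fun p => K p m) + 1) = h * cs P (fun p => K p m) + h := by ring
      omega
    rw [hk]
    exact Nat.lt_succ_iff.1 ((Nat.div_lt_iff_lt_mul (by omega)).2 (by rw [mul_comm]; exact h1))
  have hB := rare_count P hprime K hK hK2 N k
  -- first term
  have hk0' : (0 : ℝ) < k := by exact_mod_cast hk0
  have hS : ∑ p ∈ P, 2 / (p : ℝ) ≤ 2 * (g * Real.log t) := by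
    have h1 : ∑ p ∈ P, 1 / (p : ℝ) ≤ ∑ p ∈ med g t, 1 / (p : ℝ) :=
      sum_le_sum_of_subset_of_nonneg hP fun p _ _ => by positivity
    have h2 := ht1 t hta
    have h3 : ∑ p ∈ P, 2 / (p : ℝ) = 2 * ∑ p ∈ P, 1 / (p : ℝ) := by
      rw [mul_sum]; exact sum_congr rfl fun p _ => by ring
    rw [h3]; linarith
  have hS0 : 0 ≤ ∑ p ∈ P, 2 / (p : ℝ) := sum_nonneg fun p _ => by positivity
  have hSk : (∑ p ∈ P, 2 / (p : ℝ)) * Real.exp 2 ≤ k := by
    have h1 := ht2 t htb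
    have h2 : (t : ℝ) ≤ h * k := by exact_mod_cast hk1
    have h3 : (h : ℝ) * ((∑ p ∈ P, 2 / (p : ℝ)) * Real.exp 2) ≤ h * k := by
      calc (h : ℝ) * ((∑ p ∈ P, 2 / (p : ℝ)) * Real.exp 2)
          ≤ h * ((2 * (g * Real.log t)) * Real.exp 2) := by gcongr
        _ = 2 * g * Real.exp 2 * h * Real.log t := by ring
        _ ≤ t := h1
        _ ≤ h * k := h2
    exact le_of_mul_le_mul_left h3 hh0
  have hfac : (∑ p ∈ P, 2 / (p : ℝ)) ^ k / (k.factorial : ℝ) ≤ Real.exp (-k) := by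
    have hf0 : (0 : ℝ) < (k.factorial : ℝ) := by exact_mod_cast Nat.factorial_pos k
    have h1 : (k : ℝ) ^ k / (k.factorial : ℝ) ≤ Real.exp k :=
      Real.pow_div_factorial_le_exp (k : ℝ) hk0'.le k
    have h2 : (∑ p ∈ P, 2 / (p : ℝ)) ≤ k * Real.exp (-2) := by
      rw [Real.exp_neg, ← div_eq_mul_inv, le_div_iff₀ (Real.exp_pos 2)]
      exact hSk
    calc (∑ p ∈ P, 2 / (p : ℝ)) ^ k / (k.factorial : ℝ)
        ≤ ((k : ℝ) * Real.exp (-2)) ^ k / (k.factorial : ℝ) := by gcongr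
      _ = Real.exp (-2) ^ k * ((k : ℝ) ^ k / (k.factorial : ℝ)) := by rw [mul_pow]; ring
      _ ≤ Real.exp (-2) ^ k * Real.exp k := by gcongr
      _ = Real.exp (-k) := by
        rw [← Real.exp_nat_mul, ← Real.exp_add]
        congr 1; ring
  have hT : 2 * (t : ℝ) ^ C * Real.exp (-k) ≤ 1 := by
    have h1 := ht3 t htc
    have h2 : (1 / (h : ℝ)) * t ≤ k := by
      rw [one_div_mul_eq_div, div_le_iff₀ hh0, mul_comm]
      exact_mod_cast hk1
    have h3 : 2 * (t : ℝ) ^ C ≤ Real.exp k := h1.trans (Real.exp_le_exp.2 h2)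
    rw [Real.exp_neg, ← div_eq_mul_inv, div_le_one (Real.exp_pos _)]
    exact h3
  -- second term
  have hcard : P.card ≤ 2 ^ (t ^ (4 * g - 1)) := by
    refine le_trans (card_le_card (hP.trans (sel_subset _ _))) ?_
    rw [Nat.card_Ioc]; exact Nat.sub_le _ _
  have hsec : 2 * (P.card ^ k * 2 ^ k * t ^ C) ≤ N := by
    have h1 : P.card ^ k * 2 ^ k ≤ 2 ^ ((t ^ (4 * g - 1) + 1) * k) := by
      calc P.card ^ k * 2 ^ k ≤ (2 ^ (t ^ (4 * g - 1))) ^ k * 2 ^ k :=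
            Nat.mul_le_mul_right _ (Nat.pow_le_pow_left hcard k)
        _ = 2 ^ ((t ^ (4 * g - 1) + 1) * k) := by
            rw [← mul_pow, ← pow_succ, ← pow_mul]
    have h2 : t ^ C ≤ 2 ^ (C * t) := by
      rw [mul_comm, pow_mul]
      exact Nat.pow_le_pow_left (Nat.lt_two_pow_self).le C
    have h3 : 2 * (P.card ^ k * 2 ^ k * t ^ C) ≤ 2 ^ (1 + (t ^ (4 * g - 1) + 1) * k + C * t) := by
      calc 2 * (P.card ^ k * 2 ^ k * t ^ C)
          ≤ 2 * (2 ^ ((t ^ (4 * g - 1) + 1) * k) * 2 ^ (C * t)) :=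
            Nat.mul_le_mul_left _ (Nat.mul_le_mul h1 h2)
        _ = 2 ^ (1 + (t ^ (4 * g - 1) + 1) * k + C * t) := by ring
    have h4 : 4 * (1 + (t ^ (4 * g - 1) + 1) * k + C * t) ≤ 3 * t ^ (4 * g) := by
      have e1 : t ^ (4 * g) = t * t ^ (4 * g - 1) := by
        rw [← pow_succ']; congr 1; omega
      have e2 : t ≤ t ^ (4 * g - 1) := Nat.le_self_pow (by omega) t
      set u := t ^ (4 * g - 1) with hu
      rw [e1]
      have e3 : 4 * ((u + 1) * k) ≤ (u + 1) * (t + 3) := by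
        calc 4 * ((u + 1) * k) = (u + 1) * (4 * k) := by ring
          _ ≤ (u + 1) * (t + 3) := Nat.mul_le_mul_left _ hk2
      have e4 : (11 + 4 * C) * u ≤ t * u := Nat.mul_le_mul_right _ htd
      have e5 : 4 * (C * t) ≤ 4 * (C * u) :=
        Nat.mul_le_mul_left _ (Nat.mul_le_mul_left _ e2)
      nlinarith
    have h5 : (2 * (P.card ^ k * 2 ^ k * t ^ C)) ^ 4 ≤ N ^ 4 := by
      calc (2 * (P.card ^ k * 2 ^ k * t ^ C)) ^ 4
          ≤ (2 ^ (1 + (t ^ (4 * g - 1) + 1) * k + C * t)) ^ 4 := Nat.pow_le_pow_left h3 4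
        _ = 2 ^ (4 * (1 + (t ^ (4 * g - 1) + 1) * k + C * t)) := by rw [← pow_mul, mul_comm]
        _ ≤ 2 ^ (3 * t ^ (4 * g)) := Nat.pow_le_pow_right (by norm_num) h4
        _ = AA g t ^ 3 := by unfold AA; rw [← pow_mul, mul_comm]
        _ ≤ N ^ 4 := hN
    exact (Nat.pow_le_pow_iff_left (by norm_num)).1 h5
  -- assembly
  have hsec' : 2 * ((P.card : ℝ) ^ k * 2 ^ k * (t : ℝ) ^ C) ≤ N := by exact_mod_cast hsec
  have hfin : (cs (range N) (fun m => t ≤ h * cs P (fun p => K p m)) : ℝ) * (t : ℝ) ^ C ≤ N := by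
    have hA' : (cs (range N) (fun m => t ≤ h * cs P (fun p => K p m)) : ℝ) ≤
      cs (range N) (fun m => k ≤ cs P (fun p => K p m)) := by exact_mod_cast hA
    have hN0 : (0 : ℝ) ≤ N := Nat.cast_nonneg N
    have htC : (0 : ℝ) ≤ (t : ℝ) ^ C := by positivity
    calc (cs (range N) (fun m => t ≤ h * cs P (fun p => K p m)) : ℝ) * (t : ℝ) ^ C
        ≤ (N * Real.exp (-k) + (P.card : ℝ) ^ k * 2 ^ k) * (t : ℝ) ^ C := by
          refine mul_le_mul_of_nonneg_right ?_ htC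
          refine hA'.trans (hB.trans ?_)
          have := mul_le_mul_of_nonneg_left hfac hN0
          linarith
      _ = N / 2 * (2 * (t : ℝ) ^ C * Real.exp (-k)) + (P.card : ℝ) ^ k * 2 ^ k * (t : ℝ) ^ C := by
          ring
      _ ≤ N / 2 * 1 + N / 2 := by
          have := mul_le_mul_of_nonneg_left hT (show (0 : ℝ) ≤ N / 2 by positivity)
          linarith
      _ = N := by ring
  exact_mod_cast hfin

end Pool.Agent.H17.RP
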