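import Pool.Agent.H17.RP.Dom1
import Pool.Agent.H17.RP.Rare
import Pool.Agent.H17.RP.Model

/-!
# Dom: domination by the model

`P ⊆ med g t`; for `j < s`, `p ∈ P`: `K j p` periodic modulo `p` with exactly two classes, and the
classes of different `j` are disjoint.  `D_j(m) = {p ∈ P : K j p m}`.  Then
`#{m < N : 𝓑 j (D_j(m)) for all j} ≤ N (2 ∏_j Pr P (𝓑 j) + t^(-C))` for `N^4 ≥ A^3`, `t ≥ t0(g,s,C)`.

Proof. `s = 0` is trivial (`∏ = 1`).  By `rare` (`h = 8s`, with `C + s + 2`) we may restrict to `m` with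
`8 s |D_j(m)| < t` for all `j` (cost `s N/t^(C+s+2)`).  Sum `dom_tuple` over the tuples `(D_j)` of
subsets of `P` with `𝓑 j D_j`: `Σ ∏_j pr P (D_j) = ∏_j Pr P (𝓑 j)` (`Finset.prod_univ_sum`,
`Fintype.piFinset`), and `Σ ∏_j ∏_(p∈D_j) (2/p) ≤ (∏_(p∈P) (1 + 2/p))^s ≤ t^(2gs)` (`med_up`), times
`2N/2^t`: at most `N/(2 t^C)`.
-/

set_option autoImplicit false

namespace Pool.Agent.H17.RP

open Finset

private theorem dom_ev (k : ℕ) : ∃ t0 : ℕ, ∀ t ≥ t0, 4 * (t : ℝ) ^ k ≤ 2 ^ t := by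
  have h := tendsto_pow_const_div_const_pow_of_one_lt k (show (1 : ℝ) < 2 by norm_num)
  have h2 := h.eventually (Iio_mem_nhds (show (0 : ℝ) < 1 / 4 by norm_num))
  obtain ⟨t0, ht0⟩ := Filter.eventually_atTop.1 h2
  refine ⟨t0, fun t ht => ?_⟩
  have h3 : (t : ℝ) ^ k / 2 ^ t < 1 / 4 := ht0 t ht
  have h4 : (0 : ℝ) < 2 ^ t := by positivity
  rw [div_lt_iff₀ h4] at h3
  linarith

private theorem sum_pow_le (g t : ℕ) (ht : 1 ≤ t) (P : Finset ℕ) (hP : P ⊆ med g t)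
    (hm : ∑ p ∈ med g t, 1 / (p : ℝ) ≤ g * Real.log t) :
    ∑ D ∈ P.powerset, ∏ p ∈ D, (2 / (p : ℝ)) ≤ (t : ℝ) ^ (2 * g) := by
  classical
  rw [← Finset.prod_one_add]
  have ht0 : (0 : ℝ) < t := by exact_mod_cast ht
  have h1 : ∏ p ∈ P, (1 + 2 / (p : ℝ)) ≤ Real.exp (∑ p ∈ P, 2 / (p : ℝ)) := by
    rw [Real.exp_sum]
    refine prod_le_prod (fun p _ => by positivity) fun p _ => ?_
    have := Real.add_one_le_exp (2 / (p : ℝ))
    linarith
  have h2 : ∑ p ∈ P, 2 / (p : ℝ) ≤ ((2 * g : ℕ) : ℝ) * Real.log t := by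
    have h3 : ∑ p ∈ P, 1 / (p : ℝ) ≤ ∑ p ∈ med g t, 1 / (p : ℝ) :=
      sum_le_sum_of_subset_of_nonneg hP fun p _ _ => by positivity
    have h4 : ∑ p ∈ P, 2 / (p : ℝ) = 2 * ∑ p ∈ P, 1 / (p : ℝ) := by
      rw [mul_sum]; exact sum_congr rfl fun p _ => by ring
    rw [h4]
    push_cast
    linarith
  calc ∏ p ∈ P, (1 + 2 / (p : ℝ)) ≤ Real.exp (∑ p ∈ P, 2 / (p : ℝ)) := h1
    _ ≤ Real.exp (((2 * g : ℕ) : ℝ) * Real.log t) := Real.exp_le_exp.2 h2
    _ = (t : ℝ) ^ (2 * g) := by rw [Real.exp_nat_mul, Real.exp_log ht0]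

theorem dom (g s C : ℕ) (hg : 1 ≤ g) : ∃ t0 : ℕ, ∀ t ≥ t0, ∀ P ⊆ med g t,
    ∀ K : Fin s → ℕ → ℕ → Prop, (∀ j, ∀ p ∈ P, ∀ m, K j p (m + p) ↔ K j p m) →
    (∀ j, ∀ p ∈ P, cs (range p) (K j p) = 2) →
    (∀ i j, i ≠ j → ∀ p ∈ P, ∀ m, ¬ (K i p m ∧ K j p m)) →
    ∀ N : ℕ, AA g t ^ 3 ≤ N ^ 4 → ∀ 𝓑 : Fin s → Finset ℕ → Prop,
    (cs (range N) (fun m => ∀ j, 𝓑 j (sel P (fun p => K j p m))) : ℝ) ≤
      N * (2 * ∏ j, Pr P (𝓑 j) + 1 / (t : ℝ) ^ C) := by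
  classical
  rcases Nat.eq_zero_or_pos s with rfl | hs
  · refine ⟨1, ?_⟩
    intro t ht P _ K _ _ _ N _ 𝓑
    have h1 : (cs (range N) (fun m => ∀ j, 𝓑 j (sel P (fun p => K j p m))) : ℝ) ≤ N := by
      have := cs_le_card (range N) (fun m => ∀ j, 𝓑 j (sel P (fun p => K j p m)))
      rw [card_range] at this
      exact_mod_cast this
    have h2 : (0 : ℝ) ≤ 1 / (t : ℝ) ^ C := by positivity
    have h3 : (0 : ℝ) ≤ N := Nat.cast_nonneg N
    rw [univ_eq_empty, prod_empty]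
    have h4 : (N : ℝ) * 1 ≤ N * (2 * 1 + 1 / (t : ℝ) ^ C) :=
      mul_le_mul_of_nonneg_left (by linarith) h3
    linarith
  obtain ⟨t1, ht1⟩ := dom_tuple g s hg hs
  obtain ⟨t2, ht2⟩ := rare g (8 * s) (C + 1) hg (by omega)
  obtain ⟨t3, ht3⟩ := med_up g hg
  obtain ⟨t4, ht4⟩ := dom_ev (2 * g * s + C)
  refine ⟨max (max t1 t2) (max (max t3 t4) (2 * s)), ?_⟩
  intro t ht P hP K hper htwo hdisj N hN 𝓑
  have hta : t1 ≤ t := le_trans (le_trans (le_max_left _ _) (le_max_left _ _)) ht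
  have htb : t2 ≤ t := le_trans (le_trans (le_max_right _ _) (le_max_left _ _)) ht
  have htc : t3 ≤ t := le_trans (le_trans (le_trans (le_max_left _ _) (le_max_left _ _))
    (le_max_right _ _)) ht
  have htd : t4 ≤ t := le_trans (le_trans (le_trans (le_max_right _ _) (le_max_left _ _))
    (le_max_right _ _)) ht
  have hte : 2 * s ≤ t := le_trans (le_trans (le_max_right _ _) (le_max_right _ _)) ht
  have ht0 : (0 : ℝ) < t := by
    have : 0 < t := by omega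
    exact_mod_cast this
  have hN0 : (0 : ℝ) ≤ N := Nat.cast_nonneg N
  set S : Finset (Fin s → Finset ℕ) := Fintype.piFinset (fun j => sel P.powerset (𝓑 j)) with hS
  set T : Finset (Fin s → Finset ℕ) := S.filter (fun D => ∀ j, 8 * s * (D j).card ≤ t) with hT
  have hSP : ∀ D ∈ S, ∀ j, D j ⊆ P := by
    intro D hD j
    have := (mem_sel.1 (Fintype.mem_piFinset.1 hD j)).1
    exact mem_powerset.1 this
  have hsplit : cs (range N) (fun m => ∀ j, 𝓑 j (sel P (fun p => K j p m))) ≤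
      cs (range N) (fun m => ∃ j ∈ (univ : Finset (Fin s)),
        t ≤ 8 * s * cs P (fun p => K j p m)) +
      cs (range N) (fun m => ∃ D ∈ T, ∀ j, sel P (fun p => K j p m) = D j) := by
    refine le_trans (cs_mono fun m _ hm => ?_) (cs_or _ _ _)
    by_cases hb : ∃ j ∈ (univ : Finset (Fin s)), t ≤ 8 * s * cs P (fun p => K j p m)
    · exact Or.inl hb
    · right
      push Not at hb
      refine ⟨fun j => sel P (fun p => K j p m), ?_, fun j => rfl⟩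
      rw [hT, mem_filter]
      refine ⟨?_, fun j => (hb j (mem_univ j)).le⟩
      rw [hS, Fintype.mem_piFinset]
      intro j
      rw [mem_sel, mem_powerset]
      exact ⟨sel_subset _ _, hm j⟩
  have hA : (cs (range N) (fun m => ∃ j ∈ (univ : Finset (Fin s)),
      t ≤ 8 * s * cs P (fun p => K j p m)) : ℝ) ≤ s * (N / (t : ℝ) ^ (C + 1)) := by
    have h1 : (cs (range N) (fun m => ∃ j ∈ (univ : Finset (Fin s)),
        t ≤ 8 * s * cs P (fun p => K j p m)) : ℝ) ≤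
        ∑ j : Fin s, (cs (range N) (fun m => t ≤ 8 * s * cs P (fun p => K j p m)) : ℝ) := by
      exact_mod_cast cs_exists (range N) (univ : Finset (Fin s)) (fun j m => t ≤ 8 * s *
        cs P (fun p => K j p m))
    refine h1.trans ?_
    have h2 : ∀ j : Fin s, (cs (range N) (fun m => t ≤ 8 * s * cs P (fun p => K j p m)) : ℝ) ≤
        N / (t : ℝ) ^ (C + 1) := by
      intro j
      have h3 := ht2 t htb P hP (K j) (hper j) (fun p hp => (htwo j p hp).le) N hN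
      rw [le_div_iff₀ (by positivity)]
      exact_mod_cast h3
    calc ∑ j : Fin s, (cs (range N) (fun m => t ≤ 8 * s * cs P (fun p => K j p m)) : ℝ)
        ≤ ∑ _j : Fin s, N / (t : ℝ) ^ (C + 1) := sum_le_sum fun j _ => h2 j
      _ = s * (N / (t : ℝ) ^ (C + 1)) := by
        rw [sum_const, card_univ, Fintype.card_fin, nsmul_eq_mul]
  have hprime : ∀ p ∈ P, p.Prime := fun p hp => (mem_med.1 (hP hp)).2.1
  have hpr0 : ∀ D ⊆ P, 0 ≤ pr P D := fun D hD => pr_nonneg (fun p hp => (hprime p hp).two_le) hD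
  have hB : (cs (range N) (fun m => ∃ D ∈ T, ∀ j, sel P (fun p => K j p m) = D j) : ℝ) ≤
      2 * N * ∏ j, Pr P (𝓑 j) + 2 * N / 2 ^ t * ((t : ℝ) ^ (2 * g)) ^ s := by
    have h1 : (cs (range N) (fun m => ∃ D ∈ T, ∀ j, sel P (fun p => K j p m) = D j) : ℝ) ≤
        ∑ D ∈ T, (cs (range N) (fun m => ∀ j, sel P (fun p => K j p m) = D j) : ℝ) := by
      exact_mod_cast cs_exists (range N) T (fun D m => ∀ j, sel P (fun p => K j p m) = D j)
    refine h1.trans ?_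
    have h2 : ∑ D ∈ T, (cs (range N) (fun m => ∀ j, sel P (fun p => K j p m) = D j) : ℝ) ≤
        ∑ D ∈ T, (2 * N * ∏ j, pr P (D j) + 2 * N / 2 ^ t * ∏ j, ∏ p ∈ D j, (2 / (p : ℝ))) := by
      refine sum_le_sum fun D hD => ?_
      rw [hT, mem_filter] at hD
      exact ht1 t hta P hP K hper htwo hdisj N hN D (hSP D hD.1) hD.2
    refine h2.trans ?_
    rw [sum_add_distrib, ← mul_sum, ← mul_sum]
    have h3 : ∑ D ∈ T, ∏ j, pr P (D j) ≤ ∏ j, Pr P (𝓑 j) := by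
      have e1 : ∏ j, Pr P (𝓑 j) = ∑ D ∈ S, ∏ j, pr P (D j) := by
        unfold Pr
        rw [hS, prod_univ_sum]
      rw [e1]
      refine sum_le_sum_of_subset_of_nonneg (filter_subset _ _) fun D hD _ => ?_
      exact prod_nonneg fun j _ => hpr0 _ (hSP D hD j)
    have h4 : ∑ D ∈ T, ∏ j, ∏ p ∈ D j, (2 / (p : ℝ)) ≤ ((t : ℝ) ^ (2 * g)) ^ s := by
      have e1 : ∑ D ∈ T, ∏ j, ∏ p ∈ D j, (2 / (p : ℝ)) ≤
          ∑ D ∈ Fintype.piFinset (fun _ : Fin s => P.powerset), ∏ j, ∏ p ∈ D j, (2 / (p : ℝ)) := by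
        refine sum_le_sum_of_subset_of_nonneg ?_ fun D _ _ => ?_
        · intro D hD
          rw [hT, mem_filter] at hD
          rw [Fintype.mem_piFinset]
          exact fun j => mem_powerset.2 (hSP D hD.1 j)
        · exact prod_nonneg fun j _ => prod_nonneg fun p _ => by positivity
      have e2 : ∑ D ∈ Fintype.piFinset (fun _ : Fin s => P.powerset),
          ∏ j, ∏ p ∈ D j, (2 / (p : ℝ)) =
          ∏ _j : Fin s, ∑ D ∈ P.powerset, ∏ p ∈ D, (2 / (p : ℝ)) := by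
        rw [prod_univ_sum]
      rw [e2, prod_const, card_univ, Fintype.card_fin] at e1
      refine e1.trans ?_
      refine pow_le_pow_left₀ (sum_nonneg fun D _ => prod_nonneg fun p _ => by positivity) ?_ s
      exact sum_pow_le g t (by omega) P hP (ht3 t htc)
    have h5 : (0 : ℝ) ≤ 2 * N / 2 ^ t := by positivity
    exact add_le_add (mul_le_mul_of_nonneg_left h3 (by positivity))
      (mul_le_mul_of_nonneg_left h4 h5)
  have hfin1 : (s : ℝ) * (N / (t : ℝ) ^ (C + 1)) ≤ N * (1 / 2 * (1 / (t : ℝ) ^ C)) := by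
    have h1 : (2 * s : ℝ) ≤ t := by exact_mod_cast hte
    have h2 : (s : ℝ) / (t : ℝ) ^ (C + 1) ≤ 1 / 2 * (1 / (t : ℝ) ^ C) := by
      rw [div_le_iff₀ (by positivity)]
      have h3 : 1 / 2 * (1 / (t : ℝ) ^ C) * (t : ℝ) ^ (C + 1) = t / 2 := by
        rw [pow_succ]; field_simp
      rw [h3]; linarith
    calc (s : ℝ) * (N / (t : ℝ) ^ (C + 1)) = N * (s / (t : ℝ) ^ (C + 1)) := by ring
      _ ≤ N * (1 / 2 * (1 / (t : ℝ) ^ C)) := mul_le_mul_of_nonneg_left h2 hN0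
  have hfin2 : 2 * (N : ℝ) / 2 ^ t * ((t : ℝ) ^ (2 * g)) ^ s ≤
      N * (1 / 2 * (1 / (t : ℝ) ^ C)) := by
    have h1 := ht4 t htd
    have h2 : 2 / (2 : ℝ) ^ t * ((t : ℝ) ^ (2 * g)) ^ s ≤ 1 / 2 * (1 / (t : ℝ) ^ C) := by
      rw [← pow_mul, div_mul_eq_mul_div, div_le_iff₀ (by positivity)]
      have h3 : 1 / 2 * (1 / (t : ℝ) ^ C) * 2 ^ t = (2 ^ t / 2) / (t : ℝ) ^ C := by
        field_simp
      rw [h3, le_div_iff₀ (by positivity)]
      have h4 : 2 * (t : ℝ) ^ (2 * g * s) * (t : ℝ) ^ C = 2 * (t : ℝ) ^ (2 * g * s + C) := by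
        rw [pow_add]; ring
      rw [h4]; linarith
    calc 2 * (N : ℝ) / 2 ^ t * ((t : ℝ) ^ (2 * g)) ^ s
        = N * (2 / (2 : ℝ) ^ t * ((t : ℝ) ^ (2 * g)) ^ s) := by ring
      _ ≤ N * (1 / 2 * (1 / (t : ℝ) ^ C)) := mul_le_mul_of_nonneg_left h2 hN0
  have hcast : (cs (range N) (fun m => ∀ j, 𝓑 j (sel P (fun p => K j p m))) : ℝ) ≤
      (cs (range N) (fun m => ∃ j ∈ (univ : Finset (Fin s)),
        t ≤ 8 * s * cs P (fun p => K j p m)) : ℝ) +
      (cs (range N) (fun m => ∃ D ∈ T, ∀ j, sel P (fun p => K j p m) = D j) : ℝ) := by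
    exact_mod_cast hsplit
  have e : (N : ℝ) * (2 * ∏ j, Pr P (𝓑 j) + 1 / (t : ℝ) ^ C) =
      N * (1 / 2 * (1 / (t : ℝ) ^ C)) + (2 * N * ∏ j, Pr P (𝓑 j) +
        N * (1 / 2 * (1 / (t : ℝ) ^ C))) := by ring
  rw [e]
  linarith

end Pool.Agent.H17.RP
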