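import Pool.Agent.H17.RP.Basic
import Pool.Agent.H41.SF.Mertens

/-!
# MedSum: the sum of `1/p` over the medium primes

`Σ_(p ∈ med g t) 1/p = (1/2) log (log y2/log y1) + O(1/log y1) = (g - 1/2) log t + o(1)`,
`y1 = 2^(t^(2g))`, `y2 = 2^(t^(4g-1))`.  `mertens_AP` (`H41/SF/Mertens.lean`, `q = 3`, `a = 1`) gives
`Σ_(p ≤ N, p = 1 mod 3) (log p)/p = (1/2) log N + O(1)`; Abel summation with the weight `1/log x`.
`med_tail`: a set of at most `t^E` primes of `med` has small `Σ 2/p` (each is `> 2^(t^(2g))`), so the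
lower bound remains true for `P ⊆ med` with at most `t^E` elements missing.
-/

set_option autoImplicit false

namespace Pool.Agent.H17.RP

open Finset

theorem mem_med {g t p : ℕ} : p ∈ med g t ↔
    (2 ^ (t ^ (2 * g)) < p ∧ p ≤ 2 ^ (t ^ (4 * g - 1))) ∧ p.Prime ∧ p % 3 = 1 := by
  unfold med
  rw [mem_sel, mem_Ioc]

/-- Abel summation bound -/
private theorem mS_abel_le {c g : ℕ → ℝ} {B : ℕ} {M : ℝ} (hM : 0 ≤ M)
    (hc : ∀ N, B ≤ N → |∑ n ∈ Ioc B N, c n| ≤ M) (hg : ∀ n, B < n → 0 ≤ g n)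
    (hanti : ∀ n, B < n → g (n + 1) ≤ g n) (N : ℕ) (hN : B ≤ N) :
    |∑ n ∈ Ioc B N, c n * g n| ≤ M * g (B + 1) := by
  have key : ∀ k : ℕ, |∑ n ∈ Ioc B (B + k), c n * g n - (∑ n ∈ Ioc B (B + k), c n) * g (B + k + 1)| ≤
      M * (g (B + 1) - g (B + k + 1)) := by
    intro k
    induction k with
    | zero => simp
    | succ k ih =>
      have e1 : ∀ f : ℕ → ℝ, ∑ n ∈ Ioc B (B + (k + 1)), f n =
          ∑ n ∈ Ioc B (B + k), f n + f (B + k + 1) := by
        intro f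
        rw [← add_assoc, Finset.sum_Ioc_succ_top (by omega)]
      have hA := hc (B + (k + 1)) (by omega)
      rw [e1 (fun n => c n * g n)]
      set A := ∑ n ∈ Ioc B (B + k), c n with hAdef
      set A' := ∑ n ∈ Ioc B (B + (k + 1)), c n with hA'
      have e2 : A' = A + c (B + k + 1) := e1 _
      have e3 : ∑ n ∈ Ioc B (B + k), c n * g n + c (B + k + 1) * g (B + k + 1) -
          A' * g (B + (k + 1) + 1) =
          (∑ n ∈ Ioc B (B + k), c n * g n - A * g (B + k + 1)) +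
          A' * (g (B + k + 1) - g (B + (k + 1) + 1)) := by
        rw [e2]; ring
      rw [e3]
      have hdec : 0 ≤ g (B + k + 1) - g (B + (k + 1) + 1) := by
        rw [sub_nonneg]
        exact hanti (B + k + 1) (by omega)
      calc _ ≤ |∑ n ∈ Ioc B (B + k), c n * g n - A * g (B + k + 1)| +
          |A' * (g (B + k + 1) - g (B + (k + 1) + 1))| := abs_add_le _ _
        _ ≤ M * (g (B + 1) - g (B + k + 1)) +
          M * (g (B + k + 1) - g (B + (k + 1) + 1)) := by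
            gcongr
            rw [abs_mul, abs_of_nonneg hdec]
            gcongr
        _ = _ := by ring
  obtain ⟨k, rfl⟩ : ∃ k, N = B + k := ⟨N - B, by omega⟩
  have h1 := key k
  have h2 := hc (B + k) (by omega)
  have hg0 := hg (B + k + 1) (by omega)
  have e : ∑ n ∈ Ioc B (B + k), c n * g n = (∑ n ∈ Ioc B (B + k), c n * g n -
    (∑ n ∈ Ioc B (B + k), c n) * g (B + k + 1)) +
    (∑ n ∈ Ioc B (B + k), c n) * g (B + k + 1) := by ring
  rw [e]
  calc _ ≤ _ := abs_add_le _ _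
    _ ≤ M * (g (B + 1) - g (B + k + 1)) + M * g (B + k + 1) := by
        apply add_le_add h1
        rw [abs_mul, abs_of_nonneg hg0]
        gcongr
    _ = _ := by ring

/-- the main term -/
private theorem mS_loglog_sum (B : ℕ) (hB : 2 ≤ B) (N : ℕ) (hN : B ≤ N) :
    |∑ n ∈ Ioc B N, (Real.log n - Real.log (n - 1 : ℕ)) * (Real.log n)⁻¹ -
      (Real.log (Real.log N) - Real.log (Real.log B))| ≤ (Real.log B)⁻¹ - (Real.log N)⁻¹ := by
  obtain ⟨k, rfl⟩ : ∃ k, N = B + k := ⟨N - B, by omega⟩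
  induction k with
  | zero => simp
  | succ k ih =>
    rw [← add_assoc, Finset.sum_Ioc_succ_top (by omega)]
    have hx : (2 : ℝ) ≤ ((B + k : ℕ) : ℝ) := by exact_mod_cast (by omega : 2 ≤ B + k)
    set y := Real.log ((B + k : ℕ) : ℝ) with hy
    set x := Real.log ((B + k + 1 : ℕ) : ℝ) with hxd
    have hy0 : 0 < y := Real.log_pos (by linarith)
    have hyx : y < x := Real.log_lt_log (by linarith) (by push_cast; linarith)
    have hx0 : 0 < x := hy0.trans hyx
    have hd : x - y ≤ 1 := by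
      rw [hxd, hy, ← Real.log_div (by positivity) (by positivity)]
      have h1 := Real.log_le_sub_one_of_pos (x := ((B + k + 1 : ℕ) : ℝ) / ((B + k : ℕ) : ℝ)) (by positivity)
      have h2 : ((B + k + 1 : ℕ) : ℝ) / ((B + k : ℕ) : ℝ) - 1 = 1 / ((B + k : ℕ) : ℝ) := by
        push_cast
        field_simp
        ring
      have h3 : 1 / ((B + k : ℕ) : ℝ) ≤ 1 := by
        rw [div_le_one (by positivity)]; linarith
      linarith
    have e : (B + k + 1 - 1 : ℕ) = B + k := by omega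
    rw [e]
    have hll : Real.log x - Real.log y ≤ (x - y) * y⁻¹ := by
      rw [← Real.log_div hx0.ne' hy0.ne']
      have h1 := Real.log_le_sub_one_of_pos (x := x / y) (by positivity)
      have h2 : x / y - 1 = (x - y) * y⁻¹ := by field_simp
      linarith
    have hll2 : (x - y) * x⁻¹ ≤ Real.log x - Real.log y := by
      rw [← Real.log_div hx0.ne' hy0.ne']
      have h1 := Real.one_sub_inv_le_log_of_pos (x := x / y) (by positivity)
      have h2 : 1 - (x / y)⁻¹ = (x - y) * x⁻¹ := by field_simp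
      linarith
    have h3 : (x - y) * y⁻¹ - (x - y) * x⁻¹ ≤ y⁻¹ - x⁻¹ := by
      have h4 : 0 ≤ y⁻¹ - x⁻¹ := by
        rw [sub_nonneg]
        exact inv_anti₀ hy0 hyx.le
      nlinarith
    have ih' := ih (by omega)
    have e2 : ∑ n ∈ Ioc B (B + k), (Real.log n - Real.log (n - 1 : ℕ)) * (Real.log n)⁻¹ +
        (x - y) * x⁻¹ - (Real.log x - Real.log (Real.log B)) =
        (∑ n ∈ Ioc B (B + k), (Real.log n - Real.log (n - 1 : ℕ)) * (Real.log n)⁻¹ -
          (Real.log y - Real.log (Real.log B))) - ((Real.log x - Real.log y) - (x - y) * x⁻¹) := by ring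
    rw [e2]
    calc _ ≤ _ := abs_sub _ _
      _ ≤ ((Real.log B)⁻¹ - y⁻¹) + (y⁻¹ - x⁻¹) := by
          apply add_le_add ih'
          rw [abs_of_nonneg (by linarith)]
          linarith
      _ = _ := by ring

/-- Mertens' theorem for `p = 1 mod 3` in a window -/
private theorem mS_window : ∃ C : ℝ, 0 ≤ C ∧ ∀ y x : ℕ, 1 ≤ y → y ≤ x →
    |∑ p ∈ (Ioc y x).filter (fun p => p.Prime ∧ p % 3 = 1), Real.log p / p -
      (Real.log x - Real.log y) / 2| ≤ C := by
  obtain ⟨C, hC, h⟩ := Pool.Agent.H41.SF.mertens_AP (q := 3) (a := 1) isUnit_one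
  refine ⟨2 * C, by linarith, fun y x hy hyx => ?_⟩
  have hf : ∀ N : ℕ, (Ioc 0 N).filter (fun p : ℕ => p.Prime ∧ (p : ZMod 3) = 1) =
      (Ioc 0 N).filter (fun p : ℕ => p.Prime ∧ p % 3 = 1) := by
    intro N
    refine Finset.filter_congr fun p _ => ?_
    have : ((p : ZMod 3) = 1) ↔ p % 3 = 1 := by
      have h1 := ZMod.natCast_eq_natCast_iff' p 1 3
      simpa using h1
    rw [this]
  have h1 := h y hy
  have h2 := h x (hy.trans hyx)
  rw [hf] at h1 h2
  have htot : ((3 : ℕ).totient : ℝ) = 2 := by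
    have : (3 : ℕ).totient = 2 := by decide
    rw [this]; norm_num
  rw [htot] at h1 h2
  have h3 : ∑ p ∈ (Ioc 0 x).filter (fun p => p.Prime ∧ p % 3 = 1), Real.log p / p
      = ∑ p ∈ (Ioc 0 y).filter (fun p => p.Prime ∧ p % 3 = 1), Real.log p / p
        + ∑ p ∈ (Ioc y x).filter (fun p => p.Prime ∧ p % 3 = 1), Real.log p / p := by
    rw [← Finset.sum_union]
    · congr 1
      rw [← Finset.filter_union, Finset.Ioc_union_Ioc_eq_Ioc (Nat.zero_le y) hyx]
    · refine Finset.disjoint_filter_filter ?_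
      rw [Finset.disjoint_left]
      intro p hp1 hp2
      rw [Finset.mem_Ioc] at hp1 hp2
      omega
  rw [abs_le] at h1 h2 ⊢
  constructor <;> linarith [h1.1, h1.2, h2.1, h2.2]

private theorem mS_mert : ∃ C : ℝ, 0 < C ∧ ∀ x y : ℕ, 2 ≤ x → x ≤ y →
    |∑ p ∈ (Ioc x y).filter (fun p => p.Prime ∧ p % 3 = 1), 1 / (p : ℝ) -
      (Real.log (Real.log y) - Real.log (Real.log x)) / 2| ≤ C / Real.log x := by
  obtain ⟨C, hC0, hC⟩ := mS_window
  refine ⟨C + 1, by linarith, fun B B2 hB1 hBB => ?_⟩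
  set a : ℕ → ℝ := fun n => if n.Prime ∧ n % 3 = 1 then Real.log n / n else 0 with ha
  set δ : ℕ → ℝ := fun n => (Real.log n - Real.log (n - 1 : ℕ)) / 2 with hδ
  have hδsum : ∀ N, B ≤ N → ∑ n ∈ Ioc B N, δ n = (Real.log N - Real.log B) / 2 := by
    intro N hN
    obtain ⟨j, rfl⟩ : ∃ j, N = B + j := ⟨N - B, by omega⟩
    induction j with
    | zero => simp
    | succ j ih =>
      rw [← add_assoc, Finset.sum_Ioc_succ_top (by omega), ih (by omega)]
      simp only [hδ]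
      have e : (B + j + 1 - 1 : ℕ) = B + j := by omega
      rw [e]; ring
  have hcsum : ∀ N, B ≤ N → |∑ n ∈ Ioc B N, (a n - δ n)| ≤ C := by
    intro N hN
    rw [Finset.sum_sub_distrib, hδsum N hN]
    have h := hC B N (by omega) hN
    rwa [Finset.sum_filter] at h
  have hlogpos : ∀ n : ℕ, B < n → 0 < Real.log n := by
    intro n hn
    apply Real.log_pos
    exact_mod_cast (by omega : 1 < n)
  have h1 := mS_abel_le (c := fun n => a n - δ n) (g := fun n => (Real.log n)⁻¹) (B := B)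
    (M := C) hC0 hcsum (fun n hn => (inv_pos.2 (hlogpos n hn)).le)
    (fun n hn => inv_anti₀ (hlogpos n hn) (Real.log_le_log (by
      exact_mod_cast (by omega : 0 < n)) (by push_cast; linarith))) B2 hBB
  have h2 := mS_loglog_sum B hB1 B2 hBB
  have hB0 : (0 : ℝ) < Real.log B := Real.log_pos (by exact_mod_cast (by omega : 1 < B))
  have hB20 : (0 : ℝ) < Real.log B2 := Real.log_pos (by exact_mod_cast (by omega : 1 < B2))
  have e1 : ∑ l ∈ (Ioc B B2).filter (fun p => p.Prime ∧ p % 3 = 1), (1:ℝ) / l =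
      ∑ n ∈ Ioc B B2, a n * (Real.log n)⁻¹ := by
    rw [Finset.sum_filter]
    apply Finset.sum_congr rfl
    intro n hn
    have hn' := hlogpos n (mem_Ioc.1 hn).1
    simp only [ha]
    split_ifs
    · field_simp
    · simp
  have e3 : ∑ n ∈ Ioc B B2, a n * (Real.log n)⁻¹ =
      ∑ n ∈ Ioc B B2, (a n - δ n) * (Real.log n)⁻¹ +
      (∑ n ∈ Ioc B B2, (Real.log n - Real.log (n - 1 : ℕ)) * (Real.log n)⁻¹) / 2 := by
    rw [Finset.sum_div, ← Finset.sum_add_distrib]
    apply Finset.sum_congr rfl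
    intro n _
    simp only [hδ]
    ring
  rw [e1, e3]
  have h3 : (Real.log ((B + 1 : ℕ) : ℝ))⁻¹ ≤ (Real.log B)⁻¹ :=
    inv_anti₀ hB0 (Real.log_le_log (by exact_mod_cast (by omega : 0 < B)) (by push_cast; linarith))
  have h4 : C * (Real.log ((B + 1 : ℕ) : ℝ))⁻¹ ≤ C * (Real.log B)⁻¹ :=
    mul_le_mul_of_nonneg_left h3 hC0
  have h5 : 0 ≤ (Real.log B2)⁻¹ := by positivity
  have h6 : 0 ≤ (Real.log B)⁻¹ := by positivity
  have h7 : (C + 1) / Real.log B = C * (Real.log B)⁻¹ + (Real.log B)⁻¹ := by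
    field_simp
  rw [h7]
  rw [abs_le] at h1 h2 ⊢
  constructor
  · linarith [h1.1, h2.1]
  · linarith [h1.2, h2.2]

private theorem mS_med (g : ℕ) (hg : 1 ≤ g) : ∃ C : ℝ, 0 < C ∧ ∀ t : ℕ, 1 ≤ t →
    |∑ p ∈ med g t, 1 / (p : ℝ) - ((g : ℝ) - 1 / 2) * Real.log t| ≤ C := by
  obtain ⟨C, hC, h⟩ := mS_mert
  refine ⟨C / Real.log 2, by positivity, fun t ht => ?_⟩
  set a : ℕ := t ^ (2 * g) with ha
  set b : ℕ := t ^ (4 * g - 1) with hb
  have ha1 : 1 ≤ a := Nat.one_le_pow _ _ ht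
  have hab : a ≤ b := Nat.pow_le_pow_right ht (by omega)
  have hx2 : 2 ≤ 2 ^ a := by
    calc 2 = 2 ^ 1 := by norm_num
      _ ≤ 2 ^ a := Nat.pow_le_pow_right (by norm_num) ha1
  have hxy : 2 ^ a ≤ 2 ^ b := Nat.pow_le_pow_right (by norm_num) hab
  have h1 := h (2 ^ a) (2 ^ b) hx2 hxy
  have hset : (Ioc (2 ^ a) (2 ^ b)).filter (fun p => p.Prime ∧ p % 3 = 1) = med g t := by
    ext p
    rw [mem_med, mem_filter, mem_Ioc]
  rw [hset] at h1
  have hl2 : 0 < Real.log 2 := Real.log_pos (by norm_num)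
  have hla : Real.log ((2 ^ a : ℕ) : ℝ) = a * Real.log 2 := by
    push_cast; rw [Real.log_pow]
  have hlb : Real.log ((2 ^ b : ℕ) : ℝ) = b * Real.log 2 := by
    push_cast; rw [Real.log_pow]
  rw [hla, hlb] at h1
  have ha0 : (0 : ℝ) < a := by exact_mod_cast ha1
  have hb0 : (0 : ℝ) < b := by exact_mod_cast ha1.trans hab
  rw [Real.log_mul hb0.ne' hl2.ne', Real.log_mul ha0.ne' hl2.ne'] at h1
  have hla' : Real.log (a : ℝ) = (2 * g : ℕ) * Real.log t := by
    rw [ha]; push_cast; rw [Real.log_pow]; push_cast; ring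
  have hlb' : Real.log (b : ℝ) = (4 * g - 1 : ℕ) * Real.log t := by
    rw [hb]; push_cast; rw [Real.log_pow]
  rw [hla', hlb'] at h1
  have e4 : ((4 * g - 1 : ℕ) : ℝ) = 4 * g - 1 := by
    rw [Nat.cast_sub (by omega)]; push_cast; ring
  rw [e4] at h1
  have e : ((4 * (g : ℝ) - 1) * Real.log t + Real.log (Real.log 2) -
      (((2 * g : ℕ) : ℝ) * Real.log t + Real.log (Real.log 2))) / 2 =
      ((g : ℝ) - 1 / 2) * Real.log t := by
    push_cast; ring
  rw [e] at h1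
  refine h1.trans ?_
  apply div_le_div_of_nonneg_left hC.le hl2
  have : (1 : ℝ) ≤ a := by exact_mod_cast ha1
  nlinarith

private theorem mS_log_large (K : ℝ) : ∃ t0 : ℕ, ∀ t : ℕ, t0 ≤ t → K ≤ Real.log t := by
  have h := Real.tendsto_log_atTop.comp (tendsto_natCast_atTop_atTop (R := ℝ))
  obtain ⟨t0, ht0⟩ := Filter.eventually_atTop.1 (h.eventually_ge_atTop K)
  exact ⟨t0, fun t ht => ht0 t ht⟩

private theorem mS_pow (E : ℕ) : ∃ t0 : ℕ, ∀ t : ℕ, t0 ≤ t → t ^ E ≤ 2 ^ t := by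
  have h := (isLittleO_pow_const_const_pow_of_one_lt (R := ℝ) E (r := 2) (by norm_num)).bound
    (c := 1) (by norm_num)
  obtain ⟨t0, ht0⟩ := Filter.eventually_atTop.1 h
  refine ⟨t0, fun t ht => ?_⟩
  have h1 := ht0 t ht
  rw [one_mul, Real.norm_of_nonneg (by positivity), Real.norm_of_nonneg (by positivity)] at h1
  exact_mod_cast h1

theorem med_up (g : ℕ) (hg : 1 ≤ g) : ∃ t0 : ℕ, ∀ t ≥ t0,
    ∑ p ∈ med g t, 1 / (p : ℝ) ≤ g * Real.log t := by
  obtain ⟨C, _, h⟩ := mS_med g hg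
  obtain ⟨t0, ht0⟩ := mS_log_large (2 * C)
  refine ⟨max t0 1, fun t ht => ?_⟩
  have h1 := (abs_le.1 (h t ((le_max_right _ _).trans ht))).2
  have h2 := ht0 t ((le_max_left _ _).trans ht)
  linarith

theorem med_low (g E : ℕ) (hg : 1 ≤ g) : ∃ t0 : ℕ, ∀ t ≥ t0, ∀ P ⊆ med g t,
    ((med g t) \ P).card ≤ t ^ E → ((g : ℝ) - 1) * Real.log t ≤ ∑ p ∈ P, 1 / (p : ℝ) := by
  obtain ⟨C, _, h⟩ := mS_med g hg
  obtain ⟨t0, ht0⟩ := mS_log_large (2 * (C + 1))
  obtain ⟨t1, ht1⟩ := mS_pow E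
  refine ⟨max (max t0 t1) 1, fun t ht P hP hcard => ?_⟩
  have htt : 1 ≤ t := (le_max_right _ _).trans ht
  have h1 := (abs_le.1 (h t htt)).1
  have h2 := ht0 t ((le_max_left _ _).trans ((le_max_left _ _).trans ht))
  have h3 := ht1 t ((le_max_right _ _).trans ((le_max_left _ _).trans ht))
  have hsplit : ∑ p ∈ (med g t) \ P, 1 / (p : ℝ) + ∑ p ∈ P, 1 / (p : ℝ) =
      ∑ p ∈ med g t, 1 / (p : ℝ) := Finset.sum_sdiff hP
  have hsmall : ∑ p ∈ (med g t) \ P, 1 / (p : ℝ) ≤ 1 := by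
    have hle : ∀ p ∈ (med g t) \ P, 1 / (p : ℝ) ≤ 1 / (2 : ℝ) ^ t := by
      intro p hp
      have hp1 := (mem_med.1 (mem_sdiff.1 hp).1).1.1
      have h4 : t ≤ t ^ (2 * g) := by
        calc t = t ^ 1 := (pow_one t).symm
          _ ≤ t ^ (2 * g) := Nat.pow_le_pow_right htt (by omega)
      have h5 : 2 ^ t ≤ 2 ^ (t ^ (2 * g)) := Nat.pow_le_pow_right (by norm_num) h4
      have h6 : ((2 ^ t : ℕ) : ℝ) ≤ p := by exact_mod_cast h5.trans hp1.le
      push_cast at h6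
      exact one_div_le_one_div_of_le (by positivity) h6
    calc ∑ p ∈ (med g t) \ P, 1 / (p : ℝ) ≤ ∑ _p ∈ (med g t) \ P, 1 / (2 : ℝ) ^ t :=
          Finset.sum_le_sum hle
      _ = ((med g t) \ P).card * (1 / (2 : ℝ) ^ t) := by rw [Finset.sum_const, nsmul_eq_mul]
      _ ≤ (2 : ℝ) ^ t * (1 / (2 : ℝ) ^ t) := by
          apply mul_le_mul_of_nonneg_right _ (by positivity)
          exact_mod_cast hcard.trans h3
      _ = 1 := by field_simp
  linarith

end Pool.Agent.H17.RP
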