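import Pool.Agent.H17.RP.L0
import Pool.Agent.H17.RP.MedSum

/-!
# Dom1: the number of `m` with a given tuple of sets of medium primes

`P ⊆ med g t`; for `j < s`, `p ∈ P`: `K j p` periodic modulo `p` with exactly two classes, and the
classes of different `j` are disjoint.  `D_j(m) = {p ∈ P : K j p m}`.  For `D j ⊆ P` with
`8 s |D j| ≤ t` and `N^4 ≥ A^3`:
`#{m < N : D_j(m) = D j for all j} ≤ 2 N ∏_j pr P (D j) + (2N/2^t) ∏_j ∏_(p∈D j) (2/p)`.

Proof. We may assume that the `D j` are disjoint (otherwise the number is `0`).  `U = ⋃ D j`,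
`|U| ≤ t/8`, `d = ∏ U ≤ 2^(t^(4g-1) t/8) = A^(1/8)`.  The `m` lie in `2^|U|` classes modulo `d`
(`crt_card`), write `m = m0 + d m'`, `m' < N'` (`cs_class`; `N/d - 1 ≤ N' ≤ N/d + 1`, so `N'² ≥ A`), and
for `p ∈ P \ U` none of the `K j p` holds.  For `p ∉ U` the predicate
`Z p m' = ∃ j, K j p (m0 + d m')` is periodic with exactly `2s` classes (`m' ↦ m0 + d m'` is a bijection
modulo `p`, `card_affine` in `H12/Periodic.lean`).  `L0` with `κ = 2s`: at most
`N' (∏_(p ∈ P\U) (1 - 2s/p) + 2^(-t))`.  Now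
`∏_(P\U) (1 - 2s/p) ≤ ∏_(P\U) (1-2/p)^s = ∏_j ∏_(p∈P\D j) (1-2/p) · ∏_(p∈U) (1-2/p)^(-(s-1))`, and the
last factor is `≤ 5/4` (`|U| ≤ t`, `p > 2^(t^2)`).  So the number is at most
`2^|U| (N/d) (1 + d/N) ((5/4) ∏_j ∏_(p∈P\D j)(1-2/p) + 2^(-t))`, `1 + d/N ≤ 8/5`.
-/

set_option autoImplicit false

namespace Pool.Agent.H17.RP

open Finset

theorem d1_per_mul {p : ℕ} {C : ℕ → Prop} (h : ∀ m, C (m + p) ↔ C m) (k m : ℕ) :
    C (m + p * k) ↔ C m := by
  induction k with
  | zero => simp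
  | succ k ih => rw [mul_add, mul_one, ← add_assoc, h, ih]

theorem d1_per_mod {p : ℕ} {C : ℕ → Prop} (h : ∀ m, C (m + p) ↔ C m) (m : ℕ) :
    C m ↔ C (m % p) := by
  have := d1_per_mul h (m / p) (m % p)
  rw [Nat.mod_add_div] at this
  exact this

theorem d1_affine {p d r : ℕ} (hp : 0 < p) (hd : Nat.Coprime d p) {C : ℕ → Prop}
    (h : ∀ m, C (m + p) ↔ C m) :
    cs (range p) (fun m => C (r + d * m)) = cs (range p) C := by
  classical
  have hinj : Set.InjOn (fun m => (r + d * m) % p) (range p : Finset ℕ) := by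
    intro a ha b hb hab
    rw [mem_coe, mem_range] at ha hb
    have h1 : r + d * a ≡ r + d * b [MOD p] := hab
    have h2 : d * a ≡ d * b [MOD p] := Nat.ModEq.add_left_cancel' r h1
    have h3 : a ≡ b [MOD p] := Nat.ModEq.cancel_left_of_coprime
      (by rw [Nat.gcd_comm]; exact hd) h2
    exact Nat.ModEq.eq_of_lt_of_lt h3 ha hb
  have hmaps : Set.MapsTo (fun m => (r + d * m) % p) (range p : Finset ℕ) (range p : Finset ℕ) := by
    intro a _
    rw [mem_coe, mem_range]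
    exact Nat.mod_lt _ hp
  have hsurj := Finset.surjOn_of_injOn_of_card_le (fun m => (r + d * m) % p) hmaps hinj le_rfl
  unfold cs
  refine card_bij (fun m _ => (r + d * m) % p) ?_ ?_ ?_
  · intro m hm
    rw [mem_sel, mem_range] at hm ⊢
    exact ⟨Nat.mod_lt _ hp, (d1_per_mod h _).1 hm.2⟩
  · intro a ha b hb hab
    exact hinj (mem_coe.2 (sel_subset _ _ ha)) (mem_coe.2 (sel_subset _ _ hb)) hab
  · intro b hb
    rw [mem_sel] at hb
    obtain ⟨a, ha, hab⟩ := hsurj (mem_coe.2 hb.1)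
    refine ⟨a, ?_, hab⟩
    rw [mem_sel]
    refine ⟨mem_coe.1 ha, ?_⟩
    rw [d1_per_mod h]
    have hab' : (r + d * a) % p = b := hab
    rw [hab']
    exact hb.2

theorem d1_exists {ι : Type} {s : ℕ} (S : Finset ι) (P : Fin s → ι → Prop)
    (h : ∀ i j, i ≠ j → ∀ x, ¬ (P i x ∧ P j x)) :
    cs S (fun x => ∃ j, P j x) = ∑ j, cs S (P j) := by
  classical
  unfold cs
  rw [← card_biUnion]
  · congr 1
    ext x
    rw [mem_sel, mem_biUnion]
    constructor
    · rintro ⟨h1, j, h2⟩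
      exact ⟨j, mem_univ j, mem_sel.2 ⟨h1, h2⟩⟩
    · rintro ⟨j, _, h2⟩
      rw [mem_sel] at h2
      exact ⟨h2.1, j, h2.2⟩
  · intro i _ j _ hij
    change Disjoint (sel S (P i)) (sel S (P j))
    rw [disjoint_left]
    intro x hx hx'
    exact h i j hij x ⟨(mem_sel.1 hx).2, (mem_sel.1 hx').2⟩

theorem d1_sq (t : ℕ) (ht : 4 ≤ t) : t ^ 2 ≤ 2 ^ t := by
  induction t, ht using Nat.le_induction with
  | base => norm_num
  | succ t ht ih =>
    rw [pow_succ 2 t]
    nlinarith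

theorem dom_tuple (g s : ℕ) (hg : 1 ≤ g) (hs : 1 ≤ s) : ∃ t0 : ℕ, ∀ t ≥ t0, ∀ P ⊆ med g t,
    ∀ K : Fin s → ℕ → ℕ → Prop, (∀ j, ∀ p ∈ P, ∀ m, K j p (m + p) ↔ K j p m) →
    (∀ j, ∀ p ∈ P, cs (range p) (K j p) = 2) →
    (∀ i j, i ≠ j → ∀ p ∈ P, ∀ m, ¬ (K i p m ∧ K j p m)) →
    ∀ N : ℕ, AA g t ^ 3 ≤ N ^ 4 → ∀ D : Fin s → Finset ℕ, (∀ j, D j ⊆ P) →
    (∀ j, 8 * s * (D j).card ≤ t) →
    (cs (range N) (fun m => ∀ j, sel P (fun p => K j p m) = D j) : ℝ) ≤
      2 * N * ∏ j, pr P (D j) + 2 * N / 2 ^ t * ∏ j, ∏ p ∈ D j, (2 / (p : ℝ)) := by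
  classical
  obtain ⟨t1, ht1⟩ := L0 g (2 * s) hg
  refine ⟨max t1 (10 * s + 4), ?_⟩
  intro t ht P hP K hper htwo hdisj N hN D hD hcard
  have htt1 : t1 ≤ t := le_trans (le_max_left _ _) ht
  have htt2 : 10 * s + 4 ≤ t := le_trans (le_max_right _ _) ht
  have ht4 : 4 ≤ t := by omega
  have hts : 10 * s * t ≤ 2 ^ t := by
    refine le_trans ?_ (d1_sq t ht4)
    rw [pow_two]
    exact Nat.mul_le_mul_right t (by omega)
  -- facts about the primes
  have hprime : ∀ p ∈ P, p.Prime := fun p hp => (mem_med.1 (hP hp)).2.1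
  have hbig : ∀ p ∈ P, 2 ^ t < p := by
    intro p hp
    refine lt_of_le_of_lt ?_ (mem_med.1 (hP hp)).1.1
    refine Nat.pow_le_pow_right (by norm_num) ?_
    calc t = t ^ 1 := (pow_one t).symm
      _ ≤ t ^ (2 * g) := Nat.pow_le_pow_right (by omega) (by omega)
  have hupp : ∀ p ∈ P, p ≤ 2 ^ (t ^ (4 * g - 1)) := fun p hp => (mem_med.1 (hP hp)).1.2
  have h2s : 2 * s ≤ 2 ^ t := by nlinarith
  have hpos : ∀ p ∈ P, (0 : ℝ) < p := fun p hp => by
    exact_mod_cast (hprime p hp).pos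
  have hfac0 : ∀ p ∈ P, (0 : ℝ) ≤ 1 - 2 / (p : ℝ) := by
    intro p hp
    rw [sub_nonneg, div_le_one (hpos p hp)]
    exact_mod_cast (hprime p hp).two_le
  have hpr0 : ∀ E ⊆ P, 0 ≤ pr P E := by
    intro E hE
    unfold pr
    refine mul_nonneg (prod_nonneg fun p _ => by positivity) (prod_nonneg fun p hp => ?_)
    exact hfac0 p (mem_sdiff.1 hp).1
  by_cases hdj : ∀ i j, i ≠ j → Disjoint (D i) (D j)
  swap
  · -- the number is zero
    push Not at hdj
    obtain ⟨i, j, hij, hnd⟩ := hdj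
    rw [not_disjoint_iff] at hnd
    obtain ⟨p, hpi, hpj⟩ := hnd
    have h0 : cs (range N) (fun m => ∀ j, sel P (fun p => K j p m) = D j) = 0 := by
      unfold cs
      rw [card_eq_zero, eq_empty_iff_forall_notMem]
      intro m hm
      rw [mem_sel] at hm
      have h1 := hm.2 i
      have h2 := hm.2 j
      rw [← h1, mem_sel] at hpi
      rw [← h2, mem_sel] at hpj
      exact hdisj i j hij p hpi.1 m ⟨hpi.2, hpj.2⟩
    rw [h0, Nat.cast_zero]
    refine add_nonneg (mul_nonneg (by positivity) (prod_nonneg fun j _ => hpr0 _ (hD j)))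
      (mul_nonneg (by positivity) (prod_nonneg fun j _ => prod_nonneg fun p _ => by positivity))
  -- the main case
  set U : Finset ℕ := univ.biUnion D with hU
  have hUP : U ⊆ P := by
    intro p hp
    rw [hU, mem_biUnion] at hp
    obtain ⟨j, _, hj⟩ := hp
    exact hD j hj
  have hDU : ∀ j, D j ⊆ U := fun j => subset_biUnion_of_mem D (mem_univ j)
  have hUcard : 8 * U.card ≤ t := by
    have h1 : U.card ≤ ∑ j, (D j).card := card_biUnion_le
    have h2 : ∑ j : Fin s, 8 * s * (D j).card ≤ ∑ _j : Fin s, t := sum_le_sum fun j _ => hcard j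
    rw [← mul_sum, sum_const, card_univ, Fintype.card_fin, smul_eq_mul] at h2
    have h3 : s * (8 * U.card) ≤ s * t := by
      calc s * (8 * U.card) = 8 * s * U.card := by ring
        _ ≤ 8 * s * ∑ j, (D j).card := Nat.mul_le_mul_left _ h1
        _ ≤ s * t := h2
    exact Nat.le_of_mul_le_mul_left h3 (by omega)
  set d : ℕ := ∏ p ∈ U, p with hd
  have hUprime : ∀ p ∈ U, p.Prime := fun p hp => hprime p (hUP hp)
  have hdpos : 0 < d := prod_pos fun p hp => (hUprime p hp).pos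
  set A : ℕ := AA g t with hA
  have hA16 : 2 ^ 16 ≤ A := by
    rw [hA]
    unfold AA
    refine Nat.pow_le_pow_right (by norm_num) ?_
    calc 16 ≤ 4 ^ 4 := by norm_num
      _ ≤ t ^ 4 := Nat.pow_le_pow_left ht4 4
      _ ≤ t ^ (4 * g) := Nat.pow_le_pow_right (by omega) (by omega)
  have hd8 : d ^ 8 ≤ A := by
    have h1 : d ≤ (2 ^ (t ^ (4 * g - 1))) ^ U.card :=
      prod_le_pow_card _ _ _ fun p hp => hupp p (hUP hp)
    calc d ^ 8 ≤ ((2 ^ (t ^ (4 * g - 1))) ^ U.card) ^ 8 := Nat.pow_le_pow_left h1 8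
      _ = 2 ^ (t ^ (4 * g - 1) * (8 * U.card)) := by
        rw [← pow_mul, ← pow_mul]
        congr 1
        ring
      _ ≤ 2 ^ (t ^ (4 * g - 1) * t) :=
        Nat.pow_le_pow_right (by norm_num) (Nat.mul_le_mul_left _ hUcard)
      _ = A := by
        rw [← pow_succ, hA]
        unfold AA
        congr 2
        omega
  have hd4 : d ^ 4 ≤ A := le_trans (Nat.pow_le_pow_right hdpos (by norm_num)) hd8
  have h2dN : 2 * d ≤ N := by
    have h1 : (2 * d) ^ 4 ≤ N ^ 4 := by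
      refine le_trans ?_ hN
      calc (2 * d) ^ 4 = 16 * d ^ 4 := by ring
        _ ≤ A ^ 2 * A := Nat.mul_le_mul (by nlinarith) hd4
        _ = A ^ 3 := by ring
    exact (Nat.pow_le_pow_iff_left (by norm_num)).1 h1
  have hNpos : 0 < N := by omega
  -- the length of the progressions
  have hlen : ∀ r < d, A ≤ ((N + d - 1 - r) / d) ^ 2 := by
    intro r hr
    have h1 : N / d ≤ (N + d - 1 - r) / d := Nat.div_le_div_right (by omega)
    refine le_trans ?_ (Nat.pow_le_pow_left h1 2)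
    by_contra hcon
    rw [not_le] at hcon
    set x := N / d with hx
    have hx1 : 1 ≤ x := by
      rw [hx, Nat.one_le_div_iff hdpos]
      omega
    have hNx : N < d * (x + 1) := Nat.lt_mul_div_succ N hdpos
    have h2 : N ≤ 2 * d * x := by nlinarith
    have h3 : N ^ 4 ≤ 16 * d ^ 4 * (x ^ 2) ^ 2 := by
      calc N ^ 4 ≤ (2 * d * x) ^ 4 := Nat.pow_le_pow_left h2 4
        _ = 16 * d ^ 4 * (x ^ 2) ^ 2 := by ring
    have h4 : N ^ 4 ≤ 16 * d ^ 4 * A ^ 2 :=
      le_trans h3 (Nat.mul_le_mul_left _ (Nat.pow_le_pow_left hcon.le 2))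
    have h5 : (A ^ 3) ^ 2 ≤ 256 * A ^ 5 := by
      calc (A ^ 3) ^ 2 ≤ (N ^ 4) ^ 2 := Nat.pow_le_pow_left hN 2
        _ ≤ (16 * d ^ 4 * A ^ 2) ^ 2 := Nat.pow_le_pow_left h4 2
        _ = 256 * d ^ 8 * A ^ 4 := by ring
        _ ≤ 256 * A * A ^ 4 := Nat.mul_le_mul_right _ (Nat.mul_le_mul_left _ hd8)
        _ = 256 * A ^ 5 := by ring
    have h6 : A * A ^ 5 ≤ 256 * A ^ 5 := by
      calc A * A ^ 5 = (A ^ 3) ^ 2 := by ring
        _ ≤ _ := h5
    have h7 : A ≤ 256 := Nat.le_of_mul_le_mul_right h6 (by positivity)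
    omega
  -- the classes
  set Kc : ℕ → ℕ → Prop := fun p m => ∃ j, p ∈ D j ∧ K j p m with hKc
  have hKcper : ∀ p ∈ U, ∀ m, Kc p (m + p) ↔ Kc p m := by
    intro p hp m
    rw [hKc]
    constructor
    · rintro ⟨j, h1, h2⟩
      exact ⟨j, h1, (hper j p (hUP hp) m).1 h2⟩
    · rintro ⟨j, h1, h2⟩
      exact ⟨j, h1, (hper j p (hUP hp) m).2 h2⟩
  have hKctwo : ∀ p ∈ U, cs (range p) (Kc p) = 2 := by
    intro p hp
    have hp' := hp
    rw [hU, mem_biUnion] at hp'
    obtain ⟨j, _, hj⟩ := hp'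
    rw [← htwo j p (hUP hp)]
    refine cs_congr fun m _ => ?_
    constructor
    · rintro ⟨i, h1, h2⟩
      by_cases hij : i = j
      · rw [← hij]
        exact h2
      · exact absurd hj (disjoint_left.1 (hdj i j hij) h1)
    · intro h
      exact ⟨j, hj, h⟩
  set R : Finset ℕ := sel (range d) (fun m => ∀ p ∈ U, Kc p m) with hR
  have hRcard : R.card = 2 ^ U.card := by
    have h1 := crt_card U hUprime Kc hKcper
    have h2 : ∏ p ∈ U, cs (range p) (Kc p) = 2 ^ U.card := by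
      rw [prod_congr rfl hKctwo, prod_const]
    rw [h2] at h1
    exact h1
  have hcover : cs (range N) (fun m => ∀ j, sel P (fun p => K j p m) = D j) ≤
      ∑ r ∈ R, cs (range ((N + d - 1 - r) / d))
        (fun m => ∀ q ∈ P \ U, ¬ ∃ j, K j q (r + d * m)) := by
    have h1 : cs (range N) (fun m => ∀ j, sel P (fun p => K j p m) = D j) ≤
        cs (range N) (fun m => ∃ r ∈ R, (m % d = r ∧ ∀ q ∈ P \ U, ¬ ∃ j, K j q m)) := by
      refine cs_mono fun m _ hm => ?_
      refine ⟨m % d, ?_, rfl, ?_⟩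
      · rw [hR, mem_sel, mem_range]
        refine ⟨Nat.mod_lt _ hdpos, fun p hp => ?_⟩
        have hp' := hp
        rw [hU, mem_biUnion] at hp'
        obtain ⟨j, _, hj⟩ := hp'
        refine ⟨j, hj, ?_⟩
        have h2 : K j p m := by
          rw [← hm j, mem_sel] at hj
          exact hj.2
        rw [d1_per_mod (hper j p (hUP hp))] at h2 ⊢
        rw [Nat.mod_mod_of_dvd m (dvd_prod_of_mem (fun p => p) hp)]
        exact h2
      · intro q hq hex
        obtain ⟨j, hj⟩ := hex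
        rw [mem_sdiff] at hq
        apply hq.2
        apply hDU j
        rw [← hm j, mem_sel]
        exact ⟨hq.1, hj⟩
    refine h1.trans ((cs_exists (range N) R _).trans ?_)
    refine sum_le_sum fun r hr => ?_
    rw [hR, mem_sel, mem_range] at hr
    exact (cs_class N d r hdpos hr.1 _).le
  -- the sieve bound for one class
  set Pi1 : ℝ := ∏ q ∈ P \ U, (1 - 2 * (s : ℝ) / q) with hPi1
  have hone : ∀ r ∈ R, (cs (range ((N + d - 1 - r) / d))
      (fun m => ∀ q ∈ P \ U, ¬ ∃ j, K j q (r + d * m)) : ℝ) ≤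
      3 / 2 * (N / d) * (Pi1 + 1 / 2 ^ t) := by
    intro r hr
    rw [hR, mem_sel, mem_range] at hr
    have hcount : ∀ q ∈ P \ U, cs (range q) (fun m => ∃ j, K j q (r + d * m)) = 2 * s := by
      intro q hq
      rw [mem_sdiff] at hq
      have hcop : Nat.Coprime d q := by
        rw [hd]
        refine Nat.Coprime.prod_left fun p hp => ?_
        rw [Nat.coprime_primes (hUprime p hp) (hprime q hq.1)]
        rintro rfl
        exact hq.2 hp
      rw [d1_exists (range q) (fun j m => K j q (r + d * m))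
        (fun i j hij m => hdisj i j hij q hq.1 _)]
      have h1 : ∀ j ∈ (univ : Finset (Fin s)),
          cs (range q) (fun m => K j q (r + d * m)) = 2 := by
        intro j _
        rw [d1_affine (hprime q hq.1).pos hcop (hper j q hq.1)]
        exact htwo j q hq.1
      rw [sum_congr rfl h1, sum_const, card_univ, Fintype.card_fin, smul_eq_mul, mul_comm]
    have hL := ht1 t htt1 (P \ U) (fun q m => ∃ j, K j q (r + d * m))
      (fun q hq => ⟨hprime q (mem_sdiff.1 hq).1, hupp q (mem_sdiff.1 hq).1⟩)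
      (by
        intro q hq m
        have hq' := (mem_sdiff.1 hq).1
        have hk : ∀ j, K j q (r + d * (m + q)) ↔ K j q (r + d * m) := by
          intro j
          have := d1_per_mul (hper j q hq') d (r + d * m)
          have e : r + d * (m + q) = r + d * m + q * d := by ring
          rw [e]
          exact this
        constructor
        · rintro ⟨j, h1⟩
          exact ⟨j, (hk j).1 h1⟩
        · rintro ⟨j, h1⟩
          exact ⟨j, (hk j).2 h1⟩)
      (fun q hq => (hcount q hq).le) ((N + d - 1 - r) / d) (hlen r hr.1)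
    have hprodeq : ∏ q ∈ P \ U,
        (1 - (cs (range q) (fun m => ∃ j, K j q (r + d * m)) : ℝ) / q) = Pi1 := by
      rw [hPi1]
      refine prod_congr rfl fun q hq => ?_
      rw [hcount q hq]
      push_cast
      ring
    rw [hprodeq] at hL
    have hL' := (abs_le.1 hL).2
    have hN' : (((N + d - 1 - r) / d : ℕ) : ℝ) ≤ 3 / 2 * (N / d) := by
      have h1 : (((N + d - 1 - r) / d : ℕ) : ℝ) ≤ ((N + d - 1 - r : ℕ) : ℝ) / d := Nat.cast_div_le
      have h2 : ((N + d - 1 - r : ℕ) : ℝ) ≤ (N : ℝ) + d := by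
        have : N + d - 1 - r ≤ N + d := by omega
        exact_mod_cast this
      have hdR : (0 : ℝ) < d := by exact_mod_cast hdpos
      have h3 : (2 : ℝ) * d ≤ N := by exact_mod_cast h2dN
      refine h1.trans ?_
      rw [div_le_iff₀ hdR]
      have h4 : 3 / 2 * ((N : ℝ) / d) * d = 3 / 2 * N := by
        field_simp
      rw [h4]
      linarith
    have hPi1nn : 0 ≤ Pi1 := by
      rw [hPi1]
      refine prod_nonneg fun q hq => ?_
      have hq' := (mem_sdiff.1 hq).1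
      rw [sub_nonneg, div_le_one (hpos q hq')]
      have : 2 * s ≤ q := h2s.trans (hbig q hq').le
      exact_mod_cast this
    calc (cs (range ((N + d - 1 - r) / d))
          (fun m => ∀ q ∈ P \ U, ¬ ∃ j, K j q (r + d * m)) : ℝ)
        ≤ (((N + d - 1 - r) / d : ℕ) : ℝ) * (Pi1 + 1 / 2 ^ t) := by
          have e : (((N + d - 1 - r) / d : ℕ) : ℝ) * (Pi1 + 1 / 2 ^ t) =
            (((N + d - 1 - r) / d : ℕ) : ℝ) * Pi1 + (((N + d - 1 - r) / d : ℕ) : ℝ) / 2 ^ t := by
            ring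
          rw [e]
          linarith
      _ ≤ 3 / 2 * (N / d) * (Pi1 + 1 / 2 ^ t) := by
          refine mul_le_mul_of_nonneg_right hN' ?_
          positivity
  -- comparison of the products
  set Pi2 : ℝ := ∏ j, ∏ p ∈ P \ D j, (1 - 2 / (p : ℝ)) with hPi2
  have hcomp : Pi1 ≤ 5 / 4 * Pi2 := by
    have hx0 : (0 : ℝ) ≤ 1 - 2 / 2 ^ t := by
      rw [sub_nonneg, div_le_one (by positivity)]
      have : 2 ≤ 2 ^ t := by
        calc 2 = 2 ^ 1 := by norm_num
          _ ≤ 2 ^ t := Nat.pow_le_pow_right (by norm_num) (by omega)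
      exact_mod_cast this
    have hx1 : (1 : ℝ) - 2 / 2 ^ t ≤ 1 := by
      have : (0 : ℝ) ≤ 2 / 2 ^ t := by positivity
      linarith
    have hfac : ∀ p ∈ P, (1 : ℝ) - 2 / 2 ^ t ≤ 1 - 2 / (p : ℝ) := by
      intro p hp
      have h1 : ((2 : ℝ) ^ t) ≤ p := by exact_mod_cast (hbig p hp).le
      have h2 : 2 / (p : ℝ) ≤ 2 / 2 ^ t := div_le_div_of_nonneg_left (by norm_num) (by positivity) h1
      linarith
    set B : ℝ := ∏ p ∈ P \ U, (1 - 2 / (p : ℝ)) with hB
    have hB0 : 0 ≤ B := prod_nonneg fun p hp => hfac0 p (mem_sdiff.1 hp).1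
    have h1 : Pi1 ≤ B ^ s := by
      rw [hPi1, hB, ← prod_pow]
      refine prod_le_prod ?_ ?_
      · intro q hq
        have hq' := (mem_sdiff.1 hq).1
        rw [sub_nonneg, div_le_one (hpos q hq')]
        have : 2 * s ≤ q := h2s.trans (hbig q hq').le
        exact_mod_cast this
      · intro q hq
        have hq' := (mem_sdiff.1 hq).1
        have h2 : (-2 : ℝ) ≤ -(2 / (q : ℝ)) := by
          have : 2 / (q : ℝ) ≤ 1 := by
            have := hfac0 q hq'
            linarith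
          linarith
        have h3 := one_add_mul_le_pow h2 s
        have e1 : (1 : ℝ) + (s : ℝ) * -(2 / (q : ℝ)) = 1 - 2 * (s : ℝ) / q := by ring
        have e2 : (1 : ℝ) + -(2 / (q : ℝ)) = 1 - 2 / (q : ℝ) := by ring
        rw [e1, e2] at h3
        exact h3
    have h2 : ∀ j, B * (1 - 2 / 2 ^ t) ^ t ≤ ∏ p ∈ P \ D j, (1 - 2 / (p : ℝ)) := by
      intro j
      have hsplit : P \ D j = (P \ U) ∪ (U \ D j) := by
        ext p
        rw [mem_union, mem_sdiff, mem_sdiff, mem_sdiff]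
        constructor
        · rintro ⟨h1, h2⟩
          by_cases h3 : p ∈ U
          · exact Or.inr ⟨h3, h2⟩
          · exact Or.inl ⟨h1, h3⟩
        · rintro (⟨h1, h2⟩ | ⟨h1, h2⟩)
          · exact ⟨h1, fun h => h2 (hDU j h)⟩
          · exact ⟨hUP h1, h2⟩
      have hdis : Disjoint (P \ U) (U \ D j) := by
        rw [disjoint_left]
        intro p hp hp'
        exact (mem_sdiff.1 hp).2 (mem_sdiff.1 hp').1
      rw [hsplit, prod_union hdis]
      refine mul_le_mul_of_nonneg_left ?_ hB0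
      have hc : (U \ D j).card ≤ t := by
        have := card_le_card (sdiff_subset (s := U) (t := D j))
        omega
      calc (1 - 2 / 2 ^ t : ℝ) ^ t ≤ (1 - 2 / 2 ^ t) ^ (U \ D j).card :=
            pow_le_pow_of_le_one hx0 hx1 hc
        _ = ∏ _p ∈ U \ D j, (1 - 2 / 2 ^ t : ℝ) := by rw [prod_const]
        _ ≤ ∏ p ∈ U \ D j, (1 - 2 / (p : ℝ)) := by
            refine prod_le_prod (fun p _ => hx0) fun p hp => ?_
            exact hfac p (hUP (mem_sdiff.1 hp).1)
    have h3 : (B * (1 - 2 / 2 ^ t) ^ t) ^ s ≤ Pi2 := by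
      have : (B * (1 - 2 / 2 ^ t) ^ t) ^ s = ∏ _j : Fin s, (B * (1 - 2 / 2 ^ t) ^ t) := by
        rw [prod_const, card_univ, Fintype.card_fin]
      rw [this, hPi2]
      refine prod_le_prod (fun j _ => ?_) fun j _ => h2 j
      exact mul_nonneg hB0 (pow_nonneg hx0 _)
    have h4 : (4 : ℝ) / 5 ≤ ((1 - 2 / 2 ^ t : ℝ) ^ t) ^ s := by
      rw [← pow_mul]
      have hb : (-2 : ℝ) ≤ -(2 / 2 ^ t) := by linarith
      have h5 := one_add_mul_le_pow hb (t * s)
      have e2 : (1 : ℝ) + -(2 / 2 ^ t) = 1 - 2 / 2 ^ t := by ring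
      rw [e2] at h5
      refine le_trans ?_ h5
      have h6 : (10 : ℝ) * s * t ≤ 2 ^ t := by exact_mod_cast hts
      have h7 : ((t * s : ℕ) : ℝ) * (2 / 2 ^ t) ≤ 1 / 5 := by
        push_cast
        rw [← mul_div_assoc, div_le_iff₀ (by positivity)]
        nlinarith
      linarith
    have h5 : B ^ s * (4 / 5) ≤ Pi2 := by
      refine le_trans ?_ h3
      rw [mul_pow]
      exact mul_le_mul_of_nonneg_left h4 (pow_nonneg hB0 s)
    linarith
  -- the products over U
  have hpd : ((univ : Finset (Fin s)) : Set (Fin s)).PairwiseDisjoint D := by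
    intro i _ j _ hij
    exact hdj i j hij
  have hprodU : ∏ j, ∏ p ∈ D j, (2 / (p : ℝ)) = 2 ^ U.card / d := by
    have h1 : ∏ p ∈ U, (2 / (p : ℝ)) = ∏ j, ∏ p ∈ D j, (2 / (p : ℝ)) := prod_biUnion hpd
    rw [← h1, prod_div_distrib, prod_const, hd]
    push_cast
    rfl
  have hprodpr : ∏ j, pr P (D j) = 2 ^ U.card / d * Pi2 := by
    unfold pr
    rw [prod_mul_distrib, hprodU]
  rw [hprodU, hprodpr]
  have hsum : (cs (range N) (fun m => ∀ j, sel P (fun p => K j p m) = D j) : ℝ) ≤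
      2 ^ U.card * (3 / 2 * (N / d) * (Pi1 + 1 / 2 ^ t)) := by
    have h1 : (cs (range N) (fun m => ∀ j, sel P (fun p => K j p m) = D j) : ℝ) ≤
        ∑ r ∈ R, (cs (range ((N + d - 1 - r) / d))
        (fun m => ∀ q ∈ P \ U, ¬ ∃ j, K j q (r + d * m)) : ℝ) := by
      exact_mod_cast hcover
    refine h1.trans ((sum_le_sum hone).trans ?_)
    rw [sum_const, hRcard, nsmul_eq_mul]
    push_cast
    exact le_rfl
  refine hsum.trans ?_
  have hc0 : (0 : ℝ) ≤ 2 ^ U.card * (N / d) := by positivity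
  have e1 : (2 : ℝ) ^ U.card * (3 / 2 * (N / d) * (Pi1 + 1 / 2 ^ t)) =
      2 ^ U.card * (N / d) * (3 / 2 * Pi1 + 3 / 2 * (1 / 2 ^ t)) := by ring
  have e2 : 2 * (N : ℝ) * (2 ^ U.card / d * Pi2) + 2 * N / 2 ^ t * (2 ^ U.card / d) =
      2 ^ U.card * (N / d) * (2 * Pi2 + 2 * (1 / 2 ^ t)) := by ring
  rw [e1, e2]
  refine mul_le_mul_of_nonneg_left ?_ hc0
  have h9 : (0 : ℝ) ≤ 1 / 2 ^ t := by positivity
  have h10 : 0 ≤ Pi2 := by
    rw [hPi2]
    exact prod_nonneg fun j _ => prod_nonneg fun p hp => hfac0 p (mem_sdiff.1 hp).1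
  linarith

end Pool.Agent.H17.RP
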