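import Pool.Agent.H17.RP.Alg

/-!
# EmB: the complex embedding

`em (u, v) = u + v θ`, `θ = 3/2 + (√3/2) i = √3 e^(iπ/6)`, `θ² = 3θ - 3`, `|em w|² = Nm w`.
`om = e^(iπ/3) = θ - 1`; multiplication by `om` maps the lattice to itself: `om (u + vθ) =
(θ-1)(u + vθ) = -u - 3v + (u + 2v) θ` (`rot`).  `em w * conj (em w') = em (cc w w', dt w w')`.
`em_mul`: `(u + vθ)(x + yθ) = (ux - 3vy) + (uy + vx + 3vy) θ`.
-/

set_option autoImplicit false

namespace Pool.Agent.H17.RP

open Finset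

/-- product of vectors -/
def mu (w w' : ℤ × ℤ) : ℤ × ℤ :=
  (w.1 * w'.1 - 3 * w.2 * w'.2, w.1 * w'.2 + w.2 * w'.1 + 3 * w.2 * w'.2)

/-- conjugate vector -/
def cj (w : ℤ × ℤ) : ℤ × ℤ := (w.1 + 3 * w.2, -w.2)

/-- multiplication by `e^(iπ/3)` -/
def rot (w : ℤ × ℤ) : ℤ × ℤ := (-w.1 - 3 * w.2, w.1 + 2 * w.2)

private theorem EmB_sq3 : Real.sqrt 3 * Real.sqrt 3 = 3 :=
  Real.mul_self_sqrt (by norm_num)

theorem em_mu (w w' : ℤ × ℤ) : em (mu w w') = em w * em w' := by
  have h3 := EmB_sq3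
  apply Complex.ext
  · simp only [em, mu, Complex.mul_re]
    push_cast
    linear_combination ((3 : ℝ) / 4 * (w.2 : ℝ) * (w'.2 : ℝ) * 0 + (1 : ℝ) / 4 * (w.2 : ℝ) * (w'.2 : ℝ)) * h3
  · simp only [em, mu, Complex.mul_im]
    push_cast
    ring

theorem em_cj (w : ℤ × ℤ) : em (cj w) = (starRingEnd ℂ) (em w) := by
  apply Complex.ext
  · simp only [em, cj, Complex.conj_re]
    push_cast
    ring
  · simp only [em, cj, Complex.conj_im]
    push_cast
    ring

theorem em_rot (w : ℤ × ℤ) : em (rot w) = om * em w := by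
  have h3 := EmB_sq3
  apply Complex.ext
  · simp only [em, rot, om, Complex.mul_re]
    push_cast
    linear_combination ((1 : ℝ) / 4 * (w.2 : ℝ)) * h3
  · simp only [em, rot, om, Complex.mul_im]
    push_cast
    ring

theorem em_rot_pow (k : ℕ) (w : ℤ × ℤ) : em (rot^[k] w) = om ^ k * em w := by
  induction k with
  | zero => simp
  | succ k ih =>
    rw [Function.iterate_succ_apply', em_rot, ih, pow_succ]
    ring

theorem em_inj {w w' : ℤ × ℤ} (h : em w = em w') : w = w' := by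
  have hre := congrArg Complex.re h
  have him := congrArg Complex.im h
  simp only [em] at hre him
  have hs : Real.sqrt 3 / 2 ≠ 0 := by
    have : 0 < Real.sqrt 3 := Real.sqrt_pos.mpr (by norm_num)
    positivity
  have h2 : (w.2 : ℝ) = w'.2 := mul_left_cancel₀ hs him
  have h1 : (w.1 : ℝ) = w'.1 := by
    rw [h2] at hre
    linarith
  exact Prod.ext (by exact_mod_cast h1) (by exact_mod_cast h2)

theorem normSq_em (w : ℤ × ℤ) : Complex.normSq (em w) = (Nm w : ℝ) := by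
  have h3 := EmB_sq3
  rw [Complex.normSq_apply]
  simp only [em, Nm, F]
  push_cast
  linear_combination ((1 : ℝ) / 4 * (w.2 : ℝ) ^ 2) * h3

theorem Nm_mu (w w' : ℤ × ℤ) : Nm (mu w w') = Nm w * Nm w' := by
  unfold Nm mu F
  ring

theorem Nm_cj (w : ℤ × ℤ) : Nm (cj w) = Nm w := by
  unfold Nm cj F
  ring

theorem Nm_rot (w : ℤ × ℤ) : Nm (rot w) = Nm w := by
  unfold Nm rot F
  ring

end Pool.Agent.H17.RP
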