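import Pool.Agent.H17.RP.Cert2

/-!
# Exc: few `n` have an exceptional certificate

`quad_le`: a polynomial equation `α m² + β m + γ = 0`, `(α, β) ≠ (0, 0)`, has at most two solutions
`m < N`.  `cc_sol`: `cc (sh n w) (sh n w') = c` has at most two solutions `n = n0 + W' m`.
`exc_count`: for given `d`, `x` there are at most `12` values `m` for which the certificate has
`R`, `-1 - R`, `R₂` or `-1 - R₂` equal to `x`.
-/

set_option autoImplicit false

namespace Pool.Agent.H17.RP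

open Finset

theorem quad_le (α β γ : ℤ) (h : α ≠ 0 ∨ β ≠ 0) (N : ℕ) :
    cs (range N) (fun m => α * (m : ℤ) ^ 2 + β * m + γ = 0) ≤ 2 := by
  by_contra hcon
  push Not at hcon
  unfold cs at hcon
  obtain ⟨a, b, c, ha, hb, hc, hab, hac, hbc⟩ := Finset.two_lt_card_iff.1 hcon
  rw [mem_sel] at ha hb hc
  have h1 := ha.2
  have h2 := hb.2
  have h3 := hc.2
  have e1 : ((a : ℤ) - b) * (α * (a + b) + β) = 0 := by linear_combination h1 - h2
  have e2 : ((a : ℤ) - c) * (α * (a + c) + β) = 0 := by linear_combination h1 - h3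
  have n1 : (a : ℤ) - b ≠ 0 := by
    intro h4
    exact hab (by exact_mod_cast sub_eq_zero.1 h4)
  have n2 : (a : ℤ) - c ≠ 0 := by
    intro h4
    exact hac (by exact_mod_cast sub_eq_zero.1 h4)
  have n3 : (b : ℤ) - c ≠ 0 := by
    intro h4
    exact hbc (by exact_mod_cast sub_eq_zero.1 h4)
  have f1 := (mul_eq_zero.1 e1).resolve_left n1
  have f2 := (mul_eq_zero.1 e2).resolve_left n2
  have f3 : α * ((b : ℤ) - c) = 0 := by linear_combination f1 - f2
  have f4 : α = 0 := (mul_eq_zero.1 f3).resolve_right n3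
  rw [f4] at f1
  have f5 : β = 0 := by linarith
  rcases h with h | h
  · exact h f4
  · exact h f5

theorem cc_sol {w w' : ℤ × ℤ} (hb : dt w w' ≠ 0) {W : ℕ} (hW : 0 < W) (n0 c : ℤ) (N : ℕ) :
    cs (range N) (fun m => cc (sh (n0 + W * (m : ℤ)) w) (sh (n0 + W * (m : ℤ)) w') = c) ≤ 2 := by
  have hW' : (W : ℤ) ≠ 0 := by exact_mod_cast hW.ne'
  refine le_trans (cs_mono fun m _ hm => ?_) (quad_le (w.2 * w'.2 * (W : ℤ) ^ 2)
    ((w.1 + n0 * w.2) * (W * w'.2) + (w'.1 + n0 * w'.2) * (W * w.2) + 3 * (W * w.2) * w'.2)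
    (cc (sh n0 w) (sh n0 w') - c) ?_ N)
  · unfold cc sh at *
    simp only at hm ⊢
    linear_combination hm
  · by_contra hcon
    push Not at hcon
    obtain ⟨h1, h2⟩ := hcon
    have h3 : w.2 * w'.2 = 0 := by
      rcases mul_eq_zero.1 h1 with h | h
      · exact h
      · exact absurd h (pow_ne_zero 2 hW')
    unfold dt at hb
    rcases mul_eq_zero.1 h3 with h | h
    · rw [h] at h2 hb
      have h4 : (W : ℤ) * (w.1 * w'.2) = 0 := by linear_combination h2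
      have h5 := (mul_eq_zero.1 h4).resolve_left hW'
      apply hb
      linear_combination -h5
    · rw [h] at h2 hb
      have h4 : (W : ℤ) * (w.2 * w'.1) = 0 := by linear_combination h2
      have h5 := (mul_eq_zero.1 h4).resolve_left hW'
      apply hb
      linear_combination h5

/-- a quadratic equation for the value -/
theorem val_sol {w w' : ℤ × ℤ} (hb : dt w w' ≠ 0) {W : ℕ} (hW : 0 < W) (n0 : ℤ) (N : ℕ)
    (p q : ℤ) {σ : ℤ} (hσ : σ = 1 ∨ σ = -1) :
    cs (range N) (fun m => (σ * cc (sh (n0 + W * (m : ℤ)) w) (sh (n0 + W * (m : ℤ)) w')) ^ 2 +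
      p * (σ * cc (sh (n0 + W * (m : ℤ)) w) (sh (n0 + W * (m : ℤ)) w')) + q = 0) ≤ 4 := by
  have hσ2 : σ * σ = 1 := by rcases hσ with h | h <;> rw [h] <;> norm_num
  by_cases hex : ∃ x : ℤ, x ^ 2 + p * x + q = 0
  · obtain ⟨x, hx⟩ := hex
    refine le_trans (cs_mono (Q := fun m : ℕ =>
      cc (sh (n0 + W * (m : ℤ)) w) (sh (n0 + W * (m : ℤ)) w') = σ * x ∨
      cc (sh (n0 + W * (m : ℤ)) w) (sh (n0 + W * (m : ℤ)) w') = σ * (-p - x))
      fun m _ hm => ?_) ((cs_or _ _ _).trans (Nat.add_le_add (cc_sol hb hW n0 _ N)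
        (cc_sol hb hW n0 _ N)))
    have h1 : (σ * cc (sh (n0 + W * (m : ℤ)) w) (sh (n0 + W * (m : ℤ)) w') - x) *
        (σ * cc (sh (n0 + W * (m : ℤ)) w) (sh (n0 + W * (m : ℤ)) w') - (-p - x)) = 0 := by
      linear_combination hm - hx
    rcases mul_eq_zero.1 h1 with h | h
    · left
      linear_combination σ * h - (cc (sh (n0 + W * (m : ℤ)) w) (sh (n0 + W * (m : ℤ)) w')) * hσ2
    · right
      linear_combination σ * h - (cc (sh (n0 + W * (m : ℤ)) w) (sh (n0 + W * (m : ℤ)) w')) * hσ2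
  · refine le_trans (le_of_eq ?_) (Nat.zero_le 4)
    unfold cs
    rw [card_eq_zero, eq_empty_iff_forall_notMem]
    intro m hm
    exact hex ⟨_, (mem_sel.1 hm).2⟩

theorem exc_count {w w' : ℤ × ℤ} (hb : dt w w' ≠ 0) {W : ℕ} (hW : 0 < W) (n0 : ℤ) (N : ℕ)
    {σ : ℤ} (hσ : σ = 1 ∨ σ = -1) (d x : ℤ) :
    cs (range N) (fun m => ∃ R R2 : ℤ,
      3 * (σ * dt w w') * R = σ * cc (sh (n0 + W * (m : ℤ)) w) (sh (n0 + W * (m : ℤ)) w') - d ∧
      σ * cc (sh (n0 + W * (m : ℤ)) w) (sh (n0 + W * (m : ℤ)) w') * R + σ * dt w w' +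
        3 * (σ * dt w w') * R = d * R2 ∧
      (R = x ∨ -1 - R = x ∨ R2 = x ∨ -1 - R2 = x)) ≤ 12 := by
  have hσ2 : σ * σ = 1 := by rcases hσ with h | h <;> rw [h] <;> norm_num
  have hB0 : σ * dt w w' ≠ 0 := by
    intro h
    apply hb
    linear_combination σ * h - dt w w' * hσ2
  set B : ℤ := σ * dt w w' with hB
  -- the four cases
  have c1 : ∀ y : ℤ, cs (range N) (fun m => 3 * B * y =
      σ * cc (sh (n0 + W * (m : ℤ)) w) (sh (n0 + W * (m : ℤ)) w') - d) ≤ 2 := by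
    intro y
    refine le_trans (cs_mono fun m _ hm => ?_) (cc_sol hb hW n0 (σ * (3 * B * y + d)) N)
    linear_combination -σ * hm - (cc (sh (n0 + W * (m : ℤ)) w) (sh (n0 + W * (m : ℤ)) w')) * hσ2
  have c2 : ∀ y : ℤ, cs (range N) (fun m => ∃ R : ℤ, 3 * B * R =
      σ * cc (sh (n0 + W * (m : ℤ)) w) (sh (n0 + W * (m : ℤ)) w') - d ∧
      σ * cc (sh (n0 + W * (m : ℤ)) w) (sh (n0 + W * (m : ℤ)) w') * R + B + 3 * B * R = d * y) ≤ 4 := by
    intro y
    refine le_trans (cs_mono fun m _ hm => ?_) (val_sol hb hW n0 N (-d + 3 * B)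
      (3 * B ^ 2 - 3 * B * d - 3 * B * d * y) hσ)
    obtain ⟨R, h1, h2⟩ := hm
    linear_combination 3 * B * h2 -
      (σ * cc (sh (n0 + W * (m : ℤ)) w) (sh (n0 + W * (m : ℤ)) w') + 3 * B) * h1
  refine le_trans (cs_mono (Q := fun m : ℕ =>
      (3 * B * x = σ * cc (sh (n0 + W * (m : ℤ)) w) (sh (n0 + W * (m : ℤ)) w') - d ∨
      3 * B * (-1 - x) = σ * cc (sh (n0 + W * (m : ℤ)) w) (sh (n0 + W * (m : ℤ)) w') - d) ∨
      ((∃ R : ℤ, 3 * B * R =
      σ * cc (sh (n0 + W * (m : ℤ)) w) (sh (n0 + W * (m : ℤ)) w') - d ∧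
      σ * cc (sh (n0 + W * (m : ℤ)) w) (sh (n0 + W * (m : ℤ)) w') * R + B + 3 * B * R = d * x) ∨
      (∃ R : ℤ, 3 * B * R =
      σ * cc (sh (n0 + W * (m : ℤ)) w) (sh (n0 + W * (m : ℤ)) w') - d ∧
      σ * cc (sh (n0 + W * (m : ℤ)) w) (sh (n0 + W * (m : ℤ)) w') * R + B + 3 * B * R =
        d * (-1 - x))))
    fun m _ hm => ?_) ((cs_or _ _ _).trans (Nat.add_le_add
      ((cs_or _ _ _).trans (Nat.add_le_add (c1 x) (c1 (-1 - x))))
      ((cs_or _ _ _).trans (Nat.add_le_add (c2 x) (c2 (-1 - x))))))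
  obtain ⟨R, R2, h1, h2, h3⟩ := hm
  rcases h3 with h | h | h | h
  · left; left; rw [← h]; exact h1
  · left; right
    have : R = -1 - x := by omega
    rw [← this]; exact h1
  · right; left; exact ⟨R, h1, by rw [← h]; exact h2⟩
  · right; right
    have : R2 = -1 - x := by omega
    exact ⟨R, h1, by rw [← this]; exact h2⟩

end Pool.Agent.H17.RP
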