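import Pool.Agent.H17.RP.MedSum
import Pool.Agent.H17.RP.Alg

/-!
# FewP: few large prime factors; determinants in the windows

`few_med`: a nonzero integer of absolute value `≤ A^k = 2^(k t^(4g))` has at most `k t^(4g)` prime
factors (each is `≥ 2`).  `few_big`: a nonzero integer of absolute value `≤ t^k` has at most `k` prime
factors `> t^24` (`t ≥ 2`).  `dt_pos`: different coprime pairs with nonnegative coordinates have nonzero
determinant.  `dt_win`: `|dt p q| ≤ 3 L²` for `p ∈ bwin L`, `q ∈ bwin L` with `q` in `win L`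
(`p.2 q.1`, `p.1 q.2 ∈ [0, 3L²]`).
-/

set_option autoImplicit false

namespace Pool.Agent.H17.RP

open Finset

/-- a set of prime divisors `> y` of `n` -/
private theorem fp_pow_le {n y : ℕ} (hn : n ≠ 0) {S : Finset ℕ} (hS : S ⊆ n.primeFactors)
    (hy : ∀ q ∈ S, y ≤ q) : y ^ S.card ≤ n := by
  have h1 : y ^ S.card ≤ ∏ q ∈ S, q := by
    rw [← prod_const]
    exact prod_le_prod' hy
  have h2 : ∏ q ∈ S, q ≤ ∏ q ∈ n.primeFactors, q := by
    refine prod_le_prod_of_subset_of_one_le' hS fun q hq _ => ?_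
    exact (Nat.prime_of_mem_primeFactors hq).one_le
  exact h1.trans (h2.trans (Nat.le_of_dvd (Nat.pos_of_ne_zero hn) (Nat.prod_primeFactors_dvd n)))

theorem few_med {g t k : ℕ} {x : ℤ} (hx : x ≠ 0) (h : |x| ≤ (AA g t : ℤ) ^ k) :
    cs (med g t) (fun p => (p : ℤ) ∣ x) ≤ k * t ^ (4 * g) := by
  have hn : x.natAbs ≠ 0 := Int.natAbs_ne_zero.2 hx
  have h1 : 2 ^ (cs (med g t) (fun p => (p : ℤ) ∣ x)) ≤ x.natAbs := by
    refine fp_pow_le hn (S := sel (med g t) (fun p => (p : ℤ) ∣ x)) ?_ ?_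
    · intro p hp
      rw [mem_sel, mem_med] at hp
      rw [Nat.mem_primeFactors]
      exact ⟨hp.1.2.1, Int.natCast_dvd.1 hp.2, hn⟩
    · intro p hp
      rw [mem_sel, mem_med] at hp
      exact hp.1.2.1.two_le
  have h2 : x.natAbs ≤ 2 ^ (k * t ^ (4 * g)) := by
    have h3 : ((x.natAbs : ℕ) : ℤ) ≤ (AA g t : ℤ) ^ k := by
      rw [Int.natCast_natAbs]; exact h
    have h4 : x.natAbs ≤ AA g t ^ k := by exact_mod_cast h3
    unfold AA at h4
    rw [← pow_mul, mul_comm] at h4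
    exact h4
  exact (Nat.pow_le_pow_iff_right (by norm_num)).1 (h1.trans h2)

theorem few_big {t k : ℕ} (ht : 2 ≤ t) {x : ℕ} (hx : x ≠ 0) (h : x ≤ t ^ k) :
    cs x.primeFactors (fun q => t ^ 24 < q) ≤ k := by
  have h1 : (t ^ 24) ^ (cs x.primeFactors (fun q => t ^ 24 < q)) ≤ x := by
    refine fp_pow_le hx (S := sel x.primeFactors (fun q => t ^ 24 < q)) (sel_subset _ _) ?_
    intro p hp
    rw [mem_sel] at hp
    exact hp.2.le
  rw [← pow_mul] at h1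
  have h2 := (Nat.pow_le_pow_iff_right (show 1 < t by omega)).1 (h1.trans h)
  omega

theorem win_bwin {L : ℕ} {p : ℤ × ℤ} (h : p ∈ win L) : p ∈ bwin L := by
  unfold win at h
  unfold bwin
  rw [mem_sel, mem_product, mem_Icc, mem_Icc] at h ⊢
  obtain ⟨⟨⟨h1, h2⟩, h3, h4⟩, h5⟩ := h
  exact ⟨⟨⟨by omega, by omega⟩, by omega, by omega⟩, h5⟩

theorem dt_ne {L : ℕ} {p q : ℤ × ℤ} (hp : p ∈ bwin L) (hq : q ∈ bwin L) (h : p ≠ q) :
    dt p q ≠ 0 := by
  unfold bwin at hp hq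
  rw [mem_sel, mem_product, mem_Icc, mem_Icc] at hp hq
  obtain ⟨⟨⟨p1, _⟩, p2, _⟩, p3⟩ := hp
  obtain ⟨⟨⟨q1, _⟩, q2, _⟩, q3⟩ := hq
  intro h0
  unfold dt at h0
  have h1 : p.2 * q.1 = p.1 * q.2 := by linarith
  apply h
  refine Prod.ext ?_ ?_
  · refine Int.dvd_antisymm p1 q1 ?_ ?_
    · exact p3.dvd_of_dvd_mul_left (h1 ▸ dvd_mul_right p.1 q.2)
    · exact q3.dvd_of_dvd_mul_right (h1 ▸ dvd_mul_left q.1 p.2)
  · refine Int.dvd_antisymm p2 q2 ?_ ?_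
    · exact p3.symm.dvd_of_dvd_mul_left (h1 ▸ dvd_mul_right p.2 q.1)
    · exact q3.symm.dvd_of_dvd_mul_right (h1 ▸ dvd_mul_left q.2 p.1)

theorem dt_win {L : ℕ} {p q : ℤ × ℤ} (hp : p ∈ bwin L) (hq : q ∈ win L) :
    |dt p q| ≤ 3 * (L : ℤ) ^ 2 := by
  unfold bwin at hp
  unfold win at hq
  rw [mem_sel, mem_product, mem_Icc, mem_Icc] at hp hq
  obtain ⟨⟨⟨p1, p1'⟩, p2, p2'⟩, _⟩ := hp
  obtain ⟨⟨⟨q1, q1'⟩, q2, q2'⟩, _⟩ := hq
  have a1 : 0 ≤ p.2 * q.1 := mul_nonneg p2 (by omega)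
  have a2 : p.2 * q.1 ≤ 3 * L * L := mul_le_mul p2' q1' (by omega) (by positivity)
  have b1 : 0 ≤ p.1 * q.2 := mul_nonneg p1 (by omega)
  have b2 : p.1 * q.2 ≤ 3 * L * L := mul_le_mul p1' q2' (by omega) (by positivity)
  unfold dt
  rw [abs_le]
  constructor <;> nlinarith

end Pool.Agent.H17.RP
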