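import Pool.Agent.H17.RP.Root

/-!
# Kill: the classes killed by a prime `q`

`b = dt w w' ≠ 0`, `σ = ± 1`, `3b ∣ W`, `q ∤ W` prime (so `q ∤ 3b`), `n = n0 + W m`,
`a(n) = σ cc (sh n w) (sh n w')`.  `a(n) = a(n0) mod W`, more precisely
`cc (sh n w) (sh n w') = (u+nv)(u'+nv') + 3(u+nv)v' + 3vv'` is a polynomial in `n`: `kill_mod`.

`kill_two`. `fk ((a-d)/(3b)) = 0` modulo `q` iff `(a-d)/(3b)` is one of the (at most two) roots
`x` of `fk`, i.e. `d = a - 3 b x` modulo `q`.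
`kill_four`. For given `d` this means `a(n) = d + 3σb x` modulo `q` for one of two `x`.  `a(n)` is a
polynomial in `n` of degree `≤ 2` modulo `q` and not constant: the coefficient of `n²` is `± v v'`; if
`q ∣ v` then `a(n) = ± (u (u' + n v') + 3 u v')`, the coefficient of `n` is `± u v' = ∓ b ≠ 0`
(`b = v u' - u v'`); if `q ∣ v'` then it is `± v u' = ± b ≠ 0`.  So at most `2 + 2` classes.
-/

set_option autoImplicit false

namespace Pool.Agent.H17.RP

open Finset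

/-- `a(n) - a(n')` -/
theorem cc_diff (w w' : ℤ × ℤ) (n n' : ℤ) :
    cc (sh n w) (sh n w') - cc (sh n' w) (sh n' w') =
      (n - n') * ((w.1 + n * w.2) * w'.2 + (w'.1 + n' * w'.2) * w.2 + 3 * w.2 * w'.2) := by
  unfold cc sh
  ring

/-- `a(n)` modulo `W` -/
theorem kill_mod {w w' : ℤ × ℤ} {x n n' : ℤ} (h : x ∣ n - n') :
    x ∣ cc (sh n w) (sh n w') - cc (sh n' w) (sh n' w') := by
  rw [cc_diff]
  exact h.mul_right _

theorem fk_shift (q y s : ℤ) : q ∣ fk (y + q * s) ↔ q ∣ fk y := by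
  have e : fk (y + q * s) = fk y + q * (s * (6 * y + 3 * q * s + 3)) := by
    unfold fk; ring
  rw [e]
  exact dvd_add_left (Dvd.intro _ rfl)

theorem kill_per {q W : ℕ} {w w' : ℤ × ℤ} {σ : ℤ} (hW : 3 * (σ * dt w w') ∣ (W : ℤ)) (n0 d : ℤ)
    (hb : σ * dt w w' ≠ 0) (m : ℕ) :
    (q : ℤ) ∣ fk ((σ * cc (sh (n0 + W * ((m + q : ℕ) : ℤ)) w) (sh (n0 + W * ((m + q : ℕ) : ℤ)) w') - d)
        / (3 * (σ * dt w w'))) ↔
    (q : ℤ) ∣ fk ((σ * cc (sh (n0 + W * (m : ℤ)) w) (sh (n0 + W * (m : ℤ)) w') - d)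
        / (3 * (σ * dt w w'))) := by
  obtain ⟨k, hk⟩ := hW
  have hB : 3 * (σ * dt w w') ≠ 0 := mul_ne_zero (by norm_num) hb
  generalize 3 * (σ * dt w w') = B at hk hB
  have h := cc_diff w w' (n0 + W * ((m + q : ℕ) : ℤ)) (n0 + W * (m : ℤ))
  have e0 : (n0 + (W : ℤ) * ((m + q : ℕ) : ℤ)) - (n0 + W * (m : ℤ)) = W * (q : ℤ) := by
    push_cast; ring
  rw [e0] at h
  generalize (w.1 + (n0 + (W : ℤ) * ((m + q : ℕ) : ℤ)) * w.2) * w'.2 +
    (w'.1 + (n0 + (W : ℤ) * (m : ℤ)) * w'.2) * w.2 + 3 * w.2 * w'.2 = X at h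
  generalize cc (sh (n0 + (W : ℤ) * ((m + q : ℕ) : ℤ)) w)
    (sh (n0 + (W : ℤ) * ((m + q : ℕ) : ℤ)) w') = C1 at h ⊢
  generalize cc (sh (n0 + (W : ℤ) * (m : ℤ)) w) (sh (n0 + (W : ℤ) * (m : ℤ)) w') = C0 at h ⊢
  have e1 : σ * C1 - d = (σ * C0 - d) + B * ((q : ℤ) * (k * σ * X)) := by
    have : C1 = C0 + W * (q : ℤ) * X := by linarith
    rw [this, hk]; ring
  rw [e1, Int.add_mul_ediv_left _ _ hB]
  exact fk_shift _ _ _

theorem kill_two {q : ℕ} (hq : q.Prime) {a b : ℤ} (hb : ¬ (q : ℤ) ∣ 3 * b) :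
    ∃ x1 x2 : ℤ, ∀ d : ℤ, 3 * b ∣ a - d → (q : ℤ) ∣ fk ((a - d) / (3 * b)) →
      (q : ℤ) ∣ d - x1 ∨ (q : ℤ) ∣ d - x2 := by
  obtain ⟨y1, y2, h⟩ := fk_roots hq
  have hB : 3 * b ≠ 0 := by
    intro h0
    exact hb (h0 ▸ dvd_zero _)
  refine ⟨a - 3 * b * y1, a - 3 * b * y2, ?_⟩
  intro d hd hf
  have e := Int.ediv_mul_cancel hd
  generalize (a - d) / (3 * b) = z at hf e
  rcases h z hf with h1 | h1
  · left
    have e2 : d - (a - 3 * b * y1) = -(3 * b * (z - y1)) := by linarith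
    rw [e2]
    exact (h1.mul_left _).neg_right
  · right
    have e2 : d - (a - 3 * b * y2) = -(3 * b * (z - y2)) := by linarith
    rw [e2]
    exact (h1.mul_left _).neg_right

/-- A quadratic polynomial which is not constant modulo `q` has at most two roots modulo `q`. -/
theorem quad_two {q : ℕ} (hq : q.Prime) (a b c : ℤ) (h : ¬ ((q : ℤ) ∣ a ∧ (q : ℤ) ∣ b)) :
    cs (range q) (fun m => (q : ℤ) ∣ a * (m : ℤ) ^ 2 + b * (m : ℤ) + c) ≤ 2 := by
  classical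
  have hqi : Prime (q : ℤ) := Nat.prime_iff_prime_int.1 hq
  by_contra hlt
  have hlt' : 2 < (sel (range q)
    (fun m => (q : ℤ) ∣ a * (m : ℤ) ^ 2 + b * (m : ℤ) + c)).card := by
    unfold cs at hlt; omega
  obtain ⟨x, hx, y, hy, z, hz, hxy, hxz, hyz⟩ := Finset.two_lt_card.1 hlt'
  rw [mem_sel, mem_range] at hx hy hz
  have hne : ∀ {u v : ℕ}, u < q → v < q → u ≠ v → ¬ (q : ℤ) ∣ (u : ℤ) - (v : ℤ) := by
    intro u v hu hv huv hd
    have h0 : (u : ℤ) - (v : ℤ) = 0 := by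
      refine Int.eq_zero_of_abs_lt_dvd hd ?_
      rw [abs_lt]
      constructor <;> omega
    exact huv (by omega)
  have h1 : (q : ℤ) ∣ ((x : ℤ) - y) * (a * ((x : ℤ) + y) + b) := by
    have := dvd_sub hx.2 hy.2
    have e : a * (x : ℤ) ^ 2 + b * (x : ℤ) + c - (a * (y : ℤ) ^ 2 + b * (y : ℤ) + c) =
      ((x : ℤ) - y) * (a * ((x : ℤ) + y) + b) := by ring
    rwa [e] at this
  have h2 : (q : ℤ) ∣ ((x : ℤ) - z) * (a * ((x : ℤ) + z) + b) := by
    have := dvd_sub hx.2 hz.2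
    have e : a * (x : ℤ) ^ 2 + b * (x : ℤ) + c - (a * (z : ℤ) ^ 2 + b * (z : ℤ) + c) =
      ((x : ℤ) - z) * (a * ((x : ℤ) + z) + b) := by ring
    rwa [e] at this
  have h3 : (q : ℤ) ∣ a * ((x : ℤ) + y) + b :=
    (hqi.dvd_mul.1 h1).resolve_left (hne hx.1 hy.1 hxy)
  have h4 : (q : ℤ) ∣ a * ((x : ℤ) + z) + b :=
    (hqi.dvd_mul.1 h2).resolve_left (hne hx.1 hz.1 hxz)
  have h5 : (q : ℤ) ∣ a * ((y : ℤ) - z) := by
    have := dvd_sub h3 h4
    have e : a * ((x : ℤ) + y) + b - (a * ((x : ℤ) + z) + b) = a * ((y : ℤ) - z) := by ring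
    rwa [e] at this
  have h6 : (q : ℤ) ∣ a := (hqi.dvd_mul.1 h5).resolve_right (hne hy.1 hz.1 hyz)
  have h7 : (q : ℤ) ∣ b := by
    have := dvd_sub h3 (h6.mul_right ((x : ℤ) + y))
    have e : a * ((x : ℤ) + y) + b - a * ((x : ℤ) + y) = b := by ring
    rwa [e] at this
  exact h ⟨h6, h7⟩

theorem kill_four {q : ℕ} (hq : q.Prime) {w w' : ℤ × ℤ} {W : ℕ} {σ : ℤ} (hσ : σ = 1 ∨ σ = -1)
    (hb : dt w w' ≠ 0) (hW : 3 * dt w w' ∣ (W : ℤ)) (hqW : ¬ q ∣ W) (n0 d : ℤ)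
    (hd : 3 * (σ * dt w w') ∣ σ * cc (sh n0 w) (sh n0 w') - d) :
    cs (range q) (fun m => (q : ℤ) ∣ fk ((σ * cc (sh (n0 + W * (m : ℤ)) w)
      (sh (n0 + W * (m : ℤ)) w') - d) / (3 * (σ * dt w w')))) ≤ 4 := by
  have hqi : Prime (q : ℤ) := Nat.prime_iff_prime_int.1 hq
  have hqW' : ¬ (q : ℤ) ∣ (W : ℤ) := by
    intro h; exact hqW (by exact_mod_cast h)
  have hσσ : σ * σ = 1 := by rcases hσ with rfl | rfl <;> norm_num
  have hσ0 : σ ≠ 0 := by rcases hσ with rfl | rfl <;> norm_num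
  have hBW : 3 * (σ * dt w w') ∣ (W : ℤ) := by
    obtain ⟨k, hk⟩ := hW
    refine ⟨σ * k, ?_⟩
    calc (W : ℤ) = 3 * dt w w' * k := hk
      _ = 3 * dt w w' * k * (σ * σ) := by rw [hσσ, mul_one]
      _ = 3 * (σ * dt w w') * (σ * k) := by ring
  have hqb : ¬ (q : ℤ) ∣ dt w w' := by
    intro h
    exact hqW' (h.trans ((Dvd.intro_left 3 rfl).trans hW))
  have hqσ : ¬ (q : ℤ) ∣ σ := by
    intro h
    have : (q : ℤ) ∣ 1 := hσσ ▸ h.mul_right σ
    exact hqi.not_dvd_one this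
  obtain ⟨y1, y2, hroot⟩ := fk_roots hq
  -- the polynomial in `m`
  set v : ℤ := w.2 with hv
  set v' : ℤ := w'.2 with hv'
  set u : ℤ := w.1 + n0 * v with hu
  set u' : ℤ := w'.1 + n0 * v' with hu'
  have hdt : dt w w' = v * u' - u * v' := by
    rw [hu, hu', hv, hv']; unfold dt; ring
  have hpoly : ∀ m : ℤ, σ * cc (sh (n0 + W * m) w) (sh (n0 + W * m) w') =
      (σ * (W * W) * (v * v')) * m ^ 2 + (σ * W * (u * v' + u' * v + 3 * v * v')) * m +
        σ * (u * u' + 3 * u * v' + 3 * v * v') := by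
    intro m
    rw [hu, hu', hv, hv']
    unfold cc sh
    ring
  have hnc : ¬ ((q : ℤ) ∣ σ * (W * W) * (v * v') ∧
      (q : ℤ) ∣ σ * W * (u * v' + u' * v + 3 * v * v')) := by
    rintro ⟨h1, h2⟩
    have h3 : (q : ℤ) ∣ v * v' := by
      rcases hqi.dvd_mul.1 h1 with h | h
      · rcases hqi.dvd_mul.1 h with h | h
        · exact absurd h hqσ
        · rcases hqi.dvd_mul.1 h with h | h <;> exact absurd h hqW'
      · exact h
    have h4 : (q : ℤ) ∣ u * v' + u' * v + 3 * v * v' := by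
      rcases hqi.dvd_mul.1 h2 with h | h
      · rcases hqi.dvd_mul.1 h with h | h
        · exact absurd h hqσ
        · exact absurd h hqW'
      · exact h
    have h5 : (q : ℤ) ∣ u * v' + u' * v := by
      have := dvd_sub h4 (h3.mul_left 3)
      have e : u * v' + u' * v + 3 * v * v' - 3 * (v * v') = u * v' + u' * v := by ring
      rwa [e] at this
    apply hqb
    rw [hdt]
    rcases hqi.dvd_mul.1 h3 with h | h
    · have e : v * u' - u * v' = 2 * (u' * v) - (u * v' + u' * v) := by ring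
      rw [e]
      exact dvd_sub ((h.mul_left u').mul_left 2) h5
    · have e : v * u' - u * v' = (u * v' + u' * v) - 2 * (u * v') := by ring
      rw [e]
      exact dvd_sub h5 ((h.mul_left u).mul_left 2)
  have hB0 : 3 * (σ * dt w w') ≠ 0 := mul_ne_zero (by norm_num) (mul_ne_zero hσ0 hb)
  have hstep : ∀ m ∈ range q, (q : ℤ) ∣ fk ((σ * cc (sh (n0 + W * (m : ℤ)) w)
      (sh (n0 + W * (m : ℤ)) w') - d) / (3 * (σ * dt w w'))) →
      ((q : ℤ) ∣ (σ * (W * W) * (v * v')) * (m : ℤ) ^ 2 +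
          (σ * W * (u * v' + u' * v + 3 * v * v')) * (m : ℤ) +
          (σ * (u * u' + 3 * u * v' + 3 * v * v') - d - 3 * (σ * dt w w') * y1)) ∨
      ((q : ℤ) ∣ (σ * (W * W) * (v * v')) * (m : ℤ) ^ 2 +
          (σ * W * (u * v' + u' * v + 3 * v * v')) * (m : ℤ) +
          (σ * (u * u' + 3 * u * v' + 3 * v * v') - d - 3 * (σ * dt w w') * y2)) := by
    intro m _ hm
    have hdm : 3 * (σ * dt w w') ∣ σ * cc (sh (n0 + W * (m : ℤ)) w)
        (sh (n0 + W * (m : ℤ)) w') - d := by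
      have h1 : 3 * (σ * dt w w') ∣ (n0 + W * (m : ℤ)) - n0 := by
        have e : n0 + W * (m : ℤ) - n0 = W * (m : ℤ) := by ring
        rw [e]; exact hBW.mul_right _
      have h2 := (kill_mod (w := w) (w' := w') h1).mul_left σ
      have h3 := dvd_add h2 hd
      have e : σ * (cc (sh (n0 + W * (m : ℤ)) w) (sh (n0 + W * (m : ℤ)) w') -
          cc (sh n0 w) (sh n0 w')) + (σ * cc (sh n0 w) (sh n0 w') - d) =
          σ * cc (sh (n0 + W * (m : ℤ)) w) (sh (n0 + W * (m : ℤ)) w') - d := by ring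
      rwa [e] at h3
    have e0 := Int.ediv_mul_cancel hdm
    rw [hpoly (m : ℤ)] at hm e0
    generalize ((σ * (W * W) * (v * v')) * (m : ℤ) ^ 2 +
      (σ * W * (u * v' + u' * v + 3 * v * v')) * (m : ℤ) +
        σ * (u * u' + 3 * u * v' + 3 * v * v') - d) / (3 * (σ * dt w w')) = z at hm e0
    rcases hroot z hm with h | h
    · left
      have e : (σ * (W * W) * (v * v')) * (m : ℤ) ^ 2 +
          (σ * W * (u * v' + u' * v + 3 * v * v')) * (m : ℤ) +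
          (σ * (u * u' + 3 * u * v' + 3 * v * v') - d - 3 * (σ * dt w w') * y1) =
          3 * (σ * dt w w') * (z - y1) := by linarith
      rw [e]; exact h.mul_left _
    · right
      have e : (σ * (W * W) * (v * v')) * (m : ℤ) ^ 2 +
          (σ * W * (u * v' + u' * v + 3 * v * v')) * (m : ℤ) +
          (σ * (u * u' + 3 * u * v' + 3 * v * v') - d - 3 * (σ * dt w w') * y2) =
          3 * (σ * dt w w') * (z - y2) := by linarith
      rw [e]; exact h.mul_left _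
  refine (cs_mono hstep).trans ((cs_or _ _ _).trans ?_)
  have h1 := quad_two hq _ _ (σ * (u * u' + 3 * u * v' + 3 * v * v') - d -
    3 * (σ * dt w w') * y1) hnc
  have h2 := quad_two hq _ _ (σ * (u * u' + 3 * u * v' + 3 * v * v') - d -
    3 * (σ * dt w w') * y2) hnc
  exact (Nat.add_le_add h1 h2)

end Pool.Agent.H17.RP
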