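import Pool.Agent.H17.RP.Basic
import Pool.Agent.H12.Brun
import Pool.Agent.H77.K3.N1

/-!
# L0: Brun-Bonferroni in short intervals (fundamental lemma with `u = t/2`)

`Q` a set of primes `≤ 2^(t^(4g-1))`, `Z q` periodic modulo `q` with `z q ≤ κ` classes. For
`N² ≥ A = 2^(t^(4g))` and `t ≥ t0(g, κ)`:
`|#{m < N : no Z q m} - N ∏ (1 - z q/q)| ≤ N / 2^t`.

Proof. Bonferroni for each `m` with an even and an odd truncation `r ∈ {2⌊t/32⌋, 2⌊t/32⌋ + 1}`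
(`Pool/Agent/H12/Brun.lean`: `bonferroni`, `esym`, `esym_le`, `sum_choose_le`): the number is
between the truncated sums
`Σ_(D ⊆ Q, |D| ≤ r) (-1)^|D| #{m < N : Z p m for all p ∈ D}`. By `crt_count` each of these counts is
`N ∏_(p ∈ D) z p/p` up to `∏ z p ≤ κ^r`.  The number of `D` is at most `(|Q|+1)^r`, so the total
error is at most `κ^r 2^((t^(4g-1)+1)(t/16+1)) ≤ N / 2^(t+1)` for `t ≥ t0`.
The truncated sum of the products differs from `∏ (1 - z p/p)` by at most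
`esym (r+1) ≤ (Σ z q/q)^(r+1)/(r+1)!` for both parities, and `S^n/n! ≤ exp (λ S) / λ^n` with
`λ = 2^40`, `S = Σ z q/q ≤ κ ((4g-1) log t + C)` (Mertens upper bound, `mert2`).
-/

set_option autoImplicit false

namespace Pool.Agent.H17.RP

open Finset Pool.Agent.H12

private lemma l0_cs_real {ι : Type} (S : Finset ι) (P : ι → Prop) (f : ι → ℝ)
    (h1 : ∀ m ∈ S, P m → f m = 1) (h0 : ∀ m ∈ S, ¬ P m → f m = 0) :
    (cs S P : ℝ) = ∑ m ∈ S, f m := by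
  rw [cs_eq_sum, Nat.cast_sum]
  refine sum_congr rfl fun m hm => ?_
  by_cases h : P m
  · rw [if_pos h, h1 m hm h, Nat.cast_one]
  · rw [if_neg h, h0 m hm h, Nat.cast_zero]

private lemma l0_step (N r κ : ℕ) (hκ : 1 ≤ κ) (Q : Finset ℕ) (Z : ℕ → ℕ → Prop)
    (hp : ∀ q ∈ Q, q.Prime) (hper : ∀ q ∈ Q, ∀ m, Z q (m + q) ↔ Z q m)
    (hz : ∀ q ∈ Q, cs (range q) (Z q) ≤ κ) :
    (-1 : ℝ) ^ r * ((cs (range N) (fun m => ∀ q ∈ Q, ¬ Z q m) : ℝ) -
      N * ∏ q ∈ Q, (1 - (cs (range q) (Z q) : ℝ) / q)) ≤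
    N * ((∑ q ∈ Q, (cs (range q) (Z q) : ℝ) / q) ^ (r + 1) / ((r + 1).factorial : ℝ)) +
      ((Q.card : ℝ) + 1) ^ r * (κ : ℝ) ^ r := by
  classical
  set δ : ℕ → ℝ := fun q => (cs (range q) (Z q) : ℝ) / q with hδdef
  set χ : ℕ → ℕ → ℝ := fun m q => if Z q m then 1 else 0 with hχ
  have hκ1 : (1 : ℝ) ≤ (κ : ℝ) := by exact_mod_cast hκ
  have hδ : ∀ q ∈ Q, 0 ≤ δ q ∧ δ q ≤ 1 := by
    intro q hq
    have hq0 : (0 : ℝ) < (q : ℝ) := by exact_mod_cast (hp q hq).pos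
    refine ⟨div_nonneg (Nat.cast_nonneg _) hq0.le, ?_⟩
    rw [hδdef]
    simp only
    rw [div_le_one hq0]
    have := cs_le_card (range q) (Z q)
    rw [card_range] at this
    exact_mod_cast this
  -- pointwise Bonferroni
  have h1 : (cs (range N) (fun m => ∀ q ∈ Q, ¬ Z q m) : ℝ) =
      ∑ m ∈ range N, ∏ q ∈ Q, (1 - χ m q) := by
    refine l0_cs_real _ _ _ ?_ ?_
    · intro m _ h
      refine prod_eq_one fun q hq => ?_
      rw [hχ]; simp only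
      rw [if_neg (h q hq), sub_zero]
    · intro m _ h
      push Not at h
      obtain ⟨q, hq, hqz⟩ := h
      refine prod_eq_zero hq ?_
      rw [hχ]; simp only
      rw [if_pos hqz, sub_self]
  have hb : 0 ≤ (-1 : ℝ) ^ r * (∑ m ∈ range N, tsum' Q (χ m) r -
      (cs (range N) (fun m => ∀ q ∈ Q, ¬ Z q m) : ℝ)) := by
    rw [h1, ← sum_sub_distrib, mul_sum]
    refine sum_nonneg fun m _ => ?_
    exact (bonferroni Q (χ m) (fun q _ => by
      rw [hχ]; simp only; split_ifs <;> norm_num) r).1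
  have h2 : ∑ m ∈ range N, tsum' Q (χ m) r =
      ∑ j ∈ range (r + 1), (-1) ^ j * ∑ D ∈ Q.powersetCard j,
        (cs (range N) (fun m => ∀ q ∈ D, Z q m) : ℝ) := by
    unfold tsum' esym
    rw [sum_comm]
    refine sum_congr rfl fun j _ => ?_
    rw [← mul_sum, sum_comm]
    congr 1
    refine sum_congr rfl fun D _ => ?_
    symm
    refine l0_cs_real _ _ _ ?_ ?_
    · intro m _ h
      refine prod_eq_one fun q hq => ?_
      rw [hχ]; simp only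
      rw [if_pos (h q hq)]
    · intro m _ h
      push Not at h
      obtain ⟨q, hq, hqz⟩ := h
      refine prod_eq_zero hq ?_
      rw [hχ]; simp only
      rw [if_neg hqz]
  have hcount : ∀ D ⊆ Q, D.card ≤ r →
      |(cs (range N) (fun m => ∀ q ∈ D, Z q m) : ℝ) - N * ∏ q ∈ D, δ q| ≤ (κ : ℝ) ^ r := by
    intro D hD hDr
    refine (crt_count D (fun q hq => hp q (hD hq)) Z (fun q hq => hper q (hD hq)) N).trans ?_
    have : ∏ q ∈ D, (cs (range q) (Z q) : ℝ) ≤ ∏ q ∈ D, (κ : ℝ) :=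
      prod_le_prod (fun q _ => Nat.cast_nonneg _) (fun q hq => by exact_mod_cast hz q (hD hq))
    refine this.trans ?_
    rw [prod_const]
    exact pow_le_pow_right₀ hκ1 hDr
  have h3 : |∑ m ∈ range N, tsum' Q (χ m) r - N * tsum' Q δ r| ≤
      ((Q.card : ℝ) + 1) ^ r * (κ : ℝ) ^ r := by
    rw [h2]
    unfold tsum' esym
    rw [mul_sum, ← sum_sub_distrib]
    refine (abs_sum_le_sum_abs _ _).trans ?_
    have e : ∀ j ∈ range (r + 1), |(-1 : ℝ) ^ j * ∑ D ∈ Q.powersetCard j,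
        (cs (range N) (fun m => ∀ q ∈ D, Z q m) : ℝ) -
        N * ((-1 : ℝ) ^ j * ∑ D ∈ Q.powersetCard j, ∏ p ∈ D, δ p)| ≤
        (Q.card.choose j : ℝ) * (κ : ℝ) ^ r := by
      intro j hj
      rw [mem_range] at hj
      have e1 : (-1 : ℝ) ^ j * ∑ D ∈ Q.powersetCard j,
          (cs (range N) (fun m => ∀ q ∈ D, Z q m) : ℝ) -
          N * ((-1 : ℝ) ^ j * ∑ D ∈ Q.powersetCard j, ∏ p ∈ D, δ p) =
          (-1 : ℝ) ^ j * ∑ D ∈ Q.powersetCard j,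
            ((cs (range N) (fun m => ∀ q ∈ D, Z q m) : ℝ) - N * ∏ p ∈ D, δ p) := by
        rw [sum_sub_distrib, ← mul_sum]; ring
      rw [e1, abs_mul, abs_pow, abs_neg, abs_one, one_pow, one_mul]
      refine (abs_sum_le_sum_abs _ _).trans ?_
      have : ∑ D ∈ Q.powersetCard j,
          |(cs (range N) (fun m => ∀ q ∈ D, Z q m) : ℝ) - N * ∏ p ∈ D, δ p| ≤
          ∑ D ∈ Q.powersetCard j, (κ : ℝ) ^ r := by
        refine sum_le_sum fun D hD => ?_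
        rw [mem_powersetCard] at hD
        exact hcount D hD.1 (by omega)
      refine this.trans ?_
      rw [sum_const, card_powersetCard, nsmul_eq_mul]
    refine (sum_le_sum e).trans ?_
    rw [← sum_mul]
    exact mul_le_mul_of_nonneg_right (sum_choose_le _ _) (by positivity)
  have h4 := (bonferroni Q δ hδ r).2
  have h5 := esym_le Q δ (fun q hq => (hδ q hq).1) (r + 1)
  have hN : (0 : ℝ) ≤ (N : ℝ) := Nat.cast_nonneg N
  have h6 : (-1 : ℝ) ^ r * (N * (tsum' Q δ r - ∏ q ∈ Q, (1 - δ q))) ≤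
      N * ((∑ q ∈ Q, δ q) ^ (r + 1) / ((r + 1).factorial : ℝ)) := by
    have e : (-1 : ℝ) ^ r * (N * (tsum' Q δ r - ∏ q ∈ Q, (1 - δ q))) =
        N * ((-1 : ℝ) ^ r * (tsum' Q δ r - ∏ q ∈ Q, (1 - δ q))) := by ring
    rw [e]
    exact mul_le_mul_of_nonneg_left (h4.trans h5) hN
  have h7 : (-1 : ℝ) ^ r * (∑ m ∈ range N, tsum' Q (χ m) r - N * tsum' Q δ r) ≤
      ((Q.card : ℝ) + 1) ^ r * (κ : ℝ) ^ r := by
    refine (le_abs_self _).trans ?_
    rw [abs_mul, abs_pow, abs_neg, abs_one, one_pow, one_mul]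
    exact h3
  have e : (-1 : ℝ) ^ r * ((cs (range N) (fun m => ∀ q ∈ Q, ¬ Z q m) : ℝ) -
      N * ∏ q ∈ Q, (1 - δ q)) =
      (-1 : ℝ) ^ r * (N * (tsum' Q δ r - ∏ q ∈ Q, (1 - δ q))) +
      (-1 : ℝ) ^ r * (∑ m ∈ range N, tsum' Q (χ m) r - N * tsum' Q δ r) -
      (-1 : ℝ) ^ r * (∑ m ∈ range N, tsum' Q (χ m) r -
        (cs (range N) (fun m => ∀ q ∈ Q, ¬ Z q m) : ℝ)) := by ring
  rw [e]
  linarith

/-- The sum `Σ z q / q`. -/
private lemma l0_sum (g κ : ℕ) : ∃ C : ℝ, ∀ t : ℕ, 1 ≤ t → ∀ (Q : Finset ℕ)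
    (Z : ℕ → ℕ → Prop), (∀ q ∈ Q, q.Prime ∧ q ≤ 2 ^ (t ^ (4 * g - 1))) →
    (∀ q ∈ Q, cs (range q) (Z q) ≤ κ) →
    ∑ q ∈ Q, (cs (range q) (Z q) : ℝ) / q ≤ κ * (C + (4 * g - 1 : ℕ) * Real.log t) := by
  obtain ⟨C, hC0, hC⟩ := Pool.Agent.H77.K3.mert2
  refine ⟨1 + C / Real.log 2, fun t ht Q Z hQ hz => ?_⟩
  have hlog2 : 0 < Real.log 2 := Real.log_pos (by norm_num)
  set T := t ^ (4 * g - 1) with hT
  have hT1 : 1 ≤ T := Nat.one_le_pow _ _ ht
  have h2T : 2 ≤ 2 ^ T := by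
    calc 2 = 2 ^ 1 := by norm_num
      _ ≤ 2 ^ T := Nat.pow_le_pow_right (by norm_num) hT1
  have hm := hC 2 (2 ^ T) le_rfl h2T
  have hll : Real.log (Real.log ((2 ^ T : ℕ) : ℝ)) - Real.log (Real.log ((2 : ℕ) : ℝ)) =
      (4 * g - 1 : ℕ) * Real.log t := by
    have ht0 : (t : ℝ) ≠ 0 := by
      have : (0 : ℝ) < t := by exact_mod_cast ht
      exact this.ne'
    push_cast
    rw [Real.log_pow, Real.log_mul (by
      have : (0 : ℝ) < (T : ℝ) := by exact_mod_cast hT1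
      exact this.ne') hlog2.ne', hT]
    push_cast
    rw [Real.log_pow]
    ring
  rw [hll] at hm
  have hm2 := (abs_le.1 hm).2
  have hsub : Q ⊆ insert 2 ((Ioc 2 (2 ^ T)).filter Nat.Prime) := by
    intro q hq
    have h := hQ q hq
    rw [mem_insert, mem_filter, mem_Ioc]
    rcases Nat.lt_or_ge 2 q with h2 | h2
    · exact Or.inr ⟨⟨h2, h.2⟩, h.1⟩
    · exact Or.inl (le_antisymm h2 h.1.two_le)
  have h1 : ∑ q ∈ Q, (cs (range q) (Z q) : ℝ) / q ≤ ∑ q ∈ Q, (κ : ℝ) * (1 / q) := by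
    refine sum_le_sum fun q hq => ?_
    rw [mul_one_div]
    exact div_le_div_of_nonneg_right (by exact_mod_cast hz q hq) (Nat.cast_nonneg _)
  have h2 : ∑ q ∈ Q, (1 : ℝ) / q ≤ ∑ q ∈ insert 2 ((Ioc 2 (2 ^ T)).filter Nat.Prime),
      (1 : ℝ) / q := sum_le_sum_of_subset_of_nonneg hsub (fun q _ _ => by positivity)
  have h3 : ∑ q ∈ insert 2 ((Ioc 2 (2 ^ T)).filter Nat.Prime), (1 : ℝ) / q =
      1 / 2 + ∑ q ∈ (Ioc 2 (2 ^ T)).filter Nat.Prime, (1 : ℝ) / q := by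
    rw [sum_insert (by simp)]
    norm_num
  have h4 : ∑ q ∈ Q, (1 : ℝ) / q ≤ 1 + C / Real.log 2 + (4 * g - 1 : ℕ) * Real.log t := by
    push_cast at hm2 ⊢
    linarith [h2, h3]
  refine h1.trans ?_
  rw [← mul_sum]
  exact mul_le_mul_of_nonneg_left h4 (Nat.cast_nonneg _)

/-- The growth condition. -/
private lemma l0_growth (κ : ℕ) (c C : ℝ) : ∃ t0 : ℕ, ∀ t : ℕ, t0 ≤ t →
    2 ^ 40 * (κ * (C + c * Real.log t)) ≤ t * Real.log 2 := by
  have hlog2 : 0 < Real.log 2 := Real.log_pos (by norm_num)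
  have h1 : Filter.Tendsto (fun t : ℕ => Real.log t / (t : ℝ)) Filter.atTop (nhds 0) := by
    have h := Real.isLittleO_log_id_atTop.tendsto_div_nhds_zero
    exact h.comp tendsto_natCast_atTop_atTop
  have h2 : Filter.Tendsto (fun t : ℕ => 2 ^ 40 * (κ * (C * (1 / (t : ℝ)) +
      c * (Real.log t / (t : ℝ))))) Filter.atTop (nhds (2 ^ 40 * (κ * (C * 0 + c * 0)))) := by
    refine Filter.Tendsto.const_mul _ (Filter.Tendsto.const_mul _ (Filter.Tendsto.add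
      (Filter.Tendsto.const_mul _ ?_) (Filter.Tendsto.const_mul _ h1)))
    exact tendsto_one_div_atTop_nhds_zero_nat
  have h3 : (2 : ℝ) ^ 40 * (κ * (C * 0 + c * 0)) < Real.log 2 := by
    rw [mul_zero, mul_zero, add_zero, mul_zero, mul_zero]; exact hlog2
  have h4 := h2.eventually (gt_mem_nhds h3)
  obtain ⟨t0, ht0⟩ := Filter.eventually_atTop.1 h4
  refine ⟨max t0 1, fun t ht => ?_⟩
  have h5 := ht0 t ((le_max_left _ _).trans ht)
  have ht1 : (0 : ℝ) < (t : ℝ) := by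
    have : 1 ≤ t := (le_max_right _ _).trans ht
    exact_mod_cast this
  have h6 : 2 ^ 40 * (κ * (C + c * Real.log t)) =
      (2 ^ 40 * (κ * (C * (1 / (t : ℝ)) + c * (Real.log t / (t : ℝ))))) * t := by
    field_simp
  rw [h6, mul_comm (t : ℝ)]
  exact mul_le_mul_of_nonneg_right h5.le ht1.le

/-- The factorial estimate. -/
private lemma l0_fact (S : ℝ) (hS : 0 ≤ S) (t n : ℕ) (h : 2 ^ 40 * S ≤ t * Real.log 2)
    (hn : 2 * t + 1 ≤ 40 * n) : S ^ n / (n.factorial : ℝ) ≤ 1 / 2 ^ (t + 1) := by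
  have h1 : ((2 : ℝ) ^ 40 * S) ^ n / (n.factorial : ℝ) ≤ Real.exp (2 ^ 40 * S) :=
    Real.pow_div_factorial_le_exp _ (by positivity) n
  have h2 : Real.exp (2 ^ 40 * S) ≤ 2 ^ t := by
    have e : (2 : ℝ) ^ t = Real.exp (t * Real.log 2) := by
      rw [mul_comm, Real.exp_mul, Real.exp_log (by norm_num), Real.rpow_natCast]
    rw [e]
    exact Real.exp_le_exp.2 h
  have h3 : ((2 : ℝ) ^ 40 * S) ^ n / (n.factorial : ℝ) =
      2 ^ (40 * n) * (S ^ n / (n.factorial : ℝ)) := by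
    rw [mul_pow, ← pow_mul]; ring
  rw [h3] at h1
  have h4 : (2 : ℝ) ^ (40 * n) * (S ^ n / (n.factorial : ℝ)) ≤ 2 ^ t := h1.trans h2
  have h5 : (2 : ℝ) ^ (2 * t + 1) ≤ 2 ^ (40 * n) := pow_le_pow_right₀ (by norm_num) hn
  have h6 : 0 ≤ S ^ n / (n.factorial : ℝ) := by positivity
  have h7 : (2 : ℝ) ^ (2 * t + 1) * (S ^ n / (n.factorial : ℝ)) ≤ 2 ^ t :=
    (mul_le_mul_of_nonneg_right h5 h6).trans h4
  rw [le_div_iff₀ (by positivity)]
  have e : (2 : ℝ) ^ (2 * t + 1) = 2 ^ t * 2 ^ (t + 1) := by rw [← pow_add]; congr 1; ring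
  rw [e] at h7
  have h8 : (0 : ℝ) < 2 ^ t := by positivity
  nlinarith

theorem L0 (g κ : ℕ) (hg : 1 ≤ g) : ∃ t0 : ℕ, ∀ t ≥ t0, ∀ (Q : Finset ℕ) (Z : ℕ → ℕ → Prop),
    (∀ q ∈ Q, q.Prime ∧ q ≤ 2 ^ (t ^ (4 * g - 1))) →
    (∀ q ∈ Q, ∀ m, Z q (m + q) ↔ Z q m) →
    (∀ q ∈ Q, cs (range q) (Z q) ≤ κ) →
    ∀ N : ℕ, AA g t ≤ N ^ 2 →
    |(cs (range N) (fun m => ∀ q ∈ Q, ¬ Z q m) : ℝ) -
      N * ∏ q ∈ Q, (1 - (cs (range q) (Z q) : ℝ) / q)| ≤ N / 2 ^ t := by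
  obtain ⟨C, hC⟩ := l0_sum g κ
  obtain ⟨t1, ht1⟩ := l0_growth κ ((4 * g - 1 : ℕ) : ℝ) C
  refine ⟨max t1 (max 77 (κ + 2)), fun t ht Q Z hQ hper hz N hN => ?_⟩
  have hta : t1 ≤ t := (le_max_left _ _).trans ht
  have htb : 77 ≤ t := ((le_max_left _ _).trans (le_max_right _ _)).trans ht
  have htc : κ + 2 ≤ t := ((le_max_right _ _).trans (le_max_right _ _)).trans ht
  set T := t ^ (4 * g - 1) with hT
  have hTt : t ≤ T := by
    calc t = t ^ 1 := (pow_one t).symm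
      _ ≤ t ^ (4 * g - 1) := Nat.pow_le_pow_right (by omega) (by omega)
  have hAA : AA g t = 2 ^ (t * T) := by
    unfold AA
    congr 1
    rw [hT, ← pow_succ']
    congr 1
    omega
  have hS0 : 0 ≤ ∑ q ∈ Q, (cs (range q) (Z q) : ℝ) / q :=
    sum_nonneg fun q _ => div_nonneg (Nat.cast_nonneg _) (Nat.cast_nonneg _)
  have hS : 2 ^ 40 * (∑ q ∈ Q, (cs (range q) (Z q) : ℝ) / q) ≤ t * Real.log 2 := by
    have h1 := hC t (by omega) Q Z hQ hz
    exact (mul_le_mul_of_nonneg_left h1 (by positivity)).trans (ht1 t hta)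
  have hQcard : Q.card + 1 ≤ 2 ^ (T + 1) := by
    have h1 : Q ⊆ Ioc 0 (2 ^ T) := fun q hq => by
      rw [mem_Ioc]; exact ⟨(hQ q hq).1.pos, (hQ q hq).2⟩
    have h2 := card_le_card h1
    rw [Nat.card_Ioc] at h2
    have h3 : 1 ≤ 2 ^ T := Nat.one_le_two_pow
    rw [pow_succ]; omega
  have hκ2 : κ + 1 ≤ 2 ^ (κ + 1) := Nat.lt_two_pow_self.le
  have hz' : ∀ q ∈ Q, cs (range q) (Z q) ≤ κ + 1 := fun q hq => (hz q hq).trans (by omega)
  -- the error term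
  have herr : ∀ r : ℕ, 16 * r ≤ t + 16 →
      ((Q.card : ℝ) + 1) ^ r * ((κ + 1 : ℕ) : ℝ) ^ r ≤ N / 2 ^ (t + 1) := by
    intro r hr
    rw [le_div_iff₀ (by positivity)]
    have h1 : (Q.card + 1) ^ r * (κ + 1) ^ r * 2 ^ (t + 1) ≤ 2 ^ ((T + 1) * r + (κ + 1) * r +
        (t + 1)) := by
      have e0 : 2 ^ ((T + 1) * r + (κ + 1) * r + (t + 1)) =
          (2 ^ (T + 1)) ^ r * (2 ^ (κ + 1)) ^ r * 2 ^ (t + 1) := by
        rw [← pow_mul, ← pow_mul, ← pow_add, ← pow_add]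
      rw [e0]
      exact Nat.mul_le_mul (Nat.mul_le_mul (Nat.pow_le_pow_left hQcard r)
        (Nat.pow_le_pow_left hκ2 r)) le_rfl
    have h2 : 2 * ((T + 1) * r + (κ + 1) * r + (t + 1)) ≤ t * T := by
      have a1 : (T + κ + 2) * (16 * r) ≤ (T + κ + 2) * (t + 16) := Nat.mul_le_mul le_rfl hr
      have a2 : (T + κ + 2) * (t + 16) ≤ (2 * T) * (2 * t) := Nat.mul_le_mul (by omega) (by omega)
      have a3 : t * 77 ≤ t * T := Nat.mul_le_mul le_rfl (by omega)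
      nlinarith
    have h3 : 2 ^ ((T + 1) * r + (κ + 1) * r + (t + 1)) ≤ N := by
      have b1 : (2 ^ ((T + 1) * r + (κ + 1) * r + (t + 1))) ^ 2 ≤ N ^ 2 := by
        rw [← pow_mul, mul_comm]
        refine (Nat.pow_le_pow_right (by norm_num) h2).trans ?_
        rw [← hAA]; exact hN
      exact (Nat.pow_le_pow_iff_left (by norm_num)).1 b1
    have h4 := h1.trans h3
    exact_mod_cast h4
  have hfac : ∀ r : ℕ, t ≤ 16 * (r + 1) + 15 →
      (N : ℝ) * ((∑ q ∈ Q, (cs (range q) (Z q) : ℝ) / q) ^ (r + 1) / ((r + 1).factorial : ℝ)) ≤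
      N / 2 ^ (t + 1) := by
    intro r hr
    have h1 := l0_fact _ hS0 t (r + 1) hS (by omega)
    have h2 := mul_le_mul_of_nonneg_left h1 (Nat.cast_nonneg (α := ℝ) N)
    rw [mul_one_div] at h2
    exact h2
  have hhalf : (N : ℝ) / 2 ^ (t + 1) + N / 2 ^ (t + 1) = N / 2 ^ t := by
    rw [pow_succ]; field_simp; norm_num
  have hprime : ∀ q ∈ Q, q.Prime := fun q hq => (hQ q hq).1
  have heven := l0_step N (2 * (t / 32)) (κ + 1) (by omega) Q Z hprime hper hz'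
  have hodd := l0_step N (2 * (t / 32) + 1) (κ + 1) (by omega) Q Z hprime hper hz'
  have e1 : (-1 : ℝ) ^ (2 * (t / 32)) = 1 := by rw [pow_mul]; norm_num
  have e2 : (-1 : ℝ) ^ (2 * (t / 32) + 1) = -1 := by rw [pow_succ, e1]; norm_num
  rw [e1, one_mul] at heven
  rw [e2] at hodd
  have f1 := herr (2 * (t / 32)) (by omega)
  have f2 := herr (2 * (t / 32) + 1) (by omega)
  have g1 := hfac (2 * (t / 32)) (by omega)
  have g2 := hfac (2 * (t / 32) + 1) (by omega)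
  rw [abs_le]
  constructor
  · linarith
  · linarith

end Pool.Agent.H17.RP
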