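import Pool.Agent.H17.RP.LBa
import Pool.Agent.H77.K3.N1

/-!
# LBc: Mertens estimates for the lower bound sieve

`blk_mert`: there is an absolute `Λ` such that for all `z`, `k`: `Σ_(p ≤ z, blk z p = k) 2/(p-1) ≤ Λ`.
Proof. `blk z p = k` means `p^(2^k) ≤ z < p^(2^(k+1))`, roughly `x < p ≤ x²`-windows: if `p0` is the
smallest such prime, then all of them are in `[p0, p0²]`: `p^(2^k) ≤ z < p0^(2^(k+1)) = (p0²)^(2^k)`.
`mert2` (`H77/K3/N1.lean`) with `x = p0`, `y = p0²`: `Σ 1/p ≤ log 2 + C/log 2 + 1/p0`, and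
`2/(p-1) ≤ 4/p`.

`prod_low`: `∏_(p∈Ps) (1 - δ p) ≥ c/(log z)²` for `Ps` a set of primes `≤ z`, `δ p ≤ 1/2`,
`δ p (p-1) ≤ 2`, `z ≥ 2`.  Proof. `1 - x ≥ exp (-x-x²)` for `0 ≤ x ≤ 1/2`, `Σ δ p ≤ 2 Σ_(p≤z) 1/(p-1)
≤ 2 Σ 1/p + 2 Σ 1/(p(p-1)) ≤ 2 log log z + C`, `Σ δ p² ≤ Σ 4/(p-1)² ≤ C`.

`r_exists`: tail of the exponential series.
-/

set_option autoImplicit false

namespace Pool.Agent.H17.RP

open Finset

private theorem lBc_mert2 : ∃ C : ℝ, 0 < C ∧ ∀ x y : ℕ, 2 ≤ x → x ≤ y →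
    |∑ p ∈ (Ioc x y).filter Nat.Prime, 1 / (p : ℝ) -
      (Real.log (Real.log y) - Real.log (Real.log x))| ≤ C / Real.log x :=
  Pool.Agent.H77.K3.mert2

private theorem lBc_blk {z p k : ℕ} (hp : p.Prime) (hpz : p ≤ z) (h : blk z p = k) :
    p ^ (2 ^ k) ≤ z ∧ z < p ^ (2 ^ (k + 1)) := by
  unfold blk at h
  have hz : z ≠ 0 := by have := hp.pos; omega
  have h1 : 1 ≤ Nat.log p z := by
    exact Nat.log_pos hp.one_lt hpz
  have h2 : 2 ^ k ≤ Nat.log p z := by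
    rw [← h]
    exact Nat.pow_log_le_self 2 (by omega)
  have h3 : Nat.log p z < 2 ^ (k + 1) := by
    rw [← h]
    exact Nat.lt_pow_succ_log_self (by norm_num) _
  constructor
  · exact Nat.pow_le_of_le_log hz h2
  · exact Nat.lt_pow_of_log_lt hp.one_lt h3

theorem blk_mert : ∃ Λ : ℝ, 0 ≤ Λ ∧ ∀ z k : ℕ,
    ∑ p ∈ (Ioc 0 z).filter (fun p => p.Prime ∧ blk z p = k), 2 / ((p : ℝ) - 1) ≤ Λ := by
  obtain ⟨C, hC, h⟩ := lBc_mert2
  have hl2 : 0 < Real.log 2 := Real.log_pos (by norm_num)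
  have hl2' : Real.log 2 ≤ 1 := by
    have := Real.log_le_sub_one_of_pos (x := 2) (by norm_num)
    linarith
  refine ⟨4 * (2 + C / Real.log 2), by positivity, fun z k => ?_⟩
  set S := (Ioc 0 z).filter (fun p => p.Prime ∧ blk z p = k) with hS
  rcases S.eq_empty_or_nonempty with hemp | hne
  · rw [hemp, sum_empty]; positivity
  set p0 := S.min' hne with hp0
  have hp0S : p0 ∈ S := Finset.min'_mem _ _
  have hmem : ∀ p ∈ S, p.Prime ∧ p ^ (2 ^ k) ≤ z ∧ z < p ^ (2 ^ (k + 1)) := by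
    intro p hp
    rw [hS, mem_filter, mem_Ioc] at hp
    exact ⟨hp.2.1, lBc_blk hp.2.1 hp.1.2 hp.2.2⟩
  obtain ⟨hpp, _, hz⟩ := hmem p0 hp0S
  have h2p : 2 ≤ p0 := hpp.two_le
  have hsub : S ⊆ insert p0 ((Ioc p0 (p0 ^ 2)).filter Nat.Prime) := by
    intro p hp
    obtain ⟨hpr, hle, _⟩ := hmem p hp
    have hmin : p0 ≤ p := Finset.min'_le _ _ hp
    rw [mem_insert, mem_filter, mem_Ioc]
    rcases hmin.eq_or_lt with he | hlt
    · left; exact he.symm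
    · right
      refine ⟨⟨hlt, ?_⟩, hpr⟩
      by_contra hcon
      push Not at hcon
      have h1 : (p0 ^ 2) ^ (2 ^ k) ≤ p ^ (2 ^ k) := Nat.pow_le_pow_left hcon.le _
      rw [← pow_mul, ← pow_succ'] at h1
      omega
  have hterm : ∀ p ∈ S, 2 / ((p : ℝ) - 1) ≤ 4 * (1 / (p : ℝ)) := by
    intro p hp
    have h2 : (2 : ℝ) ≤ p := by exact_mod_cast (hmem p hp).1.two_le
    rw [mul_one_div, div_le_div_iff₀ (by linarith) (by linarith)]
    linarith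
  have hp0r : (2 : ℝ) ≤ p0 := by exact_mod_cast h2p
  have hlp : Real.log 2 ≤ Real.log p0 := Real.log_le_log (by norm_num) hp0r
  have h1 := (abs_le.1 (h p0 (p0 ^ 2) h2p (by nlinarith))).2
  have h3 : Real.log (Real.log ((p0 ^ 2 : ℕ) : ℝ)) = Real.log 2 + Real.log (Real.log p0) := by
    push_cast
    rw [Real.log_pow, Real.log_mul (by norm_num) (by linarith)]
    norm_num
  rw [h3] at h1
  have h4 : C / Real.log p0 ≤ C / Real.log 2 := div_le_div_of_nonneg_left hC.le hl2 hlp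
  have h5 : 1 / (p0 : ℝ) ≤ 1 := by
    rw [div_le_one (by linarith)]; linarith
  calc ∑ p ∈ S, 2 / ((p : ℝ) - 1) ≤ ∑ p ∈ S, 4 * (1 / (p : ℝ)) := sum_le_sum hterm
    _ = 4 * ∑ p ∈ S, 1 / (p : ℝ) := by rw [mul_sum]
    _ ≤ 4 * ∑ p ∈ insert p0 ((Ioc p0 (p0 ^ 2)).filter Nat.Prime), 1 / (p : ℝ) := by
        apply mul_le_mul_of_nonneg_left _ (by norm_num)
        exact sum_le_sum_of_subset_of_nonneg hsub (fun _ _ _ => by positivity)
    _ ≤ 4 * (1 / (p0 : ℝ) + ∑ p ∈ (Ioc p0 (p0 ^ 2)).filter Nat.Prime, 1 / (p : ℝ)) := by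
        apply mul_le_mul_of_nonneg_left _ (by norm_num)
        rw [sum_insert]
        rw [mem_filter, mem_Ioc]
        omega
    _ ≤ 4 * (2 + C / Real.log 2) := by linarith

private theorem lBc_one_sub {x : ℝ} (h0 : 0 ≤ x) (h1 : x ≤ 1 / 2) :
    Real.exp (-(x + 2 * x ^ 2)) ≤ 1 - x := by
  have hpos : 0 < 1 - x := by linarith
  rw [← Real.le_log_iff_exp_le hpos]
  have h2 := Real.one_sub_inv_le_log_of_pos hpos
  have h3 : -(x + 2 * x ^ 2) ≤ 1 - (1 - x)⁻¹ := by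
    have h4 : 1 - (1 - x)⁻¹ = -x / (1 - x) := by field_simp; ring
    rw [h4, le_div_iff₀ hpos]
    nlinarith [mul_nonneg (sq_nonneg x) (by linarith : (0:ℝ) ≤ 1 - 2 * x)]
  linarith

private theorem lBc_sq (z : ℕ) : ∑ n ∈ Ioc 1 z, 1 / ((n : ℝ) - 1) ^ 2 ≤ 2 := by
  have key : ∀ k : ℕ, ∑ n ∈ Ioc 1 (k + 2), 1 / ((n : ℝ) - 1) ^ 2 ≤ 2 - 1 / ((k : ℝ) + 1) := by
    intro k
    induction k with
    | zero =>
      have : Ioc 1 (0 + 2) = {2} := by decide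
      rw [this, sum_singleton]
      norm_num
    | succ k ih =>
      rw [show k + 1 + 2 = (k + 2) + 1 by ring, Finset.sum_Ioc_succ_top (by omega)]
      have h1 : (((k + 2 + 1 : ℕ) : ℝ) - 1) = (k : ℝ) + 2 := by push_cast; ring
      rw [h1]
      have hk : (0 : ℝ) ≤ k := Nat.cast_nonneg k
      have h2 : 1 / ((k : ℝ) + 2) ^ 2 ≤ 1 / ((k : ℝ) + 1) - 1 / ((k : ℝ) + 2) := by
        rw [div_sub_div _ _ (by positivity) (by positivity),
          div_le_div_iff₀ (by positivity) (by positivity)]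
        nlinarith
      have h3 : ((k + 1 : ℕ) : ℝ) + 1 = (k : ℝ) + 2 := by push_cast; ring
      rw [h3]
      linarith
  rcases Nat.lt_or_ge z 2 with hz | hz
  · have : Ioc 1 z = ∅ := by
      ext n; simp; omega
    rw [this, sum_empty]; norm_num
  · obtain ⟨k, rfl⟩ : ∃ k, z = k + 2 := ⟨z - 2, by omega⟩
    have := key k
    have h4 : (0 : ℝ) ≤ 1 / ((k : ℝ) + 1) := by positivity
    linarith

theorem prod_low : ∃ c : ℝ, 0 < c ∧ ∀ z : ℕ, 2 ≤ z → ∀ (Ps : Finset ℕ) (δ : ℕ → ℝ),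
    (∀ p ∈ Ps, p.Prime ∧ p ≤ z) → (∀ p ∈ Ps, 0 ≤ δ p ∧ δ p ≤ 1 / 2 ∧ δ p * ((p : ℝ) - 1) ≤ 2) →
    c / Real.log z ^ 2 ≤ ∏ p ∈ Ps, (1 - δ p) := by
  obtain ⟨C, hC, h⟩ := lBc_mert2
  set K : ℝ := 2 * (1 / 2 + (- Real.log (Real.log 2)) + C / Real.log 2) + 20 with hK
  refine ⟨Real.exp (-K), Real.exp_pos _, fun z hz Ps δ hPs hδ => ?_⟩
  have hzr : (2 : ℝ) ≤ z := by exact_mod_cast hz
  have hlz : 0 < Real.log z := Real.log_pos (by linarith)
  -- the primes up to `z`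
  set T := (Ioc 1 z).filter Nat.Prime with hT
  have hsub : Ps ⊆ T := by
    intro p hp
    rw [hT, mem_filter, mem_Ioc]
    exact ⟨⟨(hPs p hp).1.one_lt, (hPs p hp).2⟩, (hPs p hp).1⟩
  have hmert : ∑ p ∈ T, 1 / (p : ℝ) ≤ 1 / 2 + (Real.log (Real.log z) - Real.log (Real.log 2)) +
      C / Real.log 2 := by
    have h1 := (abs_le.1 (h 2 z le_rfl hz)).2
    have h2 : T = insert 2 ((Ioc 2 z).filter Nat.Prime) := by
      ext p
      rw [hT, mem_insert, mem_filter, mem_filter, mem_Ioc, mem_Ioc]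
      constructor
      · rintro ⟨⟨h3, h4⟩, h5⟩
        rcases Nat.lt_or_ge 2 p with h6 | h6
        · right; exact ⟨⟨h6, h4⟩, h5⟩
        · left; omega
      · rintro (h3 | ⟨⟨h3, h4⟩, h5⟩)
        · subst h3; exact ⟨⟨by norm_num, hz⟩, Nat.prime_two⟩
        · exact ⟨⟨by omega, h4⟩, h5⟩
    rw [h2, sum_insert (by rw [mem_filter, mem_Ioc]; omega)]
    push_cast at h1 ⊢
    linarith
  have hfac : ∀ p ∈ Ps, Real.exp (-(2 * (1 / (p : ℝ)) + 10 * (1 / ((p : ℝ) - 1) ^ 2))) ≤ 1 - δ p := by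
    intro p hp
    obtain ⟨h0, h1, h2⟩ := hδ p hp
    refine le_trans ?_ (lBc_one_sub h0 h1)
    apply Real.exp_le_exp.2
    have hp2 : (2 : ℝ) ≤ p := by exact_mod_cast (hPs p hp).1.two_le
    have hp1 : 0 < (p : ℝ) - 1 := by linarith
    have h3 : δ p ≤ 2 / ((p : ℝ) - 1) := by rwa [le_div_iff₀ hp1]
    have h4 : 2 / ((p : ℝ) - 1) ≤ 2 * (1 / (p : ℝ)) + 2 * (1 / ((p : ℝ) - 1) ^ 2) := by
      have e : 2 / ((p : ℝ) - 1) = 2 * (1 / (p : ℝ)) + 2 * (1 / ((p : ℝ) * ((p : ℝ) - 1))) := by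
        field_simp
        ring
      rw [e]
      have h5 : 1 / ((p : ℝ) * ((p : ℝ) - 1)) ≤ 1 / ((p : ℝ) - 1) ^ 2 := by
        apply one_div_le_one_div_of_le (by positivity)
        nlinarith
      linarith
    have h5 : δ p ^ 2 ≤ 4 * (1 / ((p : ℝ) - 1) ^ 2) := by
      have h6 : δ p ^ 2 ≤ (2 / ((p : ℝ) - 1)) ^ 2 := pow_le_pow_left₀ h0 h3 2
      have h7 : (2 / ((p : ℝ) - 1)) ^ 2 = 4 * (1 / ((p : ℝ) - 1) ^ 2) := by
        rw [div_pow]; ring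
      linarith
    linarith
  have hsum : ∑ p ∈ Ps, (2 * (1 / (p : ℝ)) + 10 * (1 / ((p : ℝ) - 1) ^ 2)) ≤
      2 * Real.log (Real.log z) + K := by
    calc ∑ p ∈ Ps, (2 * (1 / (p : ℝ)) + 10 * (1 / ((p : ℝ) - 1) ^ 2))
        ≤ ∑ p ∈ T, (2 * (1 / (p : ℝ)) + 10 * (1 / ((p : ℝ) - 1) ^ 2)) :=
          sum_le_sum_of_subset_of_nonneg hsub (fun _ _ _ => by positivity)
      _ = 2 * ∑ p ∈ T, 1 / (p : ℝ) + 10 * ∑ p ∈ T, 1 / ((p : ℝ) - 1) ^ 2 := by
          rw [sum_add_distrib, mul_sum, mul_sum]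
      _ ≤ 2 * ∑ p ∈ T, 1 / (p : ℝ) + 10 * ∑ p ∈ Ioc 1 z, 1 / ((p : ℝ) - 1) ^ 2 := by
          gcongr
          exact Finset.filter_subset _ _
      _ ≤ 2 * Real.log (Real.log z) + K := by
          have := lBc_sq z
          rw [hK]
          linarith
  have e1 : Real.exp (-K) / Real.log z ^ 2 = Real.exp (-(2 * Real.log (Real.log z) + K)) := by
    rw [show -(2 * Real.log (Real.log z) + K) = -K - 2 * Real.log (Real.log z) by ring,
      Real.exp_sub]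
    congr 1
    rw [two_mul, Real.exp_add, Real.exp_log hlz]; ring
  rw [e1]
  calc Real.exp (-(2 * Real.log (Real.log z) + K))
      ≤ Real.exp (∑ p ∈ Ps, -(2 * (1 / (p : ℝ)) + 10 * (1 / ((p : ℝ) - 1) ^ 2))) := by
        apply Real.exp_le_exp.2
        rw [sum_neg_distrib]
        linarith
    _ = ∏ p ∈ Ps, Real.exp (-(2 * (1 / (p : ℝ)) + 10 * (1 / ((p : ℝ) - 1) ^ 2))) :=
        Real.exp_sum _ _
    _ ≤ ∏ p ∈ Ps, (1 - δ p) :=
        prod_le_prod (fun _ _ => (Real.exp_pos _).le) hfac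

theorem r_exists (Λ : ℝ) (hΛ : 0 ≤ Λ) : ∃ r : ℕ, ∀ n : ℕ,
    ∑ k ∈ range n, Real.exp (2 * Λ) * Λ ^ (2 * (r + k) + 1) / (2 * (r + k) + 1).factorial ≤
      1 / 2 := by
  set f : ℕ → ℝ := fun m => Λ ^ m / m.factorial with hf
  have hs : Summable f := Real.summable_pow_div_factorial Λ
  have hf0 : ∀ m, 0 ≤ f m := fun m => by simp only [hf]; positivity
  have ht := tendsto_sum_nat_add f
  have hε : 0 < 1 / (2 * Real.exp (2 * Λ)) := by positivity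
  obtain ⟨r, hr⟩ := Filter.eventually_atTop.1 (ht.eventually (gt_mem_nhds hε))
  refine ⟨r, fun n => ?_⟩
  have h1 := hr r le_rfl
  have h2 : ∑ k ∈ range n, f (2 * (r + k) + 1) ≤ ∑' k, f (k + r) := by
    have hs' : Summable (fun k => f (k + r)) := (summable_nat_add_iff r).2 hs
    have h3 : ∑ k ∈ range n, f (2 * (r + k) + 1) =
        ∑ j ∈ (range n).image (fun k => r + 2 * k + 1), f (j + r) := by
      rw [sum_image]
      · refine sum_congr rfl fun k _ => ?_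
        congr 1; ring
      · intro a _ b _ hab
        simp only at hab
        omega
    rw [h3]
    exact hs'.sum_le_tsum _ (fun _ _ => hf0 _)
  have h4 : ∑ k ∈ range n, Real.exp (2 * Λ) * Λ ^ (2 * (r + k) + 1) / (2 * (r + k) + 1).factorial =
      Real.exp (2 * Λ) * ∑ k ∈ range n, f (2 * (r + k) + 1) := by
    rw [mul_sum]
    refine sum_congr rfl fun k _ => ?_
    simp only [hf]; ring
  rw [h4]
  calc Real.exp (2 * Λ) * ∑ k ∈ range n, f (2 * (r + k) + 1)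
      ≤ Real.exp (2 * Λ) * (1 / (2 * Real.exp (2 * Λ))) := by
        apply mul_le_mul_of_nonneg_left _ (Real.exp_pos _).le
        linarith
    _ = 1 / 2 := by
        have := Real.exp_pos (2 * Λ)
        field_simp

end Pool.Agent.H17.RP
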