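import Pool.Agent.H17.RP.LBb
import Pool.Agent.H17.RP.LBc

/-!
# LB: a lower bound sieve of dimension two

`Ps` a set of primes `≤ z`, densities `0 ≤ δ p ≤ 1/2`, `δ p (p-1) ≤ 2`; for all `I ⊆ Ps` with
`∏ I ≤ z^C` the number of `a ∈ As` which are bad for all `p ∈ I` is `X ∏_I δ p` up to `E`.  Then at
least `X/(C (log z)²) - E z^C` of the `a ∈ As` are not bad for any `p ∈ Ps`.

Proof (Brun-Hooley). `Λ` from `blk_mert`, `r` from `r_exists`, `C ≥ 4r + 8`, `C ≥ 2/c` (`c` from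
`prod_low`).  For `a ∈ As` let `T(a) = {p ∈ Ps : bad p a}`.  By `bh_lower` (`y = z`)
`1[T(a) = ∅] ≥ Σ_(D ⊆ T(a)) lamD r z D`.  Sum over `a`: the number is at least
`Σ_(D ⊆ Ps) lamD r z D #{a : bad p a for all p ∈ D}`.  Only admissible `D` count, `∏ D ≤ z^(4r+8) ≤ z^C`
(`bh_level`), so this is `≥ X Σ_D lamD ∏_D δ - E #{D : ∏ D ≤ z^C}`, and the number of these `D` is at
most `z^C` (`D ↦ ∏ D` is injective on sets of primes, values in `[1, z^C]`).  `bh_dens` with the set `Ps`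
(`Σ_(block) δ p ≤ Σ_(block) 2/(p-1) ≤ Λ`) and `prod_low`: the main term is
`≥ (X/2) c/(log z)² ≥ X/(C (log z)²)`.
-/

set_option autoImplicit false

namespace Pool.Agent.H17.RP

open Finset

/-- products of distinct primes determine the set -/
private theorem lB_inj {D D' : Finset ℕ} (h : ∀ p ∈ D, p.Prime) (h' : ∀ p ∈ D', p.Prime)
    (he : ∏ p ∈ D, p = ∏ p ∈ D', p) : D = D' := by
  have key : ∀ {A B : Finset ℕ}, (∀ p ∈ A, p.Prime) → (∀ p ∈ B, p.Prime) →
      ∏ p ∈ A, p = ∏ p ∈ B, p → A ⊆ B := by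
    intro A B hA hB hAB p hp
    have h1 : p ∣ ∏ p ∈ B, p := by rw [← hAB]; exact Finset.dvd_prod_of_mem _ hp
    obtain ⟨q, hq, hpq⟩ := (Prime.dvd_finsetProd_iff (hA p hp).prime _).mp h1
    have := (Nat.prime_dvd_prime_iff_eq (hA p hp) (hB q hq)).mp hpq
    rw [this]; exact hq
  exact Finset.Subset.antisymm (key h h' he) (key h' h he.symm)

private theorem lB_count (Ps : Finset ℕ) (hPs : ∀ p ∈ Ps, p.Prime) (M : ℕ) :
    ((Ps.powerset.filter fun D => ∏ p ∈ D, p ≤ M).card : ℝ) ≤ M := by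
  classical
  have h : (Ps.powerset.filter fun D => ∏ p ∈ D, p ≤ M).card ≤ (Finset.Icc 1 M).card := by
    refine Finset.card_le_card_of_injOn (fun D => ∏ p ∈ D, p) ?_ ?_
    · intro D hD
      rw [Finset.mem_coe, mem_filter, mem_powerset] at hD
      rw [Finset.mem_coe, mem_Icc]
      exact ⟨Finset.prod_pos fun p hp => (hPs p (hD.1 hp)).pos, hD.2⟩
    · intro D hD D' hD' he
      rw [Finset.mem_coe, mem_filter, mem_powerset] at hD hD'
      exact lB_inj (fun p hp => hPs p (hD.1 hp)) (fun p hp => hPs p (hD'.1 hp)) he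
  rw [Nat.card_Icc] at h
  have h2 : (Ps.powerset.filter fun D => ∏ p ∈ D, p ≤ M).card ≤ M := by omega
  exact_mod_cast h2

open Classical in
private theorem lB_cs {ι : Type} (As : Finset ι) (Q : ι → Prop) :
    (cs As Q : ℝ) = ∑ a ∈ As, (if Q a then (1 : ℝ) else 0) := by
  unfold cs sel
  rw [← Finset.sum_boole]

theorem LB : ∃ C : ℕ, 1 ≤ C ∧ ∀ z : ℕ, 2 ≤ z → ∀ (Ps : Finset ℕ), (∀ p ∈ Ps, p.Prime ∧ p ≤ z) →
    ∀ δ : ℕ → ℝ, (∀ p ∈ Ps, 0 ≤ δ p ∧ δ p ≤ 1 / 2 ∧ δ p * ((p : ℝ) - 1) ≤ 2) →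
    ∀ (ι : Type) (As : Finset ι) (bad : ℕ → ι → Prop) (X E : ℝ), 0 ≤ X → 0 ≤ E →
    (∀ I ⊆ Ps, ∏ p ∈ I, p ≤ z ^ C →
      |(cs As (fun a => ∀ p ∈ I, bad p a) : ℝ) - X * ∏ p ∈ I, δ p| ≤ E) →
    X / (C * Real.log z ^ 2) - E * (z : ℝ) ^ C ≤ (cs As (fun a => ∀ p ∈ Ps, ¬ bad p a) : ℝ) := by
  classical
  obtain ⟨Λ, hΛ, hblk⟩ := blk_mert
  obtain ⟨r, hr⟩ := r_exists Λ hΛ
  obtain ⟨c, hc, hprod⟩ := prod_low
  set C : ℕ := max (4 * r + 8) ⌈2 / c⌉₊ with hC
  have hC1 : 4 * r + 8 ≤ C := le_max_left _ _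
  have hC2 : 2 / c ≤ (C : ℝ) := (Nat.le_ceil _).trans (by exact_mod_cast le_max_right _ _)
  refine ⟨C, by omega, ?_⟩
  intro z hz Ps hPs δ hδ ι As bad X E hX hE hI
  have hzr : (2 : ℝ) ≤ z := by exact_mod_cast hz
  have hlz : 0 < Real.log z := Real.log_pos (by linarith)
  have hCpos : (0 : ℝ) < C := by
    have : 0 < C := by omega
    exact_mod_cast this
  -- step 1
  have s1 : (cs As (fun a => ∀ p ∈ Ps, ¬ bad p a) : ℝ) =
      ∑ a ∈ As, if (Ps.filter fun p => bad p a) = ∅ then (1 : ℝ) else 0 := by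
    rw [lB_cs]
    refine Finset.sum_congr rfl fun a _ => ?_
    by_cases h : ∀ p ∈ Ps, ¬ bad p a
    · rw [if_pos h, if_pos (Finset.filter_eq_empty_iff.mpr fun p hp => h p hp)]
    · rw [if_neg h, if_neg fun h2 => h fun p hp => (Finset.filter_eq_empty_iff.mp h2) hp]
  have s2 : ∑ a ∈ As, ∑ D ∈ (Ps.filter fun p => bad p a).powerset, lamD r z D ≤
      (cs As (fun a => ∀ p ∈ Ps, ¬ bad p a) : ℝ) := by
    rw [s1]
    exact Finset.sum_le_sum fun a _ => bh_lower r z _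
  -- step 2: exchange
  have s3 : ∑ a ∈ As, ∑ D ∈ (Ps.filter fun p => bad p a).powerset, lamD r z D =
      ∑ D ∈ Ps.powerset, lamD r z D * (cs As (fun a => ∀ p ∈ D, bad p a) : ℝ) := by
    have e1 : ∀ a ∈ As, ∑ D ∈ (Ps.filter fun p => bad p a).powerset, lamD r z D =
        ∑ D ∈ Ps.powerset, if (∀ p ∈ D, bad p a) then lamD r z D else 0 := by
      intro a _
      rw [← Finset.sum_filter]
      refine Finset.sum_congr ?_ fun _ _ => rfl
      ext D
      rw [mem_powerset, mem_filter, mem_powerset]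
      constructor
      · intro h
        exact ⟨fun p hp => (mem_filter.mp (h hp)).1, fun p hp => (mem_filter.mp (h hp)).2⟩
      · rintro ⟨h1, h2⟩ p hp
        exact mem_filter.mpr ⟨h1 hp, h2 p hp⟩
    rw [Finset.sum_congr rfl e1, Finset.sum_comm]
    refine Finset.sum_congr rfl fun D _ => ?_
    rw [lB_cs, Finset.mul_sum]
    refine Finset.sum_congr rfl fun a _ => ?_
    by_cases h : ∀ p ∈ D, bad p a
    · rw [if_pos h, if_pos h, mul_one]
    · rw [if_neg h, if_neg h, mul_zero]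
  -- step 3: insert the main term
  have s4 : ∀ D ∈ Ps.powerset, lamD r z D * (X * ∏ p ∈ D, δ p) -
      (if ∏ p ∈ D, p ≤ z ^ C then E else 0) ≤
      lamD r z D * (cs As (fun a => ∀ p ∈ D, bad p a) : ℝ) := by
    intro D hD
    rw [mem_powerset] at hD
    by_cases h0 : lamD r z D = 0
    · rw [h0, zero_mul, zero_mul]
      split_ifs <;> linarith
    · have hadm := adm_of_lamD h0
      have hlev := bh_level (by omega) hadm (fun p hp => hPs p (hD hp))
      have hle : ∏ p ∈ D, p ≤ z ^ C := hlev.trans (Nat.pow_le_pow_right (by omega) hC1)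
      rw [if_pos hle]
      have h1 := hI D hD hle
      have h2 := abs_lamD r z D
      have h3 : |lamD r z D * ((cs As (fun a => ∀ p ∈ D, bad p a) : ℝ) - X * ∏ p ∈ D, δ p)| ≤ E := by
        rw [abs_mul]
        calc _ ≤ 1 * E := mul_le_mul h2 h1 (abs_nonneg _) zero_le_one
          _ = E := one_mul E
      have h4 := (abs_le.mp h3).1
      linarith [mul_sub (lamD r z D) (cs As (fun a => ∀ p ∈ D, bad p a) : ℝ) (X * ∏ p ∈ D, δ p)]
  have s5 := Finset.sum_le_sum s4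
  rw [Finset.sum_sub_distrib] at s5
  -- number of sets
  have s6 : ∑ D ∈ Ps.powerset, (if ∏ p ∈ D, p ≤ z ^ C then E else 0) ≤ E * (z : ℝ) ^ C := by
    rw [← Finset.sum_filter, Finset.sum_const, nsmul_eq_mul]
    have := lB_count Ps (fun p hp => (hPs p hp).1) (z ^ C)
    push_cast at this
    calc _ ≤ (z : ℝ) ^ C * E := mul_le_mul_of_nonneg_right this hE
      _ = _ := by ring
  -- main term
  have s7 : ∑ D ∈ Ps.powerset, lamD r z D * (X * ∏ p ∈ D, δ p) =
      X * ∑ D ∈ Ps.powerset, lamD r z D * ∏ p ∈ D, δ p := by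
    rw [Finset.mul_sum]
    exact Finset.sum_congr rfl fun _ _ => by ring
  have s8 := bh_dens r z hΛ hr Ps δ (fun p hp => ⟨(hδ p hp).1, (hδ p hp).2.1⟩) (by
    intro k
    refine le_trans ?_ (hblk z k)
    calc ∑ p ∈ Ps.filter (fun p => blk z p = k), δ p ≤
        ∑ p ∈ Ps.filter (fun p => blk z p = k), 2 / ((p : ℝ) - 1) := by
          refine Finset.sum_le_sum fun p hp => ?_
          have hp' := (mem_filter.mp hp).1
          have h2 : (2 : ℝ) ≤ p := by exact_mod_cast (hPs p hp').1.two_le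
          rw [le_div_iff₀ (by linarith)]
          exact (hδ p hp').2.2
      _ ≤ _ := by
          refine Finset.sum_le_sum_of_subset_of_nonneg ?_ ?_
          · intro p hp
            rw [mem_filter] at hp ⊢
            have := hPs p hp.1
            exact ⟨mem_Ioc.mpr ⟨this.1.pos, this.2⟩, this.1, hp.2⟩
          · intro p hp _
            have h2 : (2 : ℝ) ≤ p := by exact_mod_cast (mem_filter.mp hp).2.1.two_le
            exact div_nonneg (by norm_num) (by linarith))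
  have s9 := hprod z hz Ps δ hPs hδ
  have s10 : X / (C * Real.log z ^ 2) ≤ X * ∑ D ∈ Ps.powerset, lamD r z D * ∏ p ∈ D, δ p := by
    have h1 : 1 / (C * Real.log z ^ 2) ≤ ∑ D ∈ Ps.powerset, lamD r z D * ∏ p ∈ D, δ p := by
      have h2 : 1 / (C * Real.log z ^ 2) ≤ 1 / 2 * (c / Real.log z ^ 2) := by
        have h3 : 1 / (C : ℝ) ≤ c / 2 := by
          rw [div_le_iff₀ hCpos]
          rw [div_le_iff₀ hc] at hC2
          linarith
        have h4 : 1 / (C * Real.log z ^ 2) = 1 / (C : ℝ) * (1 / Real.log z ^ 2) := by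
          rw [one_div_mul_one_div]
        have h5 : 1 / 2 * (c / Real.log z ^ 2) = c / 2 * (1 / Real.log z ^ 2) := by ring
        rw [h4, h5]
        exact mul_le_mul_of_nonneg_right h3 (by positivity)
      linarith
    calc X / (C * Real.log z ^ 2) = X * (1 / (C * Real.log z ^ 2)) := by ring
      _ ≤ _ := mul_le_mul_of_nonneg_left h1 hX
  rw [s7] at s5
  rw [s3] at s2
  linarith

end Pool.Agent.H17.RP
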