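import Pool.Agent.H17.RP.Arg

/-!
# Land: products of three vectors land in the cusp region

`w1, w2, w3 ∈ RR A K` with `sec w1 - sec w2 + sec w3 = 12` in `ℤ/N`, `N = 20A + 1`.  Then some rotation
`rot^[k]` of `w1 * conj w2 * w3` is in `cusp A (8 A^5)`.

Proof. `arg (em w_i) = π/3 + (j_i + θ_i) ω`, `ω = π/(3N)`, `0 ≤ j_i < N` integers with
`sec w_i = j_i`, `θ_i ∈ [0,1)`.  `j1 - j2 + j3 = 12 + l N`, `l` an integer.  The argument of
`z = em w1 conj (em w2) em w3` is modulo `2π`: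
`π/3 + (12 + l N + θ1 - θ2 + θ3) ω = (l+1) π/3 + (12 + Θ) ω`, `Θ ∈ (-1, 2)` (`N ω = π/3`).  So for
`k ∈ {0,...,5}` with `k + l + 1 = 0 mod 6` the number `om^k z` has argument `φ ∈ (11 ω, 14 ω)`, and it is
`em w` with `w = rot^[k] (mu (mu w1 (cj w2)) w3)` (`em_mu`, `em_cj`, `em_rot_pow`).  Write `w = (u, v)`:
`(√3/2) v = |z| sin φ > 0`, `u + 3v/2 = |z| cos φ`.
`v = (2/√3) |z| sin φ ≤ 1.155 · 8 A^6 · 14 · 1.0473/(20 A) ≤ 8 A^5`: `|em w_i| ≤ 2 A²` because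
`|em (x,y)|² = x² + 3xy + 3y² ≤ y²` for `-2y ≤ x ≤ -y` (`(x+y)(x+2y) ≤ 0`), `y ≤ 2A²`.
`u/v = (√3/2) cot φ - 3/2`.  `cot φ ≤ 1/φ ≤ (20A+1) · 3/(11 π)`, `0.8661 · 3/(11 · 3.1415) < 0.0753`,
`u/v ≤ 1.506 A + 0.08 - 1.5 < 2A`.  `cot φ ≥ (1 - φ²/2)/φ`, `1/φ ≥ 3 (20A+1)/(14 π)`,
`0.866 · 3/(14 · 3.1416) > 0.059`: `u/v ≥ 1.18 A - 3/2 - 1 ≥ A` for `A ≥ A0`.
-/

set_option autoImplicit false

namespace Pool.Agent.H17.RP

open Finset

private theorem Land_norm {A K : ℕ} (hA : 1 ≤ A) {w : ℤ × ℤ} (hw : w ∈ RR A K) :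
    0 < ‖em w‖ ∧ ‖em w‖ ≤ 2 * (A : ℝ) ^ 2 := by
  obtain ⟨⟨h1, h2⟩, ⟨h3, h4⟩, _⟩ := (mem_RR hA).1 hw
  have hAz : (1 : ℤ) ≤ A := by exact_mod_cast hA
  have hy : (1 : ℤ) ≤ w.2 := by nlinarith
  have hyr : (1 : ℝ) ≤ (w.2 : ℝ) := by exact_mod_cast hy
  have hs3 : (0 : ℝ) < Real.sqrt 3 := Real.sqrt_pos.2 (by norm_num)
  constructor
  · rw [norm_pos_iff]
    intro h0
    have h5 : Real.sqrt 3 / 2 * (w.2 : ℝ) = 0 := congrArg Complex.im h0
    have h6 : 0 < Real.sqrt 3 / 2 * (w.2 : ℝ) := by positivity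
    exact absurd h5 h6.ne'
  · have h5 : Nm w ≤ w.2 ^ 2 := by
      unfold Nm F
      nlinarith [mul_nonneg (by linarith : (0 : ℤ) ≤ w.1 + 2 * w.2)
        (by linarith : (0 : ℤ) ≤ -(w.1 + w.2))]
    have h6 : ‖em w‖ ^ 2 ≤ (w.2 : ℝ) ^ 2 := by
      rw [← Complex.normSq_eq_norm_sq, normSq_em]
      exact_mod_cast h5
    have h7 : ‖em w‖ ≤ (w.2 : ℝ) :=
      (pow_le_pow_iff_left₀ (norm_nonneg _) (by linarith) two_ne_zero).1 h6
    have h8 : (w.2 : ℝ) ≤ 2 * (A : ℝ) ^ 2 := by exact_mod_cast h2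
    linarith

private theorem Land_sec (A : ℕ) (w : ℤ × ℤ) :
    ∃ (j : ℤ) (t : ℝ), sec A w = (j : ZMod (20 * A + 1)) ∧ (j : ℝ) ≤ t ∧ t < j + 1 ∧
      em w = (‖em w‖ : ℂ) *
        Complex.exp (((Real.pi / 3 + t * (Real.pi / (3 * (20 * (A : ℝ) + 1))) : ℝ) : ℂ) *
          Complex.I) := by
  refine ⟨⌊((em w).arg - Real.pi / 3) * (3 * (20 * (A : ℝ) + 1) / Real.pi)⌋,
    ((em w).arg - Real.pi / 3) * (3 * (20 * (A : ℝ) + 1) / Real.pi), rfl, Int.floor_le _,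
    Int.lt_floor_add_one _, ?_⟩
  have h1 : (0 : ℝ) < 20 * (A : ℝ) + 1 := by positivity
  have hpi := Real.pi_pos
  have : Real.pi / 3 + ((em w).arg - Real.pi / 3) * (3 * (20 * (A : ℝ) + 1) / Real.pi) *
      (Real.pi / (3 * (20 * (A : ℝ) + 1))) = (em w).arg := by
    field_simp
    ring
  rw [this, Complex.norm_mul_exp_arg_mul_I]

private theorem Land_trig {A : ℕ} (hA : 100 ≤ A) {r φ u v : ℝ} (hr : 0 < r)
    (hr' : r ≤ 8 * (A : ℝ) ^ 6) (h1 : 11 * (Real.pi / (3 * (20 * (A : ℝ) + 1))) < φ)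
    (h2 : φ < 14 * (Real.pi / (3 * (20 * (A : ℝ) + 1)))) (hu : u + 3 / 2 * v = r * Real.cos φ)
    (hv : Real.sqrt 3 / 2 * v = r * Real.sin φ) :
    0 < v ∧ v ≤ 8 * (A : ℝ) ^ 5 ∧ A * v ≤ u ∧ u < 2 * A * v := by
  have hAr : (100 : ℝ) ≤ A := by exact_mod_cast hA
  have hA0 : (0 : ℝ) < A := by linarith
  have hpi1 := Real.pi_gt_d2
  have hpi2 := Real.pi_lt_d2
  have hs0 : (0 : ℝ) ≤ Real.sqrt 3 := Real.sqrt_nonneg 3
  have hs3 : Real.sqrt 3 * Real.sqrt 3 = 3 := Real.mul_self_sqrt (by norm_num)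
  have hs1 : (1.73 : ℝ) ≤ Real.sqrt 3 := by nlinarith
  have hs2 : Real.sqrt 3 ≤ 1.74 := by nlinarith
  set s := Real.sqrt 3 with hsdef
  -- bounds for A * φ
  have hN : (0 : ℝ) < 3 * (20 * (A : ℝ) + 1) := by positivity
  have hlow : 0.57 < A * φ := by
    have h3 : 0.57 / (A : ℝ) ≤ 11 * (Real.pi / (3 * (20 * (A : ℝ) + 1))) := by
      rw [← mul_div_assoc, div_le_div_iff₀ hA0 hN]
      nlinarith
    have h4 : 0.57 / (A : ℝ) < φ := lt_of_le_of_lt h3 h1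
    rw [div_lt_iff₀ hA0] at h4
    linarith
  have hup : A * φ < 0.7351 := by
    have h3 : 14 * (Real.pi / (3 * (20 * (A : ℝ) + 1))) ≤ 0.7351 / (A : ℝ) := by
      rw [← mul_div_assoc, div_le_div_iff₀ hN hA0]
      nlinarith
    have h4 : φ < 0.7351 / (A : ℝ) := lt_of_lt_of_le h2 h3
    rw [lt_div_iff₀ hA0] at h4
    linarith
  have hφ0 : 0 < φ := by
    by_contra hcon
    push Not at hcon
    nlinarith
  have hφ1 : φ < 0.01 := by
    by_contra hcon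
    push Not at hcon
    nlinarith
  have hsinu : Real.sin φ < φ := Real.sin_lt hφ0
  have hsinl : φ - φ ^ 3 / 6 < Real.sin φ := Real.sin_gt_sub_cube hφ0
  have hsin0 : 0.99 * φ ≤ Real.sin φ := by nlinarith [mul_pos hφ0 hφ0]
  have hcosu : Real.cos φ ≤ 1 := Real.cos_le_one φ
  have hcosl : 1 - φ ^ 2 / 2 ≤ Real.cos φ := Real.one_sub_sq_div_two_le_cos
  have hcos0 : 0.99 ≤ Real.cos φ := by nlinarith
  have hsinp : 0 < Real.sin φ := by nlinarith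
  have hAsu : A * Real.sin φ < 0.7351 := by nlinarith
  have hAsl : 0.56 < A * Real.sin φ := by nlinarith
  have hv0 : 0 < v := by
    by_contra hcon
    push Not at hcon
    have h5 : 0 < r * Real.sin φ := mul_pos hr hsinp
    have h6 : s / 2 * v ≤ 0 := mul_nonpos_of_nonneg_of_nonpos (by positivity) hcon
    linarith
  refine ⟨hv0, ?_, ?_, ?_⟩
  · -- v ≤ 8 A^5
    have h5 : r * Real.sin φ ≤ 8 * (A : ℝ) ^ 6 * Real.sin φ :=
      mul_le_mul_of_nonneg_right hr' hsinp.le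
    have h6 : 8 * (A : ℝ) ^ 6 * Real.sin φ = 8 * (A : ℝ) ^ 5 * (A * Real.sin φ) := by ring
    have hA5 : (0 : ℝ) < 8 * (A : ℝ) ^ 5 := by positivity
    have h7 : 8 * (A : ℝ) ^ 5 * (A * Real.sin φ) ≤ 8 * (A : ℝ) ^ 5 * 0.7351 :=
      mul_le_mul_of_nonneg_left hAsu.le hA5.le
    have h8 : s / 2 * v ≤ 8 * (A : ℝ) ^ 5 * 0.7351 := by rw [hv]; linarith
    have h9 : 0.865 * v ≤ s / 2 * v := mul_le_mul_of_nonneg_right (by linarith) hv0.le
    nlinarith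
  · -- A v ≤ u
    have h5 : s / 2 * (A * v) ≤ s / 2 * u := by
      have e1 : s / 2 * (A * v) = r * (A * Real.sin φ) := by
        calc s / 2 * (A * v) = A * (s / 2 * v) := by ring
          _ = _ := by rw [hv]; ring
      have e2 : s / 2 * u = r * (s / 2 * Real.cos φ - 3 / 2 * Real.sin φ) := by
        calc s / 2 * u = s / 2 * (u + 3 / 2 * v) - 3 / 2 * (s / 2 * v) := by ring
          _ = _ := by rw [hu, hv]; ring
      rw [e1, e2]
      refine mul_le_mul_of_nonneg_left ?_ hr.le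
      nlinarith
    exact le_of_mul_le_mul_left h5 (by linarith)
  · -- u < 2 A v
    have h5 : s / 2 * u < s / 2 * (2 * A * v) := by
      have e1 : s / 2 * (2 * A * v) = r * (2 * (A * Real.sin φ)) := by
        calc s / 2 * (2 * A * v) = 2 * A * (s / 2 * v) := by ring
          _ = _ := by rw [hv]; ring
      have e2 : s / 2 * u = r * (s / 2 * Real.cos φ - 3 / 2 * Real.sin φ) := by
        calc s / 2 * u = s / 2 * (u + 3 / 2 * v) - 3 / 2 * (s / 2 * v) := by ring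
          _ = _ := by rw [hu, hv]; ring
      rw [e1, e2]
      refine mul_lt_mul_of_pos_left ?_ hr
      nlinarith
    exact lt_of_mul_lt_mul_left h5 (by linarith)

theorem land : ∃ A0 : ℕ, ∀ A ≥ A0, ∀ K : ℕ, ∀ w1 ∈ RR A K, ∀ w2 ∈ RR A K, ∀ w3 ∈ RR A K,
    sec A w1 - sec A w2 + sec A w3 = 12 →
    ∃ k : ℕ, k < 6 ∧ rot^[k] (mu (mu w1 (cj w2)) w3) ∈ cusp A (8 * A ^ 5) := by
  refine ⟨100, fun A hA K w1 h1 w2 h2 w3 h3 hs => ?_⟩
  have hA1 : 1 ≤ A := le_trans (by norm_num) hA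
  have hAr : (100 : ℝ) ≤ A := by exact_mod_cast hA
  obtain ⟨j1, t1, e1, a1, b1, c1⟩ := Land_sec A w1
  obtain ⟨j2, t2, e2, a2, b2, c2⟩ := Land_sec A w2
  obtain ⟨j3, t3, e3, a3, b3, c3⟩ := Land_sec A w3
  obtain ⟨n1, m1⟩ := Land_norm hA1 h1
  obtain ⟨n2, m2⟩ := Land_norm hA1 h2
  obtain ⟨n3, m3⟩ := Land_norm hA1 h3
  have hdiv : (((20 * A + 1 : ℕ)) : ℤ) ∣ (j1 - j2 + j3 - 12) := by
    rw [← ZMod.intCast_zmod_eq_zero_iff_dvd]
    push_cast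
    rw [← e1, ← e2, ← e3, hs]
    ring
  obtain ⟨l, hl⟩ := hdiv
  have hlr : (j1 : ℝ) - j2 + j3 - 12 = (20 * (A : ℝ) + 1) * l := by
    have := congrArg (Int.cast : ℤ → ℝ) hl
    push_cast at this
    linarith
  set om3 : ℝ := Real.pi / (3 * (20 * (A : ℝ) + 1)) with hom3
  have hN : (0 : ℝ) < 20 * (A : ℝ) + 1 := by positivity
  have hom0 : 0 < om3 := by
    have := Real.pi_pos
    positivity
  have hNom : (20 * (A : ℝ) + 1) * om3 = Real.pi / 3 := by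
    rw [hom3]; field_simp
  set φ : ℝ := (t1 - t2 + t3 - (20 * (A : ℝ) + 1) * l) * om3 with hφ
  have hφ1 : 11 * om3 < φ := by
    rw [hφ]
    refine mul_lt_mul_of_pos_right ?_ hom0
    linarith
  have hφ2 : φ < 14 * om3 := by
    rw [hφ]
    refine mul_lt_mul_of_pos_right ?_ hom0
    linarith
  have hW : em (mu (mu w1 (cj w2)) w3) = ((‖em w1‖ * ‖em w2‖ * ‖em w3‖ : ℝ) : ℂ) *
      Complex.exp ((((l : ℝ) + 1) * (Real.pi / 3) + φ : ℝ) * Complex.I) := by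
    have h4 : (((l : ℝ) + 1) * (Real.pi / 3) + φ : ℝ) =
        (Real.pi / 3 + t1 * om3) - (Real.pi / 3 + t2 * om3) + (Real.pi / 3 + t3 * om3) := by
      rw [hφ, ← hNom]; ring
    have h5 : (starRingEnd ℂ) (em w2) = (‖em w2‖ : ℂ) *
        Complex.exp (-(((Real.pi / 3 + t2 * om3 : ℝ) : ℂ) * Complex.I)) := by
      conv_lhs => rw [c2]
      rw [map_mul, Complex.conj_ofReal, ← Complex.exp_conj, map_mul, Complex.conj_ofReal,
        Complex.conj_I, mul_neg]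
    rw [em_mu, em_mu, em_cj, h5, h4]
    conv_lhs => rw [c1, c3]
    have h6 : (((Real.pi / 3 + t1 * om3) - (Real.pi / 3 + t2 * om3) +
        (Real.pi / 3 + t3 * om3) : ℝ) : ℂ) * Complex.I =
        ((Real.pi / 3 + t1 * om3 : ℝ) : ℂ) * Complex.I +
        -(((Real.pi / 3 + t2 * om3 : ℝ) : ℂ) * Complex.I) +
        ((Real.pi / 3 + t3 * om3 : ℝ) : ℂ) * Complex.I := by
      push_cast; ring
    rw [h6, Complex.exp_add, Complex.exp_add]
    push_cast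
    ring
  -- the rotation
  have hk0 : 0 ≤ (-(l + 1)) % 6 := Int.emod_nonneg _ (by norm_num)
  have hk6 : (-(l + 1)) % 6 < 6 := Int.emod_lt_of_pos _ (by norm_num)
  have hkq := Int.emod_add_mul_ediv (-(l + 1)) 6
  set q : ℤ := -((-(l + 1)) / 6) with hq
  obtain ⟨k, hk⟩ := Int.eq_ofNat_of_zero_le hk0
  have hkl : (k : ℤ) + (l + 1) = 6 * q := by
    rw [hk] at hkq
    rw [hq]
    linarith
  have hklr : (k : ℝ) + ((l : ℝ) + 1) = 6 * q := by exact_mod_cast hkl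
  refine ⟨k, by omega, ?_⟩
  have hrot : em (rot^[k] (mu (mu w1 (cj w2)) w3)) = ((‖em w1‖ * ‖em w2‖ * ‖em w3‖ : ℝ) : ℂ) *
      Complex.exp ((φ : ℂ) * Complex.I) := by
    rw [em_rot_pow, hW, om_eq, ← Complex.exp_nat_mul]
    have h7 : Complex.exp ((k : ℂ) * ((Real.pi : ℂ) / 3 * Complex.I)) *
        Complex.exp (((((l : ℝ) + 1) * (Real.pi / 3) + φ : ℝ) : ℂ) * Complex.I) =
        Complex.exp ((φ : ℂ) * Complex.I) := by
      rw [← Complex.exp_add]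
      have h8 : (k : ℂ) * ((Real.pi : ℂ) / 3 * Complex.I) +
          ((((l : ℝ) + 1) * (Real.pi / 3) + φ : ℝ) : ℂ) * Complex.I =
          (φ : ℂ) * Complex.I + (q : ℂ) * (2 * (Real.pi : ℂ) * Complex.I) := by
        have h9 : (k : ℂ) + ((l : ℂ) + 1) = 6 * (q : ℂ) := by exact_mod_cast hkl
        push_cast
        linear_combination ((Real.pi : ℂ) / 3 * Complex.I) * h9
      rw [h8, Complex.exp_add, Complex.exp_int_mul_two_pi_mul_I, mul_one]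
    rw [← h7]
    ring
  set W : ℤ × ℤ := rot^[k] (mu (mu w1 (cj w2)) w3) with hWdef
  have hre : (W.1 : ℝ) + 3 / 2 * (W.2 : ℝ) = ‖em w1‖ * ‖em w2‖ * ‖em w3‖ * Real.cos φ := by
    have := congrArg Complex.re hrot
    rw [Complex.re_ofReal_mul, Complex.exp_ofReal_mul_I_re] at this
    exact this
  have him : Real.sqrt 3 / 2 * (W.2 : ℝ) = ‖em w1‖ * ‖em w2‖ * ‖em w3‖ * Real.sin φ := by
    have := congrArg Complex.im hrot
    rw [Complex.im_ofReal_mul, Complex.exp_ofReal_mul_I_im] at this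
    exact this
  have hr0 : 0 < ‖em w1‖ * ‖em w2‖ * ‖em w3‖ := by positivity
  have hr8 : ‖em w1‖ * ‖em w2‖ * ‖em w3‖ ≤ 8 * (A : ℝ) ^ 6 := by
    have h10 : ‖em w1‖ * ‖em w2‖ * ‖em w3‖ ≤
        (2 * (A : ℝ) ^ 2) * (2 * (A : ℝ) ^ 2) * (2 * (A : ℝ) ^ 2) := by
      gcongr
    calc _ ≤ _ := h10
      _ = _ := by ring
  obtain ⟨g1, g2, g3, g4⟩ := Land_trig hA hr0 hr8 hφ1 hφ2 hre him
  have f1 : (0 : ℤ) < W.2 := by exact_mod_cast g1
  have f2 : W.2 ≤ 8 * (A : ℤ) ^ 5 := by exact_mod_cast g2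
  have f3 : (A : ℤ) * W.2 ≤ W.1 := by exact_mod_cast g3
  have f4 : W.1 < 2 * (A : ℤ) * W.2 := by exact_mod_cast g4
  have hAz : (1 : ℤ) ≤ A := by exact_mod_cast hA1
  unfold cusp
  rw [mem_sel, mem_product, mem_Icc, mem_Icc]
  push_cast
  refine ⟨⟨⟨?_, ?_⟩, ⟨by omega, f2⟩⟩, f3, f4⟩
  · nlinarith
  · have : 2 * (A : ℤ) * W.2 ≤ 2 * (A : ℤ) * (8 * (A : ℤ) ^ 5) :=
      mul_le_mul_of_nonneg_left f2 (by positivity)
    linarith

end Pool.Agent.H17.RP
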