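import Pool.Agent.H17.RP.Kill

/-!
# LemFa: counting subset products in residue classes

`3b ∣ a - d`, `R = (a - d)/(3b)`, `d = prd T`.

`lemF_count`.  `m = ∏ I`, `m0 = 3|b|`.  By CRT `fk R = 0 mod m` means that `R` is in one of `ρ(m)`
classes `x` modulo `m`, `ρ(m) = ∏ ρ(q)`, `ρ(q) = 2` for `q = 1 mod 3` and `0` otherwise
(`fk_two_roots`, `fk_no_root`; `crt_card`), i.e. `d = a - 3 b x mod m0 m`.  This class is prime to
`m0 m`: modulo a prime factor of `3b` it is `a` (coprime to `3b`); for a prime `q' ∣ m`, `q' ∤ 3b`, if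
`q' ∣ a - 3bx` then `F a b = 3b² fk x = 0 mod q'`, but `q' ∤ F a b`.  It is `1` modulo `3`.  `Unif` with
`M = m0 m`: the number is `2^|D| 2 ρ(m)/φ(m0 m)` up to `2^|I| 2^|D|/t^e3`, and
`φ(m0 m) = φ(m0) ∏_(q∈I) (q or q-1)` (`q` if `q ∣ m0`, `q - 1` otherwise).  `dl b q` is the density.

`lemF_class`.  `q ∤ 3b`: `d = a mod 3b` and `d = x mod q` is one class modulo `m0 q`.  If `q ∣ x` there is
no `T` (`q ∤ d`, all `p ∈ D` are `> 2^t ≥ q`), otherwise the class is prime to `m0 q` and `1` modulo `3`: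
`Unif`.
-/

set_option autoImplicit false

namespace Pool.Agent.H17.RP

open Finset

/-- density of the root classes of `fk` in the progression `a mod 3b` -/
noncomputable def dl (b : ℤ) (q : ℕ) : ℝ :=
  if q % 3 = 1 then (if (q : ℤ) ∣ b then 2 / (q : ℝ) else 2 / ((q : ℝ) - 1)) else 0

theorem dl_bounds (b : ℤ) {q : ℕ} (hq : q.Prime) :
    0 ≤ dl b q ∧ dl b q ≤ 1 / 2 ∧ dl b q * ((q : ℝ) - 1) ≤ 2 := by
  unfold dl
  by_cases h3 : q % 3 = 1
  · have h7 : 7 ≤ q := by
      have h2 := hq.two_le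
      by_contra hlt
      have hlt' : q < 7 := by omega
      interval_cases q <;> first | omega | (revert hq; decide)
    have h7' : (7 : ℝ) ≤ q := by exact_mod_cast h7
    have hq0 : (0 : ℝ) < q := by linarith
    have hq1 : (0 : ℝ) < (q : ℝ) - 1 := by linarith
    rw [if_pos h3]
    split_ifs with hqb
    · refine ⟨by positivity, ?_, ?_⟩
      · rw [div_le_div_iff₀ hq0 (by norm_num)]; linarith
      · rw [div_mul_eq_mul_div, div_le_iff₀ hq0]; linarith
    · refine ⟨by positivity, ?_, ?_⟩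
      · rw [div_le_div_iff₀ hq1 (by norm_num)]; linarith
      · rw [div_mul_cancel₀ _ hq1.ne']
  · rw [if_neg h3]; norm_num

/-- the root classes modulo `∏ I` -/
private noncomputable def XX (I : Finset ℕ) : Finset ℕ :=
  sel (range (∏ q ∈ I, q)) (fun x => ∀ q ∈ I, (q : ℤ) ∣ fk (x : ℤ))

private theorem fk_congr {q : ℤ} {x y : ℤ} (h : q ∣ x - y) : q ∣ fk x ↔ q ∣ fk y := by
  have h1 : q ∣ fk x - fk y := by
    have : fk x - fk y = (x - y) * (3 * (x + y) + 3) := by unfold fk; ring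
    rw [this]; exact Dvd.dvd.mul_right h _
  constructor
  · intro h2
    have := Int.dvd_sub h2 h1
    simpa using this
  · intro h2
    have := Int.dvd_add h1 h2
    simpa using this

private theorem card_XX (I : Finset ℕ) (hI : ∀ q ∈ I, q.Prime) :
    (XX I).card = ∏ q ∈ I, (if q % 3 = 1 then 2 else 0) := by
  have h := crt_card I hI (fun q x => (q : ℤ) ∣ fk (x : ℤ)) (fun p _ m => by
    apply fk_congr; push_cast; simp)
  unfold XX
  change cs _ _ = _
  rw [h]
  refine prod_congr rfl fun q hq => ?_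
  split_ifs with h3
  · exact fk_two_roots (hI q hq) h3
  · unfold cs
    rw [card_eq_zero, eq_empty_iff_forall_notMem]
    intro x hx
    exact fk_no_root (hI q hq) h3 _ (mem_sel.1 hx).2

private theorem prime_dvd_prod {p : ℕ} (hp : p.Prime) {I : Finset ℕ} (hI : ∀ q ∈ I, q.Prime)
    (h : p ∣ ∏ q ∈ I, q) : p ∈ I := by
  obtain ⟨q, hq, h1⟩ := (Prime.dvd_finset_prod_iff hp.prime _).1 h
  rwa [(Nat.prime_dvd_prime_iff_eq hp (hI q hq)).1 h1]

private theorem totient_prod (m0 : ℕ) (hm0 : 0 < m0) (I : Finset ℕ) (hI : ∀ q ∈ I, q.Prime) :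
    ((m0 * ∏ q ∈ I, q).totient : ℝ) =
      (m0.totient : ℝ) * ∏ q ∈ I, (if q ∣ m0 then (q : ℝ) else (q : ℝ) - 1) := by
  classical
  induction I using Finset.induction_on with
  | empty => simp
  | insert p s hp ih =>
    have hp' : p.Prime := hI p (mem_insert_self _ _)
    have hs : ∀ q ∈ s, q.Prime := fun q hq => hI q (mem_insert_of_mem hq)
    rw [prod_insert hp, prod_insert hp]
    have e : m0 * (p * ∏ q ∈ s, q) = p * (m0 * ∏ q ∈ s, q) := by ring
    rw [e]
    have hdvd : p ∣ m0 * ∏ q ∈ s, q ↔ p ∣ m0 := by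
      rw [hp'.dvd_mul]
      constructor
      · rintro (h | h)
        · exact h
        · exact absurd (prime_dvd_prod hp' hs h) hp
      · exact Or.inl
    by_cases h : p ∣ m0
    · rw [Nat.totient_mul_of_prime_of_dvd hp' (hdvd.2 h), if_pos h, Nat.cast_mul, ih hs]
      ring
    · rw [Nat.totient_mul_of_prime_of_not_dvd hp' (fun h' => h (hdvd.1 h')), if_neg h, Nat.cast_mul,
        ih hs, Nat.cast_sub hp'.one_le]
      push_cast
      ring

private theorem coprime_of_primes {c : ℤ} {M : ℕ} (hM : 0 < M)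
    (h : ∀ p : ℕ, p.Prime → p ∣ M → ¬ (p : ℤ) ∣ c) : IsCoprime c (M : ℤ) := by
  rw [Int.isCoprime_iff_gcd_eq_one]
  by_contra hne
  obtain ⟨p, hp, hd⟩ := Nat.exists_prime_and_dvd hne
  have h1 : (p : ℤ) ∣ c := (Int.natCast_dvd_natCast.2 hd).trans (Int.gcd_dvd_left _ _)
  have h2 : (p : ℤ) ∣ (M : ℤ) := (Int.natCast_dvd_natCast.2 hd).trans (Int.gcd_dvd_right _ _)
  exact h p hp (Int.natCast_dvd_natCast.1 h2) h1

private theorem mod_aux {a : ℤ} (ha : a % 3 = 1) (b x : ℤ) : (a - 3 * b * x) % 3 = 1 := by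
  have : a - 3 * b * x = a - 3 * (b * x) := by ring
  rw [this]; omega

theorem lemF_count {t e1 e3 : ℕ} {D : Finset ℕ} (hD : ∀ p ∈ D, p.Prime ∧ p % 3 = 1 ∧ 2 ^ t < p)
    (hU : Unif e1 e3 t D) {a b : ℤ} (ha : a % 3 = 1) (hb : b ≠ 0) (hab : IsCoprime a (3 * b))
    (I : Finset ℕ) (hI : ∀ q ∈ I, q.Prime ∧ ¬ (q : ℤ) ∣ F a b)
    (hM : 3 * b.natAbs * ∏ q ∈ I, q ≤ t ^ e1) :
    |(cs (sel D.powerset (fun T => 3 * b ∣ a - (prd T : ℤ)))
        (fun T => ∀ q ∈ I, (q : ℤ) ∣ fk ((a - (prd T : ℤ)) / (3 * b))) : ℝ) -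
      2 ^ D.card * (2 / ((3 * b.natAbs).totient : ℝ)) * ∏ q ∈ I, dl b q| ≤
      2 ^ I.card * (2 ^ D.card / (t : ℝ) ^ e3) := by
  classical
  have hIp : ∀ q ∈ I, q.Prime := fun q hq => (hI q hq).1
  set m : ℕ := ∏ q ∈ I, q with hm
  set m0 : ℕ := 3 * b.natAbs with hm0
  have hbn : 0 < b.natAbs := Int.natAbs_pos.2 hb
  have hm0pos : 0 < m0 := by omega
  have hmpos : 0 < m := prod_pos fun q hq => (hIp q hq).pos
  have hMpos : 0 < m0 * m := Nat.mul_pos hm0pos hmpos
  have h3b : (3 * b : ℤ) ≠ 0 := by omega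
  -- `3b` and `m0` are associated
  have hass : ∀ z : ℤ, (m0 : ℤ) ∣ z ↔ 3 * b ∣ z := by
    intro z
    have : (m0 : ℤ) = |3 * b| := by
      rw [hm0]; push_cast; rw [abs_mul]; simp
    rw [this, abs_dvd]
  have hMz : ∀ z : ℤ, ((m0 * m : ℕ) : ℤ) ∣ 3 * b * z ↔ (m : ℤ) ∣ z := by
    intro z
    have : ((m0 * m : ℕ) : ℤ) = |3 * b * (m : ℤ)| := by
      rw [hm0]; push_cast; rw [abs_mul, abs_mul]; simp
    rw [this, abs_dvd]
    exact mul_dvd_mul_iff_left h3b
  -- the classes
  have key : sel (sel D.powerset (fun T => 3 * b ∣ a - (prd T : ℤ)))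
        (fun T => ∀ q ∈ I, (q : ℤ) ∣ fk ((a - (prd T : ℤ)) / (3 * b))) =
      (XX I).biUnion (fun x => sel D.powerset
        (fun T => ((m0 * m : ℕ) : ℤ) ∣ (prd T : ℤ) - (a - 3 * b * (x : ℤ)))) := by
    ext T
    rw [mem_sel, mem_sel, mem_biUnion]
    constructor
    · rintro ⟨⟨hT, R, hR⟩, h2⟩
      have hR' : (a - (prd T : ℤ)) / (3 * b) = R := by
        rw [hR]; exact Int.mul_ediv_cancel_left _ h3b
      rw [hR'] at h2
      have hx0 : 0 ≤ R % (m : ℤ) := Int.emod_nonneg _ (by exact_mod_cast hmpos.ne')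
      have hx1 : R % (m : ℤ) < m := Int.emod_lt_of_pos _ (by exact_mod_cast hmpos)
      have hxn : (((R % (m : ℤ)).toNat : ℕ) : ℤ) = R % (m : ℤ) := Int.toNat_of_nonneg hx0
      have hRx : (m : ℤ) ∣ R - R % (m : ℤ) := by
        refine ⟨R / m, ?_⟩
        have := Int.emod_add_mul_ediv R m
        linarith
      refine ⟨(R % (m : ℤ)).toNat, ?_, ?_⟩
      · unfold XX
        rw [mem_sel, mem_range]
        refine ⟨by rw [← hm]; omega, fun q hq => ?_⟩
        rw [hxn]
        have hqm : (q : ℤ) ∣ (m : ℤ) := Int.natCast_dvd_natCast.2 (dvd_prod_of_mem _ hq)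
        exact (fk_congr (hqm.trans hRx)).1 (h2 q hq)
      · rw [mem_sel]
        refine ⟨hT, ?_⟩
        rw [hxn]
        have e : (prd T : ℤ) - (a - 3 * b * (R % (m : ℤ))) = -(3 * b * (R - R % (m : ℤ))) := by
          have : (prd T : ℤ) = a - 3 * b * R := by linarith
          rw [this]; ring
        rw [e, dvd_neg, hMz]
        exact hRx
    · rintro ⟨x, hx, h1⟩
      rw [mem_sel] at h1
      unfold XX at hx
      rw [mem_sel, mem_range] at hx
      have hd3 : 3 * b ∣ a - (prd T : ℤ) := by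
        have h2 : (m0 : ℤ) ∣ (prd T : ℤ) - (a - 3 * b * (x : ℤ)) :=
          (Int.natCast_dvd_natCast.2 (dvd_mul_right m0 m)).trans h1.2
        rw [hass] at h2
        have h3 : 3 * b ∣ 3 * b * (x : ℤ) := dvd_mul_right _ _
        have h4 := Int.dvd_sub h3 h2
        have e : 3 * b * (x : ℤ) - ((prd T : ℤ) - (a - 3 * b * (x : ℤ))) = a - (prd T : ℤ) := by ring
        rwa [e] at h4
      refine ⟨⟨h1.1, hd3⟩, ?_⟩
      obtain ⟨R, hR⟩ := hd3
      have hR' : (a - (prd T : ℤ)) / (3 * b) = R := by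
        rw [hR]; exact Int.mul_ediv_cancel_left _ h3b
      rw [hR']
      intro q hq
      have hqm : (q : ℤ) ∣ (m : ℤ) := Int.natCast_dvd_natCast.2 (dvd_prod_of_mem _ hq)
      have hRx : (m : ℤ) ∣ R - x := by
        rw [← hMz]
        have e : 3 * b * (R - (x : ℤ)) = -((prd T : ℤ) - (a - 3 * b * (x : ℤ))) := by
          have : (prd T : ℤ) = a - 3 * b * R := by linarith
          rw [this]; ring
        rw [e, dvd_neg]
        exact h1.2
      exact (fk_congr (hqm.trans hRx)).2 (hx.2 q hq)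
  have hdisj : ∀ x ∈ XX I, ∀ y ∈ XX I, x ≠ y →
      Disjoint (sel D.powerset
        (fun T => ((m0 * m : ℕ) : ℤ) ∣ (prd T : ℤ) - (a - 3 * b * (x : ℤ))))
        (sel D.powerset
        (fun T => ((m0 * m : ℕ) : ℤ) ∣ (prd T : ℤ) - (a - 3 * b * (y : ℤ)))) := by
    intro x hx y hy hxy
    rw [disjoint_left]
    intro T h1 h2
    rw [mem_sel] at h1 h2
    unfold XX at hx hy
    rw [mem_sel, mem_range] at hx hy
    apply hxy
    have h3 := Int.dvd_sub h1.2 h2.2
    have e : ((prd T : ℤ) - (a - 3 * b * (x : ℤ))) - ((prd T : ℤ) - (a - 3 * b * (y : ℤ))) =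
        3 * b * ((x : ℤ) - y) := by ring
    rw [e, hMz] at h3
    have hxm : (x : ℤ) < m := by exact_mod_cast hx.1
    have hym : (y : ℤ) < m := by exact_mod_cast hy.1
    have h4 : (x : ℤ) - y = 0 := by
      apply Int.eq_zero_of_abs_lt_dvd h3
      rw [abs_lt]; constructor <;> omega
    omega
  have hcs : (cs (sel D.powerset (fun T => 3 * b ∣ a - (prd T : ℤ)))
        (fun T => ∀ q ∈ I, (q : ℤ) ∣ fk ((a - (prd T : ℤ)) / (3 * b)))) =
      ∑ x ∈ XX I, cnt D (m0 * m) (a - 3 * b * (x : ℤ)) := by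
    unfold cs
    rw [key, card_biUnion hdisj]
    rfl
  -- uniformity
  have hunif : ∀ x ∈ XX I, |(cnt D (m0 * m) (a - 3 * b * (x : ℤ)) : ℝ) -
      2 ^ D.card * (2 / ((m0 * m).totient : ℝ))| ≤ 2 ^ D.card / (t : ℝ) ^ e3 := by
    intro x hx
    refine hU (m0 * m) hMpos hM ?_ _ ?_ (mod_aux ha b x)
    · exact Dvd.dvd.mul_right (by rw [hm0]; exact dvd_mul_right _ _) _
    · refine coprime_of_primes hMpos fun p hp hpM hpc => ?_
      have hp' : Prime (p : ℤ) := Nat.prime_iff_prime_int.1 hp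
      by_cases h3 : (p : ℤ) ∣ 3 * b
      · have h4 : (p : ℤ) ∣ a := by
          have h5 : (p : ℤ) ∣ 3 * b * (x : ℤ) := Dvd.dvd.mul_right h3 _
          have h6 := Int.dvd_add hpc h5
          have e : a - 3 * b * (x : ℤ) + 3 * b * (x : ℤ) = a := by ring
          rwa [e] at h6
        exact hp'.not_unit (hab.isUnit_of_dvd' h4 h3)
      · have hpI : p ∈ I := by
          rcases (hp.dvd_mul).1 hpM with h4 | h4
          · exact absurd ((hass _).1 (dvd_refl _) |> fun _ => by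
              have h5 : (p : ℤ) ∣ (m0 : ℤ) := Int.natCast_dvd_natCast.2 h4
              have h6 : (m0 : ℤ) ∣ 3 * b := (hass _).2 (dvd_refl _)
              exact h5.trans h6) h3
          · exact prime_dvd_prod hp hIp h4
        apply (hI p hpI).2
        unfold XX at hx
        rw [mem_sel] at hx
        have h5 := hx.2 p hpI
        have e : F a b = (a - 3 * b * (x : ℤ)) * (a + 3 * b * x + 3 * b) + 3 * b ^ 2 * fk (x : ℤ) := by
          unfold F fk; ring
        rw [e]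
        exact Int.dvd_add (Dvd.dvd.mul_right hpc _) (Dvd.dvd.mul_left h5 _)
  have hcardle : ((XX I).card : ℝ) ≤ 2 ^ I.card := by
    rw [card_XX I hIp]
    push_cast
    calc ∏ q ∈ I, (if q % 3 = 1 then (2 : ℝ) else 0) ≤ ∏ _q ∈ I, (2 : ℝ) := by
          apply prod_le_prod
          · intro q _; split_ifs <;> norm_num
          · intro q _; split_ifs <;> norm_num
      _ = 2 ^ I.card := by rw [prod_const]
  have hmain : ((XX I).card : ℝ) * (2 ^ D.card * (2 / ((m0 * m).totient : ℝ))) =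
      2 ^ D.card * (2 / (m0.totient : ℝ)) * ∏ q ∈ I, dl b q := by
    rw [card_XX I hIp, totient_prod m0 hm0pos I hIp]
    push_cast
    by_cases hall : ∀ q ∈ I, q % 3 = 1
    · have e1 : ∏ q ∈ I, dl b q = (∏ q ∈ I, (if q % 3 = 1 then (2 : ℝ) else 0)) /
          ∏ q ∈ I, (if q ∣ m0 then (q : ℝ) else (q : ℝ) - 1) := by
        rw [← prod_div_distrib]
        refine prod_congr rfl fun q hq => ?_
        unfold dl
        rw [if_pos (hall q hq), if_pos (hall q hq)]
        have hqp := hIp q hq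
        have hiff : (q : ℤ) ∣ b ↔ q ∣ m0 := by
          rw [hm0, hqp.dvd_mul]
          constructor
          · intro h
            right
            exact Int.natCast_dvd.1 h
          · rintro (h | h)
            · exfalso
              have := (Nat.prime_dvd_prime_iff_eq hqp Nat.prime_three).1 h
              have h5 := hall q hq
              rw [this] at h5
              norm_num at h5
            · exact Int.natCast_dvd.2 h
        by_cases h : (q : ℤ) ∣ b
        · rw [if_pos h, if_pos (hiff.1 h)]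
        · rw [if_neg h, if_neg (fun h' => h (hiff.2 h'))]
      rw [e1]
      have h1 : (m0.totient : ℝ) ≠ 0 := by
        exact_mod_cast (Nat.totient_pos.2 hm0pos).ne'
      have h2 : (∏ q ∈ I, (if q ∣ m0 then (q : ℝ) else (q : ℝ) - 1)) ≠ 0 := by
        rw [prod_ne_zero_iff]
        intro q hq
        have := (hIp q hq).one_lt
        have h' : (1 : ℝ) < q := by exact_mod_cast this
        split_ifs
        · linarith
        · linarith
      field_simp
    · push_neg at hall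
      obtain ⟨q, hq, hq3⟩ := hall
      rw [prod_eq_zero hq (if_neg hq3)]
      have : dl b q = 0 := by unfold dl; rw [if_neg hq3]
      rw [prod_eq_zero hq this]
      simp
  rw [hcs, ← hmain]
  push_cast
  have hrw : (∑ x ∈ XX I, (cnt D (m0 * m) (a - 3 * b * (x : ℤ)) : ℝ)) -
      ((XX I).card : ℝ) * (2 ^ D.card * (2 / ((m0 * m).totient : ℝ))) =
      ∑ x ∈ XX I, ((cnt D (m0 * m) (a - 3 * b * (x : ℤ)) : ℝ) -
        2 ^ D.card * (2 / ((m0 * m).totient : ℝ))) := by
    rw [sum_sub_distrib, sum_const, nsmul_eq_mul]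
  rw [hrw]
  have hnn : (0 : ℝ) ≤ 2 ^ D.card / (t : ℝ) ^ e3 := by positivity
  calc |∑ x ∈ XX I, ((cnt D (m0 * m) (a - 3 * b * (x : ℤ)) : ℝ) -
        2 ^ D.card * (2 / ((m0 * m).totient : ℝ)))|
      ≤ ∑ x ∈ XX I, |(cnt D (m0 * m) (a - 3 * b * (x : ℤ)) : ℝ) -
        2 ^ D.card * (2 / ((m0 * m).totient : ℝ))| := abs_sum_le_sum_abs _ _
    _ ≤ ∑ _x ∈ XX I, 2 ^ D.card / (t : ℝ) ^ e3 := sum_le_sum hunif
    _ = ((XX I).card : ℝ) * (2 ^ D.card / (t : ℝ) ^ e3) := by rw [sum_const, nsmul_eq_mul]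
    _ ≤ 2 ^ I.card * (2 ^ D.card / (t : ℝ) ^ e3) := mul_le_mul_of_nonneg_right hcardle hnn

theorem lemF_class {t e1 e3 : ℕ} {D : Finset ℕ} (hD : ∀ p ∈ D, p.Prime ∧ p % 3 = 1 ∧ 2 ^ t < p)
    (hU : Unif e1 e3 t D) {a b : ℤ} (ha : a % 3 = 1) (hb : b ≠ 0) (hab : IsCoprime a (3 * b))
    {q : ℕ} (hq : q.Prime) (hqb : ¬ (q : ℤ) ∣ 3 * b) (hq2 : q ≤ 2 ^ t)
    (hM : 3 * b.natAbs * q ≤ t ^ e1) (x : ℤ) :
    (cs (sel D.powerset (fun T => 3 * b ∣ a - (prd T : ℤ))) (fun T => (q : ℤ) ∣ (prd T : ℤ) - x) : ℝ)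
      ≤ 2 ^ D.card * (2 / ((3 * b.natAbs * q).totient : ℝ)) + 2 ^ D.card / (t : ℝ) ^ e3 := by
  classical
  have hbn : 0 < b.natAbs := Int.natAbs_pos.2 hb
  have hMpos : 0 < 3 * b.natAbs * q := Nat.mul_pos (by omega) hq.pos
  have hq' : Prime (q : ℤ) := Nat.prime_iff_prime_int.1 hq
  by_cases hx : (q : ℤ) ∣ x
  · have h0 : cs (sel D.powerset (fun T => 3 * b ∣ a - (prd T : ℤ)))
        (fun T => (q : ℤ) ∣ (prd T : ℤ) - x) = 0 := by
      unfold cs
      rw [card_eq_zero, eq_empty_iff_forall_notMem]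
      intro T hT
      rw [mem_sel, mem_sel, mem_powerset] at hT
      obtain ⟨⟨hTD, _⟩, h1⟩ := hT
      have h2 : (q : ℤ) ∣ (prd T : ℤ) := by
        have := Int.dvd_add h1 hx
        simpa using this
      have h3 : q ∣ prd T := Int.natCast_dvd_natCast.1 h2
      have h4 : q ∈ T := prime_dvd_prod hq (fun p hp => (hD p (hTD hp)).1) h3
      have h5 := (hD q (hTD h4)).2.2
      omega
    rw [h0]
    have : (0 : ℝ) ≤ 2 ^ D.card * (2 / ((3 * b.natAbs * q).totient : ℝ)) +
      2 ^ D.card / (t : ℝ) ^ e3 := by positivity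
    simpa using this
  · -- Chinese remainder theorem
    have hcop : IsCoprime (3 * b) (q : ℤ) :=
      ((Prime.coprime_iff_not_dvd hq').2 hqb).symm
    obtain ⟨u, v, huv⟩ := hcop
    set c : ℤ := a * (v * q) + x * (u * (3 * b)) with hc
    have hc1 : c = a + 3 * b * (u * (x - a)) := by
      have : v * (q : ℤ) = 1 - u * (3 * b) := by linarith
      rw [hc, this]; ring
    have hc2 : c = x + q * (v * (a - x)) := by
      have : u * (3 * b) = 1 - v * (q : ℤ) := by linarith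
      rw [hc, this]; ring
    have hcM : IsCoprime c ((3 * b.natAbs * q : ℕ) : ℤ) := by
      refine coprime_of_primes hMpos fun p hp hpM hpc => ?_
      have hp' : Prime (p : ℤ) := Nat.prime_iff_prime_int.1 hp
      rcases (hp.dvd_mul).1 hpM with h4 | h4
      · have h3 : (p : ℤ) ∣ 3 * b := by
          have h5 : (p : ℤ) ∣ ((3 * b.natAbs : ℕ) : ℤ) := Int.natCast_dvd_natCast.2 h4
          have h6 : ((3 * b.natAbs : ℕ) : ℤ) = |3 * b| := by
            push_cast; rw [abs_mul]; simp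
          rw [h6, dvd_abs] at h5
          exact h5
        have h7 : (p : ℤ) ∣ a := by
          have h5 : (p : ℤ) ∣ 3 * b * (u * (x - a)) := Dvd.dvd.mul_right h3 _
          have h6 := Int.dvd_sub hpc h5
          rw [hc1] at h6
          simpa using h6
        exact hp'.not_unit (hab.isUnit_of_dvd' h7 h3)
      · have hpq : p = q := (Nat.prime_dvd_prime_iff_eq hp hq).1 h4
        subst hpq
        apply hx
        have h5 : (p : ℤ) ∣ p * (v * (a - x)) := dvd_mul_right _ _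
        have h6 := Int.dvd_sub hpc h5
        rw [hc2] at h6
        simpa using h6
    have hc3 : c % 3 = 1 := by
      have : c = a - 3 * b * (-(u * (x - a))) := by rw [hc1]; ring
      rw [this]; exact mod_aux ha b _
    have h3M : 3 ∣ 3 * b.natAbs * q := ⟨b.natAbs * q, by ring⟩
    have hun := hU (3 * b.natAbs * q) hMpos hM h3M c hcM hc3
    have hle : cs (sel D.powerset (fun T => 3 * b ∣ a - (prd T : ℤ)))
        (fun T => (q : ℤ) ∣ (prd T : ℤ) - x) ≤ cnt D (3 * b.natAbs * q) c := by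
      unfold cnt
      refine card_le_card fun T hT => ?_
      rw [mem_sel, mem_sel] at hT
      rw [mem_sel]
      refine ⟨hT.1.1, ?_⟩
      have h1 : 3 * b ∣ (prd T : ℤ) - c := by
        have h2 : 3 * b ∣ 3 * b * (u * (x - a)) := dvd_mul_right _ _
        have h3 := Int.dvd_add hT.1.2 h2
        have e : (prd T : ℤ) - c = -(a - (prd T : ℤ) + 3 * b * (u * (x - a))) := by
          rw [hc1]; ring
        rw [e, dvd_neg]; exact h3
      have h2 : (q : ℤ) ∣ (prd T : ℤ) - c := by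
        have h3 : (q : ℤ) ∣ q * (v * (a - x)) := dvd_mul_right _ _
        have h4 := Int.dvd_sub hT.2 h3
        have e : (prd T : ℤ) - c = (prd T : ℤ) - x - q * (v * (a - x)) := by
          rw [hc2]; ring
        rw [e]; exact h4
      have h5 : 3 * b * (q : ℤ) ∣ (prd T : ℤ) - c :=
        IsCoprime.mul_dvd ⟨u, v, huv⟩ h1 h2
      have h6 : ((3 * b.natAbs * q : ℕ) : ℤ) = |3 * b * (q : ℤ)| := by
        push_cast; rw [abs_mul, abs_mul]; simp
      rw [h6, abs_dvd]; exact h5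
    have hle' : (cs (sel D.powerset (fun T => 3 * b ∣ a - (prd T : ℤ)))
        (fun T => (q : ℤ) ∣ (prd T : ℤ) - x) : ℝ) ≤ (cnt D (3 * b.natAbs * q) c : ℝ) := by
      exact_mod_cast hle
    have := (abs_le.1 hun).2
    linarith

end Pool.Agent.H17.RP
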