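import Pool.Agent.H17.RP.LB
import Pool.Agent.H17.RP.LemFa

/-!
# LemF: equidistributed and not concentrated sets are good

`c1 ≥ 24`, `c1 ≤ B`, `e` given.  With `C0` = the constant of `LB` take
`e3 = B + 2 C0 c1 + c1 + 10`, `e1 = 2B + C0 c1 + e + 3`.

Proof. Put `m0 = 3|b|`, `X = 2^|D| 2/φ(m0) ≥ 2^|D| 2/(3 t^B)`.  `LB` with
`As = {T ⊆ D : 3b ∣ a - prd T}`, `Ps` = all primes `≤ z = t^c1`, `δ = dl b` (`dl_bounds`),
`bad q T : q ∣ fk R`, and `lemF_count` (`m0 ∏ I ≤ 3 t^B t^(C0 c1) ≤ t^e1`, `2^|I| ≤ ∏ I ≤ t^(C0 c1)`;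
`q ∣ W` so `q ∤ F a b`), `E = t^(C0 c1) 2^|D|/t^e3`: at least
`X/(C0 c1² (log t)²) - E t^(C0 c1)` of the `T` have `fk R` prime to all `q ≤ z`.
The other primes `q ∣ W` are in `(z, t^B]`, there are at most `t` of them; by `lemF_count` with
`I = {q}` each kills at most `X 2/(q-1) + 2 · 2^|D|/t^e3 ≤ X 3/z`; total `≤ 3 X t/z`.  Hence
`|Sd| ≥ X/(C0 c1² (log t)²) - E t^(C0 c1) - 3 X t^(1-c1) ≥ X/t` for large `t`, in particular `Sd` is
nonempty and `|Sd| ≥ 2^|D|/t^(B+2)`.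

Not concentrated: `q ≤ 2^t` prime, `q ∤ W`; so `q > t^c1` and `q ∤ 3b`.  If `q ≤ t^e`: `lemF_class`
(`m0 q ≤ t^e1`): at most `X/(q-1) + 2^|D|/t^e3 ≤ 2X/t^c1 ≤ 2 |Sd| t^(1-c1)`, and `2 t^(22-c1) ≤ 1`.
If `q > t^e`: by `Anti` at most `2^|D|/t^(B+30) ≤ |Sd|/t^28`.
-/

set_option autoImplicit false

namespace Pool.Agent.H17.RP

open Finset

private theorem lF_log (K : ℝ) : ∃ t0 : ℕ, ∀ t : ℕ, t0 ≤ t → K * Real.log t ^ 2 ≤ t := by
  have h := (Real.isLittleO_pow_log_id_atTop (n := 2)).comp_tendsto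
    (tendsto_natCast_atTop_atTop (R := ℝ))
  have h2 := h.bound (c := 1 / (|K| + 1)) (by positivity)
  obtain ⟨t0, ht0⟩ := Filter.eventually_atTop.1 h2
  refine ⟨t0, fun t ht => ?_⟩
  have h3 := ht0 t ht
  simp only [Function.comp, id] at h3
  rw [Real.norm_of_nonneg (by positivity), Real.norm_of_nonneg (by positivity)] at h3
  have h4 : (|K| + 1) * Real.log t ^ 2 ≤ t := by
    rw [div_mul_eq_mul_div, one_mul, le_div_iff₀ (by positivity)] at h3
    linarith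
  nlinarith [le_abs_self K, sq_nonneg (Real.log t)]

private theorem lF_pw {t X N : ℝ} {B : ℕ} (ht : 1 ≤ t) (h : N ≤ X * t ^ (B + 1)) (hX : 0 ≤ X)
    {m k n : ℕ} (hn : m + B + 1 + k ≤ n) : t ^ m * (N / t ^ n) ≤ X / t ^ k := by
  have h0 : 0 < t := by linarith
  have h1 : t ^ m * (N / t ^ n) ≤ t ^ m * (X * t ^ (B + 1) / t ^ n) := by gcongr
  refine h1.trans ?_
  have e : t ^ m * (X * t ^ (B + 1) / t ^ n) = X * t ^ (m + B + 1) / t ^ n := by
    rw [show m + B + 1 = m + (B + 1) by ring, pow_add]; ring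
  rw [e, div_le_div_iff₀ (by positivity) (by positivity), mul_assoc, ← pow_add]
  exact mul_le_mul_of_nonneg_left (pow_le_pow_right₀ ht hn) hX

private theorem lF_pw2 {t X : ℝ} (ht : 1 ≤ t) (hX : 0 ≤ X)
    {m k n : ℕ} (hn : m + k ≤ n) : t ^ m * (X / t ^ n) ≤ X / t ^ k := by
  have h0 : 0 < t := by linarith
  rw [← mul_div_assoc, div_le_div_iff₀ (by positivity) (by positivity), mul_comm (t ^ m), mul_assoc,
    ← pow_add]
  exact mul_le_mul_of_nonneg_left (pow_le_pow_right₀ ht hn) hX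

private theorem lF_cube {t : ℝ} (ht : 3 ≤ t) : 5 * t ≤ t ^ 3 := by
  have h : 9 ≤ t ^ 2 := by nlinarith
  calc 5 * t ≤ t ^ 2 * t := by nlinarith
    _ = t ^ 3 := by ring

/-- the final estimate -/
private theorem lF_final {t X N : ℝ} {B c1 C0 e3 : ℕ} (ht : 3 ≤ t) (hN : N ≤ X * t ^ (B + 1))
    (hX : 0 ≤ X) (hC0 : 1 ≤ C0) (hc1 : 24 ≤ c1) (he3 : e3 = B + 2 * (C0 * c1) + c1 + 10)
    (hlog : 2 * C0 * c1 ^ 2 * Real.log t ^ 2 ≤ t) {N1 S Q : ℝ}
    (h1 : X / (C0 * Real.log (t ^ c1) ^ 2) - t ^ (C0 * c1) * (N / t ^ e3) * (t ^ c1) ^ C0 ≤ N1)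
    (h2 : N1 ≤ S + Q) (h3 : Q ≤ t * (2 * (X / t ^ c1) + 2 * (N / t ^ e3))) : X / t ≤ S := by
  have ht1 : 1 ≤ t := by linarith
  have ht0 : 0 < t := by linarith
  have hlt : 0 < Real.log t := Real.log_pos (by linarith)
  have hC0r : (1 : ℝ) ≤ C0 := by exact_mod_cast hC0
  have hc1r : (24 : ℝ) ≤ c1 := by exact_mod_cast hc1
  have a1 : 2 * X / t ≤ X / (C0 * Real.log (t ^ c1) ^ 2) := by
    rw [Real.log_pow, div_le_div_iff₀ ht0 (by positivity)]
    have e : 2 * X * (C0 * ((c1 : ℝ) * Real.log t) ^ 2) =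
      X * (2 * C0 * c1 ^ 2 * Real.log t ^ 2) := by ring
    rw [e]
    exact mul_le_mul_of_nonneg_left hlog hX
  have a2 : t ^ (C0 * c1) * (N / t ^ e3) * (t ^ c1) ^ C0 ≤ X / t ^ 3 := by
    have e : t ^ (C0 * c1) * (N / t ^ e3) * (t ^ c1) ^ C0 =
        t ^ (2 * (C0 * c1)) * (N / t ^ e3) := by
      rw [← pow_mul, show c1 * C0 = C0 * c1 by ring, two_mul, pow_add]; ring
    rw [e]
    exact lF_pw ht1 hN hX (by omega)
  have a3 : t ^ 1 * (X / t ^ c1) ≤ X / t ^ 3 := lF_pw2 ht1 hX (by omega)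
  have a4 : t ^ 1 * (N / t ^ e3) ≤ X / t ^ 3 := lF_pw ht1 hN hX (by omega)
  rw [pow_one] at a3 a4
  have a5 : 5 * (X / t ^ 3) ≤ X / t := by
    rw [← mul_div_assoc, div_le_div_iff₀ (by positivity) ht0]
    have h5 := mul_le_mul_of_nonneg_left (lF_cube ht) hX
    linarith
  have a6 : 2 * X / t = X / t + X / t := by ring
  nlinarith

theorem lemF (c1 B e : ℕ) (hc1 : 24 ≤ c1) (hB : c1 ≤ B) : ∃ e1 e3 t0 : ℕ, ∀ t ≥ t0,
    ∀ D : Finset ℕ, (∀ p ∈ D, p.Prime ∧ p % 3 = 1 ∧ 2 ^ t < p) →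
    Unif e1 e3 t D → Anti e (B + 30) t D →
    ∀ (a b : ℤ) (W : ℕ), a % 3 = 1 → b ≠ 0 → |b| ≤ (t : ℤ) ^ B → IsCoprime a (3 * b) → W ≠ 0 →
    (∀ q : ℕ, q.Prime → q ≤ t ^ c1 → q ∣ W) → (∀ q : ℕ, q.Prime → (q : ℤ) ∣ b → q ∣ W) →
    (∀ q : ℕ, q.Prime → q ∣ W → q ≤ t ^ B) →
    cs W.primeFactors (fun q => t ^ c1 < q) ≤ t →
    (∀ q : ℕ, q.Prime → q ∣ W → ¬ (q : ℤ) ∣ F a b) → Good t a b W D := by
  classical
  obtain ⟨C0, hC0, hLB⟩ := LB
  obtain ⟨t1, ht1⟩ := lF_log (2 * C0 * c1 ^ 2)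
  refine ⟨2 * B + C0 * c1 + e + 3, B + 2 * (C0 * c1) + c1 + 10, max t1 3, ?_⟩
  intro t ht D hD hU hA a b W ha hb hbB hab hW hW1 hW2 hW3 hW4 hW5
  have ht3 : 3 ≤ t := (le_max_right _ _).trans ht
  have htlog := ht1 t ((le_max_left _ _).trans ht)
  have htr : (3 : ℝ) ≤ t := by exact_mod_cast ht3
  have htpos : (0 : ℝ) < t := by linarith
  have ht1' : (1 : ℝ) ≤ t := by linarith
  set e1 := 2 * B + C0 * c1 + e + 3 with he1
  set e3 := B + 2 * (C0 * c1) + c1 + 10 with he3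
  set S0 := sel D.powerset (fun T => 3 * b ∣ a - (prd T : ℤ)) with hS0
  set bad : ℕ → Finset ℕ → Prop := fun q T => (q : ℤ) ∣ fk ((a - (prd T : ℤ)) / (3 * b)) with hbad
  set Ps : Finset ℕ := (Ioc 0 (t ^ c1)).filter Nat.Prime with hPs
  set N : ℝ := 2 ^ D.card with hN
  set φ : ℝ := ((3 * b.natAbs).totient : ℝ) with hφ
  set X : ℝ := N * (2 / φ) with hX
  have hbn : 0 < b.natAbs := Int.natAbs_pos.2 hb
  have hbnB : b.natAbs ≤ t ^ B := by
    have h1 : ((b.natAbs : ℕ) : ℤ) ≤ ((t ^ B : ℕ) : ℤ) := by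
      rw [Int.natCast_natAbs]; push_cast; exact hbB
    exact_mod_cast h1
  have hφ1 : 1 ≤ φ := by
    have : 0 < (3 * b.natAbs).totient := Nat.totient_pos.2 (by omega)
    rw [hφ]; exact_mod_cast this
  have hφpos : 0 < φ := by linarith
  have hφ2 : φ ≤ 3 * (t : ℝ) ^ B := by
    have h1 : (3 * b.natAbs).totient ≤ 3 * t ^ B := (Nat.totient_le _).trans (by omega)
    rw [hφ]; exact_mod_cast h1
  have hNpos : 0 < N := by rw [hN]; positivity
  have hXpos : 0 < X := by rw [hX]; positivity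
  have hNX : N ≤ X * (t : ℝ) ^ (B + 1) := by
    have h1 : φ ≤ 2 * (t : ℝ) ^ (B + 1) := by
      rw [pow_succ]
      have : 0 < (t : ℝ) ^ B := by positivity
      nlinarith
    rw [hX]
    have h2 : N * (2 / φ) * (t : ℝ) ^ (B + 1) = N * (2 * (t : ℝ) ^ (B + 1) / φ) := by ring
    rw [h2]
    have h3 : 1 ≤ 2 * (t : ℝ) ^ (B + 1) / φ := by rwa [one_le_div hφpos]
    nlinarith
  -- the powers of `t`
  have hpow3 : ∀ m : ℕ, m + 1 ≤ e1 → 3 * t ^ m ≤ t ^ e1 := by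
    intro m hm
    calc 3 * t ^ m ≤ t * t ^ m := Nat.mul_le_mul_right _ ht3
      _ = t ^ (m + 1) := by ring
      _ ≤ t ^ e1 := Nat.pow_le_pow_right (by omega) hm
  -- the sieve
  have hPsmem : ∀ p ∈ Ps, p.Prime ∧ p ≤ t ^ c1 := by
    intro p hp
    rw [hPs, mem_filter, mem_Ioc] at hp
    exact ⟨hp.2, hp.1.2⟩
  have hcount : ∀ I ⊆ Ps, ∏ p ∈ I, p ≤ (t ^ c1) ^ C0 →
      |(cs S0 (fun T => ∀ p ∈ I, bad p T) : ℝ) - X * ∏ p ∈ I, dl b p| ≤
        (t : ℝ) ^ (C0 * c1) * (N / (t : ℝ) ^ e3) := by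
    intro I hI hprod
    have hIq : ∀ q ∈ I, q.Prime ∧ ¬ (q : ℤ) ∣ F a b := by
      intro q hq
      have h1 := hPsmem q (hI hq)
      exact ⟨h1.1, hW5 q h1.1 (hW1 q h1.1 h1.2)⟩
    have hprod' : ∏ p ∈ I, p ≤ t ^ (C0 * c1) := by
      rw [← pow_mul, mul_comm] at hprod; exact hprod
    have hM : 3 * b.natAbs * ∏ q ∈ I, q ≤ t ^ e1 := by
      calc 3 * b.natAbs * ∏ q ∈ I, q ≤ 3 * t ^ B * t ^ (C0 * c1) :=
            Nat.mul_le_mul (Nat.mul_le_mul_left _ hbnB) hprod'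
        _ = 3 * t ^ (B + C0 * c1) := by rw [pow_add]; ring
        _ ≤ t ^ e1 := hpow3 _ (by omega)
    have h1 := lemF_count hD hU ha hb hab I hIq hM
    refine h1.trans ?_
    apply mul_le_mul_of_nonneg_right _ (by positivity)
    have h2 : 2 ^ I.card ≤ ∏ q ∈ I, q := by
      rw [← prod_const]
      exact prod_le_prod' fun q hq => (hIq q hq).1.two_le
    exact_mod_cast h2.trans hprod'
  have hz2 : 2 ≤ t ^ c1 := by
    calc 2 ≤ t := by omega
      _ = t ^ 1 := (pow_one t).symm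
      _ ≤ t ^ c1 := Nat.pow_le_pow_right (by omega) (by omega)
  have hsieve := hLB (t ^ c1) hz2 Ps hPsmem (dl b) (fun p hp => dl_bounds b (hPsmem p hp).1)
    (Finset ℕ) S0 bad X ((t : ℝ) ^ (C0 * c1) * (N / (t : ℝ) ^ e3)) hXpos.le (by positivity) hcount
  -- the other primes
  set Q' := sel W.primeFactors (fun q => t ^ c1 < q) with hQ'
  have hQ'mem : ∀ q ∈ Q', q.Prime ∧ q ∣ W ∧ t ^ c1 < q := by
    intro q hq
    rw [hQ', mem_sel, Nat.mem_primeFactors] at hq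
    exact ⟨hq.1.1, hq.1.2.1, hq.2⟩
  have hone : ∀ q ∈ Q', (cs S0 (bad q) : ℝ) ≤ 2 * (X / (t : ℝ) ^ c1) + 2 * (N / (t : ℝ) ^ e3) := by
    intro q hq
    obtain ⟨hqp, hqW, hqt⟩ := hQ'mem q hq
    have hM : 3 * b.natAbs * ∏ q ∈ ({q} : Finset ℕ), q ≤ t ^ e1 := by
      rw [prod_singleton]
      calc 3 * b.natAbs * q ≤ 3 * t ^ B * t ^ B :=
            Nat.mul_le_mul (Nat.mul_le_mul_left _ hbnB) (hW3 q hqp hqW)
        _ = 3 * t ^ (B + B) := by rw [pow_add]; ring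
        _ ≤ t ^ e1 := hpow3 _ (by omega)
    have h1 := lemF_count hD hU ha hb hab {q} (fun q' hq' => by
      rw [mem_singleton] at hq'
      subst hq'
      exact ⟨hqp, hW5 _ hqp hqW⟩) hM
    rw [prod_singleton, card_singleton, pow_one] at h1
    have h2 : cs (sel D.powerset (fun T => 3 * b ∣ a - (prd T : ℤ)))
        (fun T => ∀ q' ∈ ({q} : Finset ℕ), (q' : ℤ) ∣ fk ((a - (prd T : ℤ)) / (3 * b))) =
        cs S0 (bad q) := by
      refine cs_congr fun T _ => ?_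
      simp only [mem_singleton, forall_eq, hbad]
    rw [h2] at h1
    have h3 := (abs_le.1 h1).2
    have h4 : dl b q ≤ 2 / (t : ℝ) ^ c1 := by
      have h5 := (dl_bounds b hqp).2.2
      have h6 := (dl_bounds b hqp).1
      have h7 : (t : ℝ) ^ c1 ≤ (q : ℝ) - 1 := by
        have : ((t ^ c1 + 1 : ℕ) : ℝ) ≤ (q : ℝ) := by exact_mod_cast hqt
        push_cast at this
        linarith
      rw [le_div_iff₀ (by positivity)]
      nlinarith
    have h8 : X * dl b q ≤ X * (2 / (t : ℝ) ^ c1) := mul_le_mul_of_nonneg_left h4 hXpos.le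
    have h9 : X * (2 / (t : ℝ) ^ c1) = 2 * (X / (t : ℝ) ^ c1) := by ring
    linarith
  have hQcard : (Q'.card : ℝ) ≤ t := by
    have : Q'.card ≤ t := hW4
    exact_mod_cast this
  have hQsum : ((∑ q ∈ Q', cs S0 (bad q) : ℕ) : ℝ) ≤
      t * (2 * (X / (t : ℝ) ^ c1) + 2 * (N / (t : ℝ) ^ e3)) := by
    push_cast
    calc ∑ q ∈ Q', (cs S0 (bad q) : ℝ) ≤
          ∑ _q ∈ Q', (2 * (X / (t : ℝ) ^ c1) + 2 * (N / (t : ℝ) ^ e3)) := sum_le_sum hone
      _ = Q'.card * (2 * (X / (t : ℝ) ^ c1) + 2 * (N / (t : ℝ) ^ e3)) := by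
          rw [sum_const, nsmul_eq_mul]
      _ ≤ _ := mul_le_mul_of_nonneg_right hQcard (by positivity)
  -- comparison with `Sd`
  have hcmp : cs S0 (fun T => ∀ p ∈ Ps, ¬ bad p T) ≤
      (Sd D a b W).card + ∑ q ∈ Q', cs S0 (bad q) := by
    have h1 : cs S0 (fun T => ∀ p ∈ Ps, ¬ bad p T) ≤
        cs S0 (fun T => (∀ q : ℕ, q.Prime → q ∣ W → ¬ bad q T) ∨ ∃ q ∈ Q', bad q T) := by
      refine cs_mono fun T hT h => ?_
      by_cases h2 : ∃ q ∈ Q', bad q T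
      · exact Or.inr h2
      · left
        intro q hqp hqW hqb
        by_cases h3 : q ≤ t ^ c1
        · refine h q ?_ hqb
          rw [hPs, mem_filter, mem_Ioc]
          exact ⟨⟨hqp.pos, h3⟩, hqp⟩
        · apply h2
          refine ⟨q, ?_, hqb⟩
          rw [hQ', mem_sel, Nat.mem_primeFactors]
          exact ⟨⟨hqp, hqW, hW⟩, by omega⟩
    have h2 := cs_or S0 (fun T => ∀ q : ℕ, q.Prime → q ∣ W → ¬ bad q T)
      (fun T => ∃ q ∈ Q', bad q T)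
    have h3 := cs_exists S0 Q' bad
    have h4 : cs S0 (fun T => ∀ q : ℕ, q.Prime → q ∣ W → ¬ bad q T) ≤ (Sd D a b W).card := by
      refine card_le_card fun T hT => ?_
      rw [mem_sel, hS0, mem_sel] at hT
      unfold Sd
      rw [mem_sel]
      exact ⟨hT.1.1, hT.1.2, hT.2⟩
    omega
  have hcmp' : (cs S0 (fun T => ∀ p ∈ Ps, ¬ bad p T) : ℝ) ≤
      ((Sd D a b W).card : ℝ) + ((∑ q ∈ Q', cs S0 (bad q) : ℕ) : ℝ) := by exact_mod_cast hcmp
  have hzcast : ((t ^ c1 : ℕ) : ℝ) = (t : ℝ) ^ c1 := by push_cast; rfl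
  rw [hzcast] at hsieve
  have hmain : X / t ≤ ((Sd D a b W).card : ℝ) :=
    lF_final htr hNX hXpos.le hC0 hc1 he3 htlog hsieve hcmp' hQsum
  have hsubS : Sd D a b W ⊆ S0 := by
    intro T hT
    unfold Sd at hT
    rw [mem_sel] at hT
    rw [hS0, mem_sel]
    exact ⟨hT.1, hT.2.1⟩
  refine ⟨?_, fun q hqp hq2 hqW x => ?_⟩
  · rw [← card_pos]
    have : (0 : ℝ) < ((Sd D a b W).card : ℝ) := lt_of_lt_of_le (by positivity) hmain
    exact_mod_cast this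
  · have hqt : t ^ c1 < q := by
      by_contra hcon
      exact hqW (hW1 q hqp (by omega))
    have hqb : ¬ (q : ℤ) ∣ 3 * b := by
      intro h
      have hq' : Prime (q : ℤ) := Nat.prime_iff_prime_int.1 hqp
      rcases hq'.dvd_or_dvd h with h3 | h3
      · have h4 : q ∣ 3 := by exact_mod_cast h3
        have h5 : q ≤ 3 := Nat.le_of_dvd (by norm_num) h4
        have h6 : t ≤ t ^ c1 := by
          calc t = t ^ 1 := (pow_one t).symm
            _ ≤ t ^ c1 := Nat.pow_le_pow_right (by omega) (by omega)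
        omega
      · exact hqW (hW2 q hqp h3)
    suffices h : (cs (Sd D a b W) (fun T => (q : ℤ) ∣ (prd T : ℤ) - x) : ℝ) * (t : ℝ) ^ 21 ≤
        ((Sd D a b W).card : ℝ) by
      exact_mod_cast h
    by_cases hqe : q ≤ t ^ e
    · have hM : 3 * b.natAbs * q ≤ t ^ e1 := by
        calc 3 * b.natAbs * q ≤ 3 * t ^ B * t ^ e :=
              Nat.mul_le_mul (Nat.mul_le_mul_left _ hbnB) hqe
          _ = 3 * t ^ (B + e) := by rw [pow_add]; ring
          _ ≤ t ^ e1 := hpow3 _ (by omega)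
      have h1 := lemF_class hD hU ha hb hab hqp hqb hq2 hM x
      have h2 : (cs (Sd D a b W) (fun T => (q : ℤ) ∣ (prd T : ℤ) - x) : ℝ) ≤
          (cs S0 (fun T => (q : ℤ) ∣ (prd T : ℤ) - x) : ℝ) := by
        exact_mod_cast cs_subset hsubS _
      have hcop : Nat.Coprime (3 * b.natAbs) q := by
        rw [Nat.coprime_comm]
        rw [Nat.Prime.coprime_iff_not_dvd hqp]
        intro h3
        apply hqb
        have h4 : (q : ℤ) ∣ ((3 * b.natAbs : ℕ) : ℤ) := Int.natCast_dvd_natCast.2 h3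
        have h5 : ((3 * b.natAbs : ℕ) : ℤ) = |3 * b| := by
          push_cast; rw [abs_mul]; simp
        rw [h5, dvd_abs] at h4
        exact h4
      have htot : ((3 * b.natAbs * q).totient : ℝ) = φ * ((q : ℝ) - 1) := by
        rw [Nat.totient_mul hcop, Nat.totient_prime hqp, Nat.cast_mul, Nat.cast_sub hqp.one_le]
        push_cast; rfl
      rw [htot] at h1
      have h7 : (t : ℝ) ^ c1 ≤ (q : ℝ) - 1 := by
        have : ((t ^ c1 + 1 : ℕ) : ℝ) ≤ (q : ℝ) := by exact_mod_cast hqt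
        push_cast at this
        linarith
      have h8 : N * (2 / (φ * ((q : ℝ) - 1))) ≤ X / (t : ℝ) ^ c1 := by
        have e2 : N * (2 / (φ * ((q : ℝ) - 1))) = X / ((q : ℝ) - 1) := by
          rw [hX]; field_simp
        rw [e2]
        exact div_le_div_of_nonneg_left hXpos.le (by positivity) h7
      have h9 : (t : ℝ) ^ 0 * (N / (t : ℝ) ^ e3) ≤ X / (t : ℝ) ^ c1 :=
        lF_pw ht1' hNX hXpos.le (by omega)
      rw [pow_zero, one_mul] at h9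
      have h10 : (cs (Sd D a b W) (fun T => (q : ℤ) ∣ (prd T : ℤ) - x) : ℝ) ≤
          2 * (X / (t : ℝ) ^ c1) := by linarith
      have h11 : (t : ℝ) ^ 21 * (X / (t : ℝ) ^ c1) ≤ X / (t : ℝ) ^ 3 :=
        lF_pw2 ht1' hXpos.le (by omega)
      have h12 : 2 * (X / (t : ℝ) ^ 3) ≤ X / t := by
        rw [← mul_div_assoc, div_le_div_iff₀ (by positivity) htpos]
        have h5 := mul_le_mul_of_nonneg_left (lF_cube htr) hXpos.le
        have h6 : 0 < X * t := by positivity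
        linarith
      have h13 : 0 ≤ (t : ℝ) ^ 21 := by positivity
      calc _ ≤ 2 * (X / (t : ℝ) ^ c1) * (t : ℝ) ^ 21 := mul_le_mul_of_nonneg_right h10 h13
        _ = 2 * ((t : ℝ) ^ 21 * (X / (t : ℝ) ^ c1)) := by ring
        _ ≤ _ := by linarith
    · have h1 := hA q hqp (by omega) hq2 x
      have h2 : cs (Sd D a b W) (fun T => (q : ℤ) ∣ (prd T : ℤ) - x) ≤ cnt D q x := by
        unfold cnt
        refine cs_subset (fun T hT => ?_) _
        unfold Sd at hT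
        exact (mem_sel.1 hT).1
      have h3 : cs (Sd D a b W) (fun T => (q : ℤ) ∣ (prd T : ℤ) - x) * t ^ (B + 30) ≤
          2 ^ D.card := (Nat.mul_le_mul_right _ h2).trans h1
      have h4 : (cs (Sd D a b W) (fun T => (q : ℤ) ∣ (prd T : ℤ) - x) : ℝ) * (t : ℝ) ^ (B + 30) ≤
          N := by rw [hN]; exact_mod_cast h3
      have h5 : (cs (Sd D a b W) (fun T => (q : ℤ) ∣ (prd T : ℤ) - x) : ℝ) * (t : ℝ) ^ 21 ≤
          X / (t : ℝ) ^ 1 := by
        have h6 : (cs (Sd D a b W) (fun T => (q : ℤ) ∣ (prd T : ℤ) - x) : ℝ) ≤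
            N / (t : ℝ) ^ (B + 30) := by
          rwa [le_div_iff₀ (by positivity)]
        have h7 : (t : ℝ) ^ 21 * (N / (t : ℝ) ^ (B + 30)) ≤ X / (t : ℝ) ^ 1 :=
          lF_pw ht1' hNX hXpos.le (by omega)
        calc _ ≤ N / (t : ℝ) ^ (B + 30) * (t : ℝ) ^ 21 :=
              mul_le_mul_of_nonneg_right h6 (by positivity)
          _ = (t : ℝ) ^ 21 * (N / (t : ℝ) ^ (B + 30)) := by ring
          _ ≤ _ := h7
      rw [pow_one] at h5
      linarith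

end Pool.Agent.H17.RP
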