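import Pool.Agent.H17.RP.Reps
import Pool.Agent.H17.RP.Arg

/-!
# Mult: bounded multiplicity

For `w ∈ cusp A (8 A^5)` with `RK A K (Nm w)` the number of triples `(w1, w2, w3)` of vectors of
`RR A K` with `w = rot^[k] (w1 * conj w2 * w3)` for some `k < 6` is at most a constant `C(K)`.

Proof. `n = Nm w ≤ 400 A^12 ≤ A^13`: `n > 0`.  Every prime factor `p` has `p^K > A`, so
`A^Ω(n) < n^K ≤ A^(13K)`, `Ω(n) ≤ 13 K`.  `Nm w_i ∣ n`, so `Nm w_i` takes at most
`τ(n) ≤ 2^Ω(n) ≤ 2^(13K)` values, and for each value there are at most `6 · 2^Ω(Nm w_i) ≤ 6 · 2^(13K)`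
vectors (`reps`).  So `(w1, w2)` takes at most `(6 · 4^(13K))²` values, `k` at most `6`, and
`w3` is determined by `w`, `w1`, `w2`, `k` (`em_inj`, `em_mu`, ... : multiplication by nonzero complex
numbers is injective).
-/

set_option autoImplicit false

namespace Pool.Agent.H17.RP

open Finset

private theorem Mult_mem_sel {ι : Type} {S : Finset ι} {Q : ι → Prop} {x : ι} :
    x ∈ sel S Q ↔ x ∈ S ∧ Q x := by
  classical
  unfold sel
  rw [mem_filter]

private theorem Mult_rot_pow (k : ℕ) (w : ℤ × ℤ) : Nm (rot^[k] w) = Nm w := by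
  induction k with
  | zero => simp
  | succ k ih => rw [Function.iterate_succ_apply', Nm_rot, ih]

private theorem Mult_split {n : ℕ} (hn : 1 < n) : ∃ p m : ℕ, p.Prime ∧ n = p * m ∧ 0 < m ∧ m < n ∧
    ArithmeticFunction.cardFactors n = ArithmeticFunction.cardFactors m + 1 := by
  have hp : (n.minFac).Prime := Nat.minFac_prime (by omega)
  obtain ⟨m, hm⟩ := n.minFac_dvd
  have hm0 : 0 < m := by
    rcases Nat.eq_zero_or_pos m with h | h
    · rw [h, mul_zero] at hm; omega
    · exact h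
  refine ⟨n.minFac, m, hp, hm, hm0, ?_, ?_⟩
  · calc m = 1 * m := (one_mul m).symm
      _ < n.minFac * m := (Nat.mul_lt_mul_right hm0).2 hp.one_lt
      _ = n := hm.symm
  · conv_lhs => rw [hm]
    rw [ArithmeticFunction.cardFactors_mul hp.ne_zero hm0.ne',
      ArithmeticFunction.cardFactors_apply_prime hp, add_comm]

private theorem Mult_pow (A K : ℕ) (n : ℕ) (hn : 0 < n)
    (h : ∀ p : ℕ, p.Prime → p ∣ n → A < p ^ K) :
    A ^ (ArithmeticFunction.cardFactors n) ≤ n ^ K := by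
  induction n using Nat.strong_induction_on with
  | _ n ih =>
    rcases Nat.lt_or_ge 1 n with h1 | h1
    · obtain ⟨p, m, hp, hm, hm0, hmn, hc⟩ := Mult_split h1
      rw [hc, pow_succ, hm, mul_pow, mul_comm]
      have e1 : A ≤ p ^ K := (h p hp (hm ▸ Dvd.intro m rfl)).le
      have e2 := ih m hmn hm0 (fun q hq hqm => h q hq (hm ▸ hqm.mul_left p))
      exact Nat.mul_le_mul e1 e2
    · have : n = 1 := by omega
      subst this
      simp

private theorem Mult_div (n : ℕ) (hn : 0 < n) :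
    n.divisors.card ≤ 2 ^ (ArithmeticFunction.cardFactors n) := by
  induction n using Nat.strong_induction_on with
  | _ n ih =>
    rcases Nat.lt_or_ge 1 n with h1 | h1
    · obtain ⟨p, m, hp, hm, hm0, hmn, hc⟩ := Mult_split h1
      have hsub : n.divisors ⊆ m.divisors ∪ m.divisors.image (fun d => p * d) := by
        intro d hd
        rw [Nat.mem_divisors] at hd
        rw [mem_union, mem_image]
        by_cases hpd : p ∣ d
        · obtain ⟨e, he⟩ := hpd
          right
          refine ⟨e, Nat.mem_divisors.2 ⟨?_, hm0.ne'⟩, he.symm⟩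
          have := hd.1
          rw [he, hm] at this
          exact Nat.dvd_of_mul_dvd_mul_left hp.pos this
        · left
          rw [Nat.mem_divisors]
          refine ⟨?_, hm0.ne'⟩
          have := hd.1
          rw [hm] at this
          exact (Nat.Coprime.dvd_of_dvd_mul_left
            ((Nat.Prime.coprime_iff_not_dvd hp).2 hpd).symm this)
      have h2 := ih m hmn hm0
      calc n.divisors.card ≤ (m.divisors ∪ m.divisors.image (fun d => p * d)).card :=
            card_le_card hsub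
        _ ≤ m.divisors.card + (m.divisors.image (fun d => p * d)).card := card_union_le _ _
        _ ≤ m.divisors.card + m.divisors.card := by
            exact Nat.add_le_add_left card_image_le _
        _ ≤ 2 ^ (ArithmeticFunction.cardFactors n) := by
            rw [hc, pow_succ]; omega
    · have : n = 1 := by omega
      subst this
      simp

private theorem Mult_mono {a n : ℕ} (hn : 0 < n) (h : a ∣ n) :
    ArithmeticFunction.cardFactors a ≤ ArithmeticFunction.cardFactors n := by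
  obtain ⟨b, hb⟩ := h
  have ha : a ≠ 0 := by rintro rfl; simp at hb; omega
  have hb0 : b ≠ 0 := by rintro rfl; simp at hb; omega
  rw [hb, ArithmeticFunction.cardFactors_mul ha hb0]
  omega

private theorem Mult_V (n : ℕ) (hn : 0 < n) (V : Finset (ℤ × ℤ))
    (hV : ∀ v ∈ V, 0 < Nm v ∧ Nm v ∣ (n : ℤ)) :
    V.card ≤ 6 * 4 ^ (ArithmeticFunction.cardFactors n) := by
  classical
  have h1 := Finset.card_le_mul_card_image (f := fun v => (Nm v).natAbs) V
    (6 * 2 ^ (ArithmeticFunction.cardFactors n)) (by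
      intro a ha
      rw [mem_image] at ha
      obtain ⟨v, hv, hva⟩ := ha
      have hv' := hV v hv
      have ha1 : 1 ≤ a := by
        rw [← hva]
        have := hv'.1
        omega
      have han : a ∣ n := by
        rw [← hva]
        exact Int.natAbs_dvd_natAbs.2 hv'.2
      refine le_trans (reps a ha1 _ ?_) ?_
      · intro u hu
        rw [mem_filter] at hu
        have := (hV u hu.1).1
        have h2 := hu.2
        omega
      · exact Nat.mul_le_mul_left _ (Nat.pow_le_pow_right (by norm_num) (Mult_mono hn han)))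
  have h2 : (V.image (fun v => (Nm v).natAbs)).card ≤ 2 ^ (ArithmeticFunction.cardFactors n) := by
    refine le_trans (card_le_card ?_) (Mult_div n hn)
    intro a ha
    rw [mem_image] at ha
    obtain ⟨v, hv, hva⟩ := ha
    rw [Nat.mem_divisors]
    refine ⟨?_, hn.ne'⟩
    rw [← hva]
    exact Int.natAbs_dvd_natAbs.2 (hV v hv).2
  refine le_trans h1 (le_trans (Nat.mul_le_mul_left _ h2) (le_of_eq ?_))
  rw [mul_assoc, ← mul_pow]
  norm_num

theorem mult (K : ℕ) (hK : 1 ≤ K) : ∃ C A0 : ℕ, ∀ A ≥ A0, ∀ w ∈ cusp A (8 * A ^ 5),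
    RK A K (Nm w) → cs (RR A K ×ˢ (RR A K ×ˢ RR A K))
      (fun x => ∃ k : ℕ, k < 6 ∧ w = rot^[k] (mu (mu x.1 (cj x.2.1)) x.2.2)) ≤ C := by
  classical
  refine ⟨(6 * 4 ^ (13 * K)) * (6 * 4 ^ (13 * K)) * 6, 832, fun A hA w hw hR => ?_⟩
  unfold cusp at hw
  rw [Mult_mem_sel, mem_product, mem_Icc, mem_Icc] at hw
  obtain ⟨⟨⟨hx1, hx2⟩, hy1, hy2⟩, hxy1, hxy2⟩ := hw
  have hA' : (832 : ℤ) ≤ A := by exact_mod_cast hA
  have hNpos : 0 < Nm w := by unfold Nm F; nlinarith
  have hNle : Nm w ≤ (A : ℤ) ^ 13 := by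
    have hA1 : (1 : ℤ) ≤ A := by linarith
    have hyb : w.2 ≤ 8 * (A : ℤ) ^ 6 := by
      push_cast at hy2
      have : (A : ℤ) ^ 5 ≤ (A : ℤ) ^ 6 := pow_le_pow_right₀ hA1 (by norm_num)
      linarith
    have hxb : w.1 ≤ 16 * (A : ℤ) ^ 6 := by
      push_cast at hx2
      calc w.1 ≤ 2 * (A : ℤ) * (8 * (A : ℤ) ^ 5) := hx2
        _ = 16 * (A : ℤ) ^ 6 := by ring
    have h1 : w.1 ^ 2 ≤ (16 * (A : ℤ) ^ 6) ^ 2 := pow_le_pow_left₀ (by linarith) hxb 2
    have h2 : w.2 ^ 2 ≤ (8 * (A : ℤ) ^ 6) ^ 2 := pow_le_pow_left₀ (by linarith) hyb 2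
    have h3 : w.1 * w.2 ≤ (16 * (A : ℤ) ^ 6) * (8 * (A : ℤ) ^ 6) :=
      mul_le_mul hxb hyb (by linarith) (by positivity)
    have h4 : Nm w ≤ 832 * (A : ℤ) ^ 12 := by
      unfold Nm F
      nlinarith
    have h5 : 832 * (A : ℤ) ^ 12 ≤ (A : ℤ) ^ 13 := by
      have : (0 : ℤ) ≤ (A : ℤ) ^ 12 := by positivity
      nlinarith
    linarith
  obtain ⟨n, hn⟩ : ∃ n : ℕ, Nm w = n := ⟨(Nm w).toNat, by omega⟩
  have hn0 : 0 < n := by omega
  have hnle : n ≤ A ^ 13 := by
    rw [hn] at hNle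
    exact_mod_cast hNle
  have hΩ : ArithmeticFunction.cardFactors n ≤ 13 * K := by
    have h1 := Mult_pow A K n hn0 (fun p hp hpn => by
      apply hR p hp
      rw [hn]
      exact_mod_cast hpn)
    have h2 : n ^ K ≤ A ^ (13 * K) := by
      rw [pow_mul]; exact Nat.pow_le_pow_left hnle K
    exact (Nat.pow_le_pow_iff_right (by omega : 1 < A)).1 (h1.trans h2)
  set V := (RR A K).filter (fun v => 0 < Nm v ∧ Nm v ∣ (n : ℤ)) with hVdef
  have hVc : V.card ≤ 6 * 4 ^ (13 * K) := by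
    refine le_trans (Mult_V n hn0 V (fun v hv => ?_)) ?_
    · rw [hVdef, mem_filter] at hv
      exact hv.2
    · exact Nat.mul_le_mul_left _ (Nat.pow_le_pow_right (by norm_num) hΩ)
  have hnn : ∀ v : ℤ × ℤ, 0 ≤ Nm v := by
    intro v
    unfold Nm F
    nlinarith [sq_nonneg (2 * v.1 + 3 * v.2), sq_nonneg v.2]
  have key : ∀ x ∈ sel (RR A K ×ˢ (RR A K ×ˢ RR A K))
      (fun x => ∃ k : ℕ, k < 6 ∧ w = rot^[k] (mu (mu x.1 (cj x.2.1)) x.2.2)),
      ∃ k : ℕ, k < 6 ∧ w = rot^[k] (mu (mu x.1 (cj x.2.1)) x.2.2) ∧ x.1 ∈ V ∧ x.2.1 ∈ V := by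
    intro x hx
    rw [Mult_mem_sel, mem_product, mem_product] at hx
    obtain ⟨⟨hx1, hx2, hx3⟩, k, hk, hw⟩ := hx
    refine ⟨k, hk, hw, ?_⟩
    have hN : Nm w = Nm x.1 * Nm x.2.1 * Nm x.2.2 := by
      rw [hw, Mult_rot_pow, Nm_mu, Nm_mu, Nm_cj]
    have hne : Nm x.1 * Nm x.2.1 * Nm x.2.2 ≠ 0 := by rw [← hN]; omega
    have hne1 : Nm x.1 ≠ 0 := left_ne_zero_of_mul (left_ne_zero_of_mul hne)
    have hne2 : Nm x.2.1 ≠ 0 := right_ne_zero_of_mul (left_ne_zero_of_mul hne)
    have hp1 := hnn x.1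
    have hp2 := hnn x.2.1
    constructor
    · rw [hVdef, mem_filter, ← hn, hN]
      exact ⟨hx1, by omega, ⟨Nm x.2.1 * Nm x.2.2, by ring⟩⟩
    · rw [hVdef, mem_filter, ← hn, hN]
      exact ⟨hx2, by omega, ⟨Nm x.1 * Nm x.2.2, by ring⟩⟩
  choose! κ hκ1 hκ2 hκ3 hκ4 using key
  have hcard : cs (RR A K ×ˢ (RR A K ×ˢ RR A K))
      (fun x => ∃ k : ℕ, k < 6 ∧ w = rot^[k] (mu (mu x.1 (cj x.2.1)) x.2.2)) ≤
      ((V ×ˢ V) ×ˢ range 6).card := by
    unfold cs
    apply Finset.card_le_card_of_injOn (fun x => ((x.1, x.2.1), κ x))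
    · intro x hx
      have hx' := hx
      simp only [coe_product, Set.mem_prod, mem_coe, mem_range]
      exact ⟨⟨hκ3 x hx', hκ4 x hx'⟩, hκ1 x hx'⟩
    · intro x hx y hy hxy
      have e1 : x.1 = y.1 := congrArg (fun z => z.1.1) hxy
      have e2 : x.2.1 = y.2.1 := congrArg (fun z => z.1.2) hxy
      have e3 : κ x = κ y := congrArg (fun z => z.2) hxy
      have w1 := hκ2 x hx
      have w2 := hκ2 y hy
      have hw1 : em w = om ^ κ x * (em x.1 * em (cj x.2.1) * em x.2.2) := by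
        conv_lhs => rw [w1]
        rw [em_rot_pow, em_mu, em_mu]
      have hw2 : em w = om ^ κ y * (em y.1 * em (cj y.2.1) * em y.2.2) := by
        conv_lhs => rw [w2]
        rw [em_rot_pow, em_mu, em_mu]
      have hne : em w ≠ 0 := by
        intro h
        have := normSq_em w
        rw [h, map_zero, hn] at this
        have : (n : ℝ) = 0 := by exact_mod_cast this.symm
        have : n = 0 := by exact_mod_cast this
        omega
      rw [← e1, ← e2, ← e3] at hw2
      have hfac : om ^ κ x * (em x.1 * em (cj x.2.1)) ≠ 0 := by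
        intro h
        apply hne
        rw [hw1, ← mul_assoc, h, zero_mul]
      have e4 : x.2.2 = y.2.2 := by
        apply em_inj
        apply mul_left_cancel₀ hfac
        have t1 : om ^ κ x * (em x.1 * em (cj x.2.1)) * em x.2.2 = em w := by rw [hw1]; ring
        have t2 : om ^ κ x * (em x.1 * em (cj x.2.1)) * em y.2.2 = em w := by rw [hw2]; ring
        rw [t1, t2]
      exact Prod.ext e1 (Prod.ext e2 e4)
  refine hcard.trans ?_
  rw [card_product, card_product, card_range]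
  exact Nat.mul_le_mul_right _ (Nat.mul_le_mul hVc hVc)

end Pool.Agent.H17.RP
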