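import Pool.Agent.H17.RP.Land
import Pool.Agent.H17.RP.Mult

/-!
# OddT: odd triples

A triple `(w1, w2, w3)` of vectors of `RR A K` with `sec w1 - sec w2 + sec w3 = 12` is odd if
`lam (Nm w1) lam (Nm w2) lam (Nm w3) = -1`.  By `land` a rotation of `w1 conj(w2) w3` is in
`cusp A (8A^5)`, its norm is the product of the norms (`Nm_mu`, `Nm_cj`, `Nm_rot`), so `RK A K` and
`lam = -1` hold (`lam_mul`; the norms are positive).  By `mult` the number of odd triples is at most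
`C` times the number of such `w`.
-/

set_option autoImplicit false

namespace Pool.Agent.H17.RP

open Finset

private theorem OddT_lam_mul {a b : ℤ} (ha : a ≠ 0) (hb : b ≠ 0) : lam (a * b) = lam a * lam b := by
  unfold lam
  rw [Int.natAbs_mul, ArithmeticFunction.cardFactors_mul (Int.natAbs_ne_zero.2 ha)
    (Int.natAbs_ne_zero.2 hb), pow_add]

private theorem OddT_Nm_rot_pow (k : ℕ) (w : ℤ × ℤ) : Nm (rot^[k] w) = Nm w := by
  induction k generalizing w with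
  | zero => rfl
  | succ k ih => rw [Function.iterate_succ_apply, ih, Nm_rot]

private theorem OddT_RK_mul {A K : ℕ} {a b : ℤ} (ha : RK A K a) (hb : RK A K b) :
    RK A K (a * b) := by
  intro p hp hd
  rcases (Nat.prime_iff_prime_int.1 hp).dvd_or_dvd hd with h | h
  · exact ha p hp h
  · exact hb p hp h

private theorem OddT_RR {A K : ℕ} (hA : 1 ≤ A) {w : ℤ × ℤ} (hw : w ∈ RR A K) :
    Nm w ≠ 0 ∧ RK A K (Nm w) := by
  unfold RR at hw
  obtain ⟨h1, -, -, h4⟩ := mem_sel.1 hw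
  refine ⟨?_, h4⟩
  obtain ⟨-, h5⟩ := Finset.mem_product.1 h1
  obtain ⟨h6, -⟩ := Finset.mem_Icc.1 h5
  have h7 : (1 : ℤ) ≤ (A : ℤ) ^ 2 := by
    have : (1 : ℤ) ≤ (A : ℤ) := by exact_mod_cast hA
    nlinarith
  have h8 : w.2 ≠ 0 := by
    intro h
    rw [h] at h6
    linarith
  exact (F_pos (Or.inr h8)).ne'

theorem odd_triples (K : ℕ) (hK : 1 ≤ K) : ∃ C A0 : ℕ, ∀ A ≥ A0,
    cs (RR A K ×ˢ (RR A K ×ˢ RR A K)) (fun x => sec A x.1 - sec A x.2.1 + sec A x.2.2 = 12 ∧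
      lam (Nm x.1) * lam (Nm x.2.1) * lam (Nm x.2.2) = -1) ≤
    C * cs (cusp A (8 * A ^ 5)) (fun w => RK A K (Nm w) ∧ lam (Nm w) = -1) := by
  classical
  obtain ⟨A1, hland⟩ := land
  obtain ⟨C, A2, hmult⟩ := mult K hK
  refine ⟨C, max 1 (max A1 A2), fun A hA => ?_⟩
  have hA0 : 1 ≤ A := le_trans (le_max_left _ _) hA
  have hA1 : A1 ≤ A := le_trans (le_trans (le_max_left _ _) (le_max_right _ _)) hA
  have hA2 : A2 ≤ A := le_trans (le_trans (le_max_right _ _) (le_max_right _ _)) hA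
  have hsub : sel (RR A K ×ˢ (RR A K ×ˢ RR A K))
      (fun x => sec A x.1 - sec A x.2.1 + sec A x.2.2 = 12 ∧
        lam (Nm x.1) * lam (Nm x.2.1) * lam (Nm x.2.2) = -1) ⊆
      (sel (cusp A (8 * A ^ 5)) (fun w => RK A K (Nm w) ∧ lam (Nm w) = -1)).biUnion
        (fun w => sel (RR A K ×ˢ (RR A K ×ˢ RR A K))
          (fun x => ∃ k : ℕ, k < 6 ∧ w = rot^[k] (mu (mu x.1 (cj x.2.1)) x.2.2))) := by
    intro x hx
    obtain ⟨hx1, hx2, hx3⟩ := mem_sel.1 hx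
    obtain ⟨h1, h23⟩ := Finset.mem_product.1 hx1
    obtain ⟨h2, h3⟩ := Finset.mem_product.1 h23
    obtain ⟨k, hk, hc⟩ := hland A hA1 K x.1 h1 x.2.1 h2 x.2.2 h3 hx2
    obtain ⟨n1, r1⟩ := OddT_RR hA0 h1
    obtain ⟨n2, r2⟩ := OddT_RR hA0 h2
    obtain ⟨n3, r3⟩ := OddT_RR hA0 h3
    have hN : Nm (rot^[k] (mu (mu x.1 (cj x.2.1)) x.2.2)) = Nm x.1 * Nm x.2.1 * Nm x.2.2 := by
      rw [OddT_Nm_rot_pow, Nm_mu, Nm_mu, Nm_cj]
    rw [Finset.mem_biUnion]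
    refine ⟨rot^[k] (mu (mu x.1 (cj x.2.1)) x.2.2), mem_sel.2 ⟨hc, ?_, ?_⟩,
      mem_sel.2 ⟨hx1, k, hk, rfl⟩⟩
    · rw [hN]
      exact OddT_RK_mul (OddT_RK_mul r1 r2) r3
    · rw [hN, OddT_lam_mul (mul_ne_zero n1 n2) n3, OddT_lam_mul n1 n2]
      exact hx3
  unfold cs
  calc (sel (RR A K ×ˢ (RR A K ×ˢ RR A K))
      (fun x => sec A x.1 - sec A x.2.1 + sec A x.2.2 = 12 ∧
        lam (Nm x.1) * lam (Nm x.2.1) * lam (Nm x.2.2) = -1)).card
      ≤ _ := Finset.card_le_card hsub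
    _ ≤ (sel (cusp A (8 * A ^ 5)) (fun w => RK A K (Nm w) ∧ lam (Nm w) = -1)).card * C := by
        refine Finset.card_biUnion_le_card_mul _ _ _ ?_
        intro w hw
        obtain ⟨hw1, hw2, -⟩ := mem_sel.1 hw
        exact hmult A hA2 w hw1 hw2
    _ = _ := Nat.mul_comm _ _

end Pool.Agent.H17.RP
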