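import Pool.Agent.H17.RP.Alg

/-!
# Root: local root counts

`p` prime, `n = n0 + W m`, `p ∤ W`: `m ↦ n` is a bijection modulo `p`.

`root_two`. `p = 1 mod 3`: `-3` is a nonzero square modulo `p`, so `X² + 3X + 3` has exactly two
roots `ρ` (the discriminant is `-3`), both different; `Nm (sh n w) = v² (ρ² + 3ρ + 3)` with
`ρ = (u + n v)/v` modulo `p`, so there are exactly two classes `n = ρ - u/v`.
`root_le`. If `p ∤ v` at most two roots of a quadratic polynomial with leading coefficient `v²`.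
If `p ∣ v` then `Nm = u² ≠ 0` modulo `p` (`w` is primitive), no class.
`inert`. `4 Nm w = (2u + 3v)² + 3 v²` and `-3` is not a square modulo `p = 2 mod 3`, `p > 2` (Mathlib:
quadratic reciprocity, or: the multiplicative group has order prime to `3`, so there is no element of
order `3`); `p = 2`: directly.
`fk_roots`: two roots at most (`q ≠ 3`; for `q = 3` and `q = 2 mod 3` no root: `fk_no_root`).
`win_lines`. `(e, f)` is a basis, so modulo `q` the condition `q ∣ Nm (α e + β f)` for `(α, β)` not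
both divisible by `q` means that `u/v` is one of at most two values in the projective line (a root of
`X² + 3X + 3`; `v = 0` is impossible for `q ≠ ...`: then `q ∣ u²`, so both coordinates are divisible by
`q`), i.e. `(α, β)` lies on one of at most two lines `α x = β y` modulo `q` (`x`, `y` not both `0`).
For given `β` (if `x` is invertible) or for given `α` (otherwise) the other coordinate lies in one class,
at most `L/q + 1` values: at most `L (L/q + 1)` pairs on each line.  Coprime pairs are not both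
divisible by `q`.
-/

set_option autoImplicit false

namespace Pool.Agent.H17.RP

open Finset

private theorem rt_Nm (w : ℤ × ℤ) : Nm w = (w.1 + w.2) ^ 2 + (w.1 + w.2) * w.2 + w.2 ^ 2 := by
  unfold Nm F; ring

private theorem rt_dvd {p : ℕ} (x : ℤ) : (p : ℤ) ∣ x ↔ ((x : ℤ) : ZMod p) = 0 :=
  (ZMod.intCast_zmod_eq_zero_iff_dvd x p).symm

/-- counting over `range p` along an arithmetic progression is counting in `ZMod p` -/
private theorem rt_count {p : ℕ} (hp : p.Prime) {W : ℕ} (hW : ¬ p ∣ W) (n0 : ℤ)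
    (Q : ZMod p → Prop) [DecidablePred Q] :
    haveI : Fact p.Prime := ⟨hp⟩
    cs (range p) (fun m => Q (((n0 + W * (m : ℤ) : ℤ)) : ZMod p)) =
      ((Finset.univ : Finset (ZMod p)).filter Q).card := by
  have : Fact p.Prime := ⟨hp⟩
  have hW0 : ((W : ℕ) : ZMod p) ≠ 0 := by
    intro h
    exact hW ((ZMod.natCast_eq_zero_iff W p).1 h)
  unfold cs
  refine Finset.card_bij (fun m _ => (((n0 + W * (m : ℤ) : ℤ)) : ZMod p)) ?_ ?_ ?_
  · intro m hm
    rw [mem_sel] at hm
    rw [mem_filter]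
    exact ⟨mem_univ _, hm.2⟩
  · intro m hm m' hm' h
    rw [mem_sel, mem_range] at hm hm'
    push_cast at h
    have h1 : ((W : ℕ) : ZMod p) * (m : ZMod p) = ((W : ℕ) : ZMod p) * (m' : ZMod p) := by
      simpa using h
    have h2 : ((m : ℕ) : ZMod p) = ((m' : ℕ) : ZMod p) := mul_left_cancel₀ hW0 h1
    have h3 := (ZMod.natCast_eq_natCast_iff' m m' p).1 h2
    rwa [Nat.mod_eq_of_lt hm.1, Nat.mod_eq_of_lt hm'.1] at h3
  · intro x hx
    rw [mem_filter] at hx
    set m : ℕ := ((x - (n0 : ZMod p)) * ((W : ℕ) : ZMod p)⁻¹).val with hm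
    have hmx : ((m : ℕ) : ZMod p) = (x - (n0 : ZMod p)) * ((W : ℕ) : ZMod p)⁻¹ := by
      rw [hm, ZMod.natCast_zmod_val]
    have e : (((n0 + W * (m : ℤ) : ℤ)) : ZMod p) = x := by
      push_cast
      rw [hmx]
      field_simp
      ring
    refine ⟨m, ?_, e⟩
    rw [mem_sel, mem_range]
    refine ⟨ZMod.val_lt _, ?_⟩
    show Q (((n0 + W * (m : ℤ) : ℤ)) : ZMod p)
    rw [e]
    exact hx.2

theorem root_per (p W : ℕ) (n0 : ℤ) (w : ℤ × ℤ) (m : ℕ) :
    (p : ℤ) ∣ Nm (sh (n0 + W * ((m + p : ℕ) : ℤ)) w) ↔ (p : ℤ) ∣ Nm (sh (n0 + W * (m : ℤ)) w) := by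
  rw [rt_dvd, rt_dvd]
  have : ((Nm (sh (n0 + W * ((m + p : ℕ) : ℤ)) w) : ℤ) : ZMod p) =
      ((Nm (sh (n0 + W * (m : ℤ)) w) : ℤ) : ZMod p) := by
    unfold Nm sh F
    push_cast
    simp
  rw [this]

/-- a primitive cube root of unity -/
private theorem rt_omega {p : ℕ} (hp : p.Prime) (h3 : p % 3 = 1) :
    ∃ g : ZMod p, g ^ 2 + g + 1 = 0 ∧ g ≠ g ^ 2 ∧ g ≠ 1 ∧ g ^ 2 ≠ 1 := by
  have : Fact p.Prime := ⟨hp⟩
  have hc : 3 ∣ Fintype.card (ZMod p)ˣ := by
    rw [ZMod.card_units p]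
    have := hp.pos
    omega
  have : Fact (Nat.Prime 3) := ⟨Nat.prime_three⟩
  obtain ⟨u, hu⟩ := exists_prime_orderOf_dvd_card 3 hc
  have h1 : (u : ZMod p) ^ 3 = 1 := by
    have := pow_orderOf_eq_one u
    rw [hu] at this
    rw [← Units.val_pow_eq_pow_val, this, Units.val_one]
  have h2 : (u : ZMod p) ≠ 1 := by
    intro h
    have h' : u = 1 := Units.ext h
    rw [h', orderOf_one] at hu
    omega
  have h4 : ((u : ZMod p) - 1) * ((u : ZMod p) ^ 2 + u + 1) = 0 := by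
    linear_combination h1
  have h5 : (u : ZMod p) ^ 2 + u + 1 = 0 := by
    rcases mul_eq_zero.1 h4 with h | h
    · exact absurd (sub_eq_zero.1 h) h2
    · exact h
  have hu0 : (u : ZMod p) ≠ 0 := u.ne_zero
  refine ⟨u, h5, ?_, h2, ?_⟩
  · intro h
    apply h2
    have : (u : ZMod p) * 1 = u * u := by rw [mul_one, ← pow_two]; exact h
    exact (mul_left_cancel₀ hu0 this).symm
  · intro h
    apply h2
    have : (u : ZMod p) ^ 3 = (u : ZMod p) := by
      calc (u : ZMod p) ^ 3 = (u : ZMod p) ^ 2 * (u : ZMod p) := by ring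
        _ = (u : ZMod p) := by rw [h, one_mul]
    rw [← this, h1]

/-- no primitive cube root of unity modulo `p = 2 mod 3` -/
private theorem rt_no_omega {p : ℕ} (hp : p.Prime) (h : p % 3 = 2) (t : ZMod p) :
    t ^ 2 + t + 1 ≠ 0 := by
  have : Fact p.Prime := ⟨hp⟩
  intro h0
  have h1 : t ^ 3 = 1 := by linear_combination (t - 1) * h0
  have ht : t ≠ 0 := by
    rintro rfl
    simp at h0
  have hne : t ≠ 1 := by
    rintro rfl
    have h2 : ((3 : ℕ) : ZMod p) = 0 := by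
      push_cast
      linear_combination h0
    have h3 := (ZMod.natCast_eq_zero_iff 3 p).1 h2
    have h4 := (Nat.prime_dvd_prime_iff_eq hp Nat.prime_three).1 h3
    rw [h4] at h
    omega
  set u : (ZMod p)ˣ := Units.mk0 t ht with hu
  have hu3 : u ^ 3 = 1 := by
    apply Units.ext
    rw [Units.val_pow_eq_pow_val, hu, Units.val_mk0, h1, Units.val_one]
  have hu1 : u ≠ 1 := by
    intro hh
    apply hne
    have := congrArg Units.val hh
    rwa [hu, Units.val_mk0, Units.val_one] at this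
  have : Fact (Nat.Prime 3) := ⟨Nat.prime_three⟩
  have ho : orderOf u = 3 := orderOf_eq_prime hu3 hu1
  have hd : orderOf u ∣ Fintype.card (ZMod p)ˣ := orderOf_dvd_card
  rw [ho, ZMod.card_units p] at hd
  have := hp.pos
  omega

theorem root_two {p : ℕ} (hp : p.Prime) (h3 : p % 3 = 1) {w : ℤ × ℤ} (hv : ¬ (p : ℤ) ∣ w.2)
    {W : ℕ} (hW : ¬ p ∣ W) (n0 : ℤ) :
    cs (range p) (fun m => (p : ℤ) ∣ Nm (sh (n0 + W * (m : ℤ)) w)) = 2 := by
  classical
  have : Fact p.Prime := ⟨hp⟩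
  obtain ⟨g, hg, hg2, -, -⟩ := rt_omega hp h3
  have hv0 : ((w.2 : ℤ) : ZMod p) ≠ 0 := fun h => hv ((rt_dvd _).2 h)
  set u : ZMod p := ((w.1 : ℤ) : ZMod p) with hu
  set v : ZMod p := ((w.2 : ℤ) : ZMod p) with hvdef
  set Q : ZMod p → Prop := fun x => (u + x * v + v) ^ 2 + (u + x * v + v) * v + v ^ 2 = 0 with hQ
  have h1 : cs (range p) (fun m => (p : ℤ) ∣ Nm (sh (n0 + W * (m : ℤ)) w)) =
      cs (range p) (fun m => Q (((n0 + W * (m : ℤ) : ℤ)) : ZMod p)) := by
    refine cs_congr fun m _ => ?_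
    rw [rt_dvd, rt_Nm]
    simp only [hQ, sh, hu, hvdef]
    push_cast
    exact Iff.rfl
  rw [h1, rt_count hp hW n0 Q]
  have h2 : (Finset.univ : Finset (ZMod p)).filter Q =
      {(g * v - u - v) / v, (g ^ 2 * v - u - v) / v} := by
    ext x
    rw [mem_filter, mem_insert, mem_singleton]
    have h5 : (u + x * v + v) ^ 2 + (u + x * v + v) * v + v ^ 2 =
        (u + x * v + v - g * v) * (u + x * v + v - g ^ 2 * v) := by
      linear_combination ((u + x * v + v) * v + v ^ 2 * (1 - g)) * hg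
    simp only [hQ, mem_univ, true_and]
    rw [h5, mul_eq_zero, eq_div_iff hv0, eq_div_iff hv0]
    constructor
    · rintro (h | h)
      · left; linear_combination h
      · right; linear_combination h
    · rintro (h | h)
      · left; linear_combination h
      · right; linear_combination h
  rw [h2, Finset.card_pair]
  intro h
  rw [div_eq_div_iff hv0 hv0] at h
  have h6 := mul_right_cancel₀ hv0 h
  have h7 : (g - g ^ 2) * v = 0 := by linear_combination h6
  rcases mul_eq_zero.1 h7 with h8 | h8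
  · exact hg2 (sub_eq_zero.1 h8)
  · exact hv0 h8

theorem root_le {p : ℕ} (hp : p.Prime) {w : ℤ × ℤ} (hw : IsCoprime w.1 w.2)
    {W : ℕ} (hW : ¬ p ∣ W) (n0 : ℤ) :
    cs (range p) (fun m => (p : ℤ) ∣ Nm (sh (n0 + W * (m : ℤ)) w)) ≤ 2 := by
  classical
  have : Fact p.Prime := ⟨hp⟩
  set u : ZMod p := ((w.1 : ℤ) : ZMod p) with hu
  set v : ZMod p := ((w.2 : ℤ) : ZMod p) with hvdef
  set Q : ZMod p → Prop := fun x => (u + x * v + v) ^ 2 + (u + x * v + v) * v + v ^ 2 = 0 with hQ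
  have h1 : cs (range p) (fun m => (p : ℤ) ∣ Nm (sh (n0 + W * (m : ℤ)) w)) =
      cs (range p) (fun m => Q (((n0 + W * (m : ℤ) : ℤ)) : ZMod p)) := by
    refine cs_congr fun m _ => ?_
    rw [rt_dvd, rt_Nm]
    simp only [hQ, sh, hu, hvdef]
    push_cast
    exact Iff.rfl
  rw [h1, rt_count hp hW n0 Q]
  by_cases hv0 : v = 0
  · have hempty : (Finset.univ : Finset (ZMod p)).filter Q = ∅ := by
      rw [Finset.filter_eq_empty_iff]
      intro x _ hx
      simp only [hQ, hv0] at hx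
      have h2 : u ^ 2 = 0 := by linear_combination hx
      have h3 : u = 0 := by simpa using h2
      obtain ⟨a, b, hab⟩ := hw
      have h4 : ((a * w.1 + b * w.2 : ℤ) : ZMod p) = 1 := by rw [hab]; simp
      push_cast at h4
      rw [← hu, ← hvdef, h3, hv0] at h4
      simp at h4
    rw [hempty, card_empty]
    omega
  · by_cases hex : ∃ x0, Q x0
    · obtain ⟨x0, hx0⟩ := hex
      have hsub : (Finset.univ : Finset (ZMod p)).filter Q ⊆
          {x0, (-v - (u + x0 * v + v) - u - v) / v} := by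
        intro x hx
        rw [mem_filter] at hx
        have hx1 := hx.2
        simp only [hQ] at hx1 hx0
        rw [mem_insert, mem_singleton, eq_div_iff hv0]
        have h2 : v * (x - x0) * ((u + x * v + v) + (u + x0 * v + v) + v) = 0 := by
          linear_combination hx1 - hx0
        rcases mul_eq_zero.1 h2 with h3 | h3
        · rcases mul_eq_zero.1 h3 with h4 | h4
          · exact absurd h4 hv0
          · left; exact sub_eq_zero.1 h4
        · right; linear_combination h3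
      exact (card_le_card hsub).trans card_le_two
    · have hempty : (Finset.univ : Finset (ZMod p)).filter Q = ∅ := by
        rw [Finset.filter_eq_empty_iff]
        intro x _ hx
        exact hex ⟨x, hx⟩
      rw [hempty, card_empty]
      omega

theorem inert {p : ℕ} (hp : p.Prime) (h : p % 3 = 2) {w : ℤ × ℤ} (hw : (p : ℤ) ∣ Nm w) :
    (p : ℤ) ∣ w.1 ∧ (p : ℤ) ∣ w.2 := by
  have : Fact p.Prime := ⟨hp⟩
  rw [rt_dvd, rt_Nm] at hw
  push_cast at hw
  rw [rt_dvd, rt_dvd]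
  set u : ZMod p := ((w.1 : ℤ) : ZMod p) with hu
  set v : ZMod p := ((w.2 : ℤ) : ZMod p) with hvdef
  by_cases hv : v = 0
  · rw [hv] at hw
    have h2 : u ^ 2 = 0 := by linear_combination hw
    exact ⟨by simpa using h2, hv⟩
  · exfalso
    apply rt_no_omega hp h ((u + v) / v)
    field_simp
    linear_combination hw

theorem fk_no_root {q : ℕ} (hq : q.Prime) (h : q % 3 ≠ 1) (R : ℤ) : ¬ (q : ℤ) ∣ fk R := by
  intro hd
  have h3 : q % 3 = 0 ∨ q % 3 = 2 := by omega
  rcases h3 with h3 | h3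
  · have h4 : 3 ∣ q := Nat.dvd_of_mod_eq_zero h3
    have h5 := (Nat.prime_dvd_prime_iff_eq Nat.prime_three hq).1 h4
    rw [← h5] at hd
    unfold fk at hd
    have h6 : ((3 : ℕ) : ℤ) ∣ 1 := by
      have h7 : ((3 : ℕ) : ℤ) ∣ 3 * R ^ 2 + 3 * R := ⟨R ^ 2 + R, by push_cast; ring⟩
      have := (Int.dvd_add_right h7).1 hd
      exact this
    norm_num at h6
  · have h4 : (q : ℤ) ∣ Nm ((1 : ℤ), R) := by
      rw [show Nm ((1 : ℤ), R) = fk R by rw [fk_eq]; rfl]
      exact hd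
    have h5 := (inert hq h3 h4).1
    have h6 : (q : ℤ) ∣ 1 := h5
    have h7 := Int.le_of_dvd one_pos h6
    have := hq.two_le
    omega

theorem fk_roots {q : ℕ} (hq : q.Prime) :
    ∃ x1 x2 : ℤ, ∀ R : ℤ, (q : ℤ) ∣ fk R → (q : ℤ) ∣ R - x1 ∨ (q : ℤ) ∣ R - x2 := by
  by_cases hex : ∃ R0 : ℤ, (q : ℤ) ∣ fk R0
  · obtain ⟨R0, h0⟩ := hex
    refine ⟨R0, -1 - R0, fun R hR => ?_⟩
    have h1 : (q : ℤ) ∣ 3 * ((R - R0) * (R - (-1 - R0))) := by
      have := dvd_sub hR h0
      have e : fk R - fk R0 = 3 * ((R - R0) * (R - (-1 - R0))) := by unfold fk; ring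
      rwa [e] at this
    have hq' : Prime (q : ℤ) := Nat.prime_iff_prime_int.1 hq
    rcases hq'.dvd_or_dvd h1 with h2 | h2
    · exfalso
      have h3 : q ∣ 3 := by exact_mod_cast h2
      have h4 := (Nat.prime_dvd_prime_iff_eq hq Nat.prime_three).1 h3
      exact fk_no_root hq (by rw [h4]; norm_num) R0 h0
    · exact hq'.dvd_or_dvd h2
  · exact ⟨0, 0, fun R hR => absurd ⟨R, hR⟩ hex⟩

theorem fk_two_roots {q : ℕ} (hq : q.Prime) (h : q % 3 = 1) :
    cs (range q) (fun R => (q : ℤ) ∣ fk (R : ℤ)) = 2 := by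
  classical
  have : Fact q.Prime := ⟨hq⟩
  obtain ⟨g, hg, hg2, hg1, hg21⟩ := rt_omega hq h
  set Q : ZMod q → Prop := fun x => 3 * x ^ 2 + 3 * x + 1 = 0 with hQ
  have h1 : cs (range q) (fun R => (q : ℤ) ∣ fk (R : ℤ)) =
      cs (range q) (fun m => Q ((((0 : ℤ) + (1 : ℕ) * (m : ℤ) : ℤ)) : ZMod q)) := by
    refine cs_congr fun m _ => ?_
    rw [rt_dvd]
    simp only [hQ, fk]
    push_cast
    rw [zero_add, one_mul]
  rw [h1, rt_count hq (W := 1) (fun hh => hq.one_lt.ne' (Nat.dvd_one.1 hh)) 0 Q]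
  have ha : g - 1 ≠ 0 := sub_ne_zero.2 hg1
  have hb : g ^ 2 - 1 ≠ 0 := sub_ne_zero.2 hg21
  have h2 : (Finset.univ : Finset (ZMod q)).filter Q = {1 / (g - 1), 1 / (g ^ 2 - 1)} := by
    ext x
    rw [mem_filter, mem_insert, mem_singleton, eq_div_iff ha, eq_div_iff hb]
    simp only [hQ, mem_univ, true_and]
    have h5 : 3 * x ^ 2 + 3 * x + 1 = (x * (g - 1) - 1) * (x * (g ^ 2 - 1) - 1) := by
      linear_combination (-x ^ 2 * (g - 2) + x) * hg
    rw [h5, mul_eq_zero, sub_eq_zero, sub_eq_zero]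
  rw [h2, Finset.card_pair]
  intro hh
  rw [div_eq_div_iff ha hb] at hh
  apply hg2
  linear_combination -hh

private theorem rt_class (L : ℕ) {q : ℕ} (hq : 0 < q) (c : ZMod q) :
    ((Icc (1 : ℤ) L).filter (fun x => ((x : ℤ) : ZMod q) = c)).card ≤ L / q + 1 := by
  have h1 : ((Icc (1 : ℤ) L).filter (fun x => ((x : ℤ) : ZMod q) = c)).card ≤
      (range (L / q + 1)).card := by
    refine Finset.card_le_card_of_injOn (fun x => ((x - 1) / (q : ℤ)).toNat) ?_ ?_
    · intro x hx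
      rw [Finset.mem_coe, mem_filter, mem_Icc] at hx
      rw [Finset.mem_coe, mem_range]
      obtain ⟨⟨hx1, hx2⟩, -⟩ := hx
      have h2 : (x - 1) / (q : ℤ) ≤ (L : ℤ) / (q : ℤ) :=
        Int.ediv_le_ediv (by exact_mod_cast hq) (by omega)
      have h3 : ((L / q : ℕ) : ℤ) = (L : ℤ) / (q : ℤ) := by push_cast; rfl
      have h4 : (0 : ℤ) ≤ (L : ℤ) / (q : ℤ) := by rw [← h3]; exact Int.natCast_nonneg _
      show ((x - 1) / (q : ℤ)).toNat < L / q + 1
      omega
    · intro x hx y hy hxy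
      rw [Finset.mem_coe, mem_filter, mem_Icc] at hx hy
      obtain ⟨⟨hx1, hx2⟩, hx3⟩ := hx
      obtain ⟨⟨hy1, hy2⟩, hy3⟩ := hy
      have hqz : (0 : ℤ) < (q : ℤ) := by exact_mod_cast hq
      have hx4 : 0 ≤ (x - 1) / (q : ℤ) := Int.ediv_nonneg (by omega) hqz.le
      have hy4 : 0 ≤ (y - 1) / (q : ℤ) := Int.ediv_nonneg (by omega) hqz.le
      have h2 : (x - 1) / (q : ℤ) = (y - 1) / (q : ℤ) := by
        have h3 : ((x - 1) / (q : ℤ)).toNat = ((y - 1) / (q : ℤ)).toNat := hxy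
        omega
      have h5 : (q : ℤ) ∣ (x - 1) - (y - 1) := by
        rw [rt_dvd]
        push_cast
        rw [hx3, hy3]
        ring
      have h6 : (x - 1) % (q : ℤ) = (y - 1) % (q : ℤ) :=
        Int.emod_eq_emod_iff_emod_sub_eq_zero.2 (Int.emod_eq_zero_of_dvd h5)
      have h7 := Int.emod_add_mul_ediv (x - 1) (q : ℤ)
      have h8 := Int.emod_add_mul_ediv (y - 1) (q : ℤ)
      rw [h6, h2] at h7
      omega
  rwa [card_range] at h1

open Classical in
private theorem rt_line (L : ℕ) {q : ℕ} (hq : q.Prime) (a b : ZMod q) (hab : a ≠ 0 ∨ b ≠ 0) :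
    cs (Icc (1 : ℤ) L ×ˢ Icc (1 : ℤ) L)
      (fun p => a * ((p.1 : ℤ) : ZMod q) + b * ((p.2 : ℤ) : ZMod q) = 0) ≤ L * (L / q + 1) := by
  have : Fact q.Prime := ⟨hq⟩
  have hL : (Icc (1 : ℤ) L).card = L := by simp
  unfold cs
  rcases hab with h | h
  · have h1 : sel (Icc (1 : ℤ) L ×ˢ Icc (1 : ℤ) L)
        (fun p => a * ((p.1 : ℤ) : ZMod q) + b * ((p.2 : ℤ) : ZMod q) = 0) ⊆
        (Icc (1 : ℤ) L).biUnion (fun y => ((Icc (1 : ℤ) L).filter
          (fun x => ((x : ℤ) : ZMod q) = -(b * ((y : ℤ) : ZMod q)) / a)).image (fun x => (x, y))) := by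
      rintro ⟨x, y⟩ hxy
      rw [mem_sel, mem_product] at hxy
      rw [mem_biUnion]
      refine ⟨y, hxy.1.2, ?_⟩
      rw [mem_image]
      refine ⟨x, ?_, rfl⟩
      rw [mem_filter]
      refine ⟨hxy.1.1, ?_⟩
      rw [eq_div_iff h]
      have h2 : a * ((x : ℤ) : ZMod q) + b * ((y : ℤ) : ZMod q) = 0 := hxy.2
      linear_combination h2
    refine (card_le_card h1).trans (card_biUnion_le.trans ?_)
    calc ∑ y ∈ Icc (1 : ℤ) L, (((Icc (1 : ℤ) L).filter
          (fun x => ((x : ℤ) : ZMod q) = -(b * ((y : ℤ) : ZMod q)) / a)).image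
            (fun x => (x, y))).card
        ≤ ∑ _y ∈ Icc (1 : ℤ) L, (L / q + 1) :=
          sum_le_sum fun y _ => card_image_le.trans (rt_class L hq.pos _)
      _ = L * (L / q + 1) := by rw [sum_const, hL, smul_eq_mul]
  · have h1 : sel (Icc (1 : ℤ) L ×ˢ Icc (1 : ℤ) L)
        (fun p => a * ((p.1 : ℤ) : ZMod q) + b * ((p.2 : ℤ) : ZMod q) = 0) ⊆
        (Icc (1 : ℤ) L).biUnion (fun x => ((Icc (1 : ℤ) L).filter
          (fun y => ((y : ℤ) : ZMod q) = -(a * ((x : ℤ) : ZMod q)) / b)).image (fun y => (x, y))) := by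
      rintro ⟨x, y⟩ hxy
      rw [mem_sel, mem_product] at hxy
      rw [mem_biUnion]
      refine ⟨x, hxy.1.1, ?_⟩
      rw [mem_image]
      refine ⟨y, ?_, rfl⟩
      rw [mem_filter]
      refine ⟨hxy.1.2, ?_⟩
      rw [eq_div_iff h]
      have h2 : a * ((x : ℤ) : ZMod q) + b * ((y : ℤ) : ZMod q) = 0 := hxy.2
      linear_combination h2
    refine (card_le_card h1).trans (card_biUnion_le.trans ?_)
    calc ∑ x ∈ Icc (1 : ℤ) L, (((Icc (1 : ℤ) L).filter
          (fun y => ((y : ℤ) : ZMod q) = -(a * ((x : ℤ) : ZMod q)) / b)).image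
            (fun y => (x, y))).card
        ≤ ∑ _x ∈ Icc (1 : ℤ) L, (L / q + 1) :=
          sum_le_sum fun x _ => card_image_le.trans (rt_class L hq.pos _)
      _ = L * (L / q + 1) := by rw [sum_const, hL, smul_eq_mul]

theorem win_lines {q : ℕ} (hq : q.Prime) {e f : ℤ × ℤ} (hb : Basis2 e f) (L : ℕ) :
    cs (win L) (fun p => (q : ℤ) ∣ Nm (lin e f p)) ≤ 2 * (L * (L / q + 1)) := by
  classical
  have : Fact q.Prime := ⟨hq⟩
  -- the determinant is not zero modulo `q`
  have hdet : ((e.1 : ℤ) : ZMod q) * ((f.2 : ℤ) : ZMod q) -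
      ((e.2 : ℤ) : ZMod q) * ((f.1 : ℤ) : ZMod q) ≠ 0 := by
    intro h
    have h1 : ((e.1 * f.2 - e.2 * f.1 : ℤ) : ZMod q) = 0 := by push_cast; exact h
    rw [← rt_dvd] at h1
    have h2 : e.1 * f.2 - e.2 * f.1 = -(dt e f) := by unfold dt; ring
    rw [h2] at h1
    have h3 : (q : ℤ) ∣ 1 := by
      rcases hb with h4 | h4
      · rw [h4] at h1; exact (dvd_neg.1 h1)
      · rw [h4, neg_neg] at h1; exact h1
    have h4 := Int.le_of_dvd one_pos h3
    have := hq.two_le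
    omega
  set e1 : ZMod q := ((e.1 : ℤ) : ZMod q) with he1
  set e2 : ZMod q := ((e.2 : ℤ) : ZMod q) with he2
  set f1 : ZMod q := ((f.1 : ℤ) : ZMod q) with hf1
  set f2 : ZMod q := ((f.2 : ℤ) : ZMod q) with hf2
  -- a nontrivial zero of the form gives a root
  have hkey : ∀ p ∈ win L, (q : ℤ) ∣ Nm (lin e f p) →
      e2 * ((p.1 : ℤ) : ZMod q) + f2 * ((p.2 : ℤ) : ZMod q) ≠ 0 ∧
      ((e1 + e2) * ((p.1 : ℤ) : ZMod q) + (f1 + f2) * ((p.2 : ℤ) : ZMod q)) ^ 2 +
      ((e1 + e2) * ((p.1 : ℤ) : ZMod q) + (f1 + f2) * ((p.2 : ℤ) : ZMod q)) *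
        (e2 * ((p.1 : ℤ) : ZMod q) + f2 * ((p.2 : ℤ) : ZMod q)) +
      (e2 * ((p.1 : ℤ) : ZMod q) + f2 * ((p.2 : ℤ) : ZMod q)) ^ 2 = 0 := by
    intro p hp hd
    rw [win, mem_sel] at hp
    obtain ⟨-, a, b, hab⟩ := hp
    rw [rt_dvd, rt_Nm] at hd
    unfold lin at hd
    push_cast at hd
    rw [← he1, ← he2, ← hf1, ← hf2] at hd
    set x : ZMod q := ((p.1 : ℤ) : ZMod q) with hx
    set y : ZMod q := ((p.2 : ℤ) : ZMod q) with hy
    have hz : ((e1 + e2) * x + (f1 + f2) * y) ^ 2 +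
      ((e1 + e2) * x + (f1 + f2) * y) * (e2 * x + f2 * y) + (e2 * x + f2 * y) ^ 2 = 0 := by
      linear_combination hd
    refine ⟨?_, hz⟩
    intro hv
    rw [hv] at hz
    have h1 : ((e1 + e2) * x + (f1 + f2) * y) ^ 2 = 0 := by linear_combination hz
    have h2 : (e1 + e2) * x + (f1 + f2) * y = 0 := by simpa using h1
    have h3 : e1 * x + f1 * y = 0 := by linear_combination h2 - hv
    have h4 : (e1 * f2 - e2 * f1) * x = 0 := by linear_combination f2 * h3 - f1 * hv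
    have h5 : (e1 * f2 - e2 * f1) * y = 0 := by linear_combination e1 * hv - e2 * h3
    have hx0 : x = 0 := by
      rcases mul_eq_zero.1 h4 with h | h
      · exact absurd h hdet
      · exact h
    have hy0 : y = 0 := by
      rcases mul_eq_zero.1 h5 with h | h
      · exact absurd h hdet
      · exact h
    have h6 : ((a * p.1 + b * p.2 : ℤ) : ZMod q) = 1 := by rw [hab]; simp
    push_cast at h6
    rw [← hx, ← hy, hx0, hy0] at h6
    simp at h6
  by_cases hex : ∃ p ∈ win L, (q : ℤ) ∣ Nm (lin e f p)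
  · obtain ⟨p0, hp0, hd0⟩ := hex
    obtain ⟨hv0, hz0⟩ := hkey p0 hp0 hd0
    set z0 : ZMod q := (e1 + e2) * ((p0.1 : ℤ) : ZMod q) + (f1 + f2) * ((p0.2 : ℤ) : ZMod q) with hz0d
    set v0 : ZMod q := e2 * ((p0.1 : ℤ) : ZMod q) + f2 * ((p0.2 : ℤ) : ZMod q) with hv0d
    set t : ZMod q := z0 / v0 with ht
    have htz : z0 = t * v0 := by rw [ht]; field_simp
    have ht0 : t ^ 2 + t + 1 = 0 := by
      have h1 : (t ^ 2 + t + 1) * v0 ^ 2 = 0 := by
        rw [htz] at hz0
        linear_combination hz0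
      rcases mul_eq_zero.1 h1 with h | h
      · exact h
      · exact absurd (by simpa using h) hv0
    have hline : ∀ s : ZMod q, (e1 + e2 - s * e2 ≠ 0 ∨ f1 + f2 - s * f2 ≠ 0) := by
      intro s
      by_contra hcon
      push Not at hcon
      obtain ⟨h1, h2⟩ := hcon
      apply hdet
      linear_combination f2 * h1 - e2 * h2
    have hmono : cs (win L) (fun p => (q : ℤ) ∣ Nm (lin e f p)) ≤
        cs (Icc (1 : ℤ) L ×ˢ Icc (1 : ℤ) L)
          (fun p => (e1 + e2 - t * e2) * ((p.1 : ℤ) : ZMod q) +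
            (f1 + f2 - t * f2) * ((p.2 : ℤ) : ZMod q) = 0 ∨
            (e1 + e2 - (-1 - t) * e2) * ((p.1 : ℤ) : ZMod q) +
            (f1 + f2 - (-1 - t) * f2) * ((p.2 : ℤ) : ZMod q) = 0) := by
      refine (cs_mono (Q := fun p : ℤ × ℤ => (e1 + e2 - t * e2) * ((p.1 : ℤ) : ZMod q) +
            (f1 + f2 - t * f2) * ((p.2 : ℤ) : ZMod q) = 0 ∨
            (e1 + e2 - (-1 - t) * e2) * ((p.1 : ℤ) : ZMod q) +
            (f1 + f2 - (-1 - t) * f2) * ((p.2 : ℤ) : ZMod q) = 0) ?_).trans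
        (by unfold win; exact cs_subset (sel_subset _ _) _)
      intro p hp hd
      obtain ⟨hv, hz⟩ := hkey p hp hd
      have h1 : ((e1 + e2 - t * e2) * ((p.1 : ℤ) : ZMod q) +
            (f1 + f2 - t * f2) * ((p.2 : ℤ) : ZMod q)) *
            ((e1 + e2 - (-1 - t) * e2) * ((p.1 : ℤ) : ZMod q) +
            (f1 + f2 - (-1 - t) * f2) * ((p.2 : ℤ) : ZMod q)) = 0 := by
        linear_combination hz - (e2 * ((p.1 : ℤ) : ZMod q) + f2 * ((p.2 : ℤ) : ZMod q)) ^ 2 * ht0
      exact mul_eq_zero.1 h1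
    refine hmono.trans ((cs_or _ _ _).trans ?_)
    have h2 := rt_line L hq _ _ (hline t)
    have h3 := rt_line L hq _ _ (hline (-1 - t))
    calc _ ≤ L * (L / q + 1) + L * (L / q + 1) := Nat.add_le_add h2 h3
      _ = 2 * (L * (L / q + 1)) := by ring
  · have h0 : cs (win L) (fun p => (q : ℤ) ∣ Nm (lin e f p)) = 0 := by
      unfold cs
      rw [Finset.card_eq_zero, Finset.eq_empty_iff_forall_notMem]
      intro p hp
      rw [mem_sel] at hp
      exact hex ⟨p, hp.1, hp.2⟩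
    rw [h0]
    exact Nat.zero_le _

end Pool.Agent.H17.RP
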