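import Pool.Agent.H17.RP.Arg

/-!
# SecI: a sector on a horizontal line is an interval

`N = 20A + 1` sectors of the angle `[π/3, 2π/3)`, sector `j` (`0 ≤ j < N`): `φ_j ≤ arg < φ_(j+1)`,
`φ_j = π/3 + j ω`, `ω = π/(3N)`.  For `arg ∈ [π/3, 2π/3)` the real number `(arg - π/3) 3N/π` is in
`[0, N)`, so `sec A w = j` iff its floor is `j` (as an integer in `[0, N)`), iff `φ_j ≤ arg < φ_(j+1)`.
For `y > 0` and an argument in `(0, π)`: `φ_j ≤ arg (em (x,y)) < φ_(j+1)` iff
`b' < x + 3y/2 ≤ b''`, `b' = (√3/2) y cot φ_(j+1)`, `b'' = (√3/2) y cot φ_j` (`Re = |z| cos arg`,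
`Im = |z| sin arg = (√3/2) y`; `cot` is decreasing on `(0, π)`; equivalently
`Im cos φ - Re sin φ = |z| sin (arg - φ)`).  The length is
`(√3/2) y (cot φ_j - cot φ_(j+1)) = (√3/2) y sin ω/(sin φ_j sin φ_(j+1))`, the sines are in `[√3/2, 1]`, so
it is between `(√3/2) y sin ω` and `(√3/2)(4/3) y ω`.  For `A² ≤ y ≤ 2A²` and `A ≥ 20`: between `A/50` and
`A/8` (`sin ω ≥ (2/π) ω`).
-/

set_option autoImplicit false

namespace Pool.Agent.H17.RP

open Finset

/-- `sin ≥ √3/2` on `[π/3, 2π/3]` -/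
private theorem SecI_sin {φ : ℝ} (h1 : Real.pi / 3 ≤ φ) (h2 : φ ≤ 2 * Real.pi / 3) :
    Real.sqrt 3 / 2 ≤ Real.sin φ := by
  have hpi := Real.pi_pos
  rw [← Real.sin_pi_div_three]
  rcases le_total φ (Real.pi / 2) with h | h
  · exact Real.sin_le_sin_of_le_of_le_pi_div_two (by linarith) h h1
  · rw [← Real.sin_pi_sub φ]
    exact Real.sin_le_sin_of_le_of_le_pi_div_two (by linarith) (by linarith) (by linarith)

/-- comparison of the argument with an angle in `(0, π)` -/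
private theorem SecI_arg {z : ℂ} (hz : 0 < z.im) {φ : ℝ} (h0 : 0 < φ) (h1 : φ < Real.pi) :
    φ ≤ z.arg ↔ z.re ≤ z.im * (Real.cos φ / Real.sin φ) := by
  have hs : 0 < Real.sin φ := Real.sin_pos_of_pos_of_lt_pi h0 h1
  have hz0 : z ≠ 0 := by
    intro h
    rw [h] at hz
    simp at hz
  have hn : 0 < ‖z‖ := norm_pos_iff.mpr hz0
  have ha0 : 0 ≤ z.arg := Complex.arg_nonneg_iff.mpr hz.le
  have hap : z.arg < Real.pi := by
    rcases lt_or_eq_of_le (Complex.arg_le_pi z) with h | h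
    · exact h
    · exact absurd (Complex.arg_eq_pi_iff.mp h).2 hz.ne'
  have hre : z.re = ‖z‖ * Real.cos z.arg := (Complex.norm_mul_cos_arg z).symm
  have him : z.im = ‖z‖ * Real.sin z.arg := (Complex.norm_mul_sin_arg z).symm
  have key : z.im * Real.cos φ - z.re * Real.sin φ = ‖z‖ * Real.sin (z.arg - φ) := by
    rw [Real.sin_sub]
    calc z.im * Real.cos φ - z.re * Real.sin φ
        = (‖z‖ * Real.sin z.arg) * Real.cos φ - (‖z‖ * Real.cos z.arg) * Real.sin φ := by
          rw [← him, ← hre]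
      _ = ‖z‖ * (Real.sin z.arg * Real.cos φ - Real.cos z.arg * Real.sin φ) := by ring
  have h3 : z.re ≤ z.im * (Real.cos φ / Real.sin φ) ↔ 0 ≤ z.im * Real.cos φ - z.re * Real.sin φ := by
    rw [← mul_div_assoc, le_div_iff₀ hs]
    constructor <;> intro h <;> linarith
  rw [h3, key]
  constructor
  · intro h
    exact mul_nonneg hn.le (Real.sin_nonneg_of_nonneg_of_le_pi (by linarith) (by linarith))
  · intro h
    by_contra hc
    push Not at hc
    have : Real.sin (z.arg - φ) < 0 := Real.sin_neg_of_neg_of_neg_pi_lt (by linarith) (by linarith)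
    nlinarith

theorem sec_interval {A : ℕ} (hA : 20 ≤ A) (j : ZMod (20 * A + 1)) {y : ℤ}
    (hy1 : (A : ℤ) ^ 2 ≤ y) (hy2 : y ≤ 2 * (A : ℤ) ^ 2) :
    ∃ a b : ℝ, (A : ℝ) / 50 ≤ b - a ∧ b - a ≤ (A : ℝ) / 8 ∧
      ∀ x : ℤ, ((-2 * y < x ∧ x ≤ -y) ∧ sec A (x, y) = j) ↔ (a < x ∧ (x : ℝ) ≤ b) := by
  have hpi := Real.pi_pos
  have hAr : (20 : ℝ) ≤ A := by exact_mod_cast hA
  have hN : (0 : ℝ) < 20 * (A : ℝ) + 1 := by linarith
  have hy0 : 0 < y := by
    have : (0 : ℤ) < (A : ℤ) ^ 2 := by positivity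
    linarith
  have hyr1 : (A : ℝ) ^ 2 ≤ y := by exact_mod_cast hy1
  have hyr2 : (y : ℝ) ≤ 2 * (A : ℝ) ^ 2 := by exact_mod_cast hy2
  have hyr0 : (0 : ℝ) < y := by exact_mod_cast hy0
  have hs3 : 0 < Real.sqrt 3 := Real.sqrt_pos.mpr (by norm_num)
  have hs3' : Real.sqrt 3 * Real.sqrt 3 = 3 := Real.mul_self_sqrt (by norm_num)
  have hs3l : (1.73 : ℝ) ≤ Real.sqrt 3 := by
    rw [show (1.73 : ℝ) = Real.sqrt (1.73 ^ 2) by rw [Real.sqrt_sq (by norm_num)]]
    exact Real.sqrt_le_sqrt (by norm_num)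
  set J : ℕ := j.val with hJ
  have hJN : J < 20 * A + 1 := ZMod.val_lt j
  have hJN' : (J : ℝ) + 1 ≤ 20 * (A : ℝ) + 1 := by exact_mod_cast hJN
  have hJ0 : (0 : ℝ) ≤ J := Nat.cast_nonneg J
  set ω : ℝ := Real.pi / (3 * (20 * (A : ℝ) + 1)) with hω
  have hω0 : 0 < ω := by positivity
  have hωN : ω * (20 * (A : ℝ) + 1) = Real.pi / 3 := by
    rw [hω]
    field_simp
  set φ : ℝ := Real.pi / 3 + J * ω with hφ
  set ψ : ℝ := Real.pi / 3 + (J + 1) * ω with hψ
  have hφ1 : Real.pi / 3 ≤ φ := by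
    have : 0 ≤ (J : ℝ) * ω := by positivity
    linarith
  have hφψ : ψ - φ = ω := by
    rw [hφ, hψ]
    ring
  have hψ2 : ψ ≤ 2 * Real.pi / 3 := by
    have : ((J : ℝ) + 1) * ω ≤ (20 * (A : ℝ) + 1) * ω := mul_le_mul_of_nonneg_right hJN' hω0.le
    rw [hψ]
    linarith
  have hφ2 : φ ≤ 2 * Real.pi / 3 := by linarith
  have hψ1 : Real.pi / 3 ≤ ψ := by linarith
  have hsφ := SecI_sin hφ1 hφ2
  have hsψ := SecI_sin hψ1 hψ2
  have hsφ0 : 0 < Real.sin φ := by linarith
  have hsψ0 : 0 < Real.sin ψ := by linarith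
  have hsφ1 := Real.sin_le_one φ
  have hsψ1 := Real.sin_le_one ψ
  have hcot : Real.cos φ / Real.sin φ - Real.cos ψ / Real.sin ψ
      = Real.sin ω / (Real.sin φ * Real.sin ψ) := by
    rw [← hφψ, Real.sin_sub]
    field_simp
  have hωs0 : 0 < Real.sin ω := by
    apply Real.sin_pos_of_pos_of_lt_pi hω0
    have : ω * 1 < ω * (20 * (A : ℝ) + 1) := mul_lt_mul_of_pos_left (by linarith) hω0
    linarith
  -- the length
  have hlen : (Real.sqrt 3 / 2 * y * (Real.cos φ / Real.sin φ) - 3 / 2 * y) -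
      (Real.sqrt 3 / 2 * y * (Real.cos ψ / Real.sin ψ) - 3 / 2 * y)
      = Real.sqrt 3 / 2 * y * (Real.sin ω / (Real.sin φ * Real.sin ψ)) := by
    rw [← hcot]
    ring
  have hprod1 : Real.sin φ * Real.sin ψ ≤ 1 := by nlinarith
  have hprod2 : 3 / 4 ≤ Real.sin φ * Real.sin ψ := by
    have : Real.sqrt 3 / 2 * (Real.sqrt 3 / 2) ≤ Real.sin φ * Real.sin ψ :=
      mul_le_mul hsφ hsψ (by positivity) (by linarith)
    nlinarith
  refine ⟨Real.sqrt 3 / 2 * y * (Real.cos ψ / Real.sin ψ) - 3 / 2 * y,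
    Real.sqrt 3 / 2 * y * (Real.cos φ / Real.sin φ) - 3 / 2 * y, ?_, ?_, ?_⟩
  · rw [hlen]
    have h1 : Real.sin ω ≤ Real.sin ω / (Real.sin φ * Real.sin ψ) := by
      rw [le_div_iff₀ (by positivity)]
      nlinarith
    have h2 : 2 / Real.pi * ω ≤ Real.sin ω := by
      apply Real.mul_le_sin hω0.le
      have : ω * 1 < ω * (20 * (A : ℝ) + 1) := mul_lt_mul_of_pos_left (by linarith) hω0
      linarith
    have h3 : 2 / Real.pi * ω = 2 / (3 * (20 * (A : ℝ) + 1)) := by
      rw [hω]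
      field_simp
    have h4 : (A : ℝ) / 50 ≤ 1.73 / 2 * (A : ℝ) ^ 2 * (2 / (3 * (20 * (A : ℝ) + 1))) := by
      rw [mul_div_assoc', div_le_div_iff₀ (by norm_num) (by positivity)]
      nlinarith
    calc (A : ℝ) / 50 ≤ 1.73 / 2 * (A : ℝ) ^ 2 * (2 / (3 * (20 * (A : ℝ) + 1))) := h4
      _ ≤ Real.sqrt 3 / 2 * y * (Real.sin ω / (Real.sin φ * Real.sin ψ)) := by
        apply mul_le_mul
        · apply mul_le_mul (by linarith) hyr1 (by positivity) (by positivity)
        · rw [← h3]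
          exact h2.trans h1
        · positivity
        · positivity
  · rw [hlen]
    have h1 : Real.sin ω / (Real.sin φ * Real.sin ψ) ≤ 4 / 3 * ω := by
      rw [div_le_iff₀ (by positivity)]
      have h5 : Real.sin ω ≤ ω := (Real.sin_lt hω0).le
      nlinarith
    have h2 : Real.sqrt 3 / 2 * y * (Real.sin ω / (Real.sin φ * Real.sin ψ)) ≤
        Real.sqrt 3 / 2 * (2 * (A : ℝ) ^ 2) * (4 / 3 * ω) := by
      apply mul_le_mul
      · exact mul_le_mul_of_nonneg_left hyr2 (by positivity)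
      · exact h1
      · positivity
      · positivity
    refine h2.trans ?_
    have h3 : Real.sqrt 3 ≤ 1.733 := by
      rw [show (1.733 : ℝ) = Real.sqrt (1.733 ^ 2) by rw [Real.sqrt_sq (by norm_num)]]
      exact Real.sqrt_le_sqrt (by norm_num)
    have h4 : ω ≤ 3.15 / (60 * (A : ℝ)) := by
      rw [hω]
      apply div_le_div₀ (by norm_num) Real.pi_lt_d2.le (by positivity) (by linarith)
    calc Real.sqrt 3 / 2 * (2 * (A : ℝ) ^ 2) * (4 / 3 * ω)
        ≤ 1.733 / 2 * (2 * (A : ℝ) ^ 2) * (4 / 3 * (3.15 / (60 * (A : ℝ)))) := by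
          apply mul_le_mul
          · apply mul_le_mul_of_nonneg_right (by linarith) (by positivity)
          · linarith
          · positivity
          · positivity
      _ = (1.733 * 3.15 * 4 / 180 : ℝ) * (A : ℝ) := by
          field_simp
          ring
      _ ≤ (A : ℝ) / 8 := by nlinarith
  · intro x
    have him : (em (x, y)).im = Real.sqrt 3 / 2 * y := rfl
    have hre : (em (x, y)).re = (x : ℝ) + 3 / 2 * y := rfl
    have himp : 0 < (em (x, y)).im := by
      rw [him]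
      positivity
    have e1 : φ ≤ (em (x, y)).arg ↔ (x : ℝ) ≤
        Real.sqrt 3 / 2 * y * (Real.cos φ / Real.sin φ) - 3 / 2 * y := by
      rw [SecI_arg himp (by linarith) (by linarith), him, hre]
      constructor <;> intro h <;> linarith
    have e2 : ψ ≤ (em (x, y)).arg ↔ (x : ℝ) ≤
        Real.sqrt 3 / 2 * y * (Real.cos ψ / Real.sin ψ) - 3 / 2 * y := by
      rw [SecI_arg himp (by linarith) (by linarith), him, hre]
      constructor <;> intro h <;> linarith
    -- the floor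
    have e3 : ⌊((em (x, y)).arg - Real.pi / 3) * (3 * (20 * (A : ℝ) + 1) / Real.pi)⌋ = (J : ℤ) ↔
        (φ ≤ (em (x, y)).arg ∧ (em (x, y)).arg < ψ) := by
      have hc : 3 * (20 * (A : ℝ) + 1) / Real.pi = 1 / ω := by
        rw [hω]
        field_simp
      rw [Int.floor_eq_iff, hc, mul_one_div, le_div_iff₀ hω0, div_lt_iff₀ hω0]
      push_cast
      constructor <;> rintro ⟨h1, h2⟩ <;> constructor <;> linarith
    constructor
    · rintro ⟨hx, hsec⟩
      have harg := (arg_iff hy0).mpr hx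
      -- the floor is in `[0, N)`
      set T : ℝ := ((em (x, y)).arg - Real.pi / 3) * (3 * (20 * (A : ℝ) + 1) / Real.pi) with hT
      have hT0 : 0 ≤ T := by
        rw [hT]
        apply mul_nonneg (by linarith [harg.1]) (by positivity)
      have hT1 : T < 20 * (A : ℝ) + 1 := by
        have h1 : (em (x, y)).arg - Real.pi / 3 < Real.pi / 3 := by linarith [harg.2]
        have h2 : T < Real.pi / 3 * (3 * (20 * (A : ℝ) + 1) / Real.pi) :=
          mul_lt_mul_of_pos_right h1 (by positivity)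
        have h3 : Real.pi / 3 * (3 * (20 * (A : ℝ) + 1) / Real.pi) = 20 * (A : ℝ) + 1 := by
          field_simp
        linarith
      have hf0 : 0 ≤ ⌊T⌋ := Int.floor_nonneg.mpr hT0
      obtain ⟨m, hm⟩ := Int.eq_ofNat_of_zero_le hf0
      have hmN : m < 20 * A + 1 := by
        have h1 : ((⌊T⌋ : ℤ) : ℝ) ≤ T := Int.floor_le T
        rw [hm] at h1
        have h2 : (m : ℝ) < 20 * (A : ℝ) + 1 := by
          have : (((m : ℕ) : ℤ) : ℝ) = (m : ℝ) := by push_cast; rfl
          rw [this] at h1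
          linarith
        exact_mod_cast h2
      have hsec' : ((⌊T⌋ : ℤ) : ZMod (20 * A + 1)) = j := hsec
      rw [hm] at hsec'
      have hmJ : m = J := by
        rw [hJ, ← hsec']
        push_cast
        rw [ZMod.val_natCast_of_lt hmN]
      have h5 := e3.mp (by rw [hm, hmJ])
      refine ⟨?_, e1.mp h5.1⟩
      by_contra hcon
      push Not at hcon
      exact absurd (e2.mpr hcon) (not_le.mpr h5.2)
    · rintro ⟨ha, hb⟩
      have h1 := e1.mpr hb
      have h2 : (em (x, y)).arg < ψ := by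
        by_contra hcon
        push Not at hcon
        exact absurd (e2.mp hcon) (not_le.mpr ha)
      refine ⟨(arg_iff hy0).mp ⟨by linarith, by linarith⟩, ?_⟩
      have h3 := e3.mpr ⟨h1, h2⟩
      show ((⌊((em (x, y)).arg - Real.pi / 3) * (3 * (20 * (A : ℝ) + 1) / Real.pi)⌋ : ℤ) :
        ZMod (20 * A + 1)) = j
      rw [h3, hJ]
      push_cast
      exact ZMod.natCast_zmod_val j

end Pool.Agent.H17.RP
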