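import Pool.Agent.H17.RP.LB
import Pool.Agent.H17.RP.SecI
import Pool.Agent.H17.RP.Root

/-!
# Sect: every sector contains many rough vectors

For each `y` with `A² ≤ y ≤ 2A²` the `x` with `(x, y)` in the sector `j` are the integers of an interval
`(a, b]` with `A/50 ≤ b - a ≤ A/8` (`sec_interval`, `mem_RR`).

`sect_up`: at most `(A² + 1)(A/8 + 1) ≤ A³` vectors.

`sect_low`: `K = 4 C + 4`, `C` of `LB`.  Let `z` be the largest integer with `z^K ≤ A`.  For each `y`: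
`LB` with `As` = the integers `x ∈ (a, b]`, `Ps` = the primes `p ≤ z`,
`bad p x : p ∣ Nm (x, y)`, `X = b - a`, `δ p = ρ(p)/p`, `ρ(p)` = number of `x` modulo `p` with
`p ∣ x² + 3xy + 3y²`: `p = 1 mod 3`: `ρ = 2` if `p ∤ y`, `1` if `p ∣ y`; `p = 3`: `ρ = 1`; `p = 2 mod 3`:
`ρ = 0` if `p ∤ y` (`inert`), `ρ = 1` if `p ∣ y`.  In all cases `δ ≤ 1/2`, `δ (p-1) ≤ 2`.  For `d = ∏ I`:
`∏ ρ(p) ≤ 2^|I| ≤ d` classes modulo `d` (`crt_card`), each contains `X/d + θ` integers, `|θ| ≤ 1`: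
`E = z^C`.  So at least `(A/50)/(C (log z)²) - z^(2C) ≥ c A/(log A)²` (`z^(2C) ≤ A^(1/2)`,
`log z ≤ log A`) values `x` for which no `p ≤ z` divides `Nm (x, y)`; `p > z` means `p^K > A`: `RK A K`.
Sum over the `A² + 1` values `y`: `≥ c A³/(log A)²`.
-/

set_option autoImplicit false

namespace Pool.Agent.H17.RP

open Finset

private theorem Sect_card_fiber (S : Finset (ℤ × ℤ)) (A : ℕ)
    (h : ∀ w ∈ S, (A : ℤ) ^ 2 ≤ w.2 ∧ w.2 ≤ 2 * (A : ℤ) ^ 2) :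
    S.card = ∑ y ∈ Icc ((A : ℤ) ^ 2) (2 * (A : ℤ) ^ 2), (S.filter fun w => w.2 = y).card := by
  refine Finset.card_eq_sum_card_fiberwise (f := Prod.snd) ?_
  intro w hw
  simp only [coe_Icc, Set.mem_Icc]
  exact h w hw

private theorem Sect_Ioc_mem {a b : ℝ} {x : ℤ} : x ∈ Ioc ⌊a⌋ ⌊b⌋ ↔ a < x ∧ (x : ℝ) ≤ b := by
  rw [mem_Ioc, Int.floor_lt, Int.le_floor]

private theorem Sect_card_Ioc_le {a b : ℝ} (h : 0 ≤ b - a) :
    ((Ioc ⌊a⌋ ⌊b⌋).card : ℝ) ≤ b - a + 1 := by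
  rw [Int.card_Ioc]
  have h1 : (⌊b⌋ : ℝ) ≤ b := Int.floor_le b
  have h2 : a - 1 < ⌊a⌋ := Int.sub_one_lt_floor a
  rcases le_or_gt 0 (⌊b⌋ - ⌊a⌋) with h3 | h3
  · have h4 : (((⌊b⌋ - ⌊a⌋).toNat : ℤ) : ℝ) = ((⌊b⌋ - ⌊a⌋ : ℤ) : ℝ) := by
      rw [Int.toNat_of_nonneg h3]
    have h5 : (((⌊b⌋ - ⌊a⌋).toNat : ℕ) : ℝ) = ((⌊b⌋ - ⌊a⌋ : ℤ) : ℝ) := by
      rw [← h4]; norm_cast
    rw [h5]; push_cast; linarith
  · rw [Int.toNat_of_nonpos h3.le]; push_cast; linarith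

private theorem Sect_card_Ioc_ge {a b : ℝ} : b - a - 1 ≤ ((Ioc ⌊a⌋ ⌊b⌋).card : ℝ) := by
  rw [Int.card_Ioc]
  have h1 : b - 1 < ⌊b⌋ := Int.sub_one_lt_floor b
  have h2 : (⌊a⌋ : ℝ) ≤ a := Int.floor_le a
  have h3 : (⌊b⌋ - ⌊a⌋ : ℤ) ≤ ((⌊b⌋ - ⌊a⌋).toNat : ℤ) := Int.self_le_toNat _
  have h4 : ((⌊b⌋ - ⌊a⌋ : ℤ) : ℝ) ≤ (((⌊b⌋ - ⌊a⌋).toNat : ℕ) : ℝ) := by exact_mod_cast h3
  push_cast at h4
  linarith

private theorem Sect_card_Icc (A : ℕ) :
    ((Icc ((A : ℤ) ^ 2) (2 * (A : ℤ) ^ 2)).card : ℝ) = (A : ℝ) ^ 2 + 1 := by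
  rw [Int.card_Icc]
  have h1 : (2 * (A : ℤ) ^ 2 + 1 - (A : ℤ) ^ 2) = ((A ^ 2 + 1 : ℕ) : ℤ) := by push_cast; ring
  rw [h1, Int.toNat_natCast]
  push_cast; ring

theorem sect_up (K : ℕ) : ∃ A0 : ℕ, ∀ A ≥ A0, ∀ j : ZMod (20 * A + 1),
    cs (RR A K) (fun w => sec A w = j) ≤ A ^ 3 := by
  refine ⟨20, fun A hA j => ?_⟩
  have hA1 : 1 ≤ A := le_trans (by norm_num) hA
  have hAr : (20 : ℝ) ≤ A := by exact_mod_cast hA
  unfold cs
  rw [Sect_card_fiber (sel (RR A K) fun w => sec A w = j) A (fun w hw =>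
    ((mem_RR hA1).1 (mem_sel.1 hw).1).1)]
  have key : ∀ y ∈ Icc ((A : ℤ) ^ 2) (2 * (A : ℤ) ^ 2),
      ((((sel (RR A K) fun w => sec A w = j).filter fun w => w.2 = y).card : ℕ) : ℝ) ≤
        (A : ℝ) / 8 + 1 := by
    intro y hy
    rw [mem_Icc] at hy
    obtain ⟨a, b, h1, h2, h3⟩ := sec_interval hA j hy.1 hy.2
    have h4 : ((sel (RR A K) fun w => sec A w = j).filter fun w => w.2 = y).card ≤
        (Ioc ⌊a⌋ ⌊b⌋).card := by
      refine Finset.card_le_card_of_injOn Prod.fst ?_ ?_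
      · intro w hw
        have hw' := Finset.mem_filter.1 (Finset.mem_coe.1 hw)
        have hw1 := mem_sel.1 hw'.1
        have hw2 := (mem_RR hA1).1 hw1.1
        rw [Finset.mem_coe, Sect_Ioc_mem]
        refine (h3 w.1).1 ⟨?_, ?_⟩
        · rw [← hw'.2]; exact hw2.2.1
        · rw [← hw'.2]; exact hw1.2
      · intro w hw w' hw' h
        have e1 := (Finset.mem_filter.1 (Finset.mem_coe.1 hw)).2
        have e2 := (Finset.mem_filter.1 (Finset.mem_coe.1 hw')).2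
        exact Prod.ext h (e1.trans e2.symm)
    have h5 : (((Ioc ⌊a⌋ ⌊b⌋).card : ℕ) : ℝ) ≤ b - a + 1 := by
      refine Sect_card_Ioc_le ?_
      have : (0 : ℝ) ≤ (A : ℝ) / 50 := by positivity
      linarith
    have h6 : ((((sel (RR A K) fun w => sec A w = j).filter fun w => w.2 = y).card : ℕ) : ℝ) ≤
        (((Ioc ⌊a⌋ ⌊b⌋).card : ℕ) : ℝ) := by exact_mod_cast h4
    linarith
  have h7 := Finset.sum_le_sum key
  rw [Finset.sum_const, nsmul_eq_mul, Sect_card_Icc] at h7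
  have h8 : ((A : ℝ) ^ 2 + 1) * ((A : ℝ) / 8 + 1) ≤ (A : ℝ) ^ 3 := by nlinarith
  have h9 : ((∑ y ∈ Icc ((A : ℤ) ^ 2) (2 * (A : ℤ) ^ 2),
      ((sel (RR A K) fun w => sec A w = j).filter fun w => w.2 = y).card : ℕ) : ℝ) ≤
      ((A ^ 3 : ℕ) : ℝ) := by
    push_cast
    exact h7.trans h8
  exact_mod_cast h9

/-! ### the lower bound -/

private theorem Sect_dvd_small {p : ℕ} (a b : ℕ) (ha : a < p) (hb : b < p)
    (h : (p : ℤ) ∣ (a : ℤ) - b) : a = b := by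
  obtain ⟨c, hc⟩ := h
  have hp : (0 : ℤ) < p := by exact_mod_cast (Nat.zero_lt_of_lt ha)
  have h1 : (a : ℤ) < p := by exact_mod_cast ha
  have h2 : (b : ℤ) < p := by exact_mod_cast hb
  have h3 : (0 : ℤ) ≤ a := Int.natCast_nonneg a
  have h4 : (0 : ℤ) ≤ b := Int.natCast_nonneg b
  have h5 : c < 1 := by
    by_contra hcon
    push Not at hcon
    nlinarith
  have h6 : -1 < c := by
    by_contra hcon
    push Not at hcon
    nlinarith
  have h7 : c = 0 := by omega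
  subst h7
  have : (a : ℤ) = b := by linarith
  exact_mod_cast this

private theorem Sect_rho_two {p : ℕ} (hp : p.Prime) (x0 y : ℤ) :
    cs (range p) (fun m => (p : ℤ) ∣ Nm (x0 + (m : ℤ), y)) ≤ 2 := by
  by_contra hcon
  push Not at hcon
  unfold cs at hcon
  obtain ⟨a, ha, b, hb, c, hc, hab, hac, hbc⟩ := Finset.two_lt_card.1 hcon
  rw [mem_sel, mem_range] at ha hb hc
  have hpi : Prime (p : ℤ) := Nat.prime_iff_prime_int.1 hp
  have key : ∀ a b : ℕ, a < p → b < p → a ≠ b → (p : ℤ) ∣ Nm (x0 + (a : ℤ), y) →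
      (p : ℤ) ∣ Nm (x0 + (b : ℤ), y) → (p : ℤ) ∣ 2 * x0 + a + b + 3 * y := by
    intro a b ha hb hab h1 h2
    have h3 := dvd_sub h1 h2
    have h4 : Nm (x0 + (a : ℤ), y) - Nm (x0 + (b : ℤ), y) =
        ((a : ℤ) - b) * (2 * x0 + a + b + 3 * y) := by
      unfold Nm F; ring
    rw [h4] at h3
    rcases hpi.dvd_or_dvd h3 with h5 | h5
    · exact absurd (Sect_dvd_small a b ha hb h5) hab
    · exact h5
  have h1 := key a b ha.1 hb.1 hab ha.2 hb.2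
  have h2 := key a c ha.1 hc.1 hac ha.2 hc.2
  have h3 : (p : ℤ) ∣ (b : ℤ) - c := by
    have := dvd_sub h1 h2
    have h4 : (2 * x0 + a + b + 3 * y) - (2 * x0 + a + c + 3 * y) = (b : ℤ) - c := by ring
    rwa [h4] at this
  exact hbc (Sect_dvd_small b c hb.1 hc.1 h3)

private theorem Sect_rho2 (x0 y : ℤ) :
    cs (range 2) (fun m => ((2 : ℕ) : ℤ) ∣ Nm (x0 + (m : ℤ), y)) ≤ 1 := by
  by_contra hcon
  push Not at hcon
  unfold cs at hcon
  obtain ⟨a, ha, b, hb, hab⟩ := Finset.one_lt_card.1 hcon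
  rw [mem_sel, mem_range] at ha hb
  obtain ⟨ha1, ha2⟩ := ha
  obtain ⟨hb1, hb2⟩ := hb
  have h01 : (((2 : ℕ) : ℤ) ∣ Nm (x0 + ((0 : ℕ) : ℤ), y)) ∧
      (((2 : ℕ) : ℤ) ∣ Nm (x0 + ((1 : ℕ) : ℤ), y)) := by
    interval_cases a <;> interval_cases b
    · exact absurd rfl hab
    · exact ⟨ha2, hb2⟩
    · exact ⟨hb2, ha2⟩
    · exact absurd rfl hab
  obtain ⟨h0, h1⟩ := h01
  unfold Nm F at h0 h1
  push_cast at h0 h1
  rcases Int.even_or_odd' x0 with ⟨r, hr | hr⟩ <;> rcases Int.even_or_odd' y with ⟨s, hs | hs⟩ <;>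
    subst hr <;> subst hs <;> ring_nf at h0 h1 <;> omega

private theorem Sect_rho3 (x0 y : ℤ) :
    cs (range 3) (fun m => ((3 : ℕ) : ℤ) ∣ Nm (x0 + (m : ℤ), y)) ≤ 1 := by
  by_contra hcon
  push Not at hcon
  unfold cs at hcon
  obtain ⟨a, ha, b, hb, hab⟩ := Finset.one_lt_card.1 hcon
  rw [mem_sel, mem_range] at ha hb
  have h3p : Prime (3 : ℤ) := Int.prime_three
  have key : ∀ x : ℤ, ((3 : ℕ) : ℤ) ∣ Nm (x, y) → (3 : ℤ) ∣ x := by
    intro x hx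
    have h1 : (3 : ℤ) ∣ x ^ 2 := by
      have h2 : x ^ 2 = Nm (x, y) - 3 * (x * y + y ^ 2) := by unfold Nm F; ring
      rw [h2]
      exact dvd_sub (by exact_mod_cast hx) (Dvd.intro _ rfl)
    exact h3p.dvd_of_dvd_pow h1
  have h1 := key _ ha.2
  have h2 := key _ hb.2
  have h3 : ((3 : ℕ) : ℤ) ∣ (a : ℤ) - b := by
    have := dvd_sub h1 h2
    have h4 : x0 + (a : ℤ) - (x0 + (b : ℤ)) = (a : ℤ) - b := by ring
    rw [h4] at this
    exact_mod_cast this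
  exact hab (Sect_dvd_small a b ha.1 hb.1 h3)

private theorem Sect_delta {p : ℕ} (hp : p.Prime) (x0 y : ℤ) :
    let ρ : ℝ := (cs (range p) (fun m => (p : ℤ) ∣ Nm (x0 + (m : ℤ), y)) : ℝ)
    0 ≤ ρ / p ∧ ρ / p ≤ 1 / 2 ∧ ρ / p * ((p : ℝ) - 1) ≤ 2 := by
  intro ρ
  have hp0 : (0 : ℝ) < p := by exact_mod_cast hp.pos
  have hp2 : (2 : ℝ) ≤ p := by exact_mod_cast hp.two_le
  have hρ0 : 0 ≤ ρ := Nat.cast_nonneg _
  have hρ2 : ρ ≤ 2 := by
    have := Sect_rho_two hp x0 y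
    have h2 : ρ ≤ ((2 : ℕ) : ℝ) := Nat.cast_le.2 this
    simpa using h2
  refine ⟨div_nonneg hρ0 hp0.le, ?_, ?_⟩
  · rw [div_le_iff₀ hp0]
    rcases lt_or_ge p 4 with h4 | h4
    · have h5 : p = 2 ∨ p = 3 := by
        have := hp.two_le
        omega
      rcases h5 with h5 | h5
      · subst h5
        have h6 : ρ ≤ ((1 : ℕ) : ℝ) := Nat.cast_le.2 (Sect_rho2 x0 y)
        push_cast at h6 ⊢
        linarith
      · subst h5
        have h6 : ρ ≤ ((1 : ℕ) : ℝ) := Nat.cast_le.2 (Sect_rho3 x0 y)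
        push_cast at h6 ⊢
        linarith
    · have h5 : (4 : ℝ) ≤ p := by exact_mod_cast h4
      linarith
  · rw [div_mul_eq_mul_div, div_le_iff₀ hp0]
    nlinarith

/-- for fixed `y`: many `x` in the interval with no small prime factor of the norm -/
private theorem Sect_line {C : ℕ}
    (hLB : ∀ z : ℕ, 2 ≤ z → ∀ (Ps : Finset ℕ), (∀ p ∈ Ps, p.Prime ∧ p ≤ z) →
    ∀ δ : ℕ → ℝ, (∀ p ∈ Ps, 0 ≤ δ p ∧ δ p ≤ 1 / 2 ∧ δ p * ((p : ℝ) - 1) ≤ 2) →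
    ∀ (ι : Type) (As : Finset ι) (bad : ℕ → ι → Prop) (X E : ℝ), 0 ≤ X → 0 ≤ E →
    (∀ I ⊆ Ps, ∏ p ∈ I, p ≤ z ^ C →
      |(cs As (fun a => ∀ p ∈ I, bad p a) : ℝ) - X * ∏ p ∈ I, δ p| ≤ E) →
    X / (C * Real.log z ^ 2) - E * (z : ℝ) ^ C ≤ (cs As (fun a => ∀ p ∈ Ps, ¬ bad p a) : ℝ))
    (z : ℕ) (hz : 2 ≤ z) (y : ℤ) (x0 : ℤ) (M : ℕ) :
    (M : ℝ) / (C * Real.log z ^ 2) - (z : ℝ) ^ C * (z : ℝ) ^ C ≤
      (cs (range M) (fun m => ∀ p ∈ (Finset.range (z + 1)).filter Nat.Prime,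
        ¬ (p : ℤ) ∣ Nm (x0 + (m : ℤ), y)) : ℝ) := by
  refine hLB z hz ((Finset.range (z + 1)).filter Nat.Prime) ?_
    (fun p => (cs (range p) (fun m => (p : ℤ) ∣ Nm (x0 + (m : ℤ), y)) : ℝ) / p) ?_ ℕ (range M)
    (fun p m => (p : ℤ) ∣ Nm (x0 + (m : ℤ), y)) M ((z : ℝ) ^ C) (Nat.cast_nonneg _) (by positivity)
    ?_
  · intro p hp
    rw [mem_filter, mem_range] at hp
    exact ⟨hp.2, by omega⟩
  · intro p hp
    rw [mem_filter] at hp
    exact Sect_delta hp.2 x0 y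
  · intro I hI hle
    have hIp : ∀ p ∈ I, p.Prime := fun p hp => (mem_filter.1 (hI hp)).2
    have h1 := crt_count I hIp (fun p m => (p : ℤ) ∣ Nm (x0 + (m : ℤ), y)) (by
      intro p _ m
      have e : Nm (x0 + ((m + p : ℕ) : ℤ), y) = Nm (x0 + (m : ℤ), y) +
          p * (2 * (x0 + m) + p + 3 * y) := by
        unfold Nm F; push_cast; ring
      simp only [e]
      exact (Int.dvd_add_left (Dvd.intro _ rfl))) M
    refine h1.trans ?_
    have h2 : ∏ p ∈ I, (cs (range p) (fun m => (p : ℤ) ∣ Nm (x0 + (m : ℤ), y)) : ℝ) ≤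
        ∏ p ∈ I, (p : ℝ) := by
      refine Finset.prod_le_prod (fun p _ => Nat.cast_nonneg _) (fun p hp => ?_)
      have h3 := Sect_rho_two (hIp p hp) x0 y
      exact_mod_cast h3.trans (hIp p hp).two_le
    refine h2.trans ?_
    have h3 : ((∏ p ∈ I, p : ℕ) : ℝ) ≤ ((z ^ C : ℕ) : ℝ) := by exact_mod_cast hle
    push_cast at h3
    exact h3

private theorem Sect_z {A K : ℕ} (hK : 1 ≤ K) (hA : 2 ^ K ≤ A) :
    ∃ z : ℕ, 2 ≤ z ∧ z ≤ A ∧ z ^ K ≤ A ∧ A < (z + 1) ^ K := by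
  have h2A : 2 ≤ A := le_trans (by
    calc 2 = 2 ^ 1 := by norm_num
      _ ≤ 2 ^ K := Nat.pow_le_pow_right (by norm_num) hK) hA
  refine ⟨Nat.findGreatest (fun z => z ^ K ≤ A) A, ?_, Nat.findGreatest_le A, ?_, ?_⟩
  · exact Nat.le_findGreatest h2A hA
  · exact Nat.findGreatest_spec (P := fun z => z ^ K ≤ A) h2A hA
  · by_contra hcon
    push Not at hcon
    rcases le_or_gt (Nat.findGreatest (fun z => z ^ K ≤ A) A + 1) A with h | h
    · exact Nat.findGreatest_is_greatest (P := fun z => z ^ K ≤ A) (Nat.lt_succ_self _) h hcon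
    · have h3 : Nat.findGreatest (fun z => z ^ K ≤ A) A + 1 ≤
          (Nat.findGreatest (fun z => z ^ K ≤ A) A + 1) ^ K := Nat.le_self_pow (by omega) _
      omega

private theorem Sect_large (C : ℕ) : ∃ A0 : ℕ, ∀ A : ℕ, A0 ≤ A →
    (200 * (C : ℝ) * Real.log A ^ 2) ^ 2 ≤ A := by
  have h1 := Real.isLittleO_pow_log_id_atTop (n := 4)
  have hc : (0 : ℝ) < 1 / ((200 * (C : ℝ)) ^ 2 + 1) := by positivity
  have h2 := (h1.def hc)
  have h3 := (tendsto_natCast_atTop_atTop (R := ℝ)).eventually h2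
  obtain ⟨A0, hA0⟩ := Filter.eventually_atTop.1 h3
  refine ⟨A0, fun A hA => ?_⟩
  have h4 := hA0 A hA
  simp only [id, Real.norm_eq_abs, Nat.abs_cast] at h4
  have h5 := (le_abs_self _).trans h4
  rw [div_mul_eq_mul_div, one_mul, le_div_iff₀ (by positivity)] at h5
  have h6 : 0 ≤ Real.log (A : ℝ) ^ 4 := by positivity
  nlinarith

theorem sect_low : ∃ K : ℕ, 1 ≤ K ∧ ∃ c : ℝ, 0 < c ∧ ∃ A0 : ℕ, ∀ A ≥ A0,
    ∀ j : ZMod (20 * A + 1),
    c * (A : ℝ) ^ 3 / Real.log A ^ 2 ≤ (cs (RR A K) (fun w => sec A w = j) : ℝ) := by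
  obtain ⟨C, hC, hLB⟩ := LB
  have hCr : (1 : ℝ) ≤ C := by exact_mod_cast hC
  obtain ⟨A1, hA1⟩ := Sect_large C
  refine ⟨4 * C + 4, by omega, 1 / (200 * C), by positivity, max A1 (max 100 (2 ^ (4 * C + 4))),
    fun A hA j => ?_⟩
  have hAa : A1 ≤ A := le_trans (le_max_left _ _) hA
  have hAb : 100 ≤ A := le_trans (le_trans (le_max_left _ _) (le_max_right _ _)) hA
  have hAc : 2 ^ (4 * C + 4) ≤ A := le_trans (le_trans (le_max_right _ _) (le_max_right _ _)) hA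
  have hA1' : 1 ≤ A := by omega
  have hAr : (100 : ℝ) ≤ A := by exact_mod_cast hAb
  obtain ⟨z, hz2, hzA, hzK, hzK'⟩ := Sect_z (by omega) hAc
  have hbig := hA1 A hAa
  have hlogA : 0 < Real.log (A : ℝ) := Real.log_pos (by linarith)
  have hzr : (2 : ℝ) ≤ z := by exact_mod_cast hz2
  have hlogz : 0 < Real.log (z : ℝ) := Real.log_pos (by linarith)
  have hlogle : Real.log (z : ℝ) ≤ Real.log (A : ℝ) :=
    Real.log_le_log (by linarith) (by exact_mod_cast hzA)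
  have hzC : ((z : ℝ) ^ C * (z : ℝ) ^ C) ^ 2 ≤ A := by
    have h1 : z ^ (4 * C) ≤ A := (Nat.pow_le_pow_right (by omega) (by omega)).trans hzK
    have h2 : ((z ^ (4 * C) : ℕ) : ℝ) ≤ A := by exact_mod_cast h1
    push_cast at h2
    calc ((z : ℝ) ^ C * (z : ℝ) ^ C) ^ 2 = (z : ℝ) ^ (4 * C) := by ring
      _ ≤ A := h2
  set L : ℝ := Real.log (A : ℝ) with hL
  have hE : (z : ℝ) ^ C * (z : ℝ) ^ C ≤ (A : ℝ) / (200 * C * L ^ 2) := by
    rw [le_div_iff₀ (by positivity)]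
    nlinarith [sq_nonneg ((z : ℝ) ^ C * (z : ℝ) ^ C - 200 * C * L ^ 2)]
  -- the count on each line
  have hline : ∀ y ∈ Icc ((A : ℤ) ^ 2) (2 * (A : ℤ) ^ 2),
      (A : ℝ) / (200 * C * L ^ 2) ≤
        ((((sel (RR A (4 * C + 4)) fun w => sec A w = j).filter fun w => w.2 = y).card : ℕ) : ℝ) := by
    intro y hy
    rw [mem_Icc] at hy
    obtain ⟨a, b, h1, h2, h3⟩ := sec_interval (by omega : 20 ≤ A) j hy.1 hy.2
    have hM := Sect_card_Ioc_ge (a := a) (b := b)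
    rw [Int.card_Ioc] at hM
    have hlow := Sect_line hLB z hz2 y (⌊a⌋ + 1) (⌊b⌋ - ⌊a⌋).toNat
    have hinj : cs (range (⌊b⌋ - ⌊a⌋).toNat)
        (fun m => ∀ p ∈ (Finset.range (z + 1)).filter Nat.Prime,
        ¬ (p : ℤ) ∣ Nm (⌊a⌋ + 1 + (m : ℤ), y)) ≤
        ((sel (RR A (4 * C + 4)) fun w => sec A w = j).filter fun w => w.2 = y).card := by
      unfold cs
      refine Finset.card_le_card_of_injOn (fun m : ℕ => ((⌊a⌋ + 1 + (m : ℤ), y) : ℤ × ℤ)) ?_ ?_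
      · intro m hm
        have hm' := mem_sel.1 (Finset.mem_coe.1 hm)
        rw [mem_range] at hm'
        rw [Finset.mem_coe, Finset.mem_filter, mem_sel]
        have hx : ⌊a⌋ + 1 + (m : ℤ) ∈ Ioc ⌊a⌋ ⌊b⌋ := by
          rw [mem_Ioc]
          have := hm'.1
          constructor <;> omega
        rw [Sect_Ioc_mem] at hx
        have h4 := (h3 _).2 hx
        refine ⟨⟨(mem_RR hA1').2 ⟨hy, h4.1, ?_⟩, h4.2⟩, rfl⟩
        intro p hp hdvd
        by_contra hcon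
        push Not at hcon
        have hpz : p ≤ z := by
          by_contra hc
          push Not at hc
          have h5 : (z + 1) ^ (4 * C + 4) ≤ p ^ (4 * C + 4) := Nat.pow_le_pow_left (by omega) _
          omega
        exact hm'.2 p (by rw [mem_filter, mem_range]; exact ⟨by omega, hp⟩) hdvd
      · intro m hm m' hm' h
        have := congrArg Prod.fst h
        simp only at this
        omega
    have hinj' : ((cs (range (⌊b⌋ - ⌊a⌋).toNat)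
        (fun m => ∀ p ∈ (Finset.range (z + 1)).filter Nat.Prime,
        ¬ (p : ℤ) ∣ Nm (⌊a⌋ + 1 + (m : ℤ), y)) : ℕ) : ℝ) ≤
        ((((sel (RR A (4 * C + 4)) fun w => sec A w = j).filter fun w => w.2 = y).card : ℕ) : ℝ) := by
      exact_mod_cast hinj
    refine le_trans ?_ (hlow.trans hinj')
    have hM2 : (A : ℝ) / 100 ≤ ((⌊b⌋ - ⌊a⌋).toNat : ℝ) := by linarith
    have h5 : (A : ℝ) / (100 * C * L ^ 2) ≤
        (((⌊b⌋ - ⌊a⌋).toNat : ℕ) : ℝ) / (C * Real.log z ^ 2) := by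
      have h6 : (A : ℝ) / (100 * C * L ^ 2) = ((A : ℝ) / 100) / (C * L ^ 2) := by
        rw [div_div]; ring_nf
      rw [h6]
      refine div_le_div₀ (Nat.cast_nonneg _) hM2 (by positivity) ?_
      gcongr
    have h7 : (A : ℝ) / (100 * C * L ^ 2) = 2 * ((A : ℝ) / (200 * C * L ^ 2)) := by
      field_simp; norm_num
    linarith
  unfold cs
  rw [Sect_card_fiber (sel (RR A (4 * C + 4)) fun w => sec A w = j) A (fun w hw =>
    ((mem_RR hA1').1 (mem_sel.1 hw).1).1)]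
  have h8 := Finset.sum_le_sum hline
  rw [Finset.sum_const, nsmul_eq_mul, Sect_card_Icc] at h8
  push_cast
  refine le_trans ?_ h8
  have h9 : 1 / (200 * (C : ℝ)) * (A : ℝ) ^ 3 / L ^ 2 =
      (A : ℝ) ^ 2 * ((A : ℝ) / (200 * C * L ^ 2)) := by
    field_simp
  rw [h9]
  have h10 : 0 ≤ (A : ℝ) / (200 * C * L ^ 2) := by positivity
  nlinarith

end Pool.Agent.H17.RP
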