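import Pool.Agent.H17.RP.Comb
import Pool.Agent.H17.RP.Sect
import Pool.Agent.H17.RP.OddT
import Pool.Agent.H17.RP.Ann

/-!
# Odd: many almost prime vectors of the cusp region with an odd number of prime factors

There are `K ≥ 1`, `c > 0` such that for `A ≥ A0` at least `c A^11/(log A)^7` vectors
`w ∈ cusp A (8 A^5)` have `RK A K (Nm w)` and `lam (Nm w) = -1`.

Proof. `K`, `c1` from `sect_low`, `C` from `odd_triples`, `c2` from `ann`; `N = 20A + 1`; let `O` be the number.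
`a j = #{w ∈ RR A K : sec A w = j} ∈ [c1 A³/(log A)², A³]`, `f j = (1/a j) Σ_(w ∈ RR, sec w = j)
lam (Nm w) ∈ [-1, 1]`.
By `odd_triples` the number of odd triples is at most `C O`.
With `j2 = j1 + j3 - 12`:
`Σ_(j1, j3) (1 - f j1 f j3 f j2) = Σ_(j1,j3) (1/(a j1 a j2 a j3)) Σ_(triples) (1 - lam lam lam)
≤ ((log A)²/(c1 A³))³ 2 C O = η N²`, where `η = 2 C O (log A)^6/(c1³ A^9 N²)`.
If `η > 1/20` then `O ≥ c A^11/(log A)^6`.  Otherwise `comb` (`N` odd, `c = 12`) gives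
`Σ_j (1 - f j) ≤ 12 η N`; on the other hand
`Σ_j (1 - f j) = Σ_j (1/a j) Σ_(w : sec w = j) (1 - lam (Nm w)) ≥ (2/A³) c2 A^4/log A = 2 c2 A/log A`.
So `η ≥ c2 A/(6 N log A) ≥ c'/log A`, `O ≥ c A^11/(log A)^7`.
-/

set_option autoImplicit false

namespace Pool.Agent.H17.RP

open Finset

private theorem Odd_lam (m : ℤ) : lam m = 1 ∨ lam m = -1 := by
  unfold lam
  exact neg_one_pow_eq_or ℤ _

/-- abstract form: a weighted average statement on a finite set with a map to `ZMod N` -/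
private theorem Odd_core {N : ℕ} [NeZero N] (hN : Odd N) (S : Finset (ℤ × ℤ))
    (s : ℤ × ℤ → ZMod N) (l : ℤ × ℤ → ℤ) (hl : ∀ w, l w = 1 ∨ l w = -1) (c0 : ZMod N)
    {L U : ℝ} (hL : 0 < L)
    (hlow : ∀ j, L ≤ (cs S (fun w => s w = j) : ℝ))
    (hup : ∀ j, (cs S (fun w => s w = j) : ℝ) ≤ U)
    {O' P' : ℝ}
    (hodd : (cs (S ×ˢ (S ×ˢ S)) (fun x => s x.1 - s x.2.1 + s x.2.2 = c0 ∧
      l x.1 * l x.2.1 * l x.2.2 = -1) : ℝ) ≤ O')
    (hP : P' ≤ (cs S (fun w => l w = -1) : ℝ)) (hsmall : 2 * O' / (L ^ 3 * (N : ℝ) ^ 2) ≤ 1 / 20) :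
    2 * P' / U ≤ 12 * (2 * O' / (L ^ 3 * (N : ℝ) ^ 2)) * N := by
  classical
  have hN0 : (0 : ℝ) < N := by
    have := NeZero.pos N
    exact_mod_cast this
  set T : ZMod N → Finset (ℤ × ℤ) := fun j => sel S (fun w => s w = j) with hT
  set f : ZMod N → ℝ := fun j => (∑ w ∈ T j, (l w : ℝ)) / ((T j).card : ℝ) with hf
  have hcard : ∀ j, L ≤ ((T j).card : ℝ) := fun j => hlow j
  have hcard0 : ∀ j, (0 : ℝ) < ((T j).card : ℝ) := fun j => lt_of_lt_of_le hL (hcard j)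
  have hU : 0 < U := lt_of_lt_of_le (hcard0 0) (hup 0)
  have hlr : ∀ w, |(l w : ℝ)| ≤ 1 := by
    intro w
    rcases hl w with h | h <;> rw [h] <;> norm_num
  have hfabs : ∀ j, |f j| ≤ 1 := by
    intro j
    rw [hf]
    simp only
    rw [abs_div, abs_of_pos (hcard0 j), div_le_one (hcard0 j)]
    calc |∑ w ∈ T j, (l w : ℝ)| ≤ ∑ w ∈ T j, |(l w : ℝ)| := Finset.abs_sum_le_sum_abs _ _
      _ ≤ ∑ _w ∈ T j, (1 : ℝ) := Finset.sum_le_sum fun w _ => hlr w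
      _ = ((T j).card : ℝ) := by simp
  -- the triple sums
  set g : (ℤ × ℤ) → (ℤ × ℤ) → (ℤ × ℤ) → ℝ := fun w1 w2 w3 => 1 - (l w1 : ℝ) * l w2 * l w3 with hg
  have hg0 : ∀ w1 w2 w3, 0 ≤ g w1 w2 w3 := by
    intro w1 w2 w3
    rw [hg]
    simp only
    rcases hl w1 with h1 | h1 <;> rcases hl w2 with h2 | h2 <;> rcases hl w3 with h3 | h3 <;>
      rw [h1, h2, h3] <;> norm_num
  have hgval : ∀ w1 w2 w3, g w1 w2 w3 = if l w1 * l w2 * l w3 = -1 then 2 else 0 := by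
    intro w1 w2 w3
    rw [hg]
    simp only
    rcases hl w1 with h1 | h1 <;> rcases hl w2 with h2 | h2 <;> rcases hl w3 with h3 | h3 <;>
      rw [h1, h2, h3] <;> norm_num
  have hone : ∀ j1 j3 : ZMod N, 1 - f j1 * f j3 * f (j1 + j3 - c0) ≤
      (∑ w1 ∈ T j1, ∑ w2 ∈ T (j1 + j3 - c0), ∑ w3 ∈ T j3, g w1 w2 w3) / L ^ 3 := by
    intro j1 j3
    have e1 : (∑ w1 ∈ T j1, ∑ w2 ∈ T (j1 + j3 - c0), ∑ w3 ∈ T j3, g w1 w2 w3) =
        (1 - f j1 * f j3 * f (j1 + j3 - c0)) *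
          (((T j1).card : ℝ) * ((T (j1 + j3 - c0)).card : ℝ) * ((T j3).card : ℝ)) := by
      have e2 : ∀ j, ∑ w ∈ T j, (l w : ℝ) = f j * ((T j).card : ℝ) := by
        intro j
        rw [hf]
        simp only
        rw [div_mul_cancel₀ _ (hcard0 j).ne']
      have e3 : (∑ w1 ∈ T j1, ∑ w2 ∈ T (j1 + j3 - c0), ∑ w3 ∈ T j3, (l w1 : ℝ) * l w2 * l w3) =
          (∑ w ∈ T j1, (l w : ℝ)) * (∑ w ∈ T (j1 + j3 - c0), (l w : ℝ)) *
            (∑ w ∈ T j3, (l w : ℝ)) := by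
        rw [Finset.sum_mul_sum, Finset.sum_mul]
        refine Finset.sum_congr rfl fun w1 _ => ?_
        rw [Finset.sum_mul]
        refine Finset.sum_congr rfl fun w2 _ => ?_
        rw [Finset.mul_sum]
      rw [hg]
      simp only [Finset.sum_sub_distrib]
      rw [e3, e2, e2, e2]
      simp only [Finset.sum_const, nsmul_eq_mul, mul_one]
      ring
    have e4 : 0 ≤ 1 - f j1 * f j3 * f (j1 + j3 - c0) := by
      have h1 : |f j1 * f j3 * f (j1 + j3 - c0)| ≤ 1 := by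
        rw [abs_mul, abs_mul]
        have a1 := hfabs j1
        have a2 := hfabs j3
        have a3 := hfabs (j1 + j3 - c0)
        have b1 : |f j1| * |f j3| ≤ 1 := mul_le_one₀ a1 (abs_nonneg _) a2
        exact mul_le_one₀ b1 (abs_nonneg _) a3
      linarith [(abs_le.1 h1).2]
    rw [e1, le_div_iff₀ (by positivity)]
    apply mul_le_mul_of_nonneg_left _ e4
    have a1 := hcard j1
    have a2 := hcard (j1 + j3 - c0)
    have a3 := hcard j3
    calc L ^ 3 = L * L * L := by ring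
      _ ≤ ((T j1).card : ℝ) * ((T (j1 + j3 - c0)).card : ℝ) * ((T j3).card : ℝ) := by gcongr
  have hsumT : ∑ j1 : ZMod N, ∑ j3 : ZMod N,
      (∑ w1 ∈ T j1, ∑ w2 ∈ T (j1 + j3 - c0), ∑ w3 ∈ T j3, g w1 w2 w3) =
      2 * (cs (S ×ˢ (S ×ˢ S)) (fun x => s x.1 - s x.2.1 + s x.2.2 = c0 ∧
      l x.1 * l x.2.1 * l x.2.2 = -1) : ℝ) := by
    rw [cs_eq_sum]
    push_cast
    rw [Finset.mul_sum, Finset.sum_product]
    have e1 : ∀ j (F : ℤ × ℤ → ℝ), ∑ w ∈ T j, F w = ∑ w ∈ S, if s w = j then F w else 0 := by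
      intro j F
      rw [hT]
      simp only [sel]
      rw [Finset.sum_filter]
      refine Finset.sum_congr rfl fun w _ => ?_
      by_cases h : s w = j
      · rw [if_pos h, if_pos h]
      · rw [if_neg h, if_neg h]
    have e2 : ∀ (F : ZMod N → ℤ × ℤ → ℝ), ∑ j : ZMod N, ∑ w ∈ T j, F j w =
        ∑ w ∈ S, F (s w) w := by
      intro F
      simp_rw [e1]
      rw [Finset.sum_comm]
      refine Finset.sum_congr rfl fun w _ => ?_
      rw [Finset.sum_ite_eq]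
      simp
    calc ∑ j1 : ZMod N, ∑ j3 : ZMod N,
          (∑ w1 ∈ T j1, ∑ w2 ∈ T (j1 + j3 - c0), ∑ w3 ∈ T j3, g w1 w2 w3)
        = ∑ j1 : ZMod N, ∑ w1 ∈ T j1, ∑ j3 : ZMod N, ∑ w3 ∈ T j3,
            ∑ w2 ∈ T (j1 + j3 - c0), g w1 w2 w3 := by
          refine Finset.sum_congr rfl fun j1 _ => ?_
          rw [Finset.sum_comm]
          refine Finset.sum_congr rfl fun w1 _ => ?_
          refine Finset.sum_congr rfl fun j3 _ => ?_
          rw [Finset.sum_comm]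
      _ = ∑ w1 ∈ S, ∑ j3 : ZMod N, ∑ w3 ∈ T j3,
            ∑ w2 ∈ T (s w1 + j3 - c0), g w1 w2 w3 := by
          rw [e2 (fun j1 w1 => ∑ j3 : ZMod N, ∑ w3 ∈ T j3, ∑ w2 ∈ T (j1 + j3 - c0), g w1 w2 w3)]
      _ = ∑ w1 ∈ S, ∑ w3 ∈ S, ∑ w2 ∈ T (s w1 + s w3 - c0), g w1 w2 w3 := by
          refine Finset.sum_congr rfl fun w1 _ => ?_
          rw [e2 (fun j3 w3 => ∑ w2 ∈ T (s w1 + j3 - c0), g w1 w2 w3)]
      _ = ∑ w1 ∈ S, ∑ w3 ∈ S, ∑ w2 ∈ S, (if s w2 = s w1 + s w3 - c0 then g w1 w2 w3 else 0) := by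
          refine Finset.sum_congr rfl fun w1 _ => ?_
          refine Finset.sum_congr rfl fun w3 _ => ?_
          rw [e1]
      _ = _ := by
          refine Finset.sum_congr rfl fun w1 _ => ?_
          rw [Finset.sum_product, Finset.sum_comm]
          refine Finset.sum_congr rfl fun w2 _ => ?_
          refine Finset.sum_congr rfl fun w3 _ => ?_
          simp only
          have e5 : (s w2 = s w1 + s w3 - c0) ↔ (s w1 - s w2 + s w3 = c0) := by
            constructor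
            · intro h; rw [h]; ring
            · intro h; rw [← h]; ring
          rw [hgval]
          by_cases h1 : s w1 - s w2 + s w3 = c0
          · by_cases h2 : l w1 * l w2 * l w3 = -1
            · rw [if_pos (e5.2 h1), if_pos h2, if_pos ⟨h1, h2⟩]; norm_num
            · rw [if_pos (e5.2 h1), if_neg h2, if_neg (fun h => h2 h.2)]; norm_num
          · rw [if_neg (fun h => h1 (e5.1 h)), if_neg (fun h => h1 h.1)]; norm_num
  have hcomb := comb hN f hfabs c0 hsmall (by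
    calc ∑ x : ZMod N, ∑ y : ZMod N, (1 - f x * f y * f (x + y - c0))
        ≤ ∑ x : ZMod N, ∑ y : ZMod N,
            (∑ w1 ∈ T x, ∑ w2 ∈ T (x + y - c0), ∑ w3 ∈ T y, g w1 w2 w3) / L ^ 3 :=
          Finset.sum_le_sum fun x _ => Finset.sum_le_sum fun y _ => hone x y
      _ = (2 * (cs (S ×ˢ (S ×ˢ S)) (fun x => s x.1 - s x.2.1 + s x.2.2 = c0 ∧
            l x.1 * l x.2.1 * l x.2.2 = -1) : ℝ)) / L ^ 3 := by
          rw [← hsumT, Finset.sum_div]
          refine Finset.sum_congr rfl fun x _ => ?_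
          rw [Finset.sum_div]
      _ ≤ 2 * O' / L ^ 3 := by gcongr
      _ = 2 * O' / (L ^ 3 * (N : ℝ) ^ 2) * (N : ℝ) ^ 2 := by
          field_simp)
  have hlowsum : 2 * P' / U ≤ ∑ x : ZMod N, (1 - f x) := by
    have e1 : ∀ j, (∑ w ∈ T j, (1 - (l w : ℝ))) / U ≤ 1 - f j := by
      intro j
      have e2 : 1 - f j = (∑ w ∈ T j, (1 - (l w : ℝ))) / ((T j).card : ℝ) := by
        rw [Finset.sum_sub_distrib, sub_div, hf]
        simp only [Finset.sum_const, nsmul_eq_mul, mul_one]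
        rw [div_self (hcard0 j).ne']
      rw [e2]
      apply div_le_div_of_nonneg_left _ (hcard0 j) (hup j)
      apply Finset.sum_nonneg
      intro w _
      linarith [(abs_le.1 (hlr w)).2]
    have e3 : ∑ j : ZMod N, (∑ w ∈ T j, (1 - (l w : ℝ))) = ∑ w ∈ S, (1 - (l w : ℝ)) := by
      have e4 : ∀ j, ∑ w ∈ T j, (1 - (l w : ℝ)) =
          ∑ w ∈ S, if s w = j then (1 - (l w : ℝ)) else 0 := by
        intro j
        rw [hT]
        simp only [sel]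
        rw [Finset.sum_filter]
        refine Finset.sum_congr rfl fun w _ => ?_
        by_cases h : s w = j
        · rw [if_pos h, if_pos h]
        · rw [if_neg h, if_neg h]
      simp_rw [e4]
      rw [Finset.sum_comm]
      refine Finset.sum_congr rfl fun w _ => ?_
      rw [Finset.sum_ite_eq]
      simp
    have e5 : ∑ w ∈ S, (1 - (l w : ℝ)) = 2 * (cs S (fun w => l w = -1) : ℝ) := by
      rw [cs_eq_sum]
      push_cast
      rw [Finset.mul_sum]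
      refine Finset.sum_congr rfl fun w _ => ?_
      rcases hl w with h | h <;> rw [h] <;> norm_num
    calc 2 * P' / U ≤ 2 * (cs S (fun w => l w = -1) : ℝ) / U := by gcongr
      _ = ∑ j : ZMod N, (∑ w ∈ T j, (1 - (l w : ℝ))) / U := by
          rw [← Finset.sum_div, e3, e5]
      _ ≤ ∑ x : ZMod N, (1 - f x) := Finset.sum_le_sum fun j _ => e1 j
  exact hlowsum.trans hcomb

theorem odd_many : ∃ K : ℕ, 1 ≤ K ∧ ∃ c : ℝ, 0 < c ∧ ∃ A0 : ℕ, ∀ A ≥ A0,
    c * (A : ℝ) ^ 11 / Real.log A ^ 7 ≤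
      (cs (cusp A (8 * A ^ 5)) (fun w => RK A K (Nm w) ∧ lam (Nm w) = -1) : ℝ) := by
  obtain ⟨K, hK, c1, hc1, A1, hlow⟩ := sect_low
  obtain ⟨A2, hup⟩ := sect_up K
  obtain ⟨C, A3, hodd⟩ := odd_triples K hK
  obtain ⟨c2, hc2, A4, hann⟩ := ann K hK
  refine ⟨K, hK, c1 ^ 3 * min 1 c2 / ((C : ℝ) + 1), by positivity, max 3 (max (max A1 A2) (max A3 A4)),
    fun A hA => ?_⟩
  have hA3 : 3 ≤ A := le_trans (le_max_left _ _) hA
  have hA' := le_trans (le_max_right _ _) hA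
  have hA1 : A1 ≤ A := le_trans (le_trans (le_max_left _ _) (le_max_left _ _)) hA'
  have hA2 : A2 ≤ A := le_trans (le_trans (le_max_right _ _) (le_max_left _ _)) hA'
  have hA3' : A3 ≤ A := le_trans (le_trans (le_max_left _ _) (le_max_right _ _)) hA'
  have hA4 : A4 ≤ A := le_trans (le_trans (le_max_right _ _) (le_max_right _ _)) hA'
  have hAr : (3 : ℝ) ≤ A := by exact_mod_cast hA3
  have hlog : 1 ≤ Real.log (A : ℝ) := by
    rw [Real.le_log_iff_exp_le (by linarith)]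
    exact (Real.exp_one_lt_d9.le.trans (by norm_num)).trans hAr
  have hlog0 : 0 < Real.log (A : ℝ) := by linarith
  set O : ℝ := (cs (cusp A (8 * A ^ 5)) (fun w => RK A K (Nm w) ∧ lam (Nm w) = -1) : ℝ) with hO
  have hO0 : 0 ≤ O := by rw [hO]; positivity
  have : NeZero (20 * A + 1) := ⟨by omega⟩
  have hNodd : Odd (20 * A + 1) := ⟨10 * A, by ring⟩
  set L : ℝ := c1 * (A : ℝ) ^ 3 / Real.log A ^ 2 with hLdef
  have hL : 0 < L := by rw [hLdef]; positivity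
  have hod : (cs (RR A K ×ˢ (RR A K ×ˢ RR A K))
      (fun x => sec A x.1 - sec A x.2.1 + sec A x.2.2 = 12 ∧
      lam (Nm x.1) * lam (Nm x.2.1) * lam (Nm x.2.2) = -1) : ℝ) ≤ ((C : ℝ) + 1) * O := by
    have h1 := hodd A hA3'
    have h2 : (cs (RR A K ×ˢ (RR A K ×ˢ RR A K))
      (fun x => sec A x.1 - sec A x.2.1 + sec A x.2.2 = 12 ∧
      lam (Nm x.1) * lam (Nm x.2.1) * lam (Nm x.2.2) = -1) : ℝ) ≤ (C : ℝ) * O := by
      rw [hO]
      exact_mod_cast h1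
    linarith
  have hNr : ((20 * A + 1 : ℕ) : ℝ) = 20 * (A : ℝ) + 1 := by push_cast; ring
  have hC1 : (0 : ℝ) < (C : ℝ) + 1 := by positivity
  have hmin1 : min 1 c2 ≤ 1 := min_le_left _ _
  have hmin2 : min 1 c2 ≤ c2 := min_le_right _ _
  have hmin0 : 0 < min 1 c2 := lt_min one_pos hc2
  have hLval : L ^ 3 * Real.log A ^ 6 = c1 ^ 3 * (A : ℝ) ^ 9 := by
    rw [hLdef, div_pow, mul_pow, ← pow_mul, ← pow_mul]
    field_simp
    ring
  rw [div_le_iff₀ (by positivity), div_mul_eq_mul_div, div_le_iff₀ hC1]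
  -- goal: c1 ^ 3 * min 1 c2 * A ^ 11 ≤ O * log A ^ 7 * (C + 1)
  by_cases hsmall : 2 * (((C : ℝ) + 1) * O) / (L ^ 3 * ((20 * A + 1 : ℕ) : ℝ) ^ 2) ≤ 1 / 20
  · have hcore := Odd_core hNodd (RR A K) (sec A) (fun w => lam (Nm w)) (fun w => Odd_lam _) 12
      hL (fun j => hlow A hA1 j) (U := (A : ℝ) ^ 3) (fun j => by exact_mod_cast hup A hA2 j)
      hod (hann A hA4) hsmall
    rw [hNr] at hcore
    have e1 : 2 * (c2 * (A : ℝ) ^ 4 / Real.log A) / (A : ℝ) ^ 3 = 2 * c2 * A / Real.log A := by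
      field_simp
    have e2 : 12 * (2 * (((C : ℝ) + 1) * O) / (L ^ 3 * (20 * (A : ℝ) + 1) ^ 2)) * (20 * (A : ℝ) + 1)
        = 24 * (((C : ℝ) + 1) * O) / (L ^ 3 * (20 * (A : ℝ) + 1)) := by
      field_simp
      ring
    rw [e1, e2, div_le_div_iff₀ hlog0 (by positivity)] at hcore
    -- 2 c2 A (L^3 (20A+1)) ≤ 24 (C+1) O log A
    have h1 : 2 * c2 * (A : ℝ) * (L ^ 3 * (20 * (A : ℝ))) ≤ 24 * (((C : ℝ) + 1) * O) * Real.log A := by
      refine le_trans ?_ hcore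
      have : 0 ≤ 2 * c2 * (A : ℝ) * L ^ 3 := by positivity
      nlinarith
    have h2 : 2 * c2 * (A : ℝ) * (L ^ 3 * (20 * (A : ℝ))) * Real.log A ^ 6 ≤
        24 * (((C : ℝ) + 1) * O) * Real.log A * Real.log A ^ 6 := by
      gcongr
    have h3 : 2 * c2 * (A : ℝ) * (L ^ 3 * (20 * (A : ℝ))) * Real.log A ^ 6 =
        40 * c2 * (c1 ^ 3 * (A : ℝ) ^ 11) := by
      calc _ = 40 * c2 * (A : ℝ) ^ 2 * (L ^ 3 * Real.log A ^ 6) := by ring
        _ = _ := by rw [hLval]; ring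
    rw [h3] at h2
    have h4 : c1 ^ 3 * min 1 c2 * (A : ℝ) ^ 11 ≤ c2 * (c1 ^ 3 * (A : ℝ) ^ 11) := by
      have : 0 ≤ c1 ^ 3 * (A : ℝ) ^ 11 := by positivity
      nlinarith
    have h5 : 0 ≤ O * Real.log A ^ 7 * ((C : ℝ) + 1) := by positivity
    nlinarith
  · rw [not_le, hNr, lt_div_iff₀ (by positivity)] at hsmall
    have h1 : 1 / 20 * (L ^ 3 * (20 * (A : ℝ)) ^ 2) ≤ 2 * (((C : ℝ) + 1) * O) := by
      refine le_trans ?_ hsmall.le
      have : (20 * (A : ℝ)) ^ 2 ≤ (20 * (A : ℝ) + 1) ^ 2 := by gcongr; linarith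
      gcongr
    have h2 : 1 / 20 * (L ^ 3 * (20 * (A : ℝ)) ^ 2) * Real.log A ^ 6 ≤
        2 * (((C : ℝ) + 1) * O) * Real.log A ^ 6 := by gcongr
    have h3 : 1 / 20 * (L ^ 3 * (20 * (A : ℝ)) ^ 2) * Real.log A ^ 6 =
        20 * (c1 ^ 3 * (A : ℝ) ^ 11) := by
      calc _ = 20 * (A : ℝ) ^ 2 * (L ^ 3 * Real.log A ^ 6) := by ring
        _ = _ := by rw [hLval]; ring
    rw [h3] at h2
    have h4 : Real.log A ^ 6 ≤ Real.log A ^ 7 := pow_le_pow_right₀ hlog (by norm_num)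
    have h5 : 2 * (((C : ℝ) + 1) * O) * Real.log A ^ 6 ≤
        2 * (((C : ℝ) + 1) * O) * Real.log A ^ 7 := by gcongr
    have h6 : c1 ^ 3 * min 1 c2 * (A : ℝ) ^ 11 ≤ c1 ^ 3 * (A : ℝ) ^ 11 := by
      have : 0 ≤ c1 ^ 3 * (A : ℝ) ^ 11 := by positivity
      nlinarith
    have h7 : 0 ≤ O * Real.log A ^ 7 * ((C : ℝ) + 1) := by positivity
    nlinarith

end Pool.Agent.H17.RP
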