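import Pool.Agent.H17.RP.Star
import Pool.Agent.H17.RP.Odd

/-!
# Main: the hypothesis `Hyp` is false for all large `t`

Proof. `g`, `t0` from `star`, `K`, `c` from `odd_many`.  `not_hyp`: for `t ≥ t1` and every `ε`:
`¬ Hyp g t ε`.  Otherwise, with `A = AA g t = 2^(t^(4g))`: `RK A K m` implies `Rough (2^t) m` when
`(2^t)^K ≤ A` (`K t ≤ t^(4g)`), so `star` and `odd_many` give
`c A^11/(log A)^7 ≤ 64 A^11/t^(32g)`, `log A ≤ t^(4g)`: `c ≤ 64 t^(28g - 32g)`, false for large `t`.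

The theorem on the values `3k² + 3k + 1` is in `Main2.lean`.
-/

set_option autoImplicit false

namespace Pool.Agent.H17.RP

open Finset

/-- If no prime `p` with `p^K ≤ A` divides `m`, then `m` has no prime factor `≤ 2^t`. -/
private theorem rk_rough {g t K : ℕ} (hg : 1 ≤ g) (ht : 1 ≤ t) (hK : K ≤ t) {m : ℤ}
    (h : RK (AA g t) K m) : Rough (2 ^ t) m := by
  intro p hp hd
  by_contra hc
  rw [not_lt] at hc
  have h1 := h p hp hd
  have h2 : p ^ K ≤ AA g t := by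
    calc p ^ K ≤ (2 ^ t) ^ K := Nat.pow_le_pow_left hc K
      _ = 2 ^ (t * K) := by rw [pow_mul]
      _ ≤ 2 ^ (t ^ (4 * g)) := by
        refine Nat.pow_le_pow_right (by norm_num) ?_
        calc t * K ≤ t * t := Nat.mul_le_mul_left _ hK
          _ = t ^ 2 := by ring
          _ ≤ t ^ (4 * g) := Nat.pow_le_pow_right ht (by omega)
      _ = AA g t := rfl
  omega

theorem not_hyp : ∃ g : ℕ, 1 ≤ g ∧ ∃ t1 : ℕ, ∀ t ≥ t1, ∀ ε : ℤ, ¬ Hyp g t ε := by
  obtain ⟨g, hg, t0, hstar⟩ := star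
  obtain ⟨K, hK, c, hc, A0, hodd⟩ := odd_many
  obtain ⟨M, hM⟩ := exists_nat_gt (64 / c)
  refine ⟨g, hg, max (max t0 K) (max (max A0 M) 1), fun t ht ε hyp => ?_⟩
  have ht0 : t0 ≤ t := ((le_max_left _ _).trans (le_max_left _ _)).trans ht
  have htK : K ≤ t := ((le_max_right _ _).trans (le_max_left _ _)).trans ht
  have htA : A0 ≤ t := (((le_max_left _ _).trans (le_max_left _ _)).trans (le_max_right _ _)).trans ht
  have htM : M ≤ t := (((le_max_right _ _).trans (le_max_left _ _)).trans (le_max_right _ _)).trans ht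
  have ht1 : 1 ≤ t := ((le_max_right _ _).trans (le_max_right _ _)).trans ht
  have hpow : t ≤ t ^ (4 * g) := by
    calc t = t ^ 1 := (pow_one t).symm
      _ ≤ t ^ (4 * g) := Nat.pow_le_pow_right ht1 (by omega)
  have hAt : t ≤ AA g t := by
    calc t ≤ t ^ (4 * g) := hpow
      _ ≤ 2 ^ (t ^ (4 * g)) := Nat.lt_two_pow_self.le
      _ = AA g t := rfl
  have hstar' := hstar t ht0 ε hyp
  have hodd' := hodd (AA g t) (htA.trans hAt)
  set A := AA g t with hA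
  set N1 := cs (cusp A (8 * A ^ 5)) (fun w => Rough (2 ^ t) (Nm w) ∧ lam (Nm w) = -1) with hN1
  set N2 := cs (cusp A (8 * A ^ 5)) (fun w => RK A K (Nm w) ∧ lam (Nm w) = -1) with hN2
  have hN : N2 ≤ N1 := cs_mono fun w _ hw => ⟨rk_rough hg ht1 htK hw.1, hw.2⟩
  have hApos : (0 : ℝ) < (A : ℝ) := by
    have : 0 < A := by omega
    exact_mod_cast this
  have htR : (1 : ℝ) ≤ (t : ℝ) := by exact_mod_cast ht1
  have htR0 : (0 : ℝ) < (t : ℝ) := by linarith
  have hlog : Real.log (A : ℝ) = (t : ℝ) ^ (4 * g) * Real.log 2 := by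
    rw [hA]
    unfold AA
    push_cast
    rw [Real.log_pow]
    push_cast
    ring
  have hlogpos : 0 < Real.log (A : ℝ) := by
    rw [hlog]
    exact mul_pos (by positivity) (Real.log_pos (by norm_num))
  have hlogle : Real.log (A : ℝ) ≤ (t : ℝ) ^ (4 * g) := by
    rw [hlog]
    have h1 : Real.log 2 ≤ 1 := by
      have := Real.log_le_sub_one_of_pos (show (0 : ℝ) < 2 by norm_num)
      linarith
    have h2 : (0 : ℝ) ≤ (t : ℝ) ^ (4 * g) := by positivity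
    nlinarith
  -- the two bounds
  have h1 : c * (A : ℝ) ^ 11 ≤ (N2 : ℝ) * Real.log A ^ 7 := by
    rwa [div_le_iff₀ (pow_pos hlogpos 7)] at hodd'
  have h2 : (N2 : ℝ) * Real.log A ^ 7 ≤ (N1 : ℝ) * ((t : ℝ) ^ (4 * g)) ^ 7 := by
    refine mul_le_mul (by exact_mod_cast hN) (pow_le_pow_left₀ hlogpos.le hlogle 7)
      (pow_nonneg hlogpos.le 7) (Nat.cast_nonneg _)
  have h3 : (N1 : ℝ) * (t : ℝ) ^ (32 * g) ≤ 64 * (A : ℝ) ^ 11 := by exact_mod_cast hstar'
  have h4 : c * (A : ℝ) ^ 11 * (t : ℝ) ^ (4 * g) ≤ 64 * (A : ℝ) ^ 11 := by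
    calc c * (A : ℝ) ^ 11 * (t : ℝ) ^ (4 * g)
        ≤ (N1 : ℝ) * ((t : ℝ) ^ (4 * g)) ^ 7 * (t : ℝ) ^ (4 * g) :=
          mul_le_mul_of_nonneg_right (h1.trans h2) (by positivity)
      _ = (N1 : ℝ) * (t : ℝ) ^ (32 * g) := by
          rw [mul_assoc, ← pow_succ, ← pow_mul]
          congr 2
          ring
      _ ≤ 64 * (A : ℝ) ^ 11 := h3
  have h5 : c * (t : ℝ) ^ (4 * g) ≤ 64 := by
    have h6 : c * (t : ℝ) ^ (4 * g) * (A : ℝ) ^ 11 ≤ 64 * (A : ℝ) ^ 11 := by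
      calc _ = c * (A : ℝ) ^ 11 * (t : ℝ) ^ (4 * g) := by ring
        _ ≤ _ := h4
    exact le_of_mul_le_mul_right h6 (by positivity)
  have h6 : (t : ℝ) ≤ (t : ℝ) ^ (4 * g) := by exact_mod_cast hpow
  have h7 : 64 / c < (t : ℝ) := lt_of_lt_of_le hM (by exact_mod_cast htM)
  rw [div_lt_iff₀ hc] at h7
  nlinarith

end Pool.Agent.H17.RP
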