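import Pool.Agent.H17.RP.Main

/-!
# Main2: the final theorem

(With the new `Hyp`: exceptional sets.)  There is `δ > 0` such that for all large `X` and `ε = ± 1` at
least `X^(1/250)` of the `k ≤ X` are such that all prime factors of `3k² + 3k + 1` are larger than
`exp ((log X)^δ)` and `(-1)^Ω = ε`.

Proof. `g`, `t1` from `not_hyp`; `δ = 1/(4g+1)`.  For large `X` let `t` be the largest integer with
`A^100 ≤ X`, `A = AA g t = 2^(t^(4g))`; `t → ∞` with `X`.  `(t+1)^(4g) ≤ 1.2 t^(4g)` for large `t`, so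
`X < (AA g (t+1))^100 ≤ A^120`.  Let `E` be the set of the integers `R ∈ [2^t, A^100]` with
`Rough (2^t) (fk R)` and `lam (fk R) = ε`.  For `R ∈ [2^t, A^100]`, `R ∉ E`, `Rough (2^t) (fk R)`:
`lam (fk R) = -ε` (`lam_cases`).  So if `E.card^2 ≤ A` then `Hyp g t (-ε)`, contradiction to `not_hyp`.
Hence `E.card ≥ A^(1/2) ≥ X^(1/240)`.  `R ↦ R.toNat` maps `E` injectively into the set of the theorem:
`R ≤ A^100 ≤ X`, `fk R = 3k² + 3k + 1`, and a prime factor is `> 2^t ≥ exp ((log X)^δ)` because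
`log X ≤ 120 t^(4g)`, `(120 t^(4g))^(1/(4g+1)) ≤ t log 2` for large `t`.
-/

set_option autoImplicit false

namespace Pool.Agent.H17.RP

open Finset

private theorem main2_lam (m : ℤ) : lam m = 1 ∨ lam m = -1 := by
  unfold lam
  exact neg_one_pow_eq_or ℤ _

/-- the choice of `t` -/
private theorem main2_t (G T : ℕ) (hG : 1 ≤ G) : ∃ X₀ : ℕ, ∀ X : ℕ, X₀ ≤ X → ∃ t : ℕ, T ≤ t ∧
    2 ^ (100 * t ^ G) ≤ X ∧ X < 2 ^ (100 * (t + 1) ^ G) := by
  refine ⟨2 ^ (100 * T ^ G) + 1, fun X hX => ?_⟩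
  set N := Nat.log 2 X with hN
  have hX0 : X ≠ 0 := by
    have h0 : 0 < 2 ^ (100 * T ^ G) + 1 := Nat.succ_pos _
    exact Nat.pos_iff_ne_zero.mp (lt_of_lt_of_le h0 hX)
  have hT : 100 * T ^ G ≤ N := by
    apply Nat.le_log_of_pow_le (by norm_num)
    exact (Nat.le_succ _).trans hX
  set t := Nat.findGreatest (fun t => 100 * t ^ G ≤ N) N with ht
  have hTN : T ≤ N := by
    rcases Nat.eq_zero_or_pos T with h | h
    · omega
    · have : T ≤ T ^ G := Nat.le_self_pow (by omega) T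
      omega
  have h1 : T ≤ t := Nat.le_findGreatest hTN hT
  have h2 : 100 * t ^ G ≤ N := by
    have := Nat.findGreatest_spec (P := fun t => 100 * t ^ G ≤ N) hTN hT
    exact this
  have h3 : N < 100 * (t + 1) ^ G := by
    by_contra hcon
    push Not at hcon
    have h4 : t + 1 ≤ N := by
      have : t + 1 ≤ (t + 1) ^ G := Nat.le_self_pow (by omega) _
      omega
    have h5 : t + 1 ≤ t := Nat.le_findGreatest (P := fun t => 100 * t ^ G ≤ N) h4 hcon
    omega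
  refine ⟨t, h1, ?_, ?_⟩
  · exact (Nat.pow_le_pow_right (by norm_num) h2).trans (Nat.pow_log_le_self 2 hX0)
  · exact (Nat.lt_pow_succ_log_self (by norm_num) X).trans_le
      (Nat.pow_le_pow_right (by norm_num) h3)

private theorem main2_growth {G t : ℕ} (ht : 6 * G ≤ t) (ht1 : 1 ≤ t) :
    100 * (t + 1) ^ G ≤ 120 * t ^ G := by
  have htp : (0 : ℝ) < t := by exact_mod_cast ht1
  have h1 : (1 + 1 / (t : ℝ)) ^ G ≤ Real.exp (1 / 6) := by
    calc (1 + 1 / (t : ℝ)) ^ G ≤ (Real.exp (1 / t)) ^ G := by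
          apply pow_le_pow_left₀ (by positivity)
          have := Real.add_one_le_exp (1 / (t : ℝ))
          linarith
      _ = Real.exp (G * (1 / t)) := by rw [← Real.exp_nat_mul]
      _ ≤ Real.exp (1 / 6) := by
          apply Real.exp_le_exp.mpr
          rw [mul_one_div, div_le_div_iff₀ htp (by norm_num)]
          have : (6 * G : ℝ) ≤ t := by exact_mod_cast ht
          linarith
  have h2 : Real.exp (1 / 6) ≤ 6 / 5 := by
    have h3 : Real.exp (1 / 6) ^ 6 = Real.exp 1 := by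
      rw [← Real.exp_nat_mul]; norm_num
    have h4 : Real.exp 1 ≤ (6 / 5 : ℝ) ^ 6 := by
      have := Real.exp_one_lt_d9
      norm_num at this ⊢
      linarith
    by_contra hcon
    push Not at hcon
    have h5 : (6 / 5 : ℝ) ^ 6 < Real.exp (1 / 6) ^ 6 :=
      pow_lt_pow_left₀ hcon (by norm_num) (by norm_num)
    linarith
  have h3 : ((t : ℝ) + 1) ^ G = (1 + 1 / (t : ℝ)) ^ G * (t : ℝ) ^ G := by
    rw [← mul_pow]; congr 1; field_simp
  have h4 : (100 : ℝ) * ((t : ℝ) + 1) ^ G ≤ 120 * (t : ℝ) ^ G := by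
    rw [h3]
    have h5 : (0 : ℝ) < (t : ℝ) ^ G := by positivity
    nlinarith
  exact_mod_cast h4

private theorem main2_exp {G t X : ℕ} (hX0 : 1 ≤ X)
    (ht : (120 : ℝ) / Real.log 2 ^ (G + 1) ≤ t) (ht1 : 1 ≤ t) (hX : X < 2 ^ (120 * t ^ G)) :
    Real.exp (Real.log X ^ ((1 : ℝ) / ((G : ℝ) + 1))) ≤ (2 : ℝ) ^ t := by
  have hl2 : 0 < Real.log 2 := Real.log_pos (by norm_num)
  have hl2' : Real.log 2 ≤ 1 := by
    have := Real.log_le_sub_one_of_pos (x := 2) (by norm_num)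
    linarith
  have htp : (0 : ℝ) < t := by exact_mod_cast ht1
  have hXp : (0 : ℝ) < X := by exact_mod_cast hX0
  have hlog : Real.log X ≤ 120 * (t : ℝ) ^ G := by
    have h1 : (X : ℝ) ≤ 2 ^ (120 * t ^ G) := by exact_mod_cast hX.le
    have h2 := Real.log_le_log hXp h1
    rw [Real.log_pow] at h2
    push_cast at h2
    have h3 : (0 : ℝ) ≤ 120 * (t : ℝ) ^ G := by positivity
    nlinarith
  have hlog0 : 0 ≤ Real.log X := Real.log_nonneg (by exact_mod_cast hX0)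
  have h1 : 120 * (t : ℝ) ^ G ≤ (t * Real.log 2) ^ (G + 1) := by
    rw [div_le_iff₀ (by positivity)] at ht
    rw [mul_pow, pow_succ (t : ℝ) G]
    have h5 : (0 : ℝ) < (t : ℝ) ^ G := by positivity
    nlinarith
  have h2 : Real.log X ^ ((1 : ℝ) / ((G : ℝ) + 1)) ≤ t * Real.log 2 := by
    calc Real.log X ^ ((1 : ℝ) / ((G : ℝ) + 1))
        ≤ ((t * Real.log 2) ^ (G + 1)) ^ ((1 : ℝ) / ((G : ℝ) + 1)) :=
          Real.rpow_le_rpow hlog0 (hlog.trans h1) (by positivity)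
      _ = t * Real.log 2 := by
          rw [← Real.rpow_natCast, ← Real.rpow_mul (by positivity)]
          push_cast
          rw [mul_one_div_cancel (by positivity), Real.rpow_one]
  calc Real.exp (Real.log X ^ ((1 : ℝ) / ((G : ℝ) + 1))) ≤ Real.exp (t * Real.log 2) :=
        Real.exp_le_exp.mpr h2
    _ = (2 : ℝ) ^ t := by
        rw [Real.exp_nat_mul, Real.exp_log (by norm_num)]

theorem main2 : ∃ δ : ℝ, 0 < δ ∧ ∃ X₀ : ℕ, ∀ X : ℕ, X₀ ≤ X → ∀ ε : ℤ, (ε = 1 ∨ ε = -1) →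
    (X : ℝ) ^ ((1 : ℝ) / 250) ≤ (Set.ncard {k : ℕ | 1 ≤ k ∧ k ≤ X ∧
      (∀ p : ℕ, p.Prime → p ∣ 3 * k ^ 2 + 3 * k + 1 → Real.exp (Real.log X ^ δ) < p) ∧
      (-1 : ℤ) ^ (ArithmeticFunction.cardFactors (3 * k ^ 2 + 3 * k + 1)) = ε} : ℝ) := by
  classical
  obtain ⟨g, hg, t1, hnot⟩ := not_hyp
  set G := 4 * g with hG
  obtain ⟨T2, hT2⟩ := exists_nat_ge ((120 : ℝ) / Real.log 2 ^ (G + 1))
  obtain ⟨X₀, hX₀⟩ := main2_t G (t1 + 6 * G + T2 + 1) (by omega)
  refine ⟨(1 : ℝ) / ((G : ℝ) + 1), by positivity, X₀, fun X hX ε hε => ?_⟩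
  obtain ⟨t, ht, htX, hXt⟩ := hX₀ X hX
  have ht1 : 1 ≤ t := by omega
  have hX1 : 1 ≤ X := le_trans Nat.one_le_two_pow htX
  have hXt' : X < 2 ^ (120 * t ^ G) :=
    hXt.trans_le (Nat.pow_le_pow_right (by norm_num) (main2_growth (by omega) ht1))
  have hexp := main2_exp (G := G) (t := t) (X := X) hX1
    (hT2.trans (by exact_mod_cast (by omega : T2 ≤ t))) ht1 hXt'
  have hA100 : (AA g t) ^ 100 ≤ X := by
    have : (AA g t) ^ 100 = 2 ^ (100 * t ^ G) := by
      unfold AA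
      rw [← pow_mul, mul_comm (t ^ (4 * g)) 100]
    rw [this]; exact htX
  set E : Finset ℤ := (Finset.Icc (2 ^ t : ℤ) ((AA g t : ℤ) ^ 100)).filter
    (fun R => Rough (2 ^ t) (fk R) ∧ lam (fk R) = ε) with hE
  have hcard : AA g t < E.card ^ 2 := by
    by_contra hcon
    push Not at hcon
    apply hnot t (by omega) (-ε)
    refine ⟨E, hcon, fun R hR1 hR2 hR3 hR4 => ?_⟩
    have h1 : lam (fk R) ≠ ε := by
      intro h
      apply hR3
      rw [hE, Finset.mem_filter, Finset.mem_Icc]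
      exact ⟨⟨hR1, hR2⟩, hR4, h⟩
    rcases main2_lam (fk R) with h | h <;> rcases hε with h' | h'
    · exact absurd (h.trans h'.symm) h1
    · rw [h, h']; norm_num
    · rw [h, h']
    · exact absurd (h.trans h'.symm) h1
  set S : Set ℕ := {k : ℕ | 1 ≤ k ∧ k ≤ X ∧
      (∀ p : ℕ, p.Prime → p ∣ 3 * k ^ 2 + 3 * k + 1 →
        Real.exp (Real.log X ^ ((1 : ℝ) / ((G : ℝ) + 1))) < p) ∧
      (-1 : ℤ) ^ (ArithmeticFunction.cardFactors (3 * k ^ 2 + 3 * k + 1)) = ε} with hS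
  have hSfin : S.Finite := by
    apply (Set.finite_Icc 1 X).subset
    intro k hk
    exact ⟨hk.1, hk.2.1⟩
  have hpos : ∀ R ∈ E, 1 ≤ R := by
    intro R hR
    rw [hE, Finset.mem_filter, Finset.mem_Icc] at hR
    have : (1 : ℤ) ≤ 2 ^ t := one_le_pow₀ (by norm_num)
    linarith [hR.1.1]
  have hsub : ((E.image Int.toNat : Finset ℕ) : Set ℕ) ⊆ S := by
    intro k hk
    rw [Finset.mem_coe, Finset.mem_image] at hk
    obtain ⟨R, hR, rfl⟩ := hk
    have hR1 := hpos R hR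
    rw [hE, Finset.mem_filter, Finset.mem_Icc] at hR
    obtain ⟨⟨_, hR2⟩, hR3, hR4⟩ := hR
    obtain ⟨k, rfl⟩ : ∃ k : ℕ, R = k := ⟨R.toNat, by omega⟩
    rw [Int.toNat_natCast]
    have hfk : fk (k : ℤ) = ((3 * k ^ 2 + 3 * k + 1 : ℕ) : ℤ) := by
      unfold fk; push_cast; ring
    have hk2 : k ≤ X := by
      have : k ≤ (AA g t) ^ 100 := by exact_mod_cast hR2
      omega
    refine ⟨by exact_mod_cast hR1, hk2, fun p hp hpd => ?_, ?_⟩
    · have h1 : 2 ^ t < p := hR3 p hp (by rw [hfk]; exact_mod_cast hpd)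
      exact hexp.trans_lt (by exact_mod_cast h1)
    · rw [hfk] at hR4
      unfold lam at hR4
      rw [Int.natAbs_natCast] at hR4
      exact hR4
  have hcardE : E.card ≤ S.ncard := by
    have h1 : (E.image Int.toNat).card = E.card := by
      apply Finset.card_image_of_injOn
      intro a ha b hb hab
      have h2 := hpos a ha
      have h3 := hpos b hb
      omega
    rw [← h1, ← Set.ncard_coe_finset]
    exact Set.ncard_le_ncard hsub hSfin
  -- the size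
  have hAp : (1 : ℝ) ≤ (AA g t : ℝ) := by
    unfold AA; push_cast; exact one_le_pow₀ (by norm_num)
  have hXA : (X : ℝ) ≤ (AA g t : ℝ) ^ (120 : ℝ) := by
    have h1 : X ≤ (AA g t) ^ 120 := by
      have : (AA g t) ^ 120 = 2 ^ (120 * t ^ G) := by
        unfold AA
        rw [← pow_mul, mul_comm (t ^ (4 * g)) 120]
      rw [this]; exact hXt'.le
    have h2 : (X : ℝ) ≤ (AA g t : ℝ) ^ 120 := by exact_mod_cast h1
    have h3 : (AA g t : ℝ) ^ (120 : ℝ) = (AA g t : ℝ) ^ (120 : ℕ) := by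
      rw [← Real.rpow_natCast]; norm_num
    rw [h3]; exact h2
  have hEr : (AA g t : ℝ) ^ ((1 : ℝ) / 2) ≤ (E.card : ℝ) := by
    have h1 : (AA g t : ℝ) ≤ (E.card : ℝ) ^ 2 := by exact_mod_cast hcard.le
    rw [← Real.sqrt_eq_rpow]
    exact Real.sqrt_le_iff.mpr ⟨by positivity, h1⟩
  calc (X : ℝ) ^ ((1 : ℝ) / 250) ≤ ((AA g t : ℝ) ^ (120 : ℝ)) ^ ((1 : ℝ) / 250) :=
        Real.rpow_le_rpow (by positivity) hXA (by norm_num)
    _ = (AA g t : ℝ) ^ ((120 : ℝ) * (1 / 250)) := by rw [← Real.rpow_mul (by positivity)]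
    _ ≤ (AA g t : ℝ) ^ ((1 : ℝ) / 2) := Real.rpow_le_rpow_of_exponent_le hAp (by norm_num)
    _ ≤ (E.card : ℝ) := hEr
    _ ≤ (S.ncard : ℝ) := by exact_mod_cast hcardE

end Pool.Agent.H17.RP
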