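import Pool.Agent.H17.RP.Basic

/-!
# Mgf: exponential moments of the number of survivors in the model

`Q` a set of primes, `S` a finite set, `kill q m T` periodic in `m` modulo `q`.  Every class modulo `q`
kills at most `B` elements of `S`, every `T ∈ S` is killed in at most `κ` classes modulo `q`.  The
model is `m` uniform in `range (∏ Q)`, where the residues modulo the `q ∈ Q` are independent.

`mgf`. For weights `0 ≤ ω T ≤ 1` and `|lb| B ≤ 1`:
`Σ_(m < ∏ Q) exp (lb (Σ_(T alive at m) ω T - Σ_T ω T ∏_q (1 - z_q(T)/q))) ≤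
(∏ Q) exp (lb² B |S| κ Σ_q 1/q)`, `z_q(T)` = number of classes killing `T`.
Proof by induction on `Q`, for all weights.  `Q = ∅`: equality `1 ≤ 1`.  Let `Q = Q' ∪ {q}`,
`M' = ∏ Q'`.  By the Chinese remainder theorem `m ↔ (m', b)`, `m' = m mod M'`, `b = m mod q`.  Fix `m'`,
let `S'` be the set of `T ∈ S` which are alive for `Q'` at `m'`.  With `ω'(T) = ω(T) (1 - z_q(T)/q)`:
`Σ_(alive) ω = Σ_(T ∈ S') ω(T) - Σ_(T ∈ S', kill q b T) ω(T)
 = Σ_(T ∈ S') ω'(T) - (Y(b) - E Y)`, `Y(b) = Σ_(T ∈ S', kill q b T) ω T ∈ [0, B]`,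
`E Y = (1/q) Σ_(b < q) Y(b) = Σ_(T ∈ S') ω(T) z_q(T)/q`.  For `|x| ≤ 1`, `exp x ≤ 1 + x + x²`, and
`|lb (Y - EY)| ≤ 1`, so the average over `b` of `exp (- lb (Y - E Y))` is at most
`1 + lb² E (Y-EY)² ≤ 1 + lb² E Y² ≤ 1 + lb² B E Y ≤ exp (lb² B |S| κ/q)`.  The rest is the statement for
`Q'` with the weights `ω'` (`Σ ω'(T) ∏_(Q') = Σ ω(T) ∏_Q`).
-/

set_option autoImplicit false

namespace Pool.Agent.H17.RP

open Finset

theorem mgf_sel_sum {ι : Type} (S : Finset ι) (P : ι → Prop) (ω : ι → ℝ) :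
    ∑ T ∈ sel S (fun T => ¬ P T), ω T = ∑ T ∈ S, ω T - ∑ T ∈ sel S P, ω T := by
  unfold sel
  rw [sum_filter, sum_filter, ← sum_sub_distrib]
  refine sum_congr rfl fun T _ => ?_
  by_cases h : P T
  · simp [h]
  · simp [h]

/-- Chinese remainder theorem: summation over pairs of residues. -/
theorem mgf_crt (m n : ℕ) (hm : 0 < m) (hn : 0 < n) (hmn : Nat.Coprime m n) (G : ℕ → ℕ → ℝ) :
    ∑ z ∈ range (m * n), G (z % m) (z % n) = ∑ x ∈ range m, ∑ y ∈ range n, G x y := by
  rw [← sum_product']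
  have hinj : Set.InjOn (fun z => (z % m, z % n)) (range (m*n) : Finset ℕ) := by
    intro z hz z' hz' h
    rw [mem_coe, mem_range] at hz hz'
    simp only [Prod.mk.injEq] at h
    have : z ≡ z' [MOD m*n] := (Nat.modEq_and_modEq_iff_modEq_mul hmn).mp ⟨h.1, h.2⟩
    exact Nat.ModEq.eq_of_lt_of_lt this hz hz'
  have himg : (range (m*n)).image (fun z => (z % m, z % n)) = range m ×ˢ range n := by
    apply eq_of_subset_of_card_le
    · intro x hx
      rw [mem_image] at hx
      obtain ⟨z, -, rfl⟩ := hx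
      rw [mem_product, mem_range, mem_range]
      exact ⟨Nat.mod_lt _ hm, Nat.mod_lt _ hn⟩
    · rw [card_image_of_injOn hinj, card_product, card_range, card_range, card_range]
  rw [← himg, sum_image hinj]

/-- One step: the exponential moment of a function on `range q` with values in `[0, B]`. -/
theorem mgf_one (q : ℕ) (hq : 0 < q) (Y : ℕ → ℝ) {B lb E : ℝ} (hY0 : ∀ b ∈ range q, 0 ≤ Y b)
    (hYB : ∀ b ∈ range q, Y b ≤ B) (hB0 : 0 ≤ B) (hlb : |lb| * B ≤ 1)
    (hE : ∑ b ∈ range q, Y b ≤ q * E) {e : ℝ} (he : ∑ b ∈ range q, Y b = q * e) :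
    ∑ b ∈ range q, Real.exp (-(lb * (Y b - e))) ≤ q * Real.exp (lb ^ 2 * B * E) := by
  have hq0 : (0 : ℝ) < q := by exact_mod_cast hq
  have he0 : 0 ≤ e := by
    have : 0 ≤ (q : ℝ) * e := by rw [← he]; exact sum_nonneg hY0
    exact nonneg_of_mul_nonneg_right this hq0
  have heB : e ≤ B := by
    have h1 : (q : ℝ) * e ≤ q * B := by
      rw [← he]
      refine (sum_le_sum hYB).trans ?_
      rw [sum_const, card_range, nsmul_eq_mul]
    exact le_of_mul_le_mul_left h1 hq0
  have heE : e ≤ E := by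
    have h1 : (q : ℝ) * e ≤ q * E := by rw [← he]; exact hE
    exact le_of_mul_le_mul_left h1 hq0
  have hb : ∀ b ∈ range q, Real.exp (-(lb * (Y b - e))) ≤
      1 - lb * (Y b - e) + lb ^ 2 * (B * Y b - 2 * e * Y b + e ^ 2) := by
    intro b hb
    have h0 := hY0 b hb
    have h1 := hYB b hb
    have h2 : |-(lb * (Y b - e))| ≤ 1 := by
      rw [abs_neg, abs_mul]
      refine (mul_le_mul_of_nonneg_left ?_ (abs_nonneg lb)).trans hlb
      rw [abs_le]; constructor <;> linarith
    have h3 := abs_le.1 (Real.abs_exp_sub_one_sub_id_le h2)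
    have h4 : Y b ^ 2 ≤ B * Y b := by nlinarith
    have h5 : lb ^ 2 * (Y b ^ 2) ≤ lb ^ 2 * (B * Y b) := mul_le_mul_of_nonneg_left h4 (sq_nonneg _)
    nlinarith [h3.2]
  refine (sum_le_sum hb).trans ?_
  have hsum : ∑ b ∈ range q, (1 - lb * (Y b - e) + lb ^ 2 * (B * Y b - 2 * e * Y b + e ^ 2)) =
      q + lb ^ 2 * (B * (q * e) - q * e ^ 2) := by
    have h1 : ∀ b ∈ range q, (1 - lb * (Y b - e) + lb ^ 2 * (B * Y b - 2 * e * Y b + e ^ 2)) =
      (1 + lb * e + lb ^ 2 * e ^ 2) + (- lb + lb ^ 2 * B - lb ^ 2 * 2 * e) * Y b := by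
      intro b _; ring
    rw [sum_congr rfl h1, sum_add_distrib, ← mul_sum, he, sum_const, card_range, nsmul_eq_mul]
    ring
  rw [hsum]
  have h6 : 1 + lb ^ 2 * B * E ≤ Real.exp (lb ^ 2 * B * E) := by
    have := Real.add_one_le_exp (lb ^ 2 * B * E); linarith
  have h7 : (q : ℝ) * (1 + lb ^ 2 * B * E) ≤ q * Real.exp (lb ^ 2 * B * E) :=
    mul_le_mul_of_nonneg_left h6 hq0.le
  refine le_trans ?_ h7
  have h8 : 0 ≤ lb ^ 2 * (q * e ^ 2) := by positivity
  have h9 : lb ^ 2 * (B * (q * e)) ≤ lb ^ 2 * (B * (q * E)) := by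
    have : (q : ℝ) * e ≤ q * E := mul_le_mul_of_nonneg_left heE hq0.le
    exact mul_le_mul_of_nonneg_left (mul_le_mul_of_nonneg_left this hB0) (sq_nonneg _)
  nlinarith

theorem mgf_mod {kill : ℕ → Prop} {q : ℕ} (hper : ∀ m, (kill (m + q) ↔ kill m)) (m : ℕ) :
    kill (m % q) ↔ kill m := by
  have h : ∀ k r, kill (r + q * k) ↔ kill r := by
    intro k
    induction k with
    | zero => intro r; simp
    | succ k ih =>
      intro r
      rw [Nat.mul_succ, ← add_assoc, hper, ih]
  conv_rhs => rw [← Nat.mod_add_div m q]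
  exact (h _ _).symm

theorem mgf_mod' {kill : ℕ → Prop} {q M : ℕ} (hper : ∀ m, (kill (m + q) ↔ kill m)) (hM : q ∣ M)
    (m : ℕ) : kill (m % M) ↔ kill m := by
  rw [← mgf_mod hper (m % M), ← mgf_mod hper m, Nat.mod_mod_of_dvd _ hM]

theorem mgf {ι : Type} (Q : Finset ℕ) (hQ : ∀ q ∈ Q, q.Prime) (S : Finset ι)
    (kill : ℕ → ℕ → ι → Prop) (hper : ∀ q ∈ Q, ∀ m, ∀ T ∈ S, (kill q (m + q) T ↔ kill q m T))
    {B κ : ℝ} (hB0 : 0 ≤ B) (hB : ∀ q ∈ Q, ∀ m, (cs S (kill q m) : ℝ) ≤ B)
    (hκ : ∀ q ∈ Q, ∀ T ∈ S, (cs (range q) (fun m => kill q m T) : ℝ) ≤ κ)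
    (ω : ι → ℝ) (hω : ∀ T ∈ S, 0 ≤ ω T ∧ ω T ≤ 1) {lb : ℝ} (hlb : |lb| * B ≤ 1) :
    ∑ m ∈ range (∏ q ∈ Q, q), Real.exp (lb * (∑ T ∈ sel S (fun T => ∀ q ∈ Q, ¬ kill q m T), ω T -
      ∑ T ∈ S, ω T * ∏ q ∈ Q, (1 - (cs (range q) (fun m => kill q m T) : ℝ) / q))) ≤
    ((∏ q ∈ Q, q : ℕ) : ℝ) * Real.exp (lb ^ 2 * B * S.card * κ * ∑ q ∈ Q, 1 / (q : ℝ)) := by
  classical
  induction Q using Finset.induction_on generalizing ω with
  | empty =>
    have h1 : sel S (fun T => ∀ q ∈ (∅ : Finset ℕ), ¬ kill q 0 T) = S := by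
      ext T; rw [mem_sel]; simp
    simp only [prod_empty, range_one, sum_singleton, mul_one, sum_empty, mul_zero, Real.exp_zero]
    rw [h1, sub_self, mul_zero, Real.exp_zero]
    norm_num
  | insert q Q' hq ih =>
    have hqp := hQ q (mem_insert_self q Q')
    have hQ'p : ∀ p ∈ Q', p.Prime := fun p hp => hQ p (mem_insert_of_mem hp)
    have hper' : ∀ p ∈ Q', ∀ m, ∀ T ∈ S, (kill p (m + p) T ↔ kill p m T) :=
      fun p hp => hper p (mem_insert_of_mem hp)
    have hq0 : (0 : ℝ) < q := by exact_mod_cast hqp.pos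
    set M := ∏ p ∈ Q', p with hM
    have hM0 : 0 < M := prod_pos fun p hp => (hQ'p p hp).pos
    have hcop : Nat.Coprime M q := by
      refine Nat.Coprime.prod_left fun p hp => ?_
      exact (Nat.coprime_primes (hQ'p p hp) hqp).2 (fun h => hq (h ▸ hp))
    have hdvd : ∀ p ∈ Q', p ∣ M := fun p hp => dvd_prod_of_mem _ hp
    -- the new weights
    set z : ι → ℝ := fun T => (cs (range q) (fun m => kill q m T) : ℝ) with hz
    have hz0 : ∀ T, 0 ≤ z T := fun T => Nat.cast_nonneg _
    have hzq : ∀ T, z T ≤ q := by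
      intro T
      have := cs_le_card (range q) (fun m => kill q m T)
      rw [card_range] at this
      simp only [hz]
      exact_mod_cast this
    set ω' : ι → ℝ := fun T => ω T * (1 - z T / q) with hω'
    have hω'1 : ∀ T ∈ S, 0 ≤ ω' T ∧ ω' T ≤ 1 := by
      intro T hT
      have h1 : 0 ≤ z T / q := div_nonneg (hz0 T) hq0.le
      have h2 : z T / q ≤ 1 := (div_le_one hq0).2 (hzq T)
      obtain ⟨h3, h4⟩ := hω T hT
      refine ⟨mul_nonneg h3 (by linarith), ?_⟩
      exact mul_le_one₀ h4 (by linarith) (by linarith)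
    set C := ∑ T ∈ S, ω T * ∏ p ∈ insert q Q', (1 - (cs (range p) (fun m => kill p m T) : ℝ) / p)
      with hC
    have hC' : C = ∑ T ∈ S, ω' T * ∏ p ∈ Q', (1 - (cs (range p) (fun m => kill p m T) : ℝ) / p) := by
      rw [hC]
      refine sum_congr rfl fun T _ => ?_
      rw [prod_insert hq, hω']
      simp only [hz]
      ring
    set S' : ℕ → Finset ι := fun m => sel S (fun T => ∀ p ∈ Q', ¬ kill p m T) with hS'
    -- rewriting the sum
    set G : ℕ → ℕ → ℝ := fun x y =>
      Real.exp (lb * (∑ T ∈ sel (S' x) (fun T => ¬ kill q y T), ω T - C)) with hG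
    have hsum : ∑ m ∈ range (∏ p ∈ insert q Q', p),
        Real.exp (lb * (∑ T ∈ sel S (fun T => ∀ p ∈ insert q Q', ¬ kill p m T), ω T - C)) =
        ∑ x ∈ range M, ∑ y ∈ range q, G x y := by
      rw [← mgf_crt M q hM0 hqp.pos hcop G, prod_insert hq, mul_comm q]
      refine sum_congr rfl fun m _ => ?_
      have h1 : sel S (fun T => ∀ p ∈ insert q Q', ¬ kill p m T) =
          sel (S' (m % M)) (fun T => ¬ kill q (m % q) T) := by
        ext T
        rw [mem_sel, mem_sel, hS', mem_sel]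
        constructor
        · rintro ⟨hT, h⟩
          refine ⟨⟨hT, fun p hp => ?_⟩, ?_⟩
          · rw [mgf_mod' (kill := fun m => kill p m T) (fun m => hper' p hp m T hT) (hdvd p hp)]
            exact h p (mem_insert_of_mem hp)
          · rw [mgf_mod (kill := fun m => kill q m T)
              (fun m => hper q (mem_insert_self q Q') m T hT)]
            exact h q (mem_insert_self q Q')
        · rintro ⟨⟨hT, h⟩, h'⟩
          refine ⟨hT, fun p hp => ?_⟩
          rw [mem_insert] at hp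
          rcases hp with rfl | hp
          · rwa [mgf_mod (kill := fun m => kill p m T)
              (fun m => hper p (mem_insert_self p Q') m T hT)] at h'
          · have := h p hp
            rwa [mgf_mod' (kill := fun m => kill p m T) (fun m => hper' p hp m T hT)
              (hdvd p hp)] at this
      rw [hG, h1]
    rw [hsum]
    -- the inner sum
    have hinner : ∀ x ∈ range M, ∑ y ∈ range q, G x y ≤
        Real.exp (lb * (∑ T ∈ S' x, ω' T - C)) *
          (q * Real.exp (lb ^ 2 * B * (S.card * κ / q))) := by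
      intro x _
      have hSx : S' x ⊆ S := sel_subset _ _
      set Y : ℕ → ℝ := fun y => ∑ T ∈ sel (S' x) (fun T => kill q y T), ω T with hY
      set e : ℝ := ∑ T ∈ S' x, ω T * z T / q with he
      have hYsum : ∑ y ∈ range q, Y y = q * e := by
        rw [hY, he, mul_sum]
        have h1 : ∀ y ∈ range q, ∑ T ∈ sel (S' x) (fun T => kill q y T), ω T =
            ∑ T ∈ S' x, if kill q y T then ω T else 0 := by
          intro y _
          unfold sel
          rw [sum_filter]
        rw [sum_congr rfl h1, sum_comm]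
        refine sum_congr rfl fun T _ => ?_
        have h2 : ∑ y ∈ range q, (if kill q y T then ω T else 0) = z T * ω T := by
          rw [← sum_filter, sum_const, nsmul_eq_mul]
          rfl
        rw [h2]
        field_simp
      have hY0 : ∀ y ∈ range q, 0 ≤ Y y := by
        intro y _
        exact sum_nonneg fun T hT => (hω T (hSx (sel_subset _ _ hT))).1
      have hYB : ∀ y ∈ range q, Y y ≤ B := by
        intro y _
        have h1 : Y y ≤ (cs (S' x) (kill q y) : ℝ) := by
          have : Y y ≤ ∑ T ∈ sel (S' x) (fun T => kill q y T), (1 : ℝ) :=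
            sum_le_sum fun T hT => (hω T (hSx (sel_subset _ _ hT))).2
          rw [sum_const, nsmul_eq_mul, mul_one] at this
          exact this
        refine h1.trans ((?_ : _ ≤ (cs S (kill q y) : ℝ)).trans (hB q (mem_insert_self q Q') y))
        exact_mod_cast cs_subset hSx _
      have hE : ∑ y ∈ range q, Y y ≤ q * (S.card * κ / q) := by
        rw [hYsum, he, mul_sum]
        have h1 : ∀ T ∈ S' x, (q : ℝ) * (ω T * z T / q) ≤ κ := by
          intro T hT
          have h2 := hω T (hSx hT)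
          have h3 : z T ≤ κ := hκ q (mem_insert_self q Q') T (hSx hT)
          have h4 : (q : ℝ) * (ω T * z T / q) = ω T * z T := by field_simp
          rw [h4]
          exact (mul_le_of_le_one_left (hz0 T) h2.2).trans h3
        refine (sum_le_sum h1).trans ?_
        rw [sum_const, nsmul_eq_mul]
        have h5 : (q : ℝ) * (S.card * κ / q) = S.card * κ := by field_simp
        rw [h5]
        rcases S.eq_empty_or_nonempty with h0 | ⟨T0, hT0⟩
        · have : S' x = ∅ := by
            rw [← subset_empty, ← h0]; exact hSx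
          rw [this, h0]
        · have hκ0 : 0 ≤ κ := (hz0 T0).trans (hκ q (mem_insert_self q Q') T0 hT0)
          refine mul_le_mul_of_nonneg_right ?_ hκ0
          exact_mod_cast card_le_card hSx
      have hone := mgf_one q hqp.pos Y hY0 hYB hB0 hlb hE hYsum
      have hGe : ∀ y ∈ range q, G x y = Real.exp (lb * (∑ T ∈ S' x, ω' T - C)) *
          Real.exp (-(lb * (Y y - e))) := by
        intro y _
        simp only [hG]
        rw [← Real.exp_add]
        congr 1
        have h1 : ∑ T ∈ sel (S' x) (fun T => ¬ kill q y T), ω T = ∑ T ∈ S' x, ω T - Y y := by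
          exact mgf_sel_sum (S' x) (fun T => kill q y T) ω
        have h2 : ∑ T ∈ S' x, ω' T = ∑ T ∈ S' x, ω T - e := by
          rw [he, ← sum_sub_distrib]
          refine sum_congr rfl fun T _ => ?_
          simp only [hω']
          ring
        rw [h1, h2]
        ring
      rw [sum_congr rfl hGe, ← mul_sum]
      exact mul_le_mul_of_nonneg_left hone (Real.exp_pos _).le
    refine (sum_le_sum hinner).trans ?_
    rw [← sum_mul]
    have hIH := ih hQ'p hper' (fun p hp => hB p (mem_insert_of_mem hp))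
      (fun p hp => hκ p (mem_insert_of_mem hp)) ω' hω'1
    rw [← hC'] at hIH
    refine (mul_le_mul_of_nonneg_right hIH (by positivity)).trans (le_of_eq ?_)
    rw [prod_insert hq, sum_insert hq, ← hM]
    push_cast
    have h1 : lb ^ 2 * B * S.card * κ * (1 / (q : ℝ) + ∑ p ∈ Q', 1 / (p : ℝ)) =
        lb ^ 2 * B * S.card * κ * ∑ p ∈ Q', 1 / (p : ℝ) + lb ^ 2 * B * (S.card * κ / q) := by
      ring
    rw [h1, Real.exp_add]
    ring

end Pool.Agent.H17.RP
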