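import Pool.Agent.H17.RP.Mgf

/-!
# Mom: high moments of the number of survivors in the model

Setting of `Mgf.lean`.  Take `lb = ± (B |S|)^(-1/2)` (`|lb| B ≤ 1` since `B ≤ |S|`) and `ω = 1` in
`mgf`: `x^(2r)/(2r)! ≤ cosh x = (exp x + exp (-x))/2`.  So
`Σ_(m < ∏ Q) (N(m) - μ)^(2r) ≤ (∏ Q) (2r)! (B |S|)^r exp (κ Σ 1/q)`.
-/

set_option autoImplicit false

namespace Pool.Agent.H17.RP

open Finset

theorem mom_cosh (x : ℝ) (r : ℕ) : x ^ (2 * r) ≤ (2 * r).factorial * Real.cosh x := by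
  have h := Real.hasSum_cosh x
  have h1 : x ^ (2 * r) / ((2 * r).factorial : ℝ) ≤ Real.cosh x := by
    refine le_hasSum h r fun n _ => ?_
    rw [pow_mul]
    positivity
  have h2 : (0 : ℝ) < ((2 * r).factorial : ℝ) := by exact_mod_cast Nat.factorial_pos _
  rw [div_le_iff₀ h2] at h1
  linarith

theorem moment {ι : Type} (Q : Finset ℕ) (hQ : ∀ q ∈ Q, q.Prime) (S : Finset ι)
    (kill : ℕ → ℕ → ι → Prop) (hper : ∀ q ∈ Q, ∀ m, ∀ T ∈ S, (kill q (m + q) T ↔ kill q m T))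
    {B κ : ℝ} (hB0 : 0 < B) (hBS : B ≤ S.card) (hB : ∀ q ∈ Q, ∀ m, (cs S (kill q m) : ℝ) ≤ B)
    (hκ : ∀ q ∈ Q, ∀ T ∈ S, (cs (range q) (fun m => kill q m T) : ℝ) ≤ κ) (r : ℕ) :
    ∑ m ∈ range (∏ q ∈ Q, q), ((cs S (fun T => ∀ q ∈ Q, ¬ kill q m T) : ℝ) -
      ∑ T ∈ S, ∏ q ∈ Q, (1 - (cs (range q) (fun m => kill q m T) : ℝ) / q)) ^ (2 * r) ≤
    ((∏ q ∈ Q, q : ℕ) : ℝ) * ((2 * r).factorial * (B * S.card) ^ r *
      Real.exp (κ * ∑ q ∈ Q, 1 / (q : ℝ))) := by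
  set n : ℝ := (S.card : ℝ) with hn
  have hn0 : 0 < n := lt_of_lt_of_le hB0 hBS
  have hBn : 0 < B * n := mul_pos hB0 hn0
  set s : ℝ := Real.sqrt (B * n) with hs
  have hs0 : 0 < s := Real.sqrt_pos.2 hBn
  have hs2 : s ^ 2 = B * n := Real.sq_sqrt hBn.le
  have hBs : B ≤ s := by
    rw [hs]
    refine Real.le_sqrt_of_sq_le ?_
    nlinarith
  set X : ℕ → ℝ := fun m => (cs S (fun T => ∀ q ∈ Q, ¬ kill q m T) : ℝ) -
      ∑ T ∈ S, ∏ q ∈ Q, (1 - (cs (range q) (fun m => kill q m T) : ℝ) / q) with hX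
  set M : ℝ := ((∏ q ∈ Q, q : ℕ) : ℝ) with hM
  set E : ℝ := Real.exp (κ * ∑ q ∈ Q, 1 / (q : ℝ)) with hE
  have hmgf : ∀ lb : ℝ, lb ^ 2 * (B * n) = 1 → |lb| * B ≤ 1 →
      ∑ m ∈ range (∏ q ∈ Q, q), Real.exp (lb * X m) ≤ M * E := by
    intro lb h1 h2
    have h := mgf Q hQ S kill hper hB0.le hB hκ (fun _ => (1 : ℝ))
      (fun T _ => ⟨zero_le_one, le_refl _⟩) h2
    have e1 : ∀ m, ∑ T ∈ sel S (fun T => ∀ q ∈ Q, ¬ kill q m T), (1 : ℝ) =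
        (cs S (fun T => ∀ q ∈ Q, ¬ kill q m T) : ℝ) := by
      intro m
      rw [sum_const, nsmul_eq_mul, mul_one]
      rfl
    have e2 : lb ^ 2 * B * S.card * κ * ∑ q ∈ Q, 1 / (q : ℝ) = κ * ∑ q ∈ Q, 1 / (q : ℝ) := by
      have : lb ^ 2 * B * S.card = 1 := by rw [mul_assoc, ← hn]; exact h1
      rw [this, one_mul]
    rw [e2] at h
    simp only [e1, one_mul] at h
    exact h
  have hinv : (s⁻¹) ^ 2 * (B * n) = 1 := by
    rw [← hs2]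
    field_simp
  have hab : |s⁻¹| * B ≤ 1 := by
    rw [abs_of_pos (inv_pos.2 hs0), inv_mul_le_iff₀ hs0, mul_one]
    exact hBs
  have h1 := hmgf s⁻¹ hinv hab
  have h2 := hmgf (-s⁻¹) (by rw [neg_sq]; exact hinv) (by rw [abs_neg]; exact hab)
  have hterm : ∀ m ∈ range (∏ q ∈ Q, q), X m ^ (2 * r) ≤ (2 * r).factorial * (B * n) ^ r *
      ((Real.exp (s⁻¹ * X m) + Real.exp (-s⁻¹ * X m)) / 2) := by
    intro m _
    have h3 := mom_cosh (s⁻¹ * X m) r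
    rw [Real.cosh_eq] at h3
    have h4 : X m ^ (2 * r) = (B * n) ^ r * (s⁻¹ * X m) ^ (2 * r) := by
      rw [← hs2, ← pow_mul, ← mul_pow]
      congr 1
      field_simp
    rw [h4, mul_comm ((2 * r).factorial : ℝ), mul_assoc]
    refine mul_le_mul_of_nonneg_left ?_ (pow_nonneg hBn.le r)
    rw [neg_mul]
    exact h3
  refine (sum_le_sum hterm).trans ?_
  rw [← mul_sum]
  have h5 : ∑ m ∈ range (∏ q ∈ Q, q), (Real.exp (s⁻¹ * X m) + Real.exp (-s⁻¹ * X m)) / 2 ≤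
      M * E := by
    rw [← sum_div, sum_add_distrib]
    linarith
  have h6 : 0 ≤ ((2 * r).factorial : ℝ) * (B * n) ^ r := by positivity
  refine (mul_le_mul_of_nonneg_left h5 h6).trans (le_of_eq ?_)
  ring

end Pool.Agent.H17.RP
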