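import Pool.Agent.H17.RP.Surv
import Pool.Agent.H17.RP.Rare

/-!
# TypeS: a good `D` with no surviving subset product is rare

`P ⊆ med g t`, `K p` periodic modulo `p` with at most two classes, `D(m) = {p ∈ P : K p m}`.  `Q` a set
of primes in `(t, 2^t]`; for every `D ⊆ P` with `𝓖 D` a nonempty family `S D` and killing relations
`kill q m T`, periodic in `m` modulo `q`, at most four classes for every `T`, every class kills at most
`|S D|/t^20` elements of `S D`.  Then at most `N/t^C` of the `m < N` (`N^4 ≥ A^3`) are such that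
`𝓖 (D(m))` and all `T ∈ S (D(m))` are killed.

Proof. By `rare` (`h = 8`) we may assume `|D(m)| < t/8`.  Fix `D ⊆ P`, `𝓖 D`, `|D| < t/8`,
`d = ∏ D ≤ A^(1/8)`.  The `m` with `D(m) = D` lie in at most `2^|D|` classes modulo `d` (`crt_card`),
`m = m0 + d m'`, `m' < N'`, `N/d - 1 ≤ N' ≤ N/d + 1`, so `N'² ≥ A` (`cs_class`).  `surv` (with
`C' = C + 2g + 2`) for `kill' q m' T = kill q (m0 + d m') T` (periodic; the number of classes is the same
because `q ≤ 2^t < p` does not divide `d`, so `m' ↦ m0 + d m'` is a bijection modulo `q`): at most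
`N'/t^C'` of the `m'` have no survivor (`0 < |S D|/t^10`).  Total
`≤ Σ_D 2^|D| (N/d + 1)/t^C' ≤ (2N/t^C') ∏_(p∈P) (1 + 2/p) ≤ 2 N t^(2g - C')` (`med_up`; `d ≤ N`).
-/

set_option autoImplicit false

namespace Pool.Agent.H17.RP

open Finset

private theorem ts_per_mul {K : ℕ → Prop} {q : ℕ} (h : ∀ m, K (m + q) ↔ K m) (m k : ℕ) :
    K (m + q * k) ↔ K m := by
  induction k with
  | zero => simp
  | succ k ih => rw [Nat.mul_succ, ← Nat.add_assoc, h, ih]

private theorem ts_per_mod {K : ℕ → Prop} {q : ℕ} (h : ∀ m, K (m + q) ↔ K m) (m : ℕ) :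
    K (m % q) ↔ K m := by
  have := ts_per_mul h (m % q) (m / q)
  rw [Nat.mod_add_div] at this
  exact this.symm

private theorem cs_affine {K : ℕ → Prop} {q d r : ℕ} (hq : 0 < q) (hc : Nat.Coprime q d)
    (h : ∀ m, K (m + q) ↔ K m) :
    cs (range q) (fun m => K (r + d * m)) ≤ cs (range q) K := by
  unfold cs
  refine card_le_card_of_injOn (fun m => (r + d * m) % q) ?_ ?_
  · intro m hm
    rw [mem_coe, mem_sel] at hm ⊢
    exact ⟨mem_range.2 (Nat.mod_lt _ hq), (ts_per_mod h _).2 hm.2⟩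
  · intro a ha b hb hab
    rw [mem_coe, mem_sel, mem_range] at ha hb
    have h1 : r + d * a ≡ r + d * b [MOD q] := hab
    have h2 : d * a ≡ d * b [MOD q] := Nat.ModEq.add_left_cancel' r h1
    have h3 : a ≡ b [MOD q] := Nat.ModEq.cancel_left_of_coprime hc h2
    exact Nat.ModEq.eq_of_lt_of_lt h3 ha.1 hb.1

private theorem cs_zero {ι : Type} {S : Finset ι} {P : ι → Prop} (h : ∀ x ∈ S, ¬ P x) :
    cs S P = 0 := by
  unfold cs
  rw [card_eq_zero, eq_empty_iff_forall_notMem]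
  intro x hx
  rw [mem_sel] at hx
  exact h x hx.1 hx.2

private theorem fixD (N d X : ℕ) (hd : 0 < d) (R : ℕ → Prop) (B : ℕ → Prop)
    (hper : ∀ r m, R (r + d * m) ↔ R r)
    (hB : ∀ r < d, R r → cs (range ((N + d - 1 - r) / d)) (fun m => B (r + d * m)) * X ≤
      (N + d - 1 - r) / d) :
    cs (range N) (fun m => R m ∧ B m) * X ≤ cs (range d) R * (N / d + 1) := by
  classical
  have h1 : cs (range N) (fun m => R m ∧ B m) ≤
      ∑ r ∈ range d, cs (range N) (fun m => m % d = r ∧ (R m ∧ B m)) := by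
    refine le_trans (cs_mono fun m _ hm => ?_)
      (cs_exists (range N) (range d) (fun r m => m % d = r ∧ (R m ∧ B m)))
    exact ⟨m % d, mem_range.2 (Nat.mod_lt _ hd), rfl, hm⟩
  have h2 : ∀ r ∈ range d, cs (range N) (fun m => m % d = r ∧ (R m ∧ B m)) * X ≤
      (if R r then 1 else 0) * (N / d + 1) := by
    intro r hr
    rw [mem_range] at hr
    rw [cs_class N d r hd hr]
    split_ifs with hR
    · rw [one_mul]
      have h3 : cs (range ((N + d - 1 - r) / d)) (fun m => R (r + d * m) ∧ B (r + d * m)) ≤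
          cs (range ((N + d - 1 - r) / d)) (fun m => B (r + d * m)) :=
        cs_mono fun m _ hm => hm.2
      calc _ ≤ cs (range ((N + d - 1 - r) / d)) (fun m => B (r + d * m)) * X :=
            Nat.mul_le_mul_right _ h3
        _ ≤ (N + d - 1 - r) / d := hB r hr hR
        _ ≤ (N + d) / d := Nat.div_le_div_right (by omega)
        _ = N / d + 1 := Nat.add_div_right N hd
    · rw [cs_zero, zero_mul, zero_mul]
      intro m _ hm
      exact hR ((hper r m).1 hm.1)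
  calc cs (range N) (fun m => R m ∧ B m) * X
      ≤ (∑ r ∈ range d, cs (range N) (fun m => m % d = r ∧ (R m ∧ B m))) * X :=
        Nat.mul_le_mul_right _ h1
    _ = ∑ r ∈ range d, cs (range N) (fun m => m % d = r ∧ (R m ∧ B m)) * X := sum_mul _ _ _
    _ ≤ ∑ r ∈ range d, (if R r then 1 else 0) * (N / d + 1) := sum_le_sum h2
    _ = cs (range d) R * (N / d + 1) := by rw [← sum_mul, cs_eq_sum]

private theorem size_ok {A N d : ℕ} (hA : 256 ≤ A) (hd : d ^ 8 ≤ A) (hd0 : 0 < d)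
    (hN : A ^ 3 ≤ N ^ 4) : A ≤ (N / d) ^ 2 ∧ d ≤ N := by
  have hN8 : A ^ 6 ≤ N ^ 8 := by
    calc A ^ 6 = (A ^ 3) ^ 2 := by ring
      _ ≤ (N ^ 4) ^ 2 := Nat.pow_le_pow_left hN 2
      _ = N ^ 8 := by ring
  constructor
  · by_contra hlt
    push Not at hlt
    set n := N / d with hn
    have h1 : N < d * (n + 1) := Nat.lt_mul_div_succ N hd0
    have h3 : A ^ 6 ≤ A * (n + 1) ^ 8 := by
      calc A ^ 6 ≤ N ^ 8 := hN8
        _ ≤ (d * (n + 1)) ^ 8 := Nat.pow_le_pow_left h1.le 8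
        _ = d ^ 8 * (n + 1) ^ 8 := by rw [mul_pow]
        _ ≤ A * (n + 1) ^ 8 := Nat.mul_le_mul_right _ hd
    have hA0 : 0 < A := by omega
    rcases Nat.eq_zero_or_pos n with h0 | h0
    · rw [h0] at h3
      have h4 : A ^ 1 < A ^ 6 := Nat.pow_lt_pow_right (by omega) (by norm_num)
      simp at h3 h4
      omega
    · have h4 : (n + 1) ^ 8 ≤ 256 * (n ^ 2) ^ 4 := by
        calc (n + 1) ^ 8 ≤ (2 * n) ^ 8 := Nat.pow_le_pow_left (by omega) 8
          _ = 256 * (n ^ 2) ^ 4 := by ring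
      have h5 : (n ^ 2) ^ 4 < A ^ 4 := Nat.pow_lt_pow_left hlt (by norm_num)
      have h6 : 256 * (n ^ 2) ^ 4 < A * A ^ 4 := by
        calc 256 * (n ^ 2) ^ 4 < 256 * A ^ 4 := Nat.mul_lt_mul_of_pos_left h5 (by norm_num)
          _ ≤ A * A ^ 4 := Nat.mul_le_mul_right _ hA
      have h7 : A * (n + 1) ^ 8 < A * (A * A ^ 4) :=
        Nat.mul_lt_mul_of_pos_left (h4.trans_lt h6) hA0
      have h8 : A * (A * A ^ 4) = A ^ 6 := by ring
      omega
  · have h2 : d ^ 8 ≤ N ^ 8 := by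
      calc d ^ 8 ≤ A := hd
        _ = A ^ 1 := by ring
        _ ≤ A ^ 6 := Nat.pow_le_pow_right (by omega) (by norm_num)
        _ ≤ N ^ 8 := hN8
    exact (Nat.pow_le_pow_iff_left (by norm_num)).1 h2

theorem typeS (g C : ℕ) (hg : 1 ≤ g) : ∃ t0 : ℕ, ∀ t ≥ t0, ∀ P ⊆ med g t,
    ∀ K : ℕ → ℕ → Prop, (∀ p ∈ P, ∀ m, K p (m + p) ↔ K p m) →
    (∀ p ∈ P, cs (range p) (K p) ≤ 2) →
    ∀ (Q : Finset ℕ) (S : Finset ℕ → Finset (Finset ℕ)) (kill : ℕ → ℕ → Finset ℕ → Prop)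
      (𝓖 : Finset ℕ → Prop),
    (∀ q ∈ Q, q.Prime ∧ t < q ∧ q ≤ 2 ^ t) →
    (∀ D ⊆ P, 𝓖 D → (S D).Nonempty) →
    (∀ D ⊆ P, 𝓖 D → ∀ q ∈ Q, ∀ m, ∀ T ∈ S D, (kill q (m + q) T ↔ kill q m T)) →
    (∀ D ⊆ P, 𝓖 D → ∀ q ∈ Q, ∀ T ∈ S D, cs (range q) (fun m => kill q m T) ≤ 4) →
    (∀ D ⊆ P, 𝓖 D → ∀ q ∈ Q, ∀ m, cs (S D) (kill q m) * t ^ 20 ≤ (S D).card) →
    ∀ N : ℕ, AA g t ^ 3 ≤ N ^ 4 →
    cs (range N) (fun m => 𝓖 (sel P (fun p => K p m)) ∧
      ∀ T ∈ S (sel P (fun p => K p m)), ∃ q ∈ Q, kill q m T) * t ^ C ≤ N := by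
  obtain ⟨t1, ht1⟩ := rare g 8 (C + 1) hg (by norm_num)
  obtain ⟨t2, ht2⟩ := surv g (C + 2 * g + 2) hg
  obtain ⟨t3, ht3⟩ := med_up g hg
  refine ⟨t1 + t2 + t3 + 2, ?_⟩
  intro t ht P hP K hK hK2 Q S kill 𝓖 hQ hSne hper h4 hkill N hN
  have a1 := ht1 t (by omega) P hP K hK hK2 N hN
  have a2 := ht2 t (by omega)
  have a3 := ht3 t (by omega)
  have ht2' : 2 ≤ t := by omega
  set X := t ^ (C + 2 * g + 2) with hX
  -- the size of A
  have hA256 : 256 ≤ AA g t := by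
    unfold AA
    have h1 : 8 ≤ t ^ (4 * g) := by
      calc 8 ≤ 2 ^ 4 := by norm_num
        _ ≤ t ^ 4 := Nat.pow_le_pow_left ht2' 4
        _ ≤ t ^ (4 * g) := Nat.pow_le_pow_right (by omega) (by omega)
    calc 256 = 2 ^ 8 := by norm_num
      _ ≤ 2 ^ (t ^ (4 * g)) := Nat.pow_le_pow_right (by norm_num) h1
  -- properties of the primes in P
  have hPp : ∀ p ∈ P, p.Prime ∧ 2 ^ t < p ∧ p ≤ 2 ^ (t ^ (4 * g - 1)) := by
    intro p hp
    obtain ⟨⟨b1, b2⟩, b3, _⟩ := mem_med.1 (hP hp)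
    refine ⟨b3, lt_of_le_of_lt ?_ b1, b2⟩
    refine Nat.pow_le_pow_right (by norm_num) ?_
    calc t = t ^ 1 := (pow_one t).symm
      _ ≤ t ^ (2 * g) := Nat.pow_le_pow_right (by omega) (by omega)
  -- one set D
  have hone : ∀ D ∈ sel P.powerset (fun D => 𝓖 D ∧ 8 * D.card < t),
      (cs (range N) (fun m => (∀ p ∈ D, K p m) ∧ ∀ T ∈ S D, ∃ q ∈ Q, kill q m T) : ℝ) * X ≤
        2 * N * ∏ p ∈ D, (2 / (p : ℝ)) := by
    intro D hD
    obtain ⟨hD1, hD2, hD3⟩ := mem_sel.1 hD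
    have hDP : D ⊆ P := mem_powerset.1 hD1
    set d := ∏ p ∈ D, p with hd
    have hd0 : 0 < d := prod_pos fun p hp => (hPp p (hDP hp)).1.pos
    have hd8 : d ^ 8 ≤ AA g t := by
      have h1 : d ≤ (2 ^ (t ^ (4 * g - 1))) ^ D.card := by
        rw [hd]
        exact prod_le_pow_card _ _ _ fun p hp => (hPp p (hDP hp)).2.2
      calc d ^ 8 ≤ ((2 ^ (t ^ (4 * g - 1))) ^ D.card) ^ 8 := Nat.pow_le_pow_left h1 8
        _ = 2 ^ (t ^ (4 * g - 1) * (8 * D.card)) := by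
            rw [← pow_mul, ← pow_mul]; congr 1; ring
        _ ≤ 2 ^ (t ^ (4 * g - 1) * t) :=
            Nat.pow_le_pow_right (by norm_num) (Nat.mul_le_mul_left _ hD3.le)
        _ = AA g t := by
            unfold AA
            rw [← pow_succ]
            congr 2
            omega
    obtain ⟨hn1, hn2⟩ := size_ok hA256 hd8 hd0 hN
    have hdvd : ∀ p ∈ D, ∀ r m, K p (r + d * m) ↔ K p r := by
      intro p hp r m
      obtain ⟨e, he⟩ := dvd_prod_of_mem (fun p : ℕ => p) hp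
      have he' : d = p * e := he
      rw [he', mul_assoc]
      exact ts_per_mul (hK p (hDP hp)) r _
    have h1 := fixD N d X hd0 (fun m => ∀ p ∈ D, K p m) (fun m => ∀ T ∈ S D, ∃ q ∈ Q, kill q m T)
      (fun r m => ⟨fun h p hp => (hdvd p hp r m).1 (h p hp),
        fun h p hp => (hdvd p hp r m).2 (h p hp)⟩) (by
      intro r hr _
      have hcop : ∀ q ∈ Q, Nat.Coprime q d := by
        intro q hq
        rw [hd]
        refine Nat.Coprime.prod_right fun p hp => ?_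
        refine (Nat.coprime_primes (hQ q hq).1 (hPp p (hDP hp)).1).2 ?_
        have := (hQ q hq).2.2
        have := (hPp p (hDP hp)).2.1
        omega
      have h2 := a2 (Finset ℕ) (S D) Q (fun q m T => kill q (r + d * m) T) (hSne D hDP hD2) hQ
        (fun q hq m T hT => by
          have h3 := ts_per_mul (K := fun m => kill q m T) (fun m => hper D hDP hD2 q hq m T hT)
            (r + d * m) d
          have h4 : r + d * (m + q) = r + d * m + q * d := by ring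
          show kill q (r + d * (m + q)) T ↔ kill q (r + d * m) T
          rw [h4]
          exact h3)
        (fun q hq T hT => (cs_affine (K := fun m => kill q m T) (hQ q hq).1.pos (hcop q hq)
          (fun m => hper D hDP hD2 q hq m T hT)).trans (h4 D hDP hD2 q hq T hT))
        (fun q hq m => hkill D hDP hD2 q hq (r + d * m))
        ((N + d - 1 - r) / d) (hn1.trans (Nat.pow_le_pow_left
          (Nat.div_le_div_right (by omega)) 2))
      refine le_trans (Nat.mul_le_mul_right _ (cs_mono fun m _ hm => ?_)) h2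
      rw [cs_zero, zero_mul]
      · exact (hSne D hDP hD2).card_pos
      · intro T hT hall
        obtain ⟨q, hq, hk⟩ := hm T hT
        exact hall q hq hk)
    have h5 : cs (range d) (fun r => ∀ p ∈ D, K p r) ≤ 2 ^ D.card := by
      rw [hd, crt_card D (fun p hp => (hPp p (hDP hp)).1) K (fun p hp => hK p (hDP hp))]
      exact prod_le_pow_card _ _ _ fun p hp => hK2 p (hDP hp)
    have h6 : (cs (range N) (fun m => (∀ p ∈ D, K p m) ∧ ∀ T ∈ S D, ∃ q ∈ Q, kill q m T) : ℝ) * X ≤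
        2 ^ D.card * ((N / d : ℕ) + 1) := by
      exact_mod_cast h1.trans (Nat.mul_le_mul_right _ h5)
    have h7 : (((N / d : ℕ) : ℝ) + 1) ≤ 2 * (N / (d : ℝ)) := by
      have hd0' : (0 : ℝ) < d := by exact_mod_cast hd0
      have h8 : ((N / d : ℕ) : ℝ) ≤ N / (d : ℝ) := Nat.cast_div_le
      have h9 : (1 : ℝ) ≤ N / (d : ℝ) := by
        rw [le_div_iff₀ hd0', one_mul]
        exact_mod_cast hn2
      linarith
    have h10 : ∏ p ∈ D, (2 / (p : ℝ)) = 2 ^ D.card / (d : ℝ) := by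
      rw [prod_div_distrib, prod_const, hd]
      push_cast
      rfl
    rw [h10]
    calc _ ≤ 2 ^ D.card * (((N / d : ℕ) : ℝ) + 1) := h6
      _ ≤ 2 ^ D.card * (2 * (N / (d : ℝ))) := mul_le_mul_of_nonneg_left h7 (by positivity)
      _ = 2 * N * (2 ^ D.card / (d : ℝ)) := by ring
  -- the sum over all D
  have hT0 : (0 : ℝ) < t := by exact_mod_cast (by omega : 0 < t)
  have hT2 : (2 : ℝ) ≤ t := by exact_mod_cast ht2'
  have hN0 : (0 : ℝ) ≤ N := Nat.cast_nonneg N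
  have hprod : ∏ p ∈ P, (1 + 2 / (p : ℝ)) ≤ (t : ℝ) ^ (2 * g) := by
    have h1 : ∏ p ∈ P, (1 + 2 / (p : ℝ)) ≤ ∏ p ∈ P, Real.exp (2 * (1 / (p : ℝ))) := by
      refine prod_le_prod (fun p _ => by positivity) fun p _ => ?_
      have := Real.add_one_le_exp (2 * (1 / (p : ℝ)))
      rw [mul_one_div] at this ⊢
      linarith
    refine h1.trans ?_
    rw [← Real.exp_sum, ← mul_sum]
    have h2 : ∑ p ∈ P, 1 / (p : ℝ) ≤ ∑ p ∈ med g t, 1 / (p : ℝ) :=
      sum_le_sum_of_subset_of_nonneg hP fun p _ _ => by positivity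
    have h3 : (t : ℝ) ^ (2 * g) = Real.exp (((2 * g : ℕ) : ℝ) * Real.log t) := by
      rw [← Real.log_pow, Real.exp_log (by positivity)]
    rw [h3]
    apply Real.exp_le_exp.2
    push_cast
    linarith
  have hsumD : ∑ D ∈ sel P.powerset (fun D => 𝓖 D ∧ 8 * D.card < t),
      (cs (range N) (fun m => (∀ p ∈ D, K p m) ∧ ∀ T ∈ S D, ∃ q ∈ Q, kill q m T) : ℝ) * X ≤
        2 * N * (t : ℝ) ^ (2 * g) := by
    refine (sum_le_sum hone).trans ?_
    rw [← mul_sum]
    refine mul_le_mul_of_nonneg_left ?_ (by positivity)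
    refine le_trans (sum_le_sum_of_subset_of_nonneg (sel_subset _ _) fun D _ _ =>
      prod_nonneg fun p _ => by positivity) ?_
    refine le_trans (le_of_eq ?_) hprod
    rw [prod_one_add]
  -- the splitting
  have hsplit : cs (range N) (fun m => 𝓖 (sel P (fun p => K p m)) ∧
      ∀ T ∈ S (sel P (fun p => K p m)), ∃ q ∈ Q, kill q m T) ≤
      cs (range N) (fun m => t ≤ 8 * cs P (fun p => K p m)) +
      ∑ D ∈ sel P.powerset (fun D => 𝓖 D ∧ 8 * D.card < t),
        cs (range N) (fun m => (∀ p ∈ D, K p m) ∧ ∀ T ∈ S D, ∃ q ∈ Q, kill q m T) := by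
    refine le_trans (cs_mono (Q := fun m => (t ≤ 8 * cs P (fun p => K p m)) ∨
      ∃ D ∈ sel P.powerset (fun D => 𝓖 D ∧ 8 * D.card < t),
        (∀ p ∈ D, K p m) ∧ ∀ T ∈ S D, ∃ q ∈ Q, kill q m T) fun m _ hm => ?_) ?_
    · by_cases h1 : t ≤ 8 * cs P (fun p => K p m)
      · exact Or.inl h1
      · refine Or.inr ⟨sel P (fun p => K p m), mem_sel.2 ⟨mem_powerset.2 (sel_subset _ _), hm.1, ?_⟩,
          fun p hp => (mem_sel.1 hp).2, hm.2⟩
        exact not_le.1 h1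
    · refine (cs_or _ _ _).trans (Nat.add_le_add_left ?_ _)
      exact cs_exists (range N) _
        (fun D m => (∀ p ∈ D, K p m) ∧ ∀ T ∈ S D, ∃ q ∈ Q, kill q m T)
  -- the end
  set M := cs (range N) (fun m => 𝓖 (sel P (fun p => K p m)) ∧
      ∀ T ∈ S (sel P (fun p => K p m)), ∃ q ∈ Q, kill q m T) with hM
  set M1 := cs (range N) (fun m => t ≤ 8 * cs P (fun p => K p m)) with hM1
  have hs2 : (M : ℝ) ≤ M1 + ∑ D ∈ sel P.powerset (fun D => 𝓖 D ∧ 8 * D.card < t),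
      (cs (range N) (fun m => (∀ p ∈ D, K p m) ∧ ∀ T ∈ S D, ∃ q ∈ Q, kill q m T) : ℝ) := by
    exact_mod_cast hsplit
  set SS := ∑ D ∈ sel P.powerset (fun D => 𝓖 D ∧ 8 * D.card < t),
      (cs (range N) (fun m => (∀ p ∈ D, K p m) ∧ ∀ T ∈ S D, ∃ q ∈ Q, kill q m T) : ℝ) with hSS
  have hs3 : SS * X ≤ 2 * N * (t : ℝ) ^ (2 * g) := by
    rw [hSS, sum_mul]
    exact hsumD
  have hX' : (X : ℝ) = (t : ℝ) ^ C * (t : ℝ) ^ 2 * (t : ℝ) ^ (2 * g) := by
    rw [hX]; push_cast; ring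
  have hs4 : SS * (t : ℝ) ^ C ≤ N / 2 := by
    have h1 : (SS * (t : ℝ) ^ C * (t : ℝ) ^ 2) * (t : ℝ) ^ (2 * g) ≤
        (2 * N) * (t : ℝ) ^ (2 * g) := by
      calc _ = SS * X := by rw [hX']; ring
        _ ≤ _ := hs3
    have h2 := le_of_mul_le_mul_right h1 (by positivity)
    have h3 : 0 ≤ SS * (t : ℝ) ^ C := by
      refine mul_nonneg ?_ (by positivity)
      rw [hSS]
      exact sum_nonneg fun _ _ => Nat.cast_nonneg _
    have h4' : (4 : ℝ) ≤ (t : ℝ) ^ 2 := by nlinarith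
    have h5' := mul_le_mul_of_nonneg_left h4' h3
    linarith
  have hs5 : (M1 : ℝ) * (t : ℝ) ^ C ≤ N / 2 := by
    have h1 : (M1 : ℝ) * (t : ℝ) ^ (C + 1) ≤ N := by exact_mod_cast a1
    rw [pow_succ] at h1
    have h2 : 0 ≤ (M1 : ℝ) * (t : ℝ) ^ C := by positivity
    nlinarith
  have hfin : (M : ℝ) * (t : ℝ) ^ C ≤ N := by
    have h1 := mul_le_mul_of_nonneg_right hs2 (by positivity : (0 : ℝ) ≤ (t : ℝ) ^ C)
    linarith
  exact_mod_cast hfin

end Pool.Agent.H17.RP
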