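import Pool.Agent.H17.RP.LemF
import Pool.Agent.H17.RP.Kill
import Pool.Agent.H17.RP.Exc
import Pool.Agent.H17.RP.TypeS

/-!
# Pair: one pair of vectors in a residue class

`B = 2 c2 + 2`, `e` given, `e1, e3` from `lemF 24 B e`.  `n = n0 + W' m`,
`D(m) = {p ∈ P : p ∣ Nm (sh n w')}`.  Under `Hyp` the number of `m < N` such that `sh n w`, `sh n w'` are
rough, their Liouville values are different, `8 |D(m)| < t` and `D(m)` satisfies `Unif` and `Anti`, is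
at most `N/t^C`.

Proof. Let `σ = sg (sh n0 w) sg (sh n0 w')` (the same for all `n`: `3 ∣ W'`, `sg_sh`),
`a(n) = σ cc (sh n w) (sh n w')`, `b = σ dt w w'` (`dt_sh`), `S D = Sd D (a(n0)) b W`; because
`3 b W ∣ W' ∣ a(n) - a(n0)` (`kill_mod`) also `S D = Sd D (a(n)) b W` (`Sd_congr`).
If no `m < N` has the event we are done.  Otherwise for one (so any) `n` in the class both vectors are
rough, `F (a(n)) b = Nm (sh n w) Nm (sh n w')` (`F_cc_dt`) is rough, so prime to `W` (prime factors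
`≤ t^B ≤ 2^t`), `a(n) % 3 = 1` (`a_mod`, `three_dvd`), `a(n)` is prime to `3 b` (`ab_coprime`), and these
facts depend on `n` modulo `3 b W` only.  So by `lemF` for every `D ⊆ P` with `Unif`, `Anti`:
`Good t (a(n0)) b W D` (the elements of `P` are primes `= 1 mod 3`, `> 2^(t^(2g)) ≥ 2^t`).
Let `Q` = primes in `(t^24, 2^t]` which do not divide `W`; `kill q m T : q ∣ fk ((a(n) - prd T)/(3b))`,
`n = n0 + W' m`.  The hypotheses of `typeS`: `K p m : p ∣ Nm (sh n w')` is periodic (`root_per`) with at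
most two classes (`root_two`; `p ∤ w'.2`, `p ∤ W'` because prime factors of `W'` divide `W` and are
`≤ t^B < p`); `kill_per`, `kill_four` (`q ∤ W'`), and by `kill_two` and `Good` every class kills at most
`2 |S D|/t^21 ≤ |S D|/t^20`.
Now let `m` have the event and suppose some `T ∈ S (D(m))` is not killed.  Then
`fk ((a(n) - d)/(3b))`, `d = prd T`, is rough: primes `q ∣ W` are excluded by `Sd`, the others are
`> t^24`, so in `Q` if `≤ 2^t`.  `d ∣ Nm (sh n w')`, `d ≤ 2^(t^(4g-1) t/8) ≤ A^(1/8)`, `cc ≥ A` (all terms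
are nonnegative, `w.1 + n w.2 ≥ 1`, `w'.2 ≥ 1`, `n ≥ A`), `cc ≤ A^17`.  `cert_eq2` with `K1 = 2^t`,
`K2 = A^100`, `Y = 2^t` gives `lam (Nm (sh n w)) = lam (Nm (sh n w'))`, contradiction, unless the
certificate is exceptional, which happens for at most `12 |E| A^(1/8)` values of `m` (`exc_count`).  So
for each other such `m` the event of `typeS` holds.
-/

set_option autoImplicit false

namespace Pool.Agent.H17.RP

open Finset

theorem Sd_congr {D : Finset ℕ} {a a' b : ℤ} {W : ℕ} (hb : b ≠ 0) (h : 3 * b * W ∣ a - a') :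
    Sd D a b W = Sd D a' b W := by
  obtain ⟨k, hk⟩ := h
  have hB : 3 * b ≠ 0 := mul_ne_zero (by norm_num) hb
  ext T
  unfold Sd
  rw [mem_sel, mem_sel]
  have e : a - (prd T : ℤ) = (a' - (prd T : ℤ)) + 3 * b * (W * k) := by linear_combination hk
  have h1 : 3 * b ∣ a - (prd T : ℤ) ↔ 3 * b ∣ a' - (prd T : ℤ) := by
    rw [e]
    exact dvd_add_left (Dvd.intro _ rfl)
  have h2 : (a - (prd T : ℤ)) / (3 * b) = (a' - (prd T : ℤ)) / (3 * b) + W * k := by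
    rw [e, Int.add_mul_ediv_left _ _ hB]
  have h3 : ∀ q : ℕ, q ∣ W → ((q : ℤ) ∣ fk ((a - (prd T : ℤ)) / (3 * b)) ↔
      (q : ℤ) ∣ fk ((a' - (prd T : ℤ)) / (3 * b))) := by
    intro q hq
    obtain ⟨j, hj⟩ := hq
    rw [h2, hj]
    have e2 : ((q * j : ℕ) : ℤ) * k = (q : ℤ) * (j * k) := by push_cast; ring
    rw [e2]
    exact fk_shift _ _ _
  constructor
  · rintro ⟨hT, hd, hq⟩
    exact ⟨hT, h1.1 hd, fun q hqp hqW hc => hq q hqp hqW ((h3 q hqW).2 hc)⟩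
  · rintro ⟨hT, hd, hq⟩
    exact ⟨hT, h1.2 hd, fun q hqp hqW hc => hq q hqp hqW ((h3 q hqW).1 hc)⟩

private theorem pr_ev (c k : ℕ) : ∃ t0 : ℕ, ∀ t ≥ t0, c * t ^ k ≤ 2 ^ t := by
  have h := tendsto_pow_const_div_const_pow_of_one_lt k (r := (2 : ℝ)) (by norm_num)
  have hpos : (0 : ℝ) < 1 / ((c : ℝ) + 1) := by positivity
  have h2 : ∀ᶠ n : ℕ in Filter.atTop, (n : ℝ) ^ k / 2 ^ n < 1 / ((c : ℝ) + 1) :=
    h.eventually_lt_const hpos
  obtain ⟨t0, ht0⟩ := Filter.eventually_atTop.1 h2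
  refine ⟨t0, fun t ht => ?_⟩
  have h3 := ht0 t ht
  rw [div_lt_div_iff₀ (by positivity) (by positivity)] at h3
  have h4 : ((c * t ^ k : ℕ) : ℝ) ≤ ((2 ^ t : ℕ) : ℝ) := by
    push_cast
    have h5 : (0 : ℝ) ≤ (t : ℝ) ^ k := by positivity
    nlinarith
  exact_mod_cast h4

/-- sizes of the parameters -/
private theorem pr_size {g t : ℕ} (hg : 1 ≤ g) (ht : 100 ≤ t) :
    3 * 2 ^ t * (2 ^ t + 1) + 2 * 2 ^ (t ^ (4 * g) / 8) ≤ AA g t := by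
  have h1 : t ^ 2 ≤ t ^ (4 * g) := Nat.pow_le_pow_right (by omega) (by omega)
  have h2 : 100 * t ≤ t ^ 2 := by nlinarith
  unfold AA
  generalize t ^ (4 * g) = M at h1 ⊢
  have h3 : 2 * t + 3 ≤ M - 1 := by omega
  have h4 : M / 8 + 1 ≤ M - 1 := by omega
  have h5 : 3 * 2 ^ t * (2 ^ t + 1) ≤ 2 ^ (2 * t + 3) := by
    have h6 : 1 ≤ 2 ^ t := Nat.one_le_two_pow
    have h7 : 2 ^ (2 * t + 3) = 8 * (2 ^ t * 2 ^ t) := by
      rw [pow_add, two_mul, pow_add]; ring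
    rw [h7]
    nlinarith
  have h8 : 2 ^ (2 * t + 3) ≤ 2 ^ (M - 1) := Nat.pow_le_pow_right (by norm_num) h3
  have h9 : 2 * 2 ^ (M / 8) ≤ 2 ^ (M - 1) := by
    calc 2 * 2 ^ (M / 8) = 2 ^ (M / 8 + 1) := by rw [pow_succ]; ring
      _ ≤ 2 ^ (M - 1) := Nat.pow_le_pow_right (by norm_num) h4
  have h10 : 2 ^ M = 2 ^ (M - 1) + 2 ^ (M - 1) := by
    have : M = (M - 1) + 1 := by omega
    conv_lhs => rw [this, pow_succ]
    ring
  omega

/-- bounds for `cc` -/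
private theorem pr_cc {A : ℤ} (hA : 21 ≤ A) {w w' : ℤ × ℤ} {n : ℤ}
    (hw : 0 ≤ w.1 ∧ 0 ≤ w.2 ∧ 1 ≤ w.1 + w.2 ∧ w.1 ≤ A ^ 7 ∧ w.2 ≤ A ^ 7)
    (hw' : 0 ≤ w'.1 ∧ 1 ≤ w'.2 ∧ w'.1 ≤ A ^ 7 ∧ w'.2 ≤ A ^ 7) (h1 : A ≤ n) (h2 : n < 2 * A) :
    A ≤ cc (sh n w) (sh n w') ∧ cc (sh n w) (sh n w') ≤ A ^ 17 := by
  obtain ⟨a1, a2, a3, a4, a5⟩ := hw
  obtain ⟨b1, b2, b3, b4⟩ := hw'
  have e : cc (sh n w) (sh n w') = (w.1 + n * w.2) * (w'.1 + n * w'.2) +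
      3 * (w.1 + n * w.2) * w'.2 + 3 * w.2 * w'.2 := by
    unfold cc sh; ring
  rw [e]
  generalize w.1 = u at *
  generalize w.2 = v at *
  generalize w'.1 = u' at *
  generalize w'.2 = v' at *
  have hX1 : 1 ≤ u + n * v := by nlinarith
  have hY1 : A ≤ u' + n * v' := by nlinarith
  have hA7 : 0 ≤ A ^ 7 := by positivity
  have hX2 : u + n * v ≤ 3 * A ^ 8 := by
    have h3 : n * v ≤ 2 * A * A ^ 7 := mul_le_mul h2.le a5 a2 (by omega)
    have h4 : A ^ 7 ≤ A * A ^ 7 := by nlinarith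
    have h5 : A ^ 8 = A * A ^ 7 := by ring
    rw [h5]; nlinarith
  have hY2 : u' + n * v' ≤ 3 * A ^ 8 := by
    have h3 : n * v' ≤ 2 * A * A ^ 7 := mul_le_mul h2.le b4 (by omega) (by omega)
    have h4 : A ^ 7 ≤ A * A ^ 7 := by nlinarith
    have h5 : A ^ 8 = A * A ^ 7 := by ring
    rw [h5]; nlinarith
  generalize u + n * v = X at *
  generalize u' + n * v' = Y at *
  constructor
  · have h3 : A ≤ X * Y := by nlinarith
    have h4 : 0 ≤ 3 * X * v' := by positivity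
    have h5 : 0 ≤ 3 * v * v' := by positivity
    omega
  · have hA8 : 0 ≤ A ^ 8 := by positivity
    have h3 : X * Y ≤ (3 * A ^ 8) * (3 * A ^ 8) := mul_le_mul hX2 hY2 (by omega) (by positivity)
    have h4 : X * v' ≤ (3 * A ^ 8) * A ^ 7 := mul_le_mul hX2 b4 (by omega) (by positivity)
    have h5 : v * v' ≤ A ^ 7 * A ^ 7 := mul_le_mul a5 b4 (by omega) (by positivity)
    have h6 : A ^ 7 * A ^ 7 ≤ A ^ 16 := by
      calc A ^ 7 * A ^ 7 = A ^ 14 := by ring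
        _ ≤ A ^ 16 := pow_le_pow_right₀ (by omega) (by norm_num)
    have h7 : A ^ 8 * A ^ 7 ≤ A ^ 16 := by
      calc A ^ 8 * A ^ 7 = A ^ 15 := by ring
        _ ≤ A ^ 16 := pow_le_pow_right₀ (by omega) (by norm_num)
    have h8 : A ^ 8 * A ^ 8 = A ^ 16 := by ring
    have h9 : 21 * A ^ 16 ≤ A ^ 17 := by
      have h10 : A ^ 17 = A * A ^ 16 := by ring
      rw [h10]
      exact mul_le_mul_of_nonneg_right hA (by positivity)
    nlinarith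

/-- the number of exceptional `m` -/
private theorem pr_exc {g t : ℕ} (C : ℕ) {E : Finset ℤ} (hE : E.card ^ 2 ≤ AA g t)
    (hg : 1 ≤ g) (ht1 : 1 ≤ t) (ht : 12 ^ 8 * t ^ (8 * (C + 1)) ≤ 2 ^ t)
    {w w' : ℤ × ℤ} (hb : dt w w' ≠ 0) {W : ℕ} (hW : 0 < W) (n0 : ℤ) (N : ℕ)
    (hN : AA g t ^ 3 ≤ N ^ 4) {σ : ℤ} (hσ : σ = 1 ∨ σ = -1) :
    cs (range N) (fun m => ∃ y ∈ (Icc 1 (2 ^ (t ^ (4 * g) / 8)) : Finset ℕ) ×ˢ E, ∃ R R2 : ℤ,
      3 * (σ * dt w w') * R =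
        σ * cc (sh (n0 + W * (m : ℤ)) w) (sh (n0 + W * (m : ℤ)) w') - (y.1 : ℤ) ∧
      σ * cc (sh (n0 + W * (m : ℤ)) w) (sh (n0 + W * (m : ℤ)) w') * R + σ * dt w w' +
        3 * (σ * dt w w') * R = (y.1 : ℤ) * R2 ∧
      (R = y.2 ∨ -1 - R = y.2 ∨ R2 = y.2 ∨ -1 - R2 = y.2)) * t ^ (C + 1) ≤ N := by
  have h1 := cs_exists (range N) ((Icc 1 (2 ^ (t ^ (4 * g) / 8)) : Finset ℕ) ×ˢ E)
    (fun (y : ℕ × ℤ) (m : ℕ) => ∃ R R2 : ℤ,
      3 * (σ * dt w w') * R =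
        σ * cc (sh (n0 + W * (m : ℤ)) w) (sh (n0 + W * (m : ℤ)) w') - (y.1 : ℤ) ∧
      σ * cc (sh (n0 + W * (m : ℤ)) w) (sh (n0 + W * (m : ℤ)) w') * R + σ * dt w w' +
        3 * (σ * dt w w') * R = (y.1 : ℤ) * R2 ∧
      (R = y.2 ∨ -1 - R = y.2 ∨ R2 = y.2 ∨ -1 - R2 = y.2))
  have h2 := sum_le_card_nsmul ((Icc 1 (2 ^ (t ^ (4 * g) / 8)) : Finset ℕ) ×ˢ E)
    (fun y : ℕ × ℤ => cs (range N) (fun m => ∃ R R2 : ℤ,
      3 * (σ * dt w w') * R =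
        σ * cc (sh (n0 + W * (m : ℤ)) w) (sh (n0 + W * (m : ℤ)) w') - (y.1 : ℤ) ∧
      σ * cc (sh (n0 + W * (m : ℤ)) w) (sh (n0 + W * (m : ℤ)) w') * R + σ * dt w w' +
        3 * (σ * dt w w') * R = (y.1 : ℤ) * R2 ∧
      (R = y.2 ∨ -1 - R = y.2 ∨ R2 = y.2 ∨ -1 - R2 = y.2))) 12
    (fun y _ => exc_count hb hW n0 N hσ (y.1 : ℤ) y.2)
  rw [card_product, Nat.card_Icc, Nat.add_sub_cancel, smul_eq_mul] at h2
  have h3 := h1.trans h2
  refine le_trans (Nat.mul_le_mul_right _ h3) ?_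
  rw [← Nat.pow_le_pow_iff_left (n := 8) (by norm_num)]
  have hM : t ≤ t ^ (4 * g) := by
    calc t = t ^ 1 := (pow_one t).symm
      _ ≤ t ^ (4 * g) := Nat.pow_le_pow_right ht1 (by omega)
  have hD : (2 ^ (t ^ (4 * g) / 8)) ^ 8 ≤ AA g t := by
    rw [← pow_mul]
    unfold AA
    exact Nat.pow_le_pow_right (by norm_num) (by omega)
  have hc : 12 ^ 8 * t ^ (8 * (C + 1)) ≤ AA g t := by
    refine ht.trans ?_
    unfold AA
    exact Nat.pow_le_pow_right (by norm_num) hM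
  calc (2 ^ (t ^ (4 * g) / 8) * E.card * 12 * t ^ (C + 1)) ^ 8
      = (12 ^ 8 * t ^ (8 * (C + 1))) * (2 ^ (t ^ (4 * g) / 8)) ^ 8 * (E.card ^ 2) ^ 4 := by
        ring
    _ ≤ AA g t * AA g t * (AA g t) ^ 4 :=
        Nat.mul_le_mul (Nat.mul_le_mul hc hD) (Nat.pow_le_pow_left hE 4)
    _ = (AA g t ^ 3) ^ 2 := by ring
    _ ≤ (N ^ 4) ^ 2 := Nat.pow_le_pow_left hN 2
    _ = N ^ 8 := by ring

/-- the product of the primes in `T` divides everything divisible by all of them -/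
private theorem pr_prd_dvd {T : Finset ℕ} (hT : ∀ p ∈ T, p.Prime) {x : ℤ}
    (h : ∀ p ∈ T, (p : ℤ) ∣ x) : (prd T : ℤ) ∣ x := by
  rw [Int.natCast_dvd]
  unfold prd
  exact Finset.prod_primes_dvd _ (fun p hp => (hT p hp).prime)
    (fun p hp => Int.natCast_dvd.1 (h p hp))

/-- `prd T ≤ A^(1/8)` -/
private theorem pr_prd_le {g t : ℕ} (hg : 1 ≤ g) {T : Finset ℕ}
    (hT : ∀ p ∈ T, p ≤ 2 ^ (t ^ (4 * g - 1))) (hc : 8 * T.card < t) :
    prd T ≤ 2 ^ (t ^ (4 * g) / 8) := by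
  calc prd T ≤ (2 ^ (t ^ (4 * g - 1))) ^ T.card := prod_le_pow_card _ _ _ hT
    _ = 2 ^ (t ^ (4 * g - 1) * T.card) := by rw [← pow_mul]
    _ ≤ 2 ^ (t ^ (4 * g) / 8) := by
      refine Nat.pow_le_pow_right (by norm_num) ?_
      rw [Nat.le_div_iff_mul_le (by norm_num)]
      have h1 : t ^ (4 * g) = t ^ (4 * g - 1) * t := by
        rw [← pow_succ]; congr 1; omega
      rw [h1, mul_assoc]
      exact Nat.mul_le_mul_left _ (by omega)

theorem pairClass (c2 e : ℕ) (hc2 : 24 ≤ c2) : ∃ e1 e3 : ℕ, ∀ g ≥ 7, ∀ C : ℕ, ∃ t0 : ℕ,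
    ∀ t ≥ t0, ∀ ε : ℤ, Hyp g t ε →
    ∀ (w w' : ℤ × ℤ) (P : Finset ℕ) (W W' : ℕ) (n0 : ℤ) (N : ℕ),
    (0 ≤ w.1 ∧ 0 ≤ w.2 ∧ 1 ≤ w.1 + w.2 ∧ w.1 ≤ (AA g t : ℤ) ^ 7 ∧ w.2 ≤ (AA g t : ℤ) ^ 7) →
    (0 ≤ w'.1 ∧ 1 ≤ w'.2 ∧ w'.1 ≤ (AA g t : ℤ) ^ 7 ∧ w'.2 ≤ (AA g t : ℤ) ^ 7) →
    (dt w w' ≠ 0 ∧ |dt w w'| ≤ (t : ℤ) ^ (2 * c2 + 2)) →
    P ⊆ med g t → (∀ p ∈ P, ¬ (p : ℤ) ∣ w'.2) →
    W ≠ 0 → (∀ q : ℕ, q.Prime → q ≤ t ^ 24 → q ∣ W) →
    (∀ q : ℕ, q.Prime → (q : ℤ) ∣ dt w w' → q ∣ W) →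
    (∀ q : ℕ, q.Prime → q ∣ W → q ≤ t ^ (2 * c2 + 2)) →
    cs W.primeFactors (fun q => t ^ 24 < q) ≤ t →
    0 < W' → 3 * dt w w' * W ∣ (W' : ℤ) → (∀ q : ℕ, q.Prime → q ∣ W' → q ∣ W) →
    (AA g t : ℤ) ≤ n0 → (∀ m : ℕ, m < N → n0 + W' * m < 2 * (AA g t : ℤ)) →
    AA g t ^ 3 ≤ N ^ 4 →
    cs (range N) (fun m => Rough (2 ^ t) (Nm (sh (n0 + W' * m) w)) ∧
      Rough (2 ^ t) (Nm (sh (n0 + W' * m) w')) ∧
      lam (Nm (sh (n0 + W' * m) w')) ≠ lam (Nm (sh (n0 + W' * m) w)) ∧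
      8 * (sel P (fun p => (p : ℤ) ∣ Nm (sh (n0 + W' * m) w'))).card < t ∧
      Unif e1 e3 t (sel P (fun p => (p : ℤ) ∣ Nm (sh (n0 + W' * m) w'))) ∧
      Anti e (2 * c2 + 32) t (sel P (fun p => (p : ℤ) ∣ Nm (sh (n0 + W' * m) w')))) * t ^ C ≤ N := by
  obtain ⟨e1, e3, t1, hF⟩ := lemF 24 (2 * c2 + 2) e le_rfl (by omega)
  refine ⟨e1, e3, fun g hg C => ?_⟩
  obtain ⟨t2, hS⟩ := typeS g (C + 1) (by omega)
  obtain ⟨t3, h3⟩ := pr_ev 1 (2 * c2 + 2)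
  obtain ⟨t4, h4⟩ := pr_ev (12 ^ 8) (8 * (C + 1))
  refine ⟨t1 + t2 + t3 + t4 + 100, fun t ht ε hyp w w' P W W' n0 N hw hw' hb hP hPv hW hWs hWb hWB
    hWc hW'0 hW'd hW'W hn0 hnN hN => ?_⟩
  have hF := hF t (by omega)
  have hS := hS t (by omega) P hP
  have h3 := h3 t (by omega)
  have h4 := h4 t (by omega)
  rw [one_mul] at h3
  obtain ⟨E, hE, hyp⟩ := hyp
  obtain ⟨hb0, hbB⟩ := hb
  -- basic facts
  have ht100 : 100 ≤ t := by omega
  have hsize := pr_size (g := g) (t := t) (by omega) ht100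
  have hY3 : 3 ≤ 2 ^ t := by
    calc 3 ≤ 2 ^ 2 := by norm_num
      _ ≤ 2 ^ t := Nat.pow_le_pow_right (by norm_num) (by omega)
  have hbY : |dt w w'| ≤ ((2 ^ t : ℕ) : ℤ) := hbB.trans (by exact_mod_cast h3)
  have hPp : ∀ p ∈ P, p.Prime ∧ p % 3 = 1 ∧ 2 ^ t < p ∧ p ≤ 2 ^ (t ^ (4 * g - 1)) := by
    intro p hp
    have h5 := hP hp
    unfold med at h5
    rw [mem_sel, mem_Ioc] at h5
    refine ⟨h5.2.1, h5.2.2, lt_of_le_of_lt ?_ h5.1.1, h5.1.2⟩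
    refine Nat.pow_le_pow_right (by norm_num) ?_
    calc t = t ^ 1 := (pow_one t).symm
      _ ≤ t ^ (2 * g) := Nat.pow_le_pow_right (by omega) (by omega)
  have hWY : ∀ q : ℕ, q.Prime → q ∣ W → q ≤ 2 ^ t := fun q hq hqW => (hWB q hq hqW).trans h3
  have hPW' : ∀ p ∈ P, ¬ p ∣ W' := by
    intro p hp hd
    have h5 := hWY p (hPp p hp).1 (hW'W p (hPp p hp).1 hd)
    have h6 := (hPp p hp).2.2.1
    omega
  by_cases hex : ∃ m1 : ℕ, m1 < N ∧ Rough (2 ^ t) (Nm (sh (n0 + W' * (m1 : ℤ)) w)) ∧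
      Rough (2 ^ t) (Nm (sh (n0 + W' * (m1 : ℤ)) w'))
  swap
  · have h0 : cs (range N) (fun m => Rough (2 ^ t) (Nm (sh (n0 + W' * m) w)) ∧
      Rough (2 ^ t) (Nm (sh (n0 + W' * m) w')) ∧
      lam (Nm (sh (n0 + W' * m) w')) ≠ lam (Nm (sh (n0 + W' * m) w)) ∧
      8 * (sel P (fun p => (p : ℤ) ∣ Nm (sh (n0 + W' * m) w'))).card < t ∧
      Unif e1 e3 t (sel P (fun p => (p : ℤ) ∣ Nm (sh (n0 + W' * m) w'))) ∧
      Anti e (2 * c2 + 32) t (sel P (fun p => (p : ℤ) ∣ Nm (sh (n0 + W' * m) w')))) = 0 := by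
      unfold cs
      rw [card_eq_zero, eq_empty_iff_forall_notMem]
      intro m hm
      rw [mem_sel, mem_range] at hm
      exact hex ⟨m, hm.1, hm.2.1, hm.2.2.1⟩
    rw [h0, zero_mul]
    exact Nat.zero_le _
  obtain ⟨m1, hm1, hR1, hR1'⟩ := hex
  set n1 : ℤ := n0 + W' * (m1 : ℤ) with hn1
  set σ : ℤ := sg (sh n1 w) * sg (sh n1 w') with hσd
  have hσ : σ = 1 ∨ σ = -1 := by
    rcases sg_cases (sh n1 w) with h5 | h5 <;> rcases sg_cases (sh n1 w') with h6 | h6 <;>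
      rw [hσd, h5, h6] <;> norm_num
  have hσσ : σ * σ = 1 := by rcases hσ with h5 | h5 <;> rw [h5] <;> norm_num
  have hσ0 : σ ≠ 0 := by rcases hσ with h5 | h5 <;> rw [h5] <;> norm_num
  set b : ℤ := σ * dt w w' with hbd
  have hbne : b ≠ 0 := mul_ne_zero hσ0 hb0
  have habs : |b| = |dt w w'| := by
    rw [hbd, abs_mul]
    rcases hσ with h5 | h5 <;> rw [h5] <;> norm_num
  have hbdvd : ∀ x : ℤ, x ∣ b → x ∣ dt w w' := by
    intro x hx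
    have h5 : dt w w' = σ * b := by rw [hbd, ← mul_assoc, hσσ, one_mul]
    rw [h5]; exact hx.mul_left _
  set a : ℤ → ℤ := fun n => σ * cc (sh n w) (sh n w') with had
  -- congruences
  have hbW' : 3 * b * W ∣ (W' : ℤ) := by
    obtain ⟨k, hk⟩ := hW'd
    refine ⟨σ * k, ?_⟩
    rw [hk, hbd]
    linear_combination (-3 * dt w w' * W * k) * hσσ
  have hb3W' : 3 * b ∣ (W' : ℤ) := (Dvd.intro _ rfl).trans hbW'
  have hdiff : ∀ m m' : ℕ, 3 * b * W ∣ a (n0 + W' * (m : ℤ)) - a (n0 + W' * (m' : ℤ)) := by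
    intro m m'
    have h5 : 3 * b * W ∣ (n0 + W' * (m : ℤ)) - (n0 + W' * (m' : ℤ)) := by
      have h6 : (n0 + W' * (m : ℤ)) - (n0 + W' * (m' : ℤ)) = W' * ((m : ℤ) - m') := by ring
      rw [h6]; exact hbW'.mul_right _
    have h6 := (kill_mod (w := w) (w' := w') h5).mul_left σ
    rw [had]
    have h7 : σ * (cc (sh (n0 + W' * (m : ℤ)) w) (sh (n0 + W' * (m : ℤ)) w') -
      cc (sh (n0 + W' * (m' : ℤ)) w) (sh (n0 + W' * (m' : ℤ)) w')) =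
      σ * cc (sh (n0 + W' * (m : ℤ)) w) (sh (n0 + W' * (m : ℤ)) w') -
      σ * cc (sh (n0 + W' * (m' : ℤ)) w) (sh (n0 + W' * (m' : ℤ)) w') := by ring
    rw [h7] at h6
    exact h6
  -- the hypotheses of `lemF`
  have hn3 : ∀ x : ℤ × ℤ, Rough (2 ^ t) (Nm x) → ¬ (3 : ℤ) ∣ x.1 := by
    intro x hx h5
    have h6 := hx 3 Nat.prime_three (by exact_mod_cast (three_dvd x).2 h5)
    omega
  have ha3 : a n1 % 3 = 1 := a_mod (hn3 _ hR1) (hn3 _ hR1')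
  have hcop : IsCoprime (a n1) (3 * b) := by
    have h5 := ab_coprime hY3 hR1 hR1' (by rw [dt_sh]; exact hb0) (by rw [dt_sh]; exact hbY)
    rw [dt_sh] at h5
    have hσu : IsUnit σ := by
      rcases hσ with h6 | h6 <;> rw [h6]
      · exact isUnit_one
      · exact isUnit_one.neg
    have h6 : IsCoprime (σ * cc (sh n1 w) (sh n1 w')) (σ * (3 * dt w w')) :=
      (isCoprime_mul_unit_left_left hσu _ _).2 ((isCoprime_mul_unit_left_right hσu _ _).2 h5)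
    have h7 : 3 * b = σ * (3 * dt w w') := by rw [hbd]; ring
    rw [h7]
    exact h6
  have hFW : ∀ q : ℕ, q.Prime → q ∣ W → ¬ (q : ℤ) ∣ F (a n1) b := by
    intro q hq hqW hd
    have h5 : F (a n1) b = Nm (sh n1 w) * Nm (sh n1 w') := by
      rw [← F_cc_dt, dt_sh, had, hbd]
      rcases hσ with h6 | h6
      · rw [h6]; simp only [one_mul]
      · rw [h6]; simp only [neg_one_mul]; exact F_neg _ _
    rw [h5] at hd
    have h6 := hWY q hq hqW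
    rcases (Nat.prime_iff_prime_int.1 hq).dvd_or_dvd hd with h7 | h7
    · have := hR1 q hq h7; omega
    · have := hR1' q hq h7; omega
  have hGood : ∀ D ⊆ P, (Unif e1 e3 t D ∧ Anti e (2 * c2 + 32) t D) → Good t (a n1) b W D := by
    intro D hD hUA
    refine hF D (fun p hp => ?_) hUA.1 hUA.2 (a n1) b W ha3 hbne (by rw [habs]; exact hbB) hcop hW
      hWs (fun q hq hqb => hWb q hq (hbdvd _ hqb)) hWB hWc hFW
    have h5 := hPp p (hD hp)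
    exact ⟨h5.1, h5.2.1, h5.2.2.1⟩
  -- `typeS`
  set kill : ℕ → ℕ → Finset ℕ → Prop := fun q m T =>
    (q : ℤ) ∣ fk ((a (n0 + W' * (m : ℤ)) - (prd T : ℤ)) / (3 * b)) with hkill
  have hSm : ∀ (m : ℕ) (D : Finset ℕ), Sd D (a (n0 + W' * (m : ℤ))) b W = Sd D (a n1) b W :=
    fun m D => Sd_congr hbne (hdiff m m1)
  have key := hS (fun p m => (p : ℤ) ∣ Nm (sh (n0 + W' * (m : ℤ)) w'))
    (fun p _ m => root_per p W' n0 w' m)
    (fun p hp => (root_two (hPp p hp).1 (hPp p hp).2.1 (hPv p hp) (hPW' p hp) n0).le)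
    (sel (range (2 ^ t + 1)) (fun q => q.Prime ∧ ¬ q ∣ W))
    (fun D => Sd D (a n1) b W) kill
    (fun D => Unif e1 e3 t D ∧ Anti e (2 * c2 + 32) t D)
    (by
      intro q hq
      rw [mem_sel, mem_range] at hq
      refine ⟨hq.2.1, ?_, by omega⟩
      by_contra hcon
      push Not at hcon
      refine hq.2.2 (hWs q hq.2.1 (hcon.trans ?_))
      calc t = t ^ 1 := (pow_one t).symm
        _ ≤ t ^ 24 := Nat.pow_le_pow_right (by omega) (by norm_num))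
    (fun D hD hG => (hGood D hD hG).1)
    (by
      intro D _ _ q _ m T _
      exact kill_per (q := q) (W := W') (w := w) (w' := w') (σ := σ) hb3W' n0 (prd T : ℤ) hbne m)
    (by
      intro D hD hG q hq T hT
      rw [mem_sel] at hq
      have hqW' : ¬ q ∣ W' := fun h5 => hq.2.2 (hW'W q hq.2.1 h5)
      refine kill_four hq.2.1 hσ hb0 ((Dvd.intro _ rfl).trans hW'd) hqW' n0 (prd T : ℤ) ?_
      have h5 : T ∈ Sd D (a (n0 + W' * ((0 : ℕ) : ℤ))) b W := by rw [hSm]; exact hT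
      unfold Sd at h5
      rw [mem_sel] at h5
      have h6 := h5.2.1
      simp only [Nat.cast_zero, mul_zero, add_zero] at h6
      exact h6)
    (by
      intro D hD hG q hq m
      rw [mem_sel, mem_range] at hq
      have hqb : ¬ (q : ℤ) ∣ 3 * b := by
        intro h5
        have h6 : (q : ℤ) ∣ (W' : ℤ) := h5.trans hb3W'
        exact hq.2.2 (hW'W q hq.2.1 (by exact_mod_cast h6))
      obtain ⟨x1, x2, hx⟩ := kill_two hq.2.1 (a := a (n0 + W' * (m : ℤ))) hqb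
      have h5 : cs (Sd D (a n1) b W) (kill q m) ≤
          cs (Sd D (a n1) b W) (fun T => (q : ℤ) ∣ (prd T : ℤ) - x1) +
          cs (Sd D (a n1) b W) (fun T => (q : ℤ) ∣ (prd T : ℤ) - x2) := by
        refine (cs_mono fun T hT hk => ?_).trans (cs_or _ _ _)
        rw [← hSm m] at hT
        unfold Sd at hT
        rw [mem_sel] at hT
        exact hx _ hT.2.1 hk
      have h6 := (hGood D hD hG).2 q hq.2.1 (by omega) hq.2.2 x1
      have h7 := (hGood D hD hG).2 q hq.2.1 (by omega) hq.2.2 x2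
      have h8 : cs (Sd D (a n1) b W) (kill q m) * t ^ 20 * t ≤ (Sd D (a n1) b W).card * t := by
        calc cs (Sd D (a n1) b W) (kill q m) * t ^ 20 * t
            = cs (Sd D (a n1) b W) (kill q m) * t ^ 21 := by ring
          _ ≤ (cs (Sd D (a n1) b W) (fun T => (q : ℤ) ∣ (prd T : ℤ) - x1) +
              cs (Sd D (a n1) b W) (fun T => (q : ℤ) ∣ (prd T : ℤ) - x2)) * t ^ 21 :=
              Nat.mul_le_mul_right _ h5
          _ ≤ (Sd D (a n1) b W).card * t := by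
              rw [add_mul]
              have h9 : (Sd D (a n1) b W).card * 2 ≤ (Sd D (a n1) b W).card * t :=
                Nat.mul_le_mul_left _ (by omega)
              omega
      exact Nat.le_of_mul_le_mul_right h8 (by omega))
    N hN
  have hexc := pr_exc (g := g) (t := t) C hE (by omega) (by omega) h4 hb0 hW'0 n0 N hN hσ
  -- the event is contained in the union of the two events
  have hsub : cs (range N) (fun m => Rough (2 ^ t) (Nm (sh (n0 + W' * m) w)) ∧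
      Rough (2 ^ t) (Nm (sh (n0 + W' * m) w')) ∧
      lam (Nm (sh (n0 + W' * m) w')) ≠ lam (Nm (sh (n0 + W' * m) w)) ∧
      8 * (sel P (fun p => (p : ℤ) ∣ Nm (sh (n0 + W' * m) w'))).card < t ∧
      Unif e1 e3 t (sel P (fun p => (p : ℤ) ∣ Nm (sh (n0 + W' * m) w'))) ∧
      Anti e (2 * c2 + 32) t (sel P (fun p => (p : ℤ) ∣ Nm (sh (n0 + W' * m) w')))) ≤
      cs (range N) (fun m => (Unif e1 e3 t (sel P (fun p => (p : ℤ) ∣ Nm (sh (n0 + W' * (m : ℤ)) w'))) ∧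
        Anti e (2 * c2 + 32) t (sel P (fun p => (p : ℤ) ∣ Nm (sh (n0 + W' * (m : ℤ)) w')))) ∧
        ∀ T ∈ Sd (sel P (fun p => (p : ℤ) ∣ Nm (sh (n0 + W' * (m : ℤ)) w'))) (a n1) b W,
          ∃ q ∈ sel (range (2 ^ t + 1)) (fun q => q.Prime ∧ ¬ q ∣ W), kill q m T) +
      cs (range N) (fun m => ∃ y ∈ (Icc 1 (2 ^ (t ^ (4 * g) / 8)) : Finset ℕ) ×ˢ E, ∃ R R2 : ℤ,
        3 * (σ * dt w w') * R =
          σ * cc (sh (n0 + W' * (m : ℤ)) w) (sh (n0 + W' * (m : ℤ)) w') - (y.1 : ℤ) ∧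
        σ * cc (sh (n0 + W' * (m : ℤ)) w) (sh (n0 + W' * (m : ℤ)) w') * R + σ * dt w w' +
          3 * (σ * dt w w') * R = (y.1 : ℤ) * R2 ∧
        (R = y.2 ∨ -1 - R = y.2 ∨ R2 = y.2 ∨ -1 - R2 = y.2)) := by
    refine (cs_mono fun m hm hev => ?_).trans (cs_or (range N)
      (fun m => (Unif e1 e3 t (sel P (fun p => (p : ℤ) ∣ Nm (sh (n0 + W' * (m : ℤ)) w'))) ∧
        Anti e (2 * c2 + 32) t (sel P (fun p => (p : ℤ) ∣ Nm (sh (n0 + W' * (m : ℤ)) w')))) ∧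
        ∀ T ∈ Sd (sel P (fun p => (p : ℤ) ∣ Nm (sh (n0 + W' * (m : ℤ)) w'))) (a n1) b W,
          ∃ q ∈ sel (range (2 ^ t + 1)) (fun q => q.Prime ∧ ¬ q ∣ W), kill q m T)
      (fun m => ∃ y ∈ (Icc 1 (2 ^ (t ^ (4 * g) / 8)) : Finset ℕ) ×ˢ E, ∃ R R2 : ℤ,
        3 * (σ * dt w w') * R =
          σ * cc (sh (n0 + W' * (m : ℤ)) w) (sh (n0 + W' * (m : ℤ)) w') - (y.1 : ℤ) ∧
        σ * cc (sh (n0 + W' * (m : ℤ)) w) (sh (n0 + W' * (m : ℤ)) w') * R + σ * dt w w' +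
          3 * (σ * dt w w') * R = (y.1 : ℤ) * R2 ∧
        (R = y.2 ∨ -1 - R = y.2 ∨ R2 = y.2 ∨ -1 - R2 = y.2)))
    obtain ⟨v1, v2, v3, v4, v5, v6⟩ := hev
    rw [mem_range] at hm
    by_cases hx : ∃ y ∈ (Icc 1 (2 ^ (t ^ (4 * g) / 8)) : Finset ℕ) ×ˢ E, ∃ R R2 : ℤ,
        3 * (σ * dt w w') * R =
          σ * cc (sh (n0 + W' * (m : ℤ)) w) (sh (n0 + W' * (m : ℤ)) w') - (y.1 : ℤ) ∧
        σ * cc (sh (n0 + W' * (m : ℤ)) w) (sh (n0 + W' * (m : ℤ)) w') * R + σ * dt w w' +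
          3 * (σ * dt w w') * R = (y.1 : ℤ) * R2 ∧
        (R = y.2 ∨ -1 - R = y.2 ∨ R2 = y.2 ∨ -1 - R2 = y.2)
    · exact Or.inr hx
    left
    refine ⟨⟨v5, v6⟩, fun T hT => ?_⟩
    by_contra hcon
    push Not at hcon
    rw [← hSm m] at hT
    unfold Sd at hT
    rw [mem_sel, mem_powerset] at hT
    obtain ⟨hTD, hTd, hTW⟩ := hT
    have hTP : ∀ p ∈ T, p ∈ P ∧ (p : ℤ) ∣ Nm (sh (n0 + W' * (m : ℤ)) w') := fun p hp =>
      mem_sel.1 (hTD hp)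
    have hTprime : ∀ p ∈ T, p.Prime := fun p hp => (hPp p (hTP p hp).1).1
    have hdpos : 0 < prd T := Finset.prod_pos fun p hp => (hTprime p hp).pos
    have hdle : prd T ≤ 2 ^ (t ^ (4 * g) / 8) := by
      refine pr_prd_le (by omega) (fun p hp => (hPp p (hTP p hp).1).2.2.2) ?_
      have h5 := card_le_card hTD
      omega
    have hddvd : (prd T : ℤ) ∣ Nm (sh (n0 + W' * (m : ℤ)) w') :=
      pr_prd_dvd hTprime fun p hp => (hTP p hp).2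
    have hRr : Rough (2 ^ t) (fk ((a (n0 + W' * (m : ℤ)) - (prd T : ℤ)) / (3 * b))) := by
      intro q hq hd
      by_contra h5
      push Not at h5
      by_cases hqW : q ∣ W
      · exact hTW q hq hqW hd
      · exact hcon q (by rw [mem_sel, mem_range]; exact ⟨by omega, hq, hqW⟩) hd
    have hA21 : (21 : ℤ) ≤ (AA g t : ℤ) := by
      have h5 : 21 ≤ AA g t := by
        have h6 : 100 ≤ 2 ^ t := ht100.trans Nat.lt_two_pow_self.le
        nlinarith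
      exact_mod_cast h5
    have hnm1 : (AA g t : ℤ) ≤ n0 + W' * (m : ℤ) := by
      have h5 : (0 : ℤ) ≤ W' * (m : ℤ) := by positivity
      omega
    have hcc := pr_cc hA21 hw hw' hnm1 (hnN m hm)
    have hccpos : 0 ≤ cc (sh (n0 + W' * (m : ℤ)) w) (sh (n0 + W' * (m : ℤ)) w') := by omega
    refine v3 (cert_eq2 (Y := 2 ^ t) (K1 := 2 ^ t) (K2 := (AA g t : ℤ) ^ 100) hY3
      (one_le_pow₀ (by norm_num)) hyp v1 v2 (by rw [dt_sh]; exact hb0)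
      (by rw [dt_sh]; exact hbY) hσ (d := (prd T : ℤ)) (by exact_mod_cast hdpos) hddvd
      (by rw [dt_sh]; exact hTd) (by rw [dt_sh]; exact hRr) ?_ ?_ ?_).symm
    · intro R R2 e1 e2
      rw [dt_sh] at e1 e2
      have hmem : ∀ x : ℤ, x ∈ E → ((prd T, x) : ℕ × ℤ) ∈
          (Icc 1 (2 ^ (t ^ (4 * g) / 8)) : Finset ℕ) ×ˢ E := fun x hx => by
        rw [mem_product, mem_Icc]; exact ⟨⟨hdpos, hdle⟩, hx⟩
      constructor
      · rintro (h5 | h5)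
        · exact hx ⟨(prd T, R), hmem _ h5, R, R2, e1, e2, Or.inl rfl⟩
        · exact hx ⟨(prd T, -1 - R), hmem _ h5, R, R2, e1, e2, Or.inr (Or.inl rfl)⟩
      · rintro (h5 | h5)
        · exact hx ⟨(prd T, R2), hmem _ h5, R, R2, e1, e2, Or.inr (Or.inr (Or.inl rfl))⟩
        · exact hx ⟨(prd T, -1 - R2), hmem _ h5, R, R2, e1, e2, Or.inr (Or.inr (Or.inr rfl))⟩
    · rw [dt_sh, abs_of_nonneg hccpos]
      refine le_trans ?_ hcc.1
      have h5 : (3 : ℤ) * 2 ^ t * (2 ^ t + 1) + 2 * 2 ^ (t ^ (4 * g) / 8) ≤ (AA g t : ℤ) := by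
        exact_mod_cast hsize
      refine le_trans ?_ h5
      have h6 : (prd T : ℤ) ≤ 2 ^ (t ^ (4 * g) / 8) := by exact_mod_cast hdle
      have h7 : |dt w w'| ≤ 2 ^ t := by exact_mod_cast hbY
      have h8 : 3 * |dt w w'| * (2 ^ t + 1) ≤ 3 * 2 ^ t * (2 ^ t + 1) :=
        mul_le_mul_of_nonneg_right (by omega) (by positivity)
      omega
    · have h5 : cc (sh (n0 + W' * (m : ℤ)) w) (sh (n0 + W' * (m : ℤ)) w') ^ 4 ≤
          ((AA g t : ℤ) ^ 17) ^ 4 := pow_le_pow_left₀ hccpos hcc.2 4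
      have h6 : 8 * ((AA g t : ℤ) ^ 17) ^ 4 ≤ (AA g t : ℤ) ^ 69 := by
        have h7 : (AA g t : ℤ) ^ 69 = (AA g t : ℤ) * ((AA g t : ℤ) ^ 17) ^ 4 := by ring
        rw [h7]
        exact mul_le_mul_of_nonneg_right (by omega) (by positivity)
      have h7 : (AA g t : ℤ) ^ 69 ≤ (AA g t : ℤ) ^ 100 :=
        pow_le_pow_right₀ (by omega) (by norm_num)
      omega
  -- conclusion
  have hfin := Nat.mul_le_mul_right (t ^ (C + 1)) hsub
  rw [add_mul] at hfin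
  have hfin2 := hfin.trans (Nat.add_le_add key hexc)
  generalize cs (range N) (fun m => Rough (2 ^ t) (Nm (sh (n0 + W' * m) w)) ∧
      Rough (2 ^ t) (Nm (sh (n0 + W' * m) w')) ∧
      lam (Nm (sh (n0 + W' * m) w')) ≠ lam (Nm (sh (n0 + W' * m) w)) ∧
      8 * (sel P (fun p => (p : ℤ) ∣ Nm (sh (n0 + W' * m) w'))).card < t ∧
      Unif e1 e3 t (sel P (fun p => (p : ℤ) ∣ Nm (sh (n0 + W' * m) w'))) ∧
      Anti e (2 * c2 + 32) t (sel P (fun p => (p : ℤ) ∣ Nm (sh (n0 + W' * m) w')))) = X at hfin2 ⊢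
  have h5 : X * t ^ C * t ≤ N * t := by
    have h6 : X * t ^ (C + 1) = X * t ^ C * t := by rw [pow_succ]; ring
    rw [← h6]
    have h7 : N * 2 ≤ N * t := Nat.mul_le_mul_left _ (by omega)
    omega
  exact Nat.le_of_mul_le_mul_right h5 (by omega)

end Pool.Agent.H17.RP
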