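import Pool.Agent.H17.RP.EmB
import Pool.Agent.H41.Per.Norm

/-!
# Reps: representations by the norm form

`exists_rep`: every prime `p = 1 mod 3` is `Nm π`, `π ∈ ℤ²`.  (`-3` is a square modulo `p`: there is `r`
with `p ∣ r² + 3r + 3`; Thue's lemma: `(x, y) ≠ 0`, `|x|, |y| ≤ √p`, `x = r y mod p`; then
`p ∣ x² + 3xy·(-1)...`; or use `p = a² + a b + b²`, in the library `H41/Eis`, `H41/Per/Norm.lean`, and
`x² + 3xy + 3y² = (x+y)² + (x+y) y + y²`.)

`dvd_or`: `p` prime, `Nm π = p`, `p ∣ Nm z`.  Then `π ∣ z` or `conj π ∣ z`, i.e. `z = mu π z'` or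
`z = mu (cj π) z'`.  Proof. `mu z (cj π)` and `mu z π`: with `z = (x, y)`, `π = (a, b)`,
the second coordinates `x(-b) + y(a+3b) - 3yb = ay - bx` and `xb + ya + 3yb` have a product
`(ay - bx)(bx + ay + 3by) = a² y² + 3ab y² - b² x² - 3 b² xy = y² Nm π - b² Nm z` divisible by `p`, so
one of them is divisible by `p`; `Nm (mu z (cj π)) = Nm z p` is divisible by `p²`, so if the second
coordinate is divisible by `p` then so is the square of the first.  Hence `mu z (cj π) = p z'`, and
`mu π (mu z (cj π)) = p z`, so `z = mu π z'`; the same for `π`.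

`reps`: for `m ≥ 1` and every finite set `S` of vectors of norm `m`: `|S| ≤ 6 · 2^Ω(m)`.  Strong
induction on `m`.  `m = 1`: the six units (`4 = (2x+3y)² + 3y²`).  `m > 1`: let `p` be a prime factor of
`m`.  If `p = 2 mod 3`: all `z ∈ S` are `p z'` (`inert`), `Nm z' = m/p²`.  Otherwise there is `π` with
`Nm π = p` (`p = 3`: `(0,1)`), and by `dvd_or` `S` is covered by the images of two sets of vectors of norm
`m/p` under the injective maps `mu π`, `mu (cj π)`.
-/

set_option autoImplicit false

namespace Pool.Agent.H17.RP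

open Finset

theorem exists_rep {p : ℕ} (hp : p.Prime) (h : p % 3 = 1) : ∃ w : ℤ × ℤ, Nm w = p := by
  obtain ⟨a, b, hab⟩ := Pool.Agent.H41.Per.prime_norm hp h
  refine ⟨(a - b, b), ?_⟩
  rw [← hab]; unfold Nm F; ring

private theorem Nm_mu' (w w' : ℤ × ℤ) : Nm (mu w w') = Nm w * Nm w' := by
  unfold Nm mu F; ring

private theorem Nm_cj' (w : ℤ × ℤ) : Nm (cj w) = Nm w := by
  unfold Nm cj F; ring

/-- one half of `dvd_or` -/
private theorem dvd_half {p : ℕ} (hp : p.Prime) {π z : ℤ × ℤ} (hπ : Nm π = p)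
    (hz : (p : ℤ) ∣ Nm z) (h2 : (p : ℤ) ∣ (mu z (cj π)).2) :
    ∃ z' : ℤ × ℤ, z = mu π z' := by
  have hpp : Prime (p : ℤ) := Nat.prime_iff_prime_int.1 hp
  have hp0 : (p : ℤ) ≠ 0 := by exact_mod_cast hp.ne_zero
  set u := mu z (cj π) with hu
  have hN : (p : ℤ) ∣ Nm u := by
    rw [hu, Nm_mu']; exact hz.mul_right _
  have h1 : (p : ℤ) ∣ u.1 := by
    have h3 : (p : ℤ) ∣ u.1 ^ 2 := by
      have e : u.1 ^ 2 = Nm u - u.2 * (3 * u.1 + 3 * u.2) := by unfold Nm F; ring
      rw [e]; exact dvd_sub hN (h2.mul_right _)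
    exact hpp.dvd_of_dvd_pow h3
  obtain ⟨s, hs⟩ := h1
  obtain ⟨t, ht⟩ := h2
  refine ⟨(s, t), ?_⟩
  have e1 : u.1 = z.1 * (π.1 + 3 * π.2) + 3 * z.2 * π.2 := by
    rw [hu]; unfold mu cj; ring
  have e2 : u.2 = -(z.1 * π.2) + z.2 * π.1 := by
    rw [hu]; unfold mu cj; ring
  have hπ' : π.1 ^ 2 + 3 * π.1 * π.2 + 3 * π.2 ^ 2 = p := by rw [← hπ]; unfold Nm F; ring
  apply Prod.ext
  · apply mul_left_cancel₀ hp0
    change (p : ℤ) * z.1 = p * (π.1 * s - 3 * π.2 * t)
    have : (p : ℤ) * (π.1 * s - 3 * π.2 * t) = π.1 * u.1 - 3 * π.2 * u.2 := by rw [hs, ht]; ring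
    rw [this, e1, e2, ← hπ']; ring
  · apply mul_left_cancel₀ hp0
    change (p : ℤ) * z.2 = p * (π.1 * t + π.2 * s + 3 * π.2 * t)
    have : (p : ℤ) * (π.1 * t + π.2 * s + 3 * π.2 * t)
        = π.1 * u.2 + π.2 * u.1 + 3 * π.2 * u.2 := by rw [hs, ht]; ring
    rw [this, e1, e2, ← hπ']; ring

theorem dvd_or {p : ℕ} (hp : p.Prime) {π z : ℤ × ℤ} (hπ : Nm π = p) (hz : (p : ℤ) ∣ Nm z) :
    ∃ z' : ℤ × ℤ, z = mu π z' ∨ z = mu (cj π) z' := by
  have hpp : Prime (p : ℤ) := Nat.prime_iff_prime_int.1 hp
  have hprod : (p : ℤ) ∣ (mu z (cj π)).2 * (mu z (cj (cj π))).2 := by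
    have e : (mu z (cj π)).2 * (mu z (cj (cj π))).2 = z.2 ^ 2 * Nm π - π.2 ^ 2 * Nm z := by
      unfold mu cj Nm F; ring
    rw [e]
    exact dvd_sub (by rw [hπ]; exact Dvd.intro_left _ rfl) (hz.mul_left _)
  rcases hpp.dvd_or_dvd hprod with h | h
  · obtain ⟨z', hz'⟩ := dvd_half hp hπ hz h
    exact ⟨z', Or.inl hz'⟩
  · obtain ⟨z', hz'⟩ := dvd_half hp (π := cj π) (by rw [Nm_cj', hπ]) hz h
    exact ⟨z', Or.inr hz'⟩

private theorem inert' {p : ℕ} (hp : p.Prime) (h : p % 3 = 2) {w : ℤ × ℤ}
    (hw : (p : ℤ) ∣ Nm w) : (p : ℤ) ∣ w.1 ∧ (p : ℤ) ∣ w.2 := by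
  have hpp : Prime (p : ℤ) := Nat.prime_iff_prime_int.1 hp
  have := Fact.mk hp
  have hw' : ((w.1 : ZMod p)) ^ 2 + 3 * (w.1 : ZMod p) * (w.2 : ZMod p)
      + 3 * (w.2 : ZMod p) ^ 2 = 0 := by
    have := (ZMod.intCast_zmod_eq_zero_iff_dvd (Nm w) p).2 hw
    unfold Nm F at this
    push_cast at this
    exact this
  by_cases hy : (w.2 : ZMod p) = 0
  · rw [hy] at hw'
    have hx : (w.1 : ZMod p) ^ 2 = 0 := by linear_combination hw'
    have hx' : (w.1 : ZMod p) = 0 := by simpa using hx
    exact ⟨(ZMod.intCast_zmod_eq_zero_iff_dvd _ p).1 hx', (ZMod.intCast_zmod_eq_zero_iff_dvd _ p).1 hy⟩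
  · exfalso
    set s : ZMod p := (w.1 : ZMod p) / (w.2 : ZMod p) + 1 with hs
    have hs2 : s ^ 2 + s + 1 = 0 := by
      rw [hs]; field_simp; linear_combination hw'
    have hs3 : s ^ 3 = 1 := by linear_combination (s - 1) * hs2
    have hs1 : s ≠ 1 := by
      intro h1
      rw [h1] at hs2
      have h3 : ((3 : ℕ) : ZMod p) = 0 := by push_cast; linear_combination hs2
      rw [ZMod.natCast_eq_zero_iff] at h3
      have := (Nat.prime_dvd_prime_iff_eq hp Nat.prime_three).1 h3
      omega
    have hs0 : s ≠ 0 := by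
      intro h0; rw [h0] at hs3; norm_num at hs3
    have hord : orderOf (Units.mk0 s hs0) = 3 := by
      have : Fact (Nat.Prime 3) := ⟨Nat.prime_three⟩
      apply orderOf_eq_prime
      · apply Units.ext; push_cast; rw [Units.val_mk0]; exact hs3
      · intro h1
        apply hs1
        have := congrArg Units.val h1
        simpa using this
    have hd : 3 ∣ p - 1 := by
      rw [← hord, ← ZMod.card_units p]
      exact orderOf_dvd_card
    have := hp.two_le
    omega

/-- The norm is positive definite. -/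
private theorem mu_inj {π w w' : ℤ × ℤ} (hπ : Nm π ≠ 0) (h : mu π w = mu π w') : w = w' := by
  have e1 : (mu π w).1 = (mu π w').1 := by rw [h]
  have e2 : (mu π w).2 = (mu π w').2 := by rw [h]
  unfold mu at e1 e2
  simp only at e1 e2
  apply Prod.ext
  · apply mul_left_cancel₀ hπ
    unfold Nm F
    linear_combination (π.1 + 3 * π.2) * e1 + 3 * π.2 * e2
  · apply mul_left_cancel₀ hπ
    unfold Nm F
    linear_combination π.1 * e2 - π.2 * e1

private theorem units6 (S : Finset (ℤ × ℤ)) (hS : ∀ w ∈ S, Nm w = 1) : S.card ≤ 6 := by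
  have hsub : S ⊆ ({(1, 0), (-1, 0), (-1, 1), (-2, 1), (1, -1), (2, -1)} : Finset (ℤ × ℤ)) := by
    intro w hw
    have h := hS w hw
    unfold Nm F at h
    obtain ⟨x, y⟩ := w
    simp only at h
    have e : (2 * x + 3 * y) ^ 2 + 3 * y ^ 2 = 4 := by linear_combination 4 * h
    have hy1 : y ≤ 1 := by nlinarith [sq_nonneg (2 * x + 3 * y)]
    have hy2 : -1 ≤ y := by nlinarith [sq_nonneg (2 * x + 3 * y)]
    have hy : y = -1 ∨ y = 0 ∨ y = 1 := by omega
    rcases hy with rfl | rfl | rfl
    · have : (x - 1) * (x - 2) = 0 := by linear_combination h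
      rcases mul_eq_zero.1 this with h1 | h1
      · obtain rfl : x = 1 := by omega
        simp
      · obtain rfl : x = 2 := by omega
        simp
    · have : (x - 1) * (x + 1) = 0 := by linear_combination h
      rcases mul_eq_zero.1 this with h1 | h1
      · obtain rfl : x = 1 := by omega
        simp
      · obtain rfl : x = -1 := by omega
        simp
    · have : (x + 1) * (x + 2) = 0 := by linear_combination h
      rcases mul_eq_zero.1 this with h1 | h1
      · obtain rfl : x = -1 := by omega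
        simp
      · obtain rfl : x = -2 := by omega
        simp
  exact (card_le_card hsub).trans (by decide)

theorem reps (m : ℕ) (hm : 1 ≤ m) (S : Finset (ℤ × ℤ)) (hS : ∀ w ∈ S, Nm w = m) :
    S.card ≤ 6 * 2 ^ (ArithmeticFunction.cardFactors m) := by
  classical
  induction m using Nat.strong_induction_on generalizing S with
  | _ m ih =>
    rcases Nat.lt_or_ge 1 m with h1 | h1
    · obtain ⟨p, hp, hpm⟩ := Nat.exists_prime_and_dvd (n := m) (by omega)
      obtain ⟨k, rfl⟩ := hpm
      have hk : 0 < k := Nat.pos_of_ne_zero (by rintro rfl; omega)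
      have hkm : k < p * k := by
        have := hp.two_le; nlinarith
      have hOm : ArithmeticFunction.cardFactors (p * k) = 1 + ArithmeticFunction.cardFactors k := by
        rw [ArithmeticFunction.cardFactors_mul hp.ne_zero hk.ne',
          ArithmeticFunction.cardFactors_apply_prime hp]
      have hp0 : (p : ℤ) ≠ 0 := by exact_mod_cast hp.ne_zero
      by_cases h2 : p % 3 = 2
      · -- inert prime
        rcases S.eq_empty_or_nonempty with rfl | ⟨w0, hw0⟩
        · simp
        have hin : ∀ w ∈ S, ∃ z : ℤ × ℤ, w = (p * z.1, p * z.2) := by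
          intro w hw
          have hd : (p : ℤ) ∣ Nm w := by rw [hS w hw]; push_cast; exact dvd_mul_right _ _
          obtain ⟨⟨a, ha⟩, ⟨b, hb⟩⟩ := inert' hp h2 hd
          exact ⟨(a, b), Prod.ext ha hb⟩
        have hNz : ∀ z : ℤ × ℤ, Nm ((p : ℤ) * z.1, (p : ℤ) * z.2) = p * (p * Nm z) := by
          intro z; unfold Nm F; ring
        obtain ⟨z0, hz0⟩ := hin w0 hw0
        have hdk : p ∣ k := by
          have e := hS w0 hw0
          rw [hz0, hNz] at e
          push_cast at e
          have e' : (p : ℤ) * Nm z0 = k := mul_left_cancel₀ hp0 e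
          have : (p : ℤ) ∣ (k : ℤ) := ⟨_, e'.symm⟩
          exact_mod_cast this
        obtain ⟨l, rfl⟩ := hdk
        have hl : 0 < l := Nat.pos_of_ne_zero (by rintro rfl; simp at hk)
        choose! g hg using hin
        have hcard : S.card = (S.image g).card := by
          rw [card_image_of_injOn]
          intro w hw w' hw' e
          rw [hg w hw, hg w' hw', e]
        have hNg : ∀ z ∈ S.image g, Nm z = l := by
          intro z hz
          obtain ⟨w, hw, rfl⟩ := mem_image.1 hz
          have e := hS w hw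
          rw [hg w hw, hNz] at e
          push_cast at e
          exact mul_left_cancel₀ hp0 (mul_left_cancel₀ hp0 e)
        have hl1 : l < p * (p * l) := by
          have h22 := hp.two_le
          have : l < p * l := by nlinarith
          nlinarith
        have := ih l hl1 hl (S.image g) hNg
        rw [hcard, hOm, ArithmeticFunction.cardFactors_mul hp.ne_zero hl.ne',
          ArithmeticFunction.cardFactors_apply_prime hp]
        refine this.trans ?_
        rw [pow_add, pow_add]
        have : 0 < 2 ^ ArithmeticFunction.cardFactors l := by positivity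
        nlinarith
      · -- split or ramified prime
        obtain ⟨π, hπ⟩ : ∃ w : ℤ × ℤ, Nm w = p := by
          by_cases h3 : p % 3 = 1
          · exact exists_rep hp h3
          · have h30 : p % 3 = 0 := by omega
            have : p = 3 := by
              have := (Nat.prime_dvd_prime_iff_eq Nat.prime_three hp).1 (Nat.dvd_of_mod_eq_zero h30)
              omega
            subst this
            exact ⟨(0, 1), by unfold Nm F; norm_num⟩
        have hπ' : Nm (cj π) = p := by rw [Nm_cj', hπ]
        have hcov : ∀ w ∈ S, ∃ z : ℤ × ℤ, w = mu π z ∨ w = mu (cj π) z := by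
          intro w hw
          have hd : (p : ℤ) ∣ Nm w := by rw [hS w hw]; push_cast; exact dvd_mul_right _ _
          exact dvd_or hp hπ hd
        -- bound for the part in the image of `mu ρ`
        have key : ∀ ρ : ℤ × ℤ, Nm ρ = p → ∀ T : Finset (ℤ × ℤ), (∀ w ∈ T, Nm w = ((p * k : ℕ) : ℤ)) →
            (∀ w ∈ T, ∃ z : ℤ × ℤ, w = mu ρ z) →
            T.card ≤ 6 * 2 ^ (ArithmeticFunction.cardFactors k) := by
          intro ρ hρ T hT hT'
          choose! g hg using hT'
          have hcard : T.card = (T.image g).card := by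
            rw [card_image_of_injOn]
            intro w hw w' hw' e
            rw [hg w hw, hg w' hw', e]
          rw [hcard]
          apply ih k hkm hk
          intro z hz
          obtain ⟨w, hw, rfl⟩ := mem_image.1 hz
          have e := hT w hw
          rw [hg w hw, Nm_mu', hρ] at e
          push_cast at e
          exact mul_left_cancel₀ hp0 e
        have hS1 : S ⊆ S.filter (fun w => ∃ z : ℤ × ℤ, w = mu π z) ∪
            S.filter (fun w => ∃ z : ℤ × ℤ, w = mu (cj π) z) := by
          intro w hw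
          obtain ⟨z, hz | hz⟩ := hcov w hw
          · exact mem_union_left _ (mem_filter.2 ⟨hw, z, hz⟩)
          · exact mem_union_right _ (mem_filter.2 ⟨hw, z, hz⟩)
        have hA := key π hπ (S.filter (fun w => ∃ z : ℤ × ℤ, w = mu π z))
          (fun w hw => hS w (mem_filter.1 hw).1) (fun w hw => (mem_filter.1 hw).2)
        have hB := key (cj π) hπ' (S.filter (fun w => ∃ z : ℤ × ℤ, w = mu (cj π) z))
          (fun w hw => hS w (mem_filter.1 hw).1) (fun w hw => (mem_filter.1 hw).2)
        calc S.card ≤ _ := card_le_card hS1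
          _ ≤ _ := card_union_le _ _
          _ ≤ 6 * 2 ^ (ArithmeticFunction.cardFactors k) + 6 * 2 ^ (ArithmeticFunction.cardFactors k) :=
              Nat.add_le_add hA hB
          _ = 6 * 2 ^ (ArithmeticFunction.cardFactors (p * k)) := by rw [hOm, pow_add]; ring
    · obtain rfl : m = 1 := by omega
      have := units6 S (by intro w hw; rw [hS w hw]; norm_num)
      simpa using this

end Pool.Agent.H17.RP
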