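import Pool.Agent.H17.RP.Alg

/-!
# StarA: vectors which are not primitive

A common prime factor `h` of `u` and `v` satisfies `h ∣ Nm`, so `h > Y`.  For given `h` there are
`Σ_(v' ≤ V/h) A v' ≤ A (V/h)²` pairs (`v = h v'`, `u ∈ [A v, 2 A v)` a multiple of `h`: exactly `A v'`
values), and `Σ_(h > Y) 1/h² ≤ 1/Y` (`Y ≥ 1`).
-/

set_option autoImplicit false

namespace Pool.Agent.H17.RP

open Finset

private theorem mem_cusp' {A V : ℕ} {w : ℤ × ℤ} (h : w ∈ cusp A V) :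
    1 ≤ w.2 ∧ w.2 ≤ V ∧ (A : ℤ) * w.2 ≤ w.1 ∧ w.1 < 2 * (A : ℤ) * w.2 := by
  unfold cusp at h
  rw [mem_sel, mem_product, mem_Icc, mem_Icc] at h
  exact ⟨h.1.2.1, h.1.2.2, h.2.1, h.2.2⟩

private theorem cnt_h (A V h : ℕ) (hh : 1 ≤ h) :
    cs (cusp A V) (fun w => (h : ℤ) ∣ w.1 ∧ (h : ℤ) ∣ w.2) ≤ A * (V / h) ^ 2 := by
  classical
  have hh' : (0 : ℤ) < h := by exact_mod_cast hh
  set m : ℕ := V / h with hm
  let T : Finset (Σ _ : ℤ, ℤ) := (Icc (1 : ℤ) m).sigma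
    (fun v => Ico ((A : ℤ) * v) (2 * (A : ℤ) * v))
  have hT : T.card ≤ A * m ^ 2 := by
    rw [card_sigma]
    calc ∑ v ∈ Icc (1 : ℤ) m, (Ico ((A : ℤ) * v) (2 * (A : ℤ) * v)).card
        ≤ (Icc (1 : ℤ) m).card • (A * m) := by
          refine sum_le_card_nsmul _ _ _ fun v hv => ?_
          rw [mem_Icc] at hv
          rw [Int.card_Ico]
          have e : 2 * (A : ℤ) * v - (A : ℤ) * v = A * v := by ring
          rw [e]
          have : (A : ℤ) * v ≤ ((A * m : ℕ) : ℤ) := by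
            push_cast
            exact mul_le_mul_of_nonneg_left hv.2 (Int.natCast_nonneg A)
          omega
      _ = A * m ^ 2 := by
          rw [Int.card_Icc]
          have e : ((m : ℤ) + 1 - 1).toNat = m := by simp
          rw [e, smul_eq_mul]; ring
  refine le_trans ?_ hT
  unfold cs
  refine card_le_card_of_injOn (fun w => (⟨w.2 / h, w.1 / h⟩ : Σ _ : ℤ, ℤ)) ?_ ?_
  · intro w hw
    rw [mem_coe, mem_sel] at hw
    obtain ⟨hw, ⟨a, ha⟩, ⟨b, hb⟩⟩ := hw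
    obtain ⟨h1, h2, h3, h4⟩ := mem_cusp' hw
    rw [mem_coe, mem_sigma, mem_Icc, mem_Ico]
    have ea : w.1 / (h : ℤ) = a := by rw [ha]; exact Int.mul_ediv_cancel_left _ hh'.ne'
    have eb : w.2 / (h : ℤ) = b := by rw [hb]; exact Int.mul_ediv_cancel_left _ hh'.ne'
    show (1 ≤ w.2 / (h : ℤ) ∧ w.2 / (h : ℤ) ≤ m) ∧
      ((A : ℤ) * (w.2 / (h : ℤ)) ≤ w.1 / (h : ℤ) ∧ w.1 / (h : ℤ) < 2 * (A : ℤ) * (w.2 / (h : ℤ)))
    rw [ea, eb]
    rw [hb] at h1 h2
    rw [ha, hb] at h3 h4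
    refine ⟨⟨?_, ?_⟩, ?_, ?_⟩
    · by_contra hc
      have : b ≤ 0 := by omega
      nlinarith
    · rw [hm]; push_cast
      rw [Int.le_ediv_iff_mul_le hh']
      linarith
    · have : (h : ℤ) * ((A : ℤ) * b) ≤ h * a := by linarith
      exact le_of_mul_le_mul_left this hh'
    · have : (h : ℤ) * a < h * (2 * (A : ℤ) * b) := by linarith
      exact lt_of_mul_lt_mul_left this hh'.le
  · intro w hw w' hw' he
    rw [mem_coe, mem_sel] at hw hw'
    obtain ⟨-, ha, hb⟩ := hw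
    obtain ⟨-, ha', hb'⟩ := hw'
    simp only [Sigma.mk.injEq, heq_eq_eq] at he
    refine Prod.ext ?_ ?_
    · rw [← Int.ediv_mul_cancel ha, ← Int.ediv_mul_cancel ha', he.2]
    · rw [← Int.ediv_mul_cancel hb, ← Int.ediv_mul_cancel hb', he.1]

theorem noncop (A V Y : ℕ) (hY : 1 ≤ Y) :
    cs (cusp A V) (fun w => ¬ IsCoprime w.1 w.2 ∧ Rough Y (Nm w)) * Y ≤ A * V ^ 2 := by
  classical
  have h1 : cs (cusp A V) (fun w => ¬ IsCoprime w.1 w.2 ∧ Rough Y (Nm w)) ≤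
      ∑ h ∈ Ioc Y V, A * (V / h) ^ 2 := by
    calc cs (cusp A V) (fun w => ¬ IsCoprime w.1 w.2 ∧ Rough Y (Nm w))
        ≤ cs (cusp A V) (fun w => ∃ h ∈ Ioc Y V, (h : ℤ) ∣ w.1 ∧ (h : ℤ) ∣ w.2) := by
          refine cs_mono fun w hw hq => ?_
          obtain ⟨hc, hr⟩ := hq
          obtain ⟨g1, g2, g3, g4⟩ := mem_cusp' hw
          rw [Int.isCoprime_iff_gcd_eq_one] at hc
          obtain ⟨h, hp, hd⟩ := Nat.exists_prime_and_dvd hc
          have d1 : (h : ℤ) ∣ w.1 := (Int.natCast_dvd_natCast.2 hd).trans (Int.gcd_dvd_left _ _)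
          have d2 : (h : ℤ) ∣ w.2 := (Int.natCast_dvd_natCast.2 hd).trans (Int.gcd_dvd_right _ _)
          refine ⟨h, ?_, d1, d2⟩
          rw [mem_Ioc]
          constructor
          · refine hr h hp ?_
            unfold Nm F
            have e : w.1 ^ 2 + 3 * w.1 * w.2 + 3 * w.2 ^ 2 = w.1 * (w.1 + 3 * w.2) + w.2 * (3 * w.2) := by
              ring
            rw [e]
            exact dvd_add (d1.mul_right _) (d2.mul_right _)
          · have := Int.le_of_dvd (by omega) d2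
            have h5 : (h : ℤ) ≤ V := this.trans g2
            exact_mod_cast h5
      _ ≤ ∑ h ∈ Ioc Y V, cs (cusp A V) (fun w => (h : ℤ) ∣ w.1 ∧ (h : ℤ) ∣ w.2) :=
          cs_exists _ _ _
      _ ≤ ∑ h ∈ Ioc Y V, A * (V / h) ^ 2 := by
          refine sum_le_sum fun h hh => cnt_h A V h ?_
          rw [mem_Ioc] at hh
          omega
  rcases Nat.lt_or_ge V Y with hVY | hVY
  · rw [Ioc_eq_empty (by omega), sum_empty] at h1
    have : cs (cusp A V) (fun w => ¬ IsCoprime w.1 w.2 ∧ Rough Y (Nm w)) = 0 := by omega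
    rw [this]; simp
  · have hY0 : (0 : ℝ) < Y := by exact_mod_cast hY
    have h2 : ((∑ h ∈ Ioc Y V, A * (V / h) ^ 2 : ℕ) : ℝ) ≤ A * V ^ 2 * (Y : ℝ)⁻¹ := by
      push_cast
      calc ∑ h ∈ Ioc Y V, (A : ℝ) * (((V / h : ℕ) : ℝ)) ^ 2
          ≤ ∑ h ∈ Ioc Y V, (A : ℝ) * V ^ 2 * ((h : ℝ) ^ 2)⁻¹ := by
            refine sum_le_sum fun h hh => ?_
            rw [mem_Ioc] at hh
            have hh0 : (0 : ℝ) < h := by
              have : 0 < h := by omega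
              exact_mod_cast this
            have h3 : ((V / h : ℕ) : ℝ) ≤ (V : ℝ) / h := Nat.cast_div_le
            have h4 : (((V / h : ℕ) : ℝ)) ^ 2 ≤ ((V : ℝ) / h) ^ 2 :=
              pow_le_pow_left₀ (Nat.cast_nonneg _) h3 2
            calc (A : ℝ) * (((V / h : ℕ) : ℝ)) ^ 2 ≤ A * ((V : ℝ) / h) ^ 2 :=
                  mul_le_mul_of_nonneg_left h4 (Nat.cast_nonneg A)
              _ = (A : ℝ) * V ^ 2 * ((h : ℝ) ^ 2)⁻¹ := by
                  rw [div_pow]; ring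
        _ = A * V ^ 2 * ∑ h ∈ Ioc Y V, ((h : ℝ) ^ 2)⁻¹ := by rw [mul_sum]
        _ ≤ A * V ^ 2 * (Y : ℝ)⁻¹ := by
            refine mul_le_mul_of_nonneg_left ?_ (by positivity)
            refine (sum_Ioc_inv_sq_le_sub (by omega) hVY).trans ?_
            have : (0 : ℝ) ≤ (V : ℝ)⁻¹ := by positivity
            linarith
    have h3 : ((cs (cusp A V) (fun w => ¬ IsCoprime w.1 w.2 ∧ Rough Y (Nm w)) : ℕ) : ℝ) * Y ≤
        A * V ^ 2 := by
      have h4 : ((cs (cusp A V) (fun w => ¬ IsCoprime w.1 w.2 ∧ Rough Y (Nm w)) : ℕ) : ℝ) ≤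
          A * V ^ 2 * (Y : ℝ)⁻¹ := le_trans (by exact_mod_cast h1) h2
      calc ((cs (cusp A V) (fun w => ¬ IsCoprime w.1 w.2 ∧ Rough Y (Nm w)) : ℕ) : ℝ) * Y
          ≤ (A * V ^ 2 * (Y : ℝ)⁻¹) * Y := mul_le_mul_of_nonneg_right h4 hY0.le
        _ = A * V ^ 2 := by field_simp
    exact_mod_cast h3

end Pool.Agent.H17.RP
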