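import Pool.Agent.H17.RP.Alg

/-!
# Tree: along a Stern-Brocot path

`w = (x, v)`, `0 ≤ x < v`, coprime.  If the step property holds at `n` for the root basis
`((1,0),(0,1))` and for all admissible bases `(e, f)` which contain `w` in their open cone, and
`sh n w` is rough, then `lam (Nm (sh n w)) = 1`.

Proof. Claim: let `(e, f)` be admissible and `lin e f (α, β) = w`, `α, β ≥ 1`.  Then for all
`p ∈ bwin L` with `sh n (lin e f p)` rough: `lam (Nm (sh n (lin e f p))) = lam (Nm (sh n w))`.  Strong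
induction on `α + β`.  `StepOK L t n e f` holds by assumption.  If `α = β` then `α = β = 1` (`w` is
primitive), `(1, 1) ∈ bwin L`, and the second part of `StepOK` is the claim.  If `α > β`: the basis
`(e, e+f)` is admissible and `lin e (e+f) (α-β, β) = w`; take `p' ∈ win L` rough for this basis
(first part of its `StepOK`).  `lin e (e+f) (a, b) = lin e f (a+b, b)`, and `(p'.1 + p'.2, p'.2)` is in
`bwin L` (coprime, `≤ 2L`), so `StepOK L t n e f` gives `lam (p) = lam (p')`, and the claim for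
`(e, e+f)` gives `lam (p') = lam (w)` (`win L ⊆ bwin L`).  If `α < β`: the same with `(e+f, f)`,
`(α, β-α)`, `lin (e+f) f (a, b) = lin e f (a, a+b)`.
Root: if `x = 0` then `v = 1`, `w = lin (1,0) (0,1) (0,1)`, `(0,1) ∈ bwin L`.  If `x ≥ 1` the basis
`((1,1),(0,1))` is admissible, `w = lin (1,1) (0,1) (x, v-x)`; as above.  In both cases compare with
`(1, 0) ∈ bwin L`: `sh n (1,0) = (1,0)`, `Nm = 1`, rough, `lam 1 = 1`.
-/

set_option autoImplicit false

namespace Pool.Agent.H17.RP

open Finset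

private theorem mem_bwin {L : ℕ} {a b : ℤ} (ha : 0 ≤ a) (ha' : a ≤ 3 * (L : ℤ)) (hb : 0 ≤ b)
    (hb' : b ≤ 3 * (L : ℤ)) (hc : IsCoprime a b) : (a, b) ∈ bwin L := by
  unfold bwin
  rw [mem_sel]
  refine ⟨?_, hc⟩
  rw [Finset.mem_product]
  exact ⟨Finset.mem_Icc.2 ⟨ha, ha'⟩, Finset.mem_Icc.2 ⟨hb, hb'⟩⟩

private theorem win_spec {L : ℕ} {p : ℤ × ℤ} (h : p ∈ win L) :
    1 ≤ p.1 ∧ p.1 ≤ (L : ℤ) ∧ 1 ≤ p.2 ∧ p.2 ≤ (L : ℤ) ∧ IsCoprime p.1 p.2 := by
  unfold win at h
  rw [mem_sel, Finset.mem_product] at h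
  obtain ⟨⟨h1, h2⟩, h3⟩ := h
  have h1' := Finset.mem_Icc.1 h1
  have h2' := Finset.mem_Icc.1 h2
  exact ⟨h1'.1, h1'.2, h2'.1, h2'.2, h3⟩

private theorem claim {L t : ℕ} (hL : 1 ≤ L) {n : ℤ} {w : ℤ × ℤ}
    (hc : IsCoprime w.1 w.2)
    (h : ∀ e f p : ℤ × ℤ, Adm e f → 1 ≤ p.1 → 1 ≤ p.2 → lin e f p = w → StepOK L t n e f)
    (hr : Rough (2 ^ t) (Nm (sh n w))) (k : ℕ) : ∀ (e f : ℤ × ℤ) (α β : ℤ), Adm e f → 1 ≤ α →
      1 ≤ β → lin e f (α, β) = w → α + β ≤ (k : ℤ) → ∀ p ∈ bwin L,
      Rough (2 ^ t) (Nm (sh n (lin e f p))) →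
        lam (Nm (sh n (lin e f p))) = lam (Nm (sh n w)) := by
  have hL' : (1 : ℤ) ≤ (L : ℤ) := by exact_mod_cast hL
  induction k with
  | zero =>
    intro e f α β _ ha hb _ hk
    exfalso
    push_cast at hk
    omega
  | succ k ih =>
    intro e f α β hadm ha hb hlin hk p hp hrp
    have hstep : StepOK L t n e f := h e f (α, β) hadm ha hb hlin
    obtain ⟨a1, a2, a3, a4, a5⟩ := hadm
    have hw1 : α * e.1 + β * f.1 = w.1 := by rw [← hlin]; rfl
    have hw2 : α * e.2 + β * f.2 = w.2 := by rw [← hlin]; rfl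
    rcases lt_trichotomy α β with hlt | heq | hgt
    · -- `α < β`
      have hadm' : Adm (e.1 + f.1, e.2 + f.2) f := by
        refine ⟨?_, ?_, ?_, a4, a5⟩
        · show (e.1 + f.1) * f.2 - (e.2 + f.2) * f.1 = 1
          linarith
        · show 0 ≤ e.1 + f.1
          linarith
        · show e.1 + f.1 ≤ e.2 + f.2
          linarith
      have hlin' : lin (e.1 + f.1, e.2 + f.2) f (α, β - α) = w := by
        apply Prod.ext
        · show α * (e.1 + f.1) + (β - α) * f.1 = w.1
          linarith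
        · show α * (e.2 + f.2) + (β - α) * f.2 = w.2
          linarith
      have hs' := h _ _ (α, β - α) hadm' ha (by show 1 ≤ β - α; omega) hlin'
      obtain ⟨⟨p', hp', hrp'⟩, -⟩ := hs'
      obtain ⟨b1, b2, b3, b4, b5⟩ := win_spec hp'
      have hcl := ih _ _ α (β - α) hadm' ha (by omega) hlin' (by push_cast at hk; omega) p'
        (by
          have : (p'.1, p'.2) ∈ bwin L := mem_bwin (by omega) (by omega) (by omega) (by omega) b5
          exact this) hrp'
      have heq : lin (e.1 + f.1, e.2 + f.2) f p' = lin e f (p'.1, p'.1 + p'.2) := by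
        apply Prod.ext
        · show p'.1 * (e.1 + f.1) + p'.2 * f.1 = p'.1 * e.1 + (p'.1 + p'.2) * f.1
          ring
        · show p'.1 * (e.2 + f.2) + p'.2 * f.2 = p'.1 * e.2 + (p'.1 + p'.2) * f.2
          ring
      have hcop : IsCoprime p'.1 (p'.1 + p'.2) := by
        have := b5.add_mul_left_right 1
        rwa [mul_one, add_comm] at this
      rw [heq] at hcl hrp'
      rw [← hcl]
      exact hstep.2 p hp (p'.1, p'.1 + p'.2)
        (mem_bwin (by omega) (by omega) (by omega) (by omega) hcop) hrp hrp'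
    · -- `α = β`
      subst heq
      have hu : IsUnit α := hc.isUnit_of_dvd' ⟨e.1 + f.1, by rw [← hw1]; ring⟩
        ⟨e.2 + f.2, by rw [← hw2]; ring⟩
      have h1 : α = 1 := by
        rcases Int.isUnit_iff.1 hu with h1 | h1
        · exact h1
        · omega
      subst h1
      have hm : ((1 : ℤ), (1 : ℤ)) ∈ bwin L :=
        mem_bwin (by omega) (by omega) (by omega) (by omega) isCoprime_one_left
      have := hstep.2 p hp (1, 1) hm hrp (by rw [hlin]; exact hr)
      rw [this, hlin]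
    · -- `β < α`
      have hadm' : Adm e (e.1 + f.1, e.2 + f.2) := by
        refine ⟨?_, a2, a3, ?_, ?_⟩
        · show e.1 * (e.2 + f.2) - e.2 * (e.1 + f.1) = 1
          linarith
        · show 0 ≤ e.1 + f.1
          linarith
        · show e.1 + f.1 ≤ e.2 + f.2
          linarith
      have hlin' : lin e (e.1 + f.1, e.2 + f.2) (α - β, β) = w := by
        apply Prod.ext
        · show (α - β) * e.1 + β * (e.1 + f.1) = w.1
          linarith
        · show (α - β) * e.2 + β * (e.2 + f.2) = w.2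
          linarith
      have hs' := h _ _ (α - β, β) hadm' (by show 1 ≤ α - β; omega) hb hlin'
      obtain ⟨⟨p', hp', hrp'⟩, -⟩ := hs'
      obtain ⟨b1, b2, b3, b4, b5⟩ := win_spec hp'
      have hcl := ih _ _ (α - β) β hadm' (by omega) hb hlin' (by push_cast at hk; omega) p'
        (by
          have : (p'.1, p'.2) ∈ bwin L := mem_bwin (by omega) (by omega) (by omega) (by omega) b5
          exact this) hrp'
      have heq : lin e (e.1 + f.1, e.2 + f.2) p' = lin e f (p'.1 + p'.2, p'.2) := by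
        apply Prod.ext
        · show p'.1 * e.1 + p'.2 * (e.1 + f.1) = (p'.1 + p'.2) * e.1 + p'.2 * f.1
          ring
        · show p'.1 * e.2 + p'.2 * (e.2 + f.2) = (p'.1 + p'.2) * e.2 + p'.2 * f.2
          ring
      have hcop : IsCoprime (p'.1 + p'.2) p'.2 := by
        have := b5.add_mul_left_left 1
        rwa [mul_one] at this
      rw [heq] at hcl hrp'
      rw [← hcl]
      exact hstep.2 p hp (p'.1 + p'.2, p'.2)
        (mem_bwin (by omega) (by omega) (by omega) (by omega) hcop) hrp hrp'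

theorem tree {L t : ℕ} (hL : 1 ≤ L) {n : ℤ} {w : ℤ × ℤ} (hw0 : 0 ≤ w.1) (hw1 : w.1 < w.2)
    (hc : IsCoprime w.1 w.2) (hroot : StepOK L t n (1, 0) (0, 1))
    (h : ∀ e f p : ℤ × ℤ, Adm e f → 1 ≤ p.1 → 1 ≤ p.2 → lin e f p = w → StepOK L t n e f)
    (hr : Rough (2 ^ t) (Nm (sh n w))) : lam (Nm (sh n w)) = 1 := by
  have hL' : (1 : ℤ) ≤ (L : ℤ) := by exact_mod_cast hL
  have h10 : ((1 : ℤ), (0 : ℤ)) ∈ bwin L :=
    mem_bwin (by omega) (by omega) (by omega) (by omega) isCoprime_one_left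
  have e10 : Nm (sh n (lin (1, 0) (0, 1) (1, 0))) = 1 := by
    unfold Nm sh lin F
    simp
  have r10 : Rough (2 ^ t) (Nm (sh n (lin (1, 0) (0, 1) (1, 0)))) := by
    rw [e10]
    intro p hp hd
    exfalso
    have h1 : (p : ℤ) = 1 := Int.eq_one_of_dvd_one (Int.natCast_nonneg p) hd
    have h2 : p = 1 := by exact_mod_cast h1
    exact hp.one_lt.ne' h2
  have l10 : lam (Nm (sh n (lin (1, 0) (0, 1) (1, 0)))) = 1 := by rw [e10]; exact lam_one
  rcases hw0.eq_or_lt with h0 | h0
  · -- `w = (0, 1)`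
    have hu : IsUnit w.2 := by
      rw [← h0] at hc
      exact isCoprime_zero_left.1 hc
    have h2 : w.2 = 1 := by
      rcases Int.isUnit_iff.1 hu with h1 | h1
      · exact h1
      · omega
    have hw : lin (1, 0) (0, 1) (0, 1) = w := by
      apply Prod.ext
      · show (0 : ℤ) * 1 + 1 * 0 = w.1
        rw [← h0]; norm_num
      · show (0 : ℤ) * 0 + 1 * 1 = w.2
        rw [h2]; norm_num
    have h01 : ((0 : ℤ), (1 : ℤ)) ∈ bwin L :=
      mem_bwin (by omega) (by omega) (by omega) (by omega) isCoprime_one_right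
    have := hroot.2 (0, 1) h01 (1, 0) h10 (by rw [hw]; exact hr) r10
    rw [hw, l10] at this
    exact this
  · -- `w.1 ≥ 1`
    have hadm : Adm (1, 1) (0, 1) := by
      refine ⟨?_, ?_, ?_, ?_, ?_⟩ <;> norm_num
    have hlin : lin (1, 1) (0, 1) (w.1, w.2 - w.1) = w := by
      apply Prod.ext
      · show w.1 * 1 + (w.2 - w.1) * 0 = w.1
        ring
      · show w.1 * 1 + (w.2 - w.1) * 1 = w.2
        ring
    have hs := h (1, 1) (0, 1) (w.1, w.2 - w.1) hadm (by show 1 ≤ w.1; omega)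
      (by show 1 ≤ w.2 - w.1; omega) hlin
    obtain ⟨⟨p', hp', hrp'⟩, -⟩ := hs
    obtain ⟨b1, b2, b3, b4, b5⟩ := win_spec hp'
    have hcl := claim hL hc h hr (w.1 + (w.2 - w.1)).toNat (1, 1) (0, 1) w.1 (w.2 - w.1) hadm
      (by omega) (by omega) hlin (by omega) p'
      (by
        have : (p'.1, p'.2) ∈ bwin L := mem_bwin (by omega) (by omega) (by omega) (by omega) b5
        exact this) hrp'
    have heq : lin (1, 1) (0, 1) p' = lin (1, 0) (0, 1) (p'.1, p'.1 + p'.2) := by
      apply Prod.ext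
      · show p'.1 * 1 + p'.2 * 0 = p'.1 * 1 + (p'.1 + p'.2) * 0
        ring
      · show p'.1 * 1 + p'.2 * 1 = p'.1 * 0 + (p'.1 + p'.2) * 1
        ring
    have hcop : IsCoprime p'.1 (p'.1 + p'.2) := by
      have := b5.add_mul_left_right 1
      rwa [mul_one, add_comm] at this
    rw [heq] at hcl hrp'
    rw [← hcl]
    exact (hroot.2 (p'.1, p'.1 + p'.2)
      (mem_bwin (by omega) (by omega) (by omega) (by omega) hcop) (1, 0) h10 hrp' r10).trans l10

end Pool.Agent.H17.RP
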