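import Pool.Agent.H17.RP.TupleClass
import Pool.Agent.H17.RP.FewP

/-!
# Tuple: the tuple bound

Under `Hyp`: for a basis `(e, f)`, `p0 ∈ bwin L`, distinct `p j ∈ win L` different from `p0`
(`L = t^c2`, `j < s`) the event `Ev` for `w = lin e f p0`, `w' j = lin e f (p j)` happens for at most
`3 A/t^((2 c2 + 1) s)` of the `n ∈ [A, 2A)`.

Proof. `|dt w (w' j)| = |dt p0 (p j)|` (`dt_lin`, `Basis2`) is `≤ 3 L² ≤ t^(2 c2 + 2)` and not `0`
(`dt_win`, `dt_ne`).  The same for `dt (w' i) (w' j)`.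
Coordinates: `≤ 2 · 3L · A^6 ≤ A^7`, `(w' j).2 = α e.2 + β f.2 ≥ 1` (`e.2`, `f.2` are not both `0`),
`w.1 + w.2 ≥ 1`.
`P = {p ∈ med : p ∤ (w' j).2, p ∤ dt (w' i)(w' j) (dt² + 3 v_i² v_j²)}`.  `few_med` with `k = 40`:
`|med \ P| ≤ (s + s²) 40 t^(4g) ≤ t^(4g+1)`: `E = 4g + 1`.
`W = (∏_(q ≤ t^24) q) ∏_j |b_j|`, `b_j = dt w (w' j)`; `W' = 3 (∏_j |b_j|) W`.  A prime factor of `W` which is
`> t^24` divides some `b_j`, and `b_j` has at most `2 c2 + 2` such prime factors (`few_big`): at most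
`s (2 c2 + 2) ≤ t`.  `W' ≤ 3 t^((2c2+2) 2 s) 4^(t^24) ≤ A^(1/8)` (`g ≥ 7`).
`ap_split` with `W'`, `N = (A + W' - 1 - r)/W' ≥ A/W' - 1`, so `N^4 ≥ A^3`; `tupleClass` for
`n0 = A + r`; sum over `r` with `sum_class`.
-/

set_option autoImplicit false

namespace Pool.Agent.H17.RP

open Finset

theorem tp_basis_coord {e f : ℤ × ℤ} (hb : Basis2 e f) (he : 0 ≤ e.2) (hf : 0 ≤ f.2) :
    1 ≤ e.2 + f.2 := by
  by_contra hc
  push Not at hc
  have h1 : e.2 = 0 := by omega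
  have h2 : f.2 = 0 := by omega
  unfold Basis2 dt at hb
  rw [h1, h2] at hb
  rcases hb with h | h <;> simp at h

/-- nonzero vector -/
theorem tp_pos {w : ℤ × ℤ} (h1 : 0 ≤ w.1) (h2 : 0 ≤ w.2) (h : IsCoprime w.1 w.2) :
    1 ≤ w.1 + w.2 := by
  by_contra hc
  push Not at hc
  have h3 : w.1 = 0 := by omega
  have h4 : w.2 = 0 := by omega
  rw [h3, h4] at h
  exact not_isCoprime_zero_zero h

theorem tp_dt_abs {e f : ℤ × ℤ} (hb : Basis2 e f) (p q : ℤ × ℤ) :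
    |dt (lin e f p) (lin e f q)| = |dt p q| := by
  rw [dt_lin, abs_neg, abs_mul]
  have : |dt e f| = 1 := by
    unfold Basis2 at hb
    rcases hb with h | h <;> rw [h] <;> norm_num
  rw [this, one_mul]

/-- the coordinates of the vectors of the big window -/
theorem tp_coord {H K α β x y : ℤ} (hα : 0 ≤ α) (hα' : α ≤ K) (hβ : 0 ≤ β)
    (hβ' : β ≤ K) (hx : 0 ≤ x) (hx' : x ≤ H) (hy : 0 ≤ y) (hy' : y ≤ H) :
    0 ≤ α * x + β * y ∧ α * x + β * y ≤ 2 * K * H := by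
  constructor
  · positivity
  · have h1 : α * x ≤ K * H := mul_le_mul hα' hx' hx (hα.trans hα')
    have h2 : β * y ≤ K * H := mul_le_mul hβ' hy' hy (hβ.trans hβ')
    linarith

/-- the size of the quantity `X` -/
theorem tp_X {A d v v' : ℤ} (hA : 8 ≤ A) (hd : |d| ≤ A) (hv : 0 ≤ v) (hv2 : v ≤ A ^ 7) (hv' : 0 ≤ v')
    (hv'2 : v' ≤ A ^ 7) : |d * (d ^ 2 + 3 * v ^ 2 * v' ^ 2)| ≤ A ^ 40 := by
  have hA0 : 0 ≤ A := by omega
  have h1 : d ^ 2 ≤ A ^ 2 := by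
    rw [← sq_abs d]
    exact pow_le_pow_left₀ (abs_nonneg d) hd 2
  have h2 : v ^ 2 ≤ (A ^ 7) ^ 2 := pow_le_pow_left₀ hv hv2 2
  have h3 : v' ^ 2 ≤ (A ^ 7) ^ 2 := pow_le_pow_left₀ hv' hv'2 2
  have h4 : v ^ 2 * v' ^ 2 ≤ (A ^ 7) ^ 2 * (A ^ 7) ^ 2 := mul_le_mul h2 h3 (sq_nonneg _) (by positivity)
  have h5 : d ^ 2 + 3 * v ^ 2 * v' ^ 2 ≤ A ^ 2 + 3 * A ^ 28 := by
    have e : (A ^ 7) ^ 2 * (A ^ 7) ^ 2 = A ^ 28 := by ring
    rw [e] at h4
    nlinarith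
  have h6 : 0 ≤ d ^ 2 + 3 * v ^ 2 * v' ^ 2 := by positivity
  rw [abs_mul, abs_of_nonneg h6]
  have h7 : A ^ 2 ≤ A ^ 28 := pow_le_pow_right₀ (by omega) (by norm_num)
  calc |d| * (d ^ 2 + 3 * v ^ 2 * v' ^ 2) ≤ A * (A ^ 2 + 3 * A ^ 28) :=
        mul_le_mul hd h5 h6 hA0
    _ ≤ A * (4 * A ^ 28) := mul_le_mul_of_nonneg_left (by linarith) hA0
    _ = 4 * A ^ 29 := by ring
    _ ≤ A * A ^ 29 := mul_le_mul_of_nonneg_right (by omega) (by positivity)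
    _ = A ^ 30 := by ring
    _ ≤ A ^ 40 := pow_le_pow_right₀ (by omega) (by norm_num)

theorem tp_two_pow (t : ℕ) : t ≤ 2 ^ t := Nat.lt_two_pow_self.le

/-- small numbers are below `A` -/
theorem tp_small (g t k : ℕ) (hg : 1 ≤ g) (ht : k + 4 ≤ t) : 64 * t ^ k ≤ AA g t := by
  have h1 : t ^ k ≤ 2 ^ (t * k) := by
    rw [pow_mul]
    exact Nat.pow_le_pow_left (tp_two_pow t) k
  have h2 : t * k + 6 ≤ t ^ (4 * g) := by
    calc t * k + 6 ≤ t * (k + 4) := by nlinarith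
      _ ≤ t * t := Nat.mul_le_mul_left _ ht
      _ = t ^ 2 := by ring
      _ ≤ t ^ (4 * g) := Nat.pow_le_pow_right (by omega) (by omega)
  calc 64 * t ^ k ≤ 64 * 2 ^ (t * k) := Nat.mul_le_mul_left _ h1
    _ = 2 ^ (t * k + 6) := by rw [pow_add]; ring
    _ ≤ 2 ^ (t ^ (4 * g)) := Nat.pow_le_pow_right (by norm_num) h2

/-- the length of the classes -/
theorem tp_len (a k W r : ℕ) (hW : 0 < W) (hr : r < W) (h : W ≤ 2 ^ k) (hk : 4 * k ≤ a) :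
    (2 ^ a) ^ 3 ≤ ((2 ^ a + W - 1 - r) / W) ^ 4 := by
  have h0 : 2 ^ (a - k) ≤ (2 ^ a + W - 1 - r) / W := by
    rw [Nat.le_div_iff_mul_le hW]
    have h1 : 2 ^ (a - k) * W ≤ 2 ^ a := by
      calc 2 ^ (a - k) * W ≤ 2 ^ (a - k) * 2 ^ k := Nat.mul_le_mul_left _ h
        _ = 2 ^ a := by rw [← pow_add, Nat.sub_add_cancel (by omega)]
    omega
  calc (2 ^ a) ^ 3 = 2 ^ (a * 3) := by rw [pow_mul]
    _ ≤ 2 ^ ((a - k) * 4) := Nat.pow_le_pow_right (by norm_num) (by omega)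
    _ = (2 ^ (a - k)) ^ 4 := by rw [pow_mul]
    _ ≤ _ := Nat.pow_le_pow_left h0 4

theorem tp_in (A W r m : ℕ) (hW : 0 < W) (h : m < (A + W - 1 - r) / W) : r + W * m < A := by
  rw [Nat.lt_iff_add_one_le, Nat.le_div_iff_mul_le hW] at h
  have e : (m + 1) * W = W * m + W := by ring
  rw [e] at h
  omega

/-- all but few of the medium primes are good -/
theorem tp_card {g t s k : ℕ} (a : Fin s → ℤ) (X : Fin s → Fin s → ℤ) (ha : ∀ j, a j ≠ 0)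
    (ha2 : ∀ j, |a j| ≤ (AA g t : ℤ) ^ k) (hX : ∀ i j, i ≠ j → X i j ≠ 0)
    (hX2 : ∀ i j, i ≠ j → |X i j| ≤ (AA g t : ℤ) ^ k) (P : Finset ℕ)
    (hP : P = sel (med g t) (fun q => (∀ j, ¬ (q : ℤ) ∣ a j) ∧ ∀ i j, i ≠ j → ¬ (q : ℤ) ∣ X i j)) :
    ((med g t) \ P).card ≤ (k * (s + s * s)) * t ^ (4 * g) := by
  classical
  have h1 : (med g t) \ P ⊆ ((univ : Finset (Fin s)).biUnion
        (fun j => sel (med g t) (fun q => (q : ℤ) ∣ a j))) ∪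
      (((univ : Finset (Fin s × Fin s)).filter (fun ij => ij.1 ≠ ij.2)).biUnion
        (fun ij => sel (med g t) (fun q => (q : ℤ) ∣ X ij.1 ij.2))) := by
    intro q hq
    rw [mem_sdiff, hP, mem_sel] at hq
    by_contra hc
    rw [mem_union, mem_biUnion, mem_biUnion] at hc
    push Not at hc
    refine hq.2 ⟨hq.1, fun j hj => hc.1 j (mem_univ j) (mem_sel.2 ⟨hq.1, hj⟩), fun i j hij hj => ?_⟩
    exact hc.2 (i, j) (by rw [mem_filter]; exact ⟨mem_univ _, hij⟩) (mem_sel.2 ⟨hq.1, hj⟩)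
  have h3 : ∀ j ∈ (univ : Finset (Fin s)),
      (sel (med g t) (fun q => (q : ℤ) ∣ a j)).card ≤ k * t ^ (4 * g) := fun j _ =>
    few_med (ha j) (ha2 j)
  have h4 : ∀ ij ∈ ((univ : Finset (Fin s × Fin s)).filter (fun ij => ij.1 ≠ ij.2)),
      (sel (med g t) (fun q => (q : ℤ) ∣ X ij.1 ij.2)).card ≤ k * t ^ (4 * g) := by
    rintro ⟨i, j⟩ hij
    rw [mem_filter] at hij
    exact few_med (hX i j hij.2) (hX2 i j hij.2)
  have h5 := card_biUnion_le_card_mul _ _ _ h3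
  have h6 := card_biUnion_le_card_mul _ _ _ h4
  have h7 : ((univ : Finset (Fin s × Fin s)).filter (fun ij => ij.1 ≠ ij.2)).card ≤ s * s := by
    refine (card_filter_le _ _).trans ?_
    rw [card_univ, Fintype.card_prod, Fintype.card_fin]
  rw [card_univ, Fintype.card_fin] at h5
  have h8 := (card_le_card h1).trans (card_union_le _ _)
  calc ((med g t) \ P).card ≤ s * (k * t ^ (4 * g)) + (s * s) * (k * t ^ (4 * g)) :=
        h8.trans (Nat.add_le_add h5 (h6.trans (Nat.mul_le_mul_right _ h7)))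
    _ = (k * (s + s * s)) * t ^ (4 * g) := by ring

theorem tp_prim_dvd {z q : ℕ} (hq : q.Prime) (h : q ≤ z) : q ∣ primorial z := by
  rw [primorial]
  exact dvd_prod_of_mem (fun p => p) (by rw [mem_filter, mem_range]; exact ⟨by omega, hq⟩)

theorem tp_prim_le {z q : ℕ} (hq : q.Prime) (h : q ∣ primorial z) : q ≤ z := by
  rw [primorial, Prime.dvd_finsetProd_iff hq.prime] at h
  obtain ⟨p', hp', hqp⟩ := h
  rw [mem_filter, mem_range] at hp'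
  have := (Nat.prime_dvd_prime_iff_eq hq hp'.2).1 hqp
  omega

/-- the moduli `W = (∏_(q ≤ t^24) q) B`, `W' = 3 B W`, `B = ∏ b j` -/
theorem tp_mod {s t c : ℕ} (b : Fin s → ℕ) (hb : ∀ j, b j ≠ 0) (hbt : ∀ j, b j ≤ t ^ c)
    (ht : 3 ≤ t) (hc : 24 ≤ c) (hsc : s * c ≤ t) (B W W' : ℕ) (hB : B = ∏ j, b j)
    (hW : W = primorial (t ^ 24) * B) (hW' : W' = 3 * B * W) :
    B ≠ 0 ∧ W ≠ 0 ∧ (∀ q : ℕ, q.Prime → q ≤ t ^ 24 → q ∣ W) ∧
    (∀ j, ∀ q : ℕ, q ∣ b j → q ∣ W) ∧ (∀ q : ℕ, q.Prime → q ∣ W → q ≤ t ^ c) ∧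
    cs W.primeFactors (fun q => t ^ 24 < q) ≤ t ∧ 0 < W' ∧ (∀ j, b j ∣ B) ∧
    (∀ q : ℕ, q.Prime → q ∣ W' → q ∣ W) ∧ W' ≤ 2 ^ (2 + (t * (c * s)) * 2 + 2 * t ^ 24) := by
  classical
  have ht0 : 0 < t := by omega
  have hB0 : B ≠ 0 := by rw [hB]; exact prod_ne_zero_iff.2 fun j _ => hb j
  have hW0 : W ≠ 0 := by rw [hW]; exact mul_ne_zero (primorial_pos _).ne' hB0
  have hW'0 : 0 < W' := by
    rw [hW']
    exact Nat.pos_of_ne_zero (mul_ne_zero (mul_ne_zero (by norm_num) hB0) hW0)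
  have hbB : ∀ j, b j ∣ B := by
    intro j
    rw [hB]
    exact dvd_prod_of_mem b (mem_univ j)
  have hWa : ∀ q : ℕ, q.Prime → q ≤ t ^ 24 → q ∣ W := by
    intro q hq hqt
    rw [hW]
    exact Dvd.dvd.mul_right (tp_prim_dvd hq hqt) B
  have hWc : ∀ q : ℕ, q.Prime → q ∣ B → ∃ j, q ∣ b j := by
    intro q hq hqB
    rw [hB, Prime.dvd_finsetProd_iff hq.prime] at hqB
    obtain ⟨j, _, hj⟩ := hqB
    exact ⟨j, hj⟩
  have hBW : B ∣ W := by rw [hW]; exact Dvd.intro_left _ rfl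
  refine ⟨hB0, hW0, hWa, fun j q hq => (hq.trans (hbB j)).trans hBW, ?_, ?_, hW'0, hbB, ?_, ?_⟩
  · intro q hq hqW
    rw [hW] at hqW
    rcases hq.dvd_mul.1 hqW with h | h
    · exact (tp_prim_le hq h).trans (Nat.pow_le_pow_right ht0 hc)
    · obtain ⟨j, hj⟩ := hWc q hq h
      exact (Nat.le_of_dvd (Nat.pos_of_ne_zero (hb j)) hj).trans (hbt j)
  · have h1 : sel W.primeFactors (fun q => t ^ 24 < q) ⊆
        (univ : Finset (Fin s)).biUnion (fun j => sel (b j).primeFactors (fun q => t ^ 24 < q)) := by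
      intro q hq
      rw [mem_sel, Nat.mem_primeFactors] at hq
      obtain ⟨⟨hq1, hq2, _⟩, hq3⟩ := hq
      rw [mem_biUnion]
      rw [hW] at hq2
      rcases hq1.dvd_mul.1 hq2 with h | h
      · exact absurd (tp_prim_le hq1 h) (not_le.2 hq3)
      · obtain ⟨j, hj⟩ := hWc q hq1 h
        exact ⟨j, mem_univ j, mem_sel.2 ⟨Nat.mem_primeFactors.2 ⟨hq1, hj, hb j⟩, hq3⟩⟩
    have h3 : ∀ j ∈ (univ : Finset (Fin s)),
        (sel (b j).primeFactors (fun q => t ^ 24 < q)).card ≤ c := fun j _ =>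
      few_big (by omega) (hb j) (hbt j)
    have h4 := card_biUnion_le_card_mul _ _ _ h3
    rw [card_univ, Fintype.card_fin] at h4
    exact (card_le_card h1).trans (h4.trans hsc)
  · intro q hq hqW
    rw [hW'] at hqW
    rcases hq.dvd_mul.1 hqW with h | h
    · rcases hq.dvd_mul.1 h with h | h
      · have : q ≤ 3 := Nat.le_of_dvd (by norm_num) h
        refine hWa q hq (this.trans ?_)
        calc 3 ≤ t := ht
          _ = t ^ 1 := (pow_one t).symm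
          _ ≤ t ^ 24 := Nat.pow_le_pow_right ht0 (by norm_num)
      · exact h.trans hBW
    · exact h
  · have hBle : B ≤ 2 ^ (t * (c * s)) := by
      have h1 : B ≤ (t ^ c) ^ s := by
        have := prod_le_pow_card (univ : Finset (Fin s)) b (t ^ c) (fun j _ => hbt j)
        rwa [card_univ, Fintype.card_fin, ← hB] at this
      calc B ≤ (t ^ c) ^ s := h1
        _ = t ^ (c * s) := by rw [pow_mul]
        _ ≤ (2 ^ t) ^ (c * s) := Nat.pow_le_pow_left (tp_two_pow t) _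
        _ = 2 ^ (t * (c * s)) := (pow_mul 2 t (c * s)).symm
    have h1 : primorial (t ^ 24) ≤ 2 ^ (2 * t ^ 24) := by
      refine (primorial_le_four_pow _).trans ?_
      rw [pow_mul]; norm_num
    calc W' = 3 * (B * B) * primorial (t ^ 24) := by rw [hW', hW]; ring
      _ ≤ 2 ^ 2 * (2 ^ (t * (c * s)) * 2 ^ (t * (c * s))) * 2 ^ (2 * t ^ 24) :=
          Nat.mul_le_mul (Nat.mul_le_mul (by norm_num) (Nat.mul_le_mul hBle hBle)) h1
      _ = 2 ^ (2 + (t * (c * s)) * 2 + 2 * t ^ 24) := by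
          rw [pow_add, pow_add, mul_two (t * (c * s)), pow_add]

theorem tp_k {s t c g : ℕ} (ht : 58 ≤ t) (hsc : s * c ≤ t) (hg : 7 ≤ g) :
    4 * (2 + (t * (c * s)) * 2 + 2 * t ^ 24) ≤ t ^ (4 * g) := by
  have ht0 : 0 < t := by omega
  have h1 : c * s ≤ t := by rw [mul_comm]; exact hsc
  have h2 : t * (c * s) ≤ t ^ 24 := by
    calc t * (c * s) ≤ t * t := Nat.mul_le_mul_left _ h1
      _ = t ^ 2 := by ring
      _ ≤ t ^ 24 := Nat.pow_le_pow_right ht0 (by norm_num)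
  have h3 : 2 ≤ t ^ 24 := by
    calc 2 ≤ t := by omega
      _ = t ^ 1 := (pow_one t).symm
      _ ≤ t ^ 24 := Nat.pow_le_pow_right ht0 (by norm_num)
  calc 4 * (2 + (t * (c * s)) * 2 + 2 * t ^ 24) ≤ 20 * t ^ 24 := by omega
    _ ≤ t * t ^ 24 := Nat.mul_le_mul_right _ (by omega)
    _ = t ^ 25 := by ring
    _ ≤ t ^ (4 * g) := Nat.pow_le_pow_right ht0 (by omega)

/-- the coordinates of the vectors of the big window -/
theorem tp_big {A L : ℕ} (hLA : 6 * L ≤ A) {e f : ℤ × ℤ} (hb : Basis2 e f)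
    (hbox : Box ((A : ℤ) ^ 6) e f) {q : ℤ × ℤ} (hq : q ∈ bwin L) :
    0 ≤ (lin e f q).1 ∧ 0 ≤ (lin e f q).2 ∧ 1 ≤ (lin e f q).1 + (lin e f q).2 ∧
      (lin e f q).1 ≤ (A : ℤ) ^ 7 ∧ (lin e f q).2 ≤ (A : ℤ) ^ 7 := by
  obtain ⟨⟨he1, he1'⟩, ⟨he2, he2'⟩, ⟨hf1, hf1'⟩, ⟨hf2, hf2'⟩⟩ := hbox
  unfold bwin at hq
  rw [mem_sel, mem_product, mem_Icc, mem_Icc] at hq
  obtain ⟨⟨⟨ha1, ha2⟩, ⟨hb1, hb2⟩⟩, hcop⟩ := hq
  have hLA' : 6 * (L : ℤ) ≤ A := by exact_mod_cast hLA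
  have h1 := tp_coord ha1 ha2 hb1 hb2 he1 he1' hf1 hf1'
  have h2 := tp_coord ha1 ha2 hb1 hb2 he2 he2' hf2 hf2'
  have h3 : 2 * (3 * (L : ℤ)) * (A : ℤ) ^ 6 ≤ (A : ℤ) ^ 7 := by
    calc 2 * (3 * (L : ℤ)) * (A : ℤ) ^ 6 ≤ (A : ℤ) * (A : ℤ) ^ 6 :=
          mul_le_mul_of_nonneg_right (by linarith) (by positivity)
      _ = (A : ℤ) ^ 7 := by ring
  refine ⟨h1.1, h2.1, ?_, h1.2.trans h3, h2.2.trans h3⟩
  exact tp_pos h1.1 h2.1 (coprime_lin hb hcop)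

theorem tp_second {A L : ℕ} {e f : ℤ × ℤ} (hb : Basis2 e f)
    (hbox : Box ((A : ℤ) ^ 6) e f) {q : ℤ × ℤ} (hq : q ∈ win L) : 1 ≤ (lin e f q).2 := by
  obtain ⟨⟨he1, he1'⟩, ⟨he2, he2'⟩, ⟨hf1, hf1'⟩, ⟨hf2, hf2'⟩⟩ := hbox
  unfold win at hq
  rw [mem_sel, mem_product, mem_Icc, mem_Icc] at hq
  have h3 := tp_basis_coord hb he2 hf2
  show 1 ≤ q.1 * e.2 + q.2 * f.2
  have h4 : 1 * e.2 ≤ q.1 * e.2 := mul_le_mul_of_nonneg_right hq.1.1.1 he2
  have h5 : 1 * f.2 ≤ q.2 * f.2 := mul_le_mul_of_nonneg_right hq.1.2.1 hf2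
  linarith

/-- the determinants -/
theorem tp_det {t c2 L : ℕ} (ht : 2 ≤ t) (hL : L = t ^ c2) {e f : ℤ × ℤ} (hb : Basis2 e f)
    {q p : ℤ × ℤ} (hq : q ∈ bwin L) (hp : p ∈ win L) (h : q ≠ p) :
    dt (lin e f q) (lin e f p) ≠ 0 ∧ |dt (lin e f q) (lin e f p)| ≤ (t : ℤ) ^ (2 * c2 + 2) := by
  have hL2 : 3 * (L : ℤ) ^ 2 ≤ (t : ℤ) ^ (2 * c2 + 2) := by
    have h1 : 3 * L ^ 2 ≤ t ^ (2 * c2 + 2) := by
      calc 3 * L ^ 2 ≤ t ^ 2 * L ^ 2 := Nat.mul_le_mul_right _ (by nlinarith)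
        _ = t ^ (2 * c2 + 2) := by rw [hL]; ring
    exact_mod_cast h1
  have h1 := tp_dt_abs hb q p
  have h2 := dt_ne hq (win_bwin hp) h
  have h3 := dt_win hq hp
  refine ⟨?_, ?_⟩
  · rw [← abs_pos, h1, abs_pos]; exact h2
  · rw [h1]; exact h3.trans hL2

/-- parameters -/
theorem tp_par {c2 s t t1 : ℕ} (ht : t1 + (2 * c2 + 10) * (2 * s + 2) * 40 * (s + 1) ≤ t) :
    t1 ≤ t ∧ 40 * (s + s * s) ≤ t ∧ 2 * c2 + 10 ≤ t ∧ s * (2 * c2 + 2) ≤ t := by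
  have htbig : (2 * c2 + 10) * (2 * s + 2) * 40 * (s + 1) ≤ t := by omega
  refine ⟨by omega, ?_, ?_, ?_⟩
  · refine le_trans ?_ htbig
    have h1 : 1 ≤ 2 * c2 + 10 := by omega
    calc 40 * (s + s * s) = 1 * s * 40 * (s + 1) := by ring
      _ ≤ (2 * c2 + 10) * (2 * s + 2) * 40 * (s + 1) := by gcongr; omega
  · refine le_trans ?_ htbig
    calc 2 * c2 + 10 = (2 * c2 + 10) * 1 * 1 * 1 := by ring
      _ ≤ (2 * c2 + 10) * (2 * s + 2) * 40 * (s + 1) := by gcongr <;> omega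
  · refine le_trans ?_ htbig
    calc s * (2 * c2 + 2) = (2 * c2 + 2) * s * 1 * 1 := by ring
      _ ≤ (2 * c2 + 10) * (2 * s + 2) * 40 * (s + 1) := by gcongr <;> omega

theorem tuple (c2 : ℕ) (hc2 : 24 ≤ c2) : ∃ g0 : ℕ, 7 ≤ g0 ∧ ∀ g ≥ g0, ∀ s : ℕ, ∃ t0 : ℕ, ∀ t ≥ t0,
    ∀ ε : ℤ, Hyp g t ε → ∀ e f : ℤ × ℤ, Basis2 e f → Box ((AA g t : ℤ) ^ 6) e f →
    ∀ p0 ∈ bwin (t ^ c2), ∀ p : Fin s → ℤ × ℤ, (∀ j, p j ∈ win (t ^ c2)) →
    Function.Injective p → (∀ j, p j ≠ p0) →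
    cs (NN g t) (fun n => Ev t (lin e f p0) (fun j => lin e f (p j)) n) * t ^ ((2 * c2 + 1) * s) ≤
      3 * AA g t := by
  obtain ⟨g0, hg0, hcl⟩ := tupleClass c2 hc2
  refine ⟨g0, hg0, fun g hg s => ?_⟩
  obtain ⟨t1, ht1⟩ := hcl g hg s (4 * g + 1)
  refine ⟨t1 + (2 * c2 + 10) * (2 * s + 2) * 40 * (s + 1),
    fun t ht ε hyp e f hb hbox p0 hp0 p hp hinj hne => ?_⟩
  have hg7 : 7 ≤ g := hg0.trans hg
  obtain ⟨htt1, hts, htc, htsc⟩ := tp_par ht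
  have ht58 : 58 ≤ t := by omega
  have ht0 : 0 < t := by omega
  have hA1 : 64 * t ^ (2 * c2 + 2) ≤ AA g t := tp_small g t (2 * c2 + 2) (by omega) (by omega)
  have hLA : 6 * t ^ c2 ≤ AA g t := by
    have h1 : t ^ c2 ≤ t ^ (2 * c2 + 2) := Nat.pow_le_pow_right ht0 (by omega)
    omega
  have hA8 : (8 : ℤ) ≤ AA g t := by
    have h1 : 0 < t ^ (2 * c2 + 2) := Nat.pow_pos ht0
    have h2 : 8 ≤ AA g t := by omega
    exact_mod_cast h2
  have htA : (t : ℤ) ^ (2 * c2 + 2) ≤ AA g t := by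
    have : t ^ (2 * c2 + 2) ≤ AA g t := by omega
    exact_mod_cast this
  have hc0 := tp_big hLA hb hbox hp0
  have hcj : ∀ j, 0 ≤ (lin e f (p j)).1 ∧ 1 ≤ (lin e f (p j)).2 ∧
      (lin e f (p j)).1 ≤ (AA g t : ℤ) ^ 7 ∧ (lin e f (p j)).2 ≤ (AA g t : ℤ) ^ 7 := by
    intro j
    have h1 := tp_big hLA hb hbox (win_bwin (hp j))
    exact ⟨h1.1, tp_second hb hbox (hp j), h1.2.2.2.1, h1.2.2.2.2⟩
  have hdt0 : ∀ j, dt (lin e f p0) (lin e f (p j)) ≠ 0 ∧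
      |dt (lin e f p0) (lin e f (p j))| ≤ (t : ℤ) ^ (2 * c2 + 2) := fun j =>
    tp_det (by omega) rfl hb hp0 (hp j) (hne j).symm
  have hdtij : ∀ i j, i ≠ j → dt (lin e f (p i)) (lin e f (p j)) ≠ 0 ∧
      |dt (lin e f (p i)) (lin e f (p j))| ≤ (t : ℤ) ^ (2 * c2 + 2) := fun i j hij =>
    tp_det (by omega) rfl hb (win_bwin (hp i)) (hp j) (fun h => hij (hinj h))
  -- the set of primes
  have hPc := tp_card (g := g) (t := t) (k := 40) (fun j => (lin e f (p j)).2)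
    (fun i j => dt (lin e f (p i)) (lin e f (p j)) * (dt (lin e f (p i)) (lin e f (p j)) ^ 2 +
      3 * (lin e f (p i)).2 ^ 2 * (lin e f (p j)).2 ^ 2))
    (fun j => by
      have h1 := (hcj j).2.1
      have h2 : (lin e f (p j)).2 ≠ 0 := by omega
      exact h2)
    (fun j => by
      have h1 := hcj j
      have h2 : |(lin e f (p j)).2| ≤ (AA g t : ℤ) ^ 40 := by
        rw [abs_of_nonneg (zero_le_one.trans h1.2.1)]
        exact h1.2.2.2.trans (pow_le_pow_right₀ (by linarith) (by norm_num))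
      exact h2)
    (fun i j hij => by
      have h5 := hdtij i j hij
      refine mul_ne_zero h5.1 ?_
      have h6 : 0 < dt (lin e f (p i)) (lin e f (p j)) ^ 2 := by
        have := h5.1
        positivity
      have h8 : 0 ≤ 3 * (lin e f (p i)).2 ^ 2 * (lin e f (p j)).2 ^ 2 := by positivity
      exact (add_pos_of_pos_of_nonneg h6 h8).ne')
    (fun i j hij => by
      have h5 := hdtij i j hij
      have h6 := hcj i
      have h7 := hcj j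
      exact tp_X hA8 (h5.2.trans htA) (zero_le_one.trans h6.2.1) h6.2.2.2
        (zero_le_one.trans h7.2.1) h7.2.2.2) _ rfl
  -- the moduli
  obtain ⟨hB0, hW0, hWa, hWb, hWe, hWf, hW'0, hbB, hWh, hW'le⟩ :=
    tp_mod (t := t) (c := 2 * c2 + 2) (fun j => (dt (lin e f p0) (lin e f (p j))).natAbs)
      (fun j => Int.natAbs_ne_zero.2 (hdt0 j).1)
      (fun j => by
        have h1 := (hdt0 j).2
        rw [Int.abs_eq_natAbs] at h1
        exact_mod_cast h1) (by omega) (by omega) htsc _ _ _ rfl rfl rfl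
  have hk4 := tp_k (s := s) (c := 2 * c2 + 2) ht58 htsc hg7
  generalize hBdef : ∏ j, (dt (lin e f p0) (lin e f (p j))).natAbs = B at *
  generalize hWdef : primorial (t ^ 24) * B = W at *
  generalize hW'def : 3 * B * W = W' at *
  have hWg : ∀ j, 3 * dt (lin e f p0) (lin e f (p j)) * W ∣ (W' : ℤ) := by
    intro j
    have h1 : dt (lin e f p0) (lin e f (p j)) ∣ (B : ℤ) := by
      rw [← Int.natAbs_dvd]
      exact Int.natCast_dvd_natCast.2 (hbB j)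
    rw [← hW'def]
    push_cast
    exact mul_dvd_mul (mul_dvd_mul (dvd_refl _) h1) (dvd_refl _)
  have hclass : ∀ r ∈ range W',
      cs (range ((AA g t + W' - 1 - r) / W'))
        (fun m : ℕ => Ev t (lin e f p0) (fun j => lin e f (p j)) ((AA g t : ℤ) + r + W' * m)) *
        t ^ ((2 * c2 + 1) * s) ≤ 3 * ((AA g t + W' - 1 - r) / W') := by
    intro r hr
    rw [mem_range] at hr
    refine ht1 t htt1 ε hyp (lin e f p0) (fun j => lin e f (p j)) _ W W' ((AA g t : ℤ) + r)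
      ((AA g t + W' - 1 - r) / W') hc0 hcj hdt0
      (sel_subset _ _) (hPc.trans ?_) (fun q hq j => (mem_sel.1 hq).2.1 j)
      (fun q hq i j hij => (mem_sel.1 hq).2.2 i j hij) hW0 hWa
      (fun j q _ hqd => hWb j q (Int.natCast_dvd.1 hqd)) hWe hWf hW'0 hWg hWh (by omega) ?_ ?_
    · calc 40 * (s + s * s) * t ^ (4 * g) ≤ t * t ^ (4 * g) := Nat.mul_le_mul_right _ hts
        _ = t ^ (4 * g + 1) := by ring
    · intro m hm
      have h1 := tp_in (AA g t) W' r m hW'0 hm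
      have h2 : ((r + W' * m : ℕ) : ℤ) < AA g t := by exact_mod_cast h1
      push_cast at h2
      have h3 : (AA g t : ℤ) + r + W' * m < 2 * AA g t := by linarith
      exact h3
    · exact tp_len (t ^ (4 * g)) _ W' r hW'0 hr hW'le hk4
  unfold NN
  rw [ap_split (AA g t) W' hW'0, sum_mul]
  refine (sum_le_sum hclass).trans ?_
  rw [← mul_sum, sum_class (AA g t) W' hW'0]

end Pool.Agent.H17.RP
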