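import Pool.Agent.H17.RP.WinSurv
import Pool.Agent.H17.RP.Tuple

/-!
# Step: the step property holds for almost all `n`

Under `Hyp`, for every basis with coordinates in `[0, A^6]` and every `κ`: `StepOK (t^c2) t n e f` for
all but `A/t^κ` of the `n ∈ [A, 2A)`.

Proof. `c1 = 24`, `c2 = 24 C1` (`C1 ≥ 1` of `winSurv`), `s = κ + 2 c2 + 6`.  The exceptional `n`:
those of `winSurv` with `C = κ + 1` (at most `A/t^(κ+1)`), and those for which the event `Ev` of `tuple`
holds for some `p0 ∈ bwin L` and some injective `p : Fin s → win L` with `p j ≠ p0`: there are at most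
`(3L+1)² L^(2s) ≤ t^(2c2+4) t^(2 c2 s)` of them (`L = t^c2`), so at most
`3 A t^(2c2+4) t^(2 c2 s)/t^((2c2+1)s) = 3 A t^(2 c2 + 4 - s) ≤ 3 A/t^(κ+2)` of the `n`.
For other `n`: the set `R` of the rough `q ∈ win L` has `|R| t^11 ≥ L² = t^(2 c2)`, so `|R| ≥ t^37`
and it is not empty.  If `p, p' ∈ bwin L` are rough with different Liouville values, then every
`q ∈ R` has another value than `p` or than `p'`.  If there were `s` elements `q ∈ R` with another value
than `p` (they are `≠ p`), the event `Ev` would hold for `p0 = p` and an enumeration of them.  So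
`|R| ≤ 2 (s-1)`, contradiction for large `t`.
-/

set_option autoImplicit false

namespace Pool.Agent.H17.RP

open Finset

/-- The window has at most `L²` elements. -/
private theorem win_card (L : ℕ) : (win L).card ≤ L ^ 2 := by
  unfold win
  refine (card_le_card (sel_subset _ _)).trans ?_
  rw [card_product, Int.card_Icc]
  have : ((L : ℤ) + 1 - 1).toNat = L := by simp
  rw [this]
  exact (by ring_nf; exact le_rfl)

/-- The big window has at most `(3L+1)²` elements. -/
private theorem bwin_card (L : ℕ) : (bwin L).card ≤ (3 * L + 1) ^ 2 := by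
  unfold bwin
  refine (card_le_card (sel_subset _ _)).trans ?_
  rw [card_product, Int.card_Icc]
  have : (3 * (L : ℤ) + 1 - 0).toNat = 3 * L + 1 := by omega
  rw [this]
  exact (by ring_nf; exact le_rfl)

/-- Many rough vectors, two of them different: an event of `tuple` happens. -/
private theorem step_key {L t s : ℕ} {n : ℤ} {e f : ℤ × ℤ}
    (hR : 2 * s + 1 ≤ cs (win L) (fun p => Rough (2 ^ t) (Nm (sh n (lin e f p)))))
    (hE : ∀ p0 ∈ bwin L, ∀ p : Fin s → ℤ × ℤ, (∀ j, p j ∈ win L) → Function.Injective p →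
      (∀ j, p j ≠ p0) → ¬ Ev t (lin e f p0) (fun j => lin e f (p j)) n) :
    StepOK L t n e f := by
  classical
  set R := sel (win L) (fun p => Rough (2 ^ t) (Nm (sh n (lin e f p)))) with hRdef
  have hRc : 2 * s + 1 ≤ R.card := hR
  refine ⟨?_, ?_⟩
  · have h1 : 0 < R.card := by omega
    obtain ⟨p, hp⟩ := card_pos.1 h1
    rw [hRdef, mem_sel] at hp
    exact ⟨p, hp.1, hp.2⟩
  · intro p hp p' hp' hr hr'
    by_contra hne
    have key : ∀ p0 ∈ bwin L, Rough (2 ^ t) (Nm (sh n (lin e f p0))) →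
        (sel R (fun q => lam (Nm (sh n (lin e f q))) ≠ lam (Nm (sh n (lin e f p0))))).card < s := by
      intro p0 hp0 hr0
      by_contra hlt
      rw [not_lt] at hlt
      set T := sel R (fun q => lam (Nm (sh n (lin e f q))) ≠ lam (Nm (sh n (lin e f p0)))) with hT
      obtain ⟨φ⟩ := Function.Embedding.nonempty_of_card_le (α := Fin s) (β := T) (by simpa using hlt)
      have hφ : ∀ j, ((φ j : ℤ × ℤ) ∈ win L ∧ Rough (2 ^ t) (Nm (sh n (lin e f (φ j))))) ∧
          lam (Nm (sh n (lin e f (φ j)))) ≠ lam (Nm (sh n (lin e f p0))) := by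
        intro j
        have h1 := mem_sel.1 (φ j).2
        exact ⟨mem_sel.1 h1.1, h1.2⟩
      refine hE p0 hp0 (fun j => (φ j : ℤ × ℤ)) (fun j => (hφ j).1.1)
        (fun a b hab => φ.injective (Subtype.ext hab)) ?_ ⟨hr0, fun j => ⟨(hφ j).1.2, (hφ j).2⟩⟩
      intro j hj
      apply (hφ j).2
      rw [show (φ j : ℤ × ℤ) = p0 from hj]
    have h1 := key p hp hr
    have h2 := key p' hp' hr'
    have h3 : R ⊆ sel R (fun q => lam (Nm (sh n (lin e f q))) ≠ lam (Nm (sh n (lin e f p)))) ∪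
        sel R (fun q => lam (Nm (sh n (lin e f q))) ≠ lam (Nm (sh n (lin e f p')))) := by
      intro q hq
      rw [mem_union]
      by_cases hc : lam (Nm (sh n (lin e f q))) = lam (Nm (sh n (lin e f p)))
      · exact Or.inr (mem_sel.2 ⟨hq, fun h => hne (hc.symm.trans h)⟩)
      · exact Or.inl (mem_sel.2 ⟨hq, hc⟩)
    have h4 := (card_le_card h3).trans (card_union_le _ _)
    omega

theorem step : ∃ c2 g0 : ℕ, 1 ≤ g0 ∧ ∀ g ≥ g0, ∀ κ : ℕ, ∃ t0 : ℕ, ∀ t ≥ t0, ∀ ε : ℤ, Hyp g t ε →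
    ∀ e f : ℤ × ℤ, Basis2 e f → Box ((AA g t : ℤ) ^ 6) e f →
    cs (NN g t) (fun n => ¬ StepOK (t ^ c2) t n e f) * t ^ κ ≤ AA g t := by
  classical
  obtain ⟨C1, hC1, hws⟩ := winSurv
  obtain ⟨g0, hg0, htup⟩ := tuple (C1 * 24) (by omega)
  refine ⟨C1 * 24, g0, by omega, fun g hg κ => ?_⟩
  set c2 := C1 * 24 with hc2
  have hc24 : 24 ≤ c2 := by omega
  obtain ⟨t1, ht1⟩ := hws 24 c2 le_rfl le_rfl g (κ + 1) (by omega)
  set s := κ + 2 * c2 + 6 with hs
  obtain ⟨t2, ht2⟩ := htup g hg s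
  refine ⟨max (max t1 t2) (2 * s + 4), fun t ht ε hyp e f hb hbox => ?_⟩
  have htt1 : t1 ≤ t := ((le_max_left _ _).trans (le_max_left _ _)).trans ht
  have htt2 : t2 ≤ t := ((le_max_right _ _).trans (le_max_left _ _)).trans ht
  have hts : 2 * s + 4 ≤ t := (le_max_right _ _).trans ht
  have ht4 : 4 ≤ t := by omega
  have htpos : 0 < t := by omega
  set L := t ^ c2 with hL
  have hLpos : 0 < L := by rw [hL]; positivity
  set A := AA g t with hA
  have hB1 := ht1 t htt1 e f hb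
  rw [← hL, ← hA] at hB1
  set B1 := cs (NN g t) (fun n =>
    cs (win L) (fun p => Rough (2 ^ t) (Nm (sh n (lin e f p)))) * t ^ 11 < L ^ 2) with hB1def
  have hB2 := ht2 t htt2 ε hyp e f hb hbox
  rw [← hL, ← hA] at hB2
  -- the index set of the tuples
  set I := (bwin L ×ˢ Fintype.piFinset (fun _ : Fin s => win L)).filter
    (fun x => Function.Injective x.2 ∧ ∀ j, x.2 j ≠ x.1) with hI
  have hIcard : I.card ≤ t ^ (2 * c2 + 4) * t ^ (2 * c2 * s) := by
    refine (card_filter_le _ _).trans ?_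
    rw [card_product, Fintype.card_piFinset]
    refine Nat.mul_le_mul ?_ ?_
    · calc (bwin L).card ≤ (3 * L + 1) ^ 2 := bwin_card L
        _ ≤ (4 * L) ^ 2 := Nat.pow_le_pow_left (by omega) 2
        _ = 16 * L ^ 2 := by ring
        _ ≤ t ^ 4 * L ^ 2 := by
          refine Nat.mul_le_mul_right _ ?_
          calc 16 ≤ 4 ^ 4 := by norm_num
            _ ≤ t ^ 4 := Nat.pow_le_pow_left ht4 4
        _ = t ^ (2 * c2 + 4) := by rw [hL, ← pow_mul, ← pow_add]; congr 1; ring
    · rw [prod_const, card_univ, Fintype.card_fin]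
      calc (win L).card ^ s ≤ (L ^ 2) ^ s := Nat.pow_le_pow_left (win_card L) s
        _ = t ^ (2 * c2 * s) := by rw [hL, ← pow_mul, ← pow_mul]; congr 1; ring
  have hmain : cs (NN g t) (fun n => ¬ StepOK L t n e f) ≤
      B1 + ∑ x ∈ I, cs (NN g t) (fun n => Ev t (lin e f x.1) (fun j => lin e f (x.2 j)) n) := by
    refine (cs_mono (Q := fun n =>
      (cs (win L) (fun p => Rough (2 ^ t) (Nm (sh n (lin e f p)))) * t ^ 11 < L ^ 2) ∨
      ∃ x ∈ I, Ev t (lin e f x.1) (fun j => lin e f (x.2 j)) n) ?_).trans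
      ((cs_or _ _ _).trans (Nat.add_le_add_left (cs_exists _ _ _) _))
    intro n hn hbad
    by_contra hcon
    rw [not_or] at hcon
    obtain ⟨hc1, hc2'⟩ := hcon
    apply hbad
    refine step_key (s := s) ?_ ?_
    · rw [not_lt] at hc1
      set r := cs (win L) (fun p => Rough (2 ^ t) (Nm (sh n (lin e f p)))) with hr
      have h1 : t ^ 12 ≤ L ^ 2 := by
        rw [hL, ← pow_mul]
        exact Nat.pow_le_pow_right htpos (by omega)
      have h2 : t * t ^ 11 ≤ r * t ^ 11 := by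
        calc t * t ^ 11 = t ^ 12 := by ring
          _ ≤ L ^ 2 := h1
          _ ≤ r * t ^ 11 := hc1
      have h3 : t ≤ r := Nat.le_of_mul_le_mul_right h2 (by positivity)
      omega
    · intro p0 hp0 p hp hinj hne hev
      refine hc2' ⟨(p0, p), ?_, hev⟩
      rw [hI, mem_filter, mem_product, Fintype.mem_piFinset]
      exact ⟨⟨hp0, hp⟩, hinj, hne⟩
  set S2 := ∑ x ∈ I, cs (NN g t) (fun n => Ev t (lin e f x.1) (fun j => lin e f (x.2 j)) n) with hS
  have hS1 : S2 * t ^ ((2 * c2 + 1) * s) ≤ (t ^ (2 * c2 + 4) * t ^ (2 * c2 * s)) * (3 * A) := by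
    rw [hS, sum_mul]
    calc ∑ x ∈ I, cs (NN g t) (fun n => Ev t (lin e f x.1) (fun j => lin e f (x.2 j)) n) *
          t ^ ((2 * c2 + 1) * s) ≤ ∑ _x ∈ I, 3 * A := by
          refine Finset.sum_le_sum fun x hx => ?_
          rw [hI, mem_filter, mem_product, Fintype.mem_piFinset] at hx
          exact hB2 x.1 hx.1.1 x.2 hx.1.2 hx.2.1 hx.2.2
      _ = I.card * (3 * A) := by rw [sum_const, smul_eq_mul]
      _ ≤ _ := Nat.mul_le_mul_right _ hIcard
  have hS2 : S2 * t ^ (κ + 2) ≤ 3 * A := by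
    have h1 : t ^ ((2 * c2 + 1) * s) = t ^ (κ + 2) * (t ^ (2 * c2 + 4) * t ^ (2 * c2 * s)) := by
      rw [← pow_add, ← pow_add]; congr 1; rw [hs]; ring
    rw [h1] at hS1
    have h2 : S2 * t ^ (κ + 2) * (t ^ (2 * c2 + 4) * t ^ (2 * c2 * s)) ≤
        3 * A * (t ^ (2 * c2 + 4) * t ^ (2 * c2 * s)) := by
      calc _ = S2 * (t ^ (κ + 2) * (t ^ (2 * c2 + 4) * t ^ (2 * c2 * s))) := by ring
        _ ≤ (t ^ (2 * c2 + 4) * t ^ (2 * c2 * s)) * (3 * A) := hS1
        _ = _ := by ring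
    exact Nat.le_of_mul_le_mul_right h2 (by positivity)
  have hS3 : S2 * t ^ (κ + 1) ≤ 3 * A := by
    refine le_trans (Nat.mul_le_mul_left _ (Nat.pow_le_pow_right htpos (by omega))) hS2
  have hfin : cs (NN g t) (fun n => ¬ StepOK L t n e f) * t ^ κ * t ≤ A * t := by
    calc cs (NN g t) (fun n => ¬ StepOK L t n e f) * t ^ κ * t
        ≤ (B1 + S2) * t ^ κ * t := Nat.mul_le_mul_right _ (Nat.mul_le_mul_right _ hmain)
      _ = B1 * t ^ (κ + 1) + S2 * t ^ (κ + 1) := by ring
      _ ≤ A + 3 * A := Nat.add_le_add hB1 hS3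
      _ = A * 4 := by ring
      _ ≤ A * t := Nat.mul_le_mul_left _ ht4
  exact Nat.le_of_mul_le_mul_right hfin htpos

end Pool.Agent.H17.RP
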