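import Pool.Agent.H17.RP.SurvA
import Pool.Agent.H17.RP.Mom
import Pool.Agent.H77.K3.N1

/-!
# Surv: almost always many elements survive

`Q` primes in `(t, 2^t]`, `S` nonempty; every `T ∈ S` is killed by at most four classes modulo `q`, and
every class modulo `q` kills at most `|S|/t^20` elements of `S`.  Then for all but `N/t^C` of the
`m < N` (`N² ≥ A`) at least `|S|/t^10` elements of `S` survive.

Proof. Put `X(m) = #{T ∈ S : not killed at m}`, `μ = Σ_T ∏_q (1 - z_q(T)/q)`, `B = |S|/t^20`, `κ = 4`.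
`μ ≥ |S| ∏_(t < q ≤ 2^t) (1 - 4/q) ≥ 2 |S|/t^5` for `t ≥ t0` (Mertens: `Σ_(t<q≤2^t) 1/q ≤
log t - log log t + C`; `1 - x ≥ exp (-x-x²)`).  By `surv_mom` and `moment`:
`Σ_(m<N) (X(m) - μ)^(2r) ≤ (N/∏Q) Σ_(m<∏Q) (X(m)-μ)^(2r) + (2|S|)^(2r) N/2^t
 ≤ N ((2r)! (|S|²/t^20)^r t^4 + (2|S|)^(2r)/2^t)` (`exp (4 Σ 1/q) ≤ t^4`).
If `t^10 X(m) < |S|` then `μ - X(m) ≥ |S|/t^5`.  Dividing by `(|S|/t^5)^(2r)` the number of such `m` is
at most `N ((2r)! t^(4-10r) + (2 t^5)^(2r)/2^t) ≤ N/t^C` for `r = C + 1` and large `t`.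
-/

set_option autoImplicit false

namespace Pool.Agent.H17.RP

open Finset

private theorem invsum : ∃ C : ℝ, 0 < C ∧ ∀ t : ℕ, 2 ≤ t → ∀ Q : Finset ℕ,
    (∀ q ∈ Q, q.Prime ∧ t < q ∧ q ≤ 2 ^ t) → ∑ q ∈ Q, 1 / (q : ℝ) ≤ Real.log t + C := by
  obtain ⟨C, hC, h⟩ := Pool.Agent.H77.K3.mert2
  have hl2 : 0 < Real.log 2 := Real.log_pos (by norm_num)
  refine ⟨C / Real.log 2, div_pos hC hl2, fun t ht Q hQ => ?_⟩
  have h2t : 2 ≤ 2 ^ t := by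
    calc 2 = 2 ^ 1 := by norm_num
      _ ≤ 2 ^ t := Nat.pow_le_pow_right (by norm_num) (by omega)
  have h1 := h 2 (2 ^ t) le_rfl h2t
  have hsub : Q ⊆ (Ioc 2 (2 ^ t)).filter Nat.Prime := by
    intro q hq
    obtain ⟨a, b, c⟩ := hQ q hq
    rw [mem_filter, mem_Ioc]
    exact ⟨⟨by omega, c⟩, a⟩
  have h3 : ∑ q ∈ Q, 1 / (q : ℝ) ≤ ∑ p ∈ (Ioc 2 (2 ^ t)).filter Nat.Prime, 1 / (p : ℝ) :=
    sum_le_sum_of_subset_of_nonneg hsub (fun i _ _ => by positivity)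
  have ht0 : (0 : ℝ) < t := by exact_mod_cast (by omega : 0 < t)
  have h4 : Real.log (Real.log ((2 ^ t : ℕ) : ℝ)) = Real.log t + Real.log (Real.log 2) := by
    push_cast
    rw [Real.log_pow, Real.log_mul ht0.ne' hl2.ne']
  have h5 := (abs_le.1 h1).2
  rw [h4] at h5
  push_cast at h5
  linarith

private theorem one_sub_ge {x : ℝ} (h0 : 0 ≤ x) (h1 : x ≤ 1 / 11) :
    Real.exp (-(11 / 10) * x) ≤ 1 - x := by
  have h2 := Real.add_one_le_exp ((11 / 10) * x)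
  have h3 : Real.exp (-(11 / 10) * x) * Real.exp ((11 / 10) * x) = 1 := by
    rw [← Real.exp_add]; simp
  have h4 : 1 ≤ (1 - x) * Real.exp ((11 / 10) * x) := by
    have : 1 ≤ (1 - x) * ((11 / 10) * x + 1) := by nlinarith
    exact this.trans (mul_le_mul_of_nonneg_left h2 (by linarith))
  have h5 : 0 < Real.exp ((11 / 10) * x) := Real.exp_pos _
  nlinarith

private theorem mu_low {ι : Type} (S : Finset ι) (Q : Finset ℕ) (kill : ℕ → ℕ → ι → Prop) (t : ℕ)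
    (ht : 44 ≤ t) (hQ : ∀ q ∈ Q, q.Prime ∧ t < q ∧ q ≤ 2 ^ t)
    (h4 : ∀ q ∈ Q, ∀ T ∈ S, cs (range q) (fun m => kill q m T) ≤ 4) {Z : ℝ}
    (hZ : ∑ q ∈ Q, 1 / (q : ℝ) ≤ Z) :
    (S.card : ℝ) * Real.exp (-(44 / 10) * Z) ≤
      ∑ T ∈ S, ∏ q ∈ Q, (1 - (cs (range q) (fun m => kill q m T) : ℝ) / q) := by
  rw [← nsmul_eq_mul]
  refine card_nsmul_le_sum _ _ _ fun T hT => ?_
  have h1 : ∏ q ∈ Q, Real.exp (-(44 / 10) * (1 / (q : ℝ))) ≤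
      ∏ q ∈ Q, (1 - (cs (range q) (fun m => kill q m T) : ℝ) / q) := by
    refine prod_le_prod (fun _ _ => (Real.exp_pos _).le) fun q hq => ?_
    obtain ⟨a, b, c⟩ := hQ q hq
    have hq0 : (0 : ℝ) < q := by exact_mod_cast a.pos
    have hq44 : (44 : ℝ) ≤ q := by exact_mod_cast (by omega : 44 ≤ q)
    have hc : (cs (range q) (fun m => kill q m T) : ℝ) ≤ 4 := by exact_mod_cast h4 q hq T hT
    have h5 : (cs (range q) (fun m => kill q m T) : ℝ) / q ≤ 4 * (1 / (q : ℝ)) := by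
      rw [mul_one_div]; gcongr
    have h6 : 4 * (1 / (q : ℝ)) ≤ 1 / 11 := by
      rw [mul_one_div, div_le_div_iff₀ hq0 (by norm_num)]; linarith
    have h7 := one_sub_ge (x := 4 * (1 / (q : ℝ))) (by positivity) h6
    have h8 : -(44 / 10) * (1 / (q : ℝ)) = -(11 / 10) * (4 * (1 / (q : ℝ))) := by ring
    rw [h8]
    linarith
  refine le_trans ?_ h1
  rw [← Real.exp_sum, ← mul_sum]
  apply Real.exp_le_exp.2
  linarith

private theorem mu_bd {ι : Type} (S : Finset ι) (Q : Finset ℕ) (kill : ℕ → ℕ → ι → Prop) (t : ℕ)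
    (ht : 4 ≤ t) (hQ : ∀ q ∈ Q, q.Prime ∧ t < q ∧ q ≤ 2 ^ t)
    (h4 : ∀ q ∈ Q, ∀ T ∈ S, cs (range q) (fun m => kill q m T) ≤ 4) :
    0 ≤ ∑ T ∈ S, ∏ q ∈ Q, (1 - (cs (range q) (fun m => kill q m T) : ℝ) / q) ∧
    ∑ T ∈ S, ∏ q ∈ Q, (1 - (cs (range q) (fun m => kill q m T) : ℝ) / q) ≤ S.card := by
  have hf : ∀ T ∈ S, ∀ q ∈ Q, 0 ≤ 1 - (cs (range q) (fun m => kill q m T) : ℝ) / q ∧
      1 - (cs (range q) (fun m => kill q m T) : ℝ) / q ≤ 1 := by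
    intro T hT q hq
    obtain ⟨a, b, c⟩ := hQ q hq
    have hq0 : (0 : ℝ) < q := by exact_mod_cast a.pos
    have hc : (cs (range q) (fun m => kill q m T) : ℝ) ≤ q := by
      exact_mod_cast (h4 q hq T hT).trans (by omega)
    have h1 : (cs (range q) (fun m => kill q m T) : ℝ) / q ≤ 1 := by
      rw [div_le_one hq0]; exact hc
    have h2 : 0 ≤ (cs (range q) (fun m => kill q m T) : ℝ) / q := by positivity
    constructor <;> linarith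
  constructor
  · exact sum_nonneg fun T hT => prod_nonneg fun q hq => (hf T hT q hq).1
  · have : ∑ T ∈ S, ∏ q ∈ Q, (1 - (cs (range q) (fun m => kill q m T) : ℝ) / q) ≤
        ∑ T ∈ S, (1 : ℝ) :=
      sum_le_sum fun T hT => prod_le_one (fun q hq => (hf T hT q hq).1) fun q hq => (hf T hT q hq).2
    simpa using this

private theorem ev_exp (k : ℕ) (K : ℝ) (hK : 0 < K) :
    ∃ t0 : ℕ, ∀ t ≥ t0, K * (t : ℝ) ^ k ≤ 2 ^ t := by
  have h := tendsto_pow_const_div_const_pow_of_one_lt k (r := (2 : ℝ)) (by norm_num)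
  have h1 := (h.eventually (gt_mem_nhds (show (0 : ℝ) < 1 / K by positivity)))
  obtain ⟨t0, ht0⟩ := Filter.eventually_atTop.1 h1
  refine ⟨t0, fun t ht => ?_⟩
  have h2 := ht0 t ht
  rw [div_lt_div_iff₀ (by positivity) hK] at h2
  linarith

private theorem ev_log (K : ℝ) : ∃ t0 : ℕ, ∀ t ≥ t0, K ≤ Real.log t := by
  have h : Filter.Tendsto (fun t : ℕ => Real.log (t : ℝ)) Filter.atTop Filter.atTop :=
    Real.tendsto_log_atTop.comp tendsto_natCast_atTop_atTop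
  obtain ⟨t0, ht0⟩ := Filter.eventually_atTop.1 (h.eventually_ge_atTop K)
  exact ⟨t0, ht0⟩

theorem surv (g C : ℕ) (hg : 1 ≤ g) : ∃ t0 : ℕ, ∀ t ≥ t0, ∀ (ι : Type) (S : Finset ι) (Q : Finset ℕ)
    (kill : ℕ → ℕ → ι → Prop), S.Nonempty →
    (∀ q ∈ Q, q.Prime ∧ t < q ∧ q ≤ 2 ^ t) →
    (∀ q ∈ Q, ∀ m, ∀ T ∈ S, (kill q (m + q) T ↔ kill q m T)) →
    (∀ q ∈ Q, ∀ T ∈ S, cs (range q) (fun m => kill q m T) ≤ 4) →
    (∀ q ∈ Q, ∀ m, cs S (kill q m) * t ^ 20 ≤ S.card) →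
    ∀ N : ℕ, AA g t ≤ N ^ 2 →
    cs (range N) (fun m => cs S (fun T => ∀ q ∈ Q, ¬ kill q m T) * t ^ 10 < S.card) * t ^ C ≤ N := by
  obtain ⟨C0, hC0, hinv⟩ := invsum
  obtain ⟨t1, ht1⟩ := surv_mom g (C + 1) hg
  obtain ⟨t2, ht2⟩ := ev_exp (C + 10 * (C + 1)) (2 * 2 ^ (2 * (C + 1))) (by positivity)
  obtain ⟨t3, ht3⟩ := ev_log ((Real.log 2 + 44 / 10 * C0) / (6 / 10))
  obtain ⟨t4, ht4⟩ := ev_log (4 * C0)
  refine ⟨t1 + t2 + t3 + t4 + 44 + 2 * (2 * (C + 1)).factorial, ?_⟩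
  intro t ht ι S Q kill hne hQ hper h4 hkill N hN
  have a1 := ht1 t (by omega)
  have a2 := ht2 t (by omega)
  have a3 := ht3 t (by omega)
  have a4 := ht4 t (by omega)
  have hT1 : (1 : ℝ) ≤ t := by exact_mod_cast (by omega : 1 ≤ t)
  have hT0 : (0 : ℝ) < t := by linarith
  have hs0 : (0 : ℝ) < S.card := by exact_mod_cast hne.card_pos
  have hZ := hinv t (by omega) Q hQ
  obtain ⟨hmu0, hmu1⟩ := mu_bd S Q kill t (by omega) hQ h4
  have hmul := mu_low S Q kill t (by omega) hQ h4 hZ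
  set μ := ∑ T ∈ S, ∏ q ∈ Q, (1 - (cs (range q) (fun m => kill q m T) : ℝ) / q) with hμ
  have hexp5 : Real.exp (5 * Real.log t) = (t : ℝ) ^ 5 := by
    rw [show (5 : ℝ) * Real.log t = ((5 : ℕ) : ℝ) * Real.log t by norm_num, ← Real.log_pow,
      Real.exp_log (by positivity)]
  have hμ5 : 2 * (S.card : ℝ) ≤ μ * (t : ℝ) ^ 5 := by
    have h1 : (2 : ℝ) ≤ Real.exp (-(44 / 10) * (Real.log t + C0)) * (t : ℝ) ^ 5 := by
      rw [← hexp5, ← Real.exp_add, ← Real.log_le_iff_le_exp (by norm_num)]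
      rw [div_le_iff₀ (by norm_num)] at a3
      linarith
    have h2 := mul_le_mul_of_nonneg_right hmul (by positivity : (0 : ℝ) ≤ (t : ℝ) ^ 5)
    nlinarith
  -- the moment bound
  set r := C + 1 with hr
  have hB0 : (0 : ℝ) < (S.card : ℝ) / (t : ℝ) ^ 20 := by positivity
  have hBS : (S.card : ℝ) / (t : ℝ) ^ 20 ≤ S.card :=
    div_le_self hs0.le (one_le_pow₀ hT1)
  have hBk : ∀ q ∈ Q, ∀ m, (cs S (kill q m) : ℝ) ≤ (S.card : ℝ) / (t : ℝ) ^ 20 := by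
    intro q hq m
    rw [le_div_iff₀ (by positivity)]
    exact_mod_cast hkill q hq m
  have hmom := moment Q (fun q hq => (hQ q hq).1) S kill hper hB0 hBS hBk (κ := 4)
    (fun q hq T hT => by exact_mod_cast h4 q hq T hT) r
  have hsm := a1 ι S Q kill hQ hper h4 N hN μ hmu0 hmu1
  have hP0 : (0 : ℝ) < ((∏ q ∈ Q, q : ℕ) : ℝ) := by
    exact_mod_cast prod_pos fun q hq => (hQ q hq).1.pos
  have hN0 : (0 : ℝ) ≤ N := Nat.cast_nonneg N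
  have hexp4 : Real.exp (4 * ∑ q ∈ Q, 1 / (q : ℝ)) ≤ (t : ℝ) ^ 5 := by
    rw [← hexp5]
    apply Real.exp_le_exp.2
    linarith
  have hsum : ∑ m ∈ range N, ((cs S (fun T => ∀ q ∈ Q, ¬ kill q m T) : ℝ) - μ) ^ (2 * r) ≤
      N * ((2 * r).factorial * ((S.card : ℝ) / (t : ℝ) ^ 20 * S.card) ^ r * (t : ℝ) ^ 5)
        + (2 * (S.card : ℝ)) ^ (2 * r) * N / 2 ^ t := by
    have h1 := (abs_le.1 hsm).2
    have h2 : (N : ℝ) / ((∏ q ∈ Q, q : ℕ) : ℝ) * ∑ m ∈ range (∏ q ∈ Q, q),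
        ((cs S (fun T => ∀ q ∈ Q, ¬ kill q m T) : ℝ) - μ) ^ (2 * r) ≤
        N * ((2 * r).factorial * ((S.card : ℝ) / (t : ℝ) ^ 20 * S.card) ^ r * (t : ℝ) ^ 5) := by
      calc (N : ℝ) / ((∏ q ∈ Q, q : ℕ) : ℝ) * ∑ m ∈ range (∏ q ∈ Q, q),
            ((cs S (fun T => ∀ q ∈ Q, ¬ kill q m T) : ℝ) - μ) ^ (2 * r)
          ≤ (N : ℝ) / ((∏ q ∈ Q, q : ℕ) : ℝ) * (((∏ q ∈ Q, q : ℕ) : ℝ) *
              ((2 * r).factorial * ((S.card : ℝ) / (t : ℝ) ^ 20 * S.card) ^ r *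
                Real.exp (4 * ∑ q ∈ Q, 1 / (q : ℝ)))) :=
            mul_le_mul_of_nonneg_left hmom (by positivity)
        _ = N * ((2 * r).factorial * ((S.card : ℝ) / (t : ℝ) ^ 20 * S.card) ^ r *
                Real.exp (4 * ∑ q ∈ Q, 1 / (q : ℝ))) := by
            rw [← mul_assoc, div_mul_cancel₀ _ hP0.ne']
        _ ≤ _ := by gcongr
    linarith
  -- counting
  set M := cs (range N) (fun m => cs S (fun T => ∀ q ∈ Q, ¬ kill q m T) * t ^ 10 < S.card) with hM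
  have hcount : (M : ℝ) * ((S.card : ℝ) / (t : ℝ) ^ 5) ^ (2 * r) ≤
      ∑ m ∈ range N, ((cs S (fun T => ∀ q ∈ Q, ¬ kill q m T) : ℝ) - μ) ^ (2 * r) := by
    have h1 : ∑ m ∈ sel (range N)
        (fun m => cs S (fun T => ∀ q ∈ Q, ¬ kill q m T) * t ^ 10 < S.card),
        ((cs S (fun T => ∀ q ∈ Q, ¬ kill q m T) : ℝ) - μ) ^ (2 * r) ≤
        ∑ m ∈ range N, ((cs S (fun T => ∀ q ∈ Q, ¬ kill q m T) : ℝ) - μ) ^ (2 * r) :=
      sum_le_sum_of_subset_of_nonneg (sel_subset _ _) fun i _ _ =>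
        (even_two_mul r).pow_nonneg _
    refine le_trans ?_ h1
    rw [hM, cs, ← nsmul_eq_mul]
    refine card_nsmul_le_sum _ _ _ fun m hm => ?_
    have hm2 := (mem_sel.1 hm).2
    have hx : (cs S (fun T => ∀ q ∈ Q, ¬ kill q m T) : ℝ) * (t : ℝ) ^ 10 < S.card := by
      exact_mod_cast hm2
    set x := (cs S (fun T => ∀ q ∈ Q, ¬ kill q m T) : ℝ) with hxdef
    have hx0 : 0 ≤ x := Nat.cast_nonneg _
    have hx5 : x * (t : ℝ) ^ 5 ≤ S.card := by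
      have : (t : ℝ) ^ 5 ≤ (t : ℝ) ^ 10 := pow_le_pow_right₀ hT1 (by norm_num)
      nlinarith [mul_le_mul_of_nonneg_left this hx0]
    have h5 : (S.card : ℝ) / (t : ℝ) ^ 5 ≤ μ - x := by
      rw [div_le_iff₀ (by positivity), sub_mul]
      linarith
    have h6 : (x - μ) ^ (2 * r) = (μ - x) ^ (2 * r) := by
      rw [← neg_sub, (even_two_mul r).neg_pow]
    rw [h6]
    exact pow_le_pow_left₀ (by positivity) h5 _
  have hall := hcount.trans hsum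
  -- arithmetic
  have hsr : (0 : ℝ) < (S.card : ℝ) ^ (2 * r) := by positivity
  have e1 : ((S.card : ℝ) / (t : ℝ) ^ 5) ^ (2 * r) = (S.card : ℝ) ^ (2 * r) / (t : ℝ) ^ (10 * r) := by
    rw [div_pow, ← pow_mul]; congr 2; ring
  have e2 : ((S.card : ℝ) / (t : ℝ) ^ 20 * S.card) ^ r =
      (S.card : ℝ) ^ (2 * r) / (t : ℝ) ^ (20 * r) := by
    rw [div_mul_eq_mul_div, div_pow, ← pow_mul, ← sq, ← pow_mul]
  rw [e1, e2, mul_pow] at hall
  have hT10 : (0 : ℝ) < (t : ℝ) ^ (10 * r) := by positivity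
  have hT20 : (t : ℝ) ^ (20 * r) = (t : ℝ) ^ (10 * r) * (t : ℝ) ^ (10 * r) := by
    rw [← pow_add]; congr 1; ring
  have key : (M : ℝ) ≤ N * ((2 * r).factorial * (t : ℝ) ^ 5 / (t : ℝ) ^ (10 * r))
      + N * (2 ^ (2 * r) * (t : ℝ) ^ (10 * r) / 2 ^ t) := by
    have h1 : (M : ℝ) * ((S.card : ℝ) ^ (2 * r) / (t : ℝ) ^ (10 * r)) ≤
        (N * ((2 * r).factorial * (t : ℝ) ^ 5 / (t : ℝ) ^ (10 * r))
          + N * (2 ^ (2 * r) * (t : ℝ) ^ (10 * r) / 2 ^ t)) *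
          ((S.card : ℝ) ^ (2 * r) / (t : ℝ) ^ (10 * r)) := by
      refine hall.trans (le_of_eq ?_)
      rw [hT20]
      field_simp
    exact le_of_mul_le_mul_right h1 (by positivity)
  have k1 : ((2 * r).factorial : ℝ) * (t : ℝ) ^ 5 / (t : ℝ) ^ (10 * r) * (t : ℝ) ^ C ≤ 1 / 2 := by
    rw [div_mul_eq_mul_div, div_le_div_iff₀ hT10 (by norm_num)]
    have f1 : 2 * ((2 * r).factorial : ℝ) ≤ t := by
      have : 2 * (2 * r).factorial ≤ t := by omega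
      exact_mod_cast this
    have f2 : (t : ℝ) ^ (C + 6) ≤ (t : ℝ) ^ (10 * r) := pow_le_pow_right₀ hT1 (by omega)
    calc ((2 * r).factorial : ℝ) * (t : ℝ) ^ 5 * (t : ℝ) ^ C * 2
        = (2 * ((2 * r).factorial : ℝ)) * ((t : ℝ) ^ 5 * (t : ℝ) ^ C) := by ring
      _ ≤ t * ((t : ℝ) ^ 5 * (t : ℝ) ^ C) := by gcongr
      _ = (t : ℝ) ^ (C + 6) := by ring
      _ ≤ 1 * (t : ℝ) ^ (10 * r) := by rw [one_mul]; exact f2
  have k2 : 2 ^ (2 * r) * (t : ℝ) ^ (10 * r) / 2 ^ t * (t : ℝ) ^ C ≤ 1 / 2 := by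
    rw [div_mul_eq_mul_div, div_le_div_iff₀ (by positivity) (by norm_num)]
    calc 2 ^ (2 * r) * (t : ℝ) ^ (10 * r) * (t : ℝ) ^ C * 2
        = 2 * 2 ^ (2 * r) * (t : ℝ) ^ (C + 10 * r) := by rw [pow_add]; ring
      _ ≤ 1 * 2 ^ t := by rw [one_mul]; exact a2
  have hfin : (M : ℝ) * (t : ℝ) ^ C ≤ N := by
    have hTC : (0 : ℝ) ≤ (t : ℝ) ^ C := by positivity
    calc (M : ℝ) * (t : ℝ) ^ C ≤ (N * ((2 * r).factorial * (t : ℝ) ^ 5 / (t : ℝ) ^ (10 * r))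
          + N * (2 ^ (2 * r) * (t : ℝ) ^ (10 * r) / 2 ^ t)) * (t : ℝ) ^ C :=
          mul_le_mul_of_nonneg_right key hTC
      _ = N * (((2 * r).factorial : ℝ) * (t : ℝ) ^ 5 / (t : ℝ) ^ (10 * r) * (t : ℝ) ^ C)
          + N * (2 ^ (2 * r) * (t : ℝ) ^ (10 * r) / 2 ^ t * (t : ℝ) ^ C) := by ring
      _ ≤ N * (1 / 2) + N * (1 / 2) := by gcongr
      _ = N := by ring
  exact_mod_cast hfin

end Pool.Agent.H17.RP
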