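import Pool.Agent.H17.RP.L0

/-!
# SurvA: moments of the number of survivors in an interval and in the model

`X(m) = #{T ∈ S : not killed at m}`, `0 ≤ μ ≤ |S|`; at most four classes modulo `q` kill `T`.
`|Σ_(m<N) (X(m) - μ)^(2r) - (N/∏Q) Σ_(m<∏Q) (X(m)-μ)^(2r)| ≤ (2|S|)^(2r) N/2^t`.
Proof. For `k ≤ 2r`: `X(m)^k = Σ_(τ : Fin k → S) 1[all τ i survive at m]` (`Finset.sum_pow'` or
`Finset.prod_univ_sum`).  For each `τ` the set of `m` for which all `τ i` survive is the sifted set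
for the predicates `Z q m = (∃ i, kill q m (τ i))` with at most `4k ≤ 8r` classes: by `L0` (`κ = 8r`;
`q ≤ 2^t ≤ 2^(t^(4g-1))`) its number in `range N` is `N ∏_q (1 - z/q)` up to `N/2^t`, and in the model
`range (∏ Q)` it is exactly `(∏ Q) ∏_q (1 - z/q)` (`crt_card` for `¬ Z`, `z` = number of classes of `Z`).
Expand `(X - μ)^(2r)` by the binomial theorem: the total error is at most
`Σ_k C(2r,k) μ^(2r-k) |S|^k N/2^t ≤ (2|S|)^(2r) N/2^t`.
-/

set_option autoImplicit false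

namespace Pool.Agent.H17.RP

open Finset

section

variable {ι : Type}

open Classical in
theorem surv_pow_expand (S : Finset ι) (A : ι → Prop) (k : ℕ) :
    (cs S A : ℝ) ^ k =
      ∑ τ ∈ Fintype.piFinset (fun _ : Fin k => S), if (∀ i, A (τ i)) then (1 : ℝ) else 0 := by
  have h0 : (cs S A : ℝ) = ∑ x ∈ S, if A x then (1 : ℝ) else 0 := by
    rw [cs_eq_sum]
    push_cast
    rfl
  have h := Finset.prod_univ_sum (fun _ : Fin k => S) (fun _ T => if A T then (1 : ℝ) else 0)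
  rw [Finset.prod_const, Finset.card_univ, Fintype.card_fin] at h
  rw [h0, h]
  refine sum_congr rfl fun τ _ => ?_
  by_cases hA : ∀ i, A (τ i)
  · rw [if_pos hA]
    refine Finset.prod_eq_one fun i _ => ?_
    rw [if_pos (hA i)]
  · rw [if_neg hA]
    push Not at hA
    obtain ⟨i, hi⟩ := hA
    refine Finset.prod_eq_zero (mem_univ i) ?_
    rw [if_neg hi]

open Classical in
theorem surv_sum_pow (S : Finset ι) (B : Finset ℕ) (A : ℕ → ι → Prop) (k : ℕ) :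
    ∑ m ∈ B, (cs S (A m) : ℝ) ^ k =
      ∑ τ ∈ Fintype.piFinset (fun _ : Fin k => S), (cs B (fun m => ∀ i, A m (τ i)) : ℝ) := by
  have h1 : ∀ m ∈ B, (cs S (A m) : ℝ) ^ k =
      ∑ τ ∈ Fintype.piFinset (fun _ : Fin k => S),
        if (∀ i, A m (τ i)) then (1 : ℝ) else 0 := fun m _ => surv_pow_expand S (A m) k
  rw [sum_congr rfl h1, sum_comm]
  refine sum_congr rfl fun τ _ => ?_
  rw [cs_eq_sum]
  push_cast
  rfl

end

theorem surv_pow (g r : ℕ) (hg : 1 ≤ g) : ∃ t0 : ℕ, ∀ t ≥ t0, ∀ (ι : Type) (S : Finset ι)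
    (Q : Finset ℕ) (kill : ℕ → ℕ → ι → Prop),
    (∀ q ∈ Q, q.Prime ∧ t < q ∧ q ≤ 2 ^ t) →
    (∀ q ∈ Q, ∀ m, ∀ T ∈ S, (kill q (m + q) T ↔ kill q m T)) →
    (∀ q ∈ Q, ∀ T ∈ S, cs (range q) (fun m => kill q m T) ≤ 4) →
    ∀ N : ℕ, AA g t ≤ N ^ 2 → ∀ k ≤ 2 * r,
    |∑ m ∈ range N, (cs S (fun T => ∀ q ∈ Q, ¬ kill q m T) : ℝ) ^ k -
      N / ((∏ q ∈ Q, q : ℕ) : ℝ) * ∑ m ∈ range (∏ q ∈ Q, q),
        (cs S (fun T => ∀ q ∈ Q, ¬ kill q m T) : ℝ) ^ k| ≤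
      (S.card : ℝ) ^ k * (N / 2 ^ t) := by
  classical
  obtain ⟨t0, h0⟩ := L0 g (8 * r) hg
  refine ⟨t0, fun t ht ι S Q kill hQ hper hcl N hN k hk => ?_⟩
  rw [surv_sum_pow S (range N) (fun m T => ∀ q ∈ Q, ¬ kill q m T) k,
    surv_sum_pow S (range (∏ q ∈ Q, q)) (fun m T => ∀ q ∈ Q, ¬ kill q m T) k,
    mul_sum, ← sum_sub_distrib]
  refine (Finset.abs_sum_le_sum_abs _ _).trans ?_
  have hcard : ((Fintype.piFinset (fun _ : Fin k => S)).card : ℝ) = (S.card : ℝ) ^ k := by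
    rw [Fintype.card_piFinset_const]
    push_cast
    rfl
  have key : ∀ τ ∈ Fintype.piFinset (fun _ : Fin k => S),
      |(cs (range N) (fun m => ∀ i, ∀ q ∈ Q, ¬ kill q m (τ i)) : ℝ) -
        N / ((∏ q ∈ Q, q : ℕ) : ℝ) *
          (cs (range (∏ q ∈ Q, q)) (fun m => ∀ i, ∀ q ∈ Q, ¬ kill q m (τ i)) : ℝ)| ≤
        N / 2 ^ t := by
    intro τ hτ
    rw [Fintype.mem_piFinset] at hτ
    have hZper : ∀ q ∈ Q, ∀ m, (∃ i, kill q (m + q) (τ i)) ↔ (∃ i, kill q m (τ i)) := by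
      intro q hq m
      constructor
      · rintro ⟨i, hi⟩
        exact ⟨i, (hper q hq m (τ i) (hτ i)).1 hi⟩
      · rintro ⟨i, hi⟩
        exact ⟨i, (hper q hq m (τ i) (hτ i)).2 hi⟩
    have hZcl : ∀ q ∈ Q, cs (range q) (fun m => ∃ i, kill q m (τ i)) ≤ 8 * r := by
      intro q hq
      have h1 : cs (range q) (fun m => ∃ i, kill q m (τ i)) ≤
          ∑ i ∈ (univ : Finset (Fin k)), cs (range q) (fun m => kill q m (τ i)) := by
        refine le_trans (le_of_eq (cs_congr fun m _ => ?_))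
          (cs_exists (range q) (univ : Finset (Fin k)) (fun i m => kill q m (τ i)))
        simp
      have h2 : ∑ i ∈ (univ : Finset (Fin k)), cs (range q) (fun m => kill q m (τ i)) ≤
          ∑ _i ∈ (univ : Finset (Fin k)), 4 :=
        sum_le_sum fun i _ => hcl q hq (τ i) (hτ i)
      rw [sum_const, card_univ, Fintype.card_fin, smul_eq_mul] at h2
      omega
    have hQ' : ∀ q ∈ Q, q.Prime ∧ q ≤ 2 ^ (t ^ (4 * g - 1)) := by
      intro q hq
      refine ⟨(hQ q hq).1, (hQ q hq).2.2.trans ?_⟩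
      exact Nat.pow_le_pow_right (by norm_num) (Nat.le_self_pow (by omega) t)
    have hL := h0 t ht Q (fun q m => ∃ i, kill q m (τ i)) hQ' hZper hZcl N hN
    have e1 : ∀ B : Finset ℕ, cs B (fun m => ∀ i, ∀ q ∈ Q, ¬ kill q m (τ i)) =
        cs B (fun m => ∀ q ∈ Q, ¬ ∃ i, kill q m (τ i)) := by
      intro B
      refine cs_congr fun m _ => ?_
      constructor
      · rintro h q hq ⟨i, hi⟩
        exact h i q hq hi
      · intro h i q hq hi
        exact h q hq ⟨i, hi⟩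
    have hcrt := crt_card Q (fun q hq => (hQ q hq).1) (fun q m => ¬ ∃ i, kill q m (τ i))
      (fun q hq m => not_congr (hZper q hq m))
    have hpos : ∀ q ∈ Q, (q : ℝ) ≠ 0 := by
      intro q hq
      have := (hQ q hq).1.pos
      positivity
    have e2 : (N : ℝ) / ((∏ q ∈ Q, q : ℕ) : ℝ) *
        (cs (range (∏ q ∈ Q, q)) (fun m => ∀ q ∈ Q, ¬ ∃ i, kill q m (τ i)) : ℝ) =
        N * ∏ q ∈ Q, (1 - (cs (range q) (fun m => ∃ i, kill q m (τ i)) : ℝ) / q) := by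
      rw [hcrt, Nat.cast_prod, Nat.cast_prod]
      have e3 : ∀ q ∈ Q, (1 - (cs (range q) (fun m => ∃ i, kill q m (τ i)) : ℝ) / q) =
          (cs (range q) (fun m => ¬ ∃ i, kill q m (τ i)) : ℝ) / q := by
        intro q hq
        have h5 := cs_not (range q) (fun m => ∃ i, kill q m (τ i))
        rw [card_range] at h5
        have h6 : (cs (range q) (fun m => ∃ i, kill q m (τ i)) : ℝ) +
            (cs (range q) (fun m => ¬ ∃ i, kill q m (τ i)) : ℝ) = q := by exact_mod_cast h5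
        have h7 := hpos q hq
        rw [eq_div_iff h7, sub_mul, div_mul_cancel₀ _ h7]
        linarith
      rw [prod_congr rfl e3, prod_div_distrib]
      ring
    rw [e1, e1, e2]
    exact hL
  refine (sum_le_sum key).trans (le_of_eq ?_)
  rw [sum_const, nsmul_eq_mul, hcard]

theorem surv_mom (g r : ℕ) (hg : 1 ≤ g) : ∃ t0 : ℕ, ∀ t ≥ t0, ∀ (ι : Type) (S : Finset ι)
    (Q : Finset ℕ) (kill : ℕ → ℕ → ι → Prop),
    (∀ q ∈ Q, q.Prime ∧ t < q ∧ q ≤ 2 ^ t) →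
    (∀ q ∈ Q, ∀ m, ∀ T ∈ S, (kill q (m + q) T ↔ kill q m T)) →
    (∀ q ∈ Q, ∀ T ∈ S, cs (range q) (fun m => kill q m T) ≤ 4) →
    ∀ N : ℕ, AA g t ≤ N ^ 2 → ∀ μ : ℝ, 0 ≤ μ → μ ≤ S.card →
    |∑ m ∈ range N, ((cs S (fun T => ∀ q ∈ Q, ¬ kill q m T) : ℝ) - μ) ^ (2 * r) -
      N / ((∏ q ∈ Q, q : ℕ) : ℝ) * ∑ m ∈ range (∏ q ∈ Q, q),
        ((cs S (fun T => ∀ q ∈ Q, ¬ kill q m T) : ℝ) - μ) ^ (2 * r)| ≤
      (2 * (S.card : ℝ)) ^ (2 * r) * N / 2 ^ t := by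
  obtain ⟨t0, h0⟩ := surv_pow g r hg
  refine ⟨t0, fun t ht ι S Q kill hQ hper hcl N hN μ hμ hμS => ?_⟩
  have h := h0 t ht ι S Q kill hQ hper hcl N hN
  generalize hX : (fun m => (cs S (fun T => ∀ q ∈ Q, ¬ kill q m T) : ℝ)) = X at h ⊢
  have hXm : ∀ m, (cs S (fun T => ∀ q ∈ Q, ¬ kill q m T) : ℝ) = X m := fun m => congrFun hX m
  simp only [hXm] at h ⊢
  set c : ℝ := (N : ℝ) / ((∏ q ∈ Q, q : ℕ) : ℝ) with hc
  have hexp : ∀ B : Finset ℕ, ∑ m ∈ B, (X m - μ) ^ (2 * r) =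
      ∑ k ∈ range (2 * r + 1), (-μ) ^ (2 * r - k) * ((2 * r).choose k : ℝ) *
        ∑ m ∈ B, X m ^ k := by
    intro B
    have h1 : ∀ m ∈ B, (X m - μ) ^ (2 * r) =
        ∑ k ∈ range (2 * r + 1), X m ^ k * (-μ) ^ (2 * r - k) * ((2 * r).choose k : ℝ) := by
      intro m _
      rw [sub_eq_add_neg, add_pow]
    rw [sum_congr rfl h1, sum_comm]
    refine sum_congr rfl fun k _ => ?_
    rw [mul_sum]
    refine sum_congr rfl fun m _ => ?_
    ring
  rw [hexp, hexp, mul_sum, ← sum_sub_distrib]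
  refine (Finset.abs_sum_le_sum_abs _ _).trans ?_
  have hterm : ∀ k ∈ range (2 * r + 1),
      |(-μ) ^ (2 * r - k) * ((2 * r).choose k : ℝ) * ∑ m ∈ range N, X m ^ k -
        c * ((-μ) ^ (2 * r - k) * ((2 * r).choose k : ℝ) *
          ∑ m ∈ range (∏ q ∈ Q, q), X m ^ k)| ≤
      (S.card : ℝ) ^ k * μ ^ (2 * r - k) * ((2 * r).choose k : ℝ) * (N / 2 ^ t) := by
    intro k hk
    rw [mem_range] at hk
    have h2 := h k (by omega)
    have e : (-μ) ^ (2 * r - k) * ((2 * r).choose k : ℝ) * ∑ m ∈ range N, X m ^ k -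
        c * ((-μ) ^ (2 * r - k) * ((2 * r).choose k : ℝ) *
          ∑ m ∈ range (∏ q ∈ Q, q), X m ^ k) =
        (-μ) ^ (2 * r - k) * (((2 * r).choose k : ℝ) *
          (∑ m ∈ range N, X m ^ k - c * ∑ m ∈ range (∏ q ∈ Q, q), X m ^ k)) := by ring
    rw [e, abs_mul, abs_mul, abs_pow, abs_neg, abs_of_nonneg hμ,
      abs_of_nonneg (Nat.cast_nonneg ((2 * r).choose k) : (0 : ℝ) ≤ _)]
    have h3 : 0 ≤ μ ^ (2 * r - k) := by positivity
    have h4 : (0 : ℝ) ≤ ((2 * r).choose k : ℝ) := Nat.cast_nonneg _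
    calc μ ^ (2 * r - k) * (((2 * r).choose k : ℝ) *
          |∑ m ∈ range N, X m ^ k - c * ∑ m ∈ range (∏ q ∈ Q, q), X m ^ k|) ≤
          μ ^ (2 * r - k) * (((2 * r).choose k : ℝ) * ((S.card : ℝ) ^ k * (N / 2 ^ t))) :=
          mul_le_mul_of_nonneg_left (mul_le_mul_of_nonneg_left h2 h4) h3
      _ = (S.card : ℝ) ^ k * μ ^ (2 * r - k) * ((2 * r).choose k : ℝ) * (N / 2 ^ t) := by ring
  refine (sum_le_sum hterm).trans ?_
  rw [← sum_mul, ← add_pow, mul_div_assoc]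
  refine mul_le_mul_of_nonneg_right ?_ (by positivity)
  refine pow_le_pow_left₀ (by positivity) ?_ _
  linarith

end Pool.Agent.H17.RP
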