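import Pool.Agent.H17.RP.CharSum
import Pool.Agent.H17.RP.CntChar
import Pool.Agent.H17.RP.MedSum
import Pool.Agent.H17.RP.Model

/-!
# UnifProb: most sets `D` have equidistributed subset products

If `¬ Unif e1 e3 t D` then by `cnt_char` for some `M ≤ t^e1`, `3 ∣ M`, and some character `χ` modulo `M`
which is nontrivial (`∃ u` prime to `M`, `u = 1 mod 3`, `χ u ≠ 1`) `∏_(p∈D) |1+χ(p)| > 2^|D|/t^e3`, i.e.
`∏_(p∈D) |1+χ(p)|²/4 > t^(-2 e3)` (all `p ∈ P` are `> 2^(t^(2g)) > t^e1 ≥ M`, so prime to `M`).  For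
given `M`, `χ` by `Pr_markov` and `exp_prod` (`|1+χ|² = 2 + 2 Re χ` because `|χ(p)| = 1`)
`Pr ≤ t^(2 e3) ∏_(p∈P) (1 - 2/p + (2/p)(1 + Re χ(p))/2) = t^(2 e3) ∏ (1 - (1 - Re χ(p))/p)
≤ t^(2 e3) exp (- Σ_(p∈P) 1/p + Σ_(p∈P) Re χ(p)/p) ≤ t^(2 e3) e^2 t^(-(g-1))`
(`med_low`, `charSum`; the primes of `med \ P` change the sum of `Re χ(p)/p` by at most
`t^E/2^(t^(2g)) ≤ 1`).  There are at most `t^(2 e1)` pairs `(M, χ)` (`Pr_exists`).
`g0 ≥ 2 e1 + 2 e3 + C5 + 3` and `≥ g0(charSum)`.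
-/

set_option autoImplicit false

namespace Pool.Agent.H17.RP

open Finset

private theorem up_pow (E : ℕ) : ∃ t0 : ℕ, ∀ t : ℕ, t0 ≤ t → t ^ E ≤ 2 ^ t := by
  have h := (isLittleO_pow_const_const_pow_of_one_lt (R := ℝ) E (r := 2) (by norm_num)).bound
    (c := 1) (by norm_num)
  obtain ⟨t0, ht0⟩ := Filter.eventually_atTop.1 h
  refine ⟨t0, fun t ht => ?_⟩
  have h1 := ht0 t ht
  rw [one_mul, Real.norm_of_nonneg (by positivity), Real.norm_of_nonneg (by positivity)] at h1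
  exact_mod_cast h1

private theorem up_sq (z : ℂ) (h : ‖z‖ ≤ 1) : (‖1 + z‖ / 2) ^ 2 ≤ (1 + z.re) / 2 := by
  have h1 : ‖1 + z‖ ^ 2 = 1 + 2 * z.re + ‖z‖ ^ 2 := by
    rw [← Complex.normSq_eq_norm_sq, ← Complex.normSq_eq_norm_sq, Complex.normSq_apply,
      Complex.normSq_apply, Complex.add_re, Complex.add_im, Complex.one_re, Complex.one_im]
    ring
  have h2 : ‖z‖ ^ 2 ≤ 1 := pow_le_one₀ (norm_nonneg z) h
  rw [div_pow, h1]
  linarith

/-- the probability that one character is large -/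
private theorem up_char (e3 : ℕ) (g t : ℕ) (ht : 1 ≤ t) (P : Finset ℕ) (hP : P ⊆ med g t)
    (M : ℕ) (χ : DirichletCharacter ℂ M)
    (hsum : ∑ p ∈ med g t, (χ (p : ZMod M)).re / (p : ℝ) ≤ 1)
    (hlow : ((g : ℝ) - 1) * Real.log t ≤ ∑ p ∈ P, 1 / (p : ℝ))
    (hsmall : ∑ p ∈ med g t \ P, 1 / (p : ℝ) ≤ 1) :
    Pr P (fun D => 2 ^ D.card / (t : ℝ) ^ e3 < ∏ p ∈ D, ‖1 + χ (p : ZMod M)‖) ≤
      (t : ℝ) ^ (2 * e3) * Real.exp (2 - ((g : ℝ) - 1) * Real.log t) := by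
  have ht0 : (0 : ℝ) < t := by exact_mod_cast ht
  have hpp : ∀ p ∈ med g t, 2 ≤ p := fun p hp => (mem_med.1 hp).2.1.two_le
  have hP2 : ∀ p ∈ P, 2 ≤ p := fun p hp => hpp p (hP hp)
  set f : ℕ → ℝ := fun p => (‖1 + χ (p : ZMod M)‖ / 2) ^ 2 with hf
  have h1 := Pr_markov (P := P) hP2
    (𝓑 := fun D => 2 ^ D.card / (t : ℝ) ^ e3 < ∏ p ∈ D, ‖1 + χ (p : ZMod M)‖)
    (G := fun D => (t : ℝ) ^ (2 * e3) * ∏ p ∈ D, f p)
    (fun D _ => by positivity) (by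
      intro D _ hD
      have e1 : ∏ p ∈ D, f p = ((∏ p ∈ D, ‖1 + χ (p : ZMod M)‖) / 2 ^ D.card) ^ 2 := by
        rw [hf, prod_pow, prod_div_distrib, prod_const]
      have h2 : 1 / (t : ℝ) ^ e3 ≤ (∏ p ∈ D, ‖1 + χ (p : ZMod M)‖) / 2 ^ D.card := by
        rw [le_div_iff₀ (by positivity)]
        refine le_trans (le_of_eq ?_) hD.le
        ring
      have h3 : (1 / (t : ℝ) ^ e3) ^ 2 ≤ ((∏ p ∈ D, ‖1 + χ (p : ZMod M)‖) / 2 ^ D.card) ^ 2 :=
        pow_le_pow_left₀ (by positivity) h2 2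
      show 1 ≤ (t : ℝ) ^ (2 * e3) * ∏ p ∈ D, f p
      rw [e1]
      calc (1 : ℝ) = (t : ℝ) ^ (2 * e3) * (1 / (t : ℝ) ^ e3) ^ 2 := by
            field_simp
            ring
        _ ≤ _ := mul_le_mul_of_nonneg_left h3 (by positivity))
  refine h1.trans ?_
  have e2 : ∑ D ∈ P.powerset, pr P D * ((t : ℝ) ^ (2 * e3) * ∏ p ∈ D, f p) =
      (t : ℝ) ^ (2 * e3) * ∏ p ∈ P, (1 - 2 / (p : ℝ) + 2 / p * f p) := by
    rw [← exp_prod, mul_sum]
    exact sum_congr rfl fun D _ => by ring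
  rw [e2]
  apply mul_le_mul_of_nonneg_left _ (by positivity)
  have h3 : ∏ p ∈ P, (1 - 2 / (p : ℝ) + 2 / p * f p) ≤
      ∏ p ∈ P, Real.exp (-(1 / (p : ℝ)) + (χ (p : ZMod M)).re / (p : ℝ)) := by
    apply prod_le_prod
    · intro p hp
      have h2 : (2 : ℝ) ≤ p := by exact_mod_cast hP2 p hp
      have h4 : 0 ≤ 1 - 2 / (p : ℝ) := by
        rw [sub_nonneg, div_le_one (by linarith)]
        exact h2
      positivity
    · intro p hp
      have h2 : (2 : ℝ) ≤ p := by exact_mod_cast hP2 p hp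
      have hp0 : (0 : ℝ) < p := by linarith
      have h4 : f p ≤ (1 + (χ (p : ZMod M)).re) / 2 :=
        up_sq _ (DirichletCharacter.norm_le_one χ _)
      have h5 := Real.add_one_le_exp (-(1 / (p : ℝ)) + (χ (p : ZMod M)).re / (p : ℝ))
      refine le_trans ?_ h5
      have h6 : 2 / (p : ℝ) * f p ≤ 2 / (p : ℝ) * ((1 + (χ (p : ZMod M)).re) / 2) :=
        mul_le_mul_of_nonneg_left h4 (by positivity)
      have h7 : 2 / (p : ℝ) * ((1 + (χ (p : ZMod M)).re) / 2) =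
          1 / (p : ℝ) + (χ (p : ZMod M)).re / (p : ℝ) := by
        field_simp
      have h8 : 2 / (p : ℝ) = 1 / (p : ℝ) + 1 / (p : ℝ) := by ring
      linarith
  refine h3.trans ?_
  rw [← Real.exp_sum]
  apply Real.exp_le_exp.2
  rw [sum_add_distrib, sum_neg_distrib]
  have h4 : ∑ p ∈ med g t \ P, (χ (p : ZMod M)).re / (p : ℝ) +
      ∑ p ∈ P, (χ (p : ZMod M)).re / (p : ℝ) =
      ∑ p ∈ med g t, (χ (p : ZMod M)).re / (p : ℝ) := sum_sdiff hP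
  have h5 : -(∑ p ∈ med g t \ P, 1 / (p : ℝ)) ≤
      ∑ p ∈ med g t \ P, (χ (p : ZMod M)).re / (p : ℝ) := by
    rw [← sum_neg_distrib]
    apply sum_le_sum
    intro p hp
    have h2 : (2 : ℝ) ≤ p := by exact_mod_cast hpp p (mem_sdiff.1 hp).1
    have hp0 : (0 : ℝ) < p := by linarith
    have h6 : -1 ≤ (χ (p : ZMod M)).re := by
      have h7 := Complex.abs_re_le_norm (χ (p : ZMod M))
      have h8 := DirichletCharacter.norm_le_one χ (p : ZMod M)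
      exact (abs_le.1 (h7.trans h8)).1
    rw [← neg_div]
    exact div_le_div_of_nonneg_right h6 hp0.le
  linarith

theorem unif_prob (e1 e3 C5 : ℕ) : ∃ g0 : ℕ, ∀ g ≥ g0, ∀ E : ℕ, ∃ t0 : ℕ, ∀ t ≥ t0,
    ∀ P ⊆ med g t, ((med g t) \ P).card ≤ t ^ E →
    Pr P (fun D => ¬ Unif e1 e3 t D) * (t : ℝ) ^ C5 ≤ 1 := by
  classical
  obtain ⟨ga, hga⟩ := charSum e1
  refine ⟨max ga (2 * e1 + 2 * e3 + C5 + 3), fun g hg E => ?_⟩
  have hg1 : ga ≤ g := (le_max_left _ _).trans hg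
  have hg2 : 2 * e1 + 2 * e3 + C5 + 3 ≤ g := (le_max_right _ _).trans hg
  obtain ⟨ta, hta⟩ := hga g hg1
  obtain ⟨tb, htb⟩ := med_low g E (by omega)
  obtain ⟨tc, htc⟩ := up_pow E
  refine ⟨ta + tb + tc + e1 + 3, fun t ht P hP hcard => ?_⟩
  have ht3 : 3 ≤ t := by omega
  have ht0 : (0 : ℝ) < t := by exact_mod_cast (by omega : 0 < t)
  have hpp : ∀ p ∈ med g t, 2 ≤ p := fun p hp => (mem_med.1 hp).2.1.two_le
  have hP2 : ∀ p ∈ P, 2 ≤ p := fun p hp => hpp p (hP hp)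
  have hlow := htb t (by omega) P hP hcard
  have hchar := hta t (by omega)
  have hpowE := htc t (by omega)
  have hbig : t ^ e1 ≤ 2 ^ (t ^ (2 * g)) := by
    calc t ^ e1 ≤ (2 ^ t) ^ e1 := Nat.pow_le_pow_left Nat.lt_two_pow_self.le _
      _ = 2 ^ (t * e1) := by rw [← pow_mul]
      _ ≤ 2 ^ (t ^ (2 * g)) := by
          apply Nat.pow_le_pow_right (by norm_num)
          calc t * e1 ≤ t * t := Nat.mul_le_mul_left t (by omega)
            _ = t ^ 2 := by ring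
            _ ≤ t ^ (2 * g) := Nat.pow_le_pow_right (by omega) (by omega)
  have hsmall : ∑ p ∈ (med g t) \ P, 1 / (p : ℝ) ≤ 1 := by
    have hle : ∀ p ∈ (med g t) \ P, 1 / (p : ℝ) ≤ 1 / (2 : ℝ) ^ t := by
      intro p hp
      have hp1 := (mem_med.1 (mem_sdiff.1 hp).1).1.1
      have h4 : t ≤ t ^ (2 * g) := by
        calc t = t ^ 1 := (pow_one t).symm
          _ ≤ t ^ (2 * g) := Nat.pow_le_pow_right (by omega) (by omega)
      have h5 : 2 ^ t ≤ 2 ^ (t ^ (2 * g)) := Nat.pow_le_pow_right (by norm_num) h4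
      have h6 : ((2 ^ t : ℕ) : ℝ) ≤ p := by exact_mod_cast h5.trans hp1.le
      push_cast at h6
      exact one_div_le_one_div_of_le (by positivity) h6
    calc ∑ p ∈ (med g t) \ P, 1 / (p : ℝ) ≤ ∑ _p ∈ (med g t) \ P, 1 / (2 : ℝ) ^ t :=
          Finset.sum_le_sum hle
      _ = ((med g t) \ P).card * (1 / (2 : ℝ) ^ t) := by rw [Finset.sum_const, nsmul_eq_mul]
      _ ≤ (2 : ℝ) ^ t * (1 / (2 : ℝ) ^ t) := by
          apply mul_le_mul_of_nonneg_right _ (by positivity)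
          exact_mod_cast hcard.trans hpowE
      _ = 1 := by field_simp
  set β : ℝ := (t : ℝ) ^ (2 * e3) * Real.exp (2 - ((g : ℝ) - 1) * Real.log t) with hβ
  have hβ0 : 0 ≤ β := by positivity
  -- the bad events for one modulus
  set BM : ℕ → Finset ℕ → Prop := fun M D => 3 ∣ M ∧ ∃ χ : DirichletCharacter ℂ M,
    (∃ u : ℕ, u.Coprime M ∧ u % 3 = 1 ∧ χ (u : ZMod M) ≠ 1) ∧
      2 ^ D.card / (t : ℝ) ^ e3 < ∏ p ∈ D, ‖1 + χ (p : ZMod M)‖ with hBM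
  have hstep1 : ∀ D ⊆ P, ¬ Unif e1 e3 t D → ∃ M ∈ Icc 1 (t ^ e1), BM M D := by
    intro D hD hU
    unfold Unif at hU
    push Not at hU
    obtain ⟨M, hM0, hMt, h3M, c, hc, hc3, hbad⟩ := hU
    refine ⟨M, mem_Icc.2 ⟨hM0, hMt⟩, h3M, ?_⟩
    by_contra hno
    push Not at hno
    have hDM : ∀ p ∈ D, p.Coprime M ∧ p % 3 = 1 := by
      intro p hp
      have hp1 := mem_med.1 (hP (hD hp))
      refine ⟨?_, hp1.2.2⟩
      rw [Nat.Prime.coprime_iff_not_dvd hp1.2.1]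
      intro hdvd
      have h1 := Nat.le_of_dvd hM0 hdvd
      have h2 := hp1.1.1
      omega
    have h1 := cnt_char hM0 h3M hDM hc hc3 (η := 2 ^ D.card / (t : ℝ) ^ e3)
      (fun χ hχ => hno χ hχ) (by positivity)
    linarith
  have hstep2 : Pr P (fun D => ¬ Unif e1 e3 t D) ≤ ∑ M ∈ Icc 1 (t ^ e1), Pr P (BM M) :=
    (Pr_mono hP2 hstep1).trans (Pr_exists hP2 _ _)
  have hstep3 : ∀ M ∈ Icc 1 (t ^ e1), Pr P (BM M) ≤ (t : ℝ) ^ e1 * β := by
    intro M hM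
    rw [mem_Icc] at hM
    by_cases h3M : 3 ∣ M
    · have : NeZero M := ⟨by omega⟩
      have : Fintype (DirichletCharacter ℂ M) := Fintype.ofFinite _
      set T : Finset (DirichletCharacter ℂ M) := univ.filter
        (fun χ => ∃ u : ℕ, u.Coprime M ∧ u % 3 = 1 ∧ χ (u : ZMod M) ≠ 1) with hT
      have h1 : Pr P (BM M) ≤ Pr P (fun D => ∃ χ ∈ T,
          2 ^ D.card / (t : ℝ) ^ e3 < ∏ p ∈ D, ‖1 + χ (p : ZMod M)‖) := by
        apply Pr_mono hP2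
        rintro D _ ⟨_, χ, hχ, hlt⟩
        exact ⟨χ, by rw [hT, mem_filter]; exact ⟨mem_univ _, hχ⟩, hlt⟩
      have h2 := h1.trans (Pr_exists hP2 T (fun χ D =>
        2 ^ D.card / (t : ℝ) ^ e3 < ∏ p ∈ D, ‖1 + χ (p : ZMod M)‖))
      refine h2.trans ?_
      have h3 : ∀ χ ∈ T, Pr P (fun D =>
          2 ^ D.card / (t : ℝ) ^ e3 < ∏ p ∈ D, ‖1 + χ (p : ZMod M)‖) ≤ β := by
        intro χ hχ
        rw [hT, mem_filter] at hχ
        exact up_char e3 g t (by omega) P hP M χ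
          (hchar M (by omega) hM.2 h3M χ hχ.2) hlow hsmall
      refine (sum_le_card_nsmul T _ β h3).trans ?_
      rw [nsmul_eq_mul]
      apply mul_le_mul_of_nonneg_right _ hβ0
      have h4 : T.card ≤ M.totient := by
        refine (Finset.card_le_univ _).trans ?_
        rw [← Nat.card_eq_fintype_card]
        exact (DirichletCharacter.card_eq_totient_of_hasEnoughRootsOfUnity ℂ M).le
      have h5 : T.card ≤ t ^ e1 := h4.trans ((Nat.totient_le M).trans hM.2)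
      exact_mod_cast h5
    · have h1 : Pr P (BM M) ≤ 0 := by
        unfold Pr
        rw [Finset.sum_eq_zero]
        intro D hD
        rw [mem_sel] at hD
        exact absurd hD.2.1 h3M
      exact h1.trans (by positivity)
  have hstep4 : Pr P (fun D => ¬ Unif e1 e3 t D) ≤ (t : ℝ) ^ e1 * ((t : ℝ) ^ e1 * β) := by
    refine hstep2.trans ((sum_le_card_nsmul _ _ _ hstep3).trans ?_)
    rw [nsmul_eq_mul, Nat.card_Icc]
    apply mul_le_mul_of_nonneg_right _ (by positivity)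
    push_cast
    simp
  have hexp : Real.exp (2 - ((g : ℝ) - 1) * Real.log t) ≤ (t : ℝ) ^ 2 / (t : ℝ) ^ (g - 1) := by
    rw [Real.exp_sub]
    have h1 : Real.exp (((g : ℝ) - 1) * Real.log t) = (t : ℝ) ^ (g - 1) := by
      have h2 : ((g : ℝ) - 1) = ((g - 1 : ℕ) : ℝ) := by
        rw [Nat.cast_sub (by omega)]
        push_cast
        ring
      rw [h2, ← Real.log_pow, Real.exp_log (by positivity)]
    rw [h1]
    apply div_le_div_of_nonneg_right _ (by positivity)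
    have h3 : Real.exp 2 = Real.exp 1 ^ 2 := by
      rw [← Real.exp_nat_mul]
      norm_num
    rw [h3]
    apply pow_le_pow_left₀ (Real.exp_pos 1).le
    have h4 := Real.exp_one_lt_d9
    have h5 : (3 : ℝ) ≤ t := by exact_mod_cast ht3
    linarith
  have hfin : (t : ℝ) ^ e1 * ((t : ℝ) ^ e1 * β) * (t : ℝ) ^ C5 ≤ 1 := by
    have h1 : (t : ℝ) ^ e1 * ((t : ℝ) ^ e1 * β) * (t : ℝ) ^ C5 ≤
        (t : ℝ) ^ e1 * ((t : ℝ) ^ e1 * ((t : ℝ) ^ (2 * e3) *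
          ((t : ℝ) ^ 2 / (t : ℝ) ^ (g - 1)))) * (t : ℝ) ^ C5 := by
      rw [hβ]
      gcongr
    refine h1.trans ?_
    have h2 : (t : ℝ) ^ e1 * ((t : ℝ) ^ e1 * ((t : ℝ) ^ (2 * e3) *
        ((t : ℝ) ^ 2 / (t : ℝ) ^ (g - 1)))) * (t : ℝ) ^ C5 =
        (t : ℝ) ^ (e1 + e1 + 2 * e3 + 2 + C5) / (t : ℝ) ^ (g - 1) := by
      rw [pow_add, pow_add, pow_add, pow_add]
      ring
    rw [h2, div_le_one (by positivity)]
    apply pow_le_pow_right₀
    · exact_mod_cast (by omega : 1 ≤ t)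
    · omega
  calc Pr P (fun D => ¬ Unif e1 e3 t D) * (t : ℝ) ^ C5
      ≤ (t : ℝ) ^ e1 * ((t : ℝ) ^ e1 * β) * (t : ℝ) ^ C5 :=
        mul_le_mul_of_nonneg_right hstep4 (by positivity)
    _ ≤ 1 := hfin

end Pool.Agent.H17.RP
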