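import Pool.Agent.H17.RP.Pair
import Pool.Agent.H17.RP.Dom
import Pool.Agent.H17.RP.UnifProb
import Pool.Agent.H17.RP.AntiProb

/-!
# TupleClass: the tuple bound in one residue class

`w` and `w' j` (`j < s`) vectors with small nonzero determinants `b_j = dt w (w' j)`, `n = n0 + W' m`,
`m < N`.  Under `Hyp`: the event `Ev t w w' n` (all rough, all `w' j` have another Liouville value than
`w`) happens for at most `3 N/t^((2 c2 + 1) s)` of the `m < N`.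

Proof. Constants: `e` from `anti_prob (2 c2 + 32)`, `e1, e3` from `pairClass c2 e`, `C5 = 2 c2 + 3`, `g0`
from `unif_prob e1 e3 C5` and `anti_prob (2 c2 + 32)` with `C5` (and `g0 ≥ 7`).
`𝓖 D = (Unif e1 e3 t D ∧ Anti e (2 c2 + 32) t D)`; `Pr P (¬ 𝓖) ≤ 2/t^C5` (`Pr_or`).
For `j < s`: `K j p m : p ∣ Nm (sh (n0 + W' m) (w' j))`, `D_j(m) = {p ∈ P : K j p m}`: periodic
(`root_per`), exactly two classes (`root_two`; `p ∤ (w' j).2`, `p ∤ W'` because prime factors of `W'`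
divide `W` and are `≤ t^(2c2+2) < p`), disjoint for different `j` (`coinc`, `dt_sh`; the second
coordinates are not changed by `sh`).
For each `m` with the event and each `j`: `t ≤ 8 |D_j(m)|` (`rare` with `h = 8`), or the event of
`pairClass` for `w`, `w' j`, or `¬ 𝓖 (D_j(m))`.  So the number is at most
`s N/t^C + s N/t^C + N (2 ∏_j Pr P (¬ 𝓖) + 1/t^C)` (`dom`), `∏_j ≤ (2/t^(2c2+3))^s`, with
`C = (2 c2 + 1) s + 2` (`2s + 1 ≤ t²`, `2 (2/t²)^s ≤ 2`).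
-/

set_option autoImplicit false

namespace Pool.Agent.H17.RP

open Finset

private theorem tc_ev (k : ℕ) : ∃ t0 : ℕ, ∀ t ≥ t0, t ^ k ≤ 2 ^ t := by
  have h := tendsto_pow_const_div_const_pow_of_one_lt k (show (1 : ℝ) < 2 by norm_num)
  have h2 := h.eventually (Iio_mem_nhds (show (0 : ℝ) < 1 by norm_num))
  obtain ⟨t0, ht0⟩ := Filter.eventually_atTop.1 h2
  refine ⟨t0, fun t ht => ?_⟩
  have h3 : (t : ℝ) ^ k / 2 ^ t < 1 := ht0 t ht
  have h4 : (0 : ℝ) < 2 ^ t := by positivity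
  rw [div_lt_iff₀ h4, one_mul] at h3
  exact_mod_cast h3.le

/-- the final computation -/
private theorem tc_arith {s a : ℕ} {t : ℝ} {N x y z p : ℝ} (ht : 2 ≤ t) (hs : 2 * (s : ℝ) + 1 ≤ t)
    (hN : 0 ≤ N) (hp0 : 0 ≤ p) (hp : p * t ^ (a + 2) ≤ 2)
    (hx : x ≤ s * (N / t ^ (a * s + 2))) (hy : y ≤ s * (N / t ^ (a * s + 2)))
    (hz : z ≤ N * (2 * p ^ s + 1 / t ^ (a * s + 2))) :
    (x + (y + z)) * t ^ (a * s) ≤ 3 * N := by
  have ht0 : 0 < t := by linarith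
  have h1 : (x + (y + z)) * t ^ (a * s) ≤
      (s * (N / t ^ (a * s + 2)) + (s * (N / t ^ (a * s + 2)) +
        N * (2 * p ^ s + 1 / t ^ (a * s + 2)))) * t ^ (a * s) :=
    mul_le_mul_of_nonneg_right (by linarith) (by positivity)
  refine h1.trans ?_
  have e1 : (s * (N / t ^ (a * s + 2)) + (s * (N / t ^ (a * s + 2)) +
        N * (2 * p ^ s + 1 / t ^ (a * s + 2)))) * t ^ (a * s) =
      N * ((2 * s + 1) / t ^ 2) + 2 * N * (p * t ^ a) ^ s := by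
    rw [mul_pow, ← pow_mul, pow_add]
    field_simp
    ring
  rw [e1]
  have h2 : (2 * (s : ℝ) + 1) / t ^ 2 ≤ 1 := by
    rw [div_le_one (by positivity)]
    nlinarith
  have h3 : p * t ^ a ≤ 1 := by
    have h4 : p * t ^ a * t ^ 2 ≤ 2 := by rw [mul_assoc, ← pow_add]; exact hp
    have h5 : (0 : ℝ) ≤ p * t ^ a := by positivity
    nlinarith
  have h4 : (p * t ^ a) ^ s ≤ 1 := pow_le_one₀ (by positivity) h3
  have h5 : N * ((2 * s + 1) / t ^ 2) ≤ N * 1 := mul_le_mul_of_nonneg_left h2 hN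
  have h6 : 2 * N * (p * t ^ a) ^ s ≤ 2 * N * 1 := mul_le_mul_of_nonneg_left h4 (by linarith)
  linarith

theorem tupleClass (c2 : ℕ) (hc2 : 24 ≤ c2) : ∃ g0 : ℕ, 7 ≤ g0 ∧ ∀ g ≥ g0, ∀ s E : ℕ, ∃ t0 : ℕ,
    ∀ t ≥ t0, ∀ ε : ℤ, Hyp g t ε →
    ∀ (w : ℤ × ℤ) (w' : Fin s → ℤ × ℤ) (P : Finset ℕ) (W W' : ℕ) (n0 : ℤ) (N : ℕ),
    (0 ≤ w.1 ∧ 0 ≤ w.2 ∧ 1 ≤ w.1 + w.2 ∧ w.1 ≤ (AA g t : ℤ) ^ 7 ∧ w.2 ≤ (AA g t : ℤ) ^ 7) →
    (∀ j, 0 ≤ (w' j).1 ∧ 1 ≤ (w' j).2 ∧ (w' j).1 ≤ (AA g t : ℤ) ^ 7 ∧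
      (w' j).2 ≤ (AA g t : ℤ) ^ 7) →
    (∀ j, dt w (w' j) ≠ 0 ∧ |dt w (w' j)| ≤ (t : ℤ) ^ (2 * c2 + 2)) →
    P ⊆ med g t → ((med g t) \ P).card ≤ t ^ E →
    (∀ p ∈ P, ∀ j, ¬ (p : ℤ) ∣ (w' j).2) →
    (∀ p ∈ P, ∀ i j, i ≠ j → ¬ (p : ℤ) ∣ dt (w' i) (w' j) *
      (dt (w' i) (w' j) ^ 2 + 3 * (w' i).2 ^ 2 * (w' j).2 ^ 2)) →
    W ≠ 0 → (∀ q : ℕ, q.Prime → q ≤ t ^ 24 → q ∣ W) →
    (∀ j, ∀ q : ℕ, q.Prime → (q : ℤ) ∣ dt w (w' j) → q ∣ W) →
    (∀ q : ℕ, q.Prime → q ∣ W → q ≤ t ^ (2 * c2 + 2)) →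
    cs W.primeFactors (fun q => t ^ 24 < q) ≤ t →
    0 < W' → (∀ j, 3 * dt w (w' j) * W ∣ (W' : ℤ)) → (∀ q : ℕ, q.Prime → q ∣ W' → q ∣ W) →
    (AA g t : ℤ) ≤ n0 → (∀ m : ℕ, m < N → n0 + W' * m < 2 * (AA g t : ℤ)) →
    AA g t ^ 3 ≤ N ^ 4 →
    cs (range N) (fun m => Ev t w w' (n0 + W' * m)) * t ^ ((2 * c2 + 1) * s) ≤ 3 * N := by
  classical
  obtain ⟨e, he⟩ := anti_prob (2 * c2 + 32)
  obtain ⟨e1, e3, hpair⟩ := pairClass c2 e hc2
  obtain ⟨ga, hga⟩ := unif_prob e1 e3 (2 * c2 + 3)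
  obtain ⟨gb, hgb⟩ := he (2 * c2 + 3)
  refine ⟨max 7 (max ga gb), le_max_left _ _, ?_⟩
  intro g hg s E
  have hg7 : 7 ≤ g := le_trans (le_max_left _ _) hg
  have hgga : ga ≤ g := le_trans (le_trans (le_max_left _ _) (le_max_right _ _)) hg
  have hggb : gb ≤ g := le_trans (le_trans (le_max_right _ _) (le_max_right _ _)) hg
  obtain ⟨t1, ht1⟩ := hpair g hg7 ((2 * c2 + 1) * s + 2)
  obtain ⟨t2, ht2⟩ := hga g hgga E
  obtain ⟨t3, ht3⟩ := hgb g hggb E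
  obtain ⟨t4, ht4⟩ := dom g s ((2 * c2 + 1) * s + 2) (by omega)
  obtain ⟨t5, ht5⟩ := rare g 8 ((2 * c2 + 1) * s + 2) (by omega) (by norm_num)
  obtain ⟨t6, ht6⟩ := tc_ev (2 * c2 + 2)
  refine ⟨t1 + t2 + t3 + t4 + t5 + t6 + 2 * s + 2, ?_⟩
  intro t ht ε hyp w w' P W W' n0 N hw hw' hdt hP hPc hv hco hW0 hWs hWd hWb hWc hW'0 hWdvd hWW
    hn0 hn1 hN
  have hta : t1 ≤ t := by omega
  have htb : t2 ≤ t := by omega
  have htc : t3 ≤ t := by omega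
  have htd : t4 ≤ t := by omega
  have hte : t5 ≤ t := by omega
  have htf : t6 ≤ t := by omega
  have hts : 2 * s + 1 ≤ t := by omega
  have ht22 : 2 ≤ t := by omega
  have ht0 : (2 : ℝ) ≤ t := by exact_mod_cast ht22
  have hN0 : (0 : ℝ) ≤ N := Nat.cast_nonneg N
  have hprime : ∀ p ∈ P, p.Prime := fun p hp => (mem_med.1 (hP hp)).2.1
  have hP2 : ∀ p ∈ P, 2 ≤ p := fun p hp => (hprime p hp).two_le
  -- the primes of `P` do not divide `W'`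
  have hPW : ∀ p ∈ P, ¬ p ∣ W' := by
    intro p hp hd
    have h1 := hWb p (hprime p hp) (hWW p (hprime p hp) hd)
    have h2 := ht6 t htf
    have h3 := (mem_med.1 (hP hp)).1.1
    have h4 : 2 ^ t ≤ 2 ^ (t ^ (2 * g)) := by
      refine Nat.pow_le_pow_right (by norm_num) ?_
      calc t = t ^ 1 := (pow_one t).symm
        _ ≤ t ^ (2 * g) := Nat.pow_le_pow_right (by omega) (by omega)
    omega
  set K : Fin s → ℕ → ℕ → Prop := fun j p m => (p : ℤ) ∣ Nm (sh (n0 + W' * (m : ℤ)) (w' j)) with hK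
  have hper : ∀ j, ∀ p ∈ P, ∀ m, K j p (m + p) ↔ K j p m := by
    intro j p _ m
    exact root_per p W' n0 (w' j) m
  have htwo : ∀ j, ∀ p ∈ P, cs (range p) (K j p) = 2 := by
    intro j p hp
    exact root_two (hprime p hp) (mem_med.1 (hP hp)).2.2 (hv p hp j) (hPW p hp) n0
  have hdisj : ∀ i j, i ≠ j → ∀ p ∈ P, ∀ m, ¬ (K i p m ∧ K j p m) := by
    rintro i j hij p hp m ⟨h1, h2⟩
    have h3 := coinc h1 h2
    rw [dt_sh] at h3
    exact hco p hp i j hij h3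
  set G : Finset ℕ → Prop := fun D => Unif e1 e3 t D ∧ Anti e (2 * c2 + 32) t D with hG
  set PE : Fin s → ℕ → Prop := fun j m => Rough (2 ^ t) (Nm (sh (n0 + W' * m) w)) ∧
      Rough (2 ^ t) (Nm (sh (n0 + W' * m) (w' j))) ∧
      lam (Nm (sh (n0 + W' * m) (w' j))) ≠ lam (Nm (sh (n0 + W' * m) w)) ∧
      8 * (sel P (fun p => (p : ℤ) ∣ Nm (sh (n0 + W' * m) (w' j)))).card < t ∧
      Unif e1 e3 t (sel P (fun p => (p : ℤ) ∣ Nm (sh (n0 + W' * m) (w' j)))) ∧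
      Anti e (2 * c2 + 32) t (sel P (fun p => (p : ℤ) ∣ Nm (sh (n0 + W' * m) (w' j)))) with hPE
  have hsplit : cs (range N) (fun m => Ev t w w' (n0 + W' * m)) ≤
      cs (range N) (fun m => ∃ j ∈ (univ : Finset (Fin s)), t ≤ 8 * cs P (fun p => K j p m)) +
      (cs (range N) (fun m => ∃ j ∈ (univ : Finset (Fin s)), PE j m) +
        cs (range N) (fun m => ∀ j, ¬ G (sel P (fun p => K j p m)))) := by
    refine le_trans (cs_mono (Q := fun m => (∃ j ∈ (univ : Finset (Fin s)),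
      t ≤ 8 * cs P (fun p => K j p m)) ∨ ((∃ j ∈ (univ : Finset (Fin s)), PE j m) ∨
        (∀ j, ¬ G (sel P (fun p => K j p m))))) fun m _ hm => ?_)
      ((cs_or _ _ _).trans (Nat.add_le_add_left (cs_or _ _ _) _))
    by_cases ha : ∃ j ∈ (univ : Finset (Fin s)), t ≤ 8 * cs P (fun p => K j p m)
    · exact Or.inl ha
    by_cases hb : ∃ j ∈ (univ : Finset (Fin s)), PE j m
    · exact Or.inr (Or.inl hb)
    refine Or.inr (Or.inr fun j hj => hb ⟨j, mem_univ j, ?_⟩)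
    push Not at ha
    have h1 := ha j (mem_univ j)
    exact ⟨hm.1, (hm.2 j).1, (hm.2 j).2, h1, hj.1, hj.2⟩
  have hx : (cs (range N) (fun m => ∃ j ∈ (univ : Finset (Fin s)),
      t ≤ 8 * cs P (fun p => K j p m)) : ℝ) ≤ s * (N / (t : ℝ) ^ ((2 * c2 + 1) * s + 2)) := by
    have h1 : (cs (range N) (fun m => ∃ j ∈ (univ : Finset (Fin s)),
        t ≤ 8 * cs P (fun p => K j p m)) : ℝ) ≤
        ∑ j : Fin s, (cs (range N) (fun m => t ≤ 8 * cs P (fun p => K j p m)) : ℝ) := by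
      exact_mod_cast cs_exists (range N) (univ : Finset (Fin s)) (fun j m => t ≤ 8 *
        cs P (fun p => K j p m))
    refine h1.trans ?_
    calc ∑ j : Fin s, (cs (range N) (fun m => t ≤ 8 * cs P (fun p => K j p m)) : ℝ)
        ≤ ∑ _j : Fin s, N / (t : ℝ) ^ ((2 * c2 + 1) * s + 2) := sum_le_sum fun j _ => by
          have h3 := ht5 t hte P hP (K j) (hper j) (fun p hp => (htwo j p hp).le) N hN
          rw [le_div_iff₀ (by positivity)]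
          exact_mod_cast h3
      _ = s * (N / (t : ℝ) ^ ((2 * c2 + 1) * s + 2)) := by
        rw [sum_const, card_univ, Fintype.card_fin, nsmul_eq_mul]
  have hy : (cs (range N) (fun m => ∃ j ∈ (univ : Finset (Fin s)), PE j m) : ℝ) ≤
      s * (N / (t : ℝ) ^ ((2 * c2 + 1) * s + 2)) := by
    have h1 : (cs (range N) (fun m => ∃ j ∈ (univ : Finset (Fin s)), PE j m) : ℝ) ≤
        ∑ j : Fin s, (cs (range N) (PE j) : ℝ) := by
      exact_mod_cast cs_exists (range N) (univ : Finset (Fin s)) PE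
    refine h1.trans ?_
    calc ∑ j : Fin s, (cs (range N) (PE j) : ℝ)
        ≤ ∑ _j : Fin s, N / (t : ℝ) ^ ((2 * c2 + 1) * s + 2) := sum_le_sum fun j _ => by
          have h3 := ht1 t hta ε hyp w (w' j) P W W' n0 N hw (hw' j) (hdt j) hP
            (fun p hp => hv p hp j) hW0 hWs (hWd j) hWb hWc hW'0 (hWdvd j) hWW hn0 hn1 hN
          rw [le_div_iff₀ (by positivity)]
          exact_mod_cast h3
      _ = s * (N / (t : ℝ) ^ ((2 * c2 + 1) * s + 2)) := by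
        rw [sum_const, card_univ, Fintype.card_fin, nsmul_eq_mul]
  have hz := ht4 t htd P hP K hper htwo hdisj N hN (fun _ D => ¬ G D)
  rw [prod_const, card_univ, Fintype.card_fin] at hz
  have hpr : Pr P (fun D => ¬ G D) * (t : ℝ) ^ (2 * c2 + 1 + 2) ≤ 2 := by
    have h1 : Pr P (fun D => ¬ G D) ≤ Pr P (fun D => ¬ Unif e1 e3 t D ∨
        ¬ Anti e (2 * c2 + 32) t D) := Pr_mono hP2 fun D _ h => by
      simp only [hG] at h
      tauto
    have h2 := h1.trans (Pr_or hP2 _ _)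
    have h3 := ht2 t htb P hP hPc
    have h4 := ht3 t htc P hP hPc
    have h5 : (0 : ℝ) ≤ (t : ℝ) ^ (2 * c2 + 3) := by positivity
    calc Pr P (fun D => ¬ G D) * (t : ℝ) ^ (2 * c2 + 3)
        ≤ (Pr P (fun D => ¬ Unif e1 e3 t D) + Pr P (fun D => ¬ Anti e (2 * c2 + 32) t D)) *
          (t : ℝ) ^ (2 * c2 + 3) := mul_le_mul_of_nonneg_right h2 h5
      _ ≤ 2 := by rw [add_mul]; linarith
  have hfin := tc_arith (s := s) (a := 2 * c2 + 1) ht0 (by exact_mod_cast hts) hN0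
    (Pr_nonneg hP2 _) hpr hx hy hz
  have h9 : (cs (range N) (fun m => Ev t w w' (n0 + W' * m)) : ℝ) *
      (t : ℝ) ^ ((2 * c2 + 1) * s) ≤ 3 * N := by
    refine le_trans (mul_le_mul_of_nonneg_right ?_ (by positivity)) hfin
    exact_mod_cast hsplit
  exact_mod_cast h9

end Pool.Agent.H17.RP
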