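import Pool.Agent.H17.RP.LB
import Pool.Agent.H17.RP.BoxC

/-!
# WinLow: every window contains many vectors without small prime factors

There is an absolute `C1` such that for `c1 ≥ 2`, `c2 ≥ C1 c1`, `t ≥ t0(c1, c2)` and every basis
`(e, f)`: at least `L²/t` of the coprime pairs `(α, β) ∈ [1, L]²` (`L = t^c2`) are such that
`Nm (α e + β f)` has no prime factor `≤ z = t^c1`.

Proof. `LB` with `As = [1, L]²`, `Ps` = all primes `≤ z`, `bad p (α, β) : p ∣ Nm (α e + β f)`, `X = L²`.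
`δ = dw`
(`dw_bounds`), and `box_count` for `I ⊆ Ps`, `∏ I ≤ z^C ≤ L`: `E = 3 L z^C`.
`LB`: at least `L²/(C (log z)²) - 3 L z^(2C)` pairs are not bad for `p ≤ z`; such a pair has no common
prime factor `≤ z`.  Pairs with a common prime factor `q > z`: at most `Σ_(q > z) (L/q)² ≤ L²/z`.  For
`c2 ≥ (2C + 3) c1`, `t ≥ t0` the rest is `≥ L² (1/(C c1² (log t)²) - 3/z - 1/z) ≥ L²/t`.
-/

set_option autoImplicit false

namespace Pool.Agent.H17.RP

open Finset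

/-- the number of pairs in `[1, L]²` with both coordinates divisible by `d` -/
theorem wl_dvd_pairs (L d : ℕ) (hd : 0 < d) :
    cs (Icc (1 : ℤ) L ×ˢ Icc (1 : ℤ) L) (fun a => (d : ℤ) ∣ a.1 ∧ (d : ℤ) ∣ a.2) ≤ (L / d) ^ 2 := by
  classical
  have h1 : sel (Icc (1 : ℤ) L ×ˢ Icc (1 : ℤ) L) (fun a => (d : ℤ) ∣ a.1 ∧ (d : ℤ) ∣ a.2) ⊆
      ((Icc 1 (L / d)) ×ˢ (Icc 1 (L / d))).image
        (fun k : ℕ × ℕ => (((d * k.1 : ℕ) : ℤ), ((d * k.2 : ℕ) : ℤ))) := by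
    rintro ⟨a, b⟩ hab
    rw [mem_sel, mem_product, mem_Icc, mem_Icc] at hab
    obtain ⟨⟨⟨ha1, ha2⟩, ⟨hb1, hb2⟩⟩, ⟨⟨x, hx⟩, ⟨y, hy⟩⟩⟩ := hab
    simp only at ha1 ha2 hb1 hb2 hx hy
    have hd' : (0 : ℤ) < d := by exact_mod_cast hd
    have hx1 : 0 < x := by
      by_contra hc
      push Not at hc
      have : (d : ℤ) * x ≤ 0 := mul_nonpos_of_nonneg_of_nonpos hd'.le hc
      omega
    have hy1 : 0 < y := by
      by_contra hc
      push Not at hc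
      have : (d : ℤ) * y ≤ 0 := mul_nonpos_of_nonneg_of_nonpos hd'.le hc
      omega
    obtain ⟨x', rfl⟩ := Int.eq_ofNat_of_zero_le hx1.le
    obtain ⟨y', rfl⟩ := Int.eq_ofNat_of_zero_le hy1.le
    rw [mem_image]
    refine ⟨(x', y'), ?_, ?_⟩
    · rw [mem_product, mem_Icc, mem_Icc]
      simp only
      have h3 : x' * d ≤ L := by
        have : ((x' * d : ℕ) : ℤ) ≤ L := by push_cast; linarith
        exact_mod_cast this
      have h4 : y' * d ≤ L := by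
        have : ((y' * d : ℕ) : ℤ) ≤ L := by push_cast; linarith
        exact_mod_cast this
      refine ⟨⟨by omega, (Nat.le_div_iff_mul_le hd).2 h3⟩, ⟨by omega, (Nat.le_div_iff_mul_le hd).2 h4⟩⟩
    · simp only [Prod.mk.injEq]
      push_cast
      exact ⟨hx.symm, hy.symm⟩
  refine (card_le_card h1).trans (card_image_le.trans ?_)
  rw [card_product, Nat.card_Icc]
  simp [sq]

/-- telescoping sum -/
theorem wl_tel (z : ℕ) (hz : 1 ≤ z) (L : ℕ) :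
    ∑ d ∈ Ioc z L, 1 / (d : ℝ) ^ 2 ≤ 1 / (z : ℝ) := by
  have hz' : (0 : ℝ) < z := by exact_mod_cast hz
  rcases Nat.lt_or_ge L z with h | h
  · rw [Ioc_eq_empty_of_le h.le, sum_empty]
    positivity
  · have key : ∀ n : ℕ, z ≤ n → ∑ d ∈ Ioc z n, 1 / (d : ℝ) ^ 2 ≤ 1 / (z : ℝ) - 1 / (n : ℝ) := by
      intro n hn
      induction n, hn using Nat.le_induction with
      | base => simp
      | succ n hn ih =>
        have hn' : (0 : ℝ) < n := lt_of_lt_of_le hz' (by exact_mod_cast hn)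
        rw [← Finset.insert_Ioc_right_eq_Ioc_add_one (by omega), sum_insert (by simp)]
        have h1 : 1 / (((n + 1 : ℕ) : ℝ)) ^ 2 ≤ 1 / (n : ℝ) - 1 / ((n + 1 : ℕ) : ℝ) := by
          push_cast
          rw [div_sub_div _ _ hn'.ne' (by positivity), div_le_div_iff₀ (by positivity) (by positivity)]
          ring_nf
          nlinarith
        linarith
    have := key L h
    have h2 : (0 : ℝ) ≤ 1 / (L : ℝ) := by positivity
    linarith

/-- the number of pairs in `[1, L]²` with a common divisor `> z` -/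
theorem wl_common (L z : ℕ) (hz : 1 ≤ z) :
    (cs (Icc (1 : ℤ) L ×ˢ Icc (1 : ℤ) L)
      (fun a => ∃ d ∈ Ioc z L, (d : ℤ) ∣ a.1 ∧ (d : ℤ) ∣ a.2) : ℝ) ≤ (L : ℝ) ^ 2 / z := by
  have h1 := cs_exists (Icc (1 : ℤ) L ×ˢ Icc (1 : ℤ) L) (Ioc z L)
    (fun (d : ℕ) (a : ℤ × ℤ) => (d : ℤ) ∣ a.1 ∧ (d : ℤ) ∣ a.2)
  have h2 : (cs (Icc (1 : ℤ) L ×ˢ Icc (1 : ℤ) L)
      (fun a => ∃ d ∈ Ioc z L, (d : ℤ) ∣ a.1 ∧ (d : ℤ) ∣ a.2) : ℝ) ≤
      ∑ d ∈ Ioc z L, (L : ℝ) ^ 2 * (1 / (d : ℝ) ^ 2) := by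
    refine le_trans (Nat.cast_le.2 h1) ?_
    rw [Nat.cast_sum]
    refine sum_le_sum fun d hd => ?_
    rw [mem_Ioc] at hd
    have hd0 : 0 < d := by omega
    have h3 := wl_dvd_pairs L d hd0
    have h4 : ((L / d : ℕ) : ℝ) ≤ (L : ℝ) / d := Nat.cast_div_le
    have h5 : (((L / d) ^ 2 : ℕ) : ℝ) ≤ ((L : ℝ) / d) ^ 2 := by
      push_cast
      exact pow_le_pow_left₀ (Nat.cast_nonneg _) h4 2
    calc (cs (Icc (1 : ℤ) L ×ˢ Icc (1 : ℤ) L) (fun a => (d : ℤ) ∣ a.1 ∧ (d : ℤ) ∣ a.2) : ℝ)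
        ≤ (((L / d) ^ 2 : ℕ) : ℝ) := by exact_mod_cast h3
      _ ≤ ((L : ℝ) / d) ^ 2 := h5
      _ = (L : ℝ) ^ 2 * (1 / (d : ℝ) ^ 2) := by rw [div_pow]; ring
  rw [← mul_sum] at h2
  refine h2.trans ?_
  have h3 := wl_tel z hz L
  calc (L : ℝ) ^ 2 * ∑ d ∈ Ioc z L, 1 / (d : ℝ) ^ 2 ≤ (L : ℝ) ^ 2 * (1 / z) :=
        mul_le_mul_of_nonneg_left h3 (by positivity)
    _ = (L : ℝ) ^ 2 / z := by ring

/-- a power of the logarithm is small -/
theorem wl_log (K : ℝ) : ∃ t0 : ℕ, ∀ t ≥ t0, K * Real.log t ^ 2 ≤ t := by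
  have h := (Real.isLittleO_pow_log_id_atTop (n := 2)).bound
    (show (0 : ℝ) < 1 / (|K| + 1) by positivity)
  rw [Filter.eventually_atTop] at h
  obtain ⟨x0, hx0⟩ := h
  refine ⟨⌈x0⌉₊, fun t ht => ?_⟩
  have h1 := hx0 (t : ℝ) (Nat.ceil_le.1 ht)
  rw [Real.norm_eq_abs, Real.norm_eq_abs, id, abs_of_nonneg (by positivity : (0 : ℝ) ≤ Real.log t ^ 2),
    abs_of_nonneg (by positivity : (0 : ℝ) ≤ t)] at h1
  have h2 : (|K| + 1) * Real.log t ^ 2 ≤ t := by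
    have := mul_le_mul_of_nonneg_left h1 (by positivity : (0 : ℝ) ≤ |K| + 1)
    calc (|K| + 1) * Real.log t ^ 2 ≤ (|K| + 1) * (1 / (|K| + 1) * t) := this
      _ = t := by field_simp
  have h3 : K * Real.log t ^ 2 ≤ (|K| + 1) * Real.log t ^ 2 := by
    refine mul_le_mul_of_nonneg_right ?_ (by positivity)
    linarith [le_abs_self K]
  linarith

theorem wl_nm_dvd {q : ℤ} {e f p : ℤ × ℤ} (h1 : q ∣ p.1) (h2 : q ∣ p.2) : q ∣ Nm (lin e f p) := by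
  obtain ⟨x, hx⟩ := h1
  obtain ⟨y, hy⟩ := h2
  have e1 : (lin e f p).1 = q * (x * e.1 + y * f.1) := by
    unfold lin
    simp only
    rw [hx, hy]; ring
  have e2 : (lin e f p).2 = q * (x * e.2 + y * f.2) := by
    unfold lin
    simp only
    rw [hx, hy]; ring
  unfold Nm F
  rw [e1, e2]
  exact ⟨(q * (x * e.1 + y * f.1) ^ 2) + 3 * (x * e.1 + y * f.1) * (q * (x * e.2 + y * f.2)) +
    3 * q * (x * e.2 + y * f.2) ^ 2, by ring⟩

theorem winLow : ∃ C1 : ℕ, 1 ≤ C1 ∧ ∀ c1 c2 : ℕ, 2 ≤ c1 → C1 * c1 ≤ c2 → ∃ t0 : ℕ, ∀ t ≥ t0,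
    ∀ e f : ℤ × ℤ, Basis2 e f →
    (t ^ c2) ^ 2 ≤ t * cs (win (t ^ c2))
      (fun p => ∀ q : ℕ, q.Prime → q ≤ t ^ c1 → ¬ (q : ℤ) ∣ Nm (lin e f p)) := by
  classical
  obtain ⟨C, hC1, hLB⟩ := LB
  refine ⟨2 * C + 3, by omega, fun c1 c2 hc1 hc2 => ?_⟩
  obtain ⟨t0, ht0⟩ := wl_log (2 * C * (c1 : ℝ) ^ 2)
  refine ⟨max t0 4, fun t ht e f hb => ?_⟩
  have ht4 : 4 ≤ t := (le_max_right _ _).trans ht
  have htt0 : t0 ≤ t := (le_max_left _ _).trans ht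
  set z := t ^ c1 with hz
  set L := t ^ c2 with hL
  have ht4' : (4 : ℝ) ≤ t := by exact_mod_cast ht4
  have htp : (0 : ℝ) < t := by linarith
  have hz2 : t ^ 2 ≤ z := Nat.pow_le_pow_right (by omega) hc1
  have hz16 : 2 ≤ z := by nlinarith
  have hz' : (0 : ℝ) < z := by
    have : 0 < z := by omega
    exact_mod_cast this
  have hzL : z ^ (2 * C + 3) ≤ L := by
    rw [hz, hL, ← pow_mul]
    exact Nat.pow_le_pow_right (by omega) (by rw [mul_comm]; exact hc2)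
  have hLpos : (0 : ℝ) < L := by
    have : 0 < L := by rw [hL]; positivity
    exact_mod_cast this
  have h1 := hLB z hz16 ((range (z + 1)).filter Nat.Prime)
    (fun p hp => by
      rw [mem_filter, mem_range] at hp
      exact ⟨hp.2, by omega⟩) dw
    (fun p hp => by
      rw [mem_filter] at hp
      exact dw_bounds hp.2) (ℤ × ℤ) (Icc (1 : ℤ) L ×ˢ Icc (1 : ℤ) L)
    (fun p x => (p : ℤ) ∣ Nm (lin e f x)) ((L : ℝ) ^ 2) (3 * L * (z : ℝ) ^ C) (by positivity)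
    (by positivity) (fun I hI hI2 => by
      have hzC : z ^ C ≤ L := le_trans (Nat.pow_le_pow_right (by omega) (by omega)) hzL
      have h2 := box_count hb I (fun p hp => by
        have := hI hp
        rw [mem_filter] at this
        exact this.2) L (hI2.trans hzC)
      refine h2.trans ?_
      have h3 : ((∏ p ∈ I, p : ℕ) : ℝ) ≤ (z : ℝ) ^ C := by exact_mod_cast hI2
      exact mul_le_mul_of_nonneg_left h3 (by positivity))
  have h2 := wl_common L z (by omega)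
  -- the good pairs are coprime or have a common divisor > z
  have h3 : cs (Icc (1 : ℤ) L ×ˢ Icc (1 : ℤ) L)
      (fun a => ∀ p ∈ (range (z + 1)).filter Nat.Prime, ¬ (p : ℤ) ∣ Nm (lin e f a)) ≤
      cs (win L) (fun p => ∀ q : ℕ, q.Prime → q ≤ z → ¬ (q : ℤ) ∣ Nm (lin e f p)) +
      cs (Icc (1 : ℤ) L ×ˢ Icc (1 : ℤ) L)
        (fun a => ∃ d ∈ Ioc z L, (d : ℤ) ∣ a.1 ∧ (d : ℤ) ∣ a.2) := by
    unfold cs
    refine (card_le_card ?_).trans (card_union_le _ _)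
    rintro ⟨a, b⟩ hab
    rw [mem_sel] at hab
    obtain ⟨hab1, hab2⟩ := hab
    rw [mem_union, mem_sel, mem_sel]
    have hgood : ∀ q : ℕ, q.Prime → q ≤ z → ¬ (q : ℤ) ∣ Nm (lin e f (a, b)) := fun q hq hqz =>
      hab2 q (by rw [mem_filter, mem_range]; exact ⟨by omega, hq⟩)
    by_cases hcop : IsCoprime a b
    · left
      refine ⟨?_, hgood⟩
      unfold win
      rw [mem_sel]
      exact ⟨hab1, hcop⟩
    · right
      refine ⟨hab1, ?_⟩
      rw [mem_product, mem_Icc, mem_Icc] at hab1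
      simp only at hab1
      rw [Int.isCoprime_iff_gcd_eq_one] at hcop
      obtain ⟨q, hq, hqd⟩ := Nat.exists_prime_and_dvd hcop
      have hqa : (q : ℤ) ∣ a := (Int.natCast_dvd_natCast.2 hqd).trans (Int.gcd_dvd_left _ _)
      have hqb : (q : ℤ) ∣ b := (Int.natCast_dvd_natCast.2 hqd).trans (Int.gcd_dvd_right _ _)
      refine ⟨q, ?_, hqa, hqb⟩
      rw [mem_Ioc]
      constructor
      · by_contra hc
        push Not at hc
        exact hgood q hq hc (wl_nm_dvd hqa hqb)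
      · have := Int.le_of_dvd (by omega) hqa
        omega
  have h3' : (cs (Icc (1 : ℤ) L ×ˢ Icc (1 : ℤ) L)
      (fun a => ∀ p ∈ (range (z + 1)).filter Nat.Prime, ¬ (p : ℤ) ∣ Nm (lin e f a)) : ℝ) ≤
      cs (win L) (fun p => ∀ q : ℕ, q.Prime → q ≤ z → ¬ (q : ℤ) ∣ Nm (lin e f p)) +
      cs (Icc (1 : ℤ) L ×ˢ Icc (1 : ℤ) L)
        (fun a => ∃ d ∈ Ioc z L, (d : ℤ) ∣ a.1 ∧ (d : ℤ) ∣ a.2) := by exact_mod_cast h3
  set G := cs (win L) (fun p => ∀ q : ℕ, q.Prime → q ≤ z → ¬ (q : ℤ) ∣ Nm (lin e f p)) with hG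
  have h4 : (L : ℝ) ^ 2 / (C * Real.log z ^ 2) - 3 * L * (z : ℝ) ^ C * (z : ℝ) ^ C -
      (L : ℝ) ^ 2 / z ≤ G := by linarith
  -- the numbers
  have hlogt : 0 < Real.log t := Real.log_pos (by linarith)
  have hlogz : Real.log z = c1 * Real.log t := by
    rw [hz]; push_cast; rw [Real.log_pow]
  have hCpos : (0 : ℝ) < C := by exact_mod_cast hC1
  have hc1pos : (0 : ℝ) < c1 := by
    have : 0 < c1 := by omega
    exact_mod_cast this
  have h5 : (2 : ℝ) / t ≤ 1 / (C * Real.log z ^ 2) := by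
    rw [hlogz, div_le_div_iff₀ htp (by positivity)]
    have := ht0 t htt0
    nlinarith
  have h6 : 3 * (L : ℝ) * (z : ℝ) ^ C * (z : ℝ) ^ C ≤ (L : ℝ) ^ 2 * (3 / z) := by
    have h7 : (z : ℝ) ^ (2 * C + 3) ≤ L := by exact_mod_cast hzL
    have h8 : (z : ℝ) ^ C * (z : ℝ) ^ C * z ≤ L := by
      refine le_trans ?_ h7
      have : (z : ℝ) ^ C * (z : ℝ) ^ C * z = (z : ℝ) ^ (2 * C + 1) := by ring
      rw [this]
      have hz1 : (1 : ℝ) ≤ z := by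
        have : 1 ≤ z := by omega
        exact_mod_cast this
      exact pow_le_pow_right₀ hz1 (by omega)
    have h9 : (z : ℝ) ^ C * (z : ℝ) ^ C ≤ L / z := by
      rw [le_div_iff₀ hz']; exact h8
    calc 3 * (L : ℝ) * (z : ℝ) ^ C * (z : ℝ) ^ C = 3 * L * ((z : ℝ) ^ C * (z : ℝ) ^ C) := by ring
      _ ≤ 3 * L * (L / z) := mul_le_mul_of_nonneg_left h9 (by positivity)
      _ = (L : ℝ) ^ 2 * (3 / z) := by ring
  have h7 : (4 : ℝ) / z ≤ 1 / t := by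
    rw [div_le_div_iff₀ hz' htp]
    have : (t : ℝ) ^ 2 ≤ z := by exact_mod_cast hz2
    nlinarith
  have h8 : (L : ℝ) ^ 2 * (1 / t) ≤ G := by
    have e1 : (L : ℝ) ^ 2 / (C * Real.log z ^ 2) = (L : ℝ) ^ 2 * (1 / (C * Real.log z ^ 2)) := by ring
    have e2 : (L : ℝ) ^ 2 / z = (L : ℝ) ^ 2 * (1 / z) := by ring
    rw [e1, e2] at h4
    have e3 : (4 : ℝ) / z = 3 / z + 1 / z := by ring
    have e4 : (2 : ℝ) / t = 1 / t + 1 / t := by ring
    have h9 : (1 : ℝ) / t ≤ 1 / (C * Real.log z ^ 2) - 3 / z - 1 / z := by linarith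
    have h10 := mul_le_mul_of_nonneg_left h9 (by positivity : (0 : ℝ) ≤ (L : ℝ) ^ 2)
    have e5 : (L : ℝ) ^ 2 * (1 / (C * Real.log z ^ 2) - 3 / z - 1 / z) =
      (L : ℝ) ^ 2 * (1 / (C * Real.log z ^ 2)) - (L : ℝ) ^ 2 * (3 / z) - (L : ℝ) ^ 2 * (1 / z) := by
      ring
    linarith
  have h9 : (L : ℝ) ^ 2 ≤ t * G := by
    rw [mul_one_div, div_le_iff₀ htp] at h8
    linarith
  exact_mod_cast h9

end Pool.Agent.H17.RP
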