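import Pool.Agent.H17.RP.WinLow
import Pool.Agent.H17.RP.Surv

/-!
# WinSurv: for almost all `n` the window contains many rough vectors

`c1 ≥ 24`, `c2 ≥ C1 c1` (`C1` of `winLow`), `c1 + 1 ≤ 4g`.  For all but `A/t^C` of the `n ∈ [A, 2A)`
at least `L²/t^11` of the `p ∈ win L` (`L = t^c2`) have `Nm (sh n (lin e f p))` rough (no prime factor
`≤ 2^t`).

Proof. `W1 = ∏_(q ≤ t^c1) q ≤ 4^(t^c1)` (`primorial_le_4_pow`), `≤ A^(1/8)`.  `ap_split` with `W1`; fix
the class `n = n0 + W1 m`, `n0 = A + r`, `m < N = (A + W1 - 1 - r)/W1 ≥ A/W1 - 1`, so `N² ≥ A`.  Let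
`S = {p ∈ win L : Nm (sh n0 (lin e f p)) has no prime factor ≤ t^c1}`; `(sh n0 e, sh n0 f)` is a basis
(`basis_sh`, `sh_lin`), so `|S| ≥ L²/t` by `winLow`.  `Q` = primes in `(t^c1, 2^t]`,
`kill q m p : q ∣ Nm (sh (n0 + W1 m) (lin e f p))`.  It is periodic (`root_per`), `p ∈ win` gives a
primitive vector (`coprime_lin`), so there are at most `2` classes (`root_le`, `q ∤ W1`).  Every class
kills at most `2 L (L/q + 1) ≤ 4 L²/t^c1` elements (`win_lines`, for the basis
`(sh n e, sh n f)`; `L ≥ t^c1`), and `4 L² t^(20-c1) ≤ L²/t ≤ |S|` (`c1 ≥ 24`, `t ≥ 2`).  `surv` (with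
`C`) gives for all but `N/t^C` of the `m` at least `|S|/t^10 ≥ L²/t^11` survivors, and a survivor is
rough: prime factors `≤ t^c1` are excluded because `n = n0 mod W1`, those in `(t^c1, 2^t]` are in `Q`.
Sum over the classes (`sum_class`).
-/

set_option autoImplicit false

namespace Pool.Agent.H17.RP

open Finset

/-- powers of two -/
theorem ws_pow (c t : ℕ) (g : ℕ) (ht : 4 ≤ t) (hc : c + 1 ≤ 4 * g) : 4 * t ^ c ≤ t ^ (4 * g) := by
  calc 4 * t ^ c ≤ t * t ^ c := Nat.mul_le_mul_right _ ht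
    _ = t ^ (c + 1) := by ring
    _ ≤ t ^ (4 * g) := Nat.pow_le_pow_right (by omega) hc

/-- `N` is large: if `W ≤ 2^k`, `A = 2^a`, then the length of a class is at least `2^(a-k)`. -/
theorem ws_len (a k W r : ℕ) (hW : 0 < W) (hr : r < W) (h : W ≤ 2 ^ k) (hk : k ≤ a) :
    2 ^ (a - k) ≤ (2 ^ a + W - 1 - r) / W := by
  rw [Nat.le_div_iff_mul_le hW]
  have h1 : 2 ^ (a - k) * W ≤ 2 ^ a := by
    calc 2 ^ (a - k) * W ≤ 2 ^ (a - k) * 2 ^ k := Nat.mul_le_mul_left _ h
      _ = 2 ^ a := by rw [← pow_add, Nat.sub_add_cancel hk]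
  omega

theorem winSurv : ∃ C1 : ℕ, 1 ≤ C1 ∧ ∀ c1 c2 : ℕ, 24 ≤ c1 → C1 * c1 ≤ c2 →
    ∀ g C : ℕ, c1 + 1 ≤ 4 * g → ∃ t0 : ℕ, ∀ t ≥ t0, ∀ e f : ℤ × ℤ, Basis2 e f →
    cs (NN g t) (fun n => cs (win (t ^ c2)) (fun p => Rough (2 ^ t) (Nm (sh n (lin e f p)))) * t ^ 11
      < (t ^ c2) ^ 2) * t ^ C ≤ AA g t := by
  classical
  obtain ⟨C1, hC1, hlow⟩ := winLow
  refine ⟨C1, hC1, fun c1 c2 hc1 hc2 g C hg => ?_⟩
  obtain ⟨t1, ht1⟩ := hlow c1 c2 (by omega) hc2
  obtain ⟨t2, ht2⟩ := surv g C (by omega)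
  refine ⟨max (max t1 t2) 4, fun t ht e f hb => ?_⟩
  have ht4 : 4 ≤ t := (le_max_right _ _).trans ht
  have htt1 : t1 ≤ t := ((le_max_left _ _).trans (le_max_left _ _)).trans ht
  have htt2 : t2 ≤ t := ((le_max_right _ _).trans (le_max_left _ _)).trans ht
  set L := t ^ c2 with hL
  set z := t ^ c1 with hz
  have hzpos : 0 < z := by rw [hz]; positivity
  have hLpos : 0 < L := by rw [hL]; positivity
  have hc12 : c1 ≤ c2 := le_trans (Nat.le_mul_of_pos_left c1 hC1) hc2
  have hzL : z ≤ L := Nat.pow_le_pow_right (by omega) hc12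
  have htz : t ^ 24 ≤ z := Nat.pow_le_pow_right (by omega) hc1
  have htz1 : t ≤ z := le_trans (by
    calc t = t ^ 1 := (pow_one t).symm
      _ ≤ t ^ 24 := Nat.pow_le_pow_right (by omega) (by omega)) htz
  set W := primorial z with hW
  have hWpos : 0 < W := primorial_pos z
  have hWle : W ≤ 2 ^ (2 * z) := by
    have := primorial_le_four_pow z
    calc W ≤ 4 ^ z := this
      _ = 2 ^ (2 * z) := by rw [pow_mul]; norm_num
  have hWdvd : ∀ q : ℕ, q.Prime → q ≤ z → q ∣ W := by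
    intro q hq hqz
    rw [hW, primorial]
    exact dvd_prod_of_mem (fun p => p) (by rw [mem_filter, mem_range]; exact ⟨by omega, hq⟩)
  have hWnot : ∀ q : ℕ, q.Prime → z < q → ¬ q ∣ W := by
    intro q hq hqz hdiv
    rw [hW, primorial, Prime.dvd_finsetProd_iff hq.prime] at hdiv
    obtain ⟨p, hp, hqp⟩ := hdiv
    rw [mem_filter, mem_range] at hp
    have := (Nat.prime_dvd_prime_iff_eq hq hp.2).1 hqp
    omega
  have hlin : ∀ (n : ℤ) (p : ℤ × ℤ), lin (sh n e) (sh n f) p = sh n (lin e f p) :=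
    fun n p => (sh_lin n e f p).symm
  have h4z : 4 * z ≤ t ^ (4 * g) := ws_pow c1 t g ht4 hg
  have hclass : ∀ r ∈ range W,
      cs (range ((AA g t + W - 1 - r) / W)) (fun m : ℕ =>
        cs (win L) (fun p => Rough (2 ^ t) (Nm (sh ((AA g t : ℤ) + r + W * m) (lin e f p)))) * t ^ 11
          < L ^ 2) * t ^ C ≤ (AA g t + W - 1 - r) / W := by
    intro r hr
    rw [mem_range] at hr
    set N := (AA g t + W - 1 - r) / W with hN
    set n0 : ℤ := (AA g t : ℤ) + r with hn0
    set S := sel (win L) (fun p => ∀ q : ℕ, q.Prime → q ≤ z → ¬ (q : ℤ) ∣ Nm (sh n0 (lin e f p)))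
      with hS
    have hSc : L ^ 2 ≤ t * S.card := by
      have := ht1 t htt1 (sh n0 e) (sh n0 f) (basis_sh hb n0)
      simp only [hlin n0] at this
      exact this
    have hL2 : 0 < L ^ 2 := by positivity
    have hSpos : 0 < S.card := by
      by_contra hc
      have : S.card = 0 := by omega
      rw [this] at hSc
      omega
    have hNbig : AA g t ≤ N ^ 2 := by
      have h1 := ws_len (t ^ (4 * g)) (2 * z) W r hWpos hr hWle (by omega)
      have h2 : 2 ^ (t ^ (4 * g) - 2 * z) ≤ N := h1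
      calc AA g t = 2 ^ (t ^ (4 * g)) := rfl
        _ ≤ 2 ^ ((t ^ (4 * g) - 2 * z) * 2) := Nat.pow_le_pow_right (by norm_num) (by omega)
        _ = (2 ^ (t ^ (4 * g) - 2 * z)) ^ 2 := by rw [pow_mul]
        _ ≤ N ^ 2 := Nat.pow_le_pow_left h2 2
    set Q := (Ioc z (2 ^ t)).filter Nat.Prime with hQ
    have hQm : ∀ q : ℕ, q ∈ Q ↔ (z < q ∧ q ≤ 2 ^ t) ∧ q.Prime := by
      intro q
      rw [hQ, mem_filter, mem_Ioc]
    have h3 := ht2 t htt2 (ℤ × ℤ) S Q
      (fun q m p => (q : ℤ) ∣ Nm (sh (n0 + W * (m : ℤ)) (lin e f p))) (card_pos.1 hSpos)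
      (fun q hq => by
        rw [hQm] at hq
        exact ⟨hq.2, by omega, hq.1.2⟩)
      (fun q _ m p _ => root_per q W n0 (lin e f p) m)
      (fun q hq p hp => by
        rw [hQm] at hq
        have hp1 := (mem_sel.1 hp).1
        unfold win at hp1
        have hcop := coprime_lin hb (mem_sel.1 hp1).2
        exact (root_le hq.2 hcop (hWnot q hq.2 hq.1.1) n0).trans (by norm_num))
      (fun q hq m => by
        rw [hQm] at hq
        have h4 := win_lines hq.2 (basis_sh hb (n0 + W * (m : ℤ))) L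
        have h5 : cs S (fun p => (q : ℤ) ∣ Nm (sh (n0 + W * (m : ℤ)) (lin e f p))) ≤
            2 * (L * (L / q + 1)) := by
          refine le_trans (cs_subset (sel_subset _ _) _) ?_
          simp only [hlin] at h4
          exact h4
        set c := cs S (fun p => (q : ℤ) ∣ Nm (sh (n0 + W * (m : ℤ)) (lin e f p))) with hc
        have h6 : (L / q + 1) * z ≤ 2 * L := by
          have h7 : L / q * z ≤ L := by
            calc L / q * z ≤ L / q * q := Nat.mul_le_mul_left _ hq.1.1.le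
              _ ≤ L := Nat.div_mul_le_self L q
          calc (L / q + 1) * z = L / q * z + z := by ring
            _ ≤ L + L := Nat.add_le_add h7 hzL
            _ = 2 * L := by ring
        have h7 : c * t ^ 24 ≤ 4 * (t * S.card) := by
          calc c * t ^ 24 ≤ c * z := Nat.mul_le_mul_left _ htz
            _ ≤ 2 * (L * (L / q + 1)) * z := Nat.mul_le_mul_right _ h5
            _ = 2 * L * ((L / q + 1) * z) := by ring
            _ ≤ 2 * L * (2 * L) := Nat.mul_le_mul_left _ h6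
            _ = 4 * L ^ 2 := by ring
            _ ≤ 4 * (t * S.card) := Nat.mul_le_mul_left _ hSc
        have h8 : (c * t ^ 20) * (4 * t) ≤ S.card * (4 * t) := by
          have h9 : 4 * t ≤ t ^ 4 := by
            calc 4 * t ≤ t * t := Nat.mul_le_mul_right _ ht4
              _ = t ^ 2 := by ring
              _ ≤ t ^ 4 := Nat.pow_le_pow_right (by omega) (by omega)
          calc (c * t ^ 20) * (4 * t) ≤ (c * t ^ 20) * t ^ 4 := Nat.mul_le_mul_left _ h9
            _ = c * t ^ 24 := by ring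
            _ ≤ 4 * (t * S.card) := h7
            _ = S.card * (4 * t) := by ring
        exact Nat.le_of_mul_le_mul_right h8 (by omega)) N hNbig
    refine le_trans (Nat.mul_le_mul_right _ (cs_mono ?_)) h3
    intro m _ hm
    by_contra hc
    push Not at hc
    have h4 : cs S (fun p => ∀ q ∈ Q, ¬ (q : ℤ) ∣ Nm (sh (n0 + W * (m : ℤ)) (lin e f p))) ≤
        cs (win L) (fun p => Rough (2 ^ t) (Nm (sh ((AA g t : ℤ) + r + W * m) (lin e f p)))) := by
      refine card_le_card ?_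
      intro p hp
      rw [mem_sel] at hp ⊢
      obtain ⟨hpS, hp2⟩ := hp
      rw [hS, mem_sel] at hpS
      refine ⟨hpS.1, ?_⟩
      intro q hq hqd
      by_contra hq2
      push Not at hq2
      rcases Nat.lt_or_ge z q with h5 | h5
      · exact hp2 q ((hQm q).2 ⟨⟨h5, hq2⟩, hq⟩) hqd
      · refine hpS.2 q hq h5 ?_
        have h6 : (q : ℤ) ∣ (W : ℤ) := Int.natCast_dvd_natCast.2 (hWdvd q hq h5)
        have h7 : (q : ℤ) ∣ Nm (sh (n0 + W * (m : ℤ)) (lin e f p)) - Nm (sh n0 (lin e f p)) := by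
          unfold Nm F sh
          simp only
          set u := (lin e f p).1
          set v := (lin e f p).2
          obtain ⟨y, hy⟩ := h6
          rw [hy]
          exact ⟨y * m * v * (2 * (u + n0 * v) + q * y * m * v + 3 * v), by ring⟩
        exact (Int.dvd_iff_dvd_of_dvd_sub h7).1 hqd
    have h5 : L ^ 2 ≤ cs (win L)
        (fun p => Rough (2 ^ t) (Nm (sh ((AA g t : ℤ) + r + W * m) (lin e f p)))) * t ^ 11 := by
      calc L ^ 2 ≤ t * S.card := hSc
        _ ≤ t * (cs S (fun p => ∀ q ∈ Q, ¬ (q : ℤ) ∣ Nm (sh (n0 + W * (m : ℤ)) (lin e f p))) *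
            t ^ 10) := Nat.mul_le_mul_left _ hc
        _ = cs S (fun p => ∀ q ∈ Q, ¬ (q : ℤ) ∣ Nm (sh (n0 + W * (m : ℤ)) (lin e f p))) * t ^ 11 := by
            ring
        _ ≤ _ := Nat.mul_le_mul_right _ h4
    exact absurd hm (not_lt.2 h5)
  unfold NN
  rw [ap_split (AA g t) W hWpos, sum_mul]
  refine (sum_le_sum hclass).trans ?_
  rw [sum_class (AA g t) W hWpos]

end Pool.Agent.H17.RP
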